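import Pool.Agent.MP_f3cd89_nt.CStm
import Pool.Agent.MP_d64882_nt.Zeta

/-! The density of primes with Frobenius element in a normal subgroup. -/

set_option autoImplicit false

open Finset NumberField IsDedekindDomain Filter Topology Asymptotics

namespace Pool.Agent.MP_f3cd89_nt

namespace DensX

open MP_d64882_nt

variable {E : Type} [Field E] [NumberField E]

theorem hasSum_pr {s : ℝ} (hs : 1 < s) :
    HasSum (fun v : Pr E => if (nrm v).Prime then (nrm v : ℝ) ^ (-s) else 0) (D E s) := by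
  refine (HeightOneSpectrum.asIdeal_injective.hasSum_iff (f := fun I : Ideal (𝓞 E) =>
    if (Ideal.absNorm I).Prime then w E s I else 0) fun I hI => if_neg fun h => hI ?_).2
    (hasSum_D E s hs)
  have hp := UniqueFactorizationMonoid.irreducible_iff_prime.1
    (Ideal.irreducible_of_irreducible_absNorm h)
  exact ⟨⟨I, Ideal.isPrime_of_prime hp, hp.ne_zero⟩, rfl⟩

theorem np_le : ∃ C : ℝ, ∀ s : ℝ, 1 < s → ∀ T : Finset (Pr E),
    ∑ v ∈ T, (if (nrm v).Prime then 0 else (nrm v : ℝ) ^ (-s)) ≤ C := by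
  classical
  refine ⟨_, fun s hs T => le_of_eq_of_le ?_ (sum_nonprime_le E s hs
    ((T.filter fun v => ¬(nrm v).Prime).image HeightOneSpectrum.asIdeal) fun P hP => ?_)⟩
  · rw [sum_image HeightOneSpectrum.asIdeal_injective.injOn, sum_filter]
    exact sum_congr rfl fun v _ => by split_ifs <;> rfl
  · obtain ⟨v, hv, rfl⟩ := mem_image.1 hP
    exact ⟨v.prime, (mem_filter.1 hv).2⟩

theorem pow_le {s : ℝ} (hs : 1 < s) (v : Pr E) : (nrm v : ℝ) ^ (-s) ≤ 1 :=
  Real.rpow_le_one_of_one_le_of_nonpos (by exact_mod_cast (two_le_nrm v).trans' one_le_two)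
    (by linarith)

open Classical in
theorem cmp (W : Pr E → Prop) [DecidablePred W] (T : Finset (Pr E)) (h : ∀ v, (nrm v).Prime → W v ∨ v ∈ T)
    (B : ℝ → ℝ)
    (hB : ∀ s : ℝ, 1 < s → HasSum (fun v => if W v then (nrm v : ℝ) ^ (-s) else 0) (B s)) :
    (fun s : ℝ => B s + Real.log (s - 1)) =O[𝓝[>] 1] fun _ => (1 : ℝ) := by
  obtain ⟨C, hC⟩ := np_le (E := E)
  have h0 : ∀ (s : ℝ) (v : Pr E), 0 ≤ (nrm v : ℝ) ^ (-s) := fun s v => by positivity
  have h1 : (fun s : ℝ => B s - D E s) =O[𝓝[>] 1] fun _ => (1 : ℝ) := by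
    refine IsBigO.of_bound (|C| + T.card) ?_
    filter_upwards [self_mem_nhdsWithin] with s hs
    have a1 : B s ≤ D E s + C := hasSum_le_of_sum_le (hB s hs) fun A => by
      refine le_trans ?_ (add_le_add (sum_le_hasSum A (fun v _ => by
        split_ifs; exacts [h0 s v, le_rfl]) (hasSum_pr hs)) (hC s hs A))
      rw [← sum_add_distrib]
      exact sum_le_sum fun v _ => by split_ifs <;> linarith [h0 s v]
    have a2 : D E s ≤ B s + T.card := by
      have a3 : HasSum (fun v => if v ∈ T then (1 : ℝ) else 0) T.card := by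
        have := hasSum_sum_of_ne_finset_zero (f := fun v => if v ∈ T then (1 : ℝ) else 0) (s := T)
          (L := SummationFilter.unconditional _) fun v hv => if_neg hv
        rwa [sum_congr rfl fun v hv => if_pos hv, sum_const, nsmul_eq_mul, mul_one] at this
      refine hasSum_le (fun v => ?_) (hasSum_pr hs) ((hB s hs).add a3)
      have := h0 s v
      have := pow_le hs v
      by_cases hv : (nrm v).Prime
      · rcases h v hv with h' | h'
        · rw [if_pos hv, if_pos h']; split_ifs <;> linarith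
        · rw [if_pos hv, if_pos h']; split_ifs <;> linarith
      · rw [if_neg hv]; split_ifs <;> linarith
    rw [Real.norm_eq_abs, norm_one, mul_one, abs_le]
    have : (0 : ℝ) ≤ T.card := Nat.cast_nonneg _
    constructor <;> linarith [le_abs_self C, abs_nonneg C]
  exact (h1.add (D_asymp E)).congr_left fun s => by ring

open Classical in
theorem base (hF : FB_st) (hC : NTC_st) (F E G : Type) [Field F] [NumberField F] [Field E]
    [NumberField E] [Algebra F E] [Group G] [Finite G] [MulSemiringAction G E]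
    [IsGaloisGroup G F E] (S : Finset (Pr F)) (ψ : Pr F → G) (hU : Unr E G S)
    (hψ : IsFrob E S ψ) :
    (fun s : ℝ => (Nat.card G : ℝ) *
      (∑' v : Pr F, if v ∉ S ∧ ψ v = 1 then (nrm v : ℝ) ^ (-s) else 0) +
      Real.log (s - 1)) =O[𝓝[>] 1] fun _ => (1 : ℝ) := by
  obtain ⟨f1, f2, -, -, f5, -, -, f8⟩ := hF F E G
  have hn : ∀ w : Pr E, w.under (𝓞 F) ∉ S →
      nrm w = nrm (w.under (𝓞 F)) ^ orderOf (ψ (w.under (𝓞 F))) := fun w hw => by
    obtain ⟨w₀, e, h₀⟩ := hψ _ hw
    obtain ⟨g, hg⟩ := f2 w₀ w e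
    have := f5 w₀ _ g h₀
    rw [hg] at this
    rw [(f8 w _ (hU w hw) this).2.2, ← MulAut.conj_apply, MulEquiv.orderOf_eq]
  refine cmp (E := E) (fun w => w.under (𝓞 F) ∉ S ∧ ψ (w.under (𝓞 F)) = 1) (above E S)
    (fun w hw => ?_) _ fun s hs => ?_
  · by_cases h : w.under (𝓞 F) ∈ S
    · exact .inr (mem_above.2 h)
    · rw [hn w h] at hw
      exact .inl ⟨h, orderOf_eq_one_iff.1 hw.eq_one_of_pow⟩
  · have hs1 : Summable fun w : Pr E =>
        if w.under (𝓞 F) ∉ S ∧ ψ (w.under (𝓞 F)) = 1 then (nrm w : ℝ) ^ (-s) else 0 :=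
      Summable.of_nonneg_of_le (fun w => by split_ifs <;> positivity)
        (fun w => by split_ifs; exacts [le_rfl, by positivity]) ((hC E).2.2.2.1 s hs)
    have h2 := ((Equiv.sigmaFiberEquiv fun w : Pr E => w.under (𝓞 F)).hasSum_iff.2
      hs1.hasSum).sigma (g := fun v => (Nat.card G : ℝ) *
        if v ∉ S ∧ ψ v = 1 then (nrm v : ℝ) ^ (-s) else 0) fun v => by
      change HasSum (fun w : {w : Pr E // w.under (𝓞 F) = v} =>
        if w.1.under (𝓞 F) ∉ S ∧ ψ (w.1.under (𝓞 F)) = 1 then (nrm w.1 : ℝ) ^ (-s) else 0) _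
      by_cases hv : v ∉ S ∧ ψ v = 1
      · obtain ⟨w₀, e, h₀⟩ := hψ v hv.1
        have h3 := (f8 w₀ _ (hU w₀ (e ▸ hv.1)) h₀).2.1
        have hb : Function.Bijective fun g : G =>
            (⟨gact g w₀, (f1 g w₀).trans e⟩ : {w : Pr E // w.under (𝓞 F) = v}) := by
          refine ⟨fun g g' h => ?_, fun w => ?_⟩
          · have h4 : gact g w₀ = gact g' w₀ := congrArg Subtype.val h
            have h5 := (h3 (g'⁻¹ * g)).1 (by rw [gact_mul, h4, ← gact_mul, inv_mul_cancel, gact_one])
            rw [hv.2, Subgroup.zpowers_one_eq_bot, Subgroup.mem_bot, inv_mul_eq_one] at h5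
            exact h5.symm
          · exact (f2 w₀ w.1 (e.trans w.2.symm)).imp fun g hg => Subtype.ext hg
        have := Finite.of_surjective _ hb.2
        have := Fintype.ofFinite {w : Pr E // w.under (𝓞 F) = v}
        convert hasSum_fintype _ using 1
        rw [sum_congr rfl (g := fun _ => (nrm v : ℝ) ^ (-s)) fun w _ => by
          rw [hn w.1 (w.2.symm ▸ hv.1), w.2, if_pos hv, hv.2, orderOf_one, pow_one],
          sum_const, card_univ, nsmul_eq_mul, if_pos hv, Nat.card_eq_of_bijective _ hb,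
          Nat.card_eq_fintype_card]
      · rw [if_neg hv, mul_zero]
        convert hasSum_zero with w
        rw [w.2, if_neg hv]
    rw [← tsum_mul_left, h2.tsum_eq]
    exact hs1.hasSum

end DensX

open DensX in
theorem dens (hF : FB_st) (hT : TOW_st) (hC : NTC_st) : DENS_st := by
  classical
  intro F L G _ _ _ _ _ _ _ _ _ S φ U hU hS hφ
  have key : ∀ V : Subgroup G, V.Normal → (fun s : ℝ => (V.index : ℝ) *
      (∑' v : Pr F, if v ∉ S ∧ φ v ∈ V then (nrm v : ℝ) ^ (-s) else 0) +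
      Real.log (s - 1)) =O[𝓝[>] 1] fun _ => (1 : ℝ) := fun V hV => by
    let E : IntermediateField F L := FixedPoints.intermediateField V
    obtain ⟨h1, -, h2⟩ := (hT F E L G).2.2.2 (G ⧸ V) (QuotientGroup.mk' V) fun g x =>
      (IsGaloisGroup.algebraMap_smulOfNormal G E L V g x).symm
    have := base hF hC F E (G ⧸ V) S _ (h1 S hS) (h2 S φ hφ)
    simp only [QuotientGroup.mk'_apply, QuotientGroup.eq_one_iff] at this
    exact this
  refine ⟨by convert key U hU, fun h => ?_⟩
  have h1 := key U hU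
  have h2 := (key ⊤ inferInstance).const_mul_left (U.index : ℝ)
  have e : ∀ v, (v ∉ S ∧ φ v ∈ U) = (v ∉ S ∧ φ v ∈ (⊤ : Subgroup G)) := fun v =>
    propext (and_congr_right fun hv => iff_of_true (h v hv) trivial)
  simp only [e] at h1
  have h3 : (fun s : ℝ => ((U.index : ℝ) - 1) * Real.log (s - 1)) =O[𝓝[>] 1] fun _ => (1 : ℝ) :=
    (h2.sub h1).congr_left fun s => by rw [Subgroup.index_top]; push_cast; ring
  by_contra hn
  rw [isBigO_const_mul_left_iff (sub_ne_zero.2 fun h =>
    hn (Subgroup.index_eq_one.1 (by exact_mod_cast h)))] at h3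
  obtain ⟨c, hc⟩ := h3.bound
  have h4 : Tendsto (fun s : ℝ => Real.log (s - 1)) (𝓝[>] 1) atBot := by
    refine Real.tendsto_log_nhdsGT_zero.comp (tendsto_nhdsWithin_iff.2 ⟨?_, ?_⟩)
    · exact ((continuous_sub_right (1 : ℝ)).tendsto' 1 0 (sub_self _)).mono_left nhdsWithin_le_nhds
    · filter_upwards [self_mem_nhdsWithin] with s hs using sub_pos.2 (Set.mem_Ioi.1 hs)
  obtain ⟨s, a1, a2⟩ := (hc.and (h4.eventually (eventually_lt_atBot (-c)))).exists
  rw [norm_one, mul_one, Real.norm_eq_abs, abs_le] at a1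
  linarith [a1.1]

end Pool.Agent.MP_f3cd89_nt
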