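import Pool.Agent.MP_f3cd89_nt.CStm

/-! Frobenius elements, decomposition groups and towers. -/

set_option autoImplicit false

open NumberField IsDedekindDomain Pointwise

namespace Pool.Agent.MP_f3cd89_nt

namespace FbX

theorem pow_iff {k : Type} [Field k] [Finite k] {q f n : ℕ} (hq : 2 ≤ q)
    (hk : Nat.card k = q ^ f) : (∀ x : k, x ^ q ^ n = x) ↔ f ∣ n := by
  have := Fintype.ofFinite k
  rw [Nat.card_eq_fintype_card] at hk
  constructor
  · intro h
    have h0 : ∀ m, 1 ≤ q ^ m := fun m => Nat.one_le_pow m q (by omega)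
    have h1 : Fintype.card k - 1 ∣ q ^ n - 1 := by
      rw [← FiniteField.forall_pow_eq_one_iff]
      intro x
      have h2 : x ^ q ^ n = x := Units.ext (by simpa using h x)
      rw [← Nat.sub_add_cancel (h0 n), pow_succ] at h2
      simpa using h2
    rw [hk, ← Nat.gcd_eq_left_iff_dvd, Nat.pow_sub_one_gcd_pow_sub_one] at h1
    rw [← Nat.gcd_eq_left_iff_dvd]
    refine Nat.pow_right_injective hq ?_
    have := h0 (f.gcd n)
    have := h0 f
    simp only
    omega
  · rintro ⟨m, rfl⟩ x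
    rw [pow_mul, ← hk, FiniteField.pow_card_pow]

theorem card_eq {E : Type} [Field E] [NumberField E] (w : Pr E) :
    Nat.card (𝓞 E ⧸ w.asIdeal) = nrm w := by
  rw [nrm, Ideal.absNorm_apply, Submodule.cardQuot_apply]

theorem mem_iff {E : Type} [Field E] [NumberField E] (w : Pr E) {q f n : ℕ} (hq : 2 ≤ q)
    (h : nrm w = q ^ f) : (∀ x : 𝓞 E, x ^ q ^ n - x ∈ w.asIdeal) ↔ f ∣ n := by
  have := w.isMaximal
  have := w.asIdeal.finiteQuotientOfFreeOfNeBot w.ne_bot
  let := Ideal.Quotient.field w.asIdeal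
  rw [← pow_iff hq ((card_eq w).trans h), Ideal.Quotient.mk_surjective.forall]
  exact forall_congr' fun x => by rw [← map_pow, Ideal.Quotient.eq]

variable {F L G : Type} [Field F] [NumberField F] [Field L] [NumberField L]
  [Algebra F L] [Group G] [MulSemiringAction G L] [IsGaloisGroup G F L]

theorem frob_iff {w : Pr L} {g : G} : IsArithFrobAt (𝓞 F) g w.asIdeal ↔
    ∀ x : 𝓞 L, g • x - x ^ nrm (w.under (𝓞 F)) ∈ w.asIdeal := by
  rw [← card_eq]
  exact Iff.rfl

theorem frob_pow {w : Pr L} {g : G} (h : IsArithFrobAt (𝓞 F) g w.asIdeal) (n : ℕ) (x : 𝓞 L) :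
    g ^ n • x - x ^ nrm (w.under (𝓞 F)) ^ n ∈ w.asIdeal := by
  induction n with
  | zero => simp
  | succ n ih =>
    rw [← Ideal.Quotient.eq, map_pow] at ih ⊢
    rw [pow_succ', mul_smul, pow_succ, pow_mul, ← ih, ← map_pow, Ideal.Quotient.eq]
    exact frob_iff.1 h _

omit [NumberField L] in
theorem eq_of {w : Pr L} {g h : G} (hw : w.asIdeal.inertia G = ⊥)
    (e : ∀ x : 𝓞 L, g • x - h • x ∈ w.asIdeal) : g = h := by
  rw [← mul_inv_eq_one, ← Subgroup.mem_bot, ← hw]
  intro x
  simpa [mul_smul] using e (h⁻¹ • x)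

end FbX

open FbX in
theorem fb : FB_st := by
  intro F L G _ _ _ _ _ _ _ _ _
  have h3 : ∀ w : Pr L, ∃ g : G, IsArithFrobAt (𝓞 F) g w.asIdeal := fun w => by
    have := w.isPrime
    have := w.asIdeal.finiteQuotientOfFreeOfNeBot w.ne_bot
    exact IsArithFrobAt.exists_of_isInvariant (𝓞 F) G w.asIdeal
  have h6 : ∀ w : Pr L, w.asIdeal.inertia G = ⊥ ↔ w.asIdeal.ramificationIdx (𝓞 F) = 1 := by
    intro w
    have := w.isPrime
    have := (w.under (𝓞 F)).isPrime
    have := over_under (E := F) w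
    rw [← Ideal.ramificationIdxIn_eq_ramificationIdx (w.under (𝓞 F)).asIdeal w.asIdeal G,
      ← Ideal.card_inertia_eq_ramificationIdxIn (G := G) _ w.asIdeal, Subgroup.card_eq_one]
  refine ⟨fun g w => ?_, fun w w' h => ?_, h3, fun S => ?_, fun w g h H => ?_, h6,
    fun w h => (h6 w).2 (by have := w.isPrime; exact Ideal.ramificationIdx_eq_one _ _),
    fun w g hw H => ⟨fun g' H' => ?_, ?_⟩⟩
  · refine HeightOneSpectrum.ext ?_
    change (gact g w).asIdeal.under _ = w.asIdeal.under _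
    rw [gact_asIdeal, Ideal.under_smul]
  · have := w.isPrime
    have := w'.isPrime
    have := over_under (E := F) w'
    have : w.asIdeal.LiesOver (w'.under (𝓞 F)).asIdeal := h ▸ over_under w
    obtain ⟨g, hg⟩ := Ideal.exists_smul_eq_of_isGaloisGroup (w'.under (𝓞 F)).asIdeal
      w.asIdeal w'.asIdeal G
    exact ⟨g, HeightOneSpectrum.ext ((gact_asIdeal g w).trans hg)⟩
  · choose w hw using under_surj (E := F) (E' := L)
    choose g hg using h3
    exact ⟨fun v => g (w v), fun v _ => ⟨w v, hw v, hg _⟩⟩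
  · rw [gact_asIdeal]
    exact H.conj h
  · rw [← mul_inv_eq_one, ← Subgroup.mem_bot, ← hw]
    exact H'.mul_inv_mem_inertia H
  · have := w.isPrime
    have := (w.under (𝓞 F)).isPrime
    have hl := over_under (E := F) w
    have ho : orderOf g = w.asIdeal.inertiaDeg (𝓞 F) := Nat.dvd_right_iff_eq.1 fun n => by
      rw [orderOf_dvd_iff_pow_eq_one, ← mem_iff w (two_le_nrm _) (absNorm_over hl),
        ← Subgroup.mem_bot, ← hw, AddSubgroup.mem_inertia]
      exact forall_congr' fun x => Ideal.Quotient.eq.symm.trans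
        ((Ideal.Quotient.eq.2 (frob_pow H n x)).congr_left.trans Ideal.Quotient.eq)
    refine ⟨fun h => ?_, ho ▸ absNorm_over hl⟩
    rw [Subgroup.eq_of_le_of_card_ge (Subgroup.zpowers_le_of_mem H.mem_stabilizer) (by
      rw [Ideal.card_stabilizer_eq_card_inertia_mul_finrank (w.under (𝓞 F)).asIdeal, hw,
        Subgroup.card_bot, one_mul, Nat.card_zpowers, ho]), MulAction.mem_stabilizer_iff,
      ← gact_asIdeal, HeightOneSpectrum.ext_iff]

open FbX in
theorem tow (hF : FB_st) : TOW_st := by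
  intro F E L G _ _ _ _ _ _ _ _ _ _ _ _ _ _
  have h1 : ∀ w : Pr L, (w.under (𝓞 E)).under (𝓞 F) = w.under (𝓞 F) := fun w =>
    HeightOneSpectrum.ext (Ideal.under_under _)
  have h2 : ∀ w : Pr L, w.asIdeal.inertia G = ⊥ →
      (w.under (𝓞 E)).asIdeal.ramificationIdx (𝓞 F) = 1 := fun w hw => by
    have := over_under (E := E) w
    exact Nat.eq_one_of_dvd_one (((hF F L G).2.2.2.2.2.1 w).1 hw ▸
      Ideal.ramificationIdx_below_dvd _ w.asIdeal)
  refine ⟨h1, fun w hw x => ?_, fun U _ _ _ _ i hi => ?_, fun G' _ _ _ _ r hr => ?_⟩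
  · rw [ord_over (over_under _), h2 w hw, h1, Nat.cast_one, one_mul]
  · have hi' : ∀ (u : U) (x : 𝓞 L), i u • x = u • x := fun u x => RingOfIntegers.ext (hi u x)
    have h3 : ∀ w : Pr L, w.asIdeal.inertia G = ⊥ → w.asIdeal.inertia U = ⊥ := fun w hw => by
      refine (Subgroup.eq_bot_iff_forall _).2 fun u hu => ?_
      have e : i u = 1 := eq_of hw fun x => by rw [hi', one_smul]; exact hu x
      have := IsGaloisGroup.faithful (G := U) (A := E) (B := L)
      exact eq_of_smul_eq_smul (α := L) fun x => by rw [← hi, e, one_smul, one_smul]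
    refine ⟨h3, fun u w => ?_, fun S hS w hw => h3 w (hS w ?_), fun w g f hw H hf => ?_⟩
    · ext a
      rw [gact_asIdeal, gact_asIdeal, Ideal.mem_pointwise_smul_iff_inv_smul_mem,
        Ideal.mem_pointwise_smul_iff_inv_smul_mem, ← map_inv, hi']
    · rwa [mem_above, h1] at hw
    · have hn := absNorm_over (over_under (E := F) (w.under (𝓞 E)))
      rw [h1] at hn
      have e : (w.under (𝓞 E)).asIdeal.inertiaDeg (𝓞 F) = f := by
        refine Nat.dvd_antisymm ((mem_iff _ (two_le_nrm _) hn).1 fun x => ?_) ((hf _).1 ?_)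
        · obtain ⟨u, hu⟩ := (hf f).2 dvd_rfl
          have a := frob_pow H f (algebraMap (𝓞 E) (𝓞 L) x)
          rw [← hu, hi', smul_algebraMap, ← map_pow, ← map_sub] at a
          rw [← neg_sub]
          exact neg_mem a
        · obtain ⟨u, hu⟩ := (hF E L U).2.2.1 w
          refine ⟨u, eq_of hw fun x => ?_⟩
          have a := frob_iff.1 hu x
          rw [← hi', nrm, hn] at a
          exact sub_sub_sub_cancel_right (i u • x) _ _ ▸ sub_mem a (frob_pow H _ x)
      rw [e] at hn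
      refine ⟨hn, e, fun u hu => frob_iff.2 fun x => ?_⟩
      rw [← hi', hu, nrm, hn]
      exact frob_pow H f x
  · have h4 : ∀ (w : Pr L) (g : G), IsArithFrobAt (𝓞 F) g w.asIdeal →
        IsArithFrobAt (𝓞 F) (r g) (w.under (𝓞 E)).asIdeal := fun w g H => frob_iff.2 fun x => by
      have a := frob_iff.1 H (algebraMap (𝓞 E) (𝓞 L) x)
      rw [show g • algebraMap (𝓞 E) (𝓞 L) x = algebraMap (𝓞 E) (𝓞 L) (r g • x) from
        RingOfIntegers.ext (hr g x), ← map_pow, ← map_sub] at a
      rw [h1]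
      exact a
    refine ⟨fun S hS w hw => ?_, h4, fun S φ hφ v hv => ?_⟩
    · obtain ⟨w, rfl⟩ := under_surj (E' := L) w
      exact ((hF F E G').2.2.2.2.2.1 _).2 (h2 w (hS w (h1 w ▸ hw)))
    · obtain ⟨w, e, H⟩ := hφ v hv
      exact ⟨w.under (𝓞 E), (h1 w).trans e, h4 w _ H⟩

end Pool.Agent.MP_f3cd89_nt
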