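import Pool.Agent.MP_f3cd89_nt.SStm
import Pool.Agent.MP_d64882_nt.Zeta

set_option autoImplicit false

open Finset NumberField IsDedekindDomain

namespace Pool.Agent.MP_f3cd89_nt

namespace NtcX

variable {F : Type} [Field F] [NumberField F]

omit [NumberField F] in
theorem bnd (D : Pr F →₀ ℤ) : ∃ n : ℤ, ∀ v, D v ≤ n := by
  obtain ⟨n, hn⟩ := D.finite_range.bddAbove
  exact ⟨n, fun v => hn ⟨v, rfl⟩⟩

theorem lat_sup (D E : Pr F →₀ ℤ) : lat D ⊔ lat E = lat (D ⊓ E) := by
  classical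
  refine le_antisymm (sup_le (fun y hy v => (hy v).trans ?_) fun y hy v => (hy v).trans ?_)
    fun y hy => ?_
  · rw [WithZero.exp_le_exp, Finsupp.inf_apply]
    omega
  · rw [WithZero.exp_le_exp, Finsupp.inf_apply]
    omega
  obtain ⟨n, hn⟩ := bnd (D ⊔ E)
  obtain ⟨a, -, h1, h2⟩ := wa (D.support ∪ E.support) (fun v => if D v ≤ E v then y else 0) (-n)
  have hD : ∀ v, WithZero.exp (-n) ≤ WithZero.exp (-D v) := fun v => by
    have := hn v
    rw [Finsupp.sup_apply] at this
    rw [WithZero.exp_le_exp]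
    omega
  have hE : ∀ v, WithZero.exp (-n) ≤ WithZero.exp (-E v) := fun v => by
    have := hn v
    rw [Finsupp.sup_apply] at this
    rw [WithZero.exp_le_exp]
    omega
  have key : ∀ v : Pr F, v.valuation F a ≤ WithZero.exp (-D v) ∧
      v.valuation F (y - a) ≤ WithZero.exp (-E v) := fun v => by
    have h3 := hy v
    rw [Finsupp.inf_apply] at h3
    by_cases hv : v ∈ D.support ∪ E.support
    · have h4 := h1 v hv
      split_ifs at h4 with h
      · rw [min_eq_left h] at h3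
        refine ⟨?_, by rw [Valuation.map_sub_swap]; exact h4.trans (hE v)⟩
        rw [← sub_add_cancel a y]
        exact Valuation.map_add_le _ (h4.trans (hD v)) h3
      · rw [min_eq_right (not_le.1 h).le] at h3
        rw [sub_zero] at h4
        exact ⟨h4.trans (hD v), Valuation.map_sub_le _ h3 (h4.trans (hE v))⟩
    · have h4 := h2 v hv
      rw [mem_union, not_or, Finsupp.notMem_support_iff, Finsupp.notMem_support_iff] at hv
      rw [hv.1, hv.2] at h3 ⊢
      exact ⟨h4, Valuation.map_sub_le _ h3 h4⟩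
  rw [← add_sub_cancel a y]
  exact AddSubgroup.add_mem_sup (fun v => (key v).1) fun v => (key v).2

theorem ex_ord (T : Finset (Pr F)) (D : Pr F →₀ ℤ) :
    ∃ x : F, x ≠ 0 ∧ (∀ v ∈ T, ord v x = D v) ∧ ∀ v, v ∉ T → 0 ≤ ord v x := by
  choose p p0 p1 using fun v : Pr F => exists_ord_eq_one v
  obtain ⟨n, hn⟩ := bnd D
  obtain ⟨x, x0, h1, h2⟩ := wa T (fun v => (p v : F) ^ D v) (-(n + 1))
  refine ⟨x, x0, fun v hv => ?_, fun v hv => ?_⟩
  · have h0 : (p v : F) ^ D v ≠ 0 := zpow_ne_zero _ (by simpa using p0 v)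
    have h3 : ord v ((p v : F) ^ D v) = D v := by rw [ord_zpow, p1, mul_one]
    rw [← h3, ord, ord, Valuation.map_eq_of_sub_lt _ ((h1 v hv).trans_lt ?_)]
    rw [val_eq_exp v h0, h3, WithZero.exp_lt_exp]
    have := hn v
    omega
  · have h3 := h2 v hv
    rw [val_eq_exp v x0, ← WithZero.exp_zero, WithZero.exp_le_exp] at h3
    omega

theorem mul_mem_lat {x : F} (hx : x ≠ 0) (D : Pr F →₀ ℤ) (y : F) :
    x * y ∈ lat D ↔ y ∈ lat (D - dv x) := by
  refine forall_congr' fun v => ?_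
  rw [map_mul, val_eq_exp v hx, ← le_div_iff₀' WithZero.exp_pos, ← WithZero.exp_sub,
    Finsupp.sub_apply, dv_apply, neg_sub_neg, neg_sub]

theorem mem_lat_dv {x : F} (hx : x ≠ 0) (y : F) : y ∈ lat (dv x) ↔ ∃ a : 𝓞 F, x * a = y := by
  conv_lhs => rw [← mul_div_cancel₀ y hx, mul_mem_lat hx, sub_self]
  constructor
  · intro h
    obtain ⟨a, ha⟩ := HeightOneSpectrum.mem_integers_of_valuation_le_one (R := 𝓞 F) F (y / x) h
    exact ⟨a, by rw [show (a : F) = y / x from ha, mul_div_cancel₀ y hx]⟩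
  · rintro ⟨a, rfl⟩ v
    rw [mul_div_cancel_left₀ _ hx]
    exact v.valuation_le_one a

/-- the integral ideal of an effective divisor -/
noncomputable def idl (E : Pr F →₀ ℤ) : Ideal (𝓞 F) :=
  ∏ v ∈ E.support, v.asIdeal ^ (E v).toNat

theorem mem_idl (E : Pr F →₀ ℤ) (a : 𝓞 F) : a ∈ idl E ↔ (a : F) ∈ lat E := by
  have key : ∀ v : Pr F, a ∈ v.asIdeal ^ (E v).toNat ↔
      v.valuation F (a : F) ≤ WithZero.exp (-E v) := fun v => by
    rw [← v.intValuation_le_pow_iff_mem, show v.valuation F (a : F) = _ from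
      v.valuation_of_algebraMap a]
    rcases le_total 0 (E v) with h | h
    · rw [Int.toNat_of_nonneg h]
    · rw [Int.toNat_of_nonpos h]
      have h1 := v.intValuation_le_one a
      exact iff_of_true h1 (h1.trans (by
        rw [← WithZero.exp_zero, WithZero.exp_le_exp]
        omega))
  rw [idl, ← inf_pow_eq_prod_of_prime _ _ _ (fun v _ => v.prime)
    fun v _ w _ h e => h (HeightOneSpectrum.ext e), Submodule.mem_finsetInf, mem_lat]
  refine ⟨fun h v => (key v).1 ?_, fun h v _ => (key v).2 (h v)⟩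
  by_cases hv : v ∈ E.support
  · exact h v hv
  · rw [Finsupp.notMem_support_iff.1 hv]
    simp

theorem norm_idl {E : Pr F →₀ ℤ} (hE : 0 ≤ E) : (Ideal.absNorm (idl E) : ℝ) = nmD E := by
  rw [idl, map_prod, Nat.cast_prod, nmD, Finsupp.prod]
  refine prod_congr rfl fun v _ => ?_
  rw [map_pow, Nat.cast_pow, ← zpow_natCast, Int.toNat_of_nonneg (hE v)]

theorem index (D E : Pr F →₀ ℤ) (hE : 0 ≤ E) :
    ((lat (D + E)).relIndex (lat D) : ℝ) = nmD E := by
  classical
  obtain ⟨x, x0, h1, h2⟩ := ex_ord (D.support ∪ E.support) D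
  let φ : 𝓞 F →+ F := (AddMonoidHom.mulLeft x).comp (algebraMap (𝓞 F) F).toAddMonoidHom
  have e1 : φ.range = lat (dv x) := by
    ext y
    exact (mem_lat_dv x0 y).symm
  have e2 : dv x ⊓ (D + E) = D := by
    ext v
    rw [Finsupp.inf_apply, dv_apply, Finsupp.add_apply]
    have h3 : 0 ≤ E v := hE v
    by_cases hv : v ∈ D.support ∪ E.support
    · rw [h1 v hv]
      omega
    · have h4 := h2 v hv
      rw [mem_union, not_or, Finsupp.notMem_support_iff, Finsupp.notMem_support_iff] at hv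
      omega
  have e3 : (lat (D + E)).comap φ = (idl E).toAddSubgroup := by
    ext a
    refine (mul_mem_lat x0 _ _).trans (Iff.trans (forall_congr' fun v => ?_) (mem_idl E a).symm)
    rw [Finsupp.sub_apply, dv_apply, Finsupp.add_apply]
    by_cases hv : v ∈ D.support ∪ E.support
    · rw [h1 v hv, add_sub_cancel_left]
      rfl
    · have h4 := h2 v hv
      have h5 := v.valuation_le_one (K := F) a
      rw [mem_union, not_or, Finsupp.notMem_support_iff, Finsupp.notMem_support_iff] at hv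
      rw [hv.1, hv.2]
      exact iff_of_true (h5.trans (by
        rw [← WithZero.exp_zero, WithZero.exp_le_exp]
        omega)) h5
  conv_lhs => rw [← congrArg lat e2, ← lat_sup, AddSubgroup.relIndex_sup_right, ← e1,
    ← AddSubgroup.index_comap, e3]
  rw [← norm_idl hE, Ideal.absNorm_apply, Submodule.cardQuot_apply]
  rfl

theorem nmD_add (D E : Pr F →₀ ℤ) : nmD (D + E) = nmD D * nmD E :=
  Finsupp.prod_add_index' (fun _ => zpow_zero _) fun v _ _ =>
    zpow_add₀ (by have := two_le_nrm v; positivity) _ _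

theorem nmD_int {a : 𝓞 F} (ha : a ≠ 0) :
    nmD (dv (a : F)) = |((Algebra.norm ℚ (a : F) : ℚ) : ℝ)| := by
  have a0 : (a : F) ≠ 0 := by simpa using ha
  have e : idl (dv (a : F)) = Ideal.span {a} := by
    ext b
    rw [mem_idl, mem_lat_dv a0, Ideal.mem_span_singleton']
    refine exists_congr fun c => ?_
    rw [mul_comm c, ← RingOfIntegers.coe_injective.eq_iff, map_mul]
  rw [← norm_idl fun v => ord_nonneg v a, e, Ideal.absNorm_span_singleton,
    ← Algebra.coe_norm_int, Nat.cast_natAbs]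
  simp

theorem nmD_dv (x : F) (hx : x ≠ 0) : nmD (dv x) = |((Algebra.norm ℚ x : ℚ) : ℝ)| := by
  obtain ⟨a, b, hb, h⟩ := IsFractionRing.div_surjective (A := 𝓞 F) x
  have hb' := nonZeroDivisors.ne_zero hb
  have b0 : (b : F) ≠ 0 := by simpa using hb'
  have h' : (a : F) = x * b := (div_eq_iff b0).1 h
  have ha : a ≠ 0 := by
    rintro rfl
    exact mul_ne_zero hx b0 h'.symm
  have h1 := nmD_int ha
  rw [h', dv_mul hx b0, nmD_add, nmD_int hb', map_mul, Rat.cast_mul, abs_mul] at h1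
  exact mul_right_cancel₀ (by simpa using b0) h1

theorem ex_out (S : Finset (Pr F)) : ∃ v, v ∉ S := by
  have h0 : 0 < ∏ v ∈ S, nrm v := prod_pos fun v _ => by
    have := two_le_nrm v
    omega
  have h1 : ¬IsUnit (((∏ v ∈ S, nrm v + 1 : ℕ) : ℤ)) := by
    rw [Int.isUnit_iff]
    omega
  rw [← isUnit_map_iff (algebraMap ℤ (𝓞 F)), map_natCast] at h1
  obtain ⟨m, hm, h2⟩ := exists_max_ideal_of_mem_nonunits h1
  refine ⟨⟨m, hm.isPrime, fun e => ?_⟩, fun hv => ?_⟩
  · rw [e, Ideal.mem_bot, Nat.cast_eq_zero] at h2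
    omega
  · obtain ⟨c, hc⟩ := dvd_prod_of_mem nrm hv
    rw [hc, Nat.cast_add, Nat.cast_mul, Nat.cast_one] at h2
    exact hm.ne_top ((Ideal.eq_top_iff_one _).2
      ((Ideal.add_mem_iff_right _ (Ideal.mul_mem_right _ _ (Ideal.absNorm_mem m))).1 h2))

end NtcX

theorem ntc : NTC_st := by
  intro F _ _
  refine ⟨NtcX.index, NtcX.lat_sup, NtcX.nmD_dv, fun s hs => ?_, NtcX.ex_out, fun v => ?_⟩
  · exact (MP_d64882_nt.hasSum_w F s hs).summable.comp_injective
      (i := fun v : Pr F => v.asIdeal) fun _ _ h => HeightOneSpectrum.ext h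
  · have := v.isMaximal
    obtain ⟨p, n, h1, h2, h3, h4⟩ := Ideal.exists_prime_and_absNorm_eq_pow v.asIdeal
    exact ⟨p, h3, h2, n, h1, h4⟩

end Pool.Agent.MP_f3cd89_nt
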