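import Pool.Agent.MP_f3cd89_nt.SStm

/-! Approximation and finiteness of ray class groups. -/

set_option autoImplicit false

open NumberField IsDedekindDomain Filter

namespace Pool.Agent.MP_f3cd89_nt

namespace NtbX

variable {E : Type} [Field E] [NumberField E]

theorem val_mem (v : Pr E) {z : 𝓞 E} {k : ℕ} (hz : z ∈ v.asIdeal ^ k) :
    v.valuation E (z : E) ≤ WithZero.exp (-(k : ℤ)) :=
  (v.valuation_of_algebraMap z).le.trans ((v.intValuation_le_pow_iff_mem z _).2 hz)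

theorem approx (T : Finset (Pr E)) (a : Pr E → E) (n : ℤ) : ∃ x : E, x ≠ 0 ∧ TPos x ∧
    (∀ v ∈ T, v.valuation E (x - a v) ≤ WithZero.exp n) ∧ ∀ v, v ∉ T → v.valuation E x ≤ 1 := by
  obtain ⟨x, -, h1, h2⟩ := wa T a n
  obtain ⟨M, hM, hM'⟩ : ∃ M : ℕ, 0 < M ∧ ∀ v ∈ T, (M : 𝓞 E) ∈ v.asIdeal ^ n.natAbs := by
    refine ⟨(∏ v ∈ T, nrm v) ^ n.natAbs, pow_pos (Finset.prod_pos fun v _ =>
      lt_of_lt_of_le two_pos (two_le_nrm v)) _, fun v hv => ?_⟩
    rw [Nat.cast_pow]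
    refine Ideal.pow_mem_pow ?_ _
    obtain ⟨c, hc⟩ := Finset.dvd_prod_of_mem (fun v : Pr E => nrm v) hv
    rw [hc, Nat.cast_mul]
    exact Ideal.mul_mem_right _ _ (Ideal.absNorm_mem _)
  have e1 : ∀ᶠ t : ℕ in atTop, ∀ φ : E →+* ℝ, 0 < φ (x + t * M) := by
    refine eventually_all.2 fun φ => ?_
    filter_upwards [(tendsto_natCast_atTop_atTop (R := ℝ)).eventually_gt_atTop |φ x|] with t ht
    have h3 : (1 : ℝ) ≤ M := by exact_mod_cast hM
    have h4 := neg_abs_le (φ x)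
    have h5 : (0 : ℝ) ≤ t := Nat.cast_nonneg t
    rw [map_add, map_mul, map_natCast, map_natCast]
    nlinarith
  have e2 : ∀ᶠ t : ℕ in atTop, x + t * M ≠ 0 := by
    rw [← Nat.cofinite_eq_atTop, eventually_cofinite]
    refine Set.Subsingleton.finite fun s hs t ht => ?_
    simp only [Set.mem_ofPred_eq, not_not] at hs ht
    have h3 : (M : E) ≠ 0 := by exact_mod_cast hM.ne'
    exact_mod_cast mul_right_cancel₀ h3 (add_left_cancel (hs.trans ht.symm))
  obtain ⟨t, ht1, ht2⟩ := (e1.and e2).exists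
  have e3 : (((t : 𝓞 E) * M : 𝓞 E) : E) = t * M := by simp
  refine ⟨x + t * M, ht2, ht1, fun v hv => ?_, fun v hv => ?_⟩
  · rw [add_sub_right_comm]
    refine Valuation.map_add_le _ (h1 v hv) ?_
    rw [← e3]
    exact (val_mem v (Ideal.mul_mem_left _ _ (hM' v hv))).trans (WithZero.exp_le_exp.2 (by omega))
  · refine Valuation.map_add_le _ (h2 v hv) ?_
    rw [← e3]
    exact v.valuation_le_one _

theorem exp_le_one (N : ℕ) : WithZero.exp (-(N : ℤ)) ≤ 1 := by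
  rw [← WithZero.exp_zero, WithZero.exp_le_exp]
  omega

theorem cong_mul {S : Finset (Pr E)} {N : ℕ} {x y : E} (hx : Cong S N x) (hy : Cong S N y) :
    Cong S N (x * y) := by
  intro v hv
  have h1 : v.valuation E x ≤ 1 := by
    rw [← sub_add_cancel x 1]
    exact Valuation.map_add_le _ ((hx v hv).trans (exp_le_one N)) (map_one _).le
  rw [show x * y - 1 = x * (y - 1) + (x - 1) by ring]
  refine Valuation.map_add_le _ ?_ (hx v hv)
  rw [map_mul]
  exact (mul_le_of_le_one_left' h1).trans (hy v hv)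

theorem cong_pow {S : Finset (Pr E)} {N : ℕ} {x : E} (hx : Cong S N x) (k : ℕ) :
    Cong S N (x ^ k) := by
  induction k with
  | zero => intro v _; simp
  | succ k ih => rw [pow_succ]; exact cong_mul ih hx

theorem res_fin (S : Finset (Pr E)) (N : ℕ) : ∃ (β : Type) (_ : Finite β) (r : E → β),
    ∀ y y', (∀ w ∈ S, w.valuation E y = 1) → (∀ w ∈ S, w.valuation E y' = 1) → r y = r y' →
      Cong S N (y / y') := by
  have h : ∀ (w : Pr E) (y : E), ∃ a : 𝓞 E, w.valuation E y = 1 →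
      w.valuation E (a - y) ≤ WithZero.exp (-(N : ℤ)) := by
    intro w y
    by_cases h : w.valuation E y = 1
    · obtain ⟨a, ha⟩ := w.exists_valuation_sub_lt_of_integer h.le
        (Units.mk0 (WithZero.exp (-(N : ℤ))) WithZero.exp_ne_zero)
      exact ⟨a, fun _ => ha.le⟩
    · exact ⟨0, fun h' => absurd h' h⟩
  choose a ha using h
  have : ∀ w : S, Finite (𝓞 E ⧸ w.1.asIdeal ^ N) := fun w =>
    Ideal.finiteQuotientOfFreeOfNeBot _ (pow_ne_zero _ w.1.ne_bot)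
  refine ⟨∀ w : S, 𝓞 E ⧸ w.1.asIdeal ^ N, inferInstance,
    fun y w => Ideal.Quotient.mk _ (a w y), fun y y' hy hy' e w hw => ?_⟩
  have h1 : a w y - a w y' ∈ w.asIdeal ^ N := Ideal.Quotient.eq.1 (congrFun e ⟨w, hw⟩)
  have h2 := val_mem w h1
  rw [show ((a w y - a w y' : 𝓞 E) : E) = (a w y : E) - a w y' from map_sub _ _ _] at h2
  have y0 : y' ≠ 0 := by
    rintro rfl
    simpa using hy' w hw
  rw [div_sub_one y0, map_div₀, hy' w hw, div_one,
    show y - y' = ((a w y : E) - a w y') + ((a w y' : E) - y') - ((a w y : E) - y) by ring]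
  exact Valuation.map_sub_le _ (Valuation.map_add_le _ h2 (ha w y' (hy' w hw))) (ha w y (hy w hw))

theorem ray_fin (S : Finset (Pr E)) (N : ℕ) : ∃ T : Finset (Pr E →₀ ℤ), ∀ D ∈ off S,
    ∃ x, Ray S N x ∧ D - dv x ∈ T := by
  classical
  obtain ⟨cl, hcl⟩ := cls_fin (E := E)
  obtain ⟨β, hβ, r, hr⟩ := res_fin S N
  let c : off S → ClassGroup (𝓞 E) := fun d => cl d.1
  have h : ∀ d : off S, ∃ y : E, y ≠ 0 ∧ (∀ w ∈ S, w.valuation E y = 1) ∧
      ∀ w, d.1 w - (Function.invFun c (c d)).1 w = ord w y := by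
    intro d
    obtain ⟨y, y0, hy⟩ := hcl _ _ (Function.invFun_eq (f := c) ⟨d, rfl⟩).symm
    refine ⟨y, y0, fun w hw => ?_, hy⟩
    rw [val_eq_one_iff w y0, ← hy, d.2 w hw, (Function.invFun c (c d)).2 w hw, sub_zero]
  choose y y0 y1 hy using h
  let G : off S → ClassGroup (𝓞 E) × β × ((E →+* ℝ) → Prop) := fun d =>
    (c d, r (y d), fun φ => 0 < φ (y d))
  refine ⟨(Set.finite_range fun b => (Function.invFun G b).1).toFinset, fun D hD => ?_⟩
  obtain ⟨d', hd', e⟩ : ∃ d', d' = Function.invFun G (G ⟨D, hD⟩) ∧ G ⟨D, hD⟩ = G d' :=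
    ⟨_, rfl, (Function.invFun_eq (f := G) ⟨_, rfl⟩).symm⟩
  refine ⟨y ⟨D, hD⟩ / y d', ⟨div_ne_zero (y0 _) (y0 _), fun φ => ?_,
    hr _ _ (y1 _) (y1 _) (congrArg (fun z => z.2.1) e)⟩,
    (Set.Finite.mem_toFinset _).2 ⟨G ⟨D, hD⟩, ?_⟩⟩
  · have h1 : 0 < φ (y ⟨D, hD⟩) ↔ 0 < φ (y d') :=
      iff_of_eq (congrFun (congrArg (fun z => z.2.2) e) φ)
    have h2 : φ (y ⟨D, hD⟩) ≠ 0 := (map_ne_zero φ).2 (y0 _)
    have h3 : φ (y d') ≠ 0 := (map_ne_zero φ).2 (y0 _)
    rw [map_div₀]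
    by_cases h4 : 0 < φ (y d')
    · exact div_pos (h1.2 h4) h4
    · exact div_pos_of_neg_of_neg (lt_of_le_of_ne (not_lt.1 (mt h1.1 h4)) h2)
        (lt_of_le_of_ne (not_lt.1 h4) h3)
  · dsimp only
    rw [← hd']
    ext w
    rw [Finsupp.sub_apply, dv_apply, ord_div _ (y0 _) (y0 _), ← hy, ← hy,
      show c ⟨D, hD⟩ = c d' from congrArg Prod.fst e]
    ring

theorem expo (S : Finset (Pr E)) (N : ℕ) : ∃ M : ℕ, 0 < M ∧ ∀ x : E, x ≠ 0 →
    (∀ v ∈ S, ord v x = 0) → Cong S N (x ^ M) := by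
  obtain ⟨β, hβ, r, hr⟩ := res_fin S N
  have := Fintype.ofFinite β
  refine ⟨(Fintype.card β).factorial, Nat.factorial_pos _, fun x hx h => ?_⟩
  have h1 : ∀ k : ℕ, ∀ w ∈ S, w.valuation E (x ^ k) = 1 := fun k w hw => by
    rw [map_pow, (val_eq_one_iff w hx).2 (h w hw), one_pow]
  have key : ∀ i j : Fin (Fintype.card β + 1), i < j → r (x ^ j.1) = r (x ^ i.1) →
      Cong S N (x ^ (Fintype.card β).factorial) := by
    intro i j hij e
    have h2 := hr _ _ (h1 _) (h1 _) e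
    have h3 : i.1 < j.1 := hij
    rw [← pow_sub₀ _ hx h3.le |>.trans (div_eq_mul_inv _ _).symm] at h2
    obtain ⟨k, hk⟩ := Nat.dvd_factorial (m := j.1 - i.1) (n := Fintype.card β) (by omega)
      (by have := j.2; omega)
    rw [hk, pow_mul]
    exact cong_pow h2 k
  obtain ⟨i, j, hij, e⟩ := Fintype.exists_ne_map_eq_of_card_lt
    (fun i : Fin (Fintype.card β + 1) => r (x ^ i.1)) (by simp)
  rcases lt_or_gt_of_ne hij with h2 | h2
  · exact key i j h2 e.symm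
  · exact key j i h2 e

theorem val_one {S : Finset (Pr E)} {N : ℕ} (hN : 0 < N) {x : E} (hx : Cong S N x) {v : Pr E}
    (hv : v ∈ S) : v.valuation E x = 1 := by
  refine val_one_of _ ((hx v hv).trans_lt ?_)
  rw [← WithZero.exp_zero, WithZero.exp_lt_exp]
  omega

end NtbX

open NtbX

theorem ntb : NTB_st := by
  intro F _ _
  refine ⟨approx, ray_fin, expo, fun S N hN => ⟨fun x y hx hy => ⟨mul_ne_zero hx.1 hy.1,
    fun φ => ?_, cong_mul hx.2.2 hy.2.2⟩, fun x hx => ⟨inv_ne_zero hx.1, fun φ => ?_,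
    fun v hv => ?_⟩, fun x hx v hv => ?_⟩, fun S N ψ hψ v hv => ?_⟩
  · rw [map_mul]
    exact mul_pos (hx.2.1 φ) (hy.2.1 φ)
  · rw [map_inv₀]
    exact inv_pos.2 (hx.2.1 φ)
  · rw [← one_div, div_sub_one hx.1, map_div₀, val_one hN hx.2.2 hv, div_one,
      Valuation.map_sub_swap]
    exact hx.2.2 v hv
  · exact (val_eq_one_iff v hx.1).1 (val_one hN hx.2.2 hv)
  · obtain ⟨T, hT⟩ := ray_fin S N
    have h1 : IsOfFinOrder (ψ v) := by
      refine finite_powers.1 ((T.finite_toSet.image (chv ψ)).subset ?_)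
      rintro _ ⟨n, rfl⟩
      obtain ⟨x, hx, hx'⟩ := hT (Finsupp.single v (n : ℤ)) fun w hw =>
        Finsupp.single_eq_of_ne fun e => hv (e ▸ hw)
      refine ⟨_, hx', ?_⟩
      rw [sub_eq_add_neg, chv_add, chv_neg, hψ x hx, chv_single, inv_one, mul_one, zpow_natCast]
    exact ((Units.coeHom ℂ).isOfFinOrder h1).norm_eq_one

end Pool.Agent.MP_f3cd89_nt
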