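import Pool.Agent.MP_f3cd89_nt.VlatA

/-! A subgroup of the multiplicative group with trivial first cohomology. -/

set_option autoImplicit false
set_option linter.unusedSectionVars false

open Finset NumberField IsDedekindDomain Module

namespace Pool.Agent.MP_f3cd89_nt

namespace VlatX

section Lat

variable {F L G : Type} [Field F] [Field L] [Algebra F L] [Group G] [Fintype G]
  [MulSemiringAction G L] [SMulCommClass G F L]

/-- the lattice spanned by a basis over a subring -/
def Lam (b : Basis G F L) (R : Subring F) : AddSubgroup L where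
  carrier := {y | ∀ g, b.repr y g ∈ R}
  zero_mem' g := by simp
  add_mem' ha hb g := by simpa using add_mem (ha g) (hb g)
  neg_mem' ha g := by simpa using ha g

theorem repr_smul (b : Basis G F L) (hb : ∀ g, b g = g • b 1) (h g : G) (y : L) :
    b.repr (h • y) g = b.repr y (h⁻¹ * g) := by
  classical
  have : (b.coord g).comp (DistribSMul.toLinearMap F L h) = b.coord (h⁻¹ * g) := by
    refine b.ext fun k => ?_
    have e : h • b k = b (h * k) := by rw [hb k, hb (h * k), mul_smul]
    simp only [LinearMap.comp_apply, DistribSMul.toLinearMap_apply, e, Basis.coord_apply,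
      Basis.repr_self, Finsupp.single_apply, eq_inv_mul_iff_mul_eq]
  exact LinearMap.congr_fun this y

theorem lam_st (b : Basis G F L) (hb : ∀ g, b g = g • b 1) (R : Subring F) (h : G) :
    ∀ y ∈ Lam b R, h • y ∈ Lam b R := fun y hy g => by
  rw [repr_smul b hb]
  exact hy _

theorem lam_basis (b : Basis G F L) (R : Subring F) {r : F} (hr : r ∈ R) (g : G) :
    r • b g ∈ Lam b R := fun k => by
  classical
  rw [map_smul, Basis.repr_self, Finsupp.smul_apply, Finsupp.single_apply]
  split_ifs <;> simp [hr]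

theorem lam_H (b : Basis G F L) (hb : ∀ g, b g = g • b 1) (R : Subring F) (γ : G)
    (hγ : ∀ g, g ∈ Subgroup.zpowers γ) (M : ℕ) :
    ∀ l ∈ Lam b R, ∀ l' ∈ Lam b R, ∑ j ∈ range (Nat.card G), γ ^ j • l = (M : L) * l' →
      ∃ μ ∈ Lam b R, ∃ ν ∈ Lam b R, l = γ • μ - μ + (M : L) * ν := by
  classical
  intro l hl l' hl' h
  let T : AddSubgroup L := (Lam b R).map (DistribSMul.toAddMonoidHom L γ - AddMonoidHom.id L)
  have hT : ∀ y ∈ Lam b R, ∀ j : ℕ, γ ^ j • y - y ∈ T := by
    intro y hy j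
    induction j with
    | zero => simp
    | succ j ih =>
      have : γ ^ (j + 1) • y - y = (γ • γ ^ j • y - γ ^ j • y) + (γ ^ j • y - y) := by
        rw [pow_succ', mul_smul]; ring
      rw [this]
      exact add_mem ⟨γ ^ j • y, lam_st b hb R _ y hy, rfl⟩ ih
  have e1 : ∑ j ∈ range (Nat.card G), γ ^ j • l = ∑ g : G, g • l := by
    rw [← IsCyclic.image_range_card hγ, sum_image]
    intro i hi j hj e
    rw [← orderOf_eq_card_of_forall_mem_zpowers hγ] at hi hj
    exact pow_injOn_Iio_orderOf (by simpa using hi) (by simpa using hj) e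
  have e2 : ∑ g : G, b.repr l g = M * b.repr l' 1 := by
    have := congrArg (fun y => b.repr y 1) (e1.symm.trans h)
    simp only [map_sum, Finsupp.finsetSum_apply, repr_smul b hb, mul_one] at this
    rw [← nsmul_eq_mul, map_nsmul, Finsupp.smul_apply, nsmul_eq_mul] at this
    rw [← this]
    exact (Equiv.sum_comp (Equiv.inv G) fun g => b.repr l g).symm
  have e3 : l - (M : L) * (b.repr l' 1 • b 1) =
      ∑ g : G, (g • (b.repr l g • b 1) - b.repr l g • b 1) := by
    rw [sum_sub_distrib, ← sum_smul, e2, mul_smul, Nat.cast_smul_eq_nsmul, nsmul_eq_mul]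
    congr 1
    conv_lhs => rw [← b.sum_repr l]
    exact sum_congr rfl fun g _ => by rw [smul_comm, ← hb]
  have e4 : l - (M : L) * (b.repr l' 1 • b 1) ∈ T := by
    rw [e3]
    refine sum_mem fun g _ => ?_
    obtain ⟨j, hj⟩ := (mem_powers_iff_mem_zpowers.2 (hγ g))
    have := hT _ (lam_basis b R (hl g) 1) j
    rwa [show γ ^ j = g from hj] at this
  obtain ⟨μ, hμ, e⟩ := e4
  exact ⟨μ, hμ, _, lam_basis b R (hl' 1) 1, eq_add_of_sub_eq e.symm⟩

end Lat

/-- the semilocal ring -/
def OS {E : Type} [Field E] [NumberField E] (S : Finset (Pr E)) : Subring E where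
  carrier := {x | ∀ v ∈ S, v.valuation E x ≤ 1}
  zero_mem' v _ := by simp
  one_mem' v _ := by simp
  add_mem' ha hb v hv := Valuation.map_add_le _ (ha v hv) (hb v hv)
  neg_mem' ha v hv := by simpa using ha v hv
  mul_mem' ha hb v hv := by rw [map_mul]; exact mul_le_one' (ha v hv) (hb v hv)

theorem int_mem {E : Type} [Field E] [NumberField E] (S : Finset (Pr E)) {x : E}
    (hx : IsIntegral ℤ x) : x ∈ OS S := fun v _ => v.valuation_le_one (K := E) ⟨x, hx⟩

variable {F L G : Type} [Field F] [NumberField F] [Field L] [NumberField L] [Algebra F L] [Group G]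
  [Fintype G] [MulSemiringAction G L] [IsGaloisGroup G F L] (S : Finset (Pr F))

theorem map_mem (x : F) : algebraMap F L x ∈ OS (above L S) ↔ x ∈ OS S := by
  refine ⟨fun h v hv => ?_, fun h w hw => ?_⟩
  · obtain ⟨w, rfl⟩ := under_surj (E' := L) v
    have h1 := h w (mem_above.2 hv)
    have := w.isPrime
    rwa [val_over (over_under w), pow_le_one_iff (Ideal.ramificationIdx_pos _ _).ne'] at h1
  · rw [val_over (over_under w)]
    exact pow_le_one' (h _ (mem_above.1 hw)) _

theorem smul_mem (g : G) {y : L} (hy : y ∈ OS (above L S)) : g • y ∈ OS (above L S) := by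
  intro w hw
  have e : (gact g⁻¹ w).under (𝓞 F) = w.under (𝓞 F) := by
    apply HeightOneSpectrum.ext
    change (gact g⁻¹ w).asIdeal.under (𝓞 F) = w.asIdeal.under (𝓞 F)
    rw [gact_asIdeal, Ideal.under_smul]
  rw [← val_gact g⁻¹, inv_smul_smul]
  exact hy _ (mem_above.2 (e ▸ mem_above.1 hw))

variable (G) in
theorem exists_basis : ∃ (b : Basis G F L) (D : L), (∀ g, b g = g • b 1) ∧ D ≠ 0 ∧
    D ∈ OS (above L S) ∧ (∀ y ∈ Lam b (OS S), y / D ∈ OS (above L S)) ∧
    ∀ y ∈ OS (above L S), D ^ 2 * y ∈ Lam b (OS S) := by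
  classical
  have := IsGaloisGroup.isGalois G F L
  let e := IsGaloisGroup.mulEquivAlgEquiv G F L
  let b : Basis G F L := (IsGalois.normalBasis F L).reindex e.symm.toEquiv
  have hb : ∀ g, b g = g • b 1 := fun g => by
    simp only [b, Basis.reindex_apply, MulEquiv.toEquiv_eq_coe, MulEquiv.coe_toEquiv_symm,
      MulEquiv.symm_symm, map_one]
    rw [IsGalois.normalBasis_apply]
    rfl
  obtain ⟨d, d0, hd⟩ := exists_integral_multiples ℤ ℚ
    (univ.image b ∪ univ.image b.traceDual)
  have h1 : ∀ g, (d : L) * b g ∈ OS (above L S) := fun g => int_mem _ (by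
    rw [← zsmul_eq_mul]
    exact hd _ (by simp))
  have h2 : ∀ y ∈ OS (above L S), ∀ g, (d : F) * b.repr y g ∈ OS S := fun y hy g => by
    have e1 : (d : F) * b.repr y g = Algebra.trace F L (y * (d • b.traceDual g)) := by
      conv_lhs => rw [← b.traceDual_traceDual]
      rw [Basis.traceDual_repr_apply, Algebra.traceForm_apply, mul_smul_comm, map_zsmul,
        zsmul_eq_mul]
    rw [e1, ← map_mem (L := L), trace_eq_sum_automorphisms]
    refine sum_mem fun τ _ => ?_
    obtain ⟨g', rfl⟩ := e.surjective τ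
    exact smul_mem S g' (mul_mem hy (int_mem _ (hd _ (by simp))))
  have dF : (d : F) ≠ 0 := Int.cast_ne_zero.2 d0
  have dL : (d : L) ≠ 0 := Int.cast_ne_zero.2 d0
  let u : Fˣ := Units.mk0 ((d : F) ^ 3) (pow_ne_zero _ dF)
  have hr : ∀ y g, (b.unitsSMul fun _ => u).repr y g = b.repr y g / (d : F) ^ 3 := fun y g => by
    rw [Basis.repr_unitsSMul, Units.smul_def, smul_eq_mul, Units.val_inv_eq_inv_val, Units.val_mk0,
      div_eq_inv_mul]
  refine ⟨b.unitsSMul fun _ => u, (d : L) ^ 2, fun g => ?_, pow_ne_zero _ dL,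
    pow_mem (intCast_mem _ d) 2, fun y hy => ?_, fun y hy g => ?_⟩
  · rw [Basis.unitsSMul_apply, Basis.unitsSMul_apply, Units.smul_def, Units.smul_def, smul_comm,
      ← hb]
  · have e1 : y / (d : L) ^ 2 =
        ∑ g, algebraMap F L (b.repr y g / (d : F) ^ 3) * ((d : L) * b g) := by
      conv_lhs => rw [← b.sum_repr y, sum_div]
      refine sum_congr rfl fun g _ => ?_
      rw [Algebra.smul_def, map_div₀, map_pow, map_intCast]
      field_simp
    rw [e1]
    exact sum_mem fun g _ => mul_mem ((map_mem S _).2 (hr y g ▸ hy g)) (h1 g)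
  · have e1 : ((d : L) ^ 2) ^ 2 * y = ((d : F) ^ 4) • y := by
      rw [Algebra.smul_def, map_pow, map_intCast]
      ring
    rw [hr, e1, map_smul, Finsupp.smul_apply, smul_eq_mul,
      show (d : F) ^ 4 * b.repr y g / (d : F) ^ 3 = d * b.repr y g by field_simp]
    exact h2 y hy g

end VlatX

open VlatX in
theorem vlat : VLAT_st := by
  intro F L G _ _ _ _ _ _ _ _ _ γ S hS hγ
  classical
  have := Fintype.ofFinite G
  obtain ⟨b, D, hb, D0, hD, h1, h2⟩ := exists_basis (L := L) G S
  let M0 : ℕ := ∏ w ∈ above L S, nrm w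
  have M00 : M0 ≠ 0 := prod_ne_zero_iff.2 fun w _ => by have := two_le_nrm w; omega
  obtain ⟨M, hM⟩ : ∃ M : ℕ, M = Nat.card G * M0 := ⟨_, rfl⟩
  have MM : (M : L) ≠ 0 := Nat.cast_ne_zero.2 (hM ▸ mul_ne_zero Nat.card_pos.ne' M00)
  have hO : ∀ y ∈ Lam b (OS S), y ∈ OS (above L S) := fun y hy => by
    have := mul_mem (h1 y hy) hD
    rwa [div_mul_cancel₀ _ D0] at this
  have hv : ∀ y ∈ OS (above L S), ∀ w ∈ above L S,
      w.valuation L ((M : L) * y) ≤ WithZero.exp (-((1 : ℕ) : ℤ)) := fun y hy w hw => by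
    have e : ((M : ℕ) : 𝓞 L) ∈ w.asIdeal ^ 1 := by
      obtain ⟨c, hc⟩ : nrm w ∣ M := hM ▸ Dvd.dvd.mul_left (dvd_prod_of_mem _ hw) _
      rw [pow_one, hc, Nat.cast_mul]
      exact Ideal.mul_mem_right _ _ (Ideal.absNorm_mem _)
    have e' := (w.valuation_of_algebraMap (K := L) (M : 𝓞 L)).le.trans
      ((w.intValuation_le_pow_iff_mem _ _).2 e)
    rw [map_mul]
    exact (mul_le_of_le_one_right' (hy w hw)).trans e'
  have hu : ∀ y ∈ OS (above L S), ∀ w ∈ above L S, w.valuation L (1 + (M : L) * y) = 1 :=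
    fun y hy w hw => Valuation.map_one_add_of_lt _ ((hv y hy w hw).trans_lt (by
      rw [← WithZero.exp_zero, WithZero.exp_lt_exp]
      norm_num))
  have hq : ∀ l ∈ Lam b (OS S), ∀ l' ∈ Lam b (OS S), ∀ y ∈ OS (above L S),
      l * l' * y ∈ Lam b (OS S) := fun l hl l' hl' y hy => by
    have := h2 _ (mul_mem (mul_mem (h1 l hl) (h1 l' hl')) hy)
    rwa [show D ^ 2 * (l / D * (l' / D) * y) = l * l' * y by field_simp] at this
  have hne : ∀ l ∈ Lam b (OS S), 1 + (M : L) * l ≠ 0 := fun l hl h => by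
    obtain ⟨v, hv⟩ := hS
    obtain ⟨w, rfl⟩ := under_surj (E' := L) v
    have := hu l (hO l hl) w (mem_above.2 hv)
    rw [h, map_zero] at this
    exact zero_ne_one this
  obtain ⟨V, hV, hV1, hV2⟩ := exists_V γ (Nat.card G) M0 Nat.card_pos pow_card_eq_one'
    (Lam b (OS S)) (lam_st b hb _ γ)
    (fun l hl l' hl' => by simpa using hq l hl l' hl' 1 (one_mem _)) M hM M00 hne
    (fun l hl l' hl' => by
      have y0 := hne l hl
      have := sub_mem hl' (ncm _ M (hq l hl l' hl' (1 + (M : L) * l)⁻¹ fun w hw => by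
        rw [map_inv₀, hu l (hO l hl) w hw, inv_one]))
      rwa [show l' - (M : L) * (l * l' * (1 + (M : L) * l)⁻¹) = l' / (1 + (M : L) * l) by
        field_simp; ring] at this)
    (lam_H b hb _ γ hγ M)
  have c0 : (M : L) * D ^ 2 ≠ 0 := mul_ne_zero MM (pow_ne_zero _ D0)
  refine ⟨V, (above L S).sup (fun w => (ord w ((M : L) * D ^ 2)).toNat) + 1, Nat.succ_pos _, hV1,
    fun a ha w hw => ?_, fun a ha => ?_, hV2⟩
  · obtain ⟨l, hl, e⟩ := (hV a).1 ha
    rw [e, add_sub_cancel_left]
    exact hv l (hO l hl) w hw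
  · refine (hV a).2 ⟨_, h2 ((((Additive.toMul a : Lˣ) : L) - 1) / ((M : L) * D ^ 2))
      fun w hw => ?_, by field_simp; ring⟩
    rw [map_div₀, val_eq_exp w c0, div_le_one₀ WithZero.exp_pos]
    refine (ha w hw).trans (WithZero.exp_le_exp.2 ?_)
    have : (ord w ((M : L) * D ^ 2)).toNat ≤
        (above L S).sup fun w => (ord w ((M : L) * D ^ 2)).toNat :=
      le_sup (f := fun w : Pr L => (ord w ((M : L) * D ^ 2)).toNat) hw
    push_cast
    omega

end Pool.Agent.MP_f3cd89_nt
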