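import Pool.Agent.MP_f3cd89_nt.CStm

/-! The second inequality. -/

set_option autoImplicit false

open Finset NumberField IsDedekindDomain Filter Topology

namespace Pool.Agent.MP_f3cd89_nt

namespace SiX

theorem exp_le {z : ℂ} {b : ℝ} (hz : z ≠ 1) (hb : ‖z‖ ^ 2 ≤ b) :
    Real.exp (z.re - b) ≤ ‖(1 - z)⁻¹‖ := by
  have h0 : 0 < ‖1 - z‖ := norm_pos_iff.2 (sub_ne_zero.2 hz.symm)
  rw [norm_inv, le_inv_comm₀ (Real.exp_pos _) h0, ← Real.exp_neg]
  refine (pow_le_pow_iff_left₀ h0.le (Real.exp_pos _).le two_ne_zero).1 ?_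
  rw [← Real.exp_nat_mul]
  refine le_trans ?_ (Real.add_one_le_exp _)
  have h1 := sq_nonneg ‖z‖
  rw [Complex.sq_norm, Complex.normSq_apply] at *
  simp only [Complex.sub_re, Complex.one_re, Complex.sub_im, Complex.one_im, Nat.cast_ofNat]
  linarith

theorem euler {ι : Type} {z : ι → ℂ} {b : ι → ℝ} {L : ℂ} (hz : ∀ i, z i ≠ 1)
    (hb : ∀ i, ‖z i‖ ^ 2 ≤ b i) (s1 : Summable fun i => (z i).re) (s2 : Summable b)
    (h : HasProd (fun i => (1 - z i)⁻¹) L) : ∑' i, (z i).re ≤ ‖L‖ + ∑' i, b i := by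
  have h1 := le_of_tendsto_of_tendsto' (s1.hasSum.sub s2.hasSum).rexp h.norm fun T =>
    Finset.prod_le_prod (fun i _ => (Real.exp_pos _).le) fun i _ => exp_le (hz i) (hb i)
  linarith [Real.add_one_le_exp (∑' i, (z i).re - ∑' i, b i)]

variable {F : Type} [Field F] [NumberField F]

theorem summ (hC : NTC_st) (S : Finset (Pr F)) {s : ℝ} (hs : 1 < s) {c : {v // v ∉ S} → ℝ}
    {K : ℝ} (hc : ∀ v, |c v| ≤ K) :
    Summable fun v : {v // v ∉ S} => c v * (nrm v.1 : ℝ) ^ (-s) := by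
  refine Summable.of_norm_bounded
    ((((hC F).2.2.2.1 s hs).subtype {v | v ∉ S}).mul_left K) fun v => ?_
  rw [norm_mul, Real.norm_eq_abs, Real.norm_of_nonneg (by positivity)]
  exact mul_le_mul_of_nonneg_right (hc v) (by positivity)

theorem bound (hC : NTC_st) {S : Finset (Pr F)} {c : Pr F} {ψ : Pr F → ℂˣ} {f : ℂ → ℂ}
    (h1 : ∀ v, ‖(ψ v : ℂ)‖ = 1) (hc : ψ c ≠ 1) (hf : Sm S {c} ψ f) : ∃ K : ℝ, ∀ᶠ s in 𝓝[>] (1 : ℝ),
      ∑' v : {v // v ∉ S}, (ψ v : ℂ).re * (nrm v.1 : ℝ) ^ (-s) ≤ K := by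
  have p : ∀ v : Pr F, (1 : ℝ) < nrm v := fun v => by exact_mod_cast two_le_nrm v
  have c0 : (nrm c : ℂ) ≠ 0 := Nat.cast_ne_zero.2 (by have := two_le_nrm c; omega)
  have g1 : Continuous fun s : ℝ => (ψ c : ℂ) * (nrm c : ℂ) ^ (1 - (s : ℂ)) - 1 :=
    (continuous_const.mul (Continuous.const_cpow (by fun_prop) (.inl c0))).sub continuous_const
  have g2 : (ψ c : ℂ) * (nrm c : ℂ) ^ (1 - ((1 : ℝ) : ℂ)) - 1 ≠ 0 := by
    simpa [sub_eq_zero] using hc
  have g3 := ((hf.1.continuous.comp Complex.continuous_ofReal).continuousAt.div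
    g1.continuousAt g2).norm
  obtain ⟨K, hK⟩ := Tendsto.isBoundedUnder_le g3
  refine ⟨K + ∑' v : {v // v ∉ S}, 1 * (nrm v.1 : ℝ) ^ (-2 : ℝ), ?_⟩
  filter_upwards [nhdsWithin_le_nhds (eventually_map.1 hK),
    nhdsWithin_le_nhds (g1.continuousAt.eventually_ne g2), self_mem_nhdsWithin] with s k1 k2 hs
  have hs : 1 < s := hs
  obtain ⟨L, hL, e⟩ := hf.2 s hs
  have e1 : ∀ v : Pr F, (nrm v : ℂ) ^ (-(s : ℂ)) = (((nrm v : ℝ) ^ (-s) : ℝ) : ℂ) := fun v => by
    rw [Complex.ofReal_cpow (Nat.cast_nonneg _)]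
    simp
  have e2 : ∀ v : Pr F, ‖(ψ v : ℂ) * (((nrm v : ℝ) ^ (-s) : ℝ) : ℂ)‖ = (nrm v : ℝ) ^ (-s) :=
    fun v => by rw [norm_mul, h1, one_mul, Complex.norm_of_nonneg (by positivity)]
  simp only [e1] at hL
  have h := euler (b := fun v : {v // v ∉ S} => 1 * (nrm v.1 : ℝ) ^ (-2 : ℝ)) (fun v e => ?_)
    (fun v => ?_) ?_ (summ hC S one_lt_two fun _ => le_rfl) hL
  · simp only [Complex.re_mul_ofReal] at h
    refine h.trans (add_le_add_left (le_of_eq_of_le ?_ k1) _)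
    rw [prod_singleton] at e
    exact congrArg _ ((eq_div_iff k2).2 (e.trans (mul_comm _ _)).symm)
  · have := e2 v
    rw [e, norm_one] at this
    exact (Real.rpow_lt_one_of_one_lt_of_neg (p v) (by linarith)).ne this.symm
  · rw [e2, one_mul, ← Real.rpow_natCast, ← Real.rpow_mul (Nat.cast_nonneg _)]
    exact Real.rpow_le_rpow_of_exponent_le (p v).le (by push_cast; linarith)
  · simp only [Complex.re_mul_ofReal]
    exact summ hC S hs fun v => (Complex.abs_re_le_norm _).trans (h1 v).le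

theorem exists_quot (hB : NTB_st) {S : Finset (Pr F)} {N : ℕ} {H : AddSubgroup (Pr F →₀ ℤ)}
    (hN : 0 < N) (hH : ∀ x, Ray S N x → dv x ∈ H) :
    ∃ (Q : Type) (_ : AddCommGroup Q) (_ : Fintype Q) (π : (Pr F →₀ ℤ) →+ Q),
      H.relIndex (off S) = Fintype.card Q ∧ Function.Surjective π ∧
      (∀ D ∈ off S, D ∈ H → π D = 0) ∧ ∀ v ∈ S, π (Finsupp.single v 1) = 0 := by
  classical
  let pr : (Pr F →₀ ℤ) →+ off S := (Finsupp.filterAddHom (· ∉ S)).codRestrict _
    fun D v hv => Finsupp.filter_apply_neg _ _ (not_not.2 hv)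
  have hpr : ∀ D : off S, pr D = D := fun D => Subtype.ext
    ((Finsupp.filter_eq_self_iff _ _).2 fun v hv h => hv (D.2 v h))
  let π := (QuotientAddGroup.mk' (H.addSubgroupOf (off S))).comp pr
  have h1 : ∀ D ∈ off S, D ∈ H → π D = 0 := fun D hD h =>
    (congrArg _ (hpr ⟨D, hD⟩)).trans ((QuotientAddGroup.eq_zero_iff _).2 h)
  obtain ⟨T, hT⟩ := (hB F).2.1 S N
  have h2 : Function.Surjective fun t : T => π t := fun q => by
    obtain ⟨D, rfl⟩ := QuotientAddGroup.mk_surjective q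
    obtain ⟨x, hx, h⟩ := hT D D.2
    refine ⟨⟨_, h⟩, ?_⟩
    change π (D - dv x) = _
    rw [map_sub, h1 _ (((hB F).2.2.2.1 S N hN).2.2 x hx) (hH x hx), sub_zero]
    exact congrArg _ (hpr D)
  have := Finite.of_surjective _ h2
  let _ := Fintype.ofFinite (off S ⧸ H.addSubgroupOf (off S))
  refine ⟨_, inferInstance, inferInstance, π, Nat.card_eq_fintype_card,
    fun q => (h2 q).imp' _ fun _ h => h, h1, fun v hv => ?_⟩
  have : pr (Finsupp.single v 1) = 0 := Subtype.ext (Finsupp.filter_single_of_neg _ (not_not.2 hv))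
  exact (congrArg _ this).trans (map_zero (QuotientAddGroup.mk' _))

theorem chv_eq {Q : Type} [AddCommGroup Q] (π : (Pr F →₀ ℤ) →+ Q) (χ : Multiplicative Q →* ℂˣ)
    (D : Pr F →₀ ℤ) : chv (fun v => χ (.ofAdd (π (Finsupp.single v 1)))) D = χ (.ofAdd (π D)) := by
  induction D using Finsupp.induction_linear with
  | zero => simp [chv_zero]
  | add f g hf hg => rw [chv_add, hf, hg, map_add, ofAdd_add, map_mul]
  | single v n =>
    rw [chv_single, ← map_zpow, ← ofAdd_zsmul, ← map_zsmul, Finsupp.smul_single_one]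

omit [NumberField F] in
open Classical in
theorem tsum_off (S : Finset (Pr F)) (P : Pr F → Prop) (a : Pr F → ℝ) :
    (∑' v : Pr F, if v ∉ S ∧ P v then a v else 0) =
      ∑' v : {v // v ∉ S}, (if P v then 1 else 0) * a v := by
  refine Eq.trans (tsum_congr fun v => ?_)
    (tsum_subtype {v | v ∉ S} fun v => (if P v then 1 else 0) * a v).symm
  by_cases h : v ∈ S <;> simp [h]

end SiX

open SiX

theorem si (hA : SCA_st) (hB : NTB_st) (hC : NTC_st) (hD : DENS_st) : SI_st := by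
  classical
  intro F L G _ _ _ _ _ _ _ _ _ _ S φ U N H hU hun hφ hN hH hUH
  obtain ⟨Q, _, _, π, hcard, hsurj, hπ, hS⟩ := exists_quot hB hN hH
  rw [hcard]
  refine ⟨Fintype.card_ne_zero, ?_⟩
  obtain ⟨C₁, d₁⟩ := (hD F L G S φ ⊤ inferInstance hun hφ).1.bound
  obtain ⟨C₂, d₂⟩ := (hD F L G S φ U hU hun hφ).1.bound
  have key : ∀ χ : AddChar Q ℂ, ∃ K : ℝ, ∀ᶠ s in 𝓝[>] (1 : ℝ), ∑' v : {v // v ∉ S},
      (χ (π (Finsupp.single v.1 1))).re * (nrm v.1 : ℝ) ^ (-s) ≤
        (if χ = 0 then -Real.log (s - 1) else 0) + K := fun χ => by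
    by_cases h : χ = 0
    · refine ⟨C₁, d₁.mono fun s hs => ?_⟩
      rw [tsum_off, norm_one, mul_one] at hs
      have := (le_abs_self _).trans hs
      simp only [Subgroup.index_top, Nat.cast_one, one_mul, Subgroup.mem_top, if_true] at this
      simp only [h, if_true, AddChar.zero_apply, Complex.one_re, one_mul]
      linarith
    · simp only [if_neg h, zero_add]
      let ψ : Pr F → ℂˣ := fun v => χ.toMonoidHom.toHomUnits (.ofAdd (π (Finsupp.single v 1)))
      have e : ∀ D, ((chv ψ D : ℂˣ) : ℂ) = χ (π D) := fun D => congrArg _ (chv_eq π _ D)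
      obtain ⟨c, hc⟩ : ∃ c, ψ c ≠ 1 := by
        by_contra! h'
        refine h (AddChar.ext _ _ fun q => ?_)
        obtain ⟨D, rfl⟩ := hsurj q
        rw [← e]
        simp [chv, h', Finsupp.prod]
      have hcS : c ∉ S := fun h' => hc (by simp only [ψ, hS c h', ofAdd_zero, map_one])
      obtain ⟨l, hl, hlc, -⟩ := (hC F).2.2.2.2.2 c
      obtain ⟨k, Z, -, hZ⟩ := hA F l S {c} N hl hN (disjoint_singleton_right.2 hcS)
        (singleton_nonempty c) fun c' h' => (mem_singleton.1 h').symm ▸ hlc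
      obtain ⟨f, hf, -⟩ := hZ ψ fun x hx => Units.ext (by
        rw [e, hπ _ (((hB F).2.2.2.1 S N hN).2.2 x hx) (hH x hx), AddChar.map_zero_eq_one]
        rfl)
      exact bound hC (fun v => χ.norm_apply _) hc hf
  choose K hK using key
  by_contra! hlt
  have hlt' : (U.index : ℝ) + 1 ≤ Fintype.card Q := by exact_mod_cast hlt
  have hl : Tendsto (fun s : ℝ => -Real.log (s - 1)) (𝓝[>] 1) atTop :=
    tendsto_neg_atBot_atTop.comp (Real.tendsto_log_nhdsGT_zero.comp
      (tendsto_nhdsWithin_iff.2 ⟨tendsto_nhdsWithin_of_tendsto_nhds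
        (Continuous.tendsto' (by fun_prop) _ _ (sub_self _)),
        eventually_mem_nhdsWithin.mono fun s hs => sub_pos (a := s).2 hs⟩))
  obtain ⟨s, ⟨⟨⟨k1, k2⟩, k3⟩, k4⟩, hs⟩ := (((((eventually_all.2 hK).and d₂).and
    (hl.eventually_gt_atTop (U.index * ∑ χ, K χ + Fintype.card Q * C₂))).and
    (hl.eventually_ge_atTop 0)).and eventually_mem_nhdsWithin).exists
  have hs : 1 < s := hs
  have k5 := sum_le_sum (s := univ) fun χ _ => k1 χ
  rw [sum_add_distrib, sum_ite_eq', if_pos (mem_univ _), ← Summable.tsum_finsetSum fun χ _ =>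
    summ hC S hs fun v => (Complex.abs_re_le_norm _).trans (χ.norm_apply _).le] at k5
  simp only [← sum_mul, ← Complex.re_sum, AddChar.sum_apply_eq_ite] at k5
  rw [tsum_off, norm_one, mul_one] at k2
  have k6 : (Fintype.card Q : ℝ) * ∑' v : {v // v ∉ S}, (if φ v ∈ U then 1 else 0) *
      (nrm v.1 : ℝ) ^ (-s) ≤ -Real.log (s - 1) + ∑ χ, K χ := by
    rw [← tsum_mul_left]
    refine le_trans (Summable.tsum_le_tsum (fun v => ?_)
      ((summ hC S hs (K := 1) fun v => ?_).mul_left _)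
      (summ hC S hs (K := Fintype.card Q) fun v => ?_)) k5
    · rw [← mul_assoc]
      refine mul_le_mul_of_nonneg_right ?_ (by positivity)
      by_cases h : φ v ∈ U
      · rw [if_pos h, if_pos (hπ _ (fun w hw => Finsupp.single_eq_of_ne
          fun e : w = v.1 => v.2 (e ▸ hw)) (hUH v v.2 h))]
        simp
      · rw [if_neg h, mul_zero]
        split_ifs <;> simp
    · split_ifs <;> simp
    · split_ifs <;> simp
  have k7 := mul_le_mul_of_nonneg_left k6 (Nat.cast_nonneg U.index)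
  have k8 := mul_le_mul_of_nonneg_left (neg_le_of_abs_le k2) (Nat.cast_nonneg (Fintype.card Q))
  have k9 := mul_le_mul_of_nonneg_right hlt' k4
  linarith

end Pool.Agent.MP_f3cd89_nt
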