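import Pool.Agent.MP_f3cd89_nt.CStm

/-! The Herbrand quotient argument. -/

set_option autoImplicit false

namespace Pool.Agent.MP_f3cd89_nt

namespace HerbX

open AddSubgroup

/-- comparison of two indices along a correspondence -/
theorem corr {Z G G' : Type} [AddCommGroup Z] [AddCommGroup G] [AddCommGroup G']
    (p : Z →+ G) (q : Z →+ G') (H X : AddSubgroup G) (K Y : AddSubgroup G')
    (hX : X ≤ p.range) (hY : q.range ≤ Y) (h : ∀ z, q z ∈ K → p z ∈ H)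
    (hK : K.relIndex Y ≠ 0) : H.relIndex X ≤ K.relIndex Y := by
  have h1 : K.relIndex q.range ≠ 0 := fun h0 => hK (relIndex_eq_zero_of_le_right hY h0)
  have h2 : K.relIndex q.range ≤ K.relIndex Y := relIndex_le_of_le_right hY hK
  rw [← index_comap] at h1 h2
  have h3 : (H.comap p).index ∣ (K.comap q).index := index_dvd_of_le (fun z hz => h z hz)
  have h4 : (H.comap p).index ≠ 0 := fun h0 => h1 (by simpa [h0] using h3)
  have h5 := Nat.le_of_dvd (Nat.pos_of_ne_zero h1) h3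
  rw [index_comap] at h4 h5
  exact (relIndex_le_of_le_right hX h4).trans (h5.trans h2)

/-- the Herbrand quotient of a finite module is one -/
theorem fin_herb {I : Type} [AddCommGroup I] (P : AddSubgroup I) (hP : P.index ≠ 0)
    (D N : I →+ I) (hD : P ≤ P.comap D) (hN : P ≤ P.comap N) (hDN : ∀ x, D (N x) = 0)
    (hND : ∀ x, N (D x) = 0) :
    (N.range ⊔ P).relIndex (P.comap D) = (D.range ⊔ P).relIndex (P.comap N) ∧
      (D.range ⊔ P).relIndex (P.comap N) ≠ 0 := by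
  have key : ∀ D N : I →+ I, P ≤ P.comap D → (∀ x, D (N x) = 0) →
      P.relIndex (N.range ⊔ P) * (N.range ⊔ P).relIndex (P.comap D) *
        P.relIndex (D.range ⊔ P) = P.index := by
    intro D N hD hDN
    have h1 : N.range ⊔ P ≤ P.comap D := by
      refine sup_le ?_ hD
      rintro _ ⟨x, rfl⟩
      simp [hDN]
    rw [relIndex_mul_relIndex _ _ _ le_sup_right h1, relIndex_sup_right, ← index_comap,
      relIndex_mul_index hD]
  have h1 := key D N hD hDN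
  have h2 := key N D hN hND
  generalize P.relIndex (N.range ⊔ P) = a at h1 h2
  generalize P.relIndex (D.range ⊔ P) = b at h1 h2
  generalize (N.range ⊔ P).relIndex (P.comap D) = u at h1 h2
  generalize (D.range ⊔ P).relIndex (P.comap N) = v at h1 h2
  have ha : a ≠ 0 := by rintro rfl; simp at h1; exact hP h1.symm
  have hb : b ≠ 0 := by rintro rfl; simp at h1; exact hP h1.symm
  refine ⟨?_, by rintro rfl; simp at h2; exact hP h2.symm⟩
  apply Nat.eq_of_mul_eq_mul_left (Nat.pos_of_ne_zero (mul_ne_zero ha hb))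
  calc a * b * u = a * u * b := by ring
    _ = b * v * a := h1.trans h2.symm
    _ = a * b * v := by ring

/-- pairs `(x, y)` with `y` in `V` and `f x = j y` -/
theorem exists_pairs {A I : Type} [AddCommGroup A] [AddCommGroup I] (f : I →+ I) (j : A →+ I)
    (V : AddSubgroup A) : ∃ Z : AddSubgroup (I × A), ∀ z : I × A, z ∈ Z ↔ z.2 ∈ V ∧ f z.1 = j z.2 := by
  refine ⟨V.comap (AddMonoidHom.snd I A) ⊓
    (f.comp (AddMonoidHom.fst I A) - j.comp (AddMonoidHom.snd I A)).ker, fun z => ?_⟩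
  rw [mem_inf, AddMonoidHom.mem_ker, mem_comap]
  simp [sub_eq_zero]

theorem core {A I : Type} [AddCommGroup A] [AddCommGroup I] (D N : A →+ A) (D' N' : I →+ I)
    (V : AddSubgroup A) (j : A →+ I) (hVD : ∀ a ∈ V, D a ∈ V) (hVN : ∀ a ∈ V, N a ∈ V)
    (hjD : ∀ a, j (D a) = D' (j a)) (hjN : ∀ a, j (N a) = N' (j a))
    (hDN : ∀ x, D (N x) = 0) (hND : ∀ x, N (D x) = 0)
    (hDN' : ∀ x, D' (N' x) = 0) (hND' : ∀ x, N' (D' x) = 0) (hP : (V.map j).index ≠ 0)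
    (h90 : ∀ a ∈ V, N a = 0 → ∃ b ∈ V, a = D b)
    (h0 : ((V ⊓ j.ker).map N).relIndex ((V ⊓ j.ker) ⊓ D.ker) ≠ 0)
    (hi : ((V ⊓ D.ker).map j ⊔ N'.range).relIndex D'.ker ≠ 0) :
    ((V ⊓ j.ker).map D).relIndex ((V ⊓ j.ker) ⊓ N.ker) ≤
      ((V ⊓ D.ker).map j ⊔ N'.range).relIndex D'.ker *
        ((V ⊓ j.ker).map N).relIndex ((V ⊓ j.ker) ⊓ D.ker) := by
  have hPD : V.map j ≤ (V.map j).comap D' := by
    rintro _ ⟨a, ha, rfl⟩; exact ⟨D a, hVD a ha, hjD a⟩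
  have hPN : V.map j ≤ (V.map j).comap N' := by
    rintro _ ⟨a, ha, rfl⟩; exact ⟨N a, hVN a ha, hjN a⟩
  obtain ⟨h3, h3'⟩ := fin_herb (V.map j) hP D' N' hPD hPN hDN' hND'
  have hNK : N'.range ≤ D'.ker := by rintro _ ⟨x, rfl⟩; exact hDN' x
  obtain ⟨W, hW⟩ : ∃ W, W = (V ⊓ D.ker).map j ⊔ N'.range := ⟨_, rfl⟩
  obtain ⟨M, hM⟩ : ∃ M, M = (V.map j ⊓ D'.ker) ⊔ N'.range := ⟨_, rfl⟩
  have hWM : W ≤ M := by
    rw [hW, hM]
    refine sup_le_sup_right ?_ _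
    rintro _ ⟨a, ⟨ha, ha'⟩, rfl⟩
    refine ⟨⟨a, ha, rfl⟩, ?_⟩
    show D' (j a) = 0
    have : D a = 0 := ha'
    rw [← hjD, this, map_zero]
  have hMK : M ≤ D'.ker := by rw [hM]; exact sup_le inf_le_right hNK
  have hfac := relIndex_mul_relIndex W M D'.ker hWM hMK
  rw [← hW] at hi ⊢
  have hβ : W.relIndex M ≠ 0 := fun h => hi (by rw [← hfac, h, zero_mul])
  have hα : M.relIndex D'.ker ≠ 0 := fun h => hi (by rw [← hfac, h, mul_zero])
  -- first chain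
  have hA1 : (N'.range ⊔ V.map j).relIndex (D'.ker ⊔ V.map j) ≤ M.relIndex D'.ker := by
    have e : D'.ker ⊔ V.map j = D'.ker ⊔ (N'.range ⊔ V.map j) := by
      rw [← sup_assoc, sup_eq_left.2 hNK]
    rw [e, relIndex_sup_right]
    refine relIndex_le_of_le_left ?_ hα
    rw [hM]
    exact sup_le (inf_le_left.trans le_sup_right) le_sup_left
  have hA2 : (D'.ker ⊔ V.map j).relIndex ((V.map j).comap D') ≤
      ((V ⊓ j.ker).map N).relIndex ((V ⊓ j.ker) ⊓ D.ker) := by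
    obtain ⟨Z, mZ⟩ := exists_pairs D' j V
    refine corr ((AddMonoidHom.fst I A).comp Z.subtype)
      (N.comp ((AddMonoidHom.snd I A).comp Z.subtype)) _ _ _ _ ?_ ?_ ?_ h0
    · rintro x ⟨y, hy, hy'⟩
      exact ⟨⟨(x, y), (mZ _).2 ⟨hy, hy'.symm⟩⟩, rfl⟩
    · rintro _ ⟨⟨⟨x, y⟩, hz⟩, rfl⟩
      have hz1 : y ∈ V := ((mZ _).1 hz).1
      have hz' : D' x = j y := ((mZ _).1 hz).2
      refine ⟨⟨hVN y hz1, ?_⟩, ?_⟩
      · show j (N y) = 0
        rw [hjN, ← hz', hND']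
      · exact hDN y
    · rintro ⟨⟨x, y⟩, hz⟩ ⟨e, he, hey⟩
      have hz1 : y ∈ V := ((mZ _).1 hz).1
      have hz' : D' x = j y := ((mZ _).1 hz).2
      have hey' : N e = N y := hey
      have he' : j e = 0 := he.2
      obtain ⟨b, hb, hz2⟩ := h90 (y - e) (sub_mem hz1 he.1) (by rw [map_sub, hey', sub_self])
      show x ∈ D'.ker ⊔ V.map j
      have e1 : x = (x - j b) + j b := by abel
      rw [e1]
      refine add_mem (mem_sup_left ?_) (mem_sup_right ⟨b, hb, rfl⟩)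
      show D' (x - j b) = 0
      rw [map_sub, hz', ← hjD, ← hz2, map_sub, he']; simp
  have hA : (N'.range ⊔ V.map j).relIndex ((V.map j).comap D') ≤
      M.relIndex D'.ker * ((V ⊓ j.ker).map N).relIndex ((V ⊓ j.ker) ⊓ D.ker) := by
    rw [← relIndex_mul_relIndex (N'.range ⊔ V.map j) (D'.ker ⊔ V.map j) ((V.map j).comap D')
      (sup_le_sup_right hNK _) (sup_le (fun x hx => by
        have : D' x = 0 := hx
        show D' x ∈ V.map j
        rw [this]; exact zero_mem _) hPD)]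
    exact Nat.mul_le_mul hA1 hA2
  -- second chain
  obtain ⟨T, hT⟩ : ∃ T, T = ((V ⊓ (j.comp D).ker) ⊓ W.comap j).map D := ⟨_, rfl⟩
  have hT1 : (V ⊓ j.ker).map D ≤ T := by
    rw [hT]
    rintro _ ⟨e, ⟨he, he'⟩, rfl⟩
    have he2 : j e = 0 := he'
    refine ⟨e, ⟨⟨he, ?_⟩, ?_⟩, rfl⟩
    · show j (D e) = 0
      rw [hjD, he2, map_zero]
    · show j e ∈ W
      rw [he2]; exact zero_mem _
  have hT2 : T ≤ (V ⊓ j.ker) ⊓ N.ker := by
    rw [hT]
    rintro _ ⟨b, ⟨⟨hb, hb'⟩, -⟩, rfl⟩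
    exact ⟨⟨hVD b hb, hb'⟩, hND b⟩
  have hB1 : T.relIndex ((V ⊓ j.ker) ⊓ N.ker) ≤ W.relIndex M := by
    refine corr (D.comp (V ⊓ (j.comp D).ker).subtype) (j.comp (V ⊓ (j.comp D).ker).subtype)
      _ _ _ _ ?_ ?_ ?_ hβ
    · rintro e ⟨⟨he, he'⟩, hN⟩
      obtain ⟨b, hb, hbe⟩ := h90 e he hN
      refine ⟨⟨b, hb, ?_⟩, hbe.symm⟩
      show j (D b) = 0
      rw [← hbe]; exact he'
    · rintro _ ⟨⟨b, hb, hb'⟩, rfl⟩
      rw [hM]
      refine mem_sup_left ⟨⟨b, hb, rfl⟩, ?_⟩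
      show D' (j b) = 0
      rw [← hjD]; exact hb'
    · rintro ⟨b, hb⟩ hq
      rw [hT]
      exact ⟨b, ⟨hb, hq⟩, rfl⟩
  have hB2 : ((V ⊓ j.ker).map D).relIndex T ≤
      (D'.range ⊔ V.map j).relIndex ((V.map j).comap N') := by
    obtain ⟨Z, mZ⟩ := exists_pairs N' j V
    refine corr (D.comp ((AddMonoidHom.snd I A).comp Z.subtype))
      ((AddMonoidHom.fst I A).comp Z.subtype) _ _ _ _ ?_ ?_ ?_ h3'
    · rw [hT]
      rintro _ ⟨b, ⟨⟨hb, -⟩, hbW⟩, rfl⟩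
      have hbW' : j b ∈ (V ⊓ D.ker).map j ⊔ N'.range := by rw [← hW]; exact hbW
      obtain ⟨_, ⟨a, ⟨ha, ha'⟩, rfl⟩, _, ⟨x, rfl⟩, hx⟩ := mem_sup.1 hbW'
      have ha2 : D a = 0 := ha'
      refine ⟨⟨(x, b - a), (mZ _).2 ⟨sub_mem hb ha, ?_⟩⟩, ?_⟩
      · show N' x = j (b - a)
        rw [map_sub, ← hx]; abel
      · show D (b - a) = D b
        rw [map_sub, ha2, sub_zero]
    · rintro _ ⟨⟨⟨x, b⟩, hz⟩, rfl⟩
      exact ⟨b, ((mZ _).1 hz).1, ((mZ _).1 hz).2.symm⟩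
    · rintro ⟨⟨x, b⟩, hz⟩ hx
      have hz1 : b ∈ V := ((mZ _).1 hz).1
      have hz' : N' x = j b := ((mZ _).1 hz).2
      have hx' : x ∈ D'.range ⊔ V.map j := hx
      obtain ⟨_, ⟨w, rfl⟩, _, ⟨c, hc, rfl⟩, hwc⟩ := mem_sup.1 hx'
      have hbc : b - N c ∈ V := sub_mem hz1 (hVN c hc)
      refine ⟨b - N c, ⟨hbc, ?_⟩, ?_⟩
      · show j (b - N c) = 0
        rw [map_sub, ← hz', ← hwc, map_add, hND', hjN]; simp
      · show D (b - N c) = D b
        rw [map_sub, hDN, sub_zero]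
  rw [← relIndex_mul_relIndex _ T _ hT1 hT2, ← hfac]
  rw [← h3] at hB2
  calc _ ≤ (M.relIndex D'.ker * ((V ⊓ j.ker).map N).relIndex ((V ⊓ j.ker) ⊓ D.ker)) *
        W.relIndex M := Nat.mul_le_mul (hB2.trans hA) hB1
    _ = _ := by ring

/-- an index splits along a homomorphism -/
theorem split {A : Type} [AddCommGroup A] (f : A →+ A) (E E' : AddSubgroup A) (h : E' ≤ E) :
    (E' ⊓ f.ker).relIndex (E ⊓ f.ker) * (E'.map f).relIndex (E.map f) = E'.relIndex E := by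
  have h1 : (E'.map f).relIndex (E.map f) = (E' ⊔ (E ⊓ f.ker)).relIndex E := by
    rw [← relIndex_comap, comap_map_eq, ← inf_relIndex_right, sup_inf_assoc_of_le _ h,
      inf_comm f.ker E]
  have h2 : (E' ⊓ f.ker).relIndex (E ⊓ f.ker) = E'.relIndex (E' ⊔ (E ⊓ f.ker)) := by
    rw [relIndex_sup_left, ← inf_relIndex_right E' (E ⊓ f.ker), ← inf_assoc, inf_eq_left.2 h]
  rw [h1, h2]
  exact relIndex_mul_relIndex _ _ _ le_sup_left (sup_le h inf_le_left)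

theorem side {A : Type} [AddCommGroup A] (D N : A →+ A) (E E' : AddSubgroup A) (h : E' ≤ E)
    (hN : ∀ a ∈ E, N a ∈ E) (hN' : ∀ a ∈ E', N a ∈ E') (hDN : ∀ x, D (N x) = 0) :
    (E'.map N).relIndex (E.map N) * (E.map N).relIndex (E ⊓ D.ker) =
      (E'.map N).relIndex (E' ⊓ D.ker) * (E' ⊓ D.ker).relIndex (E ⊓ D.ker) := by
  rw [relIndex_mul_relIndex _ _ _ (map_mono h)
      (by rintro _ ⟨a, ha, rfl⟩; exact ⟨hN a ha, hDN a⟩),
    relIndex_mul_relIndex _ _ _ (by rintro _ ⟨a, ha, rfl⟩; exact ⟨hN' a ha, hDN a⟩)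
      (inf_le_inf_right _ h)]

theorem qcore {A : Type} [AddCommGroup A] (D N : A →+ A) (E E' : AddSubgroup A) (h : E' ≤ E)
    (hk : E'.relIndex E ≠ 0) (hD : ∀ a ∈ E, D a ∈ E) (hD' : ∀ a ∈ E', D a ∈ E')
    (hN : ∀ a ∈ E, N a ∈ E) (hN' : ∀ a ∈ E', N a ∈ E') (hDN : ∀ x, D (N x) = 0)
    (hND : ∀ x, N (D x) = 0) (hz' : (E'.map N).relIndex (E' ⊓ D.ker) ≠ 0)
    (ho' : (E'.map D).relIndex (E' ⊓ N.ker) ≠ 0) :
    (E.map N).relIndex (E ⊓ D.ker) ≠ 0 ∧ (E.map D).relIndex (E ⊓ N.ker) ≠ 0 ∧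
      (E.map N).relIndex (E ⊓ D.ker) * (E'.map D).relIndex (E' ⊓ N.ker) =
        (E.map D).relIndex (E ⊓ N.ker) * (E'.map N).relIndex (E' ⊓ D.ker) := by
  have s1 := split D E E' h
  have s2 := split N E E' h
  have t1 := side D N E E' h hN hN' hDN
  have t2 := side N D E E' h hD hD' hND
  generalize (E.map N).relIndex (E ⊓ D.ker) = z at t1 ⊢
  generalize (E.map D).relIndex (E ⊓ N.ker) = o at t2 ⊢
  generalize (E'.map N).relIndex (E' ⊓ D.ker) = z' at t1 hz' ⊢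
  generalize (E'.map D).relIndex (E' ⊓ N.ker) = o' at t2 ho' ⊢
  generalize (E' ⊓ D.ker).relIndex (E ⊓ D.ker) = bD at s1 t1
  generalize (E' ⊓ N.ker).relIndex (E ⊓ N.ker) = bN at s2 t2
  generalize (E'.map D).relIndex (E.map D) = aD at s1 t2
  generalize (E'.map N).relIndex (E.map N) = aN at s2 t1
  generalize E'.relIndex E = k at s1 s2 hk
  have hbD : bD ≠ 0 := by rintro rfl; exact hk (by rw [← s1, zero_mul])
  have hbN : bN ≠ 0 := by rintro rfl; exact hk (by rw [← s2, zero_mul])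
  refine ⟨?_, ?_, ?_⟩
  · rintro rfl; exact mul_ne_zero hz' hbD (by rw [← t1, mul_zero])
  · rintro rfl; exact mul_ne_zero ho' hbN (by rw [← t2, mul_zero])
  · apply Nat.eq_of_mul_eq_mul_left (Nat.pos_of_ne_zero hk)
    calc k * (z * o') = (aN * z) * (o' * bN) := by rw [← s2]; ring
      _ = (z' * bD) * (aD * o) := by rw [t1, t2]
      _ = k * (o * z') := by rw [← s1]; ring

theorem dn {A : Type} [AddCommGroup A] (σ : AddMonoid.End A) (n : ℕ) (h : σ ^ n = 1) (x : A) :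
    (σ - 1 : AddMonoid.End A) (nmH σ n x) = 0 := by
  have e : (σ - 1) * nmH σ n = 0 := by rw [nmH, mul_geom_sum, h, sub_self]
  exact DFunLike.congr_fun e x

theorem nd {A : Type} [AddCommGroup A] (σ : AddMonoid.End A) (n : ℕ) (h : σ ^ n = 1) (x : A) :
    nmH σ n ((σ - 1 : AddMonoid.End A) x) = 0 := by
  have e : nmH σ n * (σ - 1) = 0 := by rw [nmH, geom_sum_mul, h, sub_self]
  exact DFunLike.congr_fun e x

theorem d_apply {A : Type} [AddCommGroup A] (σ : AddMonoid.End A) (x : A) :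
    (σ - 1 : AddMonoid.End A) x = σ x - x := rfl

theorem n_succ {A : Type} [AddCommGroup A] (σ : AddMonoid.End A) (n : ℕ) (x : A) :
    nmH σ (n + 1) x = σ (nmH σ n x) + x := by
  have e : nmH σ (n + 1) = σ * nmH σ n + 1 := by rw [nmH, nmH, geom_sum_succ]
  rw [e]; rfl

theorem n_zero {A : Type} [AddCommGroup A] (σ : AddMonoid.End A) (x : A) : nmH σ 0 x = 0 := by
  have e : nmH σ 0 = 0 := by rw [nmH, Finset.range_zero, Finset.sum_empty]
  rw [e]; rfl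

theorem d_mem {A : Type} [AddCommGroup A] (σ : AddMonoid.End A) (V : AddSubgroup A)
    (hV : ∀ a ∈ V, σ a ∈ V) (a : A) (ha : a ∈ V) : (σ - 1 : AddMonoid.End A) a ∈ V := by
  rw [d_apply]; exact sub_mem (hV a ha) ha

theorem n_mem {A : Type} [AddCommGroup A] (σ : AddMonoid.End A) (n : ℕ) (V : AddSubgroup A)
    (hV : ∀ a ∈ V, σ a ∈ V) (a : A) (ha : a ∈ V) : nmH σ n a ∈ V := by
  induction n with
  | zero => rw [n_zero]; exact zero_mem _
  | succ n ih => rw [n_succ]; exact add_mem (hV _ ih) ha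

theorem n_map {A I : Type} [AddCommGroup A] [AddCommGroup I] (σ : AddMonoid.End A)
    (τ : AddMonoid.End I) (j : A →+ I) (hj : ∀ a, j (σ a) = τ (j a)) (n : ℕ) (a : A) :
    j (nmH σ n a) = nmH τ n (j a) := by
  induction n with
  | zero => rw [n_zero, n_zero, map_zero]
  | succ n ih => rw [n_succ, n_succ, map_add, hj, ih]

end HerbX

open HerbX in
theorem herb : HERB_st := by
  intro A I _ _ σ τ n V j hσ hτ hV hj hP h90 _ h0 hi
  exact core (σ - 1 : AddMonoid.End A) (nmH σ n) (τ - 1 : AddMonoid.End I) (nmH τ n) V j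
    (d_mem σ V hV) (n_mem σ n V hV)
    (fun a => by
      show j ((σ - 1 : AddMonoid.End A) a) = (τ - 1 : AddMonoid.End I) (j a)
      rw [d_apply, d_apply, map_sub, hj])
    (n_map σ τ j hj n) (dn σ n hσ) (nd σ n hσ) (dn τ n hτ) (nd τ n hτ) hP h90 h0 hi

open HerbX in
theorem qlem : QLEM_st := by
  intro A _ σ n E E' hσ h hk hE hE' hz' ho'
  exact qcore (σ - 1 : AddMonoid.End A) (nmH σ n) E E' h hk (d_mem σ E hE) (d_mem σ E' hE')
    (n_mem σ n E hE) (n_mem σ n E' hE') (dn σ n hσ) (nd σ n hσ) hz' ho'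

end Pool.Agent.MP_f3cd89_nt
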