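import Pool.Agent.MP_f3cd89_nt.UnithA

/-! The Herbrand quotient of the units of a totally real cyclic extension. -/

set_option autoImplicit false

open Finset NumberField

namespace Pool.Agent.MP_f3cd89_nt

namespace UnithX

variable {L : Type} [Field L] (G : Type) [Group G] [MulSemiringAction G L]

variable (L) in
/-- the action on the multiplicative group as a homomorphism -/
def rho : G →* AddMonoid.End (Additive Lˣ) where
  toFun g := sA g
  map_one' := AddMonoidHom.ext fun a =>
    Additive.toMul.injective (Units.ext (one_smul G ((Additive.toMul a : Lˣ) : L)))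
  map_mul' g h := AddMonoidHom.ext fun a =>
    Additive.toMul.injective (Units.ext (mul_smul g h ((Additive.toMul a : Lˣ) : L)))

variable (L) in
/-- the action on the infinite places -/
@[reducible] def plc : MulAction G (InfinitePlace L) where
  smul g w := w.comap (MulSemiringAction.toRingHom G L g⁻¹)
  one_smul w := InfinitePlace.ext _ _ fun x => by
    change w ((1 : G)⁻¹ • x) = w x
    rw [inv_one, one_smul]
  mul_smul g h w := InfinitePlace.ext _ _ fun x => by
    change w ((g * h)⁻¹ • x) = w (h⁻¹ • g⁻¹ • x)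
    rw [mul_inv_rev, mul_smul]

theorem plc_free [IsTotallyReal L] [FaithfulSMul G L] (g : G) (w : InfinitePlace L)
    (h : w.comap (MulSemiringAction.toRingHom G L g⁻¹) = w) : g = 1 := by
  rw [← w.mk_embedding, InfinitePlace.comap_mk, InfinitePlace.mk_eq_iff,
    ComplexEmbedding.isReal_iff.1 (IsTotallyReal.complexEmbedding_isReal _), or_self] at h
  refine inv_eq_one.1 (FaithfulSMul.eq_of_smul_eq_smul (α := L) fun x => ?_)
  rw [one_smul]
  exact w.embedding.injective (RingHom.congr_fun h x)

/-- the logarithm of the absolute value -/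
noncomputable def lam (w : InfinitePlace L) : Additive Lˣ →+ ℝ where
  toFun a := Real.log (w ((Additive.toMul a : Lˣ) : L))
  map_zero' := by simp
  map_add' a b := by
    rw [toMul_add, Units.val_mul, map_mul, Real.log_mul
      (InfinitePlace.pos_iff.2 (Units.ne_zero _)).ne' (InfinitePlace.pos_iff.2 (Units.ne_zero _)).ne']

/-- units as elements of the multiplicative group -/
def un : Additive (𝓞 L)ˣ →+ Additive Lˣ :=
  MonoidHom.toAdditive (Units.map (algebraMap (𝓞 L) L : 𝓞 L →* L))

variable [NumberField L]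

theorem dv_un (u : Additive (𝓞 L)ˣ) : dv ((Additive.toMul (un u) : Lˣ) : L) = 0 := by
  ext v
  exact (ord_eq_zero_iff v (Additive.toMul u).ne_zero).2 fun h =>
    v.isPrime.ne_top (Ideal.eq_top_of_isUnit_mem _ h (Additive.toMul u).isUnit)

theorem exists_un {a : Additive Lˣ} (h : dv ((Additive.toMul a : Lˣ) : L) = 0) :
    ∃ u, un u = a := by
  obtain ⟨u, hu⟩ := exists_unit (Additive.toMul a).ne_zero fun v => DFunLike.congr_fun h v
  exact ⟨Additive.ofMul u, Additive.toMul.injective (Units.ext hu)⟩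

theorem sum_lam [IsTotallyReal L] (u : Additive (𝓞 L)ˣ) : ∑ w, lam w (un u) = 0 := by
  have h := Units.sum_mult_mul_log (Additive.toMul u)
  simp only [IsTotallyReal.mult_eq, Nat.cast_one, one_mul] at h
  exact h

theorem rk_le : Module.finrank ℤ (Additive (𝓞 L)ˣ × ℤ) ≤ Fintype.card (InfinitePlace L) := by
  have h := (LinearMap.ker (LinearMap.snd ℤ (Additive (𝓞 L)ˣ) ℤ)).finrank_quotient_add_finrank
  rw [(LinearMap.quotKerEquivOfSurjective _ LinearMap.snd_surjective).finrank_eq,
    ← LinearMap.range_inl, LinearMap.finrank_range_of_inj LinearMap.inl_injective,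
    Units.finrank_eq, Module.finrank_self, Units.rank] at h
  have := Fintype.card_pos (α := InfinitePlace L)
  omega

end UnithX

open UnithX in
theorem unith (hQ : QLEM_st) : UNITH_st := by
  intro L G _ _ _ _ _ _ _ γ E M hγ hE hd hM hu
  let _ := Fintype.ofFinite G
  let _ := plc L G
  have hl : ∀ (g : G) (w : InfinitePlace L) (a : Additive Lˣ),
      lam w (rho L G g a) = lam (g⁻¹ • w) a := fun g w a => by
    change Real.log (w (g • _)) = Real.log (w (g⁻¹⁻¹ • _))
    rw [inv_inv]
  have hE' : ∀ (g : G), ∀ a ∈ E, rho L G g a ∈ E := fun g a ha => by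
    obtain ⟨i, rfl⟩ := mem_powers_iff_mem_zpowers.2 (hγ g)
    exact map_pow (rho L G) γ i ▸ pow_mem' hE ha i
  have hs : ∀ a ∈ E, ∑ w, lam w a = 0 := fun a ha => by
    obtain ⟨u, rfl⟩ := exists_un (hd a ha)
    exact sum_lam u
  let c : Additive Lˣ := Additive.ofMul (Units.mk0 (2 : L) two_ne_zero)
  have hc : ∀ g : G, rho L G g c = c := fun g =>
    Additive.toMul.injective (Units.ext (map_ofNat (MulSemiringAction.toRingHom G L g) 2))
  have hc2 : ∀ w, lam w c = Real.log 2 := fun w =>
    congrArg Real.log (show w (2 : L) = 2 by simpa using InfinitePlace.map_natCast w 2)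
  have l2 : Real.log 2 ≠ 0 := (Real.log_pos one_lt_two).ne'
  have cd : (Fintype.card (InfinitePlace L) : ℝ) ≠ 0 := Nat.cast_ne_zero.2 Fintype.card_ne_zero
  have hi : ∀ k : ℤ, k • c ∈ E → k = 0 := fun k hk => by
    have h := hs _ hk
    simp only [map_zsmul, hc2, sum_const, card_univ, zsmul_eq_mul, nsmul_eq_mul] at h
    exact Int.cast_eq_zero.1 ((mul_eq_zero.1 ((mul_eq_zero.1 h).resolve_left cd)).resolve_right l2)
  choose u hu' using Units.dirichletUnitTheorem.exists_unit L
  let z : InfinitePlace L → Additive Lˣ := fun w =>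
    ∑ g : G, rho L G g (M • un (Additive.ofMul (u (g⁻¹ • w))))
  have z1 : ∀ w, z w ∈ E := fun w => sum_mem fun g _ => hE' g _ (hu _ (dv_un _))
  have z2 : ∀ w w', w' ≠ w → lam w' (z w) < 0 := fun w w' h => by
    rw [map_sum]
    refine sum_neg (fun g _ => ?_) univ_nonempty
    rw [hl, map_nsmul, nsmul_eq_mul]
    exact mul_neg_of_pos_of_neg (Nat.cast_pos.2 hM)
      (hu' _ _ fun e => h (MulAction.injective g⁻¹ e))
  have z3 : ∀ (g : G) (w : InfinitePlace L), rho L G g (z w + c) = z (g • w) + c := fun g w => by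
    rw [map_add, hc, map_sum]
    congr 1
    refine Fintype.sum_equiv (Equiv.mulLeft g) _ _ fun h => ?_
    rw [Equiv.coe_mulLeft, map_mul, mul_inv_rev, mul_smul, inv_smul_smul]
    rfl
  have hinj : Function.Injective (cmb fun w => z w + c) := by
    refine (injective_iff_map_eq_zero _).2 fun f hf => ?_
    have h1 : ∀ w', ∑ w, (f w : ℝ) * lam w' (z w) + (∑ w, (f w : ℝ)) * Real.log 2 = 0 := fun w' => by
      have h := congrArg (lam w') hf
      rw [cmb_apply, map_sum, map_zero] at h
      simpa only [map_zsmul, map_add, hc2, zsmul_eq_mul, mul_add, sum_add_distrib, ← sum_mul]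
        using h
    have h2 : ∑ w, (f w : ℝ) = 0 := by
      have h := sum_eq_zero (s := univ) fun w' _ => h1 w'
      rw [sum_add_distrib, sum_comm] at h
      rw [sum_const, card_univ, nsmul_eq_mul] at h
      simp only [← mul_sum, hs _ (z1 _), mul_zero, sum_const_zero, zero_add] at h
      exact (mul_eq_zero.1 ((mul_eq_zero.1 h).resolve_left cd)).resolve_right l2
    ext w
    exact Int.cast_eq_zero.1 (null (fun w w' => lam w' (z w)) z2 (fun w => hs _ (z1 w)) _ h2
      (fun w' => by simpa only [h2, zero_mul, add_zero] using h1 w') w)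
  obtain ⟨f1, f2⟩ := free (rho L G) hγ (plc_free G) z3 hinj
  obtain ⟨a1, a2⟩ := adj (rho L G γ) (Nat.card_pos (α := G)).ne' E c hE (hc γ) hi
  have b1 : (cmb fun w => z w + c).range ≤ E ⊔ AddSubgroup.zmultiples c := by
    rintro _ ⟨f, rfl⟩
    rw [cmb_apply]
    exact sum_mem fun w _ => zsmul_mem (mem_ext.2 ⟨_, z1 w, 1, by rw [one_smul]⟩) _
  have b2 : E ⊔ AddSubgroup.zmultiples c ≤ (un.coprod (zmultiplesHom _ c)).range := fun x hx => by
    obtain ⟨e, he, k, rfl⟩ := mem_ext.1 hx
    obtain ⟨v, rfl⟩ := exists_un (hd e he)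
    exact ⟨(v, k), rfl⟩
  have b3 := full (un.coprod (zmultiplesHom _ c)) _ hinj (b1.trans b2) rk_le
  obtain ⟨q1, -, q3⟩ := hQ _ (rho L G γ) (Nat.card G) _ _
    (by rw [← map_pow, pow_card_eq_one', map_one]) b1
    (fun h => b3 (AddSubgroup.relIndex_eq_zero_of_le_right b2 h))
    (fun x hx => by
      obtain ⟨e, he, k, rfl⟩ := mem_ext.1 hx
      exact mem_ext.2 ⟨_, hE e he, k, by rw [map_add, map_zsmul, hc]; rfl⟩)
    (by
      rintro _ ⟨f, rfl⟩
      exact ⟨_, (cmb_act _ z3 γ f).symm⟩) (by rw [f1]; exact one_ne_zero)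
    (by rw [f2]; exact one_ne_zero)
  rw [f1, f2, mul_one, mul_one, a1, a2] at q3
  rw [a1] at q1
  exact ⟨right_ne_zero_of_mul q1, q3.symm⟩

end Pool.Agent.MP_f3cd89_nt
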