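import Pool.Agent.MP_f3cd89_nt.Defs

set_option autoImplicit false
set_option linter.unusedSectionVars false

namespace Pool.Agent.MP_f3cd89_nt

/-- data of a group `G = ⟨A, X⟩` with `X a X⁻¹ = σ a`, `X ^ m = c` -/
structure Dat (A : Type) [CommGroup A] where
  σ : MulAut A
  m : ℕ
  m_pos : 0 < m
  c : A
  σ_pow : σ ^ m = 1
  σ_c : σ c = c

/-- a character of `⟨A, X ^ d⟩`, to be induced to `G` -/
structure Pt {A : Type} [CommGroup A] (Δ : Dat A) (k : Type) [CommRing k] where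
  d : ℕ
  d_dvd : d ∣ Δ.m
  η : A →* kˣ
  inv : ∀ a, η ((Δ.σ ^ d) a) = η a
  ω : kˣ
  ω_pow : ω ^ Δ.m = η Δ.c

variable {A : Type} [CommGroup A] {Δ : Dat A} {k : Type} [CommRing k]

theorem Pt.d_pos (P : Pt Δ k) : 0 < P.d := Nat.pos_of_dvd_of_pos P.d_dvd Δ.m_pos

instance Pt.neZero (P : Pt Δ k) : NeZero P.d := ⟨P.d_pos.ne'⟩

theorem Pt.inv_mul (P : Pt Δ k) (t : ℕ) (a : A) : P.η ((Δ.σ ^ (t * P.d)) a) = P.η a := by
  induction t with
  | zero => simp
  | succ t ih => rw [Nat.succ_mul, add_comm, pow_add, MulAut.mul_apply, P.inv, ih]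

theorem Dat.pow_c (Δ : Dat A) (t : ℕ) : (Δ.σ ^ t) Δ.c = Δ.c := by
  induction t with
  | zero => simp
  | succ t ih => rw [pow_succ, MulAut.mul_apply, Δ.σ_c, ih]

/-- the character `η ∘ σ ^ i` -/
def Pt.ch (P : Pt Δ k) (i : ℕ) : A →* k :=
  (Units.coeHom k).comp (P.η.comp (Δ.σ ^ i).toMonoidHom)

@[simp] theorem Pt.ch_apply (P : Pt Δ k) (i : ℕ) (a : A) :
    P.ch i a = ((P.η ((Δ.σ ^ i) a) : kˣ) : k) := rfl

/-- the character `η ∘ σ ^ i` on the group ring over `Λ`, along `γ : Λ → k` -/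
noncomputable def lamG {Λ : Type} [CommRing Λ] (γ : Λ →+* k) (P : Pt Δ k) (i : ℕ) :
    MonoidAlgebra Λ A →+* k :=
  MonoidAlgebra.liftNCRingHom γ (P.ch i) fun _ _ => Commute.all _ _

theorem lamG_single {Λ : Type} [CommRing Λ] (γ : Λ →+* k) (P : Pt Δ k) (i : ℕ) (a : A) (x : Λ) :
    lamG γ P i (MonoidAlgebra.single a x) = γ x * ((P.η ((Δ.σ ^ i) a) : kˣ) : k) := by
  simp [lamG]

/-- the character `η ∘ σ ^ i` on the integral group ring -/
noncomputable def lam (P : Pt Δ k) (i : ℕ) : MonoidAlgebra ℤ A →+* k :=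
  lamG (Int.castRingHom k) P i

theorem lam_single (P : Pt Δ k) (i : ℕ) (a : A) (x : ℤ) :
    lam P i (MonoidAlgebra.single a x) = (x : k) * ((P.η ((Δ.σ ^ i) a) : kˣ) : k) :=
  lamG_single _ P i a x

theorem lam_of (P : Pt Δ k) (i : ℕ) (a : A) :
    lam P i (MonoidAlgebra.of ℤ A a) = ((P.η ((Δ.σ ^ i) a) : kˣ) : k) := by
  rw [MonoidAlgebra.of_apply, lam_single]; simp

theorem lamG_add_mul {Λ : Type} [CommRing Λ] (γ : Λ →+* k) (P : Pt Δ k) (i t : ℕ) :
    lamG γ P (i + t * P.d) = lamG γ P i := by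
  refine MonoidAlgebra.ringHom_ext (fun x => ?_) fun a => ?_
  · simp [lamG_single]
  · rw [lamG_single, lamG_single, add_comm, pow_add, MulAut.mul_apply, P.inv_mul]

theorem lam_add_mul (P : Pt Δ k) (i t : ℕ) : lam P (i + t * P.d) = lam P i :=
  lamG_add_mul _ P i t

variable (Δ) in
/-- the automorphism `σ ^ i` of the group ring -/
noncomputable def sg (i : ℕ) : MonoidAlgebra ℤ A →+* MonoidAlgebra ℤ A :=
  MonoidAlgebra.mapDomainRingHom ℤ (Δ.σ ^ i).toMonoidHom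

theorem sg_single (i : ℕ) (a : A) (x : ℤ) :
    sg Δ i (MonoidAlgebra.single a x) = MonoidAlgebra.single ((Δ.σ ^ i) a) x := by
  simp [sg]

theorem lam_sg (P : Pt Δ k) (i j : ℕ) (b : MonoidAlgebra ℤ A) :
    lam P i (sg Δ j b) = lam P (i + j) b := by
  have : (lam P i).comp (sg Δ j) = lam P (i + j) := by
    refine MonoidAlgebra.ringHom_ext (fun x => ?_) fun a => ?_
    · simp [sg_single, lam_single]
    · simp [sg_single, lam_single, pow_add]
  exact DFunLike.congr_fun this b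

theorem sg_sg (i j : ℕ) (b : MonoidAlgebra ℤ A) : sg Δ i (sg Δ j b) = sg Δ (i + j) b := by
  have : (sg Δ i).comp (sg Δ j) = sg Δ (i + j) := by
    refine MonoidAlgebra.ringHom_ext (fun x => ?_) fun a => ?_
    · simp [sg_single]
    · simp [sg_single, pow_add]
  exact DFunLike.congr_fun this b

/-- the matrix of `∑ b_e X ^ e` in the induced representation, coefficients in `Λ` -/
noncomputable def rhoG {Λ : Type} [CommRing Λ] (γ : Λ →+* k) (P : Pt Δ k)
    (y : ℤ →₀ MonoidAlgebra Λ A) : Matrix (ZMod P.d) (ZMod P.d) k :=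
  Matrix.of fun i j => y.sum fun e b =>
    if j = i + (e : ZMod P.d) then lamG γ P i.val b * ((P.ω ^ e : kˣ) : k) else 0

/-- the matrix of `∑ b_e X ^ e` in the induced representation -/
noncomputable def rho (P : Pt Δ k) (y : ℤ →₀ MonoidAlgebra ℤ A) :
    Matrix (ZMod P.d) (ZMod P.d) k :=
  rhoG (Int.castRingHom k) P y

theorem rhoG_single {Λ : Type} [CommRing Λ] (γ : Λ →+* k) (P : Pt Δ k) (e : ℤ)
    (b : MonoidAlgebra Λ A) (i j : ZMod P.d) : rhoG γ P (Finsupp.single e b) i j =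
      if j = i + (e : ZMod P.d) then lamG γ P i.val b * ((P.ω ^ e : kˣ) : k) else 0 := by
  simp only [rhoG, Matrix.of_apply]
  rw [Finsupp.sum_single_index (by simp)]

theorem rhoG_zero {Λ : Type} [CommRing Λ] (γ : Λ →+* k) (P : Pt Δ k) : rhoG γ P 0 = 0 := by
  ext i j; simp [rhoG]

theorem rhoG_add {Λ : Type} [CommRing Λ] (γ : Λ →+* k) (P : Pt Δ k)
    (y z : ℤ →₀ MonoidAlgebra Λ A) : rhoG γ P (y + z) = rhoG γ P y + rhoG γ P z := by
  ext i j
  simp only [rhoG, Matrix.of_apply, Matrix.add_apply]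
  refine Finsupp.sum_add_index' (fun e => by simp) fun e b b' => ?_
  split_ifs <;> simp [add_mul]

theorem rho_single (P : Pt Δ k) (e : ℤ) (b : MonoidAlgebra ℤ A) (i j : ZMod P.d) :
    rho P (Finsupp.single e b) i j =
      if j = i + (e : ZMod P.d) then lam P i.val b * ((P.ω ^ e : kˣ) : k) else 0 :=
  rhoG_single _ P e b i j

/-- the reduced norm at a point -/
noncomputable def Dt {r : ℕ} (H : Matrix (Fin r) (Fin r) (ℤ →₀ MonoidAlgebra ℤ A)) (P : Pt Δ k) :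
    k :=
  (Matrix.of fun x y : Fin r × ZMod P.d => rho P (H x.1 y.1) x.2 y.2).det

variable (Δ k) in
/-- the additive span of the reduced norms -/
noncomputable def J : AddSubgroup (Pt Δ k → k) :=
  AddSubgroup.closure {f | ∃ (r : ℕ) (H : Matrix (Fin r) (Fin r) (ℤ →₀ MonoidAlgebra ℤ A)), f = Dt H}

/-- trace of the multiplicative transfer from level `d` -/
noncomputable def W (d : ℕ) (b : MonoidAlgebra ℤ A) (e : ℤ) (P : Pt Δ k) : k :=
  if d ∣ P.d then ∑ i ∈ Finset.range d, ∏ t ∈ Finset.range (P.d / d),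
    (lam P (i + t * d) b * ((P.ω ^ e : kˣ) : k)) else 0

/-- the same for a group element -/
noncomputable def V (d : ℕ) (a : A) (e : ℤ) : Pt Δ k → k := W d (MonoidAlgebra.of ℤ A a) e

/-- the linear extension of `V` -/
noncomputable def Vl (d : ℕ) (b : MonoidAlgebra ℤ A) (e : ℤ) : Pt Δ k → k :=
  b.coeff.sum fun a z => z • V d a e

variable (Δ k) in
/-- the span of the functions `V` -/
noncomputable def B : AddSubgroup (Pt Δ k → k) :=
  AddSubgroup.closure {f | ∃ (d : ℕ) (a : A) (e : ℤ), d ∣ Δ.m ∧ (d : ℤ) ∣ e ∧ f = V d a e}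

variable (Δ k) in
/-- the span of the functions `V` of levels that are proper multiples of `d` -/
noncomputable def Bgt (d : ℕ) : AddSubgroup (Pt Δ k → k) :=
  AddSubgroup.closure {f | ∃ (d' : ℕ) (a : A) (e : ℤ), d' ∣ Δ.m ∧ d ∣ d' ∧ d' ≠ d ∧ (d' : ℤ) ∣ e ∧
    f = V d' a e}

variable (Δ k) in
/-- the subgroup `p B` -/
noncomputable def pB (p : ℕ) : AddSubgroup (Pt Δ k → k) := (B Δ k).map (nsmulAddMonoidHom p)

variable (Δ) in
/-- the transfer from level `d` to level `d r` -/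
def ver (d r : ℕ) (a : A) : A := ∏ t ∈ Finset.range r, (Δ.σ ^ (t * d)) a

variable (Δ) in
/-- the trace over `Z / d` -/
noncomputable def trc (d : ℕ) (b : MonoidAlgebra ℤ A) : MonoidAlgebra ℤ A :=
  ∑ i ∈ Finset.range d, sg Δ i b

theorem Dt_mem {r : ℕ} (H : Matrix (Fin r) (Fin r) (ℤ →₀ MonoidAlgebra ℤ A)) : Dt H ∈ J Δ k :=
  AddSubgroup.subset_closure ⟨r, H, rfl⟩

theorem V_mem {d : ℕ} (a : A) {e : ℤ} (hd : d ∣ Δ.m) (he : (d : ℤ) ∣ e) : V d a e ∈ B Δ k :=
  AddSubgroup.subset_closure ⟨d, a, e, hd, he, rfl⟩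

theorem Vl_mem {d : ℕ} (b : MonoidAlgebra ℤ A) {e : ℤ} (hd : d ∣ Δ.m) (he : (d : ℤ) ∣ e) :
    Vl d b e ∈ B Δ k :=
  AddSubgroup.sum_mem _ fun a _ => AddSubgroup.zsmul_mem _ (V_mem a hd he) _

theorem Bgt_le_B (d : ℕ) : Bgt Δ k d ≤ B Δ k :=
  AddSubgroup.closure_mono fun _ ⟨d', a, e, h1, _, _, h2, h3⟩ => ⟨d', a, e, h1, h2, h3⟩

theorem mem_pB {p : ℕ} {f : Pt Δ k → k} : f ∈ pB Δ k p ↔ ∃ g ∈ B Δ k, p • g = f := Iff.rfl

theorem Vl_single (d : ℕ) (a : A) (z e : ℤ) :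
    (Vl d (MonoidAlgebra.single a z) e : Pt Δ k → k) = z • V d a e := by
  rw [Vl, MonoidAlgebra.coeff_single]
  exact Finsupp.sum_single_index (zero_smul _ _)

theorem Vl_of (d : ℕ) (a : A) (e : ℤ) :
    (Vl d (MonoidAlgebra.of ℤ A a) e : Pt Δ k → k) = V d a e := by
  rw [MonoidAlgebra.of_apply, Vl_single, one_smul]

theorem Vl_zero (d : ℕ) (e : ℤ) : (Vl d 0 e : Pt Δ k → k) = 0 := by simp [Vl]

theorem Vl_add (d : ℕ) (b b' : MonoidAlgebra ℤ A) (e : ℤ) :
    (Vl d (b + b') e : Pt Δ k → k) = Vl d b e + Vl d b' e := by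
  rw [Vl, MonoidAlgebra.coeff_add]
  exact Finsupp.sum_add_index' (fun _ => zero_smul _ _) fun _ _ _ => add_smul _ _ _

theorem Vl_neg (d : ℕ) (b : MonoidAlgebra ℤ A) (e : ℤ) :
    (Vl d (-b) e : Pt Δ k → k) = -Vl d b e := by
  rw [eq_neg_iff_add_eq_zero, ← Vl_add, neg_add_cancel, Vl_zero]

/-- the point with the conjugate character -/
def Pt.tw (P : Pt Δ k) : Pt Δ k where
  d := P.d
  d_dvd := P.d_dvd
  η := P.η.comp Δ.σ.toMonoidHom
  inv a := by
    change P.η (Δ.σ ((Δ.σ ^ P.d) a)) = P.η (Δ.σ a)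
    rw [← MulAut.mul_apply, ← pow_succ', pow_succ, MulAut.mul_apply, P.inv]
  ω := P.ω
  ω_pow := by
    change _ = P.η (Δ.σ Δ.c)
    rw [Δ.σ_c, P.ω_pow]

/-- the point of level `d` given by composing with the transfer -/
def Pt.down (P : Pt Δ k) (d : ℕ) (h : d ∣ P.d) : Pt Δ k where
  d := d
  d_dvd := h.trans P.d_dvd
  η := ∏ t ∈ Finset.range (P.d / d), P.η.comp (Δ.σ ^ (t * d)).toMonoidHom
  inv a := by
    simp only [MonoidHom.finsetProd_apply, MonoidHom.comp_apply, MulEquiv.coe_toMonoidHom]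
    have h1 := Finset.prod_range_succ (fun t => P.η ((Δ.σ ^ (t * d)) a)) (P.d / d)
    have h2 := Finset.prod_range_succ' (fun t => P.η ((Δ.σ ^ (t * d)) a)) (P.d / d)
    rw [Nat.div_mul_cancel h, P.inv] at h1
    rw [h1, zero_mul, pow_zero, MulAut.one_apply] at h2
    rw [mul_right_cancel h2]
    refine Finset.prod_congr rfl fun t _ => ?_
    rw [Nat.succ_mul, pow_add, MulAut.mul_apply]
  ω := P.ω ^ (P.d / d)
  ω_pow := by
    simp only [MonoidHom.finsetProd_apply, MonoidHom.comp_apply, MulEquiv.coe_toMonoidHom,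
      Δ.pow_c, Finset.prod_const, Finset.card_range]
    rw [← pow_mul, mul_comm, pow_mul, P.ω_pow]

theorem Pt.down_η (P : Pt Δ k) (d : ℕ) (h : d ∣ P.d) (a : A) :
    (P.down d h).η a = P.η (ver Δ d (P.d / d) a) := by
  simp [Pt.down, ver, MonoidHom.finsetProd_apply]

/-- change of coefficients -/
def Pt.map {k' : Type} [CommRing k'] (f : k →+* k') (P : Pt Δ k) : Pt Δ k' where
  d := P.d
  d_dvd := P.d_dvd
  η := (Units.map (f : k →* k')).comp P.η
  inv a := by simp [P.inv]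
  ω := Units.map (f : k →* k') P.ω
  ω_pow := by rw [← map_pow, P.ω_pow]; rfl

/-- a presentation of the group `G` by the data -/
structure Pres (Δ : Dat A) (G : Type) [Group G] where
  ι : A →* G
  X : G
  inj : Function.Injective ι
  conj : ∀ a, X * ι a * X⁻¹ = ι (Δ.σ a)
  pow : X ^ Δ.m = ι Δ.c
  gen : ∀ g, ∃ a, ∃ e : ℤ, g = ι a * X ^ e
  free : ∀ (e : ℤ) (a : A), X ^ e = ι a → (Δ.m : ℤ) ∣ e

variable {G : Type} [Group G]

/-- the `A`-part of a group element -/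
noncomputable def Pres.pa (π : Pres Δ G) (g : G) : A := (π.gen g).choose

/-- the exponent of `X` in a group element -/
noncomputable def Pres.pe (π : Pres Δ G) (g : G) : ℤ := (π.gen g).choose_spec.choose

theorem Pres.eq_pa (π : Pres Δ G) (g : G) : g = π.ι (π.pa g) * π.X ^ π.pe g :=
  (π.gen g).choose_spec.choose_spec

/-- the induced representation -/
noncomputable def rep (π : Pres Δ G) (P : Pt Δ k) (g : G) : Matrix (ZMod P.d) (ZMod P.d) k :=
  rho P (Finsupp.single (π.pe g) (MonoidAlgebra.of ℤ A (π.pa g)))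

/-- the character that is induced, as a function on the whole group -/
noncomputable def psi (π : Pres Δ G) (P : Pt Δ k) (g : G) : kˣ := P.η (π.pa g) * P.ω ^ π.pe g

/-- the element `∑ b_e X ^ e` of the group ring of `G` -/
noncomputable def toG (π : Pres Δ G) (y : ℤ →₀ MonoidAlgebra ℤ A) : MonoidAlgebra ℤ G :=
  y.sum fun e b => MonoidAlgebra.mapDomainRingHom ℤ π.ι b * MonoidAlgebra.of ℤ G (π.X ^ e)

/-- the subgroup generated by `A` and `X ^ d` -/
def Pres.U (π : Pres Δ G) (d : ℕ) : Subgroup G := π.ι.range ⊔ Subgroup.zpowers (π.X ^ d)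

end Pool.Agent.MP_f3cd89_nt
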