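import Pool.Agent.MP_f3cd89_nt.ADefs

/-! Statements of the algebraic steps. Each is proved in its own file from the statements it
depends on. -/

set_option autoImplicit false

open Finset

namespace Pool.Agent.MP_f3cd89_nt

/-- an algebraic closure of the prime field -/
abbrev Kb (p : ℕ) [Fact p.Prime] : Type := AlgebraicClosure (ZMod p)

/-- characteristic polynomial of a weighted cyclic shift -/
def DET_st : Prop := ∀ (k : Type) [CommRing k] (d : ℕ) [NeZero d] (e : ℤ) (x : ℕ → k) (y : k),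
  (∀ i, x (i + d) = x i) →
  (y • (1 : Matrix (ZMod d) (ZMod d) k) -
      Matrix.of fun i j : ZMod d => if j = i + (e : ZMod d) then x i.val else 0).det =
    ∏ i ∈ range (Int.gcd d e),
      (y ^ (d / Int.gcd d e) - ∏ t ∈ range (d / Int.gcd d e), x (i + t * Int.gcd d e))

/-- a sum over a finite set is a sum of orbit sums -/
def ORB_st : Prop := ∀ (M : Type) [AddCommGroup M] (N : AddSubgroup M) (Y : Type) [Fintype Y]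
  (τ : Equiv.Perm Y) (g : Y → M),
  (∀ y, ∑ u ∈ range (Function.minimalPeriod τ y), g ((τ ^ u) y) ∈ N) → ∑ y, g y ∈ N

/-- elementary identities for `W`, and functoriality in the coefficients -/
def BASE_st : Prop := ∀ (A : Type) [CommGroup A] (Δ : Dat A) (k : Type) [CommRing k],
  (∀ (d : ℕ) (b : MonoidAlgebra ℤ A) (e n : ℤ) (P : Pt Δ k),
    W d b (e + n * d) P = W d b e P * ((P.ω ^ (n * P.d) : kˣ) : k)) ∧
  (∀ (d i : ℕ) (b : MonoidAlgebra ℤ A) (e : ℤ) (P : Pt Δ k), W d (sg Δ i b) e P = W d b e P) ∧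
  (∀ (d : ℕ) (a a' : A) (e : ℤ) (P : Pt Δ k),
    V d (a * (Δ.σ ^ d) a' * a'⁻¹) e P = V d a e P) ∧
  (∀ (d j : ℕ) (b : MonoidAlgebra ℤ A) (e : ℤ) (P : Pt Δ k),
    W (d * j) (∏ t ∈ range j, sg Δ (t * d) b) (e * j) P =
      if d * j ∣ P.d then (j : k) * W d b e P else 0) ∧
  (∀ (d j : ℕ) (a : A) (e : ℤ) (P : Pt Δ k),
    V (d * j) (ver Δ d j a) (e * j) P = if d * j ∣ P.d then (j : k) * V d a e P else 0) ∧
  (∀ (d : ℕ) (b : MonoidAlgebra ℤ A) (e : ℤ) (P : Pt Δ k),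
    W d (-b) e P = -W d b e P + W (d * 2) (b * sg Δ d b) (e * 2) P) ∧
  (∀ (d : ℕ) (a : A) (e : ℤ) (P : Pt Δ k) (d' : ℕ) (h : d' ∣ P.d), d ∣ d' →
    V d a e (P.down d' h) = V d a e P) ∧
  (∀ (d : ℕ) (b : MonoidAlgebra ℤ A) (e : ℤ) (P : Pt Δ k), W d b e P.tw = W d b e P) ∧
  (∀ (k' : Type) [CommRing k'] (f : k →+* k') (P : Pt Δ k),
    (∀ (d : ℕ) (b : MonoidAlgebra ℤ A) (e : ℤ), W d b e (P.map f) = f (W d b e P)) ∧
    ∀ (r : ℕ) (H : Matrix (Fin r) (Fin r) (ℤ →₀ MonoidAlgebra ℤ A)), Dt H (P.map f) = f (Dt H P))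

/-- `J` is a ring that contains the shifts and the signs -/
def RING_st : Prop := ∀ (A : Type) [CommGroup A] (Δ : Dat A) (k : Type) [CommRing k],
  1 ∈ J Δ k ∧ (∀ f ∈ J Δ k, ∀ g ∈ J Δ k, f * g ∈ J Δ k) ∧
  (∀ y : ℤ →₀ MonoidAlgebra ℤ A, (fun P : Pt Δ k => (rho P y).det) ∈ J Δ k) ∧
  (∀ n : ℤ, (fun P : Pt Δ k => (n : k) ^ P.d) ∈ J Δ k) ∧
  (∀ n : ℤ, (fun P : Pt Δ k => ((P.ω ^ (n * P.d) : kˣ) : k)) ∈ J Δ k) ∧
  (∀ e : ℤ, (fun P : Pt Δ k => (-1 : k) ^ Int.gcd P.d e) ∈ J Δ k)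

/-- `B` is a ring -/
def BRING_st : Prop := ∀ (A : Type) [CommGroup A] (Δ : Dat A) (k : Type) [CommRing k],
  1 ∈ B Δ k ∧ (∀ f ∈ B Δ k, ∀ g ∈ B Δ k, f * g ∈ B Δ k) ∧
  (∀ (d : ℕ) (b b' : MonoidAlgebra ℤ A),
    (Vl d b 0 * Vl d b' 0 : Pt Δ k → k) = Vl d (b * trc Δ d b') 0) ∧
  (∀ g : ℕ → ℤ, (fun P : Pt Δ k => (Δ.m : k) * (g P.d : k)) ∈ B Δ k)

/-- `W` is linear up to higher levels -/
def WV_st : Prop := ∀ (A : Type) [CommGroup A] (Δ : Dat A) (k : Type) [CommRing k]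
  (d : ℕ) (b : MonoidAlgebra ℤ A) (e : ℤ), d ∣ Δ.m → (d : ℤ) ∣ e →
  W d b e - Vl d b e ∈ Bgt Δ k d

/-- reduced norms satisfy the congruences -/
def JB_st : Prop := ∀ (A : Type) [CommGroup A] (Δ : Dat A) (k : Type) [CommRing k],
  J Δ k ≤ B Δ k

/-- multiplicative transfers of multiples of `p` -/
def GAUSS_st : Prop := ∀ (A : Type) [CommGroup A] (Δ : Dat A) (k : Type) [CommRing k]
  (p : ℕ), p.Prime →
  (∀ (d : ℕ) (b : MonoidAlgebra ℤ A) (e : ℤ), d ∣ Δ.m → (d : ℤ) ∣ e →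
    W d (p ^ 2 • b) e ∈ pB Δ k p) ∧
  ∀ (d : ℕ) (a : A) (e : ℤ), d * p ∣ Δ.m → (d : ℤ) ∣ e →
    W d (p • MonoidAlgebra.of ℤ A a) e + V (d * p) (ver Δ d p a) (e * p) ∈
      pB Δ k p ⊔ Bgt Δ k (d * p)

/-- the triangularity step -/
def TRI_st : Prop := ∀ (A : Type) [CommGroup A] (Δ : Dat A) (k : Type) [CommRing k]
  (N : AddSubgroup (Pt Δ k → k)) (I : Ideal (MonoidAlgebra ℤ A)),
  J Δ k ≤ N → (∀ f ∈ J Δ k, ∀ g ∈ N, f * g ∈ N) → (∀ i, ∀ b ∈ I, sg Δ i b ∈ I) →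
  (∀ (d : ℕ) (e : ℤ) (b : MonoidAlgebra ℤ A), d ∣ Δ.m → (d : ℤ) ∣ e → b ∈ I * I → W d b e ∈ N) →
  ∀ (d : ℕ) (e : ℤ) (b : MonoidAlgebra ℤ A), d ∣ Δ.m → (d : ℤ) ∣ e → b ∈ I → W d b e ∈ N

/-- restriction of scalars from a finite field -/
def RES_st : Prop := ∀ (A : Type) [CommGroup A] (Δ : Dat A) (p : ℕ) [Fact p.Prime] (f : ℕ)
  (y : ℤ →₀ MonoidAlgebra (Kb p) A), 0 < f → (∀ e a, (y e).coeff a ^ p ^ f = (y e).coeff a) →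
  ∃ Θ ∈ J Δ (Kb p), ∀ P : Pt Δ (Kb p),
    Θ P = ∏ j ∈ range f, (rhoG (iterateFrobenius (Kb p) p j) P y).det

/-- the test element -/
noncomputable def testEl {A : Type} [CommGroup A] [Fintype A] {k : Type} [CommRing k] (s M : ℕ)
    (η : A →* kˣ) (l : kˣ) (c : k) : ℤ →₀ MonoidAlgebra k A :=
  Finsupp.single 0 1 + ∑ n ∈ range M, Finsupp.single ((s * n : ℕ) : ℤ)
    (MonoidAlgebra.single 1 ((1 - c) * ((l⁻¹ ^ n : kˣ) : k)) *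
      ∏ a : A, (1 - (MonoidAlgebra.single a 1 - MonoidAlgebra.single 1 (η a : k)) ^ M))

open Classical in
/-- the determinant of the test element -/
def TEST_st : Prop := ∀ (A : Type) [CommGroup A] [Fintype A] (Δ : Dat A) (p : ℕ) [Fact p.Prime]
  (f s M : ℕ) (γ : Kb p →+* Kb p) (η : A →* (Kb p)ˣ) (l : (Kb p)ˣ) (c : Kb p) (P : Pt Δ (Kb p)),
  0 < f → M + 1 = p ^ f → (∀ a, η a ^ M = 1) → l ^ M = 1 → (∀ a, P.η a ^ M = 1) → P.ω ^ M = 1 →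
  (∀ i, (∀ a, η ((Δ.σ ^ i) a) = η a) ↔ s ∣ i) →
  ((∃ i, ∀ a, P.ch i a = γ (η a)) → P.d / s ∣ M) →
  (rhoG γ P (testEl s M η l c)).det =
    if (∃ i, ∀ a, P.ch i a = γ (η a)) ∧ γ l ^ (P.d / s) = (P.ω : Kb p) ^ P.d then γ c else 1

/-- decoding a product of Frobenius powers -/
def DEC_st : Prop := ∀ (p : ℕ) [Fact p.Prime] (f : ℕ) (Γ Γ' : Finset ℕ), Γ ⊆ range f →
  Γ' ⊆ range f → (∀ c : Kb p, c ^ p ^ f = c → ∏ j ∈ Γ, c ^ p ^ j = ∏ j ∈ Γ', c ^ p ^ j) →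
  0 ∈ Γ → 0 ∈ Γ'

/-- reduced norms separate the points that `B` separates -/
def SEP_st : Prop := ∀ (A : Type) [CommGroup A] [Finite A] (Δ : Dat A) (p : ℕ) [Fact p.Prime]
  (P P' : Pt Δ (Kb p)), (∀ f ∈ J Δ (Kb p), f P = f P') → ∀ g ∈ B Δ (Kb p), g P = g P'

/-- interpolation with Frobenius descent -/
def SW_st : Prop := ∀ (p : ℕ) [Fact p.Prime] (Y : Type) [Finite Y] (k : Type) [Field k] [CharP k p]
  (R : Subring (Y → k)) (n : ℕ), 0 < n → (∀ g ∈ R, ∀ y, g y ^ p ^ n = g y) →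
  ∀ f : Y → k, (∀ y y' j, (∀ g ∈ R, g y' = g y ^ p ^ j) → f y' = f y ^ p ^ j) → f ∈ R

/-- the inclusion in characteristic `p` -/
def C1A_st : Prop := ∀ (A : Type) [CommGroup A] [Finite A] (Δ : Dat A) (p : ℕ) [Fact p.Prime],
  B Δ (Kb p) ≤ J Δ (Kb p)

/-- `J` surjects on `B / p B` modulo nilpotents -/
def C1_st : Prop := ∀ (A : Type) [CommGroup A] [Finite A] (Δ : Dat A) (p : ℕ), p.Prime →
  ∀ β ∈ B Δ ℂ, ∃ Θ ∈ J Δ ℂ, ∃ K : ℕ, (β - Θ) ^ K ∈ pB Δ ℂ p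

/-- the kernel of the trace on a group ring of order prime to `p` -/
def KER_st : Prop := ∀ (A : Type) [CommGroup A] [Finite A] (Δ : Dat A) (p n : ℕ), p.Prime → 0 < n →
  (∀ a : A, a ^ p ^ n = a) → ∀ (M : Type) [AddCommGroup M] (v : A → M), (∀ x : M, p • x = 0) →
  (∀ a, v (Δ.σ a) = v a) → (p ∣ Δ.m → ∀ a, v (ver Δ (Δ.m / p) p a) = 0) →
  ∀ b : MonoidAlgebra ℤ A,
    ((b * trc Δ Δ.m b ^ (p ^ n - 1)).coeff.sum fun a z => z • v a) = b.coeff.sum fun a z => z • v a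

/-- the inclusion modulo `p` -/
def BJP_st : Prop := ∀ (A : Type) [CommGroup A] [Finite A] (Δ : Dat A) (p : ℕ), p.Prime →
  B Δ ℂ ≤ J Δ ℂ ⊔ pB Δ ℂ p

/-- the main algebraic theorem -/
def BJ_st : Prop := ∀ (A : Type) [CommGroup A] [Finite A] (Δ : Dat A), B Δ ℂ ≤ J Δ ℂ

/-- the congruence between the values at levels `d` and `d / p` -/
def CongrAt {A : Type} [CommGroup A] {Δ : Dat A} (p : ℕ) (θ : Pt Δ ℂ → ℂ) (d : ℕ) : Prop :=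
  ∃ u : ℕ, u.Coprime p ∧ ∃ Z : (A × ℤ) →₀ ℤ, (∀ x ∈ Z.support, (d : ℤ) ∣ x.2) ∧
    ∀ P : Pt Δ ℂ, P.d = d →
      (u : ℂ) * (θ P - if h : p ∣ P.d then θ (P.down (P.d / p) (Nat.div_dvd_of_dvd h)) else 0) =
        Z.sum fun x z => (z : ℂ) * ∑ t ∈ range (ordProj[p] d),
          P.ch (ordCompl[p] d * t) x.1 * ((P.ω ^ x.2 : ℂˣ) : ℂ)

/-- the congruences characterise `B` locally at `p` -/
def DWORK_st : Prop := ∀ (A : Type) [CommGroup A] (Δ : Dat A) (p : ℕ) (θ : Pt Δ ℂ → ℂ),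
  p.Prime → (∀ P, θ P.tw = θ P) → (∀ d, d ∣ Δ.m → CongrAt p θ d) →
  ∃ u : ℕ, u.Coprime p ∧ u • θ ∈ B Δ ℂ

/-- dividing by the reduced norm of an integer prime to `p` -/
def INVD_st : Prop := ∀ (A : Type) [CommGroup A] (Δ : Dat A) (p : ℕ) (θ : Pt Δ ℂ → ℂ) (n : ℤ)
  (u : ℕ), p.Prime → ¬(p : ℤ) ∣ n → u.Coprime p →
  u • (fun P : Pt Δ ℂ => (n : ℂ) ^ P.d * θ P) ∈ B Δ ℂ → ∃ u' : ℕ, u'.Coprime p ∧ u' • θ ∈ B Δ ℂ

/-- the induced representation and the inducing character -/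
def REP_st : Prop := ∀ (A : Type) [CommGroup A] (Δ : Dat A) (G : Type) [Group G] (π : Pres Δ G),
  (∀ (i : ℕ) (a : A), π.X ^ i * π.ι a * (π.X ^ i)⁻¹ = π.ι ((Δ.σ ^ i) a)) ∧
  (∀ (d : ℕ) (g : G), g ∈ π.U d ↔ ∃ (a : A) (e : ℤ), (d : ℤ) ∣ e ∧ g = π.ι a * π.X ^ e) ∧
  (∀ d : ℕ, (π.U d).Normal) ∧
  (∀ d : ℕ, d ∣ Δ.m → ∀ (a : A) (e : ℤ), π.ι a * π.X ^ e ∈ π.U d ↔ (d : ℤ) ∣ e) ∧
  ∀ (k : Type) [CommRing k] (P : Pt Δ k),
    (∀ (a : A) (e : ℤ),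
      rep π P (π.ι a * π.X ^ e) = rho P (Finsupp.single e (MonoidAlgebra.of ℤ A a))) ∧
    rep π P 1 = 1 ∧ (∀ g h, rep π P (g * h) = rep π P g * rep π P h) ∧
    (∀ g, rep π P.tw g = rep π P (π.X * g * π.X⁻¹)) ∧
    (∀ y, rho P y = (toG π y).coeff.sum fun g z => z • rep π P g) ∧
    (∀ (a : A) (e : ℤ), psi π P (π.ι a * π.X ^ e) = P.η a * P.ω ^ e) ∧
    (∀ g ∈ π.U P.d, ∀ h ∈ π.U P.d, psi π P (g * h) = psi π P g * psi π P h)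

/-- Euler factors of the induced representation, and the transfer -/
def REPE_st : Prop := ∀ (A : Type) [CommGroup A] (Δ : Dat A) (G : Type) [Group G] (π : Pres Δ G)
  (k : Type) [CommRing k] (P : Pt Δ k),
    (∀ (g : G) (x : k), (1 - x • rep π P g⁻¹).det =
      ∏ i ∈ range (Int.gcd P.d (π.pe g)), (1 - x ^ (P.d / Int.gcd P.d (π.pe g)) *
        (((psi π P (π.X ^ i * g ^ (P.d / Int.gcd P.d (π.pe g)) * (π.X ^ i)⁻¹))⁻¹ : kˣ) : k))) ∧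
    (∀ (d : ℕ) (h : d ∣ P.d) (a : A) (e : ℤ), (d : ℤ) ∣ e →
      psi π (P.down d h) (π.ι a * π.X ^ e) =
        ∏ i ∈ range (Int.gcd (P.d / d : ℕ) (e / d)), psi π P ((π.X ^ d) ^ i *
          (π.ι a * π.X ^ e) ^ (P.d / d / Int.gcd (P.d / d : ℕ) (e / d)) * ((π.X ^ d) ^ i)⁻¹))

/-- existence of a presentation -/
def PRES_st : Prop := ∀ (G : Type) [Group G] [Finite G] (A : Subgroup G) [A.Normal] (j : G),
  (∀ a ∈ A, ∀ b ∈ A, a * b = b * a) → IsCyclic (G ⧸ A) → (∀ g, j * g = g * j) →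
  ∃ (A' : Type) (_ : CommGroup A') (_ : Finite A') (Δ : Dat A') (π : Pres Δ G), j ∈ π.ι.range

/-- every irreducible representation is induced -/
def CLIFF_st : Prop := ∀ (A : Type) [CommGroup A] [Finite A] (Δ : Dat A) (G : Type) [Group G]
  (π : Pres Δ G) (r : Irr G), ∃ (P : Pt Δ ℂ) (Q : Matrix (Fin r.n) (ZMod P.d) ℂ)
    (Q' : Matrix (ZMod P.d) (Fin r.n) ℂ), Q * Q' = 1 ∧ Q' * Q = 1 ∧ ∀ g, r.ρ g = Q * rep π P g * Q'

end Pool.Agent.MP_f3cd89_nt
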