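import Mathlib

/-! Finite differences of products of complex powers. -/

set_option autoImplicit false

open Finset Filter Metric Topology

namespace Pool.Agent.MP_f3cd89_nt.AnaX

/-- continuations on discs glue to an entire function -/
theorem glue (g : ℂ → ℂ) (σ : ℝ) (v : ℂ)
    (h : ∀ R : ℕ, ∃ f : ℂ → ℂ, DifferentiableOn ℂ f (ball 0 R) ∧ f 0 = v ∧
      ∀ s ∈ ball (0 : ℂ) R, σ < s.re → f s = g s) :
    ∃ f : ℂ → ℂ, Differentiable ℂ f ∧ f 0 = v ∧ ∀ s, σ < s.re → f s = g s := by
  choose F h1 h2 h3 using h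
  obtain ⟨N, hN⟩ := exists_nat_gt (|σ| + 1)
  have key : ∀ R R' : ℕ, N ≤ R → R ≤ R' → Set.EqOn (F R) (F R') (ball 0 R) := fun R R' a b => by
    have hs : ball (0 : ℂ) R ⊆ ball 0 R' := ball_subset_ball (Nat.cast_le.2 b)
    have hp : ((|σ| + 1 : ℝ) : ℂ) ∈ ball (0 : ℂ) R := by
      rw [mem_ball_zero_iff, Complex.norm_real, Real.norm_of_nonneg (by positivity)]
      exact hN.trans_le (Nat.cast_le.2 a)
    refine ((h1 R).analyticOnNhd isOpen_ball).eqOn_of_preconnected_of_eventuallyEq
      (((h1 R').mono hs).analyticOnNhd isOpen_ball) (convex_ball _ _).isPreconnected hp ?_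
    have ho : {s : ℂ | σ < s.re} ∈ 𝓝 ((|σ| + 1 : ℝ) : ℂ) :=
      (isOpen_lt continuous_const Complex.continuous_re).mem_nhds
        ((le_abs_self σ).trans_lt (lt_add_one _))
    filter_upwards [isOpen_ball.mem_nhds hp, ho] with s a b
    rw [h3 R s a b, h3 R' s (hs a) b]
  have hm : ∀ s : ℂ, s ∈ ball (0 : ℂ) (N + ⌈‖s‖⌉₊ : ℕ) := fun s => by
    rw [mem_ball_zero_iff, Nat.cast_add]
    have := Nat.le_ceil ‖s‖
    have := abs_nonneg σ
    linarith
  refine ⟨fun s => F (N + ⌈‖s‖⌉₊) s, fun s => ?_, h2 _, fun s hs => h3 _ s (hm s) hs⟩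
  refine ((h1 _).differentiableAt (isOpen_ball.mem_nhds (hm s))).congr_of_eventuallyEq ?_
  filter_upwards [isOpen_ball.mem_nhds (hm s)] with t ht
  rcases le_total (N + ⌈‖t‖⌉₊) (N + ⌈‖s‖⌉₊) with h | h
  · exact key _ _ (Nat.le_add_right _ _) h (hm t)
  · exact (key _ _ (Nat.le_add_right _ _) h ht).symm

/-- the weights are summable -/
theorem summable_w (κ : Type) [Fintype κ] : Summable fun n : κ → ℕ =>
    Real.exp (-(2 * Fintype.card κ : ℝ) * Real.log (1 + ∑ a, (n a : ℝ))) := by
  classical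
  let g : ℕ → ℝ := fun m => Real.exp (-2 * Real.log (1 + m))
  have hg : Summable g := by
    refine ((summable_nat_add_iff 1).2 (Real.summable_nat_pow_inv.2 one_lt_two)).congr fun m => ?_
    have : (0 : ℝ) < 1 + m := by positivity
    rw [show g m = Real.exp (-(Real.log ((1 + m) ^ 2))) by simp only [g, Real.log_pow]; ring_nf,
      Real.exp_neg, Real.exp_log (by positivity), Nat.cast_add, Nat.cast_one, add_comm]
  have h0 : ∀ m, 0 ≤ g m := fun m => (Real.exp_pos _).le
  have h1 : Summable fun n : κ → ℕ => ∏ a, g (n a) := by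
    refine summable_of_sum_le (c := ∏ _a : κ, ∑' m, g m) (fun n => prod_nonneg fun a _ => h0 _)
      fun S => ?_
    refine (sum_le_sum_of_subset_of_nonneg (t := Fintype.piFinset fun a => S.image (· a))
      (fun n hn => Fintype.mem_piFinset.2 fun a => mem_image_of_mem _ hn)
      fun n _ _ => prod_nonneg fun a _ => h0 _).trans ?_
    rw [← prod_univ_sum (fun a => S.image (· a)) fun _ m => g m]
    exact prod_le_prod (fun a _ => sum_nonneg fun m _ => h0 m)
      fun a _ => hg.sum_le_tsum _ fun m _ => h0 m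
  refine h1.of_nonneg_of_le (fun n => (Real.exp_pos _).le) fun n => ?_
  rw [← Real.exp_sum, Real.exp_le_exp, show -(2 * Fintype.card κ : ℝ) *
    Real.log (1 + ∑ a, (n a : ℝ)) = ∑ _a : κ, -2 * Real.log (1 + ∑ a, (n a : ℝ)) by simp; ring]
  refine sum_le_sum fun a _ => ?_
  have := Real.log_le_log (by positivity : (0 : ℝ) < 1 + n a) (add_le_add_right
    (single_le_sum (f := fun a => (n a : ℝ)) (fun a _ => Nat.cast_nonneg _) (mem_univ a)) 1)
  linarith

variable {ι : Type} [Fintype ι]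

/-- the product of the powers `X i ^ (-(s + k i))` -/
noncomputable def mo (k : ι → ℕ) (X : ι → ℝ) (s : ℂ) : ℂ :=
  Complex.exp (-∑ i, (s + k i) * (Real.log (X i) : ℝ))

/-- iterated differences in the direction `v` -/
noncomputable def D (v : ι → ℝ) (k : ι → ℕ) : ℕ → (ι → ℝ) → ℂ → ℂ
  | 0, X, s => mo k X s
  | r + 1, X, s => D v k r (X + v) s - D v k r X s

theorem mo_eq {X : ι → ℝ} (hX : ∀ i, 0 < X i) (s : ℂ) :
    mo 0 X s = ((∏ i, X i : ℝ) : ℂ) ^ (-s) := by
  have h : 0 < ∏ i, X i := prod_pos fun i _ => hX i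
  rw [Complex.cpow_def_of_ne_zero (Complex.ofReal_ne_zero.2 h.ne'), ← Complex.ofReal_log h.le,
    Real.log_prod fun i _ => (hX i).ne', mo]
  simp only [Pi.zero_apply, Nat.cast_zero, add_zero, ← mul_sum, Complex.ofReal_sum]
  ring_nf

theorem D_diff (v : ι → ℝ) (k : ι → ℕ) (r : ℕ) : ∀ X, Differentiable ℂ (D v k r X) := by
  induction r with
  | zero => intro X; change Differentiable ℂ fun s => Complex.exp _; fun_prop
  | succ r ih => exact fun X => (ih _).sub (ih _)

theorem D_zero (v : ι → ℝ) (r : ℕ) : ∀ X, D v 0 r X 0 = if r = 0 then 1 else 0 := by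
  induction r with
  | zero => intro X; simp [D, mo]
  | succ r ih => intro X; simp [D, ih]

variable [DecidableEq ι]

theorem mo_succ (k : ι → ℕ) {X : ι → ℝ} {i : ι} (h : 0 < X i) (s : ℂ) :
    mo (k + Pi.single i 1) X s = mo k X s / X i := by
  have e : ∑ j, (s + (k + Pi.single i 1 : ι → ℕ) j) * (Real.log (X j) : ℝ) =
      ∑ j, (s + k j) * (Real.log (X j) : ℝ) + (Real.log (X i) : ℝ) := by
    simp [Pi.single_apply, ← add_assoc, add_mul, sum_add_distrib]
  rw [mo, e, neg_add', Complex.exp_sub, ← Complex.ofReal_exp, Real.exp_log h, mo]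

theorem D_deriv {v : ι → ℝ} (hv : ∀ i, 0 ≤ v i) (k : ι → ℕ) (s : ℂ) (τ : ℝ) (r : ℕ) :
    ∀ X : ι → ℝ, (∀ i, 0 < (X + τ • v) i) → HasDerivAt (fun t : ℝ => D v k r (X + t • v) s)
      (-∑ i, (s + k i) * v i * D v (k + Pi.single i 1) r (X + τ • v) s) τ := by
  induction r with
  | zero =>
    intro X hX
    have h1 : ∀ i, HasDerivAt (fun t : ℝ => (s + k i) * (Real.log ((X + t • v) i) : ℝ))
        ((s + k i) * (v i / (X + τ • v) i : ℝ)) τ := fun i => by
      have h2 : HasDerivAt (fun t : ℝ => (X + t • v) i) (v i) τ := by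
        simpa using ((hasDerivAt_id τ).mul_const (v i)).const_add (X i)
      exact (h2.log (hX i).ne').ofReal_comp.const_mul _
    refine (HasDerivAt.fun_sum fun i (_ : i ∈ univ) => h1 i).fun_neg.cexp.congr_deriv ?_
    rw [mul_neg, mul_sum, neg_inj]
    refine sum_congr rfl fun i _ => ?_
    rw [D, mo_succ k (hX i), mo, Complex.ofReal_div]
    ring
  | succ r ih =>
    intro X hX
    have h1 := (ih (X + v) fun i => by
      rw [add_right_comm]; exact add_pos_of_pos_of_nonneg (hX i) (hv i)).fun_sub (ih X hX)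
    simp only [add_right_comm X v] at h1
    refine h1.congr_deriv ?_
    simp only [D, mul_sub, sum_sub_distrib]
    ring

theorem D_bound {v : ι → ℝ} (hv : ∀ i, 0 ≤ v i) (R r : ℕ) : ∀ (k : ι → ℕ) (A : ℝ), 1 ≤ A →
    ∃ C, 0 ≤ C ∧ ∀ W : ℝ, 1 ≤ W → ∀ X : ι → ℝ, (∀ i, W ≤ A * X i ∧ X i ≤ A * W) →
      ∀ s : ℂ, ‖s‖ ≤ R → ‖D v k r X s‖ ≤
        C * Real.exp (-(Fintype.card ι * s.re + ∑ i, (k i : ℝ) + r) * Real.log W) := by
  have hpos : ∀ {A W y : ℝ}, 1 ≤ A → 1 ≤ W → W ≤ A * y → 0 < y := fun hA hW h => by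
    by_contra hy
    nlinarith [not_lt.1 hy]
  induction r with
  | zero =>
    intro k A hA
    refine ⟨Real.exp (∑ i, ((R : ℝ) + k i) * Real.log A), (Real.exp_pos _).le,
      fun W hW X hX s hs => ?_⟩
    rw [D, mo, Complex.norm_exp, ← Real.exp_add, Real.exp_le_exp, Complex.neg_re, Complex.re_sum,
      show -(Fintype.card ι * s.re + ∑ i, (k i : ℝ) + (0 : ℕ)) * Real.log W =
        ∑ i, -((s.re + k i) * Real.log W) by simp [sum_add_distrib, ← sum_mul]; ring,
      ← sum_add_distrib, ← sum_neg_distrib]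
    refine sum_le_sum fun i _ => ?_
    have h0 := hpos hA hW (hX i).1
    have h1 := Real.log_le_log (by linarith) (hX i).1
    have h2 := Real.log_le_log h0 (hX i).2
    rw [Real.log_mul (by linarith) h0.ne'] at h1
    rw [Real.log_mul (by linarith) (by linarith)] at h2
    have h3 : |s.re + k i| ≤ R + k i := (abs_add_le _ _).trans
      (add_le_add ((Complex.abs_re_le_norm s).trans hs) (Nat.abs_cast _).le)
    have h4 : |Real.log W - Real.log (X i)| ≤ Real.log A := abs_le.2 ⟨by linarith, by linarith⟩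
    have h5 := (le_abs_self _).trans ((abs_mul _ _).le.trans
      (mul_le_mul h3 h4 (abs_nonneg _) (by positivity)))
    simp only [Complex.re_mul_ofReal, Complex.add_re, Complex.natCast_re]
    linarith
  | succ r ih =>
    intro k A hA
    have hV : 0 ≤ ∑ i, v i := sum_nonneg fun i _ => hv i
    choose C C0 hC using fun i => ih (k + Pi.single i 1) (A + ∑ i, v i) (by linarith)
    refine ⟨∑ i, ((R : ℝ) + k i) * v i * C i,
      sum_nonneg fun i _ => mul_nonneg (mul_nonneg (by positivity) (hv i)) (C0 i),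
      fun W hW X hX s hs => ?_⟩
    have hp : ∀ t ∈ Set.Icc (0 : ℝ) 1, ∀ i, 0 < (X + t • v) i := fun t ht i =>
      add_pos_of_pos_of_nonneg (hpos hA hW (hX i).1) (mul_nonneg ht.1 (hv i))
    have := norm_image_sub_le_of_norm_deriv_le_segment_01'
      (C := (∑ i, ((R : ℝ) + k i) * v i * C i) *
        Real.exp (-(Fintype.card ι * s.re + ∑ i, (k i : ℝ) + (r + 1 : ℕ)) * Real.log W))
      (fun t ht => (D_deriv hv k s t r X (hp t ht)).hasDerivWithinAt) fun t ht => by
        rw [norm_neg, sum_mul]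
        refine norm_sum_le_of_le _ fun i _ => ?_
        have h1 := hC i W hW (X + t • v) (fun j => by
          have a1 := hp t (Set.Ico_subset_Icc_self ht) j
          have a2 : v j ≤ ∑ i, v i := single_le_sum (fun i _ => hv i) (mem_univ j)
          have a3 := mul_nonneg ht.1 (hv j)
          have a4 := mul_le_of_le_one_left (hv j) ht.2.le
          have a5 := hX j
          simp only [Pi.add_apply, Pi.smul_apply, smul_eq_mul] at a1 ⊢
          constructor <;> nlinarith) s hs
        rw [add_assoc, show ∑ j, ((k + Pi.single i 1 : ι → ℕ) j : ℝ) + r =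
          ∑ j, (k j : ℝ) + (r + 1 : ℕ) by simp [Pi.single_apply, sum_add_distrib]; ring,
          ← add_assoc] at h1
        rw [norm_mul, norm_mul, mul_assoc _ (C i), Complex.norm_real, Real.norm_of_nonneg (hv i)]
        refine mul_le_mul (mul_le_mul_of_nonneg_right ((norm_add_le _ _).trans ?_) (hv i)) h1
          (norm_nonneg _) (mul_nonneg (by positivity) (hv i))
        rw [Complex.norm_natCast]
        exact add_le_add hs le_rfl
    simpa only [one_smul, zero_smul, add_zero, D] using this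

end Pool.Agent.MP_f3cd89_nt.AnaX
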