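import Pool.Agent.MP_f3cd89_nt.SStm
import Pool.Agent.MP_f3cd89_nt.AnaA

/-! Continuation of the twisted zeta function of a cone. -/

set_option autoImplicit false
set_option linter.unusedSectionVars false

open Finset Filter Metric Topology

namespace Pool.Agent.MP_f3cd89_nt

namespace AnaX

variable {ι κ : Type} [Fintype ι] [Fintype κ]

/-- the points of the cone -/
def pt (u : κ → ι → ℝ) (x : ι → ℝ) (n : κ → ℕ) : ι → ℝ := fun i => x i + ∑ a, (n a : ℝ) * u a i

theorem pt_add (u : κ → ι → ℝ) (x v : ι → ℝ) (n : κ → ℕ) : pt u (x + v) n = pt u x n + v :=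
  funext fun _ => add_right_comm _ _ _

theorem pt_succ [DecidableEq κ] (u : κ → ι → ℝ) (x : ι → ℝ) (n : κ → ℕ) (b : κ) :
    pt u x (n + Pi.single b 1) = pt u x n + u b :=
  funext fun i => by simp [pt, Pi.single_apply, add_mul, sum_add_distrib, add_assoc]

theorem term_bound {u : κ → ι → ℝ} (hu : ∀ a i, 0 < u a i) {x : ι → ℝ} (hx : ∀ i, 0 < x i)
    {z : κ → ℂ} (hz : ∀ a, ‖z a‖ ≤ 1) {v : ι → ℝ} (hv : ∀ i, 0 ≤ v i) (R r : ℕ) :
    ∃ w : (κ → ℕ) → ℝ, Summable w ∧ ∀ n (s : ℂ), ‖s‖ ≤ R →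
      (2 * Fintype.card κ : ℝ) ≤ Fintype.card ι * s.re + r →
      ‖(∏ a, z a ^ n a) * D v 0 r (pt u x n) s‖ ≤ w n := by
  classical
  obtain ⟨A, hA, h1, h2⟩ : ∃ A : ℝ, 1 ≤ A ∧ (∀ i, x i ≤ A ∧ (x i)⁻¹ ≤ A) ∧
      ∀ a i, u a i ≤ A ∧ (u a i)⁻¹ ≤ A := by
    refine Eventually.exists (f := atTop) ?_
    simp only [eventually_and, eventually_all]
    exact ⟨eventually_ge_atTop _, fun i => ⟨eventually_ge_atTop _, eventually_ge_atTop _⟩,
      fun a i => ⟨eventually_ge_atTop _, eventually_ge_atTop _⟩⟩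
  obtain ⟨C, C0, hC⟩ := D_bound hv R r 0 A hA
  refine ⟨_, (summable_w κ).mul_left C, fun n s hs h => ?_⟩
  have hW : (1 : ℝ) ≤ 1 + ∑ a, (n a : ℝ) := le_add_of_nonneg_right (by positivity)
  have h3 := hC _ hW (pt u x n) (fun i => by
    simp only [pt, mul_add, mul_sum, mul_one]
    refine ⟨add_le_add ((inv_le_iff_one_le_mul₀ (hx i)).1 (h1 i).2) (sum_le_sum fun a _ => ?_),
      add_le_add (h1 i).1 (sum_le_sum fun a _ => ?_)⟩
    · rw [mul_left_comm]
      exact le_mul_of_one_le_right (Nat.cast_nonneg _)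
        ((inv_le_iff_one_le_mul₀ (hu a i)).1 (h2 a i).2)
    · rw [mul_comm A]
      exact mul_le_mul_of_nonneg_left (h2 a i).1 (Nat.cast_nonneg _)) s hs
  rw [norm_mul, norm_prod]
  refine (mul_le_of_le_one_left (norm_nonneg _) (prod_le_one (fun a _ => norm_nonneg _)
    fun a _ => (norm_pow_le _ _).trans (pow_le_one₀ (norm_nonneg _) (hz a)))).trans (h3.trans ?_)
  refine mul_le_mul_of_nonneg_left (Real.exp_le_exp.2
    (mul_le_mul_of_nonneg_right ?_ (Real.log_nonneg hW))) C0
  simpa using h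

theorem abel [DecidableEq κ] (z : κ → ℂ) (b : κ) (F : (κ → ℕ) → ℂ) {T B T' : ℂ}
    (hT : HasSum (fun n => (∏ a, z a ^ n a) * F n) T)
    (hB : HasSum (fun n => (∏ a, Function.update z b 0 a ^ n a) * F n) B)
    (hT' : HasSum (fun n => (∏ a, z a ^ n a) * (F (n + Pi.single b 1) - F n)) T') :
    (1 - z b) * T = B + z b * T' := by
  have h1 := (Function.Injective.hasSum_iff (add_left_injective (Pi.single b 1 : κ → ℕ))
    fun n hn => by
      have h0 : n b = 0 := by_contra fun h => hn ⟨n - Pi.single b 1, tsub_add_cancel_of_le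
        fun a => by
          by_cases e : a = b
          · rw [e, Pi.single_eq_same]
            exact Nat.pos_of_ne_zero h
          · rw [Pi.single_eq_of_ne e]
            exact Nat.zero_le _⟩
      refine sub_eq_zero.2 (congrArg (· * F n) (prod_congr rfl fun a _ => ?_))
      by_cases h : a = b
      · rw [h, h0, pow_zero, pow_zero]
      · rw [Function.update_of_ne h]).2 (hT.sub hB)
  have h2 := (hT'.add hT).mul_left (z b)
  have h3 : T - B = z b * (T' + T) := h1.unique (h2.congr fun S => sum_congr rfl fun n _ => by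
    have e1 : ∏ a, Function.update z b 0 a ^ (n + Pi.single b 1 : κ → ℕ) a = 0 :=
      prod_eq_zero (mem_univ b) (by simp)
    have e2 : ∏ a, z a ^ (n + Pi.single b 1 : κ → ℕ) a = (∏ a, z a ^ n a) * z b := by
      simp only [Pi.add_apply, pow_add, prod_mul_distrib]
      simp [Pi.single_apply]
    simp only [Function.comp_apply, e1, e2]
    ring)
  linear_combination h3

theorem main [Nonempty ι] {u : κ → ι → ℝ} (hu : ∀ a i, 0 < u a i) (S : Finset κ) :
    ∀ z : κ → ℂ, (∀ a, ‖z a‖ ≤ 1 ∧ z a ≠ 1) → (∀ a ∉ S, z a = 0) → ∀ x : ι → ℝ, (∀ i, 0 < x i) →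
      ∃ f : ℂ → ℂ, Differentiable ℂ f ∧ f 0 = ∏ a, (1 - z a)⁻¹ ∧
        ∀ s : ℂ, (2 * Fintype.card κ : ℝ) < s.re →
          HasSum (fun n : κ → ℕ => (∏ a, z a ^ n a) * mo 0 (pt u x n) s) (f s) := by
  classical
  induction S using Finset.induction_on with
  | empty =>
    intro z _ hz x _
    obtain rfl : z = 0 := funext fun a => hz a (notMem_empty a)
    refine ⟨mo 0 (pt u x 0), D_diff 0 0 0 _, by simp [mo], fun s _ => ?_⟩
    have := hasSum_single (f := fun n : κ → ℕ => (∏ a, (0 : κ → ℂ) a ^ n a) * mo 0 (pt u x n) s) 0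
      fun n hn => by
        obtain ⟨a, ha⟩ := Function.ne_iff.1 hn
        rw [prod_eq_zero (mem_univ a) (zero_pow ha), zero_mul]
    simpa using this
  | insert b S _ ih =>
    intro z hz hS x hx
    have hv : ∀ i, 0 ≤ u b i := fun i => (hu b i).le
    have hz1 : 1 - z b ≠ 0 := sub_ne_zero.2 (hz b).2.symm
    replace ih := ih (Function.update z b 0) (fun a => by
      by_cases h : a = b
      · simp [h]
      · rw [Function.update_of_ne h]; exact hz a) fun a ha => by
      by_cases h : a = b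
      · simp [h]
      · rw [Function.update_of_ne h]; exact hS a (by simp [h, ha])
    generalize hV : ∏ a, (1 - Function.update z b 0 a)⁻¹ = V at ih
    have hB : ∀ (r : ℕ) (y : ι → ℝ), (∀ i, 0 < y i) → ∃ f : ℂ → ℂ, Differentiable ℂ f ∧
        f 0 = (if r = 0 then V else 0) ∧ ∀ s : ℂ, (2 * Fintype.card κ : ℝ) < s.re →
        HasSum (fun n : κ → ℕ => (∏ a, Function.update z b 0 a ^ n a) *
          D (u b) 0 r (pt u y n) s) (f s) := fun r => by
      induction r with
      | zero => exact ih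
      | succ r ihr =>
        intro y hy
        obtain ⟨f, f1, f2, f3⟩ := ihr (y + u b) fun i => add_pos (hy i) (hu b i)
        obtain ⟨g, g1, g2, g3⟩ := ihr y hy
        refine ⟨f - g, f1.sub g1, by simp [f2, g2], fun s hs => ?_⟩
        simpa only [D, mul_sub, pt_add, Pi.sub_apply] using (f3 s hs).sub (g3 s hs)
    choose B B1 B2 B3 using fun r => hB r x hx
    have hd : (1 : ℝ) ≤ Fintype.card ι := Nat.one_le_cast.2 Fintype.card_pos
    have hsum : ∀ (r : ℕ) (s : ℂ), (2 * Fintype.card κ : ℝ) < s.re →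
        Summable fun n : κ → ℕ => (∏ a, z a ^ n a) * D (u b) 0 r (pt u x n) s := fun r s hs => by
      obtain ⟨w, hw, h⟩ := term_bound hu hx (fun a => (hz a).1) hv ⌈‖s‖⌉₊ r
      refine hw.of_norm_bounded fun n => h n s (Nat.le_ceil _) ?_
      have : (0 : ℝ) ≤ Fintype.card κ := Nat.cast_nonneg _
      have : (0 : ℝ) ≤ r := Nat.cast_nonneg _
      nlinarith
    have hloc : ∀ R j r : ℕ, Fintype.card ι * R + 2 * Fintype.card κ + 1 ≤ r + j →
        ∃ f : ℂ → ℂ, DifferentiableOn ℂ f (ball 0 R) ∧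
          f 0 = (1 - z b)⁻¹ * (if r = 0 then V else 0) ∧ ∀ s ∈ ball (0 : ℂ) R,
          (2 * Fintype.card κ : ℝ) < s.re →
          f s = ∑' n : κ → ℕ, (∏ a, z a ^ n a) * D (u b) 0 r (pt u x n) s := fun R j => by
      induction j with
      | zero =>
        intro r hr
        obtain ⟨w, hw, h⟩ := term_bound hu hx (fun a => (hz a).1) hv R r
        refine ⟨_, Complex.differentiableOn_tsum_of_summable_norm hw
          (fun n => ((D_diff _ _ _ _).const_mul _).differentiableOn) isOpen_ball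
          fun n s hs => h n s (mem_ball_zero_iff.1 hs).le ?_, ?_, fun _ _ _ => rfl⟩
        · have h1 : (Fintype.card ι * R + 2 * Fintype.card κ + 1 : ℝ) ≤ r := by exact_mod_cast hr
          have h2 := (abs_le.1 ((Complex.abs_re_le_norm s).trans (mem_ball_zero_iff.1 hs).le)).1
          nlinarith
        · simp [D_zero, show r ≠ 0 by omega]
      | succ j ihj =>
        intro r hr
        obtain ⟨f, f1, f2, f3⟩ := ihj (r + 1) (by omega)
        refine ⟨fun s => (1 - z b)⁻¹ * (B r s + z b * f s),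
          ((B1 r).differentiableOn.add (f1.const_mul _)).const_mul _, by simp [f2, B2],
          fun s h1 h2 => ?_⟩
        beta_reduce
        rw [f3 s h1 h2, inv_mul_eq_iff_eq_mul₀ hz1]
        refine (abel z b _ (hsum r s h2).hasSum (B3 r s h2) ?_).symm
        simpa only [pt_succ, D] using (hsum (r + 1) s h2).hasSum
    obtain ⟨f, f1, f2, f3⟩ := glue _ _ _ fun R => hloc R _ 0 (zero_add _).ge
    refine ⟨f, f1, ?_, fun s hs => f3 s hs ▸ (hsum 0 s hs).hasSum⟩
    rw [f2, if_pos rfl, ← hV, ← mul_prod_erase _ _ (mem_univ b),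
      ← mul_prod_erase _ (fun a => (1 - z a)⁻¹) (mem_univ b), Function.update_self, sub_zero,
      inv_one, one_mul]
    exact congrArg _ (prod_congr rfl fun a ha => by rw [Function.update_of_ne (ne_of_mem_erase ha)])

end AnaX

theorem ana : ANA_st := by
  intro ι κ _ _ _ x u z hx hu hz
  obtain ⟨f, f1, f2, f3⟩ := AnaX.main hu univ z (fun a => ⟨(hz a).1.le, (hz a).2⟩)
    (fun a ha => absurd (mem_univ a) ha) x hx
  refine ⟨f, _, f1, f2, fun s hs => (f3 s hs).congr fun S => sum_congr rfl fun n _ => ?_⟩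
  exact congrArg _ (AnaX.mo_eq (X := AnaX.pt u x n) (fun i => add_pos_of_pos_of_nonneg (hx i)
    (sum_nonneg fun a _ => mul_nonneg (Nat.cast_nonneg _) (hu a i).le)) s)

end Pool.Agent.MP_f3cd89_nt
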