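import Pool.Agent.MP_f3cd89_nt.CStm

/-! The Artin reciprocity law for CM extensions from the totally real cyclic case. -/

set_option autoImplicit false

open NumberField IsDedekindDomain

namespace Pool.Agent.MP_f3cd89_nt

namespace ArX

variable {F : Type} [Field F] [NumberField F]

theorem isRay_mono {M : Type} [CommGroup M] {S : Finset (Pr F)} {N N' : ℕ} {ψ : Pr F → M}
    (h : IsRay S N ψ) (hN : N ≤ N') : IsRay S N' ψ := fun x hx =>
  h x ⟨hx.1, hx.2.1, fun v hv => (hx.2.2 v hv).trans (WithZero.exp_le_exp.2 (by omega))⟩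

omit [NumberField F] in
theorem chv_mul {M : Type} [CommGroup M] (ψ χ : Pr F → M) (D : Pr F →₀ ℤ) :
    chv (fun v => ψ v * χ v) D = chv ψ D * chv χ D := by
  simp only [chv, mul_zpow, Finsupp.prod_mul]

theorem glue (hB : NTB_st) {M : Type} [CommGroup M] {S S' S'' : Finset (Pr F)} {N : ℕ}
    (hN : 0 < N) {ψ : Pr F → M} (hi : ∀ v ∈ S', v ∈ S'' → v ∈ S)
    (h1 : IsRay S' N ψ) (h2 : IsRay S'' N ψ) : IsRay S N ψ := by
  classical
  intro x hx
  obtain ⟨x0, xp, xc⟩ := hx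
  set B : ℕ := ∑ v ∈ S'', (ord v x).natAbs with hBdef
  obtain ⟨y, y0, yp, hy, -⟩ := (hB F).1 (S' ∪ S'') (fun v => if v ∈ S' then 1 else x)
    (-((N : ℤ) + B))
  have hy1 : ∀ v ∈ S', v.valuation F (y - 1) ≤ WithZero.exp (-(N : ℤ)) := fun v hv => by
    have := hy v (Finset.mem_union_left _ hv)
    rw [if_pos hv] at this
    exact this.trans (WithZero.exp_le_exp.2 (by omega))
  have r1 : Ray S' N y := ⟨y0, yp, hy1⟩
  have r2 : Ray S'' N (y / x) := by
    refine ⟨div_ne_zero y0 x0, fun e => by rw [map_div₀]; exact div_pos (yp e) (xp e),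
      fun v hv => ?_⟩
    rw [div_sub_one x0, map_div₀]
    by_cases hv' : v ∈ S'
    · have hx1 := xc v (hi v hv' hv)
      have hx2 : v.valuation F x = 1 := val_one_of _ (hx1.trans_lt (by
        rw [← WithZero.exp_zero, WithZero.exp_lt_exp]; omega))
      rw [hx2, div_one, show y - x = (y - 1) - (x - 1) by ring]
      exact Valuation.map_sub_le _ (hy1 v hv') hx1
    · have := hy v (Finset.mem_union_right _ hv)
      rw [if_neg hv'] at this
      rw [val_eq_exp v x0, div_le_iff₀ WithZero.exp_pos, ← WithZero.exp_add]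
      refine this.trans (WithZero.exp_le_exp.2 ?_)
      have : (ord v x).natAbs ≤ B :=
        Finset.single_le_sum (f := fun v => (ord v x).natAbs) (fun _ _ => Nat.zero_le _) hv
      omega
  have e : dv y = dv (y / x) + dv x := by
    rw [← dv_mul (div_ne_zero y0 x0) x0, div_mul_cancel₀ _ x0]
  have := h1 y r1
  rwa [e, chv_add, h2 _ r2, one_mul] at this

theorem core_char (hK : CORE_st) (hT : TOW_st) {Ω G : Type} [Field Ω] [NumberField Ω]
    [Algebra F Ω] [Group G] [Finite G] [MulSemiringAction G Ω] [IsGaloisGroup G F Ω]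
    (S : Finset (Pr F)) (φ : Pr F → G) (hS : S.Nonempty) (hU : Unr Ω G S) (hφ : IsFrob Ω S φ)
    (ψ : G →* ℂˣ) (c : G) (hc : IsCC Ω c) (hψ : ψ c = 1) :
    ∃ N : ℕ, 0 < N ∧ IsRay S N fun v => ψ (φ v) := by
  let U : Subgroup G := ψ.ker
  let E : IntermediateField F Ω := FixedPoints.intermediateField U
  have hinj : Function.Injective (QuotientGroup.kerLift ψ) := QuotientGroup.kerLift_injective ψ
  have : IsTotallyReal E := ⟨fun w => by
    rw [InfinitePlace.isReal_iff, ComplexEmbedding.isReal_iff]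
    ext x
    have h1 := ComplexEmbedding.lift_algebraMap_apply Ω w.embedding x
    have h2 := hc (ComplexEmbedding.lift Ω w.embedding) (algebraMap E Ω x)
    have h3 : c • algebraMap E Ω x = algebraMap E Ω x := x.2 ⟨c, hψ⟩
    rw [h3, h1] at h2
    exact h2.symm⟩
  have hr : ∀ (g : G) (x : E), g • algebraMap E Ω x =
      algebraMap E Ω (QuotientGroup.mk' U g • x) := fun g x =>
    (IsGaloisGroup.algebraMap_smulOfNormal G E Ω U g x).symm
  obtain ⟨t1, -, t3⟩ := (hT F E Ω G).2.2.2 (G ⧸ U) (QuotientGroup.mk' U) hr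
  let inst : CommGroup (G ⧸ U) :=
    { (inferInstance : Group (G ⧸ U)) with
      mul_comm := fun a b => hinj (by rw [map_mul, map_mul, mul_comm]) }
  have hcyc : IsCyclic (G ⧸ U) :=
    isCyclic_of_injective_ringHom ((Units.coeHom ℂ).comp (QuotientGroup.kerLift ψ))
      (Units.val_injective.comp hinj)
  obtain ⟨N, hN, hR⟩ := @hK F E (G ⧸ U) _ _ _ _ _ _ inst _ _ _ S
    (fun v => QuotientGroup.mk' U (φ v)) hcyc hS (t1 S hU) (t3 S φ hφ)
  refine ⟨N, hN, fun x hx => ?_⟩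
  have h := congrArg (QuotientGroup.kerLift ψ) (hR x hx)
  rw [map_one] at h
  exact (@chv_map F _ _ (G ⧸ U) ℂˣ inst _ (QuotientGroup.kerLift ψ) _ _).symm.trans h

theorem exists_prime_over (q : ℕ) (hq : q.Prime) : ∃ v : Pr F, (q : 𝓞 F) ∈ v.asIdeal := by
  have : Fact q.Prime := ⟨hq⟩
  have := Int.ideal_span_isMaximal_of_prime q
  obtain ⟨Q, h₁, h₂⟩ := Ideal.exists_maximal_ideal_liesOver_of_isIntegral (S := 𝓞 F)
    (Ideal.span {(q : ℤ)})
  have hm : (q : 𝓞 F) ∈ Q := by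
    have : (q : ℤ) ∈ Ideal.span {(q : ℤ)} := Ideal.mem_span_singleton_self _
    rw [h₂.over, Ideal.under, Ideal.mem_comap] at this
    simpa using this
  refine ⟨⟨Q, h₁.isPrime, fun h => ?_⟩, hm⟩
  rw [h, Ideal.mem_bot] at hm
  exact hq.ne_zero (by exact_mod_cast hm)

theorem exists_set (S : Finset (Pr F)) (q : ℕ) (hq : q ≠ 0) :
    ∃ S' : Finset (Pr F), ∀ v, v ∈ S' ↔ v ∈ S ∨ (q : 𝓞 F) ∈ v.asIdeal := by
  classical
  refine ⟨S ∪ (ord_finite ((q : 𝓞 F) : F)).toFinset, fun v => ?_⟩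
  rw [Finset.mem_union, Set.Finite.mem_toFinset, Set.mem_ofPred_eq, Ne,
    ord_eq_zero_iff v (by exact_mod_cast hq), not_not]

theorem step (hK : CORE_st) (hC : CYCLO_st) (hY : CYC_st) (hT : TOW_st) [IsTotallyReal F]
    {L G : Type} [Field L] [NumberField L] [Algebra F L] [Group G] [Finite G]
    [MulSemiringAction G L] [IsGaloisGroup G F L] (j : G) (S : Finset (Pr F)) (φ : Pr F → G)
    (hj : IsCC L j) (hU : Unr L G S) (hφ : IsFrob L S φ) (ψ : G →* ℂˣ) :
    ∃ d : ℕ, ∀ q : ℕ, q.Prime → d < q → ∀ S' : Finset (Pr F),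
      (∀ v, v ∈ S' ↔ v ∈ S ∨ (q : 𝓞 F) ∈ v.asIdeal) →
      ∃ N : ℕ, 0 < N ∧ IsRay S' N fun v => ψ (φ v) := by
  obtain ⟨d, d0, hd⟩ := hC F L G
  refine ⟨d + 2, fun q hq hdq S' hS' => ?_⟩
  have : NeZero q := ⟨hq.ne_zero⟩
  have : Fact (2 < q) := ⟨by omega⟩
  have hcop : q.Coprime d := (Nat.Prime.coprime_iff_not_dvd hq).2 fun h =>
    absurd (Nat.le_of_dvd (Nat.pos_of_ne_zero d0) h) (by omega)
  obtain ⟨Ω, _, _, _, _, _, hcc, hΩ⟩ := hd q hcop
  have hq' : ∀ v : Pr F, (q : 𝓞 F) ∈ v.asIdeal → v ∈ S' := fun v hv => (hS' v).2 (Or.inr hv)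
  obtain ⟨hU', hF'⟩ := hΩ S S' (fun v hv => (hS' v).2 (Or.inl hv)) hq' hU
  obtain ⟨ν, hν, hφ'⟩ := hF' φ hφ
  have hjj : j * j = 1 := by
    have : FaithfulSMul G L := IsGaloisGroup.faithful F
    refine eq_of_smul_eq_smul (α := L) fun x => ?_
    obtain ⟨ε⟩ : Nonempty (L →+* ℂ) := inferInstance
    apply ε.injective
    rw [mul_smul, hj, hj, one_smul, Complex.conj_conj]
  have sq : ∀ u : ℂˣ, u * u = 1 → u = 1 ∨ u = -1 := fun u hu => by
    have : (u : ℂ) * u = 1 := by rw [← Units.val_mul, hu, Units.val_one]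
    rcases mul_self_eq_one_iff.1 this with h | h
    · exact Or.inl (Units.ext h)
    · exact Or.inr (Units.ext (by simpa using h))
  obtain ⟨χ, hχ⟩ : ∃ χ : (ZMod q)ˣ →* ℂˣ, ψ j * χ (-1) = 1 := by
    rcases sq (ψ j) (by rw [← map_mul, hjj, map_one]) with h | h
    · exact ⟨1, by simp [h]⟩
    · have hne : (-1 : (ZMod q)ˣ) ≠ 1 := fun e =>
        ZMod.neg_one_ne_one (n := q) (by simpa using congrArg Units.val e)
      obtain ⟨χ, hχ⟩ := CommGroup.exists_apply_ne_one_of_hasEnoughRootsOfUnity (ZMod q)ˣ ℂ hne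
      rcases sq (χ (-1)) (by rw [← map_mul]; simp) with h' | h'
      · exact absurd h' hχ
      · exact ⟨χ, by rw [h, h']; simp⟩
  have hne : S'.Nonempty := by
    obtain ⟨v, hv⟩ := exists_prime_over (F := F) q hq
    exact ⟨v, hq' v hv⟩
  obtain ⟨N₁, hN₁, h₁⟩ := core_char hK hT S' (fun v => (φ v, ν v)) hne hU' hφ' (ψ.coprod χ)
    (j, -1) (hcc j hj) hχ
  obtain ⟨N₂, -, h₂⟩ := hY.1 F q S' ν hq.pos hq' hν
  refine ⟨N₁ + N₂, by omega, fun x hx => ?_⟩
  have e₁ := isRay_mono h₁ (Nat.le_add_right N₁ N₂) x hx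
  have e₂ := congrArg χ (h₂ (N₁ + N₂) (Nat.le_add_left _ _) x hx)
  rw [map_one, chv_map] at e₂
  simp only [MonoidHom.coprod_apply] at e₁
  rwa [chv_mul, e₂, mul_one] at e₁

end ArX

open ArX in
theorem ar (hK : CORE_st) (hC : CYCLO_st) (hY : CYC_st) (hT : TOW_st) (hB : NTB_st) : AR_st := by
  intro F L G _ _ _ _ _ _ _ _ _ _ j S φ hj hU hφ
  have key : ∀ ψ : G →* ℂˣ, ∃ N : ℕ, 0 < N ∧ IsRay S N fun v => ψ (φ v) := fun ψ => by
    obtain ⟨d, hd⟩ := step hK hC hY hT j S φ hj hU hφ ψ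
    obtain ⟨q, hq, qp⟩ := Nat.exists_infinite_primes (d + 1)
    obtain ⟨q', hq', qp'⟩ := Nat.exists_infinite_primes (q + 1)
    obtain ⟨S', hS'⟩ := exists_set S q qp.ne_zero
    obtain ⟨S'', hS''⟩ := exists_set S q' qp'.ne_zero
    obtain ⟨N₁, hN₁, h₁⟩ := hd q qp (by omega) S' hS'
    obtain ⟨N₂, -, h₂⟩ := hd q' qp' (by omega) S'' hS''
    refine ⟨N₁ + N₂, by omega, glue hB (by omega) (fun v h h' => ?_)
      (isRay_mono h₁ (Nat.le_add_right _ _)) (isRay_mono h₂ (Nat.le_add_left _ _))⟩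
    rcases (hS' v).1 h with h | h
    · exact h
    rcases (hS'' v).1 h' with h' | h'
    · exact h'
    exfalso
    have hco : IsCoprime (q : 𝓞 F) (q' : 𝓞 F) :=
      Nat.Coprime.cast ((Nat.coprime_primes qp qp').2 (by omega))
    obtain ⟨a, b, hab⟩ := hco
    exact v.isPrime.ne_top ((Ideal.eq_top_iff_one _).2
      (hab ▸ add_mem (Ideal.mul_mem_left _ _ h) (Ideal.mul_mem_left _ _ h')))
  choose N hN hR using key
  have : Finite (G →* ℂˣ) := inferInstance
  have := Fintype.ofFinite (G →* ℂˣ)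
  refine ⟨∑ ψ, N ψ, ?_, fun ψ => isRay_mono (hR ψ) ?_⟩
  · exact (hN 1).trans_le
      (Finset.single_le_sum (f := N) (fun _ _ => Nat.zero_le _) (Finset.mem_univ _))
  · exact Finset.single_le_sum (f := N) (fun _ _ => Nat.zero_le _) (Finset.mem_univ _)

end Pool.Agent.MP_f3cd89_nt
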