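import Pool.Agent.MP_f3cd89_nt.FStm

set_option autoImplicit false

open Finset NumberField IsDedekindDomain

namespace Pool.Agent.MP_f3cd89_nt

namespace ArithX

theorem loc_glob {M : Type} [AddCommGroup M] (N : AddSubgroup M) (x : M)
    (h : ∀ p : ℕ, p.Prime → ∃ u : ℕ, u.Coprime p ∧ u • x ∈ N) : x ∈ N := by
  have h1 : addOrderOf (QuotientAddGroup.mk' N x) = 1 := by
    by_contra hne
    obtain ⟨p, hp, hd⟩ := Nat.exists_prime_and_dvd hne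
    obtain ⟨u, hu, hx⟩ := h p hp
    have h2 : addOrderOf (QuotientAddGroup.mk' N x) ∣ u := by
      rw [addOrderOf_dvd_iff_nsmul_eq_zero, ← map_nsmul, QuotientAddGroup.mk'_apply,
        QuotientAddGroup.eq_zero_iff]
      exact hx
    exact hp.one_lt.ne' (Nat.Coprime.eq_one_of_dvd hu.symm (hd.trans h2))
  rwa [AddMonoid.addOrderOf_eq_one_iff, QuotientAddGroup.mk'_apply,
    QuotientAddGroup.eq_zero_iff] at h1

section Alg

variable {A : Type} [CommGroup A] {Δ : Dat A} {G : Type} [Group G]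

/-- families of matrices that come from the twisted group ring -/
def IsRho (F : (P : Pt Δ ℂ) → Matrix (ZMod P.d) (ZMod P.d) ℂ) : Prop :=
  ∃ y, ∀ P, rho P y = F P

theorem isRho_rep (π : Pres Δ G) (z : ℤ) (g : G) :
    IsRho fun P : Pt Δ ℂ => (z : ℂ) • rep π P g := by
  refine ⟨Finsupp.single (π.pe g) (MonoidAlgebra.single (π.pa g) z), fun P => ?_⟩
  ext i j
  beta_reduce
  rw [rep, Matrix.smul_apply, rho_single, rho_single, lam_single, lam_of]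
  split_ifs
  · rw [smul_eq_mul, mul_assoc]
  · rw [smul_zero]

theorem isRho_add {F F' : (P : Pt Δ ℂ) → Matrix (ZMod P.d) (ZMod P.d) ℂ} (h : IsRho F)
    (h' : IsRho F') : IsRho fun P => F P + F' P := by
  obtain ⟨y, hy⟩ := h
  obtain ⟨z, hz⟩ := h'
  exact ⟨y + z, fun P => (rhoG_add _ P y z).trans (congrArg₂ _ (hy P) (hz P))⟩

theorem isRho_sum (π : Pres Δ G) (z : ℕ → ℤ) (g : ℕ → G) (o : ℕ) :
    IsRho fun P : Pt Δ ℂ => ∑ i ∈ range o, (z i : ℂ) • rep π P (g i) := by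
  induction o with
  | zero => exact ⟨0, fun P => rhoG_zero _ P⟩
  | succ o ih =>
    simp only [sum_range_succ]
    exact isRho_add ih (isRho_rep π _ _)

theorem IsRho.det_mem (hR : RING_st) {F : (P : Pt Δ ℂ) → Matrix (ZMod P.d) (ZMod P.d) ℂ}
    (h : IsRho F) : (fun P => (F P).det) ∈ J Δ ℂ := by
  obtain ⟨y, hy⟩ := h
  simpa only [hy] using (hR A Δ ℂ).2.2.1 y

theorem del_mem (hR : RING_st) (hE : REP_st) (π : Pres Δ G) (q : ℕ) (g : G) :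
    (fun P : Pt Δ ℂ => (1 - (q : ℂ) • rep π P g).det) ∈ J Δ ℂ := by
  have h := (isRho_add (isRho_rep π 1 1) (isRho_rep π (-q) g)).det_mem hR
  have h1 : ∀ P : Pt Δ ℂ, rep π P 1 = 1 := fun P => ((hE A Δ G π).2.2.2.2 ℂ P).2.1
  simpa only [h1, Int.cast_one, one_smul, Int.cast_neg, Int.cast_natCast, neg_smul,
    ← sub_eq_add_neg] using h

theorem prod_mem (hR : RING_st) (hE : REP_st) (π : Pres Δ G) {ι : Type} (T : Finset ι) (q : ι → ℕ)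
    (g : ι → G) : (fun P : Pt Δ ℂ => ∏ v ∈ T, (1 - (q v : ℂ) • rep π P (g v)).det) ∈ J Δ ℂ := by
  classical
  induction T using Finset.induction_on with
  | empty => exact (hR A Δ ℂ).1
  | insert v T hv ih =>
    simp only [prod_insert hv]
    exact (hR A Δ ℂ).2.1 _ (del_mem hR hE π (q v) (g v)) _ ih

theorem geom (hR : RING_st) (hE : REP_st) (π : Pres Δ G) (q : ℕ) {g : G} {o : ℕ}
    (ho : g ^ o = 1) : ∃ f ∈ J Δ ℂ, ∀ P : Pt Δ ℂ,
      f P * (1 - (q : ℂ) • rep π P g).det = ((1 - (q ^ o : ℕ) : ℤ) : ℂ) ^ P.d := by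
  refine ⟨_, (isRho_sum π (fun i => (q : ℤ) ^ i) (fun i => g ^ i) o).det_mem hR, fun P => ?_⟩
  obtain ⟨-, h1, h2, -⟩ := (hE A Δ G π).2.2.2.2 ℂ P
  have h3 : ∀ i : ℕ, rep π P (g ^ i) = rep π P g ^ i := fun i => by
    induction i with
    | zero => rw [pow_zero, pow_zero, h1]
    | succ i ih => rw [pow_succ, pow_succ, h2, ih]
  have h4 : ∑ i ∈ range o, (((q : ℤ) ^ i : ℤ) : ℂ) • rep π P (g ^ i) =
      ∑ i ∈ range o, ((q : ℂ) • rep π P g) ^ i :=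
    sum_congr rfl fun i _ => by rw [h3, smul_pow, Int.cast_pow, Int.cast_natCast]
  have h5 : (1 : Matrix (ZMod P.d) (ZMod P.d) ℂ) - ((q : ℂ) • rep π P g) ^ o =
      ((1 - (q ^ o : ℕ) : ℤ) : ℂ) • 1 := by
    rw [smul_pow, ← h3, ho, h1]
    push_cast
    rw [sub_smul, one_smul]
  rw [← Matrix.det_mul, h4, geom_sum_mul_neg, h5, Matrix.det_smul, Matrix.det_one, mul_one,
    ZMod.card]

theorem mul_mem (hJB : JB_st) (hS : BRING_st) {f x y : Pt Δ ℂ → ℂ} {u : ℕ} (hf : f ∈ J Δ ℂ)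
    (hx : u • x ∈ B Δ ℂ) (h : ∀ P, y P = f P * x P) : u • y ∈ B Δ ℂ := by
  have h1 := (hS A Δ ℂ).2.1 _ (hJB A Δ ℂ hf) _ hx
  rwa [mul_smul_comm, show f * x = y from funext fun P => (h P).symm] at h1

end Alg

variable {K L G : Type} [Field K] [NumberField K] [Field L] [NumberField L]
  [Algebra K L] [Group G] [Finite G] [MulSemiringAction G L] [IsGaloisGroup G K L]
  {A : Type} [CommGroup A] {Δ : Dat A} {π : Pres Δ G} {S : Finset (Pr K)} {φ : Pr K → G}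

theorem key (hB : LEVB_st) (hC : LEVC_st) (hV : LVAL_st) (hD : DWORK_st) (hJB : JB_st)
    (hR : RING_st) (hS : BRING_st) (h : Std K L π S φ) {θ : Pt Δ ℂ → ℂ}
    (hθ : ∀ P, IsLValue S φ (rep π P) (θ P)) {v₀ : Pr K} (hv : v₀ ∉ S) {p : ℕ} (hp : p.Prime)
    (hpv : (p : 𝓞 K) ∉ v₀.asIdeal) : ∃ u : ℕ, u.Coprime p ∧
      u • (fun P : Pt Δ ℂ => (1 - (nrm v₀ : ℂ) • rep π P (φ v₀)⁻¹).det * θ P) ∈ B Δ ℂ := by
  obtain ⟨h1, h2⟩ := hB K L G A Δ π S φ v₀ h hv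
  have h3 := hC K L G A Δ π S φ v₀ h hv
  obtain ⟨hu, hL⟩ := hV K G S φ
  choose f hf using h1
  have h4 : ∀ P f', SmG π S φ v₀ P f' → f' 0 = f P 0 := fun P f' hf' => by
    rw [(hL A Δ π v₀ P (f P) (hf P)).1 f' hf']
  obtain ⟨u, hu1, hu2⟩ := hD A Δ p (fun P => f P 0) hp
    (fun P => (h4 _ _ (hL A Δ π v₀ P (f P) (hf P)).2.1).symm) fun d hd => by
      by_cases hpd : p ∣ d
      · exact h3 _ p d h4 hp hpv hd hpd
      · exact h2 _ p d h4 hp hpv hd hpd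
  refine ⟨u, hu1, mul_mem hJB hS ((hR A Δ ℂ).2.2.2.2.2 (π.pe (φ v₀))) hu2 fun P => ?_⟩
  obtain ⟨c, hc, hc'⟩ := (hL A Δ π v₀ P (f P) (hf P)).2.2
  rw [hc', hu _ _ _ _ hc (hθ P), ← mul_assoc, ← mul_assoc, ← mul_pow]
  norm_num

theorem good (hP : PRIME_st) (hF : FB_st) (h : Std K L π S φ) {p : ℕ} (hp : p.Prime)
    (hx : ∀ x : L, x ^ p = 1 → x = 1) : ∃ v₀ : Pr K, v₀ ∉ S ∧ (p : 𝓞 K) ∉ v₀.asIdeal ∧
      ¬(p : ℤ) ∣ 1 - (nrm v₀ ^ orderOf (φ v₀) : ℕ) := by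
  obtain ⟨w, h1, h2, h3⟩ := hP L p (above L S) hp hx
  rw [mem_above] at h1
  obtain ⟨-, f2, -, -, -, -, -, f8⟩ := hF K L G
  refine ⟨w.under (𝓞 K), h1, fun hm => h2 ?_, fun hd => h3 ?_⟩
  · have : algebraMap (𝓞 K) (𝓞 L) p ∈ w.asIdeal := hm
    rwa [map_natCast] at this
  · obtain ⟨w', hw, hw'⟩ := h.frob _ h1
    obtain ⟨g, hg⟩ := f2 w' w hw
    have h4 := (f8 w' _ (h.unr w' (hw ▸ h1)) hw').2.2
    rw [hw, ← nrm_gact g w', hg] at h4
    rw [h4, Nat.modEq_iff_dvd, Nat.cast_one]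
    exact hd

end ArithX

open ArithX

theorem arith (hB : LEVB_st) (hC : LEVC_st) (hV : LVAL_st) (hD : DWORK_st) (hI : INVD_st)
    (hJ : BJ_st) (hJB : JB_st) (hR : RING_st) (hS : BRING_st) (hP : PRIME_st) (hF : FB_st)
    (hN : NTC_st) (hE : REP_st) : ARITH_st := by
  intro K L G _ _ _ _ _ _ _ _ _ A _ _ Δ π S φ h
  classical
  obtain ⟨v₁, hv₁⟩ := (hN K).2.2.2.2.1 S
  have h1 : ∀ P : Pt Δ ℂ, ∃ c, IsLValue S φ (rep π P) c := fun P => by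
    obtain ⟨f, hf⟩ := (hB K L G A Δ π S φ v₁ h hv₁).1 P
    exact ((hV K G S φ).2 A Δ π v₁ P f hf).2.2.imp fun _ hc => hc.1
  choose θ hθ using h1
  refine ⟨θ, hθ, fun T hT hTp => hJ A Δ (loc_glob _ _ fun p hp => ?_)⟩
  by_cases hc : ∀ v ∈ T, (p : 𝓞 K) ∈ v.asIdeal
  · obtain ⟨v₀, hv, hpv, hn⟩ := good hP hF h hp (hTp p hp hc)
    obtain ⟨u, hu, hu'⟩ := key hB hC hV hD hJB hR hS h hθ hv hp hpv
    obtain ⟨f, hf, hf'⟩ := geom hR hE π (nrm v₀) (g := (φ v₀)⁻¹) (o := orderOf (φ v₀))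
      (by rw [inv_pow, pow_orderOf_eq_one, inv_one])
    obtain ⟨u', hu₁, hu₂⟩ := hI A Δ p θ _ u hp hn hu
      (mul_mem hJB hS hf hu' fun P => by rw [← hf', mul_assoc])
    exact ⟨u', hu₁, mul_mem hJB hS (prod_mem hR hE π T (fun v => nrm v) fun v => (φ v)⁻¹) hu₂
      fun _ => rfl⟩
  · push Not at hc
    obtain ⟨v₀, hv, hpv⟩ := hc
    obtain ⟨u, hu, hu'⟩ := key hB hC hV hD hJB hR hS h hθ (disjoint_right.1 hT hv) hp hpv
    exact ⟨u, hu, mul_mem hJB hS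
      (prod_mem hR hE π (T.erase v₀) (fun v => nrm v) fun v => (φ v)⁻¹) hu'
      fun P => by rw [← prod_erase_mul T _ hv, mul_assoc]⟩

end Pool.Agent.MP_f3cd89_nt
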