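import Pool.Agent.MP_f3cd89_nt.SStm

/-! Equivariant good barycentres. -/

set_option autoImplicit false

open Finset
open scoped Pointwise

namespace Pool.Agent.MP_f3cd89_nt

namespace BaryX

variable {ι V G Q : Type} [Fintype ι] [AddCommGroup V] [Group G] [DistribMulAction G V]
  [MulAction G Q] {l : ℕ} (D : Sh ι V G Q l)

/-- the good points -/
abbrev Pt (q : Q) : Set V := {v | v ∈ D.Λ q ∧ (∀ i, 0 < D.e v i) ∧ D.χ q v ≠ 0}

theorem smul_mem (g : G) {q : Q} {v : V} (h : v ∈ Pt D q) : g • v ∈ Pt D (g • q) := by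
  obtain ⟨τ, t, ht, he⟩ := D.mon g
  refine ⟨D.smul_Λ g q v h.1, fun i => ?_, ?_⟩
  · rw [he]
    exact mul_pos (ht i) (h.2.1 _)
  · rw [D.smul_χ g q v (D.Λ_le q h.1)]
    exact h.2.2

theorem chi_sum {α : Type} (q : Q) (s : Finset α) (f : α → V) (h : ∀ a ∈ s, f a ∈ D.M q) :
    D.χ q (∑ a ∈ s, f a) = ∑ a ∈ s, D.χ q (f a) := by
  classical
  induction s using Finset.induction_on with
  | empty =>
    have := D.χ_add q 0 (zero_mem _) 0 (zero_mem _)
    rw [add_zero] at this
    simpa using this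
  | insert a s ha ih =>
    have hs : ∀ a ∈ s, f a ∈ D.M q := fun a ha => h a (mem_insert_of_mem ha)
    rw [sum_insert ha, sum_insert ha, D.χ_add q _ (h a (mem_insert_self _ _)) _ (sum_mem hs), ih hs]

theorem chi_l (q : Q) {v : V} (h : v ∈ D.M q) : D.χ q (l • v) = 0 := by
  have := chi_sum D q (range l) (fun _ => v) fun _ _ => h
  simpa using this

variable [DecidableEq V]

theorem face_smul (g : G) (q : Q) (F : Finset V) (h : Face D.e (Pt D q) F) :
    Face D.e (Pt D (g • q)) (F.image fun v => g • v) := by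
  obtain ⟨hne, y, h1, h2⟩ := h
  obtain ⟨τ, t, ht, he⟩ := D.mon g
  have key : ∀ v, ∑ i, y (τ i) / t i * D.e (g • v) i = ∑ i, y i * D.e v i := fun v => by
    rw [← Equiv.sum_comp τ fun i => y i * D.e v i]
    refine sum_congr rfl fun i _ => ?_
    rw [he, ← mul_assoc, div_mul_cancel₀ _ (ht i).ne']
  have back : ∀ v, g • v ∈ Pt D (g • q) → v ∈ Pt D q := fun v hv => by
    simpa only [inv_smul_smul] using smul_mem D g⁻¹ hv
  refine ⟨hne.image _, fun i => y (τ i) / t i, fun v hv => ?_, fun v => ?_⟩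
  · obtain ⟨v, rfl⟩ := MulAction.surjective g v
    rw [key]
    exact h1 v (back v hv)
  · obtain ⟨v, rfl⟩ := MulAction.surjective g v
    rw [key, (MulAction.injective g).mem_finset_image, h2]
    exact and_congr_left' ⟨smul_mem D g, back v⟩

theorem smul_sum' (g : G) (F : Finset V) : ∑ v ∈ g • F, v = g • ∑ v ∈ F, v := by
  rw [smul_finset_def, sum_image (MulAction.injective g).injOn, smul_sum]

theorem stab {y : Q × Finset V} (h : Face D.e (Pt D y.1) y.2) :
    Finite (MulAction.stabilizer G y) ∧ (Nat.card (MulAction.stabilizer G y)).Coprime l := by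
  have := D.normal
  have := D.fin_Γ
  have h1 : Function.Surjective ((QuotientGroup.mk' D.N).comp D.Γ.subtype) := by
    intro x
    obtain ⟨g, rfl⟩ := QuotientGroup.mk_surjective x
    obtain ⟨n, hn, γ, hγ, rfl⟩ := D.dec g
    refine ⟨⟨γ, hγ⟩, ?_⟩
    rw [QuotientGroup.mk_mul, (QuotientGroup.eq_one_iff n).2 hn, one_mul]
    rfl
  have h2 : Function.Injective
      ((QuotientGroup.mk' D.N).comp (MulAction.stabilizer G y).subtype) := by
    rw [injective_iff_map_eq_one]
    intro g hg
    refine Subtype.ext (D.free g ((QuotientGroup.eq_one_iff g.1).1 hg) (∑ v ∈ y.2, v)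
      (fun i => ?_) ?_)
    · obtain ⟨hne, z, -, h3⟩ := h
      rw [map_sum, Finset.sum_apply]
      exact sum_pos (fun v hv => ((h3 v).1 hv).1.2.1 i) hne
    · rw [← smul_sum']
      exact congrArg (fun z : Q × Finset V => ∑ v ∈ z.2, v) g.2
  have := Finite.of_surjective _ h1
  exact ⟨Finite.of_injective _ h2, D.cop.coprime_dvd_left
    ((Subgroup.card_dvd_of_injective _ h2).trans (Subgroup.card_dvd_of_surjective _ h1))⟩

variable (G) in
/-- a representative of the orbit -/
noncomputable def rep (y : Q × Finset V) : Q × Finset V :=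
  (Quotient.mk (MulAction.orbitRel G (Q × Finset V)) y).out

theorem rep_smul (g : G) (y : Q × Finset V) : rep G (g • y) = rep G y :=
  congrArg Quotient.out (Quotient.sound (MulAction.mem_orbit y g))

theorem exists_rep (y : Q × Finset V) : ∃ g : G, g • y = rep G y :=
  Quotient.mk_out (s := MulAction.orbitRel G (Q × Finset V)) y

end BaryX

open BaryX in
theorem bary : BARY_st := by
  intro ι V G Q _ _ _ _ _ _ _ l hl D
  classical
  refine ⟨face_smul D, ?_⟩
  let w : Finset V → V := fun F => if h : F.Nonempty then h.choose else 0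
  have hw : ∀ F : Finset V, F.Nonempty → w F ∈ F := fun F h => by
    simp only [w, dif_pos h]
    exact h.choose_spec
  let T : Q × Finset V → Set G := fun y => {g | g • rep G y = y}
  refine ⟨fun q F => l • ∑ v ∈ F, v + ∑ᶠ g ∈ T (q, F), g • w (rep G (q, F)).2,
    fun q F h => ?_⟩
  obtain ⟨k, hk⟩ := exists_rep (G := G) (q, F)
  have h0 : Face D.e (Pt D (rep G (q, F)).1) (rep G (q, F)).2 := hk ▸ face_smul D k q F h
  have hF : ∀ v ∈ F, v ∈ Pt D q := fun v hv => ((h.2.choose_spec.2 v).1 hv).1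
  have hw0 := hw _ h0.1
  have hw1 := ((h0.2.choose_spec.2 _).1 hw0).1
  obtain ⟨s1, s2⟩ := stab D (y := (q, F)) h
  have e1 : T (q, F) = (fun g => g * k⁻¹) '' (MulAction.stabilizer G (q, F) : Set G) := by
    ext g
    simp only [T, ← hk, Set.mem_ofPred_eq, Set.image_mul_right', Set.mem_preimage, smul_smul,
      SetLike.mem_coe, MulAction.mem_stabilizer_iff]
  have hT : (T (q, F)).Finite := e1 ▸ (Set.toFinite _).image _
  have hc : hT.toFinset.card = Nat.card (MulAction.stabilizer G (q, F)) := by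
    rw [← Set.ncard_eq_toFinset_card _ hT, e1, Set.ncard_image_of_injective _ (mul_left_injective _)]
    rfl
  have hm : ∀ g ∈ hT.toFinset, g • w (rep G (q, F)).2 ∈ F := fun g hg => by
    have h1 : g • (rep G (q, F)).2 = F := congrArg Prod.snd (hT.mem_toFinset.1 hg)
    have h2 := smul_mem_smul_finset (a := g) hw0
    rwa [h1] at h2
  have hS : ∑ v ∈ F, v ∈ D.Λ q := sum_mem fun v hv => (hF v hv).1
  have hS' : ∑ g ∈ hT.toFinset, g • w (rep G (q, F)).2 ∈ D.Λ q :=
    sum_mem fun g hg => (hF _ (hm g hg)).1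
  beta_reduce
  refine ⟨?_, ?_, ⟨fun v => l + #{g ∈ hT.toFinset | g • w (rep G (q, F)).2 = v},
    fun v _ => Nat.add_pos_left hl.out.pos _, ?_⟩, fun g => ?_⟩
  · rw [finsum_mem_eq_finite_toFinset_sum _ hT]
    exact add_mem (nsmul_mem hS _) hS'
  · rw [finsum_mem_eq_finite_toFinset_sum _ hT,
      D.χ_add q _ (D.Λ_le q (nsmul_mem hS _)) _ (D.Λ_le q hS'), chi_l D q (D.Λ_le q hS), zero_add,
      chi_sum D q _ _ fun g hg => D.Λ_le q (hF _ (hm g hg)).1,
      sum_congr rfl (g := fun _ => D.χ (rep G (q, F)).1 (w (rep G (q, F)).2)) fun g hg => ?_,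
      sum_const, hc, nsmul_eq_mul]
    · refine mul_ne_zero ?_ hw1.2.2
      rw [Ne, ZMod.natCast_eq_zero_iff]
      exact hl.out.coprime_iff_not_dvd.1 s2.symm
    · have h1 : g • (rep G (q, F)).1 = q := congrArg Prod.fst (hT.mem_toFinset.1 hg)
      have h2 := D.smul_χ g _ _ (D.Λ_le _ hw1.1)
      rwa [h1] at h2
  · rw [finsum_mem_eq_finite_toFinset_sum _ hT, ← sum_fiberwise_of_maps_to' hm fun v => v]
    simp only [sum_const, add_smul, sum_add_distrib, smul_sum]
  · have e2 : T (g • (q, F)) = (fun x => g * x) '' T (q, F) := by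
      ext x
      simp only [T, rep_smul, Set.mem_ofPred_eq, Set.image_mul_left, Set.mem_preimage, mul_smul,
        inv_smul_eq_iff]
    change l • ∑ v ∈ g • F, v + ∑ᶠ x ∈ T (g • (q, F)), x • w (rep G (g • (q, F))).2 = _
    rw [e2, rep_smul, smul_sum', finsum_mem_image (mul_right_injective g).injOn, smul_add,
      smul_comm g l, finsum_mem_eq_finite_toFinset_sum _ hT,
      finsum_mem_eq_finite_toFinset_sum _ hT]
    simp only [mul_smul, smul_sum]

end Pool.Agent.MP_f3cd89_nt
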