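import Pool.Agent.MP_f3cd89_nt.AStm

/-! Elementary identities for `W` and sums over orbits. -/

set_option autoImplicit false

open Finset

namespace Pool.Agent.MP_f3cd89_nt

namespace BaseX

theorem prod_shift {M : Type} [CommMonoid M] (g : ℕ → M) (n : ℕ) (h : g n = g 0) :
    ∏ t ∈ range n, g (t + 1) = ∏ t ∈ range n, g t := by
  cases n with
  | zero => rfl
  | succ n => rw [prod_range_succ, prod_range_succ' g, h]

theorem sum_shift {M : Type} [AddCommMonoid M] (g : ℕ → M) (n : ℕ) (h : g n = g 0) :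
    ∑ t ∈ range n, g (t + 1) = ∑ t ∈ range n, g t := by
  cases n with
  | zero => rfl
  | succ n => rw [sum_range_succ, sum_range_succ' g, h]

theorem sum_mul_range {M : Type} [AddCommMonoid M] (g : ℕ → M) (a j : ℕ) :
    ∑ t ∈ range (a * j), g t = ∑ s ∈ range a, ∑ t ∈ range j, g (s * j + t) := by
  induction a with
  | zero => simp
  | succ a ih => rw [Nat.succ_mul, sum_range_add, ih, sum_range_succ]

theorem prod_mul {M : Type} [CommMonoid M] (g : ℕ → M) (a j : ℕ) :
    ∏ t ∈ range (a * j), g t = ∏ s ∈ range a, ∏ t ∈ range j, g (s * j + t) := by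
  induction a with
  | zero => simp
  | succ a ih => rw [Nat.succ_mul, prod_range_add, ih, prod_range_succ]

theorem sum_shift' {M : Type} [AddCommMonoid M] (F : ℕ → M) (d : ℕ) (h : ∀ i, F (i + d) = F i)
    (s : ℕ) : ∑ i ∈ range d, F (i + s) = ∑ i ∈ range d, F i := by
  induction s with
  | zero => rfl
  | succ s ih =>
    rw [← ih, ← sum_shift (fun i => F (i + s)) d (by rw [add_comm, h, zero_add])]
    exact sum_congr rfl fun i _ => by rw [add_assoc, add_comm 1 s]

variable {A : Type} [CommGroup A] {Δ : Dat A} {k : Type} [CommRing k]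

/-- one term of `W` -/
noncomputable def F (d : ℕ) (b : MonoidAlgebra ℤ A) (e : ℤ) (P : Pt Δ k) (i : ℕ) : k :=
  ∏ t ∈ range (P.d / d), (lam P (i + t * d) b * ((P.ω ^ e : kˣ) : k))

theorem W_pos {d : ℕ} (b : MonoidAlgebra ℤ A) (e : ℤ) {P : Pt Δ k} (h : d ∣ P.d) :
    W d b e P = ∑ i ∈ range d, F d b e P i := if_pos h

theorem W_neg {d : ℕ} (b : MonoidAlgebra ℤ A) (e : ℤ) {P : Pt Δ k} (h : ¬d ∣ P.d) :
    W d b e P = 0 := if_neg h

theorem F_per {d : ℕ} (b : MonoidAlgebra ℤ A) (e : ℤ) {P : Pt Δ k} (h : d ∣ P.d) (i : ℕ) :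
    F d b e P (i + d) = F d b e P i := by
  unfold F
  rw [← prod_shift (fun t => lam P (i + t * d) b * ((P.ω ^ e : kˣ) : k)) (P.d / d) (by
    rw [Nat.div_mul_cancel h, zero_mul, add_zero, ← lam_add_mul P i 1, one_mul])]
  exact prod_congr rfl fun t _ => by rw [show i + d + t * d = i + (t + 1) * d by ring]

theorem item1 (d : ℕ) (b : MonoidAlgebra ℤ A) (e n : ℤ) (P : Pt Δ k) :
    W d b (e + n * d) P = W d b e P * ((P.ω ^ (n * P.d) : kˣ) : k) := by
  by_cases h : d ∣ P.d
  · rw [W_pos _ _ h, W_pos _ _ h, sum_mul]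
    refine sum_congr rfl fun i _ => ?_
    have e1 : ((P.ω ^ (n * P.d) : kˣ) : k) =
        ∏ _t ∈ range (P.d / d), ((P.ω ^ (n * d) : kˣ) : k) := by
      rw [prod_const, card_range, ← Units.val_pow_eq_pow_val, ← zpow_natCast, ← zpow_mul,
        mul_assoc, ← Nat.cast_mul, Nat.mul_div_cancel' h]
    rw [F, F, e1, ← prod_mul_distrib]
    exact prod_congr rfl fun t _ => by rw [zpow_add, Units.val_mul, mul_assoc]
  · rw [W_neg _ _ h, W_neg _ _ h, zero_mul]

theorem item2 (d i : ℕ) (b : MonoidAlgebra ℤ A) (e : ℤ) (P : Pt Δ k) :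
    W d (sg Δ i b) e P = W d b e P := by
  by_cases h : d ∣ P.d
  · rw [W_pos _ _ h, W_pos _ _ h, ← sum_shift' _ d (F_per b e h) i]
    refine sum_congr rfl fun s _ => prod_congr rfl fun t _ => ?_
    rw [lam_sg, add_right_comm]
  · rw [W_neg _ _ h, W_neg _ _ h]

theorem item3 (d : ℕ) (a a' : A) (e : ℤ) (P : Pt Δ k) :
    V d (a * (Δ.σ ^ d) a' * a'⁻¹) e P = V d a e P := by
  unfold V
  by_cases h : d ∣ P.d
  · rw [W_pos _ _ h, W_pos _ _ h]
    refine sum_congr rfl fun i _ => ?_
    have h1 := prod_shift (fun t => P.η ((Δ.σ ^ (i + t * d)) a')) (P.d / d) (by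
      rw [Nat.div_mul_cancel h, zero_mul, add_zero, add_comm, pow_add, MulAut.mul_apply, P.inv])
    simp only [F, lam_of, ← Units.val_mul, ← Units.coe_prod]
    congr 1
    have h2 : ∀ t, P.η ((Δ.σ ^ (i + t * d)) (a * (Δ.σ ^ d) a' * a'⁻¹)) * P.ω ^ e =
        P.η ((Δ.σ ^ (i + t * d)) a) * P.ω ^ e * (P.η ((Δ.σ ^ (i + (t + 1) * d)) a') *
          (P.η ((Δ.σ ^ (i + t * d)) a'))⁻¹) := fun t => by
      rw [map_mul, map_mul, map_mul, map_mul, map_inv, map_inv, ← MulAut.mul_apply, ← pow_add,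
        show i + t * d + d = i + (t + 1) * d by ring]
      simp only [mul_assoc, mul_comm, mul_left_comm]
    simp only [h2]
    rw [prod_mul_distrib, prod_mul_distrib (f := fun t => P.η ((Δ.σ ^ (i + (t + 1) * d)) a')),
      prod_inv_distrib, h1, mul_inv_cancel, mul_one]
  · rw [W_neg _ _ h, W_neg _ _ h]

theorem item4 (d j : ℕ) (b : MonoidAlgebra ℤ A) (e : ℤ) (P : Pt Δ k) :
    W (d * j) (∏ t ∈ range j, sg Δ (t * d) b) (e * j) P =
      if d * j ∣ P.d then (j : k) * W d b e P else 0 := by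
  split_ifs with h
  · have hd : d ∣ P.d := (Dvd.intro j rfl).trans h
    have hR : P.d / d = P.d / (d * j) * j := by
      rw [← Nat.div_div_eq_div_mul, Nat.div_mul_cancel]
      exact Nat.dvd_div_of_mul_dvd h
    have h1 : ∀ i, F (d * j) (∏ t ∈ range j, sg Δ (t * d) b) (e * j) P i = F d b e P i := by
      intro i
      rw [F, F, hR, prod_mul]
      refine prod_congr rfl fun s _ => ?_
      rw [prod_mul_distrib, prod_const, card_range, map_prod, zpow_mul, zpow_natCast,
        Units.val_pow_eq_pow_val]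
      congr 1
      refine prod_congr rfl fun t _ => ?_
      rw [lam_sg, show i + s * (d * j) + t * d = i + (s * j + t) * d by ring]
    rw [W_pos _ _ h, W_pos _ _ hd]
    simp only [h1]
    rw [mul_comm d j, sum_mul_range]
    have h2 : ∀ s, ∑ t ∈ range d, F d b e P (s * d + t) = ∑ t ∈ range d, F d b e P t := fun s => by
      rw [← sum_shift' _ d (F_per b e hd) (s * d)]
      exact sum_congr rfl fun t _ => by rw [add_comm]
    simp only [h2]
    rw [sum_const, card_range, nsmul_eq_mul]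
  · exact W_neg _ _ h

theorem sg_of (i : ℕ) (a : A) :
    sg Δ i (MonoidAlgebra.of ℤ A a) = MonoidAlgebra.of ℤ A ((Δ.σ ^ i) a) := sg_single i a 1

theorem item5 (d j : ℕ) (a : A) (e : ℤ) (P : Pt Δ k) :
    V (d * j) (ver Δ d j a) (e * j) P = if d * j ∣ P.d then (j : k) * V d a e P else 0 := by
  unfold V
  rw [← item4, ver, map_prod]
  simp only [sg_of]

theorem sg_zero (b : MonoidAlgebra ℤ A) : sg Δ 0 b = b := by
  have : sg Δ 0 = RingHom.id _ := by
    refine MonoidAlgebra.ringHom_ext (fun x => ?_) fun a => ?_ <;> simp [sg_single]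
  exact DFunLike.congr_fun this b

theorem item6 (d : ℕ) (b : MonoidAlgebra ℤ A) (e : ℤ) (P : Pt Δ k) :
    W d (-b) e P = -W d b e P + W (d * 2) (b * sg Δ d b) (e * 2) P := by
  have h0 := item4 d 2 b e P
  rw [prod_range_succ, prod_range_one, zero_mul, one_mul, sg_zero, Nat.cast_ofNat,
    Nat.cast_ofNat] at h0
  rw [h0]
  by_cases h : d ∣ P.d
  · have h1 : W d (-b) e P = (-1) ^ (P.d / d) * W d b e P := by
      rw [W_pos _ _ h, W_pos _ _ h, mul_sum]
      refine sum_congr rfl fun i _ => ?_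
      simp only [F, map_neg, neg_mul]
      rw [prod_neg, card_range]
    rw [h1]
    split_ifs with h2
    · rw [(even_iff_two_dvd.2 (Nat.dvd_div_of_mul_dvd h2)).neg_one_pow]
      ring
    · rw [(Nat.not_even_iff_odd.1 fun h3 =>
        h2 (Nat.mul_dvd_of_dvd_div h (even_iff_two_dvd.1 h3))).neg_one_pow]
      ring
  · rw [W_neg _ _ h, W_neg _ _ h, if_neg fun h2 => h ((Dvd.intro 2 rfl).trans h2)]
    ring

theorem item7 (d : ℕ) (a : A) (e : ℤ) (P : Pt Δ k) (d' : ℕ) (h : d' ∣ P.d) (hd : d ∣ d') :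
    V d a e (P.down d' h) = V d a e P := by
  unfold V
  rw [W_pos (P := P.down d' h) _ _ hd, W_pos _ _ (hd.trans h)]
  refine sum_congr rfl fun i _ => ?_
  have hR : P.d / d = P.d / d' * (d' / d) := (Nat.div_mul_div h hd).symm
  rw [F, F, hR, prod_mul, prod_comm]
  refine prod_congr rfl fun t _ => ?_
  have h1 : (P.down d' h).ω = P.ω ^ (P.d / d') := rfl
  rw [lam_of, Pt.down_η, ver, map_prod, h1, ← zpow_natCast P.ω, ← zpow_mul, mul_comm _ e, zpow_mul,
    zpow_natCast, prod_mul_distrib, prod_const, card_range, Units.val_pow_eq_pow_val,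
    Units.coe_prod]
  congr 1
  refine prod_congr rfl fun s _ => ?_
  rw [lam_of, ← MulAut.mul_apply, ← pow_add, add_mul, mul_assoc, Nat.div_mul_cancel hd,
    add_left_comm]

theorem lam_tw (P : Pt Δ k) (i : ℕ) : lam P.tw i = lam P (i + 1) := by
  refine MonoidAlgebra.ringHom_ext (fun x => ?_) fun a => ?_
  · simp [lam_single]
  · rw [lam_single, lam_single, pow_succ', MulAut.mul_apply]
    rfl

theorem item8 (d : ℕ) (b : MonoidAlgebra ℤ A) (e : ℤ) (P : Pt Δ k) :
    W d b e P.tw = W d b e P := by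
  by_cases h : d ∣ P.d
  · rw [W_pos (P := P.tw) _ _ h, W_pos _ _ h, ← sum_shift' _ d (F_per b e h) 1]
    refine sum_congr rfl fun s _ => prod_congr rfl fun t _ => ?_
    rw [lam_tw, add_right_comm]
    rfl
  · rw [W_neg (P := P.tw) _ _ h, W_neg _ _ h]

variable {k' : Type} [CommRing k'] (f : k →+* k')

theorem lam_map (P : Pt Δ k) (i : ℕ) (b : MonoidAlgebra ℤ A) :
    lam (P.map f) i b = f (lam P i b) := by
  have : lam (P.map f) i = f.comp (lam P i) := by
    refine MonoidAlgebra.ringHom_ext (fun x => ?_) fun a => ?_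
    · simp [lam_single]
    · simp [lam_single, Pt.map]
  exact DFunLike.congr_fun this b

theorem om_map (P : Pt Δ k) (e : ℤ) :
    (((P.map f).ω ^ e : k'ˣ) : k') = f ((P.ω ^ e : kˣ) : k) := by
  have : (P.map f).ω = Units.map (f : k →* k') P.ω := rfl
  rw [this, ← map_zpow]
  rfl

theorem item9a (P : Pt Δ k) (d : ℕ) (b : MonoidAlgebra ℤ A) (e : ℤ) :
    W d b e (P.map f) = f (W d b e P) := by
  by_cases h : d ∣ P.d
  · rw [W_pos (P := P.map f) _ _ h, W_pos _ _ h, map_sum]
    refine sum_congr rfl fun i _ => ?_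
    rw [F, F, map_prod]
    exact prod_congr rfl fun t _ => by rw [map_mul, lam_map, om_map]
  · rw [W_neg (P := P.map f) _ _ h, W_neg _ _ h, map_zero]

theorem rho_map (P : Pt Δ k) (y : ℤ →₀ MonoidAlgebra ℤ A) (i j : ZMod P.d) :
    rho (P.map f) y i j = f (rho P y i j) := by
  simp only [rho, rhoG, Matrix.of_apply, Finsupp.sum, map_sum]
  refine sum_congr rfl fun e _ => ?_
  rw [apply_ite f, map_zero, map_mul, ← om_map]
  have h1 : lamG (Int.castRingHom k') (P.map f) i.val (y e) =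
      f (lamG (Int.castRingHom k) P i.val (y e)) := lam_map f P i.val (y e)
  rw [← h1]
  congr

theorem item9b (P : Pt Δ k) (r : ℕ) (H : Matrix (Fin r) (Fin r) (ℤ →₀ MonoidAlgebra ℤ A)) :
    Dt H (P.map f) = f (Dt H P) := by
  unfold Dt
  rw [RingHom.map_det]
  congr 1
  ext x y
  exact rho_map f P _ _ _

end BaseX

open BaseX in
theorem base : BASE_st := fun _ _ _ _ _ =>
  ⟨item1, item2, item3, item4, item5, item6, item7, item8,
    fun _ _ f P => ⟨item9a f P, item9b f P⟩⟩

theorem orb : ORB_st := by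
  intro M _ N Y _ τ g h
  classical
  rw [← sum_fiberwise univ (Quotient.mk (Equiv.Perm.SameCycle.setoid τ)) g]
  refine N.sum_mem fun q _ => ?_
  obtain ⟨y, rfl⟩ := Quotient.exists_rep q
  have hp : 0 < Function.minimalPeriod τ y :=
    Function.minimalPeriod_pos_of_mem_periodicPts (τ.injective.mem_periodicPts y)
  have e : (univ.filter fun x => Quotient.mk (Equiv.Perm.SameCycle.setoid τ) x =
      Quotient.mk (Equiv.Perm.SameCycle.setoid τ) y) =
      (range (Function.minimalPeriod τ y)).image fun u => (τ ^ u) y := by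
    ext x
    simp only [mem_filter, mem_univ, true_and, mem_image, mem_range, Quotient.eq]
    constructor
    · intro hx
      obtain ⟨i, -, rfl⟩ := Equiv.Perm.SameCycle.exists_pow_eq' (Equiv.Perm.SameCycle.symm hx)
      exact ⟨i % Function.minimalPeriod τ y, Nat.mod_lt _ hp,
        Function.iterate_mod_minimalPeriod_eq⟩
    · rintro ⟨u, -, rfl⟩
      exact Equiv.Perm.SameCycle.symm ⟨u, by simp⟩
  rw [e, sum_image]
  · exact h y
  · intro u hu v hv huv
    exact Function.iterate_injOn_Iio_minimalPeriod (by simpa using hu) (by simpa using hv) huv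

end Pool.Agent.MP_f3cd89_nt
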