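import Pool.Agent.MP_f3cd89_nt.BjpA

set_option autoImplicit false

open Finset

namespace Pool.Agent.MP_f3cd89_nt

namespace BjpX

variable {A : Type} [CommGroup A]

/-- the target subgroup -/
noncomputable def NN (Δ : Dat A) (p : ℕ) : AddSubgroup (Pt Δ ℂ → ℂ) := J Δ ℂ ⊔ pB Δ ℂ p

theorem mul_pB (hS : BRING_st) (Δ : Dat A) (p : ℕ) {f g : Pt Δ ℂ → ℂ} (hf : f ∈ B Δ ℂ)
    (hg : g ∈ pB Δ ℂ p) : f * g ∈ pB Δ ℂ p := by
  obtain ⟨h, hh, rfl⟩ := mem_pB.1 hg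
  exact mem_pB.2 ⟨f * h, (hS A Δ ℂ).2.1 f hf h hh, (mul_smul_comm p f h).symm⟩

theorem mul_NN (hJ : JB_st) (hR : RING_st) (hS : BRING_st) (Δ : Dat A) (p : ℕ) :
    ∀ f ∈ J Δ ℂ, ∀ g ∈ NN Δ p, f * g ∈ NN Δ p := by
  intro f hf g hg
  obtain ⟨x, hx, y, hy, rfl⟩ := AddSubgroup.mem_sup.1 hg
  rw [mul_add]
  exact AddSubgroup.add_mem _ (AddSubgroup.mem_sup_left ((hR A Δ ℂ).2.1 f hf x hx))
    (AddSubgroup.mem_sup_right (mul_pB hS Δ p (hJ A Δ ℂ hf) hy))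

variable (A) in
/-- the augmentation ideal of the `p`-part -/
noncomputable def I1 (p : ℕ) : Ideal (MonoidAlgebra ℤ A) :=
  Ideal.span ((fun u : A => MonoidAlgebra.of ℤ A u - 1) '' {u | ∃ s : ℕ, u ^ p ^ s = 1})

theorem sg_of (Δ : Dat A) (i : ℕ) (a : A) :
    sg Δ i (MonoidAlgebra.of ℤ A a) = MonoidAlgebra.of ℤ A ((Δ.σ ^ i) a) := sg_single i a 1

theorem I1_map (Δ : Dat A) (p i : ℕ) : (I1 A p).map (sg Δ i) ≤ I1 A p := by
  rw [I1, Ideal.map_span]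
  refine Ideal.span_mono ?_
  rintro _ ⟨_, ⟨u, ⟨s, hs⟩, rfl⟩, rfl⟩
  refine ⟨(Δ.σ ^ i) u, ⟨s, by rw [← map_pow, hs, map_one]⟩, ?_⟩
  simp only [map_sub, map_one, sg_of]

theorem I1_pow [Finite A] (p : ℕ) (hp : p.Prime) :
    ∃ K : ℕ, I1 A p ^ K ≤ Ideal.span {((p : MonoidAlgebra ℤ A)) ^ 2} := by
  refine Ideal.exists_pow_le_of_le_radical_of_fg ?_
    (Submodule.fg_span ((Set.toFinite _).image _))
  refine Ideal.span_le.2 ?_
  rintro _ ⟨u, ⟨s, hs⟩, rfl⟩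
  obtain ⟨r, hr⟩ := exists_add_pow_prime_pow_eq hp (MonoidAlgebra.of ℤ A u - 1) 1 s
  rw [sub_add_cancel, ← map_pow, hs, map_one, one_pow] at hr
  refine ⟨p ^ s * 2, Ideal.mem_span_singleton'.2 ⟨((MonoidAlgebra.of ℤ A u - 1) * r) ^ 2, ?_⟩⟩
  have : (MonoidAlgebra.of ℤ A u - 1) ^ p ^ s = -(p * ((MonoidAlgebra.of ℤ A u - 1) * r)) := by
    linear_combination -hr
  change _ = (MonoidAlgebra.of ℤ A u - 1) ^ (p ^ s * 2)
  rw [pow_mul, this]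
  ring

theorem W_sq (hG : GAUSS_st) (Δ : Dat A) (p : ℕ) (hp : p.Prime) (d : ℕ) (e : ℤ)
    (b : MonoidAlgebra ℤ A) (hd : d ∣ Δ.m) (he : (d : ℤ) ∣ e)
    (hb : b ∈ Ideal.span {((p : MonoidAlgebra ℤ A)) ^ 2}) : W d b e ∈ NN Δ p := by
  obtain ⟨c, rfl⟩ := Ideal.mem_span_singleton'.1 hb
  have : c * (p : MonoidAlgebra ℤ A) ^ 2 = p ^ 2 • c := by
    rw [nsmul_eq_mul, Nat.cast_pow, mul_comm]
  rw [this]
  exact AddSubgroup.mem_sup_right ((hG A Δ ℂ p hp).1 d c e hd he)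

theorem stepA [Finite A] (hT : TRI_st) (hG : GAUSS_st) (hJ : JB_st) (hR : RING_st)
    (hS : BRING_st) (Δ : Dat A) (p : ℕ) (hp : p.Prime) (d : ℕ) (e : ℤ)
    (b : MonoidAlgebra ℤ A) (hd : d ∣ Δ.m) (he : (d : ℤ) ∣ e) (hb : b ∈ I1 A p) :
    W d b e ∈ NN Δ p := by
  obtain ⟨K, hK⟩ := I1_pow (A := A) p hp
  have key : ∀ j k : ℕ, 1 ≤ k → K ≤ k + j → ∀ (d : ℕ) (e : ℤ) (b : MonoidAlgebra ℤ A),
      d ∣ Δ.m → (d : ℤ) ∣ e → b ∈ I1 A p ^ k → W d b e ∈ NN Δ p := by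
    intro j
    induction j with
    | zero =>
      intro k _ hk d e b hd he hb
      exact W_sq hG Δ p hp d e b hd he (hK (Ideal.pow_le_pow_right (by omega) hb))
    | succ j ih =>
      intro k hk1 hk
      refine hT A Δ ℂ (NN Δ p) (I1 A p ^ k) le_sup_left (mul_NN hJ hR hS Δ p) ?_ ?_
      · intro i b hb
        have h1 := Ideal.mem_map_of_mem (sg Δ i) hb
        rw [Ideal.map_pow] at h1
        exact Ideal.pow_right_mono (I1_map Δ p i) k h1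
      · intro d e b hd he hb
        rw [← pow_add] at hb
        exact ih (k + 1) (by omega) (by omega) d e b hd he (Ideal.pow_le_pow_right (by omega) hb)
  exact key K 1 le_rfl (by omega) d e b hd he (by rwa [pow_one])

theorem stepB (hT : TRI_st) (hG : GAUSS_st) (hJ : JB_st) (hR : RING_st)
    (hS : BRING_st) (Δ : Dat A) (p : ℕ) (hp : p.Prime) (d : ℕ) (e : ℤ)
    (b : MonoidAlgebra ℤ A) (hd : d ∣ Δ.m) (he : (d : ℤ) ∣ e) :
    W d (p • b) e ∈ NN Δ p := by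
  refine hT A Δ ℂ (NN Δ p) (Ideal.span {(p : MonoidAlgebra ℤ A)}) le_sup_left
    (mul_NN hJ hR hS Δ p) ?_ ?_ d e _ hd he ?_
  · intro i b hb
    obtain ⟨c, rfl⟩ := Ideal.mem_span_singleton'.1 hb
    exact Ideal.mem_span_singleton'.2 ⟨sg Δ i c, by rw [map_mul, map_natCast]⟩
  · intro d e b hd he hb
    rw [Ideal.span_singleton_mul_span_singleton, ← sq] at hb
    exact W_sq hG Δ p hp d e b hd he hb
  · exact Ideal.mem_span_singleton'.2 ⟨b, by rw [nsmul_eq_mul, mul_comm]⟩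

/-- `B` as a subring -/
noncomputable def SB (hS : BRING_st) (Δ : Dat A) : Subring (Pt Δ ℂ → ℂ) :=
  { B Δ ℂ with
    one_mem' := (hS A Δ ℂ).1
    mul_mem' := fun hf hg => (hS A Δ ℂ).2.1 _ hf _ hg }

theorem pow_mem_NN [Finite A] (hC : C1_st) (hJ : JB_st) (hR : RING_st) (hS : BRING_st)
    (Δ : Dat A) (p : ℕ) (hp : p.Prime) (β : Pt Δ ℂ → ℂ) (hβ : β ∈ B Δ ℂ) :
    ∃ K : ℕ, ∀ n, K ≤ n → β ^ p ^ n ∈ NN Δ p := by
  obtain ⟨Θ, hΘ, K, hK⟩ := hC A Δ p hp β hβ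
  refine ⟨K, fun n hn => ?_⟩
  have hΘB : Θ ∈ B Δ ℂ := hJ A Δ ℂ hΘ
  have hx : β - Θ ∈ B Δ ℂ := AddSubgroup.sub_mem _ hβ hΘB
  obtain ⟨r, hr⟩ := exists_add_pow_prime_pow_eq hp (⟨β - Θ, hx⟩ : SB hS Δ) ⟨Θ, hΘB⟩ n
  have hr' : β ^ p ^ n = (β - Θ) ^ p ^ n + Θ ^ p ^ n + p • ((β - Θ) * Θ * (r : Pt Δ ℂ → ℂ)) := by
    have := congrArg (fun z : SB hS Δ => (z : Pt Δ ℂ → ℂ)) hr
    simp only [SubmonoidClass.coe_pow, Subring.coe_add, Subring.coe_mul, sub_add_cancel,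
      Subring.coe_natCast] at this
    rw [this, nsmul_eq_mul]
    ring
  have hKn : K ≤ p ^ n := hn.trans (Nat.lt_pow_self hp.one_lt).le
  rw [hr']
  refine AddSubgroup.add_mem _ (AddSubgroup.add_mem _ (AddSubgroup.mem_sup_right ?_)
    (AddSubgroup.mem_sup_left ?_)) (AddSubgroup.mem_sup_right ?_)
  · rw [← Nat.sub_add_cancel hKn, pow_add]
    exact mul_pB hS Δ p ((SB hS Δ).pow_mem (x := β - Θ) hx _) hK
  · generalize p ^ n = q
    induction q with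
    | zero => rw [pow_zero]; exact (hR A Δ ℂ).1
    | succ q ih => rw [pow_succ]; exact (hR A Δ ℂ).2.1 _ ih _ hΘ
  · exact mem_pB.2 ⟨_, (SB hS Δ).mul_mem ((SB hS Δ).mul_mem (x := β - Θ) (y := Θ) hx hΘB) r.2, rfl⟩

theorem Vl_pow (hS : BRING_st) (Δ : Dat A) (d : ℕ) (b : MonoidAlgebra ℤ A) (j : ℕ) :
    (Vl d b 0 : Pt Δ ℂ → ℂ) ^ (j + 1) = Vl d (b * trc Δ d b ^ j) 0 := by
  induction j with
  | zero => simp
  | succ j ih => rw [pow_succ, ih, (hS A Δ ℂ).2.2.1, mul_assoc, ← pow_succ]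

/-- the class of `Vl d b 0` -/
noncomputable def phi (Δ : Dat A) (p d : ℕ) :
    MonoidAlgebra ℤ A →+ (Pt Δ ℂ → ℂ) ⧸ NN Δ p :=
  (QuotientAddGroup.mk' (NN Δ p)).comp (AddMonoidHom.mk' (fun b => Vl d b 0) fun b b' =>
    Vl_add d b b' 0)

theorem phi_eq_zero (Δ : Dat A) (p d : ℕ) (b : MonoidAlgebra ℤ A) :
    phi Δ p d b = 0 ↔ Vl d b 0 ∈ NN Δ p := QuotientAddGroup.eq_zero_iff _

theorem sum_of {M : Type} [AddCommGroup M] (ψ : MonoidAlgebra ℤ A →+ M) (b : MonoidAlgebra ℤ A) :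
    (b.coeff.sum fun a z => z • ψ (MonoidAlgebra.of ℤ A a)) = ψ b := by
  conv_rhs => rw [← MonoidAlgebra.sum_coeff_single b]
  rw [Finsupp.sum, Finsupp.sum, map_sum]
  refine sum_congr rfl fun a _ => ?_
  rw [← map_zsmul]
  simp

theorem stepC [Finite A] (hC : C1_st) (hT : TRI_st) (hG : GAUSS_st) (hW : WV_st) (hJ : JB_st)
    (hR : RING_st) (hS : BRING_st) (hB : BASE_st) (hK : KER_st) (Δ : Dat A) (p : ℕ)
    (hp : p.Prime) (d : ℕ) (hd : d ∣ Δ.m) (hgt : Bgt Δ ℂ d ≤ NN Δ p) (a : A) :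
    V d a 0 ∈ NN Δ p := by
  have hd0 : 0 < d := Nat.pos_of_dvd_of_pos hd Δ.m_pos
  let ψ := (phi Δ p d).rangeRestrict
  have hψ : ∀ b, ψ b = 0 ↔ Vl d b 0 ∈ NN Δ p := by
    intro b
    rw [← phi_eq_zero, Subtype.ext_iff]
    rfl
  have hψV : ∀ a a' : A, (V d a 0 : Pt Δ ℂ → ℂ) = V d a' 0 →
      ψ (MonoidAlgebra.of ℤ A a) = ψ (MonoidAlgebra.of ℤ A a') := by
    intro a a' h
    rw [← sub_eq_zero, ← map_sub, hψ, sub_eq_add_neg, Vl_add, Vl_neg, Vl_of, Vl_of, h,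
      add_neg_cancel]
    exact AddSubgroup.zero_mem _
  obtain ⟨n0, hn0, hn⟩ := core hK Δ p d hp hd0 (phi Δ p d).range
    (fun a => ψ (MonoidAlgebra.of ℤ A a)) (by
      intro x
      obtain ⟨b, rfl⟩ := (phi Δ p d).rangeRestrict_surjective x
      refine Subtype.ext ?_
      change p • (QuotientAddGroup.mk' (NN Δ p) (Vl d b 0)) = 0
      rw [← map_nsmul]
      exact (QuotientAddGroup.eq_zero_iff _).2 (AddSubgroup.mem_sup_right
        (mem_pB.2 ⟨_, Vl_mem b hd (dvd_zero _), rfl⟩))) (by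
      intro a u hu
      have hb : MonoidAlgebra.of ℤ A (a * u) - MonoidAlgebra.of ℤ A a ∈ I1 A p := by
        rw [map_mul, ← mul_sub_one]
        exact Ideal.mul_mem_left _ _ (Ideal.subset_span ⟨u, hu, rfl⟩)
      change ψ _ = ψ _
      rw [← sub_eq_zero, ← map_sub, hψ]
      have h1 := stepA hT hG hJ hR hS Δ p hp d 0 _ hd (dvd_zero _) hb
      have h2 := hgt (hW A Δ ℂ d (MonoidAlgebra.of ℤ A (a * u) - MonoidAlgebra.of ℤ A a) 0 hd
        (dvd_zero _))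
      simpa only [sub_sub_cancel] using AddSubgroup.sub_mem _ h1 h2) (by
      intro a a'
      exact hψV _ _ (funext fun P => (hB A Δ ℂ).2.2.1 d a a' 0 P)) (by
      intro a
      refine hψV _ _ (funext fun P => ?_)
      have := (hB A Δ ℂ).2.1 d 1 (MonoidAlgebra.of ℤ A a) 0 P
      rwa [sg_of, pow_one] at this) (by
      intro hpd a
      change ψ _ = 0
      rw [hψ, Vl_of]
      have he : d / p * p = d := Nat.div_mul_cancel hpd
      have h1 := (hG A Δ ℂ p hp).2 (d / p) a 0 (by rwa [he]) (dvd_zero _)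
      rw [he, zero_mul] at h1
      have h2 := stepB hT hG hJ hR hS Δ p hp (d / p) 0 (MonoidAlgebra.of ℤ A a)
        ((Nat.div_dvd_of_dvd hpd).trans hd) (dvd_zero _)
      have h3 := (sup_le (le_sup_right : pB Δ ℂ p ≤ NN Δ p) hgt) h1
      have h4 := AddSubgroup.sub_mem (NN Δ p) h3 h2
      rwa [add_sub_cancel_left] at h4)
  obtain ⟨K, hKn⟩ := pow_mem_NN hC hJ hR hS Δ p hp (V d a 0) (V_mem a hd (dvd_zero _))
  have h1 := hn (K + 1) (Nat.succ_pos _) (MonoidAlgebra.of ℤ A a)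
  rw [sum_of, sum_of] at h1
  have h2 := hKn (n0 * (K + 1)) (by nlinarith)
  rw [← Vl_of, ← Nat.sub_add_cancel (Nat.one_le_pow (n0 * (K + 1)) p hp.pos), Vl_pow hS, ← hψ,
    h1, hψ, Vl_of] at h2
  exact h2

end BjpX

open BjpX in
theorem bjp (hC : C1_st) (hT : TRI_st) (hG : GAUSS_st) (hW : WV_st) (hJ : JB_st) (hR : RING_st)
    (hS : BRING_st) (hB : BASE_st) (hK : KER_st) : BJP_st := by
  intro A _ _ Δ p hp
  have key : ∀ n d : ℕ, d ∣ Δ.m → Δ.m < d + n → ∀ (a : A) (e : ℤ), (d : ℤ) ∣ e →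
      V d a e ∈ NN Δ p := by
    intro n
    induction n with
    | zero =>
      intro d hd h
      have := Nat.le_of_dvd Δ.m_pos hd
      omega
    | succ n ih =>
      rintro d hd h a e ⟨t, rfl⟩
      have hgt : Bgt Δ ℂ d ≤ NN Δ p := by
        refine (AddSubgroup.closure_le _).2 ?_
        rintro _ ⟨d', a', e', h1, h2, h3, h4, rfl⟩
        have := Nat.le_of_dvd (Nat.pos_of_dvd_of_pos h1 Δ.m_pos) h2
        exact ih d' h1 (by omega) a' e' h4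
      have h0 := stepC hC hT hG hW hJ hR hS hB hK Δ p hp d hd hgt a
      have h1 := mul_NN hJ hR hS Δ p _ ((hR A Δ ℂ).2.2.2.2.1 t) _ h0
      convert h1 using 1
      funext P
      have := (hB A Δ ℂ).1 d (MonoidAlgebra.of ℤ A a) 0 t P
      rw [zero_add, mul_comm t] at this
      rw [Pi.mul_apply, mul_comm _ (V d a 0 P)]
      exact this
  refine (AddSubgroup.closure_le _).2 ?_
  rintro _ ⟨d, a, e, hd, he, rfl⟩
  exact key (Δ.m + 1) d hd (by omega) a e he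

end Pool.Agent.MP_f3cd89_nt
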