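import Pool.Agent.MP_f3cd89_nt.AStm

set_option autoImplicit false

open Finset

namespace Pool.Agent.MP_f3cd89_nt.BjpX

variable {A : Type} [CommGroup A]

/-- elements of `p`-power order and twisted commutators -/
def A0 (Δ : Dat A) (p d : ℕ) : Subgroup A :=
  Subgroup.closure ({u | ∃ s : ℕ, u ^ p ^ s = 1} ∪ Set.range fun a => (Δ.σ ^ d) a * a⁻¹)

theorem A0_le (Δ : Dat A) (p d : ℕ) : A0 Δ p d ≤ (A0 Δ p d).comap Δ.σ.toMonoidHom := by
  refine (Subgroup.closure_le _).2 ?_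
  rintro u (⟨s, hs⟩ | ⟨a, rfl⟩)
  · refine Subgroup.subset_closure (Or.inl ⟨s, ?_⟩)
    change Δ.σ u ^ p ^ s = 1
    rw [← map_pow, hs, map_one]
  · refine Subgroup.subset_closure (Or.inr ⟨Δ.σ a, ?_⟩)
    change (Δ.σ ^ d) (Δ.σ a) * (Δ.σ a)⁻¹ = Δ.σ ((Δ.σ ^ d) a * a⁻¹)
    rw [map_mul, map_inv, ← MulAut.mul_apply, ← MulAut.mul_apply, ← pow_succ, ← pow_succ']

/-- the induced automorphism -/
noncomputable def sbar [Finite A] (Δ : Dat A) (p d : ℕ) : MulAut (A ⧸ A0 Δ p d) :=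
  MulEquiv.ofBijective (QuotientGroup.map _ _ Δ.σ.toMonoidHom (A0_le Δ p d)) (by
    have hs : Function.Surjective (QuotientGroup.map _ _ Δ.σ.toMonoidHom (A0_le Δ p d)) := by
      intro x
      obtain ⟨a, rfl⟩ := QuotientGroup.mk_surjective x
      exact ⟨QuotientGroup.mk (Δ.σ.symm a), by simp⟩
    exact ⟨Finite.injective_iff_surjective.2 hs, hs⟩)

theorem sbar_mk [Finite A] (Δ : Dat A) (p d : ℕ) (a : A) :
    sbar Δ p d (QuotientGroup.mk a) = QuotientGroup.mk (Δ.σ a) := rfl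

theorem sbar_pow_mk [Finite A] (Δ : Dat A) (p d i : ℕ) (a : A) :
    (sbar Δ p d ^ i) (QuotientGroup.mk a) = QuotientGroup.mk ((Δ.σ ^ i) a) := by
  induction i with
  | zero => simp
  | succ i ih => rw [pow_succ', pow_succ', MulAut.mul_apply, MulAut.mul_apply, ih, sbar_mk]

/-- the data on the quotient -/
noncomputable def Dbar [Finite A] (Δ : Dat A) (p d : ℕ) (hd : 0 < d) : Dat (A ⧸ A0 Δ p d) where
  σ := sbar Δ p d
  m := d
  m_pos := hd
  c := 1
  σ_pow := by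
    refine MulEquiv.ext fun x => ?_
    obtain ⟨a, rfl⟩ := QuotientGroup.mk_surjective x
    rw [sbar_pow_mk, MulAut.one_apply, eq_comm, QuotientGroup.eq, mul_comm]
    exact Subgroup.subset_closure (Or.inr ⟨a, rfl⟩)
  σ_c := map_one _

theorem ver_mk [Finite A] (Δ : Dat A) (p d : ℕ) (hd : 0 < d) (r s : ℕ) (a : A) :
    ver (Dbar Δ p d hd) r s (QuotientGroup.mk a) = QuotientGroup.mk (ver Δ r s a) := by
  unfold ver
  rw [← QuotientGroup.mk'_apply (A0 Δ p d) (∏ t ∈ range s, _), map_prod]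
  exact prod_congr rfl fun t _ => sbar_pow_mk Δ p d _ a

/-- the map of group rings -/
noncomputable def piR (Δ : Dat A) (p d : ℕ) :
    MonoidAlgebra ℤ A →+* MonoidAlgebra ℤ (A ⧸ A0 Δ p d) :=
  MonoidAlgebra.mapDomainRingHom ℤ (QuotientGroup.mk' (A0 Δ p d))

theorem piR_single (Δ : Dat A) (p d : ℕ) (a : A) (x : ℤ) :
    piR Δ p d (MonoidAlgebra.single a x) = MonoidAlgebra.single (QuotientGroup.mk a) x := by
  simp [piR]

theorem piR_sg [Finite A] (Δ : Dat A) (p d : ℕ) (hd : 0 < d) (i : ℕ) (b : MonoidAlgebra ℤ A) :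
    piR Δ p d (sg Δ i b) = sg (Dbar Δ p d hd) i (piR Δ p d b) := by
  have : (piR Δ p d).comp (sg Δ i) = (sg (Dbar Δ p d hd) i).comp (piR Δ p d) := by
    refine MonoidAlgebra.ringHom_ext (fun x => ?_) fun a => ?_
    · simp [sg_single, piR_single]
    · simp only [RingHom.comp_apply, sg_single, piR_single]
      exact congrArg (fun z => MonoidAlgebra.single z (1 : ℤ)) (sbar_pow_mk Δ p d i a).symm
  exact DFunLike.congr_fun this b

theorem piR_trc [Finite A] (Δ : Dat A) (p d : ℕ) (hd : 0 < d) (b : MonoidAlgebra ℤ A) :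
    piR Δ p d (trc Δ d b) = trc (Dbar Δ p d hd) d (piR Δ p d b) := by
  unfold trc
  rw [map_sum]
  exact sum_congr rfl fun i _ => piR_sg Δ p d hd i b

theorem piR_sum (Δ : Dat A) (p d : ℕ) {M : Type} [AddCommGroup M] (v : A ⧸ A0 Δ p d → M)
    (b : MonoidAlgebra ℤ A) :
    ((piR Δ p d b).coeff.sum fun a z => z • v a) =
      b.coeff.sum fun a z => z • v (QuotientGroup.mk a) := by
  have : (piR Δ p d b).coeff = Finsupp.mapDomain (QuotientGroup.mk' (A0 Δ p d)) b.coeff := by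
    simp [piR]
  rw [this]
  exact Finsupp.sum_mapDomain_index (h := fun a (z : ℤ) => z • v a) (fun _ => zero_smul _ _)
    fun _ _ _ => add_smul _ _ _

theorem exists_exp [Finite A] (p : ℕ) (hp : p.Prime) :
    ∃ n0, 0 < n0 ∧ ∀ t, ∀ a : A, ∃ u : A, (∃ s : ℕ, u ^ p ^ s = 1) ∧ a ^ p ^ (n0 * t) = a * u := by
  have h0 : Nat.card A ≠ 0 := Nat.card_pos.ne'
  obtain ⟨s, N, hN, hc⟩ := Nat.exists_eq_pow_mul_and_not_dvd h0 p hp.ne_one
  have hN0 : 0 < N := Nat.pos_of_ne_zero (by rintro rfl; simp at hN)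
  have hco : p.Coprime N := (Nat.Prime.coprime_iff_not_dvd hp).2 hN
  refine ⟨N.totient, Nat.totient_pos.2 hN0, fun t a => ⟨a ^ (p ^ (N.totient * t) - 1), ⟨s, ?_⟩, ?_⟩⟩
  · have h1 : p ^ (N.totient * t) ≡ 1 [MOD N] := by
      have := (Nat.ModEq.pow_totient hco).pow t
      rwa [one_pow, ← pow_mul] at this
    have h2 : N ∣ p ^ (N.totient * t) - 1 :=
      (Nat.modEq_iff_dvd' (Nat.one_le_pow _ _ hp.pos)).1 h1.symm
    obtain ⟨c, hc'⟩ := h2
    rw [← pow_mul, hc', show N * c * p ^ s = Nat.card A * c by rw [hc]; ring, pow_mul,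
      pow_card_eq_one', one_pow]
  · rw [← pow_succ', Nat.sub_add_cancel (Nat.one_le_pow _ _ hp.pos)]

theorem core (hK : KER_st) [Finite A] (Δ : Dat A) (p d : ℕ) (hp : p.Prime) (hd : 0 < d)
    (M : Type) [AddCommGroup M] (w : A → M) (hM : ∀ x : M, p • x = 0)
    (h1 : ∀ a u, (∃ s : ℕ, u ^ p ^ s = 1) → w (a * u) = w a)
    (h2 : ∀ a a', w (a * (Δ.σ ^ d) a' * a'⁻¹) = w a) (h3 : ∀ a, w (Δ.σ a) = w a)
    (h4 : p ∣ d → ∀ a, w (ver Δ (d / p) p a) = 0) :
    ∃ n0, 0 < n0 ∧ ∀ t, 0 < t → ∀ b : MonoidAlgebra ℤ A,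
      ((b * trc Δ d b ^ (p ^ (n0 * t) - 1)).coeff.sum fun a z => z • w a) =
        b.coeff.sum fun a z => z • w a := by
  have hA : ∀ u ∈ A0 Δ p d, ∀ a, w (a * u) = w a := by
    intro u hu
    induction hu using Subgroup.closure_induction with
    | mem u hu =>
      rcases hu with hu | ⟨a', rfl⟩
      · exact fun a => h1 a u hu
      · intro a
        rw [← mul_assoc, h2]
    | one => simp
    | mul u v _ _ hu hv => intro a; rw [← mul_assoc, hv, hu]
    | inv u _ hu => intro a; rw [← hu (a * u⁻¹), inv_mul_cancel_right]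
  have hv : ∀ a : A, w (QuotientGroup.mk a : A ⧸ A0 Δ p d).out = w a := by
    intro a
    obtain ⟨u, hu⟩ := QuotientGroup.mk_out_eq_mul (A0 Δ p d) a
    rw [hu, hA u u.2]
  obtain ⟨n0, hn0, hn⟩ := exists_exp (A := A) p hp
  refine ⟨n0, hn0, fun t ht b => ?_⟩
  have key := hK (A ⧸ A0 Δ p d) (Dbar Δ p d hd) p (n0 * t) hp (Nat.mul_pos hn0 ht) (by
      intro x
      obtain ⟨a, rfl⟩ := QuotientGroup.mk_surjective x
      obtain ⟨u, hu, he⟩ := hn t a
      rw [← QuotientGroup.mk_pow, he, eq_comm, QuotientGroup.eq, inv_mul_cancel_left]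
      exact Subgroup.subset_closure (Or.inl hu)) M (fun x => w x.out) hM (by
      intro x
      obtain ⟨a, rfl⟩ := QuotientGroup.mk_surjective x
      change w (sbar Δ p d (QuotientGroup.mk a)).out = _
      rw [sbar_mk, hv, hv, h3]) (by
      intro hpd x
      obtain ⟨a, rfl⟩ := QuotientGroup.mk_surjective x
      rw [ver_mk, hv]
      exact h4 hpd a) (piR Δ p d b)
  change ((piR Δ p d b * trc (Dbar Δ p d hd) d (piR Δ p d b) ^ _).coeff.sum _) = _ at key
  rw [← piR_trc, ← map_pow, ← map_mul, piR_sum, piR_sum] at key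
  simpa only [hv] using key

end Pool.Agent.MP_f3cd89_nt.BjpX
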