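import Pool.Agent.MP_f3cd89_nt.AStm

/-! The span `B` is a ring; division by reduced norms of integers. -/

set_option autoImplicit false

open Finset

namespace Pool.Agent.MP_f3cd89_nt

namespace BringX

theorem prod_range_mul {M : Type} [CommMonoid M] (f : ℕ → M) (q r : ℕ) :
    ∏ u ∈ range (q * r), f u = ∏ t ∈ range q, ∏ s ∈ range r, f (t * r + s) := by
  induction q with
  | zero => simp
  | succ q ih => rw [Nat.succ_mul, prod_range_add, ih, prod_range_succ]

theorem sum_shift {M : Type} [AddCommGroup M] (f : ℕ → M) (d : ℕ) (h : ∀ x, f (x + d) = f x)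
    (i : ℕ) : ∑ j ∈ range d, f (i + j) = ∑ j ∈ range d, f j := by
  induction i with
  | zero => simp
  | succ i ih =>
    have h1 := sum_range_succ (fun j => f (i + j)) d
    have h2 := sum_range_succ' (fun j => f (i + j)) d
    rw [h1, h, add_zero] at h2
    rw [← ih, add_right_cancel h2]
    exact sum_congr rfl fun j _ => by rw [add_assoc, add_comm 1 j]

theorem sum_crt {k : Type} [CommRing k] (f g : ℕ → k) {a b : ℕ} (ha : 0 < a) (hb : 0 < b)
    (hf : ∀ x, f (x % a) = f x) (hg : ∀ x, g (x % b) = g x) :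
    (∑ i ∈ range a, f i) * ∑ i ∈ range b, g i =
      ∑ i ∈ range (a.gcd b), ∑ j ∈ range (a.lcm b), f j * g (j + i) := by
  rw [sum_mul_sum, ← sum_product', ← sum_product']
  have h1 : ∀ x ∈ range (a.gcd b) ×ˢ range (a.lcm b),
      (x.2 % a, (x.2 + x.1) % b) ∈ range a ×ˢ range b := fun x _ =>
    mem_product.2 ⟨mem_range.2 (Nat.mod_lt _ ha), mem_range.2 (Nat.mod_lt _ hb)⟩
  have h2 : ∀ x ∈ range (a.gcd b) ×ˢ range (a.lcm b), ∀ y ∈ range (a.gcd b) ×ˢ range (a.lcm b),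
      (x.2 % a, (x.2 + x.1) % b) = (y.2 % a, (y.2 + y.1) % b) → x = y := by
    rintro ⟨i, j⟩ hx ⟨i', j'⟩ hy e
    simp only [mem_product, mem_range] at hx hy
    have e1 : j ≡ j' [MOD a] := (Prod.mk.inj e).1
    have e2 : j + i ≡ j' + i' [MOD b] := (Prod.mk.inj e).2
    have e3 : i ≡ i' [MOD a.gcd b] := Nat.ModEq.add_left_cancel
      (e1.of_dvd (Nat.gcd_dvd_left a b)) (e2.of_dvd (Nat.gcd_dvd_right a b))
    obtain rfl := e3.eq_of_lt_of_lt hx.1 hy.1
    have e4 : j ≡ j' [MOD a.lcm b] := Nat.mod_lcm e1 (Nat.ModEq.add_right_cancel' i e2)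
    rw [e4.eq_of_lt_of_lt hx.2 hy.2]
  refine (sum_bij (fun x _ => (x.2 % a, (x.2 + x.1) % b)) h1 h2 (fun y hy => ?_)
    fun x _ => by rw [hf, hg]).symm
  obtain ⟨x, hx, e⟩ := surj_on_of_inj_on_of_card_le (fun x _ => (x.2 % a, (x.2 + x.1) % b)) h1
    (fun x y hx hy => h2 x hx y hy) (by simp [Nat.gcd_mul_lcm]) y hy
  exact ⟨x, hx, e.symm⟩

variable {A : Type} [CommGroup A] {Δ : Dat A} {k : Type} [CommRing k]

/-- a summand of `V` -/
noncomputable def F (P : Pt Δ k) (d : ℕ) (a : A) (e : ℤ) (i : ℕ) : k :=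
  ∏ t ∈ range (P.d / d), (((P.η ((Δ.σ ^ (i + t * d)) a) : kˣ) : k) * ((P.ω ^ e : kˣ) : k))

theorem V_eq (P : Pt Δ k) (d : ℕ) (a : A) (e : ℤ) :
    V d a e P = if d ∣ P.d then ∑ i ∈ range d, F P d a e i else 0 := by
  simp only [V, W, F, lam_of]

theorem F_down (P : Pt Δ k) {d : ℕ} (h : d ∣ P.d) (a : A) (e : ℤ) (i : ℕ) :
    F P d a e i = lam (P.down d h) i (MonoidAlgebra.of ℤ A a) *
      ((P.ω ^ e : kˣ) : k) ^ (P.d / d) := by
  rw [F, prod_mul_distrib, prod_const, card_range, lam_of, Pt.down_η, ver, map_prod,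
    Units.coe_prod]
  congr 1
  exact prod_congr rfl fun t _ => by rw [add_comm, pow_add, MulAut.mul_apply]

theorem F_mod (P : Pt Δ k) {d : ℕ} (h : d ∣ P.d) (a : A) (e : ℤ) (i : ℕ) :
    F P d a e (i % d) = F P d a e i := by
  rw [F_down P h, F_down P h, ← lam_add_mul (P.down d h) (i % d) (i / d)]
  exact congrArg (fun x => lam (P.down d h) x _ * _) (Nat.mod_add_div' i d)

theorem F_mul (P : Pt Δ k) (d : ℕ) (a a' : A) (e e' : ℤ) (i : ℕ) :
    F P d (a * a') (e + e') i = F P d a e i * F P d a' e' i := by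
  simp only [F, ← prod_mul_distrib, map_mul, zpow_add, Units.val_mul]
  exact prod_congr rfl fun t _ => by ring

theorem F_pow (P : Pt Δ k) (d : ℕ) (a : A) (e : ℤ) (i j : ℕ) :
    F P d ((Δ.σ ^ i) a) e j = F P d a e (j + i) :=
  prod_congr rfl fun t _ => by rw [← MulAut.mul_apply, ← pow_add, add_right_comm]

theorem F_ver (P : Pt Δ k) {d r l : ℕ} (hl : l = d * r) (h : l ∣ P.d) (a : A) (e : ℤ) (j : ℕ) :
    F P l (ver Δ d r a) (e * r) j = F P d a e j := by
  subst hl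
  obtain ⟨q, hq⟩ := h
  have h0 : 0 < d * r := Nat.pos_of_mul_pos_right (hq ▸ P.d_pos)
  have e1 : P.d / (d * r) = q := by rw [hq, Nat.mul_div_cancel_left _ h0]
  have e2 : P.d / d = q * r := by
    rw [hq, mul_assoc, Nat.mul_div_cancel_left _ (Nat.pos_of_mul_pos_right h0), mul_comm]
  rw [F, F, e1, e2, prod_range_mul]
  refine prod_congr rfl fun t _ => ?_
  rw [prod_mul_distrib, prod_const, card_range, ver, map_prod, map_prod, Units.coe_prod, zpow_mul,
    zpow_natCast, Units.val_pow_eq_pow_val]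
  congr 1
  refine prod_congr rfl fun s _ => ?_
  rw [← MulAut.mul_apply, ← pow_add, show j + t * (d * r) + s * d = j + (t * r + s) * d by ring]

theorem V_mul {d d' : ℕ} (hd : d ∣ Δ.m) (hd' : d' ∣ Δ.m) (a a' : A) {e e' : ℤ}
    (he : (d : ℤ) ∣ e) (he' : (d' : ℤ) ∣ e') : (V d a e * V d' a' e' : Pt Δ k → k) ∈ B Δ k := by
  obtain ⟨r, hr⟩ := Nat.dvd_lcm_left d d'
  obtain ⟨r', hr'⟩ := Nat.dvd_lcm_right d d'
  have key : (V d a e * V d' a' e' : Pt Δ k → k) = ∑ i ∈ range (d.gcd d'),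
      V (d.lcm d') (ver Δ d r a * (Δ.σ ^ i) (ver Δ d' r' a')) (e * r + e' * r') := by
    funext P
    rw [Pi.mul_apply, Finset.sum_apply]
    simp only [V_eq]
    by_cases h : d.lcm d' ∣ P.d
    · have h1 := (Nat.dvd_lcm_left d d').trans h
      have h2 := (Nat.dvd_lcm_right d d').trans h
      simp only [if_pos h, if_pos h1, if_pos h2, F_mul, F_pow, F_ver P hr h, F_ver P hr' h]
      exact sum_crt _ _ (Nat.pos_of_dvd_of_pos hd Δ.m_pos) (Nat.pos_of_dvd_of_pos hd' Δ.m_pos)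
        (F_mod P h1 a e) (F_mod P h2 a' e')
    · simp only [if_neg h, sum_const_zero]
      by_cases h1 : d ∣ P.d
      · rw [if_neg fun h2 : d' ∣ P.d => h (Nat.lcm_dvd h1 h2), mul_zero]
      · rw [if_neg h1, zero_mul]
  rw [key]
  refine sum_mem fun i _ => V_mem _ (Nat.lcm_dvd hd hd') (dvd_add ?_ ?_)
  · rw [hr, Nat.cast_mul]
    exact mul_dvd_mul_right he _
  · rw [hr', Nat.cast_mul]
    exact mul_dvd_mul_right he' _

theorem Vl_eq (P : Pt Δ k) {d : ℕ} (h : d ∣ P.d) (b : MonoidAlgebra ℤ A) :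
    Vl d b 0 P = ∑ i ∈ range d, lam (P.down d h) i b := by
  induction b using MonoidAlgebra.induction_linear with
  | zero => simp [Vl_zero]
  | add b b' hb hb' => simp only [Vl_add, Pi.add_apply, hb, hb', map_add, sum_add_distrib]
  | single a z =>
    rw [Vl_single, Pi.smul_apply, V_eq, if_pos h, smul_sum]
    refine sum_congr rfl fun i _ => ?_
    rw [F_down P h, lam_of, lam_single]
    simp

theorem Vl_eq_zero (P : Pt Δ k) {d : ℕ} (h : ¬d ∣ P.d) (b : MonoidAlgebra ℤ A) (e : ℤ) :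
    Vl d b e P = 0 := by
  induction b using MonoidAlgebra.induction_linear with
  | zero => simp [Vl_zero]
  | add b b' hb hb' => rw [Vl_add, Pi.add_apply, hb, hb', add_zero]
  | single a z => rw [Vl_single, Pi.smul_apply, V_eq, if_neg h, smul_zero]

theorem V_one (P : Pt Δ k) (d : ℕ) : V d 1 0 P = if d ∣ P.d then (d : k) else 0 := by
  simp [V_eq, F]

theorem ind_mem : ∀ (n d : ℕ), Δ.m - d = n → d ∣ Δ.m →
    (fun P : Pt Δ k => if P.d = d then (Δ.m : k) else 0) ∈ B Δ k := by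
  intro n
  induction n using Nat.strong_induction_on with
  | _ n ih =>
  intro d hn hd
  have e : (fun P : Pt Δ k => if P.d = d then (Δ.m : k) else 0) = (Δ.m / d) • V d 1 0 -
      ∑ d' ∈ Δ.m.divisors.filter (fun d' => d ∣ d' ∧ d' ≠ d),
        fun P : Pt Δ k => if P.d = d' then (Δ.m : k) else 0 := by
    funext P
    rw [Pi.sub_apply, Pi.smul_apply, Finset.sum_apply, sum_ite_eq, V_one]
    have hm : (Δ.m / d) • (d : k) = Δ.m := by
      rw [nsmul_eq_mul, ← Nat.cast_mul, Nat.div_mul_cancel hd]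
    simp only [mem_filter, Nat.mem_divisors, P.d_dvd, Δ.m_pos.ne', ne_eq, not_false_eq_true,
      and_self, true_and]
    by_cases h1 : P.d = d
    · simp [h1, hm]
    · by_cases h2 : d ∣ P.d
      · simp [h1, h2, hm]
      · simp [h1, h2]
  rw [e]
  refine sub_mem (nsmul_mem (V_mem _ hd (dvd_zero _)) _) (sum_mem fun d' hd' => ?_)
  obtain ⟨h1, h2, h3⟩ := mem_filter.1 hd'
  have h4 := Nat.dvd_of_mem_divisors h1
  have h5 := Nat.le_of_dvd Δ.m_pos h4
  have h6 := Nat.le_of_dvd (Nat.pos_of_dvd_of_pos h4 Δ.m_pos) h2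
  exact ih (Δ.m - d') (by omega) d' rfl h4

end BringX

open BringX in
theorem bring (_hB : BASE_st) : BRING_st := by
  intro A _ Δ k _
  refine ⟨?_, fun f hf g hg => ?_, fun d b b' => ?_, fun g => ?_⟩
  · have e : (1 : Pt Δ k → k) = V 1 1 0 := funext fun P => by simp [V_one]
    rw [e]
    exact V_mem _ (one_dvd _) (dvd_zero _)
  · refine (AddSubgroup.closure_le ((B Δ k).comap (AddMonoidHom.mulRight g))).2 ?_ hf
    rintro _ ⟨d, a, e, hd, he, rfl⟩
    refine (AddSubgroup.closure_le ((B Δ k).comap (AddMonoidHom.mulLeft (V d a e)))).2 ?_ hg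
    rintro _ ⟨d', a', e', hd', he', rfl⟩
    exact V_mul hd hd' a a' he he'
  · funext P
    rw [Pi.mul_apply]
    by_cases h : d ∣ P.d
    · rw [Vl_eq P h, Vl_eq P h, Vl_eq P h, sum_mul]
      refine sum_congr rfl fun i _ => ?_
      rw [map_mul, trc, map_sum]
      simp only [lam_sg]
      rw [sum_shift (fun j => lam (P.down d h) j b') d (fun x => by
        have := lam_add_mul (P.down d h) x 1
        rw [one_mul] at this
        exact DFunLike.congr_fun this b') i]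
    · rw [Vl_eq_zero P h, Vl_eq_zero P h (b * _), zero_mul]
  · have e : (fun P : Pt Δ k => (Δ.m : k) * (g P.d : k)) = ∑ d ∈ Δ.m.divisors,
        g d • fun P : Pt Δ k => if P.d = d then (Δ.m : k) else 0 := by
      funext P
      rw [Finset.sum_apply]
      simp only [Pi.smul_apply, smul_ite, smul_zero, sum_ite_eq, Nat.mem_divisors, P.d_dvd,
        Δ.m_pos.ne', ne_eq, not_false_eq_true, and_self, if_true]
      rw [zsmul_eq_mul, mul_comm]
    rw [e]
    exact sum_mem fun d hd => zsmul_mem (ind_mem _ d rfl (Nat.dvd_of_mem_divisors hd)) _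

theorem invd (hB : BRING_st) (hR : RING_st) (hJ : JB_st) : INVD_st := by
  intro A _ Δ p θ n u hp hn hu hβ
  obtain ⟨-, hm, -, h4⟩ := hB A Δ ℂ
  obtain ⟨a, m, hpm, em⟩ := Nat.exists_eq_pow_mul_and_not_dvd Δ.m_pos.ne' p hp.ne_one
  have hc : IsCoprime (p : ℤ) n := (Nat.prime_iff_prime_int.1 hp).coprime_iff_not_dvd.2 hn
  obtain ⟨x, y, hxy⟩ := hc.pow_left (m := 2 * a)
  have hg : ∀ d : ℕ, ∃ c : ℤ, (y * n) ^ d - 1 = (p : ℤ) ^ (2 * a) * c := fun d => by
    have h1 := sub_dvd_pow_sub_pow (y * n) 1 d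
    rw [one_pow] at h1
    exact Dvd.dvd.trans ⟨-x, by linear_combination hxy⟩ h1
  choose g hg using hg
  have h1 := hm _ (h4 fun d => n ^ (Δ.m - d)) _ hβ
  have h2 := hm _ (hJ A Δ ℂ ((hR A Δ ℂ).2.2.2.1 y)) _ hβ
  have h3 := sub_mem (zsmul_mem h2 (m * u * n ^ Δ.m * m)) (nsmul_mem (hm _ (h4 g) _ h1) u)
  have h5 : ((m * u * n ^ Δ.m * m * u : ℤ)) • θ ∈ B Δ ℂ := by
    convert h3 using 1
    funext P
    have e1 : (n : ℂ) ^ (Δ.m - P.d) * n ^ P.d = n ^ Δ.m :=
      pow_sub_mul_pow _ (Nat.le_of_dvd Δ.m_pos P.d_dvd)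
    have e2 : ((y : ℂ) * n) ^ P.d - 1 = (p : ℂ) ^ (2 * a) * g P.d := by exact_mod_cast hg P.d
    have e3 : (Δ.m : ℂ) = (p : ℂ) ^ a * m := by exact_mod_cast em
    simp only [Pi.sub_apply, Pi.smul_apply, Pi.mul_apply]
    simp only [zsmul_eq_mul, nsmul_eq_mul]
    push_cast
    rw [mul_pow, two_mul, pow_add] at e2
    rw [e3, ← e1]
    linear_combination (-(m * u * (n : ℂ) ^ (Δ.m - P.d) * n ^ P.d * m * u * θ P)) * e2
  refine ⟨(m * u * n ^ Δ.m * m * u : ℤ).natAbs, ?_, ?_⟩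
  · have c1 : m.Coprime p := ((Nat.Prime.coprime_iff_not_dvd hp).2 hpm).symm
    have c2 : n.natAbs.Coprime p :=
      ((Nat.Prime.coprime_iff_not_dvd hp).2 fun h => hn (Int.natCast_dvd.2 h)).symm
    simp only [Int.natAbs_mul, Int.natAbs_pow, Int.natAbs_natCast]
    exact (((c1.mul_left hu).mul_left (c2.pow_left _)).mul_left c1).mul_left hu
  · generalize (m * u * n ^ Δ.m * m * u : ℤ) = z at h5
    rcases Int.natAbs_eq z with e | e
    · rwa [e, natCast_zsmul] at h5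
    · rwa [e, neg_smul, neg_mem_iff, natCast_zsmul] at h5

end Pool.Agent.MP_f3cd89_nt
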