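import Pool.Agent.MP_f3cd89_nt.SStm

/-! Statements of the steps of the proof of the Artin reciprocity law. -/

set_option autoImplicit false

open Finset NumberField IsDedekindDomain

namespace Pool.Agent.MP_f3cd89_nt

/-- Frobenius elements and decomposition groups at unramified primes -/
def FB_st : Prop := ∀ (F L G : Type) [Field F] [NumberField F] [Field L] [NumberField L]
  [Algebra F L] [Group G] [Finite G] [MulSemiringAction G L] [IsGaloisGroup G F L],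
  (∀ (g : G) (w : Pr L), (gact g w).under (𝓞 F) = w.under (𝓞 F)) ∧
  (∀ w w' : Pr L, w.under (𝓞 F) = w'.under (𝓞 F) → ∃ g : G, gact g w = w') ∧
  (∀ w : Pr L, ∃ g : G, IsArithFrobAt (𝓞 F) g w.asIdeal) ∧
  (∀ S : Finset (Pr F), ∃ φ : Pr F → G, IsFrob L S φ) ∧
  (∀ (w : Pr L) (g h : G), IsArithFrobAt (𝓞 F) g w.asIdeal →
    IsArithFrobAt (𝓞 F) (h * g * h⁻¹) (gact h w).asIdeal) ∧
  (∀ w : Pr L, w.asIdeal.inertia G = ⊥ ↔ w.asIdeal.ramificationIdx (𝓞 F) = 1) ∧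
  (∀ w : Pr L, Algebra.IsUnramifiedAt (𝓞 F) w.asIdeal → w.asIdeal.inertia G = ⊥) ∧
  ∀ (w : Pr L) (g : G), w.asIdeal.inertia G = ⊥ → IsArithFrobAt (𝓞 F) g w.asIdeal →
    (∀ g' : G, IsArithFrobAt (𝓞 F) g' w.asIdeal → g' = g) ∧
    (∀ h : G, gact h w = w ↔ h ∈ Subgroup.zpowers g) ∧
    nrm w = nrm (w.under (𝓞 F)) ^ orderOf g

/-- Frobenius elements in towers -/
def TOW_st : Prop := ∀ (F E L G : Type) [Field F] [NumberField F] [Field E] [NumberField E]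
  [Field L] [NumberField L] [Algebra F E] [Algebra E L] [Algebra F L] [IsScalarTower F E L]
  [Group G] [Finite G] [MulSemiringAction G L] [IsGaloisGroup G F L],
  (∀ w : Pr L, (w.under (𝓞 E)).under (𝓞 F) = w.under (𝓞 F)) ∧
  (∀ w : Pr L, w.asIdeal.inertia G = ⊥ → ∀ x : F,
    ord (w.under (𝓞 E)) (algebraMap F E x) = ord (w.under (𝓞 F)) x) ∧
  (∀ (U : Type) [Group U] [Finite U] [MulSemiringAction U L] [IsGaloisGroup U E L] (i : U →* G),
    (∀ (u : U) (x : L), i u • x = u • x) →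
    (∀ w : Pr L, w.asIdeal.inertia G = ⊥ → w.asIdeal.inertia U = ⊥) ∧
    (∀ (u : U) (w : Pr L), gact (i u) w = gact u w) ∧
    (∀ S : Finset (Pr F), Unr L G S → Unr L U (above E S)) ∧
    ∀ (w : Pr L) (g : G) (f : ℕ), w.asIdeal.inertia G = ⊥ → IsArithFrobAt (𝓞 F) g w.asIdeal →
      (∀ n : ℕ, g ^ n ∈ i.range ↔ f ∣ n) →
      nrm (w.under (𝓞 E)) = nrm (w.under (𝓞 F)) ^ f ∧
      (w.under (𝓞 E)).asIdeal.inertiaDeg (𝓞 F) = f ∧
      ∀ u : U, i u = g ^ f → IsArithFrobAt (𝓞 E) u w.asIdeal) ∧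
  ∀ (G' : Type) [Group G'] [Finite G'] [MulSemiringAction G' E] [IsGaloisGroup G' F E]
    (r : G →* G'), (∀ (g : G) (x : E), g • algebraMap E L x = algebraMap E L (r g • x)) →
    (∀ S : Finset (Pr F), Unr L G S → Unr E G' S) ∧
    (∀ (w : Pr L) (g : G), IsArithFrobAt (𝓞 F) g w.asIdeal →
      IsArithFrobAt (𝓞 F) (r g) (w.under (𝓞 E)).asIdeal) ∧
    ∀ (S : Finset (Pr F)) (φ : Pr F → G), IsFrob L S φ → IsFrob E S fun v => r (φ v)

/-- the norm map of a cyclic group action -/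
def nmH {A : Type} [AddCommGroup A] (σ : AddMonoid.End A) (n : ℕ) : AddMonoid.End A :=
  ∑ i ∈ range n, σ ^ i

/-- the order of the zeroth Tate cohomology group of the subgroup `E` -/
noncomputable def hz {A : Type} [AddCommGroup A] (σ : AddMonoid.End A) (n : ℕ) (E : AddSubgroup A) :
    ℕ := (E.map (nmH σ n)).relIndex (E ⊓ AddMonoidHom.ker (σ - 1 : AddMonoid.End A))

/-- the order of the first cohomology group of the subgroup `E` -/
noncomputable def ho {A : Type} [AddCommGroup A] (σ : AddMonoid.End A) (n : ℕ) (E : AddSubgroup A) :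
    ℕ := (E.map (σ - 1 : AddMonoid.End A)).relIndex (E ⊓ AddMonoidHom.ker (nmH σ n))

/-- the Herbrand quotient argument -/
def HERB_st : Prop := ∀ (A I : Type) [AddCommGroup A] [AddCommGroup I] (σ : AddMonoid.End A)
  (τ : AddMonoid.End I) (n : ℕ) (V : AddSubgroup A) (j : A →+ I), σ ^ n = 1 → τ ^ n = 1 →
  (∀ a ∈ V, σ a ∈ V) → (∀ a, j (σ a) = τ (j a)) → (V.map j).index ≠ 0 →
  (∀ a ∈ V, nmH σ n a = 0 → ∃ b ∈ V, a = σ b - b) → (∀ x, nmH τ n x = 0 → ∃ y, x = τ y - y) →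
  hz σ n (V ⊓ j.ker) ≠ 0 →
  ((V ⊓ AddMonoidHom.ker (σ - 1 : AddMonoid.End A)).map j ⊔ AddMonoidHom.range (nmH τ n)).relIndex
    (AddMonoidHom.ker (τ - 1 : AddMonoid.End I)) ≠ 0 →
  ho σ n (V ⊓ j.ker) ≤
    ((V ⊓ AddMonoidHom.ker (σ - 1 : AddMonoid.End A)).map j ⊔ AddMonoidHom.range (nmH τ n)).relIndex
      (AddMonoidHom.ker (τ - 1 : AddMonoid.End I)) * hz σ n (V ⊓ j.ker)

/-- the Herbrand quotient does not change in a subgroup of finite index -/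
def QLEM_st : Prop := ∀ (A : Type) [AddCommGroup A] (σ : AddMonoid.End A) (n : ℕ)
  (E E' : AddSubgroup A), σ ^ n = 1 → E' ≤ E → E'.relIndex E ≠ 0 → (∀ a ∈ E, σ a ∈ E) →
  (∀ a ∈ E', σ a ∈ E') → hz σ n E' ≠ 0 → ho σ n E' ≠ 0 →
  hz σ n E ≠ 0 ∧ ho σ n E ≠ 0 ∧ hz σ n E * ho σ n E' = ho σ n E * hz σ n E'

/-- the action of a field automorphism on the multiplicative group, written additively -/
def sA {L G : Type} [Field L] [Group G] [MulSemiringAction G L] (g : G) :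
    AddMonoid.End (Additive Lˣ) :=
  MonoidHom.toAdditive (Units.map (MulSemiringAction.toRingHom G L g : L →* L))

/-- the Herbrand quotient of the units of a totally real cyclic extension -/
def UNITH_st : Prop := ∀ (L G : Type) [Field L] [NumberField L] [IsTotallyReal L] [Group G]
  [Finite G] [MulSemiringAction G L] [FaithfulSMul G L] (γ : G) (E : AddSubgroup (Additive Lˣ))
  (M : ℕ), (∀ g, g ∈ Subgroup.zpowers γ) → (∀ a ∈ E, sA γ a ∈ E) →
  (∀ a ∈ E, dv ((Additive.toMul a : Lˣ) : L) = 0) → 0 < M →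
  (∀ a : Additive Lˣ, dv ((Additive.toMul a : Lˣ) : L) = 0 → M • a ∈ E) →
  hz (sA γ) (Nat.card G) E ≠ 0 ∧ ho (sA γ) (Nat.card G) E = Nat.card G * hz (sA γ) (Nat.card G) E

/-- a subgroup with trivial first cohomology -/
def VLAT_st : Prop := ∀ (F L G : Type) [Field F] [NumberField F] [Field L] [NumberField L]
  [Algebra F L] [Group G] [Finite G] [MulSemiringAction G L] [IsGaloisGroup G F L] (γ : G)
  (S : Finset (Pr F)), S.Nonempty → (∀ g, g ∈ Subgroup.zpowers γ) →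
  ∃ (V : AddSubgroup (Additive Lˣ)) (N : ℕ), 0 < N ∧ (∀ a ∈ V, sA γ a ∈ V) ∧
    (∀ a ∈ V, Cong (above L S) 1 ((Additive.toMul a : Lˣ) : L)) ∧
    (∀ a : Additive Lˣ, Cong (above L S) N ((Additive.toMul a : Lˣ) : L) → a ∈ V) ∧
    ∀ a ∈ V, nmH (sA γ) (Nat.card G) a = 0 → ∃ b ∈ V, a = sA γ b - b

/-- principal divisors of the ray together with prescribed multiples of the primes outside `S'` -/
noncomputable def HF {F : Type} [Field F] [NumberField F] (S S' : Finset (Pr F)) (N : ℕ)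
    (o : Pr F → ℕ) : AddSubgroup (Pr F →₀ ℤ) :=
  AddSubgroup.closure ({D | ∃ x, Ray S N x ∧ D = dv x} ∪
    {D | ∃ v, v ∉ S' ∧ D = Finsupp.single v (o v : ℤ)})

/-- the first inequality -/
def FI_st : Prop := ∀ (F L G : Type) [Field F] [NumberField F] [Field L] [NumberField L]
  [IsTotallyReal L] [Algebra F L] [Group G] [Finite G] [MulSemiringAction G L] [IsGaloisGroup G F L]
  (S : Finset (Pr F)) (φ : Pr F → G), IsCyclic G → S.Nonempty → Unr L G S → IsFrob L S φ →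
  ∃ N : ℕ, 0 < N ∧ Nat.card G ≤ (HF S S N fun v => orderOf (φ v)).relIndex (off S)

open Classical Filter Topology Asymptotics in
/-- the density of primes with Frobenius in a normal subgroup -/
def DENS_st : Prop := ∀ (F L G : Type) [Field F] [NumberField F] [Field L] [NumberField L]
  [Algebra F L] [Group G] [Finite G] [MulSemiringAction G L] [IsGaloisGroup G F L]
  (S : Finset (Pr F)) (φ : Pr F → G) (U : Subgroup G), U.Normal → Unr L G S → IsFrob L S φ →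
  ((fun s : ℝ => (U.index : ℝ) * (∑' v : Pr F, if v ∉ S ∧ φ v ∈ U then (nrm v : ℝ) ^ (-s) else 0) +
    Real.log (s - 1)) =O[𝓝[>] 1] fun _ => (1 : ℝ)) ∧
  ((∀ v, v ∉ S → φ v ∈ U) → U = ⊤)

/-- the second inequality -/
def SI_st : Prop := ∀ (F L G : Type) [Field F] [NumberField F] [IsTotallyReal F] [Field L]
  [NumberField L] [Algebra F L] [Group G] [Finite G] [MulSemiringAction G L] [IsGaloisGroup G F L]
  (S : Finset (Pr F)) (φ : Pr F → G) (U : Subgroup G) (N : ℕ) (H : AddSubgroup (Pr F →₀ ℤ)),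
  U.Normal → Unr L G S → IsFrob L S φ → 0 < N → (∀ x, Ray S N x → dv x ∈ H) →
  (∀ v, v ∉ S → φ v ∈ U → Finsupp.single v 1 ∈ H) →
  H.relIndex (off S) ≠ 0 ∧ H.relIndex (off S) ≤ U.index

/-- reciprocity for cyclotomic characters, and norms of elements of rays -/
def CYC_st : Prop :=
  (∀ (E : Type) [Field E] [NumberField E] [IsTotallyReal E] (m : ℕ) (S : Finset (Pr E))
    (ν : Pr E → (ZMod m)ˣ), 0 < m → (∀ w : Pr E, (m : 𝓞 E) ∈ w.asIdeal → w ∈ S) →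
    (∀ w, w ∉ S → (ν w : ZMod m) = nrm w) → ∃ N : ℕ, 0 < N ∧ ∀ N', N ≤ N' → IsRay S N' ν) ∧
  ∀ (F E : Type) [Field F] [NumberField F] [Field E] [NumberField E] [IsTotallyReal E] [Algebra F E]
    [IsGalois F E] (S : Finset (Pr F)) (N : ℕ), ∃ N₀ : ℕ, 0 < N₀ ∧ ∀ N', N₀ ≤ N' →
      ∀ y, Ray (above E S) N' y → Ray S N (Algebra.norm F y)

/-- norms of divisors from the fixed field of `H` -/
noncomputable def DH {F G : Type} [Field F] [NumberField F] [Group G] (S : Finset (Pr F))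
    (φ : Pr F → G) (H : Subgroup G) : AddSubgroup (Pr F →₀ ℤ) :=
  AddSubgroup.closure {D | ∃ (v : Pr F) (f : ℕ), v ∉ S ∧ φ v ^ f ∈ H ∧ D = Finsupp.single v (f : ℤ)}

/-- crossing with a cyclotomic extension -/
def XL_st : Prop := ∀ (F Ω Γ : Type) [Field F] [NumberField F] [Field Ω] [NumberField Ω]
  [Algebra F Ω] [CommGroup Γ] [Finite Γ] (m : ℕ) [NeZero m] [MulSemiringAction (Γ × (ZMod m)ˣ) Ω]
  [IsGaloisGroup (Γ × (ZMod m)ˣ) F Ω] (S S' : Finset (Pr F)) (φ : Pr F → Γ × (ZMod m)ˣ)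
  (H : Subgroup (Γ × (ZMod m)ˣ)), S ⊆ S' → Unr Ω (Γ × (ZMod m)ˣ) S' → IsFrob Ω S' φ →
  (∀ h ∈ H, ∃ D ∈ DH S' φ H, chv φ D = h) ∧
  ((∀ v : Pr F, (m : 𝓞 F) ∈ v.asIdeal → v ∈ S') → (∀ v, v ∉ S' → ((φ v).2 : ZMod m) = nrm v) →
    (∃ c ∈ H, IsCC Ω c) → (∀ g : Γ, ∃ h ∈ H, h.1 = g) → (∀ h ∈ H, h.2 = 1 → h.1 = 1) →
    ∀ N : ℕ, 0 < N → ∀ D ∈ DH S' φ H, (chv φ D).1 = 1 → D ∈ HF S S' N fun v => orderOf (φ v).1)

/-- moduli with large multiplicative order -/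
def LANG_st : Prop := ∀ a n T : ℕ, 2 ≤ a → 0 < n → T ≠ 0 → ∃ m : ℕ, 0 < m ∧ m.Coprime T ∧
  m.Coprime a ∧ ∀ k : ℕ, a ^ k ≡ 1 [MOD m] → n ∣ k

/-- the compositum with a cyclotomic field -/
def CYCLO_st : Prop := ∀ (F L G : Type) [Field F] [NumberField F] [Field L] [NumberField L]
  [Algebra F L] [Group G] [Finite G] [MulSemiringAction G L] [IsGaloisGroup G F L],
  ∃ d : ℕ, d ≠ 0 ∧ ∀ (m : ℕ) [NeZero m], m.Coprime d →
    ∃ (Ω : Type) (_ : Field Ω) (_ : NumberField Ω) (_ : Algebra F Ω)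
      (_ : MulSemiringAction (G × (ZMod m)ˣ) Ω) (_ : IsGaloisGroup (G × (ZMod m)ˣ) F Ω),
      (∀ j : G, IsCC L j → IsCC Ω ((j, -1) : G × (ZMod m)ˣ)) ∧
      ∀ S S' : Finset (Pr F), S ⊆ S' → (∀ v : Pr F, (m : 𝓞 F) ∈ v.asIdeal → v ∈ S') → Unr L G S →
        Unr Ω (G × (ZMod m)ˣ) S' ∧ ∀ φ : Pr F → G, IsFrob L S φ → ∃ ν : Pr F → (ZMod m)ˣ,
          (∀ v, v ∉ S' → (ν v : ZMod m) = nrm v) ∧ IsFrob Ω S' fun v => (φ v, ν v)

/-- reciprocity for totally real cyclic extensions -/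
def CORE_st : Prop := ∀ (F L G : Type) [Field F] [NumberField F] [Field L] [NumberField L]
  [IsTotallyReal L] [Algebra F L] [CommGroup G] [Finite G] [MulSemiringAction G L]
  [IsGaloisGroup G F L] (S : Finset (Pr F)) (φ : Pr F → G), IsCyclic G → S.Nonempty →
  Unr L G S → IsFrob L S φ → ∃ N : ℕ, 0 < N ∧ IsRay S N φ

/-- the Artin reciprocity law for CM and totally real extensions -/
def AR_st : Prop := ∀ (F L G : Type) [Field F] [NumberField F] [IsTotallyReal F] [Field L]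
  [NumberField L] [Algebra F L] [Group G] [Finite G] [MulSemiringAction G L] [IsGaloisGroup G F L]
  (j : G) (S : Finset (Pr F)) (φ : Pr F → G), IsCC L j → Unr L G S → IsFrob L S φ →
  ∃ N : ℕ, 0 < N ∧ ∀ ψ : G →* ℂˣ, IsRay S N fun v => ψ (φ v)

/-- primes that do not split in a cyclotomic extension -/
def PRIME_st : Prop := ∀ (L : Type) [Field L] [NumberField L] (p : ℕ) (S : Finset (Pr L)),
  p.Prime → (∀ x : L, x ^ p = 1 → x = 1) →
  ∃ w, w ∉ S ∧ (p : 𝓞 L) ∉ w.asIdeal ∧ ¬nrm w ≡ 1 [MOD p]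

end Pool.Agent.MP_f3cd89_nt
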