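import Pool.Agent.MP_f3cd89_nt.CellA

/-! Existence of the finite equivariant family of cells. -/

set_option autoImplicit false
set_option linter.unusedSectionVars false

open Finset
open Classical

namespace Pool.Agent.MP_f3cd89_nt.CellX

variable {ι V G Q : Type} [Fintype ι] [Nonempty ι] [AddCommGroup V] [Group G]
  [DistribMulAction G V] [MulAction G Q] {l : ℕ}

/-- the cells -/
def C0 (D : Sh ι V G Q l) (b : Q → Finset V → V) : Set (Q × Finset V) :=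
  {c | D.o ∈ D.X c.1 ∧ ∃ t, Dec D b c.1 D.o t ∧ (∀ F, t F ≤ 1) ∧ c.2 = t.support.image (b c.1)}

/-- the reduced part of a positive real -/
noncomputable def fr (r : ℝ) : ℝ := r - ((⌈r⌉₊ - 1 : ℕ) : ℝ)

theorem fr_zero : fr 0 = 0 := by simp [fr]

theorem fr_pos {r : ℝ} (h : 0 < r) : 0 < fr r := by
  have h1 : 1 ≤ ⌈r⌉₊ := Nat.one_le_iff_ne_zero.2 (Nat.ceil_pos.2 h).ne'
  have h2 := Nat.ceil_lt_add_one h.le
  rw [fr, Nat.cast_sub h1]
  push_cast
  linarith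

theorem fr_le (r : ℝ) : fr r ≤ 1 := by
  have h2 := Nat.le_ceil r
  have h3 : (⌈r⌉₊ : ℝ) ≤ ((⌈r⌉₊ - 1 : ℕ) : ℝ) + 1 := by
    have : ⌈r⌉₊ ≤ ⌈r⌉₊ - 1 + 1 := by omega
    exact_mod_cast this
  rw [fr]
  linarith

theorem fr_add {r : ℝ} (h : 0 < r) (h1 : r ≤ 1) (n : ℕ) : fr (r + n) = r := by
  have h2 : ⌈r⌉₊ = 1 := by
    rw [Nat.ceil_eq_iff one_ne_zero]
    simpa using ⟨h, h1⟩
  rw [fr, Nat.ceil_add_natCast h.le, h2]
  simp

variable {D : Sh ι V G Q l} {b : Q → Finset V → V}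

theorem Hyp.dec_pos (H : Hyp D b) {q : Q} {x : V} {t : Finset V →₀ ℝ}
    (h : Dec D b q x t) (hne : t.support.Nonempty) (i : ι) : 0 < D.e x i := by
  rw [h.2.2, Finsupp.sum, Finset.sum_apply]
  refine Finset.sum_pos (fun F hF => ?_) hne
  rw [Pi.smul_apply, smul_eq_mul]
  exact mul_pos (h.1 F hF).2 ((H.mem q F (h.1 F hF).1).2.1 i)

theorem Hyp.exists_cell (H : Hyp D b) {q : Q} (hq : D.o ∈ D.X q) :
    ∃ z : (Q × Finset V) × (V →₀ ℕ), z.1 ∈ C0 D b ∧ z.2.support ⊆ z.1.2 ∧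
      ∃ g ∈ D.N, g • z.1.1 = q ∧ g • (D.o + z.2.sum fun u n => n • u) = D.o := by
  have ho := (D.X_sub q _ hq).2
  obtain ⟨t, ht, -⟩ := H.uniq q D.o ho
  set w : V := ∑ F ∈ t.support, (⌈t F⌉₊ - 1) • b q F with hw
  set t0 : Finset V →₀ ℝ := t.mapRange fr fr_zero with ht0
  have hsupp : t0.support = t.support := by
    ext F
    rw [Finsupp.mem_support_iff, ht0, Finsupp.mapRange_apply]
    constructor
    · intro h
      rw [Finsupp.mem_support_iff]
      intro h0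
      rw [h0] at h
      exact h fr_zero
    · intro h
      exact (fr_pos (ht.1 F h).2).ne'
  have hdec : Dec D b q (D.o + -w) t0 := by
    refine ⟨fun F hF => ?_, by rw [hsupp]; exact ht.2.1, ?_⟩
    · rw [hsupp] at hF
      exact ⟨(ht.1 F hF).1, by rw [ht0, Finsupp.mapRange_apply]; exact fr_pos (ht.1 F hF).2⟩
    · rw [map_add, map_neg, ht.2.2, hw, map_sum, Finsupp.sum, Finsupp.sum, hsupp, ← sub_eq_add_neg,
        ← Finset.sum_sub_distrib]
      refine Finset.sum_congr rfl fun F _ => ?_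
      rw [ht0, Finsupp.mapRange_apply, fr, sub_smul, map_nsmul, Nat.cast_smul_eq_nsmul]
  have hwΛ : w ∈ D.Λ q :=
    sum_mem fun F hF => nsmul_mem (H.mem q F (ht.1 F hF).1).1 _
  have hx0 : D.o + -w ∈ D.X q :=
    D.X_add q _ hq _ (neg_mem hwΛ) (H.dec_pos hdec (by rw [hsupp]; exact ht.nonempty ho))
  obtain ⟨g, hg, hgo⟩ := D.trans q _ hx0
  have hdec' := H.dec_smul g hdec
  rw [hgo] at hdec'
  refine ⟨((g • q, (ta g t0).support.image (b (g • q))),
    ∑ F ∈ t.support, Finsupp.single (g • b q F) (⌈t F⌉₊ - 1)), ⟨?_, ta g t0, hdec', ?_, rfl⟩, ?_,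
    g⁻¹, inv_mem hg, inv_smul_smul g q, ?_⟩
  · have := D.smul_X g q _ hx0
    rwa [hgo] at this
  · refine ta_le g fun F => ?_
    rw [ht0, Finsupp.mapRange_apply]
    exact fr_le _
  · intro u hu
    rw [H.image_smul g hdec, hsupp]
    obtain ⟨F, hF, hu⟩ := Finset.mem_biUnion.1 (Finsupp.support_finsetSum hu)
    rw [Finset.mem_singleton.1 (Finsupp.support_single_subset hu)]
    exact Finset.mem_image_of_mem _ (Finset.mem_image_of_mem _ hF)
  · have h1 : ((∑ F ∈ t.support, Finsupp.single (g • b q F) (⌈t F⌉₊ - 1)).sum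
        fun u n => n • u) = g • w := by
      rw [← Finsupp.sum_finsetSum_index (by simp) (fun _ _ _ => add_smul _ _ _), hw,
        Finset.smul_sum]
      refine Finset.sum_congr rfl fun F _ => ?_
      rw [Finsupp.sum_single_index (by simp), smul_comm]
    show g⁻¹ • (D.o + _) = D.o
    rw [h1, inv_smul_eq_iff]
    nth_rewrite 1 [← hgo]
    rw [← smul_add]
    simp

/-- shifting a decomposition by integers -/
noncomputable def sh (b : Finset V → V) (s : Finset V →₀ ℝ) (n : V →₀ ℕ) : Finset V →₀ ℝ :=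
  Finsupp.onFinset s.support (fun F => if F ∈ s.support then s F + n (b F) else 0)
    fun F h => by
      by_contra hc
      exact h (if_neg hc)

theorem sh_apply (b : Finset V → V) (s : Finset V →₀ ℝ) (n : V →₀ ℕ) (F : Finset V) :
    sh b s n F = if F ∈ s.support then s F + n (b F) else 0 := rfl

theorem Hyp.dec_sh (H : Hyp D b) {q : Q} {x : V} {s : Finset V →₀ ℝ} (h : Dec D b q x s)
    {n : V →₀ ℕ} (hn : n.support ⊆ s.support.image (b q)) :
    Dec D b q (x + n.sum fun u n => n • u) (sh (b q) s n) := by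
  have hpos : ∀ F ∈ s.support, 0 < sh (b q) s n F := by
    intro F hF
    rw [sh_apply, if_pos hF]
    exact add_pos_of_pos_of_nonneg (h.1 F hF).2 (Nat.cast_nonneg _)
  have hsupp : (sh (b q) s n).support = s.support := by
    refine Finset.Subset.antisymm Finsupp.support_onFinset_subset fun F hF => ?_
    exact Finsupp.mem_support_iff.2 (hpos F hF).ne'
  refine ⟨fun F hF => ?_, by rw [hsupp]; exact h.2.1, ?_⟩
  · rw [hsupp] at hF
    exact ⟨(h.1 F hF).1, hpos F hF⟩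
  · rw [map_add, h.2.2, Finsupp.sum_of_support_subset n hn _ (by simp),
      Finset.sum_image (fun A hA B hB hAB => H.inj (h.1 A hA).1 (h.1 B hB).1 hAB), map_sum,
      Finsupp.sum, Finsupp.sum, hsupp, ← Finset.sum_add_distrib]
    refine Finset.sum_congr rfl fun F hF => ?_
    rw [sh_apply, if_pos hF, add_smul, map_nsmul, Nat.cast_smul_eq_nsmul]

theorem fr_sh {q : Q} {x : V} {s : Finset V →₀ ℝ} (h : Dec D b q x s) (h1 : ∀ F, s F ≤ 1)
    (n : V →₀ ℕ) (F : Finset V) : fr (sh (b q) s n F) = s F := by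
  rw [sh_apply]
  split_ifs with hF
  · exact fr_add (h.1 F hF).2 (h1 F) _
  · rw [fr_zero, Finsupp.notMem_support_iff.1 hF]

theorem free_eq {g g' : G} (hg : g ∈ D.N) (hg' : g' ∈ D.N) (ho : ∀ i, 0 < D.e D.o i)
    (h : g • D.o = g' • D.o) : g = g' := by
  have h1 := D.free (g'⁻¹ * g) (mul_mem (inv_mem hg') hg) D.o ho (by rw [mul_smul, h]; simp)
  exact (inv_mul_eq_one.1 h1).symm

theorem Hyp.unique_cell (H : Hyp D b) {q : Q} (hq : D.o ∈ D.X q)
    {z z' : (Q × Finset V) × (V →₀ ℕ)}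
    (h : z.1 ∈ C0 D b ∧ z.2.support ⊆ z.1.2 ∧
      ∃ g ∈ D.N, g • z.1.1 = q ∧ g • (D.o + z.2.sum fun u n => n • u) = D.o)
    (h' : z'.1 ∈ C0 D b ∧ z'.2.support ⊆ z'.1.2 ∧
      ∃ g ∈ D.N, g • z'.1.1 = q ∧ g • (D.o + z'.2.sum fun u n => n • u) = D.o) : z = z' := by
  have ho := (D.X_sub q _ hq).2
  obtain ⟨⟨q1, U1⟩, n1⟩ := z
  obtain ⟨⟨q2, U2⟩, n2⟩ := z'
  obtain ⟨⟨-, s1, hs1, hle1, hU1⟩, hn1, g1, hg1, hq1, ho1⟩ := h
  obtain ⟨⟨-, s2, hs2, hle2, hU2⟩, hn2, g2, hg2, hq2, ho2⟩ := h'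
  dsimp only at *
  subst hU1 hU2
  have d1 := H.dec_sh hs1 hn1
  have d2 := H.dec_sh hs2 hn2
  have e1 := H.dec_smul g1 d1
  have e2 := H.dec_smul g2 d2
  rw [hq1, ho1] at e1
  rw [hq2, ho2] at e2
  have e3 := H.dec_eq ho e1 e2
  have key : ∀ (g : G) (q' : Q) (s : Finset V →₀ ℝ) (n : V →₀ ℕ), Dec D b q' D.o s →
      (∀ F, s F ≤ 1) → ∀ F, ta g s F = fr (ta g (sh (b q') s n) F) := by
    intro g q' s n hs hle F
    obtain ⟨F, rfl⟩ := (fa g).surjective F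
    rw [ta_apply, ta_apply, fr_sh hs hle]
  have e4 : ta g1 s1 = ta g2 s2 := by
    ext F
    rw [key g1 q1 s1 n1 hs1 hle1, key g2 q2 s2 n2 hs2 hle2, e3]
  have f1 := H.dec_smul g1 hs1
  have f2 := H.dec_smul g2 hs2
  rw [hq1] at f1
  rw [hq2, ← e4] at f2
  have e5 : g1 = g2 := free_eq hg1 hg2 ho (D.e_inj (f1.2.2.trans f2.2.2.symm))
  subst e5
  have e6 : q1 = q2 := MulAction.injective g1 (hq1.trans hq2.symm)
  subst e6
  have e7 : s1 = s2 := H.dec_eq ho hs1 hs2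
  subst e7
  have e8 : n1 = n2 := by
    ext u
    by_cases hu : u ∈ s1.support.image (b q1)
    · obtain ⟨F, hF, rfl⟩ := Finset.mem_image.1 hu
      have := congrArg (fun t : Finset V →₀ ℝ => t (fa g1 F)) e3
      simp only [ta_apply, sh_apply, if_pos hF] at this
      exact_mod_cast add_left_cancel this
    · rw [Finsupp.notMem_support_iff.1 fun h => hu (hn1 h),
        Finsupp.notMem_support_iff.1 fun h => hu (hn2 h)]
  rw [e8]

theorem Hyp.face_bdd (H : Hyp D b) (q : Q) : ∃ A : Finset V, ∀ F, Face D.e (P D q) F →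
    ∃ g ∈ D.N, g • q = q ∧ fa g F ⊆ A := by
  obtain ⟨v, hv⟩ := D.good q
  obtain ⟨R, hR⟩ := D.unit q
  have hv' : v ∈ P D q := hv
  refine ⟨(finite_P D q (R * ∑ j, D.e v j)).toFinset, fun F hF => ?_⟩
  obtain ⟨-, y, hy1, hy2⟩ := hF
  have hy := H.ypos q y hy1
  obtain ⟨g, hg, hgq, t, ht, -, he, hbal⟩ := hR (fun i => (y i)⁻¹) fun i => inv_pos.2 (hy i)
  refine ⟨g, hg, hgq, fun w hw => ?_⟩
  obtain ⟨u, hu, rfl⟩ := Finset.mem_image.1 hw
  obtain ⟨hu1, hu2⟩ := (hy2 u).1 hu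
  rw [Set.Finite.mem_toFinset]
  refine ⟨by simpa [hgq] using smul_P D g hu1, fun i => ?_⟩
  have h1 : y i * D.e u i ≤ 1 := by
    rw [← hu2]
    exact Finset.single_le_sum (f := fun j => y j * D.e u j)
      (fun j _ => (mul_pos (hy j) (hu1.2.1 j)).le) (Finset.mem_univ i)
  have h2 : g⁻¹ • v ∈ P D q := by
    have := smul_P D g⁻¹ hv'
    rwa [inv_smul_eq_iff.2 hgq.symm] at this
  have h3 := hy1 _ h2
  have h4 : ∀ j, D.e v j = t j * D.e (g⁻¹ • v) j := fun j => by rw [← he, smul_inv_smul]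
  have h5 : t i * (y i)⁻¹ ≤ R * ∑ j, D.e v j := by
    calc t i * (y i)⁻¹ ≤ t i * (y i)⁻¹ * ∑ j, y j * D.e (g⁻¹ • v) j :=
          le_mul_of_one_le_right (mul_pos (ht i) (inv_pos.2 (hy i))).le h3
      _ = ∑ j, t i * (y i)⁻¹ * (y j * D.e (g⁻¹ • v) j) := Finset.mul_sum _ _ _
      _ ≤ ∑ j, R * (t j * (y j)⁻¹) * (y j * D.e (g⁻¹ • v) j) :=
          Finset.sum_le_sum fun j _ =>
            mul_le_mul_of_nonneg_right (hbal i j) (mul_pos (hy j) (h2.2.1 j)).le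
      _ = R * ∑ j, D.e v j := by
          rw [Finset.mul_sum]
          refine Finset.sum_congr rfl fun j _ => ?_
          have := (hy j).ne'
          rw [h4 j]
          field_simp
  rw [he]
  have h6 : D.e u i ≤ (y i)⁻¹ := by
    rw [← one_div, le_div_iff₀ (hy i), mul_comm]
    exact h1
  exact (mul_le_mul_of_nonneg_left h6 (ht i).le).trans h5

theorem Hyp.point_bdd (H : Hyp D b) (q : Q) : ∃ A : Finset V, ∀ x ∈ D.X q, ∀ t, Dec D b q x t →
    (∀ F, t F ≤ 1) → ∃ g ∈ D.N, g • q = q ∧ g • x ∈ A := by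
  obtain ⟨A, hA⟩ := H.face_bdd q
  refine ⟨(D.lf q (∑ F ∈ A.powerset, ∑ i, |D.e (b q F) i|)).toFinset, fun x hx t ht hle => ?_⟩
  have hxp := (D.X_sub q x hx).2
  obtain ⟨F, hF, hmax⟩ := Finset.exists_max_image t.support Finset.card (ht.nonempty hxp)
  obtain ⟨g, hg, hgq, hsub⟩ := hA F (ht.1 F hF).1
  refine ⟨g, hg, hgq, ?_⟩
  have h1 := H.dec_smul g ht
  have h2 := D.X_sub _ _ (D.smul_X g q x hx)
  rw [hgq] at h1 h2
  rw [Set.Finite.mem_toFinset]
  refine ⟨h2.1, fun i => ?_⟩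
  have h3 : (ta g t).support ⊆ A.powerset := by
    intro B hB
    rw [ta_support] at hB
    obtain ⟨B', hB', rfl⟩ := Finset.mem_image.1 hB
    have h4 : B' ⊆ F := by
      rcases ht.2.1.total hB' hF with h5 | h5
      · exact h5
      · exact (Finset.eq_of_subset_of_card_le h5 (hmax B' hB')).ge
    exact Finset.mem_powerset.2 ((Finset.image_subset_image h4).trans hsub)
  rw [abs_of_pos (h2.2 i), h1.2.2, Finsupp.sum, Finset.sum_apply]
  refine le_trans (Finset.sum_le_sum fun B hB => ?_) (Finset.sum_le_sum_of_subset_of_nonneg h3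
    fun B _ _ => Finset.sum_nonneg fun j _ => abs_nonneg _)
  have h6 := (H.mem q B (h1.1 B hB).1).2.1 i
  rw [Pi.smul_apply, smul_eq_mul]
  calc ta g t B * D.e (b q B) i ≤ D.e (b q B) i := mul_le_of_le_one_left h6.le (ta_le g hle B)
    _ ≤ |D.e (b q B) i| := le_abs_self _
    _ ≤ ∑ j, |D.e (b q B) j| := Finset.single_le_sum (f := fun j => |D.e (b q B) j|)
        (fun j _ => abs_nonneg _) (Finset.mem_univ i)

theorem Hyp.finite_C0 (H : Hyp D b) : (C0 D b).Finite := by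
  obtain ⟨T, hT⟩ := D.fin_Q
  choose A hA using H.point_bdd
  have h1 : {q : Q | ∃ q' ∈ T, ∃ x ∈ A q', D.o ∈ D.X q ∧ ∃ g ∈ D.N, g • q = q' ∧
      g • D.o = x}.Finite := by
    have : {q : Q | ∃ q' ∈ T, ∃ x ∈ A q', D.o ∈ D.X q ∧ ∃ g ∈ D.N, g • q = q' ∧ g • D.o = x} =
        ⋃ q' ∈ (T : Set Q), ⋃ x ∈ (A q' : Set V),
          {q : Q | D.o ∈ D.X q ∧ ∃ g ∈ D.N, g • q = q' ∧ g • D.o = x} := by
      ext q
      simp only [Set.mem_ofPred_eq, Set.mem_iUnion, Finset.mem_coe, exists_prop]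
    rw [this]
    refine T.finite_toSet.biUnion fun q' _ => (A q').finite_toSet.biUnion fun x _ => ?_
    refine Set.Subsingleton.finite ?_
    rintro q1 ⟨ho, g1, hg1, hq1, hx1⟩ q2 ⟨-, g2, hg2, hq2, hx2⟩
    have := free_eq hg1 hg2 (D.X_sub _ _ ho).2 (hx1.trans hx2.symm)
    subst this
    exact MulAction.injective g1 (hq1.trans hq2.symm)
  refine Set.Finite.of_finite_image (f := Prod.fst) (h1.subset ?_) ?_
  · rintro _ ⟨⟨q, U⟩, ⟨ho, t, ht, hle, -⟩, rfl⟩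
    obtain ⟨g, hg, hgT⟩ := hT q
    obtain ⟨g', hg', hq', hx⟩ := hA (g • q) _ (D.smul_X g q _ ho) _ (H.dec_smul g ht) (ta_le g hle)
    exact ⟨g • q, hgT, _, hx, ho, g' * g, mul_mem hg' hg, by rw [mul_smul, hq'], mul_smul _ _ _⟩
  · rintro ⟨q, U⟩ ⟨ho, t, ht, -, hU⟩ ⟨q', U'⟩ ⟨-, t', ht', -, hU'⟩ hq
    dsimp only at *
    subst hq
    rw [hU, hU', H.dec_eq (D.X_sub _ _ ho).2 ht ht']

theorem Hyp.cells (H : Hyp D b) : D.Cells H.finite_C0.toFinset := by
  refine ⟨fun c hc => ?_, fun q hq => ?_, fun g hg c hc => ?_, fun g hg c hc hq _ u hu => ?_⟩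
  · obtain ⟨ho, t, ht, -, hU⟩ := H.finite_C0.mem_toFinset.1 hc
    refine ⟨ho, fun u hu => ?_⟩
    rw [hU] at hu
    obtain ⟨F, hF, rfl⟩ := Finset.mem_image.1 hu
    exact H.mem _ F (ht.1 F hF).1
  · simp only [Set.Finite.mem_toFinset]
    obtain ⟨z, hz⟩ := H.exists_cell hq
    exact ⟨z, hz, fun z' hz' => H.unique_cell hq hz' hz⟩
  · obtain ⟨ho, t, ht, hle, hU⟩ := H.finite_C0.mem_toFinset.1 hc
    rw [Set.Finite.mem_toFinset]
    have h1 := H.dec_smul g ht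
    have h2 := D.smul_X g _ _ ho
    rw [D.Γ_o g hg] at h1 h2
    exact ⟨h2, ta g t, h1, ta_le g hle, by rw [hU]; exact (H.image_smul g ht).symm⟩
  · obtain ⟨ho, t, ht, -, hU⟩ := H.finite_C0.mem_toFinset.1 hc
    rw [hU] at hu
    obtain ⟨F, hF, rfl⟩ := Finset.mem_image.1 hu
    exact H.fixed g (D.X_sub _ _ ho).2 ht hq (D.Γ_o g hg) hF

end Pool.Agent.MP_f3cd89_nt.CellX

namespace Pool.Agent.MP_f3cd89_nt

theorem cell (hG : GEO_st) (hB : BARY_st) : CELL_st := by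
  intro ι V G Q _ _ _ _ _ _ l _ D
  obtain ⟨b, H⟩ := CellX.exists_hyp hG hB D
  exact ⟨_, H.cells⟩

end Pool.Agent.MP_f3cd89_nt
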