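import Pool.Agent.MP_f3cd89_nt.SStm

/-! Decompositions along chains of faces: basic properties. -/

set_option autoImplicit false
set_option linter.unusedSectionVars false

open Finset
open Classical

namespace Pool.Agent.MP_f3cd89_nt.CellX

variable {ι V G Q : Type} [Fintype ι] [Nonempty ι] [AddCommGroup V] [Group G]
  [DistribMulAction G V] [MulAction G Q] {l : ℕ}

/-- the good points -/
def P (D : Sh ι V G Q l) (q : Q) : Set V :=
  {v | v ∈ D.Λ q ∧ (∀ i, 0 < D.e v i) ∧ D.χ q v ≠ 0}

/-- the action on finite sets -/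
noncomputable def fa (g : G) : Finset V ≃ Finset V where
  toFun F := F.image fun v => g • v
  invFun F := F.image fun v => g⁻¹ • v
  left_inv F := by simp [Finset.image_image, Function.comp_def]
  right_inv F := by simp [Finset.image_image, Function.comp_def]

theorem fa_apply (g : G) (F : Finset V) : fa g F = F.image fun v => g • v := rfl

theorem fa_card (g : G) (F : Finset V) : (fa g F).card = F.card :=
  Finset.card_image_of_injective _ (MulAction.injective g)

theorem pos_smul (D : Sh ι V G Q l) (g : G) {v : V} (h : ∀ i, 0 < D.e v i) (i : ι) :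
    0 < D.e (g • v) i := by
  obtain ⟨τ, t, ht, he⟩ := D.mon g
  rw [he]
  exact mul_pos (ht i) (h _)

theorem smul_P (D : Sh ι V G Q l) (g : G) {q : Q} {v : V} (h : v ∈ P D q) :
    g • v ∈ P D (g • q) := by
  obtain ⟨h1, h2, h3⟩ := h
  refine ⟨D.smul_Λ g q v h1, pos_smul D g h2, ?_⟩
  rw [D.smul_χ g q v (D.Λ_le q h1)]
  exact h3

theorem finite_P (D : Sh ι V G Q l) (q : Q) (C : ℝ) :
    {v ∈ P D q | ∀ i, D.e v i ≤ C}.Finite := by
  refine (D.lf q C).subset ?_
  rintro v ⟨⟨h1, h2, -⟩, h4⟩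
  exact ⟨D.Λ_le q h1, fun i => by rw [abs_of_pos (h2 i)]; exact h4 i⟩

theorem bdry_P (D : Sh ι V G Q l) (q : Q) (i : ι) (δ : ℝ) (hδ : 0 < δ) :
    ∃ v ∈ P D q, ∀ j, j ≠ i → D.e v j < δ := by
  obtain ⟨v, hv⟩ := D.good q
  obtain ⟨R, hR⟩ := D.unit q
  have hv' : v ∈ P D q := hv
  set S : ℝ := ∑ j, D.e v j with hS
  have hSpos : 0 < S := Finset.sum_pos (fun j _ => hv.2.1 j) Finset.univ_nonempty
  set η : ℝ := δ / S with hη
  have hηpos : 0 < η := div_pos hδ hSpos
  set n : ℕ := Fintype.card ι with hn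
  set K : ℝ := (|R| / η) ^ n + 1 with hK
  have hKpos : 0 < K := by positivity
  obtain ⟨g, -, hgq, t, ht, hprod, he, hbal⟩ :=
    hR (fun j => if j = i then 1 else K) (fun j => by split_ifs <;> positivity)
  have hR1 : 1 ≤ R := by
    have := hbal i i
    simp only [if_true, mul_one] at this
    by_contra hc
    push Not at hc
    nlinarith [ht i]
  have hRpos : 0 < R := by linarith
  refine ⟨g • v, by simpa [hgq] using smul_P D g hv', fun j hj => ?_⟩
  rw [he]
  have hvj : D.e v j ≤ S :=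
    Finset.single_le_sum (f := fun j => D.e v j) (fun a _ => (hv.2.1 a).le) (Finset.mem_univ j)
  have htj : t j < η := by
    by_contra hc
    push Not at hc
    have h1 : ∀ a, η / R * (if a = i then K else 1) ≤ t a := by
      intro a
      have h2 := hbal j a
      simp only [hj, if_false] at h2
      by_cases ha : a = i
      · simp only [ha, if_true, mul_one] at h2 ⊢
        rw [div_mul_eq_mul_div, div_le_iff₀ hRpos]
        nlinarith
      · simp only [ha, if_false, mul_one] at h2 ⊢
        rw [div_le_iff₀ hRpos]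
        have : t j ≤ R * t a := by
          by_contra h3
          push Not at h3
          nlinarith
        linarith
    have h3 : ∏ a, (η / R * (if a = i then K else 1)) ≤ ∏ a, t a :=
      Finset.prod_le_prod (fun a _ => by split_ifs <;> positivity) (fun a _ => h1 a)
    rw [hprod, Finset.prod_mul_distrib, Finset.prod_const, Finset.card_univ, ← hn] at h3
    simp only [Finset.prod_ite_eq', Finset.mem_univ, if_true] at h3
    rw [hK, abs_of_pos hRpos, mul_add, ← mul_pow] at h3
    have h4 : η / R * (R / η) = 1 := by field_simp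
    rw [h4, one_pow] at h3
    have : 0 < (η / R) ^ n := by positivity
    linarith
  calc t j * D.e v j ≤ t j * S := mul_le_mul_of_nonneg_left hvj (ht j).le
    _ < η * S := mul_lt_mul_of_pos_right htj hSpos
    _ = δ := by rw [hη]; field_simp

/-- `t` decomposes `x` along a chain of faces -/
def Dec (D : Sh ι V G Q l) (b : Q → Finset V → V) (q : Q) (x : V) (t : Finset V →₀ ℝ) : Prop :=
  (∀ F ∈ t.support, Face D.e (P D q) F ∧ 0 < t F) ∧
    IsChain (· ⊆ ·) (t.support : Set (Finset V)) ∧ D.e x = t.sum fun F r => r • D.e (b q F)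

/-- the properties of the barycentres -/
structure Hyp (D : Sh ι V G Q l) (b : Q → Finset V → V) : Prop where
  face : ∀ (g : G) q F, Face D.e (P D q) F → Face D.e (P D (g • q)) (fa g F)
  mem : ∀ q F, Face D.e (P D q) F → b q F ∈ P D q
  eqv : ∀ q F, Face D.e (P D q) F → ∀ g : G, b (g • q) (fa g F) = g • b q F
  ypos : ∀ q (y : ι → ℝ), (∀ v ∈ P D q, 1 ≤ ∑ i, y i * D.e v i) → ∀ i, 0 < y i
  uniq : ∀ q x, (∀ i, 0 < D.e x i) → ∃! t, Dec D b q x t

theorem exists_hyp (hG : GEO_st) (hB : BARY_st) [Fact l.Prime] (D : Sh ι V G Q l) :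
    ∃ b, Hyp D b := by
  obtain ⟨h1, b, hb⟩ := hB ι V G Q l D
  have hg := fun q => hG ι V D.e (P D q) (fun v hv => hv.2.1) (finite_P D q) (bdry_P D q)
  refine ⟨b, h1, fun q F hF => ?_, fun q F hF => (hb q F hF).2.2.2, fun q => (hg q).1,
    fun q x hx => ?_⟩
  · obtain ⟨h2, h3, ⟨s, hs, h4⟩, -⟩ := hb q F hF
    refine ⟨h2, fun i => ?_, h3⟩
    rw [h4, map_sum, Finset.sum_apply]
    obtain ⟨hne, y, -, hy⟩ := hF
    refine Finset.sum_pos (fun v hv => ?_) hne
    rw [map_nsmul, Pi.smul_apply, nsmul_eq_mul]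
    exact mul_pos (Nat.cast_pos.2 (hs v hv)) (((hy v).1 hv).1.2.1 i)
  · refine (hg q).2 (fun F => D.e (b q F)) (fun F hF => ?_) (D.e x) hx
    obtain ⟨-, -, ⟨s, hs, h4⟩, -⟩ := hb q F hF
    refine ⟨fun v => s v, fun v hv => Nat.cast_pos.2 (hs v hv), ?_⟩
    rw [h4, map_sum]
    refine Finset.sum_congr rfl fun v _ => ?_
    rw [map_nsmul, Nat.cast_smul_eq_nsmul]

variable {D : Sh ι V G Q l} {b : Q → Finset V → V}

theorem Hyp.dec_eq (H : Hyp D b) {q : Q} {x : V} {t t' : Finset V →₀ ℝ} (hx : ∀ i, 0 < D.e x i)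
    (h : Dec D b q x t) (h' : Dec D b q x t') : t = t' :=
  (H.uniq q x hx).unique h h'

theorem Hyp.inj (H : Hyp D b) {q : Q} {F F' : Finset V} (hF : Face D.e (P D q) F)
    (hF' : Face D.e (P D q) F') (h : b q F = b q F') : F = F' := by
  have key : ∀ A, Face D.e (P D q) A → Dec D b q (b q A) (Finsupp.single A 1) := by
    intro A hA
    refine ⟨fun B hB => ?_, ?_, ?_⟩
    · rw [Finsupp.support_single _ one_ne_zero, Finset.mem_singleton] at hB
      subst hB
      exact ⟨hA, by simp⟩
    · rw [Finsupp.support_single _ one_ne_zero]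
      simp
    · rw [Finsupp.sum_single_index (by simp), one_smul]
  have h1 := key F hF
  have h2 := key F' hF'
  rw [← h] at h2
  exact Finsupp.single_left_injective one_ne_zero (H.dec_eq (H.mem q F hF).2.1 h1 h2)

/-- the action on decompositions -/
noncomputable def ta (g : G) (t : Finset V →₀ ℝ) : Finset V →₀ ℝ := Finsupp.equivMapDomain (fa g) t

theorem ta_apply (g : G) (t : Finset V →₀ ℝ) (F : Finset V) : ta g t (fa g F) = t F := by
  simp [ta]

theorem ta_support (g : G) (t : Finset V →₀ ℝ) : (ta g t).support = t.support.image (fa g) := by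
  ext F
  obtain ⟨F, rfl⟩ := (fa g).surjective F
  rw [Finsupp.mem_support_iff, ta_apply, (fa g).injective.mem_finset_image,
    Finsupp.mem_support_iff]

theorem ta_le (g : G) {t : Finset V →₀ ℝ} (h : ∀ F, t F ≤ 1) (F : Finset V) : ta g t F ≤ 1 := by
  obtain ⟨F, rfl⟩ := (fa g).surjective F
  rw [ta_apply]
  exact h F

theorem Hyp.dec_smul (H : Hyp D b) (g : G) {q : Q} {x : V} {t : Finset V →₀ ℝ}
    (h : Dec D b q x t) : Dec D b (g • q) (g • x) (ta g t) := by
  obtain ⟨h1, h2, h3⟩ := h
  refine ⟨fun F hF => ?_, ?_, ?_⟩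
  · rw [ta_support] at hF
    obtain ⟨A, hA, rfl⟩ := Finset.mem_image.1 hF
    rw [ta_apply]
    exact ⟨H.face g q A (h1 A hA).1, (h1 A hA).2⟩
  · rw [ta_support, Finset.coe_image]
    rintro _ ⟨A, hA, rfl⟩ _ ⟨B, hB, rfl⟩ -
    exact (h2.total hA hB).imp Finset.image_subset_image Finset.image_subset_image
  · rw [ta, Finsupp.sum_equivMapDomain]
    obtain ⟨τ, s, -, he⟩ := D.mon g
    funext i
    rw [he, h3, Finsupp.sum, Finsupp.sum, Finset.sum_apply, Finset.sum_apply, Finset.mul_sum]
    refine Finset.sum_congr rfl fun F hF => ?_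
    rw [H.eqv q F (h1 F hF).1, Pi.smul_apply, Pi.smul_apply, he, smul_eq_mul, smul_eq_mul]
    ring

theorem Hyp.image_smul (H : Hyp D b) (g : G) {q : Q} {x : V} {t : Finset V →₀ ℝ}
    (h : Dec D b q x t) :
    (ta g t).support.image (b (g • q)) = (t.support.image (b q)).image fun u => g • u := by
  rw [ta_support, Finset.image_image, Finset.image_image]
  refine Finset.image_congr fun F hF => ?_
  exact H.eqv q F (h.1 F hF).1 g

theorem Dec.nonempty {q : Q} {x : V} {t : Finset V →₀ ℝ} (hx : ∀ i, 0 < D.e x i)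
    (h : Dec D b q x t) : t.support.Nonempty := by
  by_contra hc
  rw [Finset.not_nonempty_iff_eq_empty] at hc
  obtain ⟨i⟩ := ‹Nonempty ι›
  have := hx i
  rw [h.2.2, Finsupp.sum, hc] at this
  simp at this

theorem Hyp.fixed (H : Hyp D b) (g : G) {q : Q} {x : V} {t : Finset V →₀ ℝ}
    (hx : ∀ i, 0 < D.e x i) (h : Dec D b q x t) (hq : g • q = q) (hgx : g • x = x)
    {F : Finset V} (hF : F ∈ t.support) : g • b q F = b q F := by
  have h1 := H.dec_smul g h
  rw [hq, hgx] at h1
  have h2 : ta g t = t := H.dec_eq hx h1 h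
  have h3 : fa g F ∈ t.support := by
    rw [← h2, ta_support]
    exact Finset.mem_image_of_mem _ hF
  have h4 : fa g F = F := by
    rcases h.2.1.total h3 hF with h5 | h5
    · exact Finset.eq_of_subset_of_card_le h5 (fa_card g F).ge
    · exact (Finset.eq_of_subset_of_card_le h5 (fa_card g F).le).symm
  rw [← H.eqv q F (h.1 F hF).1 g, hq, h4]

end Pool.Agent.MP_f3cd89_nt.CellX
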