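import Pool.Agent.MP_f3cd89_nt.SStm

set_option autoImplicit false
set_option linter.unusedSectionVars false

open Finset NumberField IsDedekindDomain

namespace Pool.Agent.MP_f3cd89_nt

namespace CharX

theorem dual0 (K V : Type) [Field K] [AddCommGroup V] [Module K V] [Finite V] :
    Nat.card (V →ₗ[K] K) = Nat.card V := by
  have f : Module.Finite K V := Module.Finite.of_finite
  classical
  exact Nat.card_congr (Module.Free.chooseBasis K V).toDualEquiv.symm.toEquiv

theorem dual1 (l : ℕ) [Fact l.Prime] (Q : Type) [AddCommGroup Q] [Finite Q] [Module (ZMod l) Q] :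
    Nat.card (Q →+ ZMod l) = Nat.card Q ∧ ∀ q : Q, (∀ φ : Q →+ ZMod l, φ q = 0) → q = 0 := by
  constructor
  · rw [Nat.card_congr (AddMonoidHom.toZModLinearMapEquiv l).toEquiv]
    exact dual0 (ZMod l) Q
  · intro q hq
    exact (Module.forall_dual_apply_eq_zero_iff (ZMod l) q).1 fun φ => hq φ.toAddMonoidHom

theorem dual (l : ℕ) [Fact l.Prime] (Q : Type) [AddCommGroup Q] [Finite Q]
    (h : ∀ x : Q, l • x = 0) : Nat.card (Q →+ ZMod l) = Nat.card Q ∧
      ∀ q : Q, (∀ φ : Q →+ ZMod l, φ q = 0) → q = 0 :=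
  @dual1 l _ Q _ _ (AddCommGroup.zmodModule h)

open Classical in
theorem orth (l : ℕ) [Fact l.Prime] (Q : Type) [AddCommGroup Q] [Finite Q]
    [Fintype (Q →+ ZMod l)] (h : ∀ x : Q, l • x = 0) {ζ : ℂ} (hζ : IsPrimitiveRoot ζ l) (q : Q) :
    ∑ φ : Q →+ ZMod l, ζ ^ (φ q).val = if q = 0 then (Nat.card Q : ℂ) else 0 := by
  have hp : l.Prime := Fact.out
  obtain ⟨h1, h2⟩ := dual l Q h
  split_ifs with hq
  · simp [hq, ← h1]
  · let ψ : AddChar (Q →+ ZMod l) ℂ :=
      (AddChar.zmodChar l hζ.pow_eq_one).compAddMonoidHom (AddMonoidHom.eval q)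
    have : ψ ≠ 0 := by
      intro h0
      refine hq (h2 q fun φ => ?_)
      have e : ζ ^ (φ q).val = 1 := DFunLike.congr_fun h0 φ
      have := (hζ.pow_eq_one_iff_dvd _).1 e
      rw [← ZMod.val_eq_zero]
      exact Nat.eq_zero_of_dvd_of_lt this (ZMod.val_lt _)
    exact AddChar.sum_eq_zero_iff_ne_zero.2 this

open Classical in
theorem chars (l : ℕ) [Fact l.Prime] {F : Type} [AddCommGroup F] (M H : AddSubgroup F)
    (hH : H ≤ M) (hl : ∀ x ∈ M, l • x ∈ H) (hf : H.relIndex M ≠ 0) :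
    ∃ T : Finset (F → ZMod l), (∀ χ, χ ∈ T ↔ (∀ x ∈ M, ∀ y ∈ M, χ (x + y) = χ x + χ y) ∧
      (∀ x, x ∉ M → χ x = 0) ∧ ∀ x ∈ H, χ x = 0) ∧ T.card = H.relIndex M ∧
      ∀ ζ : ℂ, IsPrimitiveRoot ζ l → ∀ x ∈ M,
        ∑ χ ∈ T, ζ ^ (χ x).val = if x ∈ H then (H.relIndex M : ℂ) else 0 := by
  have hp : l.Prime := Fact.out
  let Q := M ⧸ H.addSubgroupOf M
  have fQ : Finite Q := Nat.finite_of_card_ne_zero hf
  have hQ : ∀ x : Q, l • x = 0 := by
    intro x
    obtain ⟨x, rfl⟩ := QuotientAddGroup.mk_surjective x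
    rw [← QuotientAddGroup.mk_nsmul, QuotientAddGroup.eq_zero_iff, AddSubgroup.mem_addSubgroupOf]
    exact hl x x.2
  have fX : Finite (Q →+ ZMod l) := Finite.of_injective _ DFunLike.coe_injective
  have := Fintype.ofFinite (Q →+ ZMod l)
  let Φ : (Q →+ ZMod l) → F → ZMod l := fun φ x =>
    if h : x ∈ M then φ (QuotientAddGroup.mk ⟨x, h⟩) else 0
  have hΦ : ∀ φ (x : M), Φ φ x = φ (QuotientAddGroup.mk x) := fun φ x => dif_pos x.2
  have inj : Function.Injective Φ := by
    intro φ φ' e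
    refine AddMonoidHom.ext fun x => ?_
    obtain ⟨x, rfl⟩ := QuotientAddGroup.mk_surjective x
    rw [← hΦ, ← hΦ, e]
  refine ⟨univ.map ⟨Φ, inj⟩, fun χ => ?_, ?_, fun ζ hζ x hx => ?_⟩
  · simp only [mem_map, mem_univ, true_and, Function.Embedding.coeFn_mk]
    constructor
    · rintro ⟨φ, rfl⟩
      refine ⟨fun x hx y hy => ?_, fun x hx => dif_neg hx, fun x hx => ?_⟩
      · rw [hΦ φ ⟨x, hx⟩, hΦ φ ⟨y, hy⟩, ← map_add, ← QuotientAddGroup.mk_add]
        exact hΦ φ ⟨x + y, add_mem hx hy⟩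
      · rw [hΦ φ ⟨x, hH hx⟩, (QuotientAddGroup.eq_zero_iff _).2
          (AddSubgroup.mem_addSubgroupOf.2 hx), map_zero]
    · rintro ⟨h1, h2, h3⟩
      let φ₀ : M →+ ZMod l := AddMonoidHom.mk' (fun x => χ x) fun x y => h1 x x.2 y y.2
      refine ⟨QuotientAddGroup.lift _ φ₀ fun x hx => h3 x (AddSubgroup.mem_addSubgroupOf.1 hx), ?_⟩
      funext x
      by_cases hx : x ∈ M
      · exact hΦ _ ⟨x, hx⟩
      · rw [h2 x hx]
        exact dif_neg hx
  · rw [card_map, card_univ, ← Nat.card_eq_fintype_card, (dual l Q hQ).1]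
    rfl
  · rw [sum_map]
    simp only [Function.Embedding.coeFn_mk]
    rw [sum_congr rfl fun φ _ => by rw [hΦ φ ⟨x, hx⟩], orth l Q hQ hζ]
    simp only [Q, QuotientAddGroup.eq_zero_iff, AddSubgroup.mem_addSubgroupOf]
    rfl

variable {F : Type} [Field F] [NumberField F]

open Classical in
theorem ind_apply (C : Finset (Pr F)) (v : Pr F) : ind C v = if v ∈ C then 1 else 0 := by
  simp [ind, Finsupp.finsetSum_apply, Finsupp.single_apply]

theorem lat_anti {D E : Pr F →₀ ℤ} (h : D ≤ E) : lat E ≤ lat D := fun _ hx v =>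
  (hx v).trans (WithZero.exp_le_exp.2 (neg_le_neg (h v)))

theorem ind_nonneg (C : Finset (Pr F)) : 0 ≤ ind C := fun v => by
  rw [ind_apply]
  split_ifs <;> simp

theorem nmD_ind (C : Finset (Pr F)) : nmD (ind C) = ∏ c ∈ C, (nrm c : ℝ) := by
  unfold nmD
  rw [Finsupp.prod_of_support_subset (s := C) _ (fun v hv => by
    by_contra h
    exact Finsupp.mem_support_iff.1 hv (by rw [ind_apply, if_neg h])) _ fun _ _ => zpow_zero _]
  exact prod_congr rfl fun c hc => by rw [ind_apply, if_pos hc, zpow_one]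

theorem smul_mem {l : ℕ} (hl : l ≠ 0) {C : Finset (Pr F)} (hC : ∀ c ∈ C, (l : 𝓞 F) ∈ c.asIdeal)
    (D : Pr F →₀ ℤ) (x : F) (hx : x ∈ lat D) : l • x ∈ lat (D + ind C) := by
  intro v
  rw [nsmul_eq_mul, map_mul, Finsupp.add_apply, neg_add, add_comm, WithZero.exp_add]
  refine mul_le_mul' ?_ (hx v)
  have h0 : (l : 𝓞 F) ≠ 0 := Nat.cast_ne_zero.2 hl
  have e : ((l : 𝓞 F) : F) = l := by simp
  have h1 := ord_nonneg v (l : 𝓞 F)
  have h2 := ord_eq_zero_iff v h0
  rw [e] at h1 h2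
  rw [val_eq_exp v (Nat.cast_ne_zero.2 hl), WithZero.exp_le_exp, ind_apply]
  split_ifs with h
  · have := mt h2.1 (not_not.2 (hC v h))
    omega
  · omega

open Classical in
theorem one_mem {C : Finset (Pr F)} {D : Pr F →₀ ℤ} (hD : 0 ≤ D) :
    (1 : F) ∈ lat (-D + ind C) ↔ ∀ c ∈ C, 1 ≤ D c := by
  simp only [mem_lat, map_one, Finsupp.add_apply, Finsupp.neg_apply, ind_apply]
  refine forall_congr' fun v => ?_
  rw [← WithZero.exp_zero, WithZero.exp_le_exp]
  have : 0 ≤ D v := hD v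
  split_ifs with h
  · simp only [h, forall_const]
    omega
  · simp only [h, IsEmpty.forall_iff, iff_true]
    omega

end CharX

open CharX Classical in
theorem char (hC : NTC_st) : CHAR_st := by
  intro F _ _ l _ C D hl
  have hp : l.Prime := Fact.out
  obtain ⟨hi, hs, -⟩ := hC F
  have hi' : ∀ I : Finset (Pr F), (lat (-D + ind I)).relIndex (lat (-D)) = ∏ c ∈ I, nrm c := by
    intro I
    have := hi (-D) (ind I) (ind_nonneg I)
    rw [nmD_ind] at this
    exact_mod_cast this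
  have hle : ∀ I : Finset (Pr F), lat (-D + ind I) ≤ lat (-D) := fun I =>
    lat_anti (le_add_of_nonneg_right (ind_nonneg I))
  have key := fun I : Finset (Pr F) => chars l (lat (-D)) (lat (-D + ind (C \ I))) (hle _)
    (smul_mem hp.ne_zero (fun c hc => hl c (mem_sdiff.1 hc).1) (-D))
    (by rw [hi']; exact prod_ne_zero_iff.2 fun c _ => by have := two_le_nrm c; omega)
  choose T hT hc hz using key
  have e1 : ∀ c ∈ C, -D + ind C - Finsupp.single c 1 = -D + ind (C \ {c}) := by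
    intro c hc
    ext v
    simp only [Finsupp.sub_apply, Finsupp.add_apply, ind_apply, Finsupp.single_apply, mem_sdiff,
      mem_singleton]
    by_cases h : c = v
    · subst h
      simp [hc]
    · simp [h, Ne.symm h]
  have hP : ∀ χ : F → ZMod l, IsPrim C D χ ↔ χ ∈ T ∅ ∧ ∀ c ∈ C, χ ∉ T {c} := by
    intro χ
    simp only [hT, sdiff_empty]
    constructor
    · intro h
      refine ⟨⟨h.add, h.out, h.kill⟩, fun c hc h' => ?_⟩
      obtain ⟨x, hx, h0⟩ := h.prim c hc
      exact h0 (h'.2.2 x (e1 c hc ▸ hx))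
    · rintro ⟨⟨h1, h2, h3⟩, h4⟩
      refine ⟨h1, h2, h3, fun c hc => ?_⟩
      by_contra h
      push Not at h
      exact h4 c hc ⟨h1, h2, fun x hx => h x (e1 c hc ▸ hx)⟩
  have hset : {χ : F → ZMod l | IsPrim C D χ} =
      ((T ∅).filter fun χ => ∀ c ∈ C, χ ∉ T {c} : Finset (F → ZMod l)) := by
    ext χ
    simp [hP]
  have mono : ∀ I J : Finset (Pr F), I ⊆ J → ∀ χ ∈ T J, χ ∈ T I := by
    intro I J h χ hχ
    rw [hT] at hχ ⊢
    refine ⟨hχ.1, hχ.2.1, fun x hx => hχ.2.2 x (lat_anti (fun v => ?_) hx)⟩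
    simp only [Finsupp.add_apply, ind_apply, mem_sdiff]
    by_cases h1 : v ∈ C ∧ v ∉ J
    · rw [if_pos h1, if_pos ⟨h1.1, fun h' => h1.2 (h h')⟩]
    · rw [if_neg h1]
      split_ifs <;> omega
  have inter : ∀ I : Finset (Pr F), ∀ χ ∈ T ∅, (∀ c ∈ I, χ ∈ T {c}) → χ ∈ T I := by
    intro I χ h0
    induction I using Finset.induction_on with
    | empty => exact fun _ => h0
    | insert c I hcI ih =>
      intro h
      have h1 := (hT _ _).1 (h c (mem_insert_self _ _))
      have h2 := (hT _ _).1 (ih fun d hd => h d (mem_insert_of_mem hd))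
      refine (hT _ _).2 ⟨h1.1, h1.2.1, fun x hx => ?_⟩
      have e : -D + ind (C \ insert c I) = (-D + ind (C \ {c})) ⊓ (-D + ind (C \ I)) := by
        ext v
        simp only [Finsupp.inf_apply, Finsupp.add_apply, ind_apply, mem_sdiff, mem_singleton,
          mem_insert]
        rw [min_add_add_left]
        congr 1
        by_cases a2 : v = c
        · simp only [a2, true_or, not_true_eq_false, and_false, if_false]
          split_ifs <;> simp
        · by_cases a1 : v ∈ C <;> by_cases a3 : v ∈ I <;> simp [a1, a2, a3]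
      rw [e, ← hs] at hx
      obtain ⟨y, hy, z, hz', rfl⟩ := AddSubgroup.mem_sup.1 hx
      rw [h1.1 y (hle _ hy) z (hle _ hz'), h1.2.2 y hy, h2.2.2 z hz', add_zero]
  rw [hset]
  refine ⟨Finset.finite_toSet _, ?_, fun ζ hζ hD => ?_⟩
  · rw [Set.ncard_coe_finset]
    refine (card_filter_le _ _).trans (le_of_eq ?_)
    rw [hc, hi', sdiff_empty]
  · have h1 : (1 : F) ∈ lat (-D) := by
      have := (one_mem (C := ∅) hD).2 (by simp)
      exact hle _ this
    rw [finsum_mem_coe_finset, sum_filter, prod_sub]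
    have e2 : ∀ χ ∈ T ∅, (if ∀ c ∈ C, χ ∉ T {c} then ζ ^ (χ 1).val else 0) =
        ∑ I ∈ C.powerset, (-1) ^ I.card * if χ ∈ T I then ζ ^ (χ 1).val else 0 := by
      intro χ hχ
      have e3 : (if ∀ c ∈ C, χ ∉ T {c} then ζ ^ (χ 1).val else 0) =
          (∏ c ∈ C, ((1 : ℂ) - if χ ∈ T {c} then 1 else 0)) * ζ ^ (χ 1).val := by
        split_ifs with h
        · rw [prod_eq_one fun c hc => by rw [if_neg (h c hc), sub_zero], one_mul]
        · push Not at h
          obtain ⟨c, hc, h⟩ := h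
          rw [prod_eq_zero hc (by rw [if_pos h, sub_self]), zero_mul]
      rw [e3, prod_sub, sum_mul]
      refine sum_congr rfl fun I _ => ?_
      rw [prod_const_one, mul_one, mul_assoc]
      congr 1
      by_cases h : χ ∈ T I
      · rw [if_pos h, prod_eq_one fun c hc => if_pos (mono _ _ (singleton_subset_iff.2 hc) χ h),
          one_mul]
      · rw [if_neg h]
        have h' := mt (inter I χ hχ) h
        push Not at h'
        obtain ⟨c, hc, h'⟩ := h'
        rw [prod_eq_zero hc (if_neg h'), zero_mul]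
    rw [sum_congr rfl e2, sum_comm]
    refine sum_congr rfl fun I _ => ?_
    rw [← mul_sum, prod_const_one, mul_one, ← sum_filter]
    congr 1
    have e4 : (T ∅).filter (fun χ => χ ∈ T I) = T I := by
      ext χ
      rw [mem_filter]
      exact ⟨fun h => h.2, fun h => ⟨mono _ _ (empty_subset _) χ h, h⟩⟩
    rw [e4, hz I ζ hζ 1 h1, hi']
    by_cases h : ∀ c ∈ C \ I, 1 ≤ D c
    · rw [if_pos ((one_mem hD).2 h), Nat.cast_prod]
      exact prod_congr rfl fun c hc => (if_pos (h c hc)).symm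
    · rw [if_neg (mt (one_mem hD).1 h)]
      push Not at h
      obtain ⟨c, hc, h⟩ := h
      exact (prod_eq_zero hc (if_neg (not_le.2 h))).symm

end Pool.Agent.MP_f3cd89_nt
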