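import Pool.Agent.MP_f3cd89_nt.AStm

/-! Every irreducible representation is induced from a character. -/

set_option autoImplicit false

namespace Pool.Agent.MP_f3cd89_nt

namespace CliffX

variable {V : Type} [AddCommGroup V] [Module ℂ V] [FiniteDimensional ℂ V]

theorem eig (f : Module.End ℂ V) {W : Submodule ℂ V} (h0 : W ≠ ⊥) (h : ∀ v ∈ W, f v ∈ W) :
    ∃ c : ℂ, ∃ v ∈ W, v ≠ 0 ∧ f v = c • v := by
  have := Submodule.nontrivial_iff_ne_bot.2 h0
  obtain ⟨c, hc⟩ := Module.End.exists_eigenvalue (f.restrict h)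
  obtain ⟨v, hv⟩ := hc.exists_hasEigenvector
  exact ⟨c, v, v.2, fun e => hv.2 (Subtype.ext e), congrArg Subtype.val hv.apply_eq_smul⟩

theorem joint [Nontrivial V] {ι : Type} (f : ι → Module.End ℂ V)
    (hc : ∀ i j v, f i (f j v) = f j (f i v)) : ∃ v, v ≠ 0 ∧ ∀ i, ∃ c : ℂ, f i v = c • v := by
  obtain ⟨W, ⟨h0, h1⟩, hm⟩ := (wellFounded_lt (α := Submodule ℂ V)).has_min
    {W | W ≠ ⊥ ∧ ∀ i, ∀ v ∈ W, f i v ∈ W} ⟨⊤, top_ne_bot, fun _ _ _ => trivial⟩
  obtain ⟨v, hv, hv0⟩ := (Submodule.ne_bot_iff W).1 h0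
  refine ⟨v, hv0, fun i => ?_⟩
  obtain ⟨c, u, hu, hu0, e⟩ := eig (f i) h0 (h1 i)
  have h2 : W ⊓ (f i).eigenspace c = W := by
    by_contra hn
    refine hm (W ⊓ (f i).eigenspace c)
      ⟨(Submodule.ne_bot_iff _).2 ⟨u, ⟨hu, Module.End.mem_eigenspace_iff.2 e⟩, hu0⟩,
      fun j x hx => ⟨h1 j x hx.1, Module.End.mem_eigenspace_iff.2 ?_⟩⟩
      (lt_of_le_of_ne inf_le_left hn)
    rw [hc, Module.End.mem_eigenspace_iff.1 hx.2, map_smul]
  rw [← h2] at hv
  exact ⟨c, Module.End.mem_eigenspace_iff.1 hv.2⟩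

variable {A : Type} [CommGroup A] {Δ : Dat A} {G : Type} [Group G]

omit [FiniteDimensional ℂ V] in
theorem mul_ap (R : G →* Module.End ℂ V) (g h : G) (v : V) : R (g * h) v = R g (R h v) := by
  rw [map_mul, Module.End.mul_apply]

omit [FiniteDimensional ℂ V] in
theorem ne_ap (R : G →* Module.End ℂ V) (g : G) {v : V} (h : v ≠ 0) : R g v ≠ 0 := fun e =>
  h (by
    rw [← Module.End.one_apply (R := ℂ) v, ← map_one R, ← inv_mul_cancel g, mul_ap, e, map_zero])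

omit [FiniteDimensional ℂ V] in
theorem zpow_ap (R : G →* Module.End ℂ V) {g : G} {μ : ℂˣ} {v : V} (h : R g v = (μ : ℂ) • v)
    (t : ℤ) : R (g ^ t) v = ((μ ^ t : ℂˣ) : ℂ) • v := by
  let H : Subgroup (G × ℂˣ) :=
    { carrier := {p | R p.1 v = (p.2 : ℂ) • v}
      mul_mem' := fun {p q} hp hq => by
        change R (p.1 * q.1) v = ((p.2 * q.2 : ℂˣ) : ℂ) • v
        rw [mul_ap, hq, map_smul, hp, smul_smul, Units.val_mul, mul_comm]
      one_mem' := by simp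
      inv_mem' := fun {p} hp => by
        change R p.1⁻¹ v = ((p.2⁻¹ : ℂˣ) : ℂ) • v
        have e : R p.1⁻¹ (R p.1 v) = v := by rw [← mul_ap, inv_mul_cancel, map_one]; rfl
        rw [hp, map_smul] at e
        rw [← congrArg (((p.2⁻¹ : ℂˣ) : ℂ) • ·) e, smul_smul, Units.inv_mul, one_smul] }
  exact H.zpow_mem (x := (g, μ)) h t

theorem iter (η : A →* ℂˣ) (i : ℕ) :
    (fun χ : A →* ℂˣ => χ.comp Δ.σ.toMonoidHom)^[i] η = η.comp (Δ.σ ^ i).toMonoidHom := by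
  induction i with
  | zero => rfl
  | succ i ih => rw [Function.iterate_succ_apply', ih, pow_succ]; rfl

theorem core [Nontrivial V] (π : Pres Δ G)
    (hX : ∀ (i : ℕ) (a : A), π.X ^ i * π.ι a * (π.X ^ i)⁻¹ = π.ι ((Δ.σ ^ i) a))
    (R : G →* Module.End ℂ V) : ∃ (P : Pt Δ ℂ) (v : V), v ≠ 0 ∧
      (∀ a, R (π.ι a) v = (P.η a : ℂ) • v) ∧ R (π.X ^ P.d) v = ((P.ω ^ P.d : ℂˣ) : ℂ) • v ∧
      Function.Injective fun j : ZMod P.d => P.ch j.val := by
  obtain ⟨v₀, h0, hc⟩ := joint (fun a => R (π.ι a)) fun a b v => by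
    rw [← mul_ap, ← mul_ap, ← map_mul, ← map_mul, mul_comm]
  choose c hc using hc
  let χ : A →* ℂ :=
    { toFun := c
      map_one' := smul_left_injective ℂ h0 (by
        change c 1 • v₀ = (1 : ℂ) • v₀
        rw [← hc, map_one, map_one, one_smul]; rfl)
      map_mul' := fun a b => smul_left_injective ℂ h0 (by
        change c (a * b) • v₀ = (c a * c b) • v₀
        rw [← hc, map_mul, mul_ap, hc, map_smul, hc, smul_smul, mul_comm]) }
  let η : A →* ℂˣ := χ.toHomUnits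
  let τ : (A →* ℂˣ) → (A →* ℂˣ) := fun χ => χ.comp Δ.σ.toMonoidHom
  have hm : Function.IsPeriodicPt τ Δ.m η := by
    change τ^[Δ.m] η = η
    rw [iter, Δ.σ_pow]; rfl
  have hd := hm.minimalPeriod_dvd
  have hp : ∀ a, η ((Δ.σ ^ Function.minimalPeriod τ η) a) = η a := fun a =>
    DFunLike.congr_fun ((iter η _).symm.trans (Function.iterate_minimalPeriod (f := τ))) a
  have hi := Function.iterate_injOn_Iio_minimalPeriod (f := τ) (x := η)
  generalize Function.minimalPeriod τ η = d at hd hp hi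
  have d0 : 0 < d := Nat.pos_of_dvd_of_pos hd Δ.m_pos
  let W : Submodule ℂ V := ⨅ a, (R (π.ι a)).eigenspace (η a)
  have hW : ∀ v, v ∈ W ↔ ∀ a, R (π.ι a) v = (η a : ℂ) • v := fun v => by
    simp only [W, Submodule.mem_iInf, Module.End.mem_eigenspace_iff]
  obtain ⟨l, v, hv, hv0, hl⟩ := eig (R (π.X ^ d)) (W := W)
    ((Submodule.ne_bot_iff _).2 ⟨v₀, (hW _).2 hc, h0⟩) fun v hv => (hW _).2 fun a => by
      obtain ⟨b, rfl⟩ := (Δ.σ ^ d).surjective a
      rw [← mul_ap, ← hX, inv_mul_cancel_right, mul_ap, (hW _).1 hv, map_smul, hp]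
  have l0 : l ≠ 0 := by
    rintro rfl
    exact ne_ap R _ hv0 (hl.trans (zero_smul _ _))
  obtain ⟨w, hw⟩ := IsAlgClosed.exists_pow_nat_eq l d0
  have w0 : w ≠ 0 := by
    rintro rfl
    exact l0 (by rw [← hw, zero_pow d0.ne'])
  have hl' : R (π.X ^ d) v = ((Units.mk0 w w0 ^ d : ℂˣ) : ℂ) • v := by
    rw [hl, Units.val_pow_eq_pow_val, Units.val_mk0, hw]
  refine ⟨⟨d, hd, η, hp, Units.mk0 w w0, ?_⟩, v, hv0, (hW _).1 hv, hl', fun i j e => ?_⟩
  · obtain ⟨t, ht⟩ := hd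
    have e := zpow_ap R hl' t
    rw [zpow_natCast, zpow_natCast, ← pow_mul, ← pow_mul, ← ht, π.pow, (hW _).1 hv] at e
    exact Units.ext (smul_left_injective ℂ hv0 e).symm
  · have : NeZero d := ⟨d0.ne'⟩
    refine ZMod.val_injective d (hi (ZMod.val_lt i) (ZMod.val_lt j) ?_)
    change τ^[_] η = τ^[_] η
    rw [iter, iter]
    exact MonoidHom.ext fun a => Units.ext (DFunLike.congr_fun e a)

omit [FiniteDimensional ℂ V] in
theorem fam (π : Pres Δ G)
    (hX : ∀ (i : ℕ) (a : A), π.X ^ i * π.ι a * (π.X ^ i)⁻¹ = π.ι ((Δ.σ ^ i) a))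
    (R : G →* Module.End ℂ V) (P : Pt Δ ℂ) {v : V} (h0 : v ≠ 0)
    (h1 : ∀ a, R (π.ι a) v = (P.η a : ℂ) • v)
    (h2 : R (π.X ^ P.d) v = ((P.ω ^ P.d : ℂˣ) : ℂ) • v) : ∃ u : ZMod P.d → V, (∀ j, u j ≠ 0) ∧
      (∀ a j, R (π.ι a) (u j) = P.ch j.val a • u j) ∧
      ∀ (e : ℤ) j, R (π.X ^ e) (u j) = ((P.ω ^ e : ℂˣ) : ℂ) • u (j - e) := by
  refine ⟨fun j => ((P.ω ^ j.val : ℂˣ) : ℂ) • R (π.X ^ j.val)⁻¹ v,
    fun j => smul_ne_zero (Units.ne_zero _) (ne_ap R _ h0), fun a j => ?_, fun e j => ?_⟩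
  · have e : π.ι a * (π.X ^ j.val)⁻¹ = (π.X ^ j.val)⁻¹ * π.ι ((Δ.σ ^ j.val) a) := by
      rw [← hX]; group
    rw [map_smul, ← mul_ap, e, mul_ap, h1, map_smul, smul_comm, Pt.ch_apply]
  · obtain ⟨t, ht⟩ : (P.d : ℤ) ∣ ((j - e).val : ℤ) - (j.val - e) := by
      rw [← ZMod.intCast_eq_intCast_iff_dvd_sub]
      simp
    have e1 : π.X ^ e * (π.X ^ j.val)⁻¹ = (π.X ^ (j - e).val)⁻¹ * (π.X ^ P.d) ^ t := by
      rw [← zpow_natCast, ← zpow_natCast, ← zpow_natCast, ← zpow_mul, ← zpow_neg, ← zpow_neg,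
        ← zpow_add, ← zpow_add, ← ht]
      congr 1
      ring
    have e2 : P.ω ^ j.val * (P.ω ^ P.d) ^ t = P.ω ^ e * P.ω ^ (j - e).val := by
      rw [← zpow_natCast, ← zpow_natCast, ← zpow_natCast, ← zpow_mul, ← zpow_add, ← zpow_add, ← ht]
      congr 1
      ring
    rw [map_smul, ← mul_ap, e1, mul_ap, zpow_ap R h2, map_smul, smul_smul, smul_smul,
      ← Units.val_mul, ← Units.val_mul, e2]

end CliffX

open CliffX Matrix in
theorem cliff (hR : REP_st) : CLIFF_st := by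
  intro A _ _ Δ G _ π r
  obtain ⟨hX, -, -, -, hk⟩ := hR A Δ G π
  have : Nonempty (Fin r.n) := ⟨⟨0, r.pos⟩⟩
  let R : G →* Module.End ℂ (Fin r.n → ℂ) :=
    (Matrix.toLinAlgEquiv' (R := ℂ) (n := Fin r.n)).toMulEquiv.toMonoidHom.comp r.ρ
  have hRa : ∀ g v, R g v = r.ρ g *ᵥ v := fun g v => Matrix.toLinAlgEquiv'_apply _ _
  obtain ⟨P, v, h0, h1, h2, hi⟩ := core π hX R
  obtain ⟨u, u0, u1, u2⟩ := fam π hX R P h0 h1 h2
  let Q : Matrix (Fin r.n) (ZMod P.d) ℂ := Matrix.of fun k j => u j k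
  have key : ∀ g, r.ρ g * Q = Q * rep π P g := fun g => by
    obtain ⟨a, e, rfl⟩ := π.gen g
    ext k j
    have e1 : (r.ρ (π.ι a * π.X ^ e) * Q) k j = R (π.ι a * π.X ^ e) (u j) k := by
      rw [hRa]; rfl
    rw [e1, mul_ap, u2, map_smul, u1, (hk ℂ P).1, Matrix.mul_apply,
      Finset.sum_eq_single (j - e), rho_single, if_pos (sub_add_cancel _ _).symm, lam_of]
    · simp only [Pi.smul_apply, smul_eq_mul, Pt.ch_apply, Q, Matrix.of_apply]
      ring
    · intro i _ hne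
      rw [rho_single, if_neg fun h => hne (by rw [h, add_sub_cancel_right]), mul_zero]
    · exact fun h => absurd (Finset.mem_univ _) h
  have hQ : ∀ x, Q *ᵥ x = ∑ j, x j • u j := fun x => by
    funext k
    simp only [Matrix.mulVec, dotProduct, Q, Matrix.of_apply, Finset.sum_apply, Pi.smul_apply,
      smul_eq_mul, mul_comm]
  have inj : Function.Injective (Matrix.toLin' Q) := by
    refine (injective_iff_map_eq_zero _).2 fun x hx => funext fun j => ?_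
    rw [Matrix.toLin'_apply, hQ] at hx
    have li := (linearIndependent_monoidHom A ℂ).comp _ hi
    obtain ⟨k, hk0⟩ := Function.ne_iff.1 (u0 j)
    refine (mul_eq_zero.1 (Fintype.linearIndependent_iff.1 li (fun i => x i * u i k)
      (funext fun a => ?_) j)).resolve_right hk0
    have e := congrFun (congrArg (R (π.ι a)) hx) k
    simp only [map_sum, map_smul, u1, map_zero, Finset.sum_apply, Pi.smul_apply, smul_eq_mul] at e
    simp only [Finset.sum_apply, Pi.smul_apply, smul_eq_mul, Function.comp_apply]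
    refine Eq.trans (Finset.sum_congr rfl fun i _ => ?_) e
    ring
  have sur : Function.Surjective (Matrix.toLin' Q) := by
    refine LinearMap.range_eq_top.1 ((r.irr _ ?_).resolve_left fun h => ?_)
    · rintro g _ ⟨x, rfl⟩
      exact ⟨rep π P g *ᵥ x, by
        rw [Matrix.toLin'_apply, Matrix.toLin'_apply, mulVec_mulVec, mulVec_mulVec, key]⟩
    · have e := inj ((LinearMap.congr_fun (LinearMap.range_eq_bot.1 h) 1).trans (map_zero _).symm)
      exact one_ne_zero (congrFun e 0)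
  let E := LinearEquiv.ofBijective _ ⟨inj, sur⟩
  have q1 : Q * LinearMap.toMatrix' E.symm.toLinearMap = 1 := by
    rw [← LinearMap.toMatrix'_toLin' Q, ← LinearMap.toMatrix'_comp, ← LinearMap.toMatrix'_id]
    exact congrArg _ (LinearMap.ext E.apply_symm_apply)
  refine ⟨P, Q, LinearMap.toMatrix' E.symm.toLinearMap, q1, ?_, fun g => ?_⟩
  · conv_lhs => rw [← LinearMap.toMatrix'_toLin' Q]
    rw [← LinearMap.toMatrix'_comp, ← LinearMap.toMatrix'_id]
    exact congrArg _ (LinearMap.ext E.symm_apply_apply)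
  · rw [← key, Matrix.mul_assoc, q1, Matrix.mul_one]

end Pool.Agent.MP_f3cd89_nt
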