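import Pool.Agent.MP_f3cd89_nt.AStm

/-! The reduced norms surject on `B / p B` modulo nilpotents. -/

set_option autoImplicit false

open Finset Polynomial

namespace Pool.Agent.MP_f3cd89_nt

namespace ConeX

theorem clo {M N : Type} [AddCommGroup M] [AddCommGroup N] (R : M → N → Prop) (h0 : R 0 0)
    (ha : ∀ a b c d, R a b → R c d → R (a + c) (b + d)) (hn : ∀ a b, R a b → R (-a) (-b))
    {S : Set M} {T : AddSubgroup N} (h : ∀ s ∈ S, ∃ t ∈ T, R s t) :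
    ∀ s ∈ AddSubgroup.closure S, ∃ t ∈ T, R s t := by
  intro s hs
  induction hs using AddSubgroup.closure_induction with
  | mem x hx => exact h x hx
  | zero => exact ⟨0, T.zero_mem, h0⟩
  | add x y _ _ h1 h2 =>
    obtain ⟨a, a1, a2⟩ := h1
    obtain ⟨b, b1, b2⟩ := h2
    exact ⟨a + b, T.add_mem a1 b1, ha _ _ _ _ a2 b2⟩
  | neg x _ h1 =>
    obtain ⟨a, a1, a2⟩ := h1
    exact ⟨-a, T.neg_mem a1, hn _ _ a2⟩

theorem rad {O : Type} [CommRing O] (hO : ∀ x : O, IsIntegral ℤ x) (p : ℕ) [hp : Fact p.Prime]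
    (x : O) (h : ∀ κ : O →+* Kb p, κ x = 0) : ∃ (n : ℕ) (z : O), x ^ n = p * z := by
  have key : x ∈ (Ideal.span {(p : O)}).radical := by
    rw [Ideal.radical_eq_sInf, Submodule.mem_sInf]
    rintro q ⟨q1, q2⟩
    have hq : ((p : ℕ) : O ⧸ q) = 0 := by
      rw [← map_natCast (Ideal.Quotient.mk q), Ideal.Quotient.eq_zero_iff_mem]
      exact q1 (Ideal.mem_span_singleton_self _)
    have : CharP (O ⧸ q) p := (CharP.charP_iff_prime_eq_zero hp.out).2 hq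
    let : Algebra (ZMod p) (O ⧸ q) := ZMod.algebra _ p
    have : Algebra.IsIntegral (ZMod p) (O ⧸ q) := ⟨fun y => by
      obtain ⟨y, rfl⟩ := Ideal.Quotient.mk_surjective y
      exact ((hO y).map (Ideal.Quotient.mk q).toIntAlgHom).tower_top⟩
    let f : (O ⧸ q) →ₐ[ZMod p] Kb p := IsAlgClosed.lift
    have hf : RingHom.ker (f : (O ⧸ q) →+* Kb p) = ⊥ := by
      refine Ideal.eq_bot_of_comap_eq_bot (R := ZMod p) (eq_bot_iff.2 fun y hy => ?_)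
      rw [Ideal.mem_comap, RingHom.mem_ker, RingHom.coe_coe, AlgHom.commutes,
        map_eq_zero] at hy
      exact hy
    have h1 : Ideal.Quotient.mk q x ∈ RingHom.ker (f : (O ⧸ q) →+* Kb p) :=
      h ((f : (O ⧸ q) →+* Kb p).comp (Ideal.Quotient.mk q))
    rw [hf, Ideal.mem_bot] at h1
    exact Ideal.Quotient.eq_zero_iff_mem.1 h1
  obtain ⟨n, hn⟩ := key
  obtain ⟨z, hz⟩ := Ideal.mem_span_singleton'.1 hn
  exact ⟨n, z, by rw [← hz, mul_comm]⟩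

theorem int_pi {Y R : Type} [Finite Y] [CommRing R] (z : Y → R) (h : ∀ y, IsIntegral ℤ (z y)) :
    IsIntegral ℤ z := by
  have := Fintype.ofFinite Y
  choose q h1 h2 using h
  refine ⟨∏ y, q y, monic_prod_of_monic _ _ fun y _ => h1 y, funext fun y => ?_⟩
  have h3 := hom_eval₂ (∏ y, q y) (algebraMap ℤ (Y → R)) (Pi.evalRingHom (fun _ => R) y) z
  refine h3.trans ?_
  rw [eval₂_finsetProd]
  refine prod_eq_zero (mem_univ y) ?_
  rw [Subsingleton.elim ((Pi.evalRingHom (fun _ => R) y).comp (algebraMap ℤ (Y → R)))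
    (algebraMap ℤ R)]
  exact h2 y

theorem pow_int {R : Type} [CommRing R] (S : Subring R) (p : ℕ) (z : R) (hz : IsIntegral ℤ z)
    (h : p * z ∈ S) : ∃ n : ℕ, ∃ g ∈ S, p • g = (p * z) ^ n := by
  obtain ⟨q, h1, h2⟩ := hz
  rw [← aeval_def, h1.as_sum, map_add, map_sum, aeval_X_pow, add_eq_zero_iff_eq_neg] at h2
  refine ⟨q.natDegree, -∑ i ∈ range q.natDegree,
    (q.coeff i : R) * p ^ (q.natDegree - i - 1) * (p * z) ^ i, S.neg_mem (S.sum_mem fun i _ =>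
      S.mul_mem (S.mul_mem (intCast_mem S _) (S.pow_mem (natCast_mem S p) _)) (S.pow_mem h _)), ?_⟩
  rw [mul_pow _ z q.natDegree, h2, nsmul_eq_mul, mul_neg, mul_neg, mul_sum, mul_sum, neg_inj]
  refine sum_congr rfl fun i hi => ?_
  obtain ⟨j, hj⟩ := Nat.exists_eq_add_of_lt (mem_range.1 hi)
  rw [hj, show i + j + 1 - i - 1 = j by omega, map_mul, aeval_C, aeval_X_pow, eq_intCast]
  ring

variable {A : Type} [CommGroup A] {Δ : Dat A} {k k' : Type} [CommRing k] [CommRing k']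

theorem pt_ext {P Q : Pt Δ k} (h1 : P.d = Q.d) (h2 : P.η = Q.η) (h3 : P.ω = Q.ω) : P = Q := by
  obtain ⟨d, _, η, _, ω, _⟩ := P
  obtain ⟨d', _, η', _, ω', _⟩ := Q
  obtain rfl : d = d' := h1
  obtain rfl : η = η' := h2
  obtain rfl : ω = ω' := h3
  rfl

theorem eta_pow (P : Pt Δ k) (a : A) : P.η a ^ (Δ.m * Nat.card A) = 1 := by
  rw [mul_comm, pow_mul, ← map_pow, pow_card_eq_one', map_one, one_pow]

theorem om_pow (P : Pt Δ k) : P.ω ^ (Δ.m * Nat.card A) = 1 := by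
  rw [pow_mul, P.ω_pow, ← map_pow, pow_card_eq_one', map_one]

theorem finite_pt [Finite A] : Finite (Pt Δ ℂ) := by
  have : NeZero (Δ.m * Nat.card A) := ⟨(Nat.mul_pos Δ.m_pos Nat.card_pos).ne'⟩
  refine Finite.of_injective (fun P : Pt Δ ℂ =>
    ((⟨P.d, Nat.lt_succ_of_le (Nat.le_of_dvd Δ.m_pos P.d_dvd)⟩ : Fin (Δ.m + 1)),
      (fun a => (⟨P.η a, eta_pow P a⟩ : rootsOfUnity (Δ.m * Nat.card A) ℂ)),
      (⟨P.ω, om_pow P⟩ : rootsOfUnity (Δ.m * Nat.card A) ℂ))) fun P Q h => ?_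
  obtain ⟨h1, h⟩ := Prod.mk.inj h
  obtain ⟨h2, h3⟩ := Prod.mk.inj h
  exact pt_ext (congrArg Fin.val h1)
    (MonoidHom.ext fun a => congrArg Subtype.val (congrFun h2 a)) (congrArg Subtype.val h3)

/-- the ring of algebraic integers -/
abbrev OO : Type := integralClosure ℤ ℂ

/-- its inclusion in the complex numbers -/
noncomputable def ii : OO →+* ℂ := algebraMap OO ℂ

theorem ii_inj : Function.Injective (Units.map (ii : OO →* ℂ)) :=
  Units.map_injective Subtype.val_injective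

theorem ii_root {N : ℕ} (hN : 0 < N) (u : ℂˣ) (h : u ^ N = 1) :
    ∃ v : OOˣ, Units.map (ii : OO →* ℂ) v = u := by
  have k : ∀ u : ℂˣ, u ^ N = 1 → IsIntegral ℤ (u : ℂ) := fun u h =>
    IsIntegral.of_pow hN (by rw [← Units.val_pow_eq_pow_val, h]; exact isIntegral_one)
  exact ⟨⟨⟨u, k u h⟩, ⟨(u⁻¹ : ℂˣ), k u⁻¹ (by rw [inv_pow, h, inv_one])⟩, Subtype.ext u.mul_inv,
    Subtype.ext u.inv_mul⟩, Units.ext rfl⟩

theorem lift_pt [Finite A] (P : Pt Δ ℂ) : ∃ Q : Pt Δ OO, Q.map ii = P := by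
  have hN : 0 < Δ.m * Nat.card A := Nat.mul_pos Δ.m_pos Nat.card_pos
  choose g hg using fun a => ii_root hN _ (eta_pow P a)
  obtain ⟨w, hw⟩ := ii_root hN _ (om_pow P)
  refine ⟨⟨P.d, P.d_dvd, MonoidHom.mk' g fun a b => ii_inj ?_, fun a => ii_inj ?_, w, ii_inj ?_⟩,
    pt_ext rfl (MonoidHom.ext hg) hw⟩
  · rw [map_mul, hg, hg, hg, map_mul]
  · exact (hg _).trans ((P.inv a).trans (hg a).symm)
  · rw [map_pow, hw, P.ω_pow]
    exact (hg _).symm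

/-- compatibility with all changes of coefficients -/
def Rel (f : Pt Δ k → k) (g : Pt Δ k' → k') : Prop :=
  ∀ (κ : k →+* k') (P : Pt Δ k), g (P.map κ) = κ (f P)

theorem rel_zero : Rel (0 : Pt Δ k → k) (0 : Pt Δ k' → k') := fun κ _ => κ.map_zero.symm

theorem Rel.add {a c : Pt Δ k → k} {b d : Pt Δ k' → k'} (h : Rel a b) (h' : Rel c d) :
    Rel (a + c) (b + d) := fun κ P => by
  rw [Pi.add_apply, Pi.add_apply, map_add, h, h']

theorem Rel.neg {a : Pt Δ k → k} {b : Pt Δ k' → k'} (h : Rel a b) : Rel (-a) (-b) := fun κ P => by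
  rw [Pi.neg_apply, Pi.neg_apply, map_neg, h]

theorem up {S : Set (Pt Δ k → k)} {T : AddSubgroup (Pt Δ k' → k')} (h : ∀ s ∈ S, ∃ t ∈ T, Rel s t) :
    ∀ s ∈ AddSubgroup.closure S, ∃ t ∈ T, Rel s t :=
  clo Rel rel_zero (fun _ _ _ _ => Rel.add) (fun _ _ => Rel.neg) h

theorem down {S : Set (Pt Δ k' → k')} {T : AddSubgroup (Pt Δ k → k)}
    (h : ∀ s ∈ S, ∃ t ∈ T, Rel t s) : ∀ s ∈ AddSubgroup.closure S, ∃ t ∈ T, Rel t s :=
  clo (fun s t => Rel t s) rel_zero (fun _ _ _ _ => Rel.add) (fun _ _ => Rel.neg) h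

theorem rel_V (hB : BASE_st) (d : ℕ) (a : A) (e : ℤ) :
    Rel (V d a e : Pt Δ k → k) (V d a e : Pt Δ k' → k') := fun κ P =>
  ((hB A Δ k).2.2.2.2.2.2.2.2 k' κ P).1 d _ e

theorem rel_Dt (hB : BASE_st) {r : ℕ} (H : Matrix (Fin r) (Fin r) (ℤ →₀ MonoidAlgebra ℤ A)) :
    Rel (Dt H : Pt Δ k → k) (Dt H : Pt Δ k' → k') := fun κ P =>
  ((hB A Δ k).2.2.2.2.2.2.2.2 k' κ P).2 r H

end ConeX

open ConeX in
theorem c1 (hA : C1A_st) (hB : BASE_st) (hR : BRING_st) (hJ : JB_st) : C1_st := by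
  intro A _ _ Δ p hp β hβ
  have : Fact p.Prime := ⟨hp⟩
  have : Finite (Pt Δ ℂ) := finite_pt
  have := Fintype.ofFinite (Pt Δ ℂ)
  obtain ⟨β₀, b1, b2⟩ : ∃ β₀ ∈ B Δ OO, Rel β₀ β := down (by
    rintro _ ⟨d, a, e, h1, h2, rfl⟩
    exact ⟨_, V_mem a h1 h2, rel_V hB d a e⟩) β hβ
  obtain ⟨β₁, c1, c2⟩ : ∃ β₁ ∈ B Δ (Kb p), Rel β₀ β₁ := up (by
    rintro _ ⟨d, a, e, h1, h2, rfl⟩
    exact ⟨_, V_mem a h1 h2, rel_V hB d a e⟩) β₀ b1
  obtain ⟨Θ₀, d1, d2⟩ : ∃ Θ₀ ∈ J Δ OO, Rel Θ₀ β₁ := down (by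
    rintro _ ⟨r, H, rfl⟩
    exact ⟨_, Dt_mem H, rel_Dt hB H⟩) β₁ (hA A Δ p c1)
  obtain ⟨Θ, e1, e2⟩ : ∃ Θ ∈ J Δ ℂ, Rel Θ₀ Θ := up (by
    rintro _ ⟨r, H, rfl⟩
    exact ⟨_, Dt_mem H, rel_Dt hB H⟩) Θ₀ d1
  choose s hs using fun P : Pt Δ ℂ => lift_pt P
  choose n z hz using fun P : Pt Δ ℂ => rad (fun x : OO => Algebra.IsIntegral.isIntegral x) p
    (β₀ (s P) - Θ₀ (s P)) fun κ => by rw [map_sub, ← c2, ← d2, sub_self]
  let S : Subring (Pt Δ ℂ → ℂ) :=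
    { B Δ ℂ with
      one_mem' := (hR A Δ ℂ).1
      mul_mem' := fun h h' => (hR A Δ ℂ).2.1 _ h _ h' }
  have hx : β - Θ ∈ S := (B Δ ℂ).sub_mem hβ (hJ A Δ ℂ e1)
  have key : (p : Pt Δ ℂ → ℂ) * (fun P => ii (z P * (β₀ (s P) - Θ₀ (s P)) ^ (univ.sup n - n P))) =
      (β - Θ) ^ univ.sup n := by
    funext P
    have k1 : (β - Θ) P = ii (β₀ (s P) - Θ₀ (s P)) := by
      rw [map_sub, ← b2, ← e2, hs, Pi.sub_apply]
    rw [Pi.mul_apply, Pi.pow_apply, k1, Pi.natCast_apply, ← map_natCast ii, ← map_mul, ← mul_assoc,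
      ← hz, ← pow_add, Nat.add_sub_cancel' (le_sup (mem_univ P)), map_pow]
  obtain ⟨m, g, g1, g2⟩ := pow_int S p _ (int_pi _ fun P =>
    (z P * (β₀ (s P) - Θ₀ (s P)) ^ (univ.sup n - n P)).2) (by
      have := S.pow_mem hx (univ.sup n)
      rw [← key] at this
      exact this)
  refine ⟨Θ, e1, univ.sup n * m, g, g1, ?_⟩
  rw [pow_mul, ← key]
  exact g2

end Pool.Agent.MP_f3cd89_nt
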