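import Pool.Agent.MP_f3cd89_nt.CStm

/-! Reciprocity for totally real cyclic extensions. -/

set_option autoImplicit false

open Finset NumberField IsDedekindDomain

namespace Pool.Agent.MP_f3cd89_nt

namespace CoreX

theorem idx {M G : Type} [AddCommGroup M] [AddCommGroup G] [Finite G] (χ : M →+ G)
    (A H : AddSubgroup M) (h1 : ∀ D ∈ A, χ D = 0 → D ∈ H) (h2 : Nat.card G ≤ H.relIndex A) :
    ∀ D ∈ A, D ∈ H → χ D = 0 := by
  have h3 := AddSubgroup.relIndex_mul_relIndex (χ.ker ⊓ A) (H ⊓ A) A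
    (fun D hD => ⟨h1 D hD.2 hD.1, hD.2⟩) inf_le_right
  rw [AddSubgroup.inf_relIndex_right, AddSubgroup.inf_relIndex_right,
    AddSubgroup.relIndex_ker] at h3
  have h4 : 0 < Nat.card (A.map χ) := Nat.card_pos
  have h5 := (AddSubgroup.card_le_card_addGroup (A.map χ)).trans h2
  rw [← h3] at h4 h5
  have h6 : (χ.ker ⊓ A).relIndex (H ⊓ A) = 1 :=
    le_antisymm (le_of_mul_le_mul_right (by rwa [one_mul]) (Nat.pos_of_mul_pos_left h4))
      (Nat.pos_of_mul_pos_right h4)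
  exact fun D hA hH => (AddSubgroup.relIndex_eq_one.1 h6 ⟨hH, hA⟩).1

section Grp

variable {G U U₁ U₂ : Type} [CommGroup G] [CommGroup U] [CommGroup U₁] [CommGroup U₂]

/-- an auxiliary subgroup -/
def HH (γ : G) (β : U) (g : G) (α : U) : Subgroup (G × U) where
  carrier := {h | ∃ i k : ℤ, h.1 = γ ^ i * g ^ k ∧ h.2 ^ 2 = (β ^ i * α ^ k) ^ 2}
  one_mem' := ⟨0, 0, by simp, by simp⟩
  mul_mem' := by
    rintro a b ⟨i, k, h1, h2⟩ ⟨i', k', h3, h4⟩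
    refine ⟨i + i', k + k', ?_, ?_⟩
    · rw [Prod.fst_mul, h1, h3, zpow_add, zpow_add, mul_mul_mul_comm]
    · rw [Prod.snd_mul, mul_pow, h2, h4, zpow_add, zpow_add, ← mul_pow, mul_mul_mul_comm]
  inv_mem' := by
    rintro a ⟨i, k, h1, h2⟩
    refine ⟨-i, -k, ?_, ?_⟩
    · rw [Prod.fst_inv, h1, zpow_neg, zpow_neg, mul_inv]
    · rw [Prod.snd_inv, inv_pow, h2, zpow_neg, zpow_neg, ← mul_inv, inv_pow]

theorem HH_gen (γ : G) (β : U) (g : G) (α : U) : (γ, β) ∈ HH γ β g α := ⟨1, 0, by simp, by simp⟩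

theorem HH_gen' (γ : G) (β : U) (g : G) (α : U) : (g, α) ∈ HH γ β g α := ⟨0, 1, by simp, by simp⟩

theorem HH_sq (γ : G) (β : U) (g : G) (α : U) {c : U} (hc : c ^ 2 = 1) : (1, c) ∈ HH γ β g α :=
  ⟨0, 0, by simp, by simpa using hc⟩

theorem HH_onto {γ : G} (hγ : ∀ x, x ∈ Subgroup.zpowers γ) (β : U) (g : G) (α : U) (x : G) :
    ∃ h ∈ HH γ β g α, h.1 = x := by
  obtain ⟨i, rfl⟩ := hγ x
  exact ⟨(γ ^ i, β ^ i), ⟨i, 0, by simp, by simp⟩, rfl⟩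

theorem HH_le (γ : G) (β : U) (g : G) (α : U) : HH γ β 1 1 ≤ HH γ β g α := by
  rintro h ⟨i, k, h1, h2⟩
  exact ⟨i, 0, by simpa using h1, by simpa using h2⟩

theorem HH_map (π : U →* U₂) {γ : G} {β : U} {x : G} {u : U} (h : (x, u) ∈ HH γ β 1 1) :
    (x, π u) ∈ HH γ (π β) 1 1 := by
  obtain ⟨i, k, h1, h2⟩ := h
  exact ⟨i, k, h1, by simpa using congrArg π h2⟩

theorem dvd_of_sq {n : ℕ} {b : U} (hb : 2 * n ∣ orderOf b) {i : ℤ} (h : (b ^ i) ^ 2 = 1) :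
    (n : ℤ) ∣ i := by
  rw [← zpow_natCast, ← zpow_mul, ← orderOf_dvd_iff_zpow_eq_one] at h
  have h1 := (Int.natCast_dvd_natCast.2 hb).trans h
  rw [Nat.cast_mul, mul_comm] at h1
  exact Int.dvd_of_mul_dvd_mul_right (by norm_num) h1

theorem zpow_one_of {n : ℕ} (hn : ∀ x : G, x ^ n = 1) (x : G) {i : ℤ} (h : (n : ℤ) ∣ i) :
    x ^ i = 1 := by
  obtain ⟨j, rfl⟩ := h
  rw [zpow_mul, zpow_natCast, hn, one_zpow]

theorem HH_two {n : ℕ} (hn : ∀ x : G, x ^ n = 1) (γ : G) {b : U} (hb : 2 * n ∣ orderOf b) :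
    ∀ h ∈ HH γ b 1 1, h.2 = 1 → h.1 = 1 := by
  rintro h ⟨i, k, h1, h2⟩ h3
  rw [h3, one_pow, one_zpow, mul_one] at h2
  rw [h1, one_zpow, mul_one, zpow_one_of hn γ (dvd_of_sq hb h2.symm)]

theorem HH_three {n : ℕ} (hn : ∀ x : G, x ^ n = 1) (γ g : G) {β α : U} (π₁ : U →* U₁)
    (π₂ : U →* U₂) (h₁ : π₁ β = 1) (hα : 2 * n ∣ orderOf (π₁ α)) (hβ : 2 * n ∣ orderOf (π₂ β))
    (h₂ : π₂ α ∈ Subgroup.zpowers (π₂ β)) : ∀ h ∈ HH γ β g α, h.2 = 1 → h.1 = 1 := by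
  rintro h ⟨i, k, h1, h2⟩ h3
  rw [h3, one_pow] at h2
  have h4 := congrArg π₁ h2
  rw [map_one, map_pow, map_mul, map_zpow, map_zpow, h₁, one_zpow, one_mul] at h4
  have h5 := dvd_of_sq hα h4.symm
  obtain ⟨j, hj⟩ := Subgroup.mem_zpowers_iff.1 h₂
  have h6 := congrArg π₂ h2
  rw [map_one, map_pow, map_mul, map_zpow, map_zpow, ← hj, ← zpow_mul, ← zpow_add] at h6
  have h7 := (dvd_add_left (h5.mul_left j)).1 (dvd_of_sq hβ h6.symm)
  rw [h1, zpow_one_of hn γ h7, zpow_one_of hn g h5, mul_one]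

end Grp

theorem exists_beta {m q : ℕ} [NeZero q] (h : m.Coprime q) (b : (ZMod q)ˣ) :
    ∃ β : (ZMod (m * q))ˣ, ZMod.unitsMap (dvd_mul_right m q) β = 1 ∧
      ZMod.unitsMap (dvd_mul_left q m) β = b := by
  obtain ⟨k, h1, h2⟩ := Nat.chineseRemainder h 1 (b : ZMod q).val
  refine ⟨ZMod.unitOfCoprime k (Nat.Coprime.mul_right (h1.gcd_eq.trans (Nat.gcd_one_left m))
    (h2.gcd_eq.trans (ZMod.val_coe_unit_coprime b))), Units.ext ?_, Units.ext ?_⟩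
  · rw [ZMod.unitsMap_val, ZMod.coe_unitOfCoprime, ZMod.cast_natCast (dvd_mul_right m q),
      (ZMod.natCast_eq_natCast_iff _ _ _).2 h1, Nat.cast_one, Units.val_one]
  · rw [ZMod.unitsMap_val, ZMod.coe_unitOfCoprime, ZMod.cast_natCast (dvd_mul_left q m),
      (ZMod.natCast_eq_natCast_iff _ _ _).2 h2, ZMod.natCast_zmod_val]

variable {F : Type} [Field F] [NumberField F]

theorem exS (S : Finset (Pr F)) {m : ℕ} (hm : m ≠ 0) :
    ∃ S' : Finset (Pr F), ∀ v, v ∈ S' ↔ v ∈ S ∨ (m : 𝓞 F) ∈ v.asIdeal := by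
  have h := S.finite_toSet.union
    (Ideal.finite_factors (I := Ideal.span {(m : 𝓞 F)}) (by simpa using hm))
  exact ⟨h.toFinset, fun v => by simp⟩

theorem notMem_of_coprime {m : ℕ} (v : Pr F) (h : m.Coprime (nrm v)) : (m : 𝓞 F) ∉ v.asIdeal :=
  fun hm => by
    obtain ⟨a, b, hab⟩ := h.cast (R := 𝓞 F)
    exact (Ideal.ne_top_iff_one _).1 v.isPrime.ne_top (hab ▸ add_mem (Ideal.mul_mem_left _ a hm)
      (Ideal.mul_mem_left _ b (Ideal.absNorm_mem _)))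

theorem HF_mono (S : Finset (Pr F)) {S' : Finset (Pr F)} (h : S ⊆ S') (N : ℕ) (o : Pr F → ℕ) :
    HF S S' N o ≤ HF S S N o :=
  AddSubgroup.closure_mono (Set.union_subset_union_right _
    fun _ ⟨v, hv, e⟩ => ⟨v, fun hs => hv (h hs), e⟩)

theorem DH_le {G G' : Type} [Group G] [Group G'] {S S' : Finset (Pr F)} {φ : Pr F → G}
    {φ' : Pr F → G'} {H : Subgroup G} {H' : Subgroup G'} (h : S' ⊆ S)
    (h' : ∀ v, v ∉ S → ∀ f : ℕ, φ v ^ f ∈ H → φ' v ^ f ∈ H') : DH S φ H ≤ DH S' φ' H' :=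
  AddSubgroup.closure_mono fun _ ⟨v, f, hv, hf, e⟩ => ⟨v, f, fun hs => hv (h hs), h' v hv f hf, e⟩

theorem DH_off {G : Type} [Group G] {S S' : Finset (Pr F)} (h : S ⊆ S') (φ : Pr F → G)
    (H : Subgroup G) : DH S' φ H ≤ off S := by
  refine (AddSubgroup.closure_le _).2 ?_
  rintro _ ⟨v, f, hv, -, rfl⟩ w hw
  exact Finsupp.single_eq_of_ne fun e => hv (h (e ▸ hw))

omit [NumberField F] in
theorem mem_of_single (Q : AddSubgroup (Pr F →₀ ℤ)) (D : Pr F →₀ ℤ)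
    (h : ∀ v ∈ D.support, Finsupp.single v 1 ∈ Q) : D ∈ Q := by
  rw [← Finsupp.sum_single D]
  refine sum_mem fun v hv => ?_
  simpa using Q.zsmul_mem (h v hv) (D v)

variable {G : Type} [CommGroup G]

/-- the character as an additive homomorphism -/
noncomputable def chi (φ : Pr F → G) : (Pr F →₀ ℤ) →+ Additive G :=
  AddMonoidHom.mk' (fun D => Additive.ofMul (chv φ D)) fun D D' => by rw [chv_add, ofMul_mul]

theorem chv_zsmul (φ : Pr F → G) (k : ℤ) (D : Pr F →₀ ℤ) : chv φ (k • D) = chv φ D ^ k :=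
  congrArg Additive.toMul (map_zsmul (chi φ) k D)

theorem chv_sub (φ : Pr F → G) (D D' : Pr F →₀ ℤ) : chv φ (D - D') = chv φ D / chv φ D' :=
  congrArg Additive.toMul (map_sub (chi φ) D D')

theorem chv_fst {U : Type} [CommGroup U] (φ : Pr F → G) (ν : Pr F → U) (D : Pr F →₀ ℤ) :
    (chv (fun v => (φ v, ν v)) D).1 = chv φ D :=
  chv_map (MonoidHom.fst G U) _ D

theorem card_smul_mem [Finite G] (S : Finset (Pr F)) (N : ℕ) (φ : Pr F → G) {D : Pr F →₀ ℤ}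
    (hD : D ∈ off S) : (Nat.card G : ℤ) • D ∈ HF S S N fun v => orderOf (φ v) := by
  refine mem_of_single ((HF S S N fun v => orderOf (φ v)).comap
    (DistribSMul.toAddMonoidHom _ (Nat.card G : ℤ))) D fun v hv => ?_
  obtain ⟨c, hc⟩ := orderOf_dvd_natCard (φ v)
  have h1 : Finsupp.single v (orderOf (φ v) : ℤ) ∈ HF S S N fun v => orderOf (φ v) :=
    AddSubgroup.subset_closure
      (Or.inr ⟨v, fun hs => Finsupp.mem_support_iff.1 hv (hD v hs), rfl⟩)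
  simpa [hc, mul_comm] using AddSubgroup.zsmul_mem _ h1 c

/-- what the crossing with the cyclotomic extension of level `m` gives -/
def Cross (S : Finset (Pr F)) (φ : Pr F → G) (Q : AddSubgroup (Pr F →₀ ℤ)) (m : ℕ) : Prop :=
  ∃ (S' : Finset (Pr F)) (ν : Pr F → (ZMod m)ˣ),
    (∀ v, v ∈ S' ↔ v ∈ S ∨ (m : 𝓞 F) ∈ v.asIdeal) ∧ (∀ v, v ∉ S' → (ν v : ZMod m) = nrm v) ∧
    ∀ H : Subgroup (G × (ZMod m)ˣ),
      (∀ h ∈ H, ∃ D ∈ DH S' (fun v => (φ v, ν v)) H, chv φ D = h.1) ∧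
      ((1, -1) ∈ H → (∀ g : G, ∃ h ∈ H, h.1 = g) → (∀ h ∈ H, h.2 = 1 → h.1 = 1) →
        ∀ D ∈ DH S' (fun v => (φ v, ν v)) H, chv φ D = 1 → D ∈ Q)

theorem cross (hX : XL_st) (hC : CYCLO_st) {L : Type} [Field L] [NumberField L] [IsTotallyReal L]
    [Algebra F L] [Finite G] [MulSemiringAction G L] [IsGaloisGroup G F L] {S : Finset (Pr F)}
    {φ : Pr F → G} (hU : Unr L G S) (hφ : IsFrob L S φ) {N : ℕ} (hN : 0 < N) :
    ∃ d : ℕ, d ≠ 0 ∧ ∀ m : ℕ, m ≠ 0 → m.Coprime d →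
      Cross S φ (HF S S N fun v => orderOf (φ v)) m := by
  obtain ⟨d, hd, h⟩ := hC F L G
  refine ⟨d, hd, fun m hm hmd => ?_⟩
  have : NeZero m := ⟨hm⟩
  obtain ⟨Ω, _, _, _, _, _, h1, h2⟩ := h m hmd
  obtain ⟨S', hS'⟩ := exS S hm
  have hle : S ⊆ S' := fun v hv => (hS' v).2 (Or.inl hv)
  obtain ⟨h3, h4⟩ := h2 S S' hle (fun v hv => (hS' v).2 (Or.inr hv)) hU
  obtain ⟨ν, h5, h6⟩ := h4 φ hφ
  refine ⟨S', ν, hS', h5, fun H => ?_⟩
  obtain ⟨h7, h8⟩ := hX F Ω G m S S' _ H hle h3 h6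
  refine ⟨fun x hx => ?_, fun a b c D hD e => HF_mono S hle N _
    (h8 (fun v hv => (hS' v).2 (Or.inr hv)) h5 ⟨_, a, h1 1 fun ε x => ?_⟩ b c N hN D hD
      ((chv_fst φ ν D).trans e))⟩
  · obtain ⟨D, hD, e⟩ := h7 x hx
    exact ⟨D, hD, by rw [← e, chv_fst]⟩
  · rw [one_smul]
    exact (RingHom.congr_fun (ComplexEmbedding.isReal_iff.1
      (IsTotallyReal.complexEmbedding_isReal ε)) x).symm

theorem key (hL : LANG_st) [Finite G] {S : Finset (Pr F)} {φ : Pr F → G}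
    {Q : AddSubgroup (Pr F →₀ ℤ)} {d : ℕ} (hd : d ≠ 0)
    (h : ∀ m : ℕ, m ≠ 0 → m.Coprime d → Cross S φ Q m) {γ : G}
    (hγ : ∀ x, x ∈ Subgroup.zpowers γ) (P : Finset (Pr F)) :
    ∃ b ∈ off S, ∀ p ∈ P, p ∉ S → ∃ k : ℤ, φ p = γ ^ k ∧ Finsupp.single p 1 - k • b ∈ Q := by
  have hn : ∀ x : G, x ^ Nat.card G = 1 := fun _ => pow_card_eq_one'
  have hn0 : 0 < 2 * Nat.card G := Nat.mul_pos two_pos Nat.card_pos
  obtain ⟨q, hq, hlt, hq1⟩ := Nat.exists_prime_gt_modEq_one (max d (P.sup nrm)) hn0.ne'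
  have := Fact.mk hq
  have hqd : q.Coprime d := Nat.coprime_of_lt_prime hd ((le_max_left _ _).trans_lt hlt) hq
  obtain ⟨b, hb⟩ := IsCyclic.exists_generator (α := (ZMod q)ˣ)
  have hb' : 2 * Nat.card G ∣ orderOf b := by
    rw [orderOf_eq_card_of_forall_mem_zpowers hb, Nat.card_eq_fintype_card (α := (ZMod q)ˣ),
      ZMod.card_units]
    exact (Nat.modEq_iff_dvd' hq.one_le).1 hq1.symm
  obtain ⟨S₂, ν₂, a1, a2, a3⟩ := h q hq.ne_zero hqd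
  obtain ⟨B, hB, hB'⟩ := (a3 (HH γ b 1 1)).1 _ (HH_gen γ b 1 1)
  refine ⟨B, DH_off (fun v hv => (a1 v).2 (Or.inl hv)) _ _ hB, fun p hp hpS => ?_⟩
  obtain ⟨m, hm, c1, c2, c3⟩ := hL (nrm p) _ (d * q) (two_le_nrm p) hn0 (mul_ne_zero hd hq.ne_zero)
  have hqp : q.Coprime (nrm p) := Nat.coprime_of_lt_prime (two_pos.trans_le (two_le_nrm p)).ne'
    (((le_sup (f := nrm) hp).trans (le_max_right _ _)).trans_lt hlt) hq
  obtain ⟨S₁, ν₁, b1, b2, b3⟩ := h (m * q) (mul_ne_zero hm.ne' hq.ne_zero)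
    (Nat.Coprime.mul_left c1.coprime_mul_right_right hqd)
  obtain ⟨β, d1, d2⟩ := exists_beta c1.coprime_mul_left_right b
  have hp1 : p ∉ S₁ := fun hh => ((b1 p).1 hh).elim hpS
    (notMem_of_coprime p (Nat.Coprime.mul_left c2 hqp))
  obtain ⟨B', hB1, hB2⟩ := (b3 (HH γ β 1 1)).1 _ (HH_gen γ β 1 1)
  obtain ⟨k, hk⟩ := Subgroup.mem_zpowers_iff.1 (hγ (φ p))
  have hα : 2 * Nat.card G ∣ orderOf (ZMod.unitsMap (dvd_mul_right m q) (ν₁ p)) := by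
    refine c3 _ ((ZMod.natCast_eq_natCast_iff _ _ _).1 ?_)
    have e := congrArg Units.val (pow_orderOf_eq_one (ZMod.unitsMap (dvd_mul_right m q) (ν₁ p)))
    rwa [Units.val_pow_eq_pow_val, ZMod.unitsMap_val, b2 p hp1,
      ZMod.cast_natCast (dvd_mul_right m q), Units.val_one, ← Nat.cast_pow, ← Nat.cast_one] at e
  have e1 : Finsupp.single p 1 - k • B' ∈ Q := by
    refine (b3 (HH γ β (φ p) (ν₁ p))).2 (HH_sq _ _ _ _ neg_one_sq) (HH_onto hγ _ _ _)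
      (HH_three hn γ _ _ (ZMod.unitsMap (dvd_mul_left q m)) d1 hα (d2 ▸ hb') (d2 ▸ hb _)) _
      (sub_mem (AddSubgroup.subset_closure ⟨p, 1, hp1, ?_, rfl⟩) (AddSubgroup.zsmul_mem _
        (DH_le subset_rfl (fun v _ f hf => HH_le _ _ _ _ hf) hB1) k)) ?_
    · rw [pow_one]
      exact HH_gen' _ _ _ _
    · rw [chv_sub, chv_zsmul, chv_single, hB2, hk, zpow_one, div_self']
  have h21 : S₂ ⊆ S₁ := fun v hv => (b1 v).2 (((a1 v).1 hv).imp id fun hh => by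
    rw [Nat.cast_mul]
    exact Ideal.mul_mem_left _ _ hh)
  have e2 : B' - B ∈ Q := by
    refine (a3 (HH γ b 1 1)).2 (HH_sq _ _ _ _ neg_one_sq) (HH_onto hγ _ _ _) (HH_two hn γ hb') _
      (sub_mem (DH_le h21 (fun v hv f hf => ?_) hB1) hB) ?_
    · have e : ZMod.unitsMap (dvd_mul_left q m) (ν₁ v) = ν₂ v := Units.ext (by
        rw [ZMod.unitsMap_val, b2 v hv, ZMod.cast_natCast (dvd_mul_left q m),
          a2 v fun hh => hv (h21 hh)])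
      have e' := HH_map (ZMod.unitsMap (dvd_mul_left q m)) (x := φ v ^ f) (u := ν₁ v ^ f) hf
      rwa [d2, map_pow, e] at e'
    · rw [chv_sub, hB2, hB', div_self']
  refine ⟨k, hk.symm, ?_⟩
  convert add_mem e1 (Q.zsmul_mem e2 k) using 1
  rw [smul_sub, sub_add_sub_cancel]

end CoreX

theorem core (hI : FI_st) (hX : XL_st) (hL : LANG_st) (hC : CYCLO_st) (hB : NTB_st) : CORE_st := by
  intro F L G _ _ _ _ _ _ _ _ _ _ S φ hc hS hU hφ
  obtain ⟨N, hN, h1⟩ := hI F L G S φ hc hS hU hφ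
  obtain ⟨d, hd, h2⟩ := CoreX.cross hX hC hU hφ hN
  obtain ⟨γ, hγ⟩ := hc.exists_generator
  refine ⟨N, hN, fun x hx => CoreX.idx (CoreX.chi φ) (off S) _ (fun a ha h0 => ?_) h1 _
    (((hB F).2.2.2.1 S N hN).2.2 x hx) (AddSubgroup.subset_closure (Or.inl ⟨x, hx, rfl⟩))⟩
  obtain ⟨b, hb, h3⟩ := CoreX.key hL hd h2 hγ a.support
  let Q : AddSubgroup (Pr F →₀ ℤ) :=
    { carrier := {D | ∃ k : ℤ, chv φ D = γ ^ k ∧ D - k • b ∈ HF S S N fun v => orderOf (φ v)}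
      zero_mem' := ⟨0, by rw [chv_zero, zpow_zero], by simp⟩
      add_mem' := by
        rintro D D' ⟨k, e1, e2⟩ ⟨k', e3, e4⟩
        refine ⟨k + k', by rw [chv_add, e1, e3, zpow_add], ?_⟩
        rw [add_smul, add_sub_add_comm]
        exact add_mem e2 e4
      neg_mem' := by
        rintro D ⟨k, e1, e2⟩
        refine ⟨-k, by rw [chv_neg, e1, zpow_neg], ?_⟩
        rw [neg_smul, neg_sub_neg, ← neg_sub]
        exact neg_mem e2 }
  obtain ⟨k, e1, e2⟩ := CoreX.mem_of_single Q a fun p hp => by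
    obtain ⟨k, e1, e2⟩ := h3 p hp fun hs => Finsupp.mem_support_iff.1 hp (ha p hs)
    exact ⟨k, by rw [chv_single, zpow_one, e1], e2⟩
  have h4 : γ ^ k = 1 := e1.symm.trans h0
  rw [← orderOf_dvd_iff_zpow_eq_one, orderOf_eq_card_of_forall_mem_zpowers hγ] at h4
  obtain ⟨j, rfl⟩ := h4
  have h5 := add_mem e2 (AddSubgroup.zsmul_mem _ (CoreX.card_smul_mem S N φ hb) j)
  rwa [smul_smul, mul_comm j, sub_add_cancel] at h5

end Pool.Agent.MP_f3cd89_nt
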