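import Pool.Agent.MP_f3cd89_nt.CStm

set_option autoImplicit false

open Finset NumberField IsDedekindDomain

namespace Pool.Agent.MP_f3cd89_nt

namespace CycX

/-- a prime factor different from `l` of a geometric sum -/
theorem geom_prime {l y : ℕ} (hl : l.Prime) (hy : 2 ≤ y) :
    ∃ q : ℕ, q.Prime ∧ q ≠ l ∧ q ∣ ∑ i ∈ range l, (y ^ l) ^ i := by
  by_contra h
  push Not at h
  have := Fact.mk hl
  set T := ∑ i ∈ range l, (y ^ l) ^ i with hT
  have hx : 2 ≤ y ^ l := hy.trans (Nat.le_self_pow hl.ne_zero y)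
  have hTl : l < T := by
    have h1 : ∑ _i ∈ range l, 1 < T := by
      refine Finset.sum_lt_sum (fun i _ => Nat.one_le_pow _ _ (by omega)) ⟨1, ?_, ?_⟩
      · exact Finset.mem_range.2 hl.one_lt
      · rw [pow_one]; omega
    simpa using h1
  have hT0 : T ≠ 0 := by omega
  have hp : T = l ^ T.primeFactorsList.length :=
    Nat.eq_prime_pow_of_unique_prime_dvd hT0 fun {d} hd hdT => by
      by_contra hne
      exact h d hd hne hdT
  have h2 : l ^ 2 ∣ T := by
    rw [hp]
    refine pow_dvd_pow _ ?_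
    by_contra hlt
    have : l ^ T.primeFactorsList.length ≤ l ^ 1 := Nat.pow_le_pow_right hl.pos (by omega)
    rw [← hp, pow_one] at this
    omega
  have h1 : l ∣ T := (dvd_pow_self l two_ne_zero).trans h2
  have h3 : (y : ZMod l) = 1 := by
    have e1 : ((T : ℕ) : ZMod l) = 0 := (ZMod.natCast_eq_zero_iff _ _).2 h1
    have e2 := geom_sum_mul ((y : ZMod l) ^ l) l
    rw [hT] at e1
    push_cast at e1
    rw [e1, zero_mul, ZMod.pow_card, ZMod.pow_card] at e2
    exact (sub_eq_zero.1 e2.symm)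
  have h4 : (l : ℤ) ∣ (y : ℤ) - 1 := by
    rw [← ZMod.intCast_zmod_eq_zero_iff_dvd]
    push_cast
    rw [h3, sub_self]
  have h5 := dvd_sub_pow_of_dvd_sub h4 1
  simp only [pow_one, one_pow] at h5
  have h6 : (l : ℤ) ^ 2 ∣ (T : ℤ) - l := by
    have e : (T : ℤ) - l = ∑ i ∈ range l, (((y : ℤ) ^ l) ^ i - 1) := by
      rw [hT, Finset.sum_sub_distrib]
      push_cast
      simp
    rw [e]
    refine Finset.dvd_sum fun i _ => h5.trans ?_
    simpa using sub_dvd_pow_sub_pow ((y : ℤ) ^ l) 1 i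
  have h7 : (l : ℤ) ^ 2 ∣ (T : ℤ) := by exact_mod_cast h2
  have h8 : (l : ℤ) ^ 2 ∣ (l : ℤ) := by simpa using dvd_sub h7 h6
  have h9 : l ^ 2 ∣ l := by exact_mod_cast h8
  have := Nat.le_of_dvd hl.pos h9
  nlinarith [hl.two_le]

theorem ord_prime {a l : ℕ} (ha : 2 ≤ a) (hl : l.Prime) (r : ℕ) :
    ∃ q : ℕ, q.Prime ∧ l ^ (r + 2) < q ∧ q.Coprime a ∧
      ∀ k : ℕ, a ^ k ≡ 1 [MOD q] → l ^ (r + 2) ∣ k := by
  have hy : 2 ≤ a ^ l ^ r := ha.trans (Nat.le_self_pow (pow_ne_zero _ hl.ne_zero) a)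
  obtain ⟨q, hq, hne, hd⟩ := geom_prime hl hy
  have := Fact.mk hl
  have := Fact.mk hq
  have e1 : ((∑ i ∈ range l, ((a ^ l ^ r) ^ l) ^ i : ℕ) : ZMod q) = 0 :=
    (ZMod.natCast_eq_zero_iff _ _).2 hd
  push_cast at e1
  rw [← pow_mul, ← pow_succ] at e1
  have hfin : (a : ZMod q) ^ l ^ (r + 1 + 1) = 1 := by
    have e2 := geom_sum_mul ((a : ZMod q) ^ l ^ (r + 1)) l
    rw [e1, zero_mul, ← pow_mul, ← pow_succ] at e2
    exact sub_eq_zero.1 e2.symm
  have hnot : ¬(a : ZMod q) ^ l ^ (r + 1) = 1 := by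
    intro h
    rw [h] at e1
    simp only [one_pow, Finset.sum_const, Finset.card_range, nsmul_eq_mul, mul_one] at e1
    exact hne ((Nat.prime_dvd_prime_iff_eq hq hl).1 ((ZMod.natCast_eq_zero_iff _ _).1 e1))
  have ho := orderOf_eq_prime_pow hnot hfin
  have ha0 : (a : ZMod q) ≠ 0 := by
    intro h
    rw [h, zero_pow (pow_ne_zero _ hl.ne_zero)] at hfin
    exact zero_ne_one hfin
  have h1 := ZMod.orderOf_dvd_card_sub_one ha0
  rw [ho] at h1
  have h2 := Nat.le_of_dvd (by have := hq.two_le; omega) h1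
  refine ⟨q, hq, by have := hq.two_le; change l ^ (r + 1 + 1) < q; omega, ?_, fun k hk => ?_⟩
  · exact (Nat.Prime.coprime_iff_not_dvd hq).2 fun h => ha0 ((ZMod.natCast_eq_zero_iff _ _).2 h)
  · change l ^ (r + 1 + 1) ∣ k
    rw [← ho]
    apply orderOf_dvd_of_pow_eq_one
    have := (ZMod.natCast_eq_natCast_iff _ _ _).2 hk
    simpa using this

section One

variable {E : Type} [Field E] [NumberField E]

theorem norm_cong (m : ℕ) (b c : 𝓞 E) :
    ((Algebra.norm ℤ (b + m * c) : ℤ) : ZMod m) = ((Algebra.norm ℤ b : ℤ) : ZMod m) := by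
  classical
  let B := RingOfIntegers.basis E
  have e : ∀ z : 𝓞 E, ((Algebra.norm ℤ z : ℤ) : ZMod m) =
      ((Int.castRingHom (ZMod m)).mapMatrix (Algebra.leftMulMatrix B z)).det := fun z => by
    rw [Algebra.norm_eq_matrix_det B, ← RingHom.map_det]
    rfl
  rw [e, e, ← nsmul_eq_mul, map_add, map_nsmul, map_add, map_nsmul]
  congr 1
  ext i j
  simp

theorem chv_int (hC : NTC_st) {m : ℕ} {S : Finset (Pr E)} {ν : Pr E → (ZMod m)ˣ}
    (hν : ∀ w, w ∉ S → (ν w : ZMod m) = nrm w) {a : 𝓞 E} (ha : (a : E) ≠ 0)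
    (hS : ∀ w ∈ S, ord w (a : E) = 0) (hp : 0 < Algebra.norm ℚ (a : E)) :
    ((chv ν (dv (a : E)) : (ZMod m)ˣ) : ZMod m) = ((Algebra.norm ℤ a : ℤ) : ZMod m) := by
  have h1 := (hC E).2.2.1 (a : E) ha
  have hp' : (0 : ℝ) < ((Algebra.norm ℚ (a : E) : ℚ) : ℝ) := by exact_mod_cast hp
  rw [abs_of_pos hp', ← Algebra.coe_norm_int] at h1
  have h2 : nmD (dv (a : E)) =
      ((∏ v ∈ (dv (a : E)).support, nrm v ^ (ord v (a : E)).toNat : ℕ) : ℝ) := by
    rw [nmD, Finsupp.prod]
    push_cast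
    refine Finset.prod_congr rfl fun v _ => ?_
    rw [← zpow_natCast, Int.toNat_of_nonneg (ord_nonneg v a), dv_apply]
  have h3 : ((∏ v ∈ (dv (a : E)).support, nrm v ^ (ord v (a : E)).toNat : ℕ) : ℤ) =
      Algebra.norm ℤ a := by
    rw [h2] at h1
    exact_mod_cast h1
  rw [← h3, chv, Finsupp.prod]
  push_cast
  refine Finset.prod_congr rfl fun v hv => ?_
  have hv' : v ∉ S := fun h => (Finsupp.mem_support_iff.1 hv) (hS v h)
  rw [← hν v hv', ← Units.val_pow_eq_pow_val, ← zpow_natCast,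
    Int.toNat_of_nonneg (ord_nonneg v a), dv_apply]

theorem norm_pos (hA : NTA_st) [IsTotallyReal E] {x : E} (hx : TPos x) : 0 < Algebra.norm ℚ x := by
  have h := (hA E).2.2.2.2 x
  have h1 : (0 : ℝ) < ((Algebra.norm ℚ x : ℚ) : ℝ) := by
    rw [h]
    exact Finset.prod_pos fun φ _ => hx φ
  exact_mod_cast h1

theorem one (hA : NTA_st) (hB : NTB_st) (hC : NTC_st) [IsTotallyReal E] (m : ℕ) (S : Finset (Pr E))
    (ν : Pr E → (ZMod m)ˣ) (hm : 0 < m) (hmS : ∀ w : Pr E, (m : 𝓞 E) ∈ w.asIdeal → w ∈ S)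
    (hν : ∀ w, w ∉ S → (ν w : ZMod m) = nrm w) :
    ∃ N : ℕ, 0 < N ∧ ∀ N', N ≤ N' → IsRay S N' ν := by
  classical
  have m0 : (m : E) ≠ 0 := by exact_mod_cast hm.ne'
  refine ⟨1 + ∑ w ∈ S, (ord w (m : E)).toNat, by omega, fun N' hN x hx => ?_⟩
  obtain ⟨x0, xp, xc⟩ := hx
  have lt1 : ∀ n : ℤ, n < 0 → WithZero.exp n < (1 : WithZero (Multiplicative ℤ)) := fun n hn => by
    rw [← WithZero.exp_zero, WithZero.exp_lt_exp]; exact hn
  have xS : ∀ w ∈ S, w.valuation E x = 1 := fun w hw =>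
    val_one_of _ ((xc w hw).trans_lt (lt1 _ (by omega)))
  obtain ⟨b, b0, bp, hb1, hb2⟩ := (hB E).1 (S ∪ (dv x).support) (fun v => if v ∈ S then 1 else 0)
    (-(1 + ∑ v ∈ (dv x).support, (ord v x).natAbs : ℕ))
  have bS : ∀ w ∈ S, w.valuation E b = 1 := fun w hw => by
    have := hb1 w (Finset.mem_union_left _ hw)
    rw [if_pos hw] at this
    exact val_one_of _ (this.trans_lt (lt1 _ (by omega)))
  have bT : ∀ w, w ∉ S → w ∈ (dv x).support → w.valuation E b ≤
      WithZero.exp (-((ord w x).natAbs : ℤ)) := fun w hw hw' => by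
    have := hb1 w (Finset.mem_union_right _ hw')
    rw [if_neg hw, sub_zero] at this
    refine this.trans (WithZero.exp_le_exp.2 ?_)
    have := Finset.single_le_sum (f := fun v => (ord v x).natAbs) (fun _ _ => Nat.zero_le _) hw'
    omega
  have b1 : ∀ w : Pr E, w.valuation E b ≤ 1 := fun w => by
    by_cases hw : w ∈ S
    · exact (bS w hw).le
    by_cases hw' : w ∈ (dv x).support
    · refine (bT w hw hw').trans ?_
      rw [← WithZero.exp_zero, WithZero.exp_le_exp]
      omega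
    · exact hb2 w (by simp only [Finset.mem_union, not_or]; exact ⟨hw, hw'⟩)
  have a1 : ∀ w : Pr E, w.valuation E (b * x) ≤ 1 := fun w => by
    rw [map_mul]
    by_cases hw : w ∈ S
    · rw [bS w hw, xS w hw, one_mul]
    by_cases hw' : w ∈ (dv x).support
    · rw [val_eq_exp w x0]
      refine (mul_le_mul_left (bT w hw hw') _).trans ?_
      rw [← WithZero.exp_add, ← WithZero.exp_zero, WithZero.exp_le_exp]
      omega
    · rw [(val_eq_one_iff w x0).2 (by simpa using hw'), mul_one]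
      exact b1 w
  have c1 : ∀ w : Pr E, w.valuation E ((b * x - b) / m) ≤ 1 := fun w => by
    rw [map_div₀]
    by_cases hw : w ∈ S
    · rw [← mul_sub_one, map_mul, bS w hw, one_mul, val_eq_exp w m0,
        div_le_one₀ WithZero.exp_pos]
      refine (xc w hw).trans (WithZero.exp_le_exp.2 ?_)
      have := Finset.single_le_sum (f := fun v => (ord v (m : E)).toNat)
        (fun _ _ => Nat.zero_le _) hw
      omega
    · have h1 : w.valuation E (m : E) = 1 := by
        have := (w.valuation_eq_one_iff_notMem (K := E) (r := (m : 𝓞 E))).2 fun h => hw (hmS w h)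
        simpa using this
      rw [h1, div_one]
      exact Valuation.map_sub_le _ (a1 w) (b1 w)
  obtain ⟨a', ha'⟩ := HeightOneSpectrum.mem_integers_of_valuation_le_one (R := 𝓞 E) E _ a1
  obtain ⟨b', hb'⟩ := HeightOneSpectrum.mem_integers_of_valuation_le_one (R := 𝓞 E) E _ b1
  obtain ⟨c', hc'⟩ := HeightOneSpectrum.mem_integers_of_valuation_le_one (R := 𝓞 E) E _ c1
  have e : a' = b' + m * c' := by
    apply RingOfIntegers.coe_injective
    rw [map_add, map_mul, map_natCast, ha', hb', hc']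
    field_simp
    ring
  change (a' : E) = _ at ha'
  change (b' : E) = _ at hb'
  have ap : TPos (b * x) := fun φ => by rw [map_mul]; exact mul_pos (bp φ) (xp φ)
  have k1 := chv_int hC hν (a := a') (by rw [ha']; exact mul_ne_zero b0 x0)
    (fun w hw => by
      rw [ha', ← val_eq_one_iff w (mul_ne_zero b0 x0), map_mul, bS w hw, xS w hw, one_mul])
    (by rw [ha']; exact norm_pos hA ap)
  have k2 := chv_int hC hν (a := b') (by rw [hb']; exact b0)
    (fun w hw => by rw [hb', ← val_eq_one_iff w b0, bS w hw])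
    (by rw [hb']; exact norm_pos hA bp)
  have k3 : ((Algebra.norm ℤ a' : ℤ) : ZMod m) = ((Algebra.norm ℤ b' : ℤ) : ZMod m) := by
    rw [e, norm_cong]
  rw [k3, ← k2, ha', hb', dv_mul b0 x0, chv_add] at k1
  exact mul_eq_left.1 (Units.ext k1)

end One

section Two

variable {F E : Type} [Field F] [NumberField F] [Field E] [NumberField E] [Algebra F E]

omit [NumberField F] in
theorem under_act (σ : E ≃ₐ[F] E) (w : Pr E) :
    (act σ.toRingEquiv w).under (𝓞 F) = w.under (𝓞 F) := by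
  ext a
  change algebraMap (𝓞 F) (𝓞 E) a ∈ (act σ.toRingEquiv w).asIdeal ↔
    algebraMap (𝓞 F) (𝓞 E) a ∈ w.asIdeal
  have e : (RingOfIntegers.mapRingEquiv σ.toRingEquiv).symm (algebraMap (𝓞 F) (𝓞 E) a) =
      algebraMap (𝓞 F) (𝓞 E) a := by
    apply RingOfIntegers.coe_injective
    exact σ.symm.commutes (a : F)
  rw [mem_act, e]

theorem two [IsTotallyReal E] [IsGalois F E] (S : Finset (Pr F)) (N : ℕ) :
    ∃ N₀ : ℕ, 0 < N₀ ∧ ∀ N', N₀ ≤ N' →
      ∀ y, Ray (above E S) N' y → Ray S N (Algebra.norm F y) := by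
  classical
  choose W hW using fun v : Pr F => exists_over (E' := E) v
  refine ⟨1 + ∑ v ∈ S, N * (W v).asIdeal.ramificationIdx (𝓞 F), by omega,
    fun N' hN y hy => ?_⟩
  obtain ⟨y0, yp, yc⟩ := hy
  have hn : algebraMap F E (Algebra.norm F y) = ∏ σ : E ≃ₐ[F] E, σ y :=
    Algebra.norm_eq_prod_automorphisms F y
  refine ⟨Algebra.norm_ne_zero_iff.2 y0, fun φ => ?_, fun v hv => ?_⟩
  · have hr := IsTotallyReal.complexEmbedding_isReal
      (ComplexEmbedding.lift E (Complex.ofRealHom.comp φ))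
    have e : hr.embedding (algebraMap F E (Algebra.norm F y)) = φ (Algebra.norm F y) := by
      apply Complex.ofReal_injective
      rw [hr.coe_embedding_apply, ComplexEmbedding.lift_algebraMap_apply]
      rfl
    rw [← e, hn, map_prod]
    exact Finset.prod_pos fun σ _ => yp (hr.embedding.comp (σ : E →+* E))
  · have le1 : WithZero.exp (-(N' : ℤ)) ≤ (1 : WithZero (Multiplicative ℤ)) := by
      rw [← WithZero.exp_zero, WithZero.exp_le_exp]; omega
    have h1 : (W v).valuation E (∏ σ : E ≃ₐ[F] E, σ y - 1) ≤ WithZero.exp (-(N' : ℤ)) := by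
      refine Finset.prod_induction _
        (fun z => (W v).valuation E (z - 1) ≤ WithZero.exp (-(N' : ℤ))) (fun s t hs ht => ?_)
        (by simp) fun σ _ => ?_
      · have hs1 : (W v).valuation E s ≤ 1 := by
          have := Valuation.map_add_le _ (hs.trans le1) ((W v).valuation E).map_one.le
          rwa [sub_add_cancel] at this
        rw [show s * t - 1 = s * (t - 1) + (s - 1) by ring]
        refine Valuation.map_add_le _ ?_ hs
        rw [map_mul]
        exact (mul_le_mul' hs1 ht).trans (one_mul _).le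
      · have h2 := yc (act σ.symm.toRingEquiv (W v))
          (by rw [mem_above, under_act, under_eq (hW v)]; exact hv)
        rw [← val_act σ.symm.toRingEquiv (W v)]
        have e : σ.symm.toRingEquiv (σ y - 1) = y - 1 := by
          rw [map_sub, map_one]
          congr 1
          exact σ.symm_apply_apply y
        rwa [e]
    rw [← hn, ← map_one (algebraMap F E), ← map_sub, val_over (hW v)] at h1
    rcases eq_or_ne (Algebra.norm F y - 1) 0 with h0 | h0
    · rw [h0]; simp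
    rw [val_eq_exp v h0] at h1 ⊢
    rw [← WithZero.exp_nsmul, WithZero.exp_le_exp] at h1
    rw [WithZero.exp_le_exp]
    have h3 := Finset.single_le_sum (f := fun v => N * (W v).asIdeal.ramificationIdx (𝓞 F))
      (fun _ _ => Nat.zero_le _) hv
    generalize (W v).asIdeal.ramificationIdx (𝓞 F) = r at h1 h3
    have h4 : (N : ℤ) * r + 1 ≤ N' := by
      have : N * r + 1 ≤ N' := by omega
      exact_mod_cast this
    rw [nsmul_eq_mul] at h1
    by_contra h5
    have h6 : (0 : ℤ) ≤ r := Int.natCast_nonneg r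
    nlinarith

end Two

end CycX

theorem cyc (hA : NTA_st) (hB : NTB_st) (hC : NTC_st) : CYC_st :=
  ⟨fun _ _ _ _ m S ν hm h1 h2 => CycX.one hA hB hC m S ν hm h1 h2,
    fun _ _ _ _ _ _ _ _ _ S N => CycX.two S N⟩

theorem lang : LANG_st := by
  intro a n T ha hn hT
  induction n using Nat.recOnPosPrimePosCoprime with
  | prime_pow p k hp _ =>
    obtain ⟨q, hq, h1, h2, h3⟩ := CycX.ord_prime ha hp (k + T)
    refine ⟨q, hq.pos, ?_, h2, fun j hj => (pow_dvd_pow p (by omega)).trans (h3 j hj)⟩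
    refine (Nat.Prime.coprime_iff_not_dvd hq).2 fun h => ?_
    have h4 := Nat.le_of_dvd (Nat.pos_of_ne_zero hT) h
    have h5 : k + T + 2 < p ^ (k + T + 2) := Nat.lt_pow_self hp.one_lt
    omega
  | zero => exact absurd hn (lt_irrefl 0)
  | one => exact ⟨1, one_pos, Nat.coprime_one_left _, Nat.coprime_one_left _, fun k _ => one_dvd k⟩
  | coprime b c hb hc hbc ihb ihc =>
    obtain ⟨m1, p1, t1, a1, k1⟩ := ihb (by omega)
    obtain ⟨m2, p2, t2, a2, k2⟩ := ihc (by omega)
    exact ⟨m1 * m2, Nat.mul_pos p1 p2, Nat.Coprime.mul_left t1 t2, Nat.Coprime.mul_left a1 a2,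
      fun k hk => hbc.mul_dvd_of_dvd_of_dvd (k1 k (hk.of_mul_right m2)) (k2 k (hk.of_mul_left m1))⟩

end Pool.Agent.MP_f3cd89_nt
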