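import Pool.Agent.MP_f3cd89_nt.CStm

set_option autoImplicit false

open Finset NumberField IsDedekindDomain Polynomial

namespace Pool.Agent.MP_f3cd89_nt

namespace CycloX

theorem irred (L : Type) [Field L] [NumberField L] (m : ℕ) [NeZero m]
    (h : m.Coprime (discr L).natAbs) : Irreducible (cyclotomic m L) := by
  let Ω := CyclotomicField m L
  have : NumberField Ω := IsCyclotomicExtension.numberField {m} L Ω
  have hζ := IsCyclotomicExtension.zeta_spec m L Ω
  generalize IsCyclotomicExtension.zeta m L Ω = ζ at hζ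
  obtain ⟨A, hA⟩ : ∃ A : IntermediateField ℚ Ω, IsCyclotomicExtension {m} ℚ A :=
    ⟨_, hζ.intermediateField_adjoin_isCyclotomicExtension ℚ⟩
  have : IsGalois ℚ A := IsCyclotomicExtension.isGalois {m} ℚ A
  have h1 : IsCoprime (discr A) (discr (IsScalarTower.toAlgHom ℚ L Ω).fieldRange) := by
    rw [← discr_eq_discr_of_ringEquiv L (L := (IsScalarTower.toAlgHom ℚ L Ω).fieldRange)
      (AlgEquiv.ofInjectiveField (IsScalarTower.toAlgHom ℚ L Ω)).toRingEquiv,
      Int.isCoprime_iff_nat_coprime, IsCyclotomicExtension.Rat.natAbs_discr m A]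
    exact (h.pow_left _).coprime_div_left
      (Nat.prod_primeFactors_pow_totient_ediv_dvd (NeZero.pos _))
  have h2 : A.LinearDisjoint L :=
    IntermediateField.linearDisjoint_iff'.1 (linearDisjoint_of_isGalois_isCoprime_discr Ω _ _ h1)
  have : Module.Finite L Ω := Module.Finite.of_restrictScalars_finite ℚ L Ω
  have h3 :=
    (h2.linearIndependent_left (Module.finBasis ℚ A).linearIndependent).fintype_card_le_finrank
  rw [Fintype.card_fin, IsCyclotomicExtension.Rat.finrank m A, (hζ.powerBasis L).finrank,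
    hζ.powerBasis_dim L] at h3
  have hi : IsIntegral L ζ := IsIntegral.of_finite L ζ
  rw [eq_of_monic_of_dvd_of_natDegree_le (minpoly.monic hi) (cyclotomic.monic m L)
    (minpoly.dvd L ζ (by
      rw [aeval_def, eval₂_eq_eval_map, map_cyclotomic]
      exact hζ.isRoot_cyclotomic (NeZero.pos m))) (by rwa [natDegree_cyclotomic])]
  exact minpoly.irreducible hi

theorem ex_field (L : Type) [Field L] [NumberField L] (m : ℕ) [NeZero m]
    (h : Irreducible (cyclotomic m L)) :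
    ∃ (Ω : Type) (_ : Field Ω) (_ : NumberField Ω) (_ : Algebra L Ω) (ζ : Ω),
      IsPrimitiveRoot ζ m ∧ Module.finrank L Ω = m.totient ∧
      (∀ (T : Type) [Field T] (f g : Ω →+* T), (∀ x, f (algebraMap L Ω x) = g (algebraMap L Ω x)) →
        f ζ = g ζ → f = g) ∧
      ∀ (i : L →+* Ω) (ξ : Ω), IsPrimitiveRoot ξ m →
        ∃ f : Ω →+* Ω, (∀ x, f (algebraMap L Ω x) = i x) ∧ f ζ = ξ := by
  have : Fact (Irreducible (cyclotomic m L)) := ⟨h⟩
  have := (AdjoinRoot.powerBasis h.ne_zero).finite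
  have hN := NumberField.of_module_finite L (AdjoinRoot (cyclotomic m L))
  refine ⟨AdjoinRoot (cyclotomic m L), inferInstance, hN, inferInstance, AdjoinRoot.root _,
    ?_, ?_, fun T _ f g h1 h2 => AdjoinRoot.ringHom_ext (RingHom.ext h1) h2, fun i ξ hξ => ?_⟩
  · rw [← isRoot_cyclotomic_iff_charZero (NeZero.pos m),
      ← map_cyclotomic m (AdjoinRoot.of (cyclotomic m L))]
    exact AdjoinRoot.isRoot_root _
  · rw [(AdjoinRoot.powerBasis h.ne_zero).finrank, AdjoinRoot.powerBasis_dim, natDegree_cyclotomic]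
  · have h1 : (cyclotomic m L).eval₂ i ξ = 0 := by
      rw [eval₂_eq_eval_map, map_cyclotomic]
      exact hξ.isRoot_cyclotomic (NeZero.pos m)
    exact ⟨AdjoinRoot.lift i ξ h1, fun x => AdjoinRoot.lift_of h1, AdjoinRoot.lift_root h1⟩

theorem ex_action {L Ω : Type} (G : Type) [Field L] [Field Ω] [Algebra L Ω] [Group G]
    [MulSemiringAction G L] {m : ℕ} [NeZero m] {ζ : Ω} (hζ : IsPrimitiveRoot ζ m)
    (h1 : ∀ f g : Ω →+* Ω, (∀ x, f (algebraMap L Ω x) = g (algebraMap L Ω x)) → f ζ = g ζ → f = g)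
    (h2 : ∀ (i : L →+* Ω) (ξ : Ω), IsPrimitiveRoot ξ m →
      ∃ f : Ω →+* Ω, (∀ x, f (algebraMap L Ω x) = i x) ∧ f ζ = ξ) :
    ∃ _ : MulSemiringAction (G × (ZMod m)ˣ) Ω,
      (∀ (p : G × (ZMod m)ˣ) (x : L), p • algebraMap L Ω x = algebraMap L Ω (p.1 • x)) ∧
      ∀ p : G × (ZMod m)ˣ, p • ζ = ζ ^ (p.2 : ZMod m).val := by
  choose σ s1 s2 using fun p : G × (ZMod m)ˣ =>
    h2 ((algebraMap L Ω).comp (MulSemiringAction.toRingHom G L p.1)) (ζ ^ (p.2 : ZMod m).val)
      (hζ.pow_of_coprime _ (ZMod.val_coe_unit_coprime p.2))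
  have s1' : ∀ p x, σ p (algebraMap L Ω x) = algebraMap L Ω (p.1 • x) := s1
  have e1 : σ 1 = RingHom.id Ω := h1 _ _ (fun x => by rw [s1', Prod.fst_one, one_smul]; rfl) (by
    rw [s2, Prod.snd_one, Units.val_one, ZMod.val_one_eq_one_mod, ← pow_eq_pow_mod _ hζ.1, pow_one]
    rfl)
  have e2 : ∀ p q, σ (p * q) = (σ p).comp (σ q) := fun p q => h1 _ _
    (fun x => by rw [RingHom.comp_apply, s1', s1', s1', Prod.fst_mul, mul_smul]) (by
      rw [RingHom.comp_apply, s2, s2, map_pow, s2, Prod.snd_mul, Units.val_mul, ZMod.val_mul,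
        ← pow_eq_pow_mod _ hζ.1, pow_mul])
  exact ⟨{ smul := fun p x => σ p x
           one_smul := fun x => DFunLike.congr_fun e1 x
           mul_smul := fun p q x => DFunLike.congr_fun (e2 p q) x
           smul_zero := fun p => map_zero (σ p)
           smul_add := fun p => map_add (σ p)
           smul_one := fun p => map_one (σ p)
           smul_mul := fun p => map_mul (σ p) }, s1', s2⟩

theorem unit_eq {M : Type} [CommRing M] [IsDomain M] {m : ℕ} [NeZero m] {ζ : M}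
    (hζ : IsPrimitiveRoot ζ m) {a b : (ZMod m)ˣ}
    (h : ζ ^ (a : ZMod m).val = ζ ^ (b : ZMod m).val) : a = b :=
  Units.ext (ZMod.val_injective m (hζ.pow_inj (ZMod.val_lt _) (ZMod.val_lt _) h))

theorem cop {E : Type} [Field E] [NumberField E] {m : ℕ} (w : Pr E)
    (h : (m : 𝓞 E) ∉ w.asIdeal) : (nrm w).Coprime m := by
  have := w.isMaximal
  obtain ⟨p, n, -, h2, h3, h4⟩ := Ideal.exists_prime_and_absNorm_eq_pow w.asIdeal
  rw [nrm, h4]
  refine Nat.Coprime.pow_left _ (h3.coprime_iff_not_dvd.2 ?_)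
  rintro ⟨c, rfl⟩
  exact h (by rw [Nat.cast_mul]; exact Ideal.mul_mem_right _ _ h2)

section

variable {F L Ω G : Type} [Field F] [NumberField F] [Field L] [NumberField L] [Field Ω]
  [NumberField Ω] [Algebra F L] [Algebra L Ω] [Algebra F Ω] [IsScalarTower F L Ω] [Group G]
  [Finite G] [MulSemiringAction G L] [IsGaloisGroup G F L] {m : ℕ} [NeZero m]
  [MulSemiringAction (G × (ZMod m)ˣ) Ω] {ζ : Ω} (hζ : IsPrimitiveRoot ζ m)
  (h1 : ∀ (p : G × (ZMod m)ˣ) (x : L), p • algebraMap L Ω x = algebraMap L Ω (p.1 • x))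
  (h2 : ∀ p : G × (ZMod m)ˣ, p • ζ = ζ ^ (p.2 : ZMod m).val)

include hζ h1 h2

omit [NumberField F] [NumberField L] [NumberField Ω] in
theorem galois (h3 : Module.finrank L Ω = m.totient) : IsGaloisGroup (G × (ZMod m)ˣ) F Ω := by
  have hf : FaithfulSMul (G × (ZMod m)ˣ) Ω := ⟨fun {p q} h => Prod.ext
    ((IsGaloisGroup.faithful (G := G) (B := L) F).eq_of_smul_eq_smul fun x =>
      (algebraMap L Ω).injective (by rw [← h1, ← h1, h]))
    (unit_eq hζ (by rw [← h2, ← h2, h]))⟩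
  have hc : SMulCommClass (G × (ZMod m)ˣ) F Ω := ⟨fun p c x => by
    rw [Algebra.smul_def, Algebra.smul_def, smul_mul', IsScalarTower.algebraMap_apply F L Ω, h1,
      smul_algebraMap]⟩
  refine ⟨hf, hc, ⟨fun x hx => ?_⟩⟩
  have := Fintype.ofFinite (G × (ZMod m)ˣ)
  have e1 : Module.finrank (FixedPoints.intermediateField (F := F) (E := Ω) (G × (ZMod m)ˣ)) Ω =
      Module.finrank F Ω := by
    refine (FixedPoints.finrank_eq_card (G × (ZMod m)ˣ) Ω).trans ?_
    rw [← Nat.card_eq_fintype_card, Nat.card_prod, IsGaloisGroup.card_eq_finrank G F L,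
      Nat.card_eq_fintype_card, ZMod.card_units_eq_totient, ← h3, Module.finrank_mul_finrank]
  have e0 : Module.finrank F Ω ≠ 0 := by
    rw [← Module.finrank_mul_finrank F L Ω, h3, ← IsGaloisGroup.card_eq_finrank G F L]
    exact mul_ne_zero Nat.card_pos.ne' (Nat.totient_pos.2 (NeZero.pos m)).ne'
  have e2 := Module.finrank_mul_finrank F
    (FixedPoints.intermediateField (F := F) (E := Ω) (G × (ZMod m)ˣ)) Ω
  rw [e1, mul_eq_right₀ e0, IntermediateField.finrank_eq_one_iff] at e2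
  have e3 : x ∈ FixedPoints.intermediateField (F := F) (E := Ω) (G × (ZMod m)ˣ) := hx
  rw [e2] at e3
  exact e3

omit [NumberField L] [NumberField Ω] [Finite G] in
theorem cc (h3 : ∀ f g : Ω →+* ℂ, (∀ x, f (algebraMap L Ω x) = g (algebraMap L Ω x)) →
    f ζ = g ζ → f = g) (j : G) (hj : IsCC L j) : IsCC Ω ((j, -1) : G × (ZMod m)ˣ) := by
  intro ε x
  refine DFunLike.congr_fun (h3 (ε.comp (MulSemiringAction.toRingHom _ Ω
    ((j, -1) : G × (ZMod m)ˣ))) ((starRingEnd ℂ).comp ε) (fun y => ?_) ?_) x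
  · exact (congrArg ε (h1 _ y)).trans (hj (ε.comp (algebraMap L Ω)) y)
  · refine (congrArg ε (h2 _)).trans ?_
    have e1 : ε ζ ^ m = 1 := by rw [← map_pow, hζ.1, map_one]
    rw [RingHom.comp_apply,
      ← Complex.inv_eq_conj (Complex.norm_eq_one_of_pow_eq_one e1 (NeZero.ne m))]
    refine eq_inv_of_mul_eq_one_left ?_
    rw [← map_mul, ← pow_succ, (hζ.pow_eq_one_iff_dvd _).2, map_one]
    rw [← ZMod.natCast_eq_zero_iff]
    simp

omit hζ h2 [NumberField L] [NumberField Ω] [Finite G] [NeZero m] in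
theorem smul_int (p : G × (ZMod m)ˣ) (y : 𝓞 L) :
    p • algebraMap (𝓞 L) (𝓞 Ω) y = algebraMap (𝓞 L) (𝓞 Ω) (p.1 • y) :=
  RingOfIntegers.ext (h1 p y)

omit h1 [NumberField L] [NumberField Ω] [Finite G] [MulSemiringAction G L] in
theorem smul_zeta (p : G × (ZMod m)ˣ) :
    p • hζ.toInteger = hζ.toInteger ^ (p.2 : ZMod m).val :=
  RingOfIntegers.ext (h2 p)

end

theorem under_under {F L Ω : Type} [Field F] [NumberField F] [Field L] [NumberField L] [Field Ω]
    [NumberField Ω] [Algebra F L] [Algebra L Ω] [Algebra F Ω] [IsScalarTower F L Ω] (w : Pr Ω) :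
    (w.under (𝓞 L)).under (𝓞 F) = w.under (𝓞 F) :=
  HeightOneSpectrum.ext (Ideal.under_under _)

theorem notMem {F Ω : Type} [Field F] [NumberField F] [Field Ω] [NumberField Ω] [Algebra F Ω]
    {m : ℕ} {S' : Finset (Pr F)} (h : ∀ v : Pr F, (m : 𝓞 F) ∈ v.asIdeal → v ∈ S') {w : Pr Ω}
    (hw : w.under (𝓞 F) ∉ S') : (m : 𝓞 Ω) ∉ w.asIdeal := fun e =>
  hw (h _ (Ideal.mem_comap.2 (by rwa [map_natCast])))

end CycloX

theorem cyclo (hF : FB_st) : CYCLO_st := by
  intro F L G _ _ _ _ _ _ _ _ _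
  refine ⟨(discr L).natAbs, Int.natAbs_ne_zero.2 (discr_ne_zero L), fun m _ hm => ?_⟩
  obtain ⟨Ω, _, _, _, ζ, hζ, h3, h4, h5⟩ := CycloX.ex_field L m (CycloX.irred L m hm)
  obtain ⟨_, h1, h2⟩ := CycloX.ex_action G hζ (h4 Ω) h5
  let _ : Algebra F Ω := ((algebraMap L Ω).comp (algebraMap F L)).toAlgebra
  have : IsScalarTower F L Ω := IsScalarTower.of_algebraMap_eq fun _ => rfl
  have hG := CycloX.galois (F := F) hζ h1 h2 h3
  refine ⟨Ω, inferInstance, inferInstance, inferInstance, inferInstance, hG,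
    CycloX.cc hζ h1 h2 (h4 ℂ), fun S S' hS hm' hU => ⟨fun w hw => ?_, fun φ hφ => ?_⟩⟩
  · refine (Subgroup.eq_bot_iff_forall _).2 fun p hp => Prod.ext ?_ ?_
    · refine (Subgroup.eq_bot_iff_forall _).1 (hU (w.under (𝓞 L)) fun e => hw (hS ?_)) _
        fun y => Ideal.mem_comap.2 ?_
      · rwa [CycloX.under_under] at e
      · rw [map_sub, ← CycloX.smul_int h1]
        exact hp _
    · have h6 := hζ.toInteger_isPrimitiveRoot.idealQuotient_mk (I := w.asIdeal)
        (by have := two_le_nrm w; change nrm w ≠ 1; omega)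
        (CycloX.cop w (CycloX.notMem hm' hw))
      have := w.isPrime
      refine CycloX.unit_eq h6 ?_
      rw [← map_pow, ← map_pow, ← CycloX.smul_zeta hζ h2, ← CycloX.smul_zeta hζ h2, one_smul,
        Ideal.Quotient.eq]
      exact hp _
  · have key : ∀ v, v ∉ S' → ∃ a : (ZMod m)ˣ, (a : ZMod m) = nrm v ∧ ∃ w : Pr Ω,
        w.under (𝓞 F) = v ∧
          IsArithFrobAt (𝓞 F) ((φ v, a) : G × (ZMod m)ˣ) w.asIdeal := fun v hv => by
      obtain ⟨P, hP, hP'⟩ := hφ v fun e => hv (hS e)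
      obtain ⟨w, rfl⟩ := under_surj (E' := Ω) P
      rw [CycloX.under_under] at hP
      subst hP
      obtain ⟨⟨g, a⟩, hg⟩ := (hF F Ω (G × (ZMod m)ˣ)).2.2.1 w
      have h6 : IsArithFrobAt (𝓞 F) g (w.under (𝓞 L)).asIdeal := fun y => Ideal.mem_comap.2 (by
        have h7 := hg (algebraMap (𝓞 L) (𝓞 Ω) y)
        rw [MulSemiringAction.toAlgHom_apply, CycloX.smul_int h1, ← map_pow, ← map_sub,
          ← Ideal.under_under (B := 𝓞 L)] at h7
        exact h7)
      have h7 := ((hF F L G).2.2.2.2.2.2.2 _ _ (hU (w.under (𝓞 L)) fun e => hv (hS (by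
        rwa [CycloX.under_under] at e))) hP').1 g h6
      subst h7
      refine ⟨a, ?_, w, rfl, hg⟩
      have h8 := hg.apply_of_pow_eq_one hζ.toInteger_isPrimitiveRoot.1 (CycloX.notMem hm' hv)
      rw [MulSemiringAction.toAlgHom_apply, CycloX.smul_zeta hζ h2,
        pow_eq_pow_mod (Nat.card _) hζ.toInteger_isPrimitiveRoot.1, ← ZMod.val_natCast] at h8
      exact ZMod.val_injective m
        (hζ.toInteger_isPrimitiveRoot.pow_inj (ZMod.val_lt _) (ZMod.val_lt _) h8)
    choose! ν k1 k2 using key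
    exact ⟨ν, k1, k2⟩

end Pool.Agent.MP_f3cd89_nt
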