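import Mathlib

set_option autoImplicit false

open NumberField IsDedekindDomain

namespace Pool.Agent.MP_f3cd89_nt

/-- An irreducible complex matrix representation of the group `G`: a homomorphism to `n × n`
matrices, `n > 0`, such that no subspace other than `0` and the whole space is invariant. -/
structure Irr (G : Type) [Group G] where
  n : ℕ
  ρ : G →* Matrix (Fin n) (Fin n) ℂ
  pos : 0 < n
  irr : ∀ W : Submodule ℂ (Fin n → ℂ), (∀ g, ∀ v ∈ W, (ρ g).mulVec v ∈ W) → W = ⊥ ∨ W = ⊤

section Group

variable {G : Type} [Group G]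

/-- The representation extended linearly to the integral group ring. -/
noncomputable def Irr.lin (r : Irr G) (z : MonoidAlgebra ℤ G) : Matrix (Fin r.n) (Fin r.n) ℂ :=
  MonoidAlgebra.lift ℤ (Matrix (Fin r.n) (Fin r.n) ℂ) G r.ρ z

/-- The reduced norm of a square matrix over the group ring, as an element of the centre of the
complex group algebra, that is, as a function on irreducible representations: the determinant of
the block matrix obtained by applying the representation to each entry. -/
noncomputable def nr {k : ℕ} (H : Matrix (Fin k) (Fin k) (MonoidAlgebra ℤ G)) (r : Irr G) : ℂ :=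
  (Matrix.of fun x y : Fin k × Fin r.n => r.lin (H x.1 y.1) x.2 y.2).det

/-- A central element of the group ring as a function on irreducible representations: the scalar
by which it acts. -/
noncomputable def cen (z : MonoidAlgebra ℤ G) (r : Irr G) : ℂ := (r.lin z).trace / r.n

/-- The module over the centre of the integral group ring generated by a set `Y` of elements of
the centre of the complex group algebra. -/
noncomputable def cspan (Y : Set (Irr G → ℂ)) : AddSubgroup (Irr G → ℂ) :=
  AddSubgroup.closure {f | ∃ z ∈ Subring.center (MonoidAlgebra ℤ G), ∃ y ∈ Y, f = cen z * y}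

variable (G) in
/-- The integrality ring `I(G)`. -/
noncomputable def intRing : AddSubgroup (Irr G → ℂ) :=
  cspan {f | ∃ k, 1 ≤ k ∧ ∃ H : Matrix (Fin k) (Fin k) (MonoidAlgebra ℤ G), f = nr H}

end Group

section Field

variable {K L : Type} [Field K] [NumberField K] [Field L] [NumberField L] [Algebra K L]

variable (L) in
/-- The group `E^T_{L,S}`, as a set: elements of `L` that are units at all finite primes not above
`S` and are congruent to `1` modulo every prime above `T`. -/
def sUnits (S T : Finset (HeightOneSpectrum (𝓞 K))) : Set Lˣ :=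
  {x | (∀ w : HeightOneSpectrum (𝓞 L), w.under (𝓞 K) ∉ S → w.valuation L (x : L) = 1) ∧
    ∀ w : HeightOneSpectrum (𝓞 L), w.under (𝓞 K) ∈ T → w.valuation L ((x : L) - 1) < 1}

variable (L) in
/-- The part of `hyp(S,T)` that involves `T`: the sets are disjoint and `E^T_{L,S}` is
torsion-free. -/
def Hyp (S T : Finset (HeightOneSpectrum (𝓞 K))) : Prop :=
  Disjoint S T ∧ ∀ x ∈ sUnits L S T, IsOfFinOrder x → x = 1

variable (L) in
/-- `φ v` is a Frobenius element at some prime of `L` above `v`, for every `v` outside `S`; here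
`G` is a Galois group of `L / K`. -/
def IsFrob {G : Type} [Group G] [MulSemiringAction G L] [IsGaloisGroup G K L]
    (S : Finset (HeightOneSpectrum (𝓞 K))) (φ : HeightOneSpectrum (𝓞 K) → G) : Prop :=
  ∀ v ∉ S, ∃ w : HeightOneSpectrum (𝓞 L), w.under (𝓞 K) = v ∧
    IsArithFrobAt (𝓞 K) (φ v) w.asIdeal

end Field

section LFun

variable {K G : Type} [Field K] [NumberField K] [Group G]

/-- The element `δ_T(0)`, the product over `v ∈ T` of the reduced norms of `1 - N(v) φ_v⁻¹`. -/
noncomputable def delta (φ : HeightOneSpectrum (𝓞 K) → G) (T : Finset (HeightOneSpectrum (𝓞 K))) :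
    Irr G → ℂ :=
  ∏ v ∈ T, nr (Matrix.of fun _ _ : Fin 1 =>
    (1 : MonoidAlgebra ℤ G) - MonoidAlgebra.single (φ v)⁻¹ (Ideal.absNorm v.asIdeal : ℤ))

/-- `c` is the value at `s = 0` of the `S`-truncated Artin L-function of the contragredient
`g ↦ ρ(g⁻¹)ᵀ` of `ρ`: some function meromorphic on the plane and analytic at `0` takes the value
`c` at `0` and is given by the Euler product over the primes outside `S` for `Re s > 1`. -/
def IsLValue {n : Type} [Fintype n] [DecidableEq n] (S : Finset (HeightOneSpectrum (𝓞 K)))
    (φ : HeightOneSpectrum (𝓞 K) → G) (ρ : G → Matrix n n ℂ) (c : ℂ) : Prop :=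
  ∃ f : ℂ → ℂ, MeromorphicOn f Set.univ ∧ AnalyticAt ℂ f 0 ∧ f 0 = c ∧ ∀ s : ℂ, 1 < s.re →
    HasProd (fun v : {v : HeightOneSpectrum (𝓞 K) // v ∉ S} =>
      (1 - ((Ideal.absNorm v.1.asIdeal : ℂ) ^ (-s)) • (ρ (φ v)⁻¹).transpose).det⁻¹) (f s)

end LFun

/-- The module `𝔄_S`, generated over the centre of the integral group ring by the elements
`δ_T(0)` for all `T` with `hyp(S,T)`. -/
noncomputable def annA {K L : Type} [Field K] [NumberField K] [Field L] [NumberField L]
    [Algebra K L] (S : Finset (HeightOneSpectrum (𝓞 K)))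
    (φ : HeightOneSpectrum (𝓞 K) → (L ≃ₐ[K] L)) : AddSubgroup (Irr (L ≃ₐ[K] L) → ℂ) :=
  cspan {f | ∃ T, Hyp L S T ∧ f = delta φ T}

end Pool.Agent.MP_f3cd89_nt
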