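import Pool.Agent.MP_f3cd89_nt.AStm

/-! The characteristic polynomial of a weighted cyclic shift, and the ring `J`. -/

set_option autoImplicit false

open Finset

namespace Pool.Agent.MP_f3cd89_nt

namespace DetX

variable {k : Type} [CommRing k]

theorem sign_rot (n : ℕ) :
    Equiv.Perm.sign (Equiv.addRight (1 : ZMod (n + 1))) = (-1) ^ n := by
  have h : Equiv.addRight (1 : ZMod (n + 1)) = finRotate (n + 1) :=
    Equiv.ext fun i => (finRotate_apply (n := n + 1) i).symm
  rw [h]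
  exact sign_finRotate (n + 1)

theorem eq_rot {f : ℕ} [NeZero f] (σ : Equiv.Perm (ZMod f)) (h : ∀ i, σ i = i ∨ σ i = i + 1)
    (h1 : σ ≠ 1) : σ = Equiv.addRight 1 := by
  obtain ⟨a, ha⟩ : ∃ a, σ a ≠ a := by
    by_contra! h2
    exact h1 (Equiv.ext h2)
  have h0 : (1 : ZMod f) ≠ 0 := fun e => ha (by simpa [e] using h a)
  have key : ∀ m : ℕ, σ (a + m) = a + m + 1 := fun m => by
    induction m with
    | zero => simpa using (h a).resolve_left ha
    | succ m ih =>
      rw [Nat.cast_succ, ← add_assoc]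
      refine (h _).resolve_left fun e => h0 ?_
      simpa using σ.injective (e.trans ih.symm)
  refine Equiv.ext fun i => ?_
  simpa using key (i - a).val

theorem det_one (f : ℕ) [NeZero f] (x : ZMod f → k) (y : k) :
    (y • (1 : Matrix (ZMod f) (ZMod f) k) -
      Matrix.of fun i j : ZMod f => if j = i + 1 then x i else 0).det = y ^ f - ∏ i, x i := by
  obtain ⟨n, rfl⟩ := Nat.exists_eq_succ_of_ne_zero (NeZero.ne f)
  rcases n with _ | n
  · have : Unique (ZMod (Nat.succ 0)) := inferInstanceAs (Unique (Fin 1))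
    rw [Matrix.det_unique, Fintype.prod_unique]
    simp [Subsingleton.elim (1 : ZMod (Nat.succ 0)) 0]
  have : Fact (1 < (n + 1).succ) := ⟨by omega⟩
  have h0 : ∀ i : ZMod (n + 1).succ, i ≠ i + 1 := fun i => by simp
  rw [← Matrix.det_transpose, Matrix.det_apply',
    Fintype.sum_eq_add 1 (Equiv.addRight 1) (fun e => h0 0 (Equiv.congr_fun e 0))]
  · rw [sign_rot (n + 1)]
    simp only [Matrix.transpose_apply, Matrix.sub_apply, Matrix.smul_apply, Matrix.of_apply,
      Equiv.Perm.one_apply, Equiv.coe_addRight, Matrix.one_apply_eq, if_neg (h0 _),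
      Matrix.one_apply_ne (h0 _), if_true, smul_eq_mul, mul_one, mul_zero, sub_zero, zero_sub,
      prod_const, prod_neg, card_univ, ZMod.card, Equiv.Perm.sign_one]
    push_cast
    rw [pow_succ (-1 : k) (n + 1), ← mul_assoc, ← mul_assoc, ← mul_pow]
    simp [sub_eq_add_neg]
  · intro σ hσ
    obtain ⟨i, hi⟩ : ∃ i, ¬(σ i = i ∨ σ i = i + 1) := by
      by_contra! h
      exact hσ.2 (eq_rot σ h hσ.1)
    rw [not_or] at hi
    rw [prod_eq_zero (mem_univ i), mul_zero]
    simp [hi.2, Matrix.one_apply_ne' hi.1]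

theorem det_unit (f : ℕ) [NeZero f] (u : (ZMod f)ˣ) (x : ZMod f → k) (y : k) :
    (y • (1 : Matrix (ZMod f) (ZMod f) k) -
      Matrix.of fun i j : ZMod f => if j = i + u then x i else 0).det = y ^ f - ∏ i, x i := by
  rw [← Matrix.det_submatrix_equiv_self u.mulLeft, ← Equiv.prod_comp u.mulLeft x, ← det_one]
  congr 1
  ext i j
  have : (u : ZMod f) * j = u * i + u ↔ j = i + 1 := by
    rw [← mul_add_one, u.mul_right_inj]
  simp [Matrix.one_apply, this]

theorem prod_val (f : ℕ) [NeZero f] (F : ℕ → k) :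
    ∏ t : ZMod f, F t.val = ∏ t ∈ range f, F t := by
  obtain ⟨n, rfl⟩ := Nat.exists_eq_succ_of_ne_zero (NeZero.ne f)
  exact Fin.prod_univ_eq_prod_range F n.succ

theorem det_gen (d g f : ℕ) [NeZero d] (h : f * g = d) (e : ℤ) (hu : IsCoprime (f : ℤ) e)
    (x : ℕ → k) (y : k) :
    (y • (1 : Matrix (ZMod d) (ZMod d) k) - Matrix.of fun i j : ZMod d =>
      if j = i + ((e * g : ℤ) : ZMod d) then x i.val else 0).det =
    ∏ i ∈ range g, (y ^ f - ∏ t ∈ range f, x (i + t * g)) := by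
  have : NeZero f := ⟨left_ne_zero_of_mul (h ▸ NeZero.ne d)⟩
  obtain ⟨u, hu⟩ := (ZMod.coe_int_isUnit_iff_isCoprime e f).2 hu
  have hlt : ∀ z : ZMod f × Fin g, z.2 + z.1.val * g < d := fun z => by
    have h1 := Nat.mul_le_mul_right g (Nat.succ_le_of_lt z.1.val_lt)
    have h2 := z.2.2
    rw [h, Nat.succ_mul] at h1
    omega
  obtain ⟨φ, hφ⟩ : ∃ φ : ZMod f × Fin g ≃ ZMod d,
      ∀ z, φ z = ((z.2 + z.1.val * g : ℕ) : ZMod d) := by
    refine ⟨Equiv.ofBijective (fun z => ((z.2 + z.1.val * g : ℕ) : ZMod d))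
      ((Fintype.bijective_iff_injective_and_card _).2 ⟨fun z z' hz => ?_, by simp [h]⟩),
      fun _ => rfl⟩
    rw [ZMod.natCast_eq_natCast_iff', Nat.mod_eq_of_lt (hlt z), Nat.mod_eq_of_lt (hlt z')] at hz
    have h1 := congrArg (· % g) hz
    simp only [Nat.add_mul_mod_self_right, Nat.mod_eq_of_lt z.2.2, Nat.mod_eq_of_lt z'.2.2] at h1
    rw [h1, Nat.add_left_cancel_iff] at hz
    exact Prod.ext (ZMod.val_injective f (Nat.eq_of_mul_eq_mul_right z.2.pos hz)) (Fin.ext h1)
  have hadd : ∀ z : ZMod f × Fin g, φ z + ((e * g : ℤ) : ZMod d) = φ (z.1 + u, z.2) := fun z => by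
    have h1 : (((z.1 + u).val : ℤ) : ZMod f) = ((z.1.val + e : ℤ) : ZMod f) := by simp [hu]
    have h2 := ((ZMod.intCast_eq_intCast_iff _ _ _).1 h1).mul_right' (c := g)
    rw [← Nat.cast_mul f, h, ← ZMod.intCast_eq_intCast_iff] at h2
    rw [hφ, hφ]
    simp only [Nat.cast_add, Nat.cast_mul, Int.cast_mul, Int.cast_add, Int.cast_natCast] at h2 ⊢
    rw [h2]
    ring
  rw [← Matrix.det_submatrix_equiv_self φ, ← Fin.prod_univ_eq_prod_range
    (fun i => y ^ f - ∏ t ∈ range f, x (i + t * g))]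
  have key : (y • (1 : Matrix (ZMod d) (ZMod d) k) - Matrix.of fun i j : ZMod d =>
      if j = i + ((e * g : ℤ) : ZMod d) then x i.val else 0).submatrix φ φ =
      Matrix.blockDiagonal fun i : Fin g => y • (1 : Matrix (ZMod f) (ZMod f) k) -
        Matrix.of fun s t : ZMod f => if t = s + u then x (i + s.val * g) else 0 := by
    ext ⟨s, i⟩ ⟨t, j⟩
    simp only [Matrix.submatrix_apply, Matrix.sub_apply, Matrix.smul_apply, Matrix.of_apply, hadd,
      Matrix.blockDiagonal_apply, Matrix.one_apply, EmbeddingLike.apply_eq_iff_eq, Prod.mk.injEq]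
    rw [hφ, ZMod.val_cast_of_lt (hlt _)]
    by_cases hij : i = j
    · simp [hij]
    · simp [hij, Ne.symm hij]
  rw [key, Matrix.det_blockDiagonal]
  refine prod_congr rfl fun i _ => ?_
  rw [det_unit, prod_val f fun t => x (i + t * g)]

variable {A : Type} [CommGroup A] {Δ : Dat A}

theorem Dt_mul {r r' : ℕ} (H : Matrix (Fin r) (Fin r) (ℤ →₀ MonoidAlgebra ℤ A))
    (H' : Matrix (Fin r') (Fin r') (ℤ →₀ MonoidAlgebra ℤ A)) :
    (Dt H * Dt H' : Pt Δ k → k) =
      Dt ((Matrix.fromBlocks H 0 0 H').submatrix finSumFinEquiv.symm finSumFinEquiv.symm) := by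
  funext P
  rw [Pi.mul_apply, Dt, Dt, Dt, ← Matrix.det_fromBlocks_zero₂₁ _ 0,
    ← Matrix.det_submatrix_equiv_self ((Equiv.sumProdDistrib _ _ _).symm.trans
      (finSumFinEquiv.prodCongr (Equiv.refl (ZMod P.d))))]
  congr 1
  ext (⟨a, i⟩ | ⟨a, i⟩) (⟨b, j⟩ | ⟨b, j⟩) <;> simp [rho, rhoG_zero]

theorem mul_mem_J {f g : Pt Δ k → k} (hf : f ∈ J Δ k) (hg : g ∈ J Δ k) : f * g ∈ J Δ k := by
  induction hf, hg using AddSubgroup.closure_induction₂ with
  | mem _ _ hx hy =>
    obtain ⟨r, H, rfl⟩ := hx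
    obtain ⟨r', H', rfl⟩ := hy
    rw [Dt_mul]
    exact Dt_mem _
  | zero_left => rw [zero_mul]; exact zero_mem _
  | zero_right => rw [mul_zero]; exact zero_mem _
  | add_left _ _ _ _ _ _ h h' => rw [add_mul]; exact add_mem h h'
  | add_right _ _ _ _ _ _ h h' => rw [mul_add]; exact add_mem h h'
  | neg_left _ _ _ _ h => rw [neg_mul]; exact neg_mem h
  | neg_right _ _ _ _ h => rw [mul_neg]; exact neg_mem h

theorem det_mem (y : ℤ →₀ MonoidAlgebra ℤ A) : (fun P : Pt Δ k => (rho P y).det) ∈ J Δ k := by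
  convert Dt_mem (Δ := Δ) (k := k) (Matrix.of fun _ _ : Fin 1 => y) using 1
  funext P
  rw [Dt, ← Matrix.det_submatrix_equiv_self (Equiv.uniqueProd (ZMod P.d) (Fin 1))]
  rfl

theorem shift_mem (hD : DET_st) (e : ℤ) : (fun P : Pt Δ k =>
    (-1 : k) ^ Int.gcd P.d e * ((P.ω ^ (e * P.d) : kˣ) : k)) ∈ J Δ k := by
  convert det_mem (Δ := Δ) (k := k) (Finsupp.single e (-1)) using 1
  funext P
  have h := hD k P.d e (fun _ => ((P.ω ^ e : kˣ) : k)) 0 fun _ => rfl
  have hg : Int.gcd P.d e ∣ P.d := Int.natCast_dvd_natCast.1 (Int.gcd_dvd_left ..)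
  have h0 : P.d / Int.gcd P.d e ≠ 0 :=
    (Nat.div_pos (Nat.le_of_dvd P.d_pos hg) (Nat.pos_of_dvd_of_pos hg P.d_pos)).ne'
  rw [zero_pow h0, prod_const, prod_const, card_range, card_range, zero_sub, neg_pow, ← pow_mul,
    Nat.div_mul_cancel hg] at h
  rw [zpow_mul, zpow_natCast, Units.val_pow_eq_pow_val, ← h]
  congr 1
  ext i j
  rw [rho_single]
  split_ifs with hij <;> simp [hij]

end DetX

theorem det : DET_st := by
  intro k _ d _ e x y _
  obtain ⟨m, e', h1, h2, h3⟩ := Int.exists_gcd_one (m := d) (n := e)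
    (Int.gcd_pos_of_ne_zero_left _ (Int.natCast_ne_zero.2 (NeZero.ne d)))
  have hg : Int.gcd d e ∣ d := Int.natCast_dvd_natCast.1 (Int.gcd_dvd_left ..)
  have hm : ((d / Int.gcd d e : ℕ) : ℤ) = m := by
    refine mul_right_cancel₀ (b := (Int.gcd d e : ℤ))
      (Int.natCast_ne_zero.2 (Nat.pos_of_dvd_of_pos hg (NeZero.pos d)).ne') ?_
    rw [← h2, ← Nat.cast_mul, Nat.div_mul_cancel hg]
  have h := DetX.det_gen d _ _ (Nat.div_mul_cancel hg) e'
    (hm ▸ Int.isCoprime_iff_gcd_eq_one.2 h1) x y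
  rwa [← h3] at h

theorem ring (hD : DET_st) : RING_st := by
  intro A _ Δ k _
  have h1 : (1 : Pt Δ k → k) ∈ J Δ k := by
    convert Dt_mem (Δ := Δ) (k := k) (0 : Matrix (Fin 0) (Fin 0) _) using 1
    exact funext fun P => Matrix.det_isEmpty.symm
  have h5 : ∀ n : ℤ, (fun P : Pt Δ k => ((P.ω ^ (n * P.d) : kˣ) : k)) ∈ J Δ k := fun n => by
    induction n using Int.induction_on with
    | zero =>
      convert h1 using 1
      funext P
      simp
    | succ n ih =>
      convert DetX.mul_mem_J ih (neg_mem (DetX.shift_mem hD 1)) using 1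
      funext P
      simp [add_mul, zpow_add]
    | pred n ih =>
      convert DetX.mul_mem_J ih (neg_mem (DetX.shift_mem hD (-1))) using 1
      funext P
      simp [sub_mul, zpow_sub]
  refine ⟨h1, fun f hf g hg => DetX.mul_mem_J hf hg, DetX.det_mem, fun n => ?_, h5, fun e => ?_⟩
  · convert DetX.det_mem (Δ := Δ) (k := k) (Finsupp.single 0 (MonoidAlgebra.single 1 n)) using 1
    funext P
    have : rho P (Finsupp.single 0 (MonoidAlgebra.single 1 n)) = (n : k) • 1 := by
      ext i j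
      simp [rho_single, lam_single, Matrix.one_apply, eq_comm]
    rw [this, Matrix.det_smul, Matrix.det_one, ZMod.card, mul_one]
  · convert DetX.mul_mem_J (DetX.shift_mem hD e) (h5 (-e)) using 1
    funext P
    rw [Pi.mul_apply, mul_assoc, ← Units.val_mul, ← zpow_add]
    simp

end Pool.Agent.MP_f3cd89_nt
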