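import Pool.Agent.MP_f3cd89_nt.FStm

set_option autoImplicit false
set_option linter.unusedSectionVars false

open Finset NumberField IsDedekindDomain Pointwise

namespace Pool.Agent.MP_f3cd89_nt

namespace DictX

theorem dvd_iff {r : ℕ} (hr : 0 < r) (e : ℤ) (n : ℕ) :
    (r : ℤ) ∣ e * n ↔ r / Int.gcd r e ∣ n := by
  have h0 : 0 < Int.gcd r e := Int.gcd_pos_of_ne_zero_left _ (by omega)
  have hc := Int.isCoprime_iff_gcd_eq_one.2 (Int.gcd_div_gcd_div_gcd h0)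
  have h1 := Int.mul_ediv_cancel' (Int.gcd_dvd_left (r : ℤ) e)
  have h2 := Int.mul_ediv_cancel' (Int.gcd_dvd_right (r : ℤ) e)
  rw [← Int.natCast_dvd_natCast, Int.natCast_div]
  generalize Int.gcd r e = g at *
  generalize (r : ℤ) / g = a at *
  generalize e / g = b at *
  rw [← h1, ← h2, mul_assoc, mul_dvd_mul_iff_left (by omega)]
  exact ⟨hc.dvd_of_dvd_mul_left, fun h => h.mul_left _⟩

section Grp

variable {G : Type} [Group G] {N : Subgroup G} [N.Normal] {Y a b : G} {r : ℕ} {e : ℤ}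

theorem q_one (hY : ∀ e : ℤ, Y ^ e ∈ N ↔ (r : ℤ) ∣ e) (k : ℤ) :
    QuotientGroup.mk' N Y ^ k = 1 ↔ (r : ℤ) ∣ k := by
  rw [← map_zpow, QuotientGroup.mk'_apply, QuotientGroup.eq_one_iff, hY]

theorem q_mem (hb : b ∈ N) : QuotientGroup.mk' N b = 1 := (QuotientGroup.eq_one_iff b).2 hb

theorem pow_mem_iff (hr : 0 < r) (hY : ∀ e : ℤ, Y ^ e ∈ N ↔ (r : ℤ) ∣ e) (hb : b ∈ N) (t n : ℕ) :
    (Y ^ t * (b * Y ^ e) * (Y ^ t)⁻¹) ^ n ∈ N ↔ r / Int.gcd r e ∣ n := by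
  rw [← dvd_iff hr, ← q_one hY, ← QuotientGroup.eq_one_iff, ← QuotientGroup.mk'_apply]
  simp only [map_pow, map_mul, map_inv, map_zpow, q_mem hb]
  refine Eq.congr_left ?_
  generalize QuotientGroup.mk' N Y = y
  rw [zpow_mul, zpow_natCast]
  congr 1
  group

theorem eq_of_mem (hY : ∀ e : ℤ, Y ^ e ∈ N ↔ (r : ℤ) ∣ e) (hb : b ∈ N) (ha : a ∈ N) {t t' : ℕ}
    (ht : t < Int.gcd r e) (ht' : t' < Int.gcd r e)
    (h : (Y ^ t')⁻¹ * a * Y ^ t ∈ Subgroup.zpowers (b * Y ^ e)) : t = t' := by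
  obtain ⟨k, hk⟩ := h
  have h1 := congrArg (QuotientGroup.mk' N) hk
  simp only [map_pow, map_mul, map_inv, map_zpow, q_mem hb, q_mem ha, one_mul, mul_one] at h1
  have h2 : (r : ℤ) ∣ t' + e * k - t := by
    rw [← q_one hY, zpow_sub, zpow_add, zpow_mul, h1, zpow_natCast, zpow_natCast]
    group
  have h3 : (Int.gcd r e : ℤ) ∣ t' - t := by
    have := ((Int.gcd_dvd_left (r : ℤ) e).trans h2).sub ((Int.gcd_dvd_right (r : ℤ) e).mul_right k)
    rwa [show (t' : ℤ) + e * k - t - e * k = t' - t by ring] at this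
  have := Int.eq_zero_of_abs_lt_dvd h3 (abs_lt.2 ⟨by omega, by omega⟩)
  omega

theorem exists_rep (hr : 0 < r) (hY : ∀ e : ℤ, Y ^ e ∈ N ↔ (r : ℤ) ∣ e) (hb : b ∈ N) (ha : a ∈ N)
    (e' : ℤ) : ∃ t < Int.gcd r e, ∃ c ∈ N, ∃ k : ℤ,
      a * Y ^ e' = c * (Y ^ t * (b * Y ^ e) ^ k) := by
  have h0 : 0 < (Int.gcd r e : ℤ) := by
    exact_mod_cast Int.gcd_pos_of_ne_zero_left _ (by omega)
  have h1 := Int.emod_nonneg e' h0.ne'
  have h2 := Int.emod_lt_of_pos e' h0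
  have h3 := Int.emod_add_mul_ediv e' (Int.gcd r e)
  obtain ⟨t, ht⟩ := Int.eq_ofNat_of_zero_le h1
  rw [ht] at h2 h3
  generalize e' / (Int.gcd r e : ℤ) = m at h3
  refine ⟨t, by omega, _, ?_, Int.gcdB r e * m, (inv_mul_cancel_right _ _).symm⟩
  rw [← QuotientGroup.eq_one_iff, ← QuotientGroup.mk'_apply]
  simp only [map_pow, map_mul, map_inv, map_zpow, q_mem hb, q_mem ha, one_mul]
  rw [← zpow_mul, ← zpow_natCast, ← zpow_add, ← zpow_sub, q_one hY, ← h3, Int.gcd_eq_gcd_ab]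
  exact ⟨Int.gcdA r e * m, by ring⟩

end Grp

section Fld

variable {E L G U : Type} [Field E] [NumberField E] [Field L] [NumberField L] [Algebra E L]
  [Group G] [MulSemiringAction G L] [Group U] [Finite U] [MulSemiringAction U L]
  [IsGaloisGroup U E L]

theorem mem_range [FaithfulSMul G L] {i : U →* G} (hi : ∀ (u : U) (x : L), i u • x = u • x)
    (h : G) (hh : ∀ x : E, h • algebraMap E L x = algebraMap E L x) : ∃ u, i u = h := by
  obtain ⟨u, hu⟩ := (IsGaloisGroup.mulEquivAlgEquiv U E L).surjective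
    { MulSemiringAction.toRingEquiv G L h with commutes' := hh }
  refine ⟨u, eq_of_smul_eq_smul (α := L) fun x => ?_⟩
  rw [hi]
  exact DFunLike.congr_fun hu x

theorem act_under {g : G} {γ : E ≃+* E}
    (hγ : ∀ x, algebraMap E L (γ x) = g • algebraMap E L x) (P : Pr L) :
    act γ (P.under (𝓞 E)) = (gact g P).under (𝓞 E) := by
  ext a
  have : algebraMap (𝓞 E) (𝓞 L) ((RingOfIntegers.mapRingEquiv γ).symm a) =
      g⁻¹ • algebraMap (𝓞 E) (𝓞 L) a := by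
    apply RingOfIntegers.ext
    change algebraMap E L (γ.symm a) = g⁻¹ • algebraMap E L a
    rw [eq_inv_smul_iff, ← hγ, RingEquiv.apply_symm_apply]
  change algebraMap (𝓞 E) (𝓞 L) ((RingOfIntegers.mapRingEquiv γ).symm a) ∈ P.asIdeal ↔
    algebraMap (𝓞 E) (𝓞 L) a ∈ (gact g P).asIdeal
  rw [this, gact_asIdeal, Ideal.mem_pointwise_smul_iff_inv_smul_mem]

theorem frob_conj {i : U →* G} (hi : ∀ (u : U) (x : L), i u • x = u • x) {g : G} {u u₁ : U}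
    (h : i u₁ = g * i u * g⁻¹) {P : Pr L}
    (hn : nrm ((gact g P).under (𝓞 E)) = nrm (P.under (𝓞 E)))
    (hP : IsArithFrobAt (𝓞 E) u P.asIdeal) : IsArithFrobAt (𝓞 E) u₁ (gact g P).asIdeal := by
  intro x
  have hi' : ∀ (u : U) (x : 𝓞 L), i u • x = u • x := fun u x => RingOfIntegers.ext (hi u x)
  have hn' : Nat.card (𝓞 E ⧸ (gact g P).asIdeal.under (𝓞 E)) =
      Nat.card (𝓞 E ⧸ P.asIdeal.under (𝓞 E)) := hn
  rw [hn', gact_asIdeal, Ideal.mem_pointwise_smul_iff_inv_smul_mem]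
  have := hP (g⁻¹ • x)
  simp only [MulSemiringAction.toAlgHom_apply] at this ⊢
  rwa [← hi', h, smul_sub, smul_pow', mul_smul, mul_smul, inv_smul_smul, hi']

theorem uniq (hF : FB_st) {S : Finset (Pr E)} (hU : Unr L U S) {φ : Pr E → U}
    (hφ : IsFrob L S φ) {P : Pr L} (hw : P.under (𝓞 E) ∉ S) {u : U}
    (hP : IsArithFrobAt (𝓞 E) u P.asIdeal) : ∃ u', φ (P.under (𝓞 E)) = u' * u * u'⁻¹ := by
  obtain ⟨-, u2, -, -, u5, -, -, u8⟩ := hF E L U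
  obtain ⟨P₀, h1, h2⟩ := hφ _ hw
  obtain ⟨u', rfl⟩ := u2 P P₀ h1.symm
  exact ⟨u', (u8 _ _ (hU _ (h1 ▸ hw)) (u5 _ _ u' hP)).1 _ h2⟩

end Fld

end DictX

open DictX in
theorem dict (hF : FB_st) (hT : TOW_st) : DICT_st := by
  intro F E L G U _ _ _ _ _ _ _ _ _ _ _ _ _ _ _ _ _ _ i S φE hi hG hφE
  classical
  obtain ⟨g1, g2, -, -, g5, -, -, g8⟩ := hF F L G
  obtain ⟨u1, u2, -⟩ := hF E L U
  obtain ⟨t1, -, t3, -⟩ := hT F E L G
  obtain ⟨-, a2, a3, a4⟩ := t3 U i hi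
  have hU := a3 S hG
  have : FaithfulSMul G L := IsGaloisGroup.faithful F
  refine ⟨fun g γ hγ => ?_, fun Y r φ hr hN hgen hY hφ v hv u e he => ?_⟩
  · have h1 : ∀ w : Pr E, (act γ w).under (𝓞 F) = w.under (𝓞 F) := fun w => by
      obtain ⟨P, rfl⟩ := under_surj (E' := L) w
      rw [act_under hγ, t1, t1, g1]
    refine ⟨h1, fun w hw => ?_⟩
    obtain ⟨P, rfl, hP⟩ := hφE w hw
    obtain ⟨u₁, h₁⟩ := mem_range (E := E) hi (g * i (φE (P.under (𝓞 E))) * g⁻¹) fun x => by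
      obtain ⟨y, rfl⟩ := γ.surjective x
      rw [hγ, mul_smul, inv_smul_smul, mul_smul, hi, smul_algebraMap]
    have h2 := frob_conj hi h₁ (by rw [← act_under hγ]; exact absNorm_act γ _) hP
    obtain ⟨u', hu'⟩ := uniq hF hU hφE (by rwa [← act_under hγ, mem_above, h1, ← mem_above]) h2
    exact ⟨u', by rw [act_under hγ, hu', map_mul, map_mul, map_inv, h₁]⟩
  · obtain ⟨P, rfl, hP⟩ := hφ v hv
    have h8 := (g8 P _ (hG P hv) hP).2.1
    refine ⟨fun t => (gact (Y ^ t) P).under (𝓞 E), fun t ht t' ht' h => ?_, ?_, fun t => ?_⟩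
    · obtain ⟨u', hu'⟩ := u2 _ _ h
      refine eq_of_mem hY ⟨u, rfl⟩ ⟨u', rfl⟩ (mem_range.1 ht) (mem_range.1 ht') ?_
      rw [← he, ← h8, gact_mul, gact_mul, a2, hu', ← gact_mul, inv_mul_cancel, gact_one]
    · ext w
      rw [mem_above, mem_singleton, mem_image]
      refine ⟨fun h => ?_, ?_⟩
      · obtain ⟨P', rfl⟩ := under_surj (E' := L) w
        obtain ⟨g, rfl⟩ := g2 P P' (by rw [← h, t1])
        obtain ⟨u', e', rfl⟩ := hgen g
        obtain ⟨t, ht, _, ⟨c, rfl⟩, k, hk⟩ := exists_rep (e := e) hr hY ⟨u, rfl⟩ ⟨u', rfl⟩ e'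
        refine ⟨t, mem_range.2 ht, ?_⟩
        rw [hk, gact_mul, gact_mul, ← he, (h8 _).2 ⟨k, rfl⟩, a2, u1]
      · rintro ⟨t, -, rfl⟩
        rw [t1, g1]
    · have hv' : (gact (Y ^ t) P).under (𝓞 F) ∉ S := by rwa [g1]
      have h3 : ∀ n : ℕ, (Y ^ t * φ (P.under (𝓞 F)) * (Y ^ t)⁻¹) ^ n ∈ i.range ↔
          r / Int.gcd r e ∣ n := fun n => by
        rw [he]
        exact pow_mem_iff hr hY ⟨u, rfl⟩ t n
      obtain ⟨b1, -, b3⟩ := a4 _ _ _ (hG _ hv') (g5 _ _ (Y ^ t) hP) h3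
      obtain ⟨u₁, h₁⟩ := (h3 _).2 dvd_rfl
      obtain ⟨u', hu'⟩ := uniq hF hU hφE (by rwa [mem_above, t1]) (b3 u₁ h₁)
      exact ⟨by rw [b1, g1], u', by rw [hu', map_mul, map_mul, map_inv, h₁, conj_pow]⟩

end Pool.Agent.MP_f3cd89_nt
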