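import Pool.Agent.MP_f3cd89_nt.EulA

set_option autoImplicit false
set_option linter.unusedSectionVars false

open Finset Filter Topology NumberField IsDedekindDomain

namespace Pool.Agent.MP_f3cd89_nt

namespace EulX

variable {F : Type} [Field F] [NumberField F]

/-- an effective divisor from its multiplicities -/
noncomputable def up (D : Pr F →₀ ℕ) : Pr F →₀ ℤ := D.mapRange (fun n : ℕ => (n : ℤ)) Nat.cast_zero

/-- the multiplicities of an effective divisor -/
noncomputable def dn (D : Pr F →₀ ℤ) : Pr F →₀ ℕ := D.mapRange Int.toNat rfl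

theorem up_dn {D : Pr F →₀ ℤ} (h : 0 ≤ D) : up (dn D) = D :=
  Finsupp.ext fun v => Int.toNat_of_nonneg (h v)

theorem dn_up (D : Pr F →₀ ℕ) : dn (up D) = D := Finsupp.ext fun _ => Int.toNat_natCast _

theorem up_nonneg (D : Pr F →₀ ℕ) : 0 ≤ up D := fun _ => Int.natCast_nonneg _

theorem nmD_up (D : Pr F →₀ ℕ) : nmD (up D) = ((D.prod fun v n => nrm v ^ n : ℕ) : ℝ) := by
  rw [nmD, up, Finsupp.prod_mapRange_index fun _ => zpow_zero _]
  simp [Finsupp.prod]

theorem one_le_nmD {D : Pr F →₀ ℤ} (h : 0 ≤ D) : 1 ≤ nmD D := by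
  rw [← up_dn h, nmD_up]
  exact_mod_cast one_le_prod' fun v _ => Nat.one_le_pow _ _ (by have := two_le_nrm v; omega)

theorem term_up (ψ : Pr F → ℂˣ) (s : ℂ) (D : Pr F →₀ ℕ) :
    ((chv ψ (up D) : ℂˣ) : ℂ) * (nmD (up D) : ℂ) ^ (-s) =
      D.prod fun v n => ((ψ v : ℂ) * (nrm v : ℂ) ^ (-s)) ^ n := by
  let φ : ℕ →* ℂ := ⟨⟨fun n => (n : ℂ) ^ (-s), by simp⟩, fun m n => by
    simp only [Nat.cast_mul]
    exact Complex.natCast_mul_natCast_cpow m n _⟩
  have e : (nmD (up D) : ℂ) ^ (-s) = φ (D.prod fun v n => nrm v ^ n) := by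
    rw [nmD_up, Complex.ofReal_natCast]
    rfl
  rw [e, chv, up, Finsupp.prod_mapRange_index fun _ => zpow_zero _]
  simp only [Finsupp.prod, map_prod, map_pow, zpow_natCast, Units.coe_prod, Units.val_pow_eq_pow_val,
    mul_pow, prod_mul_distrib]
  rfl

open Classical in
theorem main (hC : NTC_st) (hX : CHAR_st) (l : ℕ) [Fact l.Prime]
    (S C : Finset (Pr F)) (ψ : Pr F → ℂˣ) (ζ : ℂ) (hd : Disjoint S C)
    (hl : ∀ c ∈ C, (l : 𝓞 F) ∈ c.asIdeal) (hψ : ∀ v, v ∉ S → ‖(ψ v : ℂ)‖ = 1)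
    (hζ : IsPrimitiveRoot ζ l) (s : ℂ) (hs : 1 < s.re) : ∃ L : ℂ,
    HasProd (fun v : {v : Pr F // v ∉ S} => (1 - (ψ v : ℂ) * (nrm v.1 : ℂ) ^ (-s))⁻¹) L ∧
      HasSum (fun q : Pair l S C => (chv ψ q.1.1 : ℂˣ) * ζ ^ (q.1.2 1).val *
        (nmD q.1.1 : ℂ) ^ (-s)) ((∏ c ∈ C, ((ψ c : ℂ) * (nrm c : ℂ) ^ (1 - s) - 1)) * L) := by
  have hp : l.Prime := Fact.out
  let a : Pr F → ℂ := fun v => if v ∈ S then 0 else (ψ v : ℂ) * (nrm v : ℂ) ^ (-s)
  have ha : ∀ v, ‖a v‖ ≤ (nrm v : ℝ) ^ (-s.re) := fun v => by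
    simp only [a]
    split_ifs with h
    · rw [norm_zero]
      positivity
    · rw [norm_mul, hψ v h, one_mul,
        Complex.norm_natCast_cpow_of_pos (by have := two_le_nrm v; omega), Complex.neg_re]
  have ha2 : ∀ v, ‖a v‖ ≤ 1 / 2 := fun v => by
    have h2 : (2 : ℝ) ≤ nrm v := by exact_mod_cast two_le_nrm v
    refine (ha v).trans ((Real.rpow_le_rpow_of_exponent_le (by linarith)
      (by linarith : -s.re ≤ -1)).trans ?_)
    rw [Real.rpow_neg_one, one_div]
    exact inv_anti₀ two_pos h2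
  obtain ⟨s0, L, hL, hS⟩ := twisted a (fun v => (nrm v : ℂ)) ha2
    (Summable.of_nonneg_of_le (fun _ => norm_nonneg _) ha ((hC F).2.2.2.1 _ hs)) C
  refine ⟨L, ?_, ?_⟩
  · have h1 := ((Subtype.val_injective (p := fun v : Pr F => v ∉ S)).hasProd_iff
      (f := fun v => (1 - a v)⁻¹) fun v hv => by
        have : v ∈ S := by simpa using hv
        simp [a, this]).2 hL
    exact h1.congr_fun fun v => by simp only [Function.comp, a, if_neg v.2]
  have eC : ∏ c ∈ C, ((ψ c : ℂ) * (nrm c : ℂ) ^ (1 - s) - 1) = ∏ c ∈ C, (a c * nrm c - 1) := by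
    refine prod_congr rfl fun c hc => ?_
    have h0 : (nrm c : ℂ) ≠ 0 := Nat.cast_ne_zero.2 (by have := two_le_nrm c; omega)
    simp only [a, if_neg (disjoint_right.1 hd hc)]
    rw [sub_eq_add_neg 1 s, Complex.cpow_add _ _ h0, Complex.cpow_one]
    ring
  rw [eC]
  let m : (Pr F →₀ ℕ) → ℂ := fun D => D.prod fun v n => a v ^ n
  let g : (Pr F →₀ ℕ) × (F → ZMod l) → ℂ := fun x =>
    if IsPrim C (up x.1) x.2 then m x.1 * ζ ^ (x.2 1).val else 0
  have hT : ∀ D : Pr F →₀ ℕ, ∃ T : Finset (F → ZMod l), (∀ χ, χ ∈ T ↔ IsPrim C (up D) χ) ∧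
      T.card ≤ ∏ c ∈ C, nrm c ∧ ∑ χ ∈ T, ζ ^ (χ 1).val =
        ∏ c ∈ C, ((if 1 ≤ D c then (nrm c : ℂ) else 0) - 1) := by
    intro D
    obtain ⟨h1, h2, h3⟩ := hX F l C (up D) hl
    refine ⟨h1.toFinset, fun χ => h1.mem_toFinset, by rwa [← Set.ncard_eq_toFinset_card _ h1], ?_⟩
    rw [← finsum_mem_eq_finite_toFinset_sum _ h1, h3 ζ hζ (up_nonneg D)]
    refine prod_congr rfl fun c _ => ?_
    have : (1 ≤ up D c) ↔ 1 ≤ D c := Nat.one_le_cast (α := ℤ)
    simp only [this]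
  choose T hT hTc hTs using hT
  have hz : ‖ζ‖ = 1 := hζ.norm'_eq_one hp.ne_zero
  have f1 : ∀ D, HasSum (fun χ => g (D, χ))
      (m D * ∏ c ∈ C, ((if 1 ≤ D c then (nrm c : ℂ) else 0) - 1)) := by
    intro D
    rw [← hTs, mul_sum, ← sum_congr rfl fun χ hχ => if_pos (e := (0 : ℂ)) ((hT D χ).1 hχ)]
    exact hasSum_sum_of_ne_finset_zero fun χ hχ => if_neg (mt (hT D χ).2 hχ)
  have f2 : ∀ D, HasSum (fun χ => ‖g (D, χ)‖) ((T D).card * ‖m D‖) := by
    intro D
    have e : ∑ χ ∈ T D, ‖g (D, χ)‖ = (T D).card * ‖m D‖ := by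
      rw [← nsmul_eq_mul, ← sum_const]
      refine sum_congr rfl fun χ hχ => ?_
      simp only [g, if_pos ((hT D χ).1 hχ), norm_mul, norm_pow, hz, one_pow, mul_one]
    rw [← e]
    exact hasSum_sum_of_ne_finset_zero fun χ hχ => by
      simp only [g, if_neg (mt (hT D χ).2 hχ), norm_zero]
  have sg : Summable fun x => ‖g x‖ := by
    refine (summable_prod_of_nonneg fun _ => norm_nonneg _).2 ⟨fun D => (f2 D).summable, ?_⟩
    simp only [fun D => (f2 D).tsum_eq]
    refine Summable.of_nonneg_of_le (fun _ => by positivity) (fun D => ?_)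
      (s0.mul_left ((∏ c ∈ C, nrm c : ℕ) : ℝ))
    exact mul_le_mul_of_nonneg_right (by exact_mod_cast hTc D) (norm_nonneg _)
  have hg : HasSum g ((∏ c ∈ C, (a c * nrm c - 1)) * L) := by
    have h1 := sg.of_norm.hasSum
    rwa [(h1.prod_fiberwise f1).unique hS] at h1
  let j : Pair l S C → (Pr F →₀ ℕ) × (F → ZMod l) := fun q => (dn q.1.1, q.1.2)
  have inj : Function.Injective j := by
    intro q q' e
    have e1 : dn q.1.1 = dn q'.1.1 := congrArg Prod.fst e
    have e2 : (j q).2 = (j q').2 := congrArg Prod.snd e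
    refine Subtype.ext (Prod.ext ?_ e2)
    rw [← up_dn q.2.1, e1, up_dn q'.2.1]
  refine ((inj.hasSum_iff (f := g) ?_).2 hg).congr_fun fun q => ?_
  · rintro ⟨D, χ⟩ hx
    simp only [g]
    split_ifs with h
    · by_cases ho : up D ∈ off S
      · exact absurd ⟨⟨(up D, χ), up_nonneg D, ho, h⟩, Prod.ext (dn_up D) rfl⟩ hx
      · rw [mem_off] at ho
        push Not at ho
        obtain ⟨v, hv, h0⟩ := ho
        have h1 : D v ≠ 0 := fun e => h0 (Int.natCast_eq_zero.2 e)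
        have h2 : m D = 0 := prod_eq_zero (Finsupp.mem_support_iff.2 h1) (by
          simp only [a, if_pos hv]
          exact zero_pow h1)
        rw [h2, zero_mul]
    · rfl
  · simp only [Function.comp, g, j, up_dn q.2.1, if_pos q.2.2.2]
    rw [mul_right_comm]
    congr 1
    have h1 := term_up ψ s (dn q.1.1)
    rw [up_dn q.2.1] at h1
    rw [h1]
    refine prod_congr rfl fun v hv => ?_
    have h2 : v ∉ S := fun h => Finsupp.mem_support_iff.1 hv (by
      simp only [dn, Finsupp.mapRange_apply, q.2.2.1 v h, Int.toNat_zero])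
    simp only [a, if_neg h2]

end EulX

open EulX in
theorem eul (hC : NTC_st) (hX : CHAR_st) : EUL_st := by
  intro F _ _ l _ S C ψ ζ hd hl hψ hζ
  have hm := main hC hX l S C ψ ζ hd hl hψ hζ
  refine ⟨fun f σ₀ hf h => ⟨hf, fun s hs => ?_⟩, fun f hf s hs => ?_⟩
  · obtain ⟨L, h1, h2⟩ := hm s hs
    refine ⟨L, h1, ?_⟩
    rw [← h2.tsum_eq]
    let σ : ℝ := (1 + s.re) / 2
    have hσ : 1 < (σ : ℂ).re := by simp only [σ, Complex.ofReal_re]; linarith
    obtain ⟨_, -, h3⟩ := hm σ hσ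
    let U : Set ℂ := {z | σ < z.re}
    have hU : IsOpen U := isOpen_lt continuous_const Complex.continuous_re
    have hG := Complex.differentiableOn_tsum_of_summable_norm (U := U)
      (F := fun (q : Pair l S C) (z : ℂ) => (chv ψ q.1.1 : ℂˣ) * ζ ^ (q.1.2 1).val *
        (nmD q.1.1 : ℂ) ^ (-z)) h3.summable.norm (fun q => ?_) hU fun q z hz => ?_
    · let z₀ : ℂ := (max σ σ₀ + 1 : ℝ)
      have hz₀ : max σ σ₀ < z₀.re := by simp [z₀]
      have ev : ∀ᶠ z in 𝓝 z₀, max σ σ₀ < z.re :=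
        (isOpen_lt continuous_const Complex.continuous_re).mem_nhds hz₀
      refine (hf.differentiableOn.analyticOnNhd hU).eqOn_of_preconnected_of_eventuallyEq
        (hG.analyticOnNhd hU) (convex_halfSpace_re_gt σ).isPreconnected (z₀ := z₀)
        ((le_max_left _ _).trans_lt hz₀)
        (ev.mono fun z hz => (h z ((le_max_right _ _).trans_lt hz)).tsum_eq.symm) ?_
      change σ < s.re
      simp only [σ]
      linarith
    · have h0 : (nmD q.1.1 : ℂ) ≠ 0 :=
        Complex.ofReal_ne_zero.2 (by linarith [one_le_nmD q.2.1])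
      exact ((differentiable_neg.const_cpow (Or.inl h0)).const_mul _).differentiableOn
    · have h0 := one_le_nmD q.2.1
      rw [norm_mul, norm_mul _ (_ ^ (-(σ : ℂ)))]
      refine mul_le_mul_of_nonneg_left ?_ (norm_nonneg _)
      rw [Complex.norm_cpow_eq_rpow_re_of_pos (by linarith),
        Complex.norm_cpow_eq_rpow_re_of_pos (by linarith)]
      refine Real.rpow_le_rpow_of_exponent_le h0 ?_
      have : σ < z.re := hz
      simp only [Complex.neg_re, Complex.ofReal_re]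
      linarith
  · obtain ⟨L, h1, h2⟩ := hm s hs
    obtain ⟨L', h3, h4⟩ := hf.2 s hs
    rwa [h4, h3.unique h1]

end Pool.Agent.MP_f3cd89_nt
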