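import Pool.Agent.MP_f3cd89_nt.SStm

set_option autoImplicit false

open Finset Filter Topology

namespace Pool.Agent.MP_f3cd89_nt.EulX

open Classical in
theorem fin_euler {ι K : Type} [NormedField K] [CompleteSpace K] (b : ι → ℕ → K)
    (h0 : ∀ i, b i 0 = 1) (hs : ∀ i, Summable fun n => ‖b i n‖) (s : Finset ι) :
    (Summable fun D : ι →₀ ℕ => ‖if D.support ⊆ s then D.prod b else 0‖) ∧
      HasSum (fun D : ι →₀ ℕ => if D.support ⊆ s then D.prod b else 0)
        (∏ i ∈ s, ∑' n, b i n) := by
  induction s using Finset.induction_on with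
  | empty =>
    have h : ∀ D : ι →₀ ℕ, D ≠ 0 → (if D.support ⊆ ∅ then D.prod b else 0) = 0 := fun D hD =>
      if_neg (by simpa using hD)
    refine ⟨(hasSum_single 0 fun D hD => by rw [h D hD, norm_zero]).summable, ?_⟩
    simpa using hasSum_single (f := fun D : ι →₀ ℕ => if D.support ⊆ ∅ then D.prod b else 0) 0 h
  | insert i s hi ih =>
    obtain ⟨h1, h2⟩ := ih
    let j : (ι →₀ ℕ) → ℕ × (ι →₀ ℕ) := fun D => (D i, D.erase i)
    have inj : Function.Injective j := by
      intro D D' e
      have e1 : D i = D' i := congrArg Prod.fst e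
      have e2 : D.erase i = D'.erase i := congrArg Prod.snd e
      rw [← Finsupp.single_add_erase i D, ← Finsupp.single_add_erase i D', e1, e2]
    have off : ∀ x : ℕ × (ι →₀ ℕ), x ∉ Set.range j →
        b i x.1 * (if x.2.support ⊆ s then x.2.prod b else 0) = 0 := by
      rintro ⟨n, D⟩ hx
      rw [if_neg, mul_zero]
      intro h
      have h3 : D i = 0 := Finsupp.notMem_support_iff.1 fun h' => hi (h h')
      refine hx ⟨Finsupp.single i n + D, Prod.ext (by simp [j, h3]) ?_⟩
      simp only [j, Finsupp.erase_add, Finsupp.erase_single, zero_add]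
      exact Finsupp.erase_of_notMem_support (Finsupp.notMem_support_iff.2 h3)
    have on : ∀ D : ι →₀ ℕ, b i (j D).1 * (if (j D).2.support ⊆ s then (j D).2.prod b else 0) =
        if D.support ⊆ insert i s then D.prod b else 0 := by
      intro D
      simp only [j, Finsupp.support_erase, subset_insert_iff, mul_ite, mul_zero]
      rw [Finsupp.mul_prod_erase' D i b fun _ => h0 _]
    constructor
    · have h4 := ((hs i).mul_norm h1).comp_injective inj
      exact h4.congr fun D => congrArg norm (on D)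
    · rw [prod_insert hi]
      have h3 := summable_mul_of_summable_norm (f := b i)
        (g := fun D : ι →₀ ℕ => if D.support ⊆ s then D.prod b else 0) (hs i) h1
      have h4 := HasSum.mul (f := b i)
        (g := fun D : ι →₀ ℕ => if D.support ⊆ s then D.prod b else 0)
        (hs i).of_norm.hasSum h2 h3
      have h5 := (inj.hasSum_iff (f := fun x : ℕ × (ι →₀ ℕ) => b i x.1 *
        (if x.2.support ⊆ s then x.2.prod b else 0)) off).2 h4
      exact h5.congr_fun fun D => (on D).symm

theorem euler {ι : Type} (b : ι → ℕ → ℂ) (h0 : ∀ i, b i 0 = 1)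
    (hs : ∀ i, Summable fun n => ‖b i n‖) (h : Summable fun D : ι →₀ ℕ => ‖D.prod b‖) :
    HasProd (fun i => ∑' n, b i n) (∑' D : ι →₀ ℕ, D.prod b) := by
  classical
  have e : (fun s : Finset ι => ∏ i ∈ s, ∑' n, b i n) =
      fun s => ∑' D : ι →₀ ℕ, if D.support ⊆ s then D.prod b else 0 :=
    funext fun s => (fin_euler b h0 hs s).2.tsum_eq.symm
  change Tendsto (fun s : Finset ι => ∏ i ∈ s, ∑' n, b i n) atTop _
  rw [e]
  refine tendsto_tsum_of_dominated_convergence h (fun D => ?_) (Eventually.of_forall fun s D => ?_)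
  · refine tendsto_const_nhds.congr' ?_
    filter_upwards [eventually_ge_atTop D.support] with s hs
    exact (if_pos hs).symm
  · split_ifs
    · exact le_rfl
    · simp

theorem summ {ι : Type} (r : ι → ℝ) (h0 : ∀ i, 0 ≤ r i) (h1 : ∀ i, r i ≤ 1 / 2) (h : Summable r) :
    Summable fun D : ι →₀ ℕ => D.prod fun i n => r i ^ n := by
  classical
  have hp : ∀ D : ι →₀ ℕ, 0 ≤ D.prod fun i n => r i ^ n := fun D =>
    prod_nonneg fun i _ => pow_nonneg (h0 i) _
  have hl : ∀ i, r i < 1 := fun i => by linarith [h1 i]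
  refine summable_of_sum_le (c := Real.exp (∑' i, 2 * r i)) hp fun u => ?_
  have h2 := (fin_euler (fun i n => r i ^ n) (fun _ => pow_zero _) (fun i =>
    (summable_geometric_of_lt_one (h0 i) (hl i)).norm) (u.biUnion Finsupp.support)).2
  have h3 := sum_le_hasSum u (fun D _ => by split_ifs; exacts [hp D, le_rfl]) h2
  rw [sum_congr rfl fun D hD => if_pos (subset_biUnion_of_mem Finsupp.support hD)] at h3
  refine h3.trans ?_
  refine le_trans ?_ (Real.exp_le_exp.2 ((h.mul_left 2).sum_le_tsum (u.biUnion Finsupp.support)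
    fun i _ => by linarith [h0 i]))
  rw [Real.exp_sum]
  refine prod_le_prod (fun i _ => tsum_nonneg fun n => pow_nonneg (h0 i) n) fun i _ => ?_
  rw [tsum_geometric_of_lt_one (h0 i) (hl i)]
  refine le_trans ?_ (Real.add_one_le_exp _)
  rw [inv_le_iff_one_le_mul₀ (by linarith [hl i])]
  nlinarith [h0 i, h1 i]

open Classical in
theorem twisted {ι : Type} (a N : ι → ℂ) (h1 : ∀ i, ‖a i‖ ≤ 1 / 2) (h : Summable fun i => ‖a i‖)
    (C : Finset ι) : (Summable fun D : ι →₀ ℕ => ‖D.prod fun i n => a i ^ n‖) ∧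
      ∃ L, HasProd (fun i => (1 - a i)⁻¹) L ∧
        HasSum (fun D : ι →₀ ℕ => (D.prod fun i n => a i ^ n) *
          ∏ c ∈ C, ((if 1 ≤ D c then N c else 0) - 1)) ((∏ c ∈ C, (a c * N c - 1)) * L) := by
  have hl : ∀ i, ‖a i‖ < 1 := fun i => by linarith [h1 i]
  have s0 : Summable fun D : ι →₀ ℕ => ‖D.prod fun i n => a i ^ n‖ :=
    (summ (fun i => ‖a i‖) (fun _ => norm_nonneg _) h1 h).congr fun D => by
      simp only [Finsupp.prod, norm_prod, norm_pow]
  have g0 : ∀ i, Summable fun n : ℕ => ‖a i ^ n‖ := fun i =>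
    (summable_geometric_of_lt_one (norm_nonneg _) (hl i)).congr fun n => (norm_pow _ _).symm
  have p0 := euler (fun i n => a i ^ n) (fun _ => pow_zero _) g0 s0
  simp only [fun i => tsum_geometric_of_norm_lt_one (hl i)] at p0
  refine ⟨s0, _, p0, ?_⟩
  let w : ι → ℕ → ℂ := fun i n => if i ∈ C then 1 - (if 1 ≤ n then N i else 0) else 1
  have w0 : ∀ i, w i 0 = 1 := fun i => by simp [w]
  have wb : ∀ i n, ‖w i n‖ ≤ 1 + ‖N i‖ := fun i n => by
    simp only [w]
    split_ifs
    · simpa using norm_sub_le 1 (N i)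
    · simp
    · simp
  have ew : ∀ D : ι →₀ ℕ, (D.prod fun i n => a i ^ n * w i n) = (D.prod fun i n => a i ^ n) *
      ∏ c ∈ C, (1 - (if 1 ≤ D c then N c else 0)) := by
    intro D
    rw [Finsupp.prod_mul]
    congr 1
    rw [Finsupp.prod_of_support_subset D (subset_union_left (s₂ := C)) w fun i _ => w0 i,
      ← prod_subset (subset_union_right (s₁ := D.support)) fun i _ hi => if_neg hi]
    exact prod_congr rfl fun i hi => if_pos hi
  have s1 : Summable fun D : ι →₀ ℕ => ‖D.prod fun i n => a i ^ n * w i n‖ := by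
    refine Summable.of_nonneg_of_le (fun _ => norm_nonneg _) (fun D => ?_)
      (s0.mul_right (∏ c ∈ C, (1 + ‖N c‖)))
    rw [ew, norm_mul, norm_prod]
    refine mul_le_mul_of_nonneg_left (prod_le_prod (fun _ _ => norm_nonneg _) fun c hc => ?_)
      (norm_nonneg _)
    have := wb c (D c)
    simpa only [w, if_pos hc] using this
  have g1 : ∀ i, Summable fun n : ℕ => ‖a i ^ n * w i n‖ := fun i =>
    Summable.of_nonneg_of_le (fun _ => norm_nonneg _)
      (fun n => by rw [norm_mul]; exact mul_le_mul_of_nonneg_left (wb i n) (norm_nonneg _))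
      ((g0 i).mul_right (1 + ‖N i‖))
  have p1 := euler (fun i n => a i ^ n * w i n) (fun i => by rw [pow_zero, w0, mul_one]) g1 s1
  have loc : ∀ i, ∑' n, a i ^ n * w i n = (if i ∈ C then 1 - a i * N i else 1) * (1 - a i)⁻¹ := by
    intro i
    have hg := hasSum_geometric_of_norm_lt_one (hl i)
    have hne : 1 - a i ≠ 0 := fun e => by
      have := hl i
      rw [← sub_eq_zero.1 e, norm_one] at this
      exact lt_irrefl _ this
    by_cases hi : i ∈ C
    · rw [(g1 i).of_norm.tsum_eq_zero_add, pow_zero, w0, if_pos hi]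
      have e : ∀ n, a i ^ (n + 1) * w i (n + 1) = a i ^ n * (a i * (1 - N i)) := fun n => by
        simp only [w, if_pos hi, if_pos (Nat.le_add_left 1 n)]
        ring
      simp only [e]
      rw [(hg.mul_right _).tsum_eq]
      field_simp
      ring
    · simp only [w, if_neg hi, mul_one, one_mul]
      exact hg.tsum_eq
  simp only [loc] at p1
  have p2 : HasProd (fun i => if i ∈ C then 1 - a i * N i else 1) (∏ c ∈ C, (1 - a c * N c)) := by
    rw [← prod_congr rfl fun c hc => if_pos (e := (1 : ℂ)) hc]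
    exact hasProd_prod_of_ne_finset_one fun i hi => if_neg hi
  have p3 := p1.unique (p2.mul p0)
  have p4 := (p3 ▸ s1.of_norm.hasSum).mul_left ((-1) ^ C.card)
  have n1 : ∀ x : ι → ℂ, ∏ c ∈ C, (x c - 1) = (-1) ^ C.card * ∏ c ∈ C, (1 - x c) := fun x => by
    rw [← prod_neg]
    exact prod_congr rfl fun c _ => (neg_sub _ _).symm
  rw [n1, mul_assoc]
  refine p4.congr_fun fun D => ?_
  rw [ew, n1]
  ring

end Pool.Agent.MP_f3cd89_nt.EulX
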