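import Pool.Agent.MP_f3cd89_nt.AStm
import Pool.Agent.MP_f3cd89_nt.CStm

/-! Statements of the final steps. -/

set_option autoImplicit false

open Finset NumberField IsDedekindDomain

namespace Pool.Agent.MP_f3cd89_nt

open Classical in
/-- primes in a cyclic subextension -/
def DICT_st : Prop := ∀ (F E L G U : Type) [Field F] [NumberField F] [Field E] [NumberField E]
  [Field L] [NumberField L] [Algebra F E] [Algebra E L] [Algebra F L] [IsScalarTower F E L]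
  [Group G] [Finite G] [MulSemiringAction G L] [IsGaloisGroup G F L]
  [Group U] [Finite U] [MulSemiringAction U L] [IsGaloisGroup U E L] (i : U →* G)
  (S : Finset (Pr F)) (φE : Pr E → U), (∀ (u : U) (x : L), i u • x = u • x) →
  Unr L G S → IsFrob L (above E S) φE →
  (∀ (g : G) (γ : E ≃+* E), (∀ x, algebraMap E L (γ x) = g • algebraMap E L x) →
    (∀ w : Pr E, (act γ w).under (𝓞 F) = w.under (𝓞 F)) ∧ ∀ w, w ∉ above E S →
      ∃ u : U, i (φE (act γ w)) = i u * (g * i (φE w) * g⁻¹) * (i u)⁻¹) ∧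
  ∀ (Y : G) (r : ℕ) (φ : Pr F → G), 0 < r → i.range.Normal →
    (∀ g, ∃ (u : U) (e : ℤ), g = i u * Y ^ e) → (∀ e : ℤ, Y ^ e ∈ i.range ↔ (r : ℤ) ∣ e) →
    IsFrob L S φ → ∀ v, v ∉ S → ∀ (u : U) (e : ℤ), φ v = i u * Y ^ e →
      ∃ w : ℕ → Pr E, Set.InjOn w (range (Int.gcd r e) : Finset ℕ) ∧
        above E {v} = (range (Int.gcd r e)).image w ∧ ∀ t,
          nrm (w t) = nrm v ^ (r / Int.gcd r e) ∧ ∃ u' : U, i (φE (w t)) =
            i u' * (Y ^ t * φ v ^ (r / Int.gcd r e) * (Y ^ t)⁻¹) * (i u')⁻¹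

/-- `f` is the entire function given by the L-function of the dual of the induced representation,
smoothed at `v₀`, up to a sign -/
def SmG {A : Type} [CommGroup A] {Δ : Dat A} {G : Type} [Group G] (π : Pres Δ G) {K : Type}
    [Field K] [NumberField K] (S : Finset (Pr K)) (φ : Pr K → G) (v₀ : Pr K) (P : Pt Δ ℂ)
    (f : ℂ → ℂ) : Prop :=
  Differentiable ℂ f ∧ ∀ s : ℂ, 1 < s.re → ∃ L : ℂ,
    HasProd (fun v : {v : Pr K // v ∉ S} =>
      (1 - ((nrm v.1 : ℂ) ^ (-s)) • rep π P (φ v)⁻¹).det⁻¹) L ∧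
    f s = (-1) ^ Int.gcd P.d (π.pe (φ v₀)) *
      (1 - ((nrm v₀ : ℂ) ^ (1 - s)) • rep π P (φ v₀)⁻¹).det * L

/-- induction of L-functions -/
def LEVA_st : Prop := ∀ (K E L G : Type) [Field K] [NumberField K] [Field E] [NumberField E]
  [Field L] [NumberField L] [Algebra K E] [Algebra E L] [Algebra K L] [IsScalarTower K E L]
  [Group G] [Finite G] [MulSemiringAction G L] [IsGaloisGroup G K L]
  (A : Type) [CommGroup A] (Δ : Dat A) (π : Pres Δ G) (d : ℕ) [IsGaloisGroup (π.U d) E L]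
  (S : Finset (Pr K)) (φ : Pr K → G) (φE : Pr E → π.U d) (v₀ : Pr K) (P : Pt Δ ℂ) (f : ℂ → ℂ),
  P.d = d → Unr L G S → IsFrob L S φ → IsFrob L (above E S) φE → v₀ ∉ S →
  Sm (above E S) (above E {v₀}) (fun w => (psi π P (φE w))⁻¹) f → SmG π S φ v₀ P f

/-- from the smoothed function to the L-value -/
def LVAL_st : Prop := ∀ (K G : Type) [Field K] [NumberField K] [Group G]
  (S : Finset (Pr K)) (φ : Pr K → G),
  (∀ (n : Type) [Fintype n] [DecidableEq n] (ρ : G → Matrix n n ℂ) (c c' : ℂ),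
    IsLValue S φ ρ c → IsLValue S φ ρ c' → c = c') ∧
  ∀ [Finite G] (A : Type) [CommGroup A] (Δ : Dat A) (π : Pres Δ G) (v₀ : Pr K) (P : Pt Δ ℂ)
    (f : ℂ → ℂ), SmG π S φ v₀ P f →
    (∀ f', SmG π S φ v₀ P f' → f' = f) ∧ SmG π S φ v₀ P.tw f ∧
    ∃ c, IsLValue S φ (rep π P) c ∧ f 0 = (-1) ^ Int.gcd P.d (π.pe (φ v₀)) *
      (1 - (nrm v₀ : ℂ) • rep π P (φ v₀)⁻¹).det * c

/-- the standing hypotheses on the extension -/
structure Std (K L : Type) {G : Type} [Field K] [NumberField K] [Field L] [NumberField L]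
    [Algebra K L] [Group G] [MulSemiringAction G L] [IsGaloisGroup G K L] {A : Type} [CommGroup A]
    {Δ : Dat A} (π : Pres Δ G) (S : Finset (Pr K)) (φ : Pr K → G) : Prop where
  cc : ∃ j ∈ π.ι.range, IsCC L j
  unr : Unr L G S
  frob : IsFrob L S φ

/-- existence of the continuation, and the congruence at levels prime to `p` -/
def LEVB_st : Prop := ∀ (K L G : Type) [Field K] [NumberField K] [Field L] [NumberField L]
  [Algebra K L] [Group G] [Finite G] [MulSemiringAction G L] [IsGaloisGroup G K L]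
  (A : Type) [CommGroup A] (Δ : Dat A) (π : Pres Δ G) (S : Finset (Pr K)) (φ : Pr K → G)
  (v₀ : Pr K), Std K L π S φ → v₀ ∉ S →
  (∀ P : Pt Δ ℂ, ∃ f, SmG π S φ v₀ P f) ∧
  ∀ (θ : Pt Δ ℂ → ℂ) (p d : ℕ), (∀ P f, SmG π S φ v₀ P f → f 0 = θ P) → p.Prime →
    (p : 𝓞 K) ∉ v₀.asIdeal → d ∣ Δ.m → ¬p ∣ d → CongrAt p θ d

/-- the congruence at levels divisible by `p` -/
def LEVC_st : Prop := ∀ (K L G : Type) [Field K] [NumberField K] [Field L] [NumberField L]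
  [Algebra K L] [Group G] [Finite G] [MulSemiringAction G L] [IsGaloisGroup G K L]
  (A : Type) [CommGroup A] (Δ : Dat A) (π : Pres Δ G) (S : Finset (Pr K)) (φ : Pr K → G)
  (v₀ : Pr K), Std K L π S φ → v₀ ∉ S →
  ∀ (θ : Pt Δ ℂ → ℂ) (p d : ℕ), (∀ P f, SmG π S φ v₀ P f → f 0 = θ P) → p.Prime →
    (p : 𝓞 K) ∉ v₀.asIdeal → d ∣ Δ.m → p ∣ d → CongrAt p θ d

/-- the fields of levels `d / p` and `d` -/
def FLD_st : Prop := ∀ (K L G : Type) [Field K] [NumberField K] [Field L] [NumberField L]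
  [Algebra K L] [Group G] [Finite G] [MulSemiringAction G L] [IsGaloisGroup G K L]
  (A : Type) [CommGroup A] (Δ : Dat A) (π : Pres Δ G) (S : Finset (Pr K)) (φ : Pr K → G)
  (d₁ d : ℕ), Std K L π S φ → d ∣ Δ.m → d₁ ∣ d →
  ∃ (E₁ E : Type) (_ : Field E₁) (_ : NumberField E₁) (_ : Field E) (_ : NumberField E)
    (_ : Algebra K E₁) (_ : Algebra K E) (_ : Algebra E₁ E) (_ : Algebra E₁ L) (_ : Algebra E L)
    (_ : IsScalarTower K E₁ E) (_ : IsScalarTower K E₁ L) (_ : IsScalarTower K E L)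
    (_ : IsScalarTower E₁ E L) (_ : IsGaloisGroup (π.U d₁) E₁ L) (_ : IsGaloisGroup (π.U d) E L),
    IsTotallyReal E₁ ∧ IsTotallyReal E ∧ above E (above E₁ S) = above E S ∧
    (∀ v : Pr K, above E (above E₁ {v}) = above E {v}) ∧
    ∃ γ : E ≃+* E, (∀ (n : ℕ) (x : E),
      algebraMap E L ((γ ^ n) x) = π.X ^ n • algebraMap E L x) ∧
      ∀ p : ℕ, p.Prime → d = d₁ * p → Rel E₁ E p (γ ^ d₁) (above E₁ S)

/-- the smoothed Stickelberger element is a sum of reduced norms -/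
def ARITH_st : Prop := ∀ (K L G : Type) [Field K] [NumberField K] [Field L] [NumberField L]
  [Algebra K L] [Group G] [Finite G] [MulSemiringAction G L] [IsGaloisGroup G K L]
  (A : Type) [CommGroup A] [Finite A] (Δ : Dat A) (π : Pres Δ G) (S : Finset (Pr K))
  (φ : Pr K → G), Std K L π S φ →
  ∃ θ : Pt Δ ℂ → ℂ, (∀ P, IsLValue S φ (rep π P) (θ P)) ∧ ∀ T : Finset (Pr K), Disjoint S T →
    (∀ p : ℕ, p.Prime → (∀ v ∈ T, (p : 𝓞 K) ∈ v.asIdeal) → ∀ x : L, x ^ p = 1 → x = 1) →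
    (fun P : Pt Δ ℂ => (∏ v ∈ T, (1 - (nrm v : ℂ) • rep π P (φ v)⁻¹).det) * θ P) ∈ J Δ ℂ

/-- the final statement -/
def FINAL_st : Prop := ∀ (K L : Type) [Field K] [NumberField K] [Field L] [NumberField L]
  [Algebra K L] [IsGalois K L] [IsTotallyReal K] [IsCMField L]
  (A : Subgroup (L ≃ₐ[K] L)) [A.Normal], (∀ a ∈ A, ∀ b ∈ A, a * b = b * a) →
  IsCyclic ((L ≃ₐ[K] L) ⧸ A) → ∀ S : Finset (HeightOneSpectrum (𝓞 K)),
  (∀ w : HeightOneSpectrum (𝓞 L), w.under (𝓞 K) ∉ S → Algebra.IsUnramifiedAt (𝓞 K) w.asIdeal) →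
  ∀ φ : HeightOneSpectrum (𝓞 K) → (L ≃ₐ[K] L), IsFrob L S φ →
  ∃ θ : Irr (L ≃ₐ[K] L) → ℂ, (∀ r c, IsLValue S φ r.ρ c ↔ c = θ r) ∧
    ∀ x ∈ annA S φ, x * θ ∈ intRing (L ≃ₐ[K] L)

end Pool.Agent.MP_f3cd89_nt
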