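import Pool.Agent.MP_f3cd89_nt.CStm

/-! The first inequality for totally real cyclic extensions. -/

set_option autoImplicit false

open Finset NumberField IsDedekindDomain

namespace Pool.Agent.MP_f3cd89_nt

namespace FiX

theorem relIndex_ne {A : Type} [AddCommGroup A] (H K : AddSubgroup A) (T : Set A) (hT : T.Finite)
    (h : ∀ D ∈ K, ∃ y ∈ H, D - y ∈ T) : H.relIndex K ≠ 0 := by
  choose y hy hy' using h
  have := hT.to_subtype
  let t : K → T := fun D => ⟨D - y D D.2, hy' D D.2⟩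
  have hs : Function.Surjective fun a : T =>
      (QuotientAddGroup.mk (Function.invFun t a) : K ⧸ H.addSubgroupOf K) := fun q => by
    obtain ⟨D, rfl⟩ := QuotientAddGroup.mk_surjective q
    refine ⟨t D, QuotientAddGroup.eq.2 ?_⟩
    have e := congrArg Subtype.val (Function.invFun_eq (f := t) ⟨D, rfl⟩)
    generalize Function.invFun t (t D) = D' at e
    have e' : -(D' : A) + D = y D D.2 - y D' D'.2 := by
      change (D' : A) - y D' D'.2 = D - y D D.2 at e
      rw [sub_eq_sub_iff_sub_eq_sub] at e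
      rw [neg_add_eq_sub, ← neg_sub, e, neg_sub]
    change -(D' : A) + D ∈ H
    rw [e']
    exact sub_mem (hy _ _) (hy _ _)
  have := Finite.of_surjective _ hs
  exact AddSubgroup.index_ne_zero_of_finite

section Perm

variable {G W : Type} [Group G] [MulAction G W]

/-- the action on divisors -/
noncomputable def tD (g : G) : AddMonoid.End (W →₀ ℤ) :=
  Finsupp.mapDomain.addMonoidHom fun w : W => g • w

theorem tD_apply (g : G) (x : W →₀ ℤ) (w : W) : tD g x (g • w) = x w :=
  Finsupp.mapDomain_apply (MulAction.injective g) x w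

theorem tD_single (g : G) (w : W) (c : ℤ) :
    tD g (Finsupp.single w c) = Finsupp.single (g • w) c := Finsupp.mapDomain_single

theorem tD_one : tD (W := W) (1 : G) = 1 :=
  Finsupp.addHom_ext fun w c => (tD_single 1 w c).trans (by rw [one_smul]; rfl)

theorem tD_mul (g h : G) : tD (W := W) (g * h) = tD g * tD h :=
  Finsupp.addHom_ext fun w c => (tD_single _ w c).trans (by
    change _ = tD g (tD h (Finsupp.single w c))
    rw [tD_single, tD_single, mul_smul])

theorem tD_pow (g : G) (i : ℕ) : tD (W := W) g ^ i = tD (g ^ i) := by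
  induction i with
  | zero => rw [pow_zero, pow_zero, tD_one]
  | succ i ih => rw [pow_succ, pow_succ, ih, tD_mul]

variable {γ : G} (hγ : ∀ g, g ∈ Subgroup.zpowers γ)
include hγ

theorem nm_eq [Fintype G] (x : W →₀ ℤ) : nmH (tD γ) (Nat.card G) x = ∑ g : G, tD g x := by
  classical
  rw [← IsCyclic.image_range_card hγ, Finset.sum_image]
  · exact (AddMonoidHom.finsetSum_apply (fun i => tD γ ^ i) _ x).trans
      (Finset.sum_congr rfl fun i _ => DFunLike.congr_fun (tD_pow γ i) x)
  · rw [← orderOf_eq_card_of_forall_mem_zpowers hγ, Finset.coe_range]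
    exact pow_injOn_Iio_orderOf

theorem h_one [Finite G] (x : W →₀ ℤ) (hx : nmH (tD γ) (Nat.card G) x = 0) :
    ∃ y, x = tD γ y - y := by
  have := Fintype.ofFinite G
  let R : AddSubgroup (W →₀ ℤ) := AddMonoidHom.range (tD γ - 1 : AddMonoid.End (W →₀ ℤ))
  have h1 : ∀ (g : G) (y : W →₀ ℤ), tD g y - y ∈ R := fun g y => by
    obtain ⟨n, rfl⟩ : ∃ n : ℕ, γ ^ n = g := mem_powers_iff_mem_zpowers.2 (hγ g)
    induction n with
    | zero => rw [pow_zero, tD_one]; exact (sub_self y).symm ▸ zero_mem _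
    | succ n ih =>
      have := add_mem (show tD γ (tD (γ ^ n) y) - tD (γ ^ n) y ∈ R from ⟨_, rfl⟩) ih
      rwa [pow_succ', tD_mul, ← sub_add_sub_cancel _ (tD (γ ^ n) y)]
  let r : W → W := fun w => (Quotient.mk (MulAction.orbitRel G W) w).out
  have hr1 : ∀ w, ∃ g : G, g • w = r w := fun w =>
    Quotient.exact (Quotient.out_eq (Quotient.mk (MulAction.orbitRel G W) w))
  have hr2 : ∀ (g : G) w, r (g • w) = r w := fun g w =>
    congrArg Quotient.out (Quotient.sound (s := MulAction.orbitRel G W) ⟨g, rfl⟩)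
  have h2 : ∀ y : W →₀ ℤ, y.mapDomain r - y ∈ R := fun y => by
    induction y using Finsupp.induction_linear with
    | zero => simp
    | add a b ha hb =>
      rw [Finsupp.mapDomain_add, add_sub_add_comm]
      exact add_mem ha hb
    | single w c =>
      obtain ⟨g, hg⟩ := hr1 w
      rw [Finsupp.mapDomain_single, ← hg, ← tD_single]
      exact h1 g _
  have h3 : ∀ g : G, (tD g x).mapDomain r = x.mapDomain r := fun g =>
    Finsupp.mapDomain_comp.symm.trans (congrArg (Finsupp.mapDomain · x) (funext (hr2 g)))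
  have h4 : x.mapDomain r = 0 := by
    have := congrArg (Finsupp.mapDomain r) hx
    rw [nm_eq hγ, Finsupp.mapDomain_finsetSum, Finsupp.mapDomain_zero,
      Finset.sum_congr rfl fun g _ => h3 g, Finset.sum_const, Finset.card_univ] at this
    exact (nsmul_eq_zero_iff.1 this).resolve_right Fintype.card_ne_zero
  obtain ⟨y, hy⟩ := neg_mem (h2 x)
  rw [h4, zero_sub, neg_neg] at hy
  exact ⟨y, hy.symm⟩

variable {B : Type} {u : W → B} (hu1 : ∀ (g : G) w, u (g • w) = u w)
  (hu2 : ∀ w w', u w = u w' → ∃ g : G, g • w = w') {ex : (B →₀ ℤ) →+ (W →₀ ℤ)}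
  (hex : ∀ D w, ex D w = D (u w))
include hu1 hu2 hex

theorem nm_single [Finite G] (w : W) (f : G) (hf : ∀ g : G, g • w = w ↔ g ∈ Subgroup.zpowers f) :
    nmH (tD γ) (Nat.card G) (Finsupp.single w 1) = ex (Finsupp.single (u w) (orderOf f : ℤ)) := by
  classical
  have := Fintype.ofFinite G
  ext w'
  rw [nm_eq hγ, hex, Finsupp.finsetSum_apply]
  simp only [tD_single]
  by_cases h : u w = u w'
  · obtain ⟨g, rfl⟩ := hu2 w w' h
    rw [hu1, Finsupp.single_eq_same, ← Equiv.sum_comp (Equiv.mulLeft g)]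
    simp only [Equiv.coe_mulLeft, Finsupp.single_apply, mul_smul, smul_left_cancel_iff, hf,
      Finset.sum_boole]
    rw [← Nat.card_zpowers, Nat.card_eq_fintype_card, Fintype.card_subtype]
  · rw [Finsupp.single_eq_of_ne (Ne.symm h)]
    exact Finset.sum_eq_zero fun g _ => Finsupp.single_eq_of_ne fun e => h (by rw [e, hu1])

omit hγ hu2 in
theorem tD_ex (g : G) (D : B →₀ ℤ) : tD g (ex D) = ex D := by
  ext w
  rw [← smul_inv_smul g w, tD_apply, hex, hex, hu1 g]

omit hu1 in
theorem descend [Finite G] {x : W →₀ ℤ} (hx : tD γ x = x) :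
    ∃ D, (∀ v, (∀ w, u w ≠ v) → D v = 0) ∧ ex D = x := by
  classical
  have h1 : ∀ (g : G) w, x (g • w) = x w := fun g w => by
    obtain ⟨n, rfl⟩ : ∃ n : ℕ, γ ^ n = g := mem_powers_iff_mem_zpowers.2 (hγ g)
    induction n with
    | zero => rw [pow_zero, one_smul]
    | succ n ih => rw [pow_succ', mul_smul, ← ih, ← tD_apply γ x (γ ^ n • w), hx]
  refine ⟨Finsupp.onFinset (x.support.image u)
    (fun v => if h : ∃ w, u w = v then x h.choose else 0) fun v hv => ?_, fun v hv => ?_, ?_⟩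
  · by_cases h : ∃ w, u w = v
    · rw [dif_pos h] at hv
      exact Finset.mem_image.2 ⟨_, Finsupp.mem_support_iff.2 hv, h.choose_spec⟩
    · exact (hv (dif_neg h)).elim
  · exact dif_neg fun ⟨w, hw⟩ => hv w hw
  · ext w
    have h : ∃ w', u w' = u w := ⟨w, rfl⟩
    obtain ⟨g, hg⟩ := hu2 _ _ h.choose_spec
    rw [hex, Finsupp.onFinset_apply, dif_pos h, ← h1 g, hg]

end Perm

theorem sA_pow {L G : Type} [Field L] [Group G] [MulSemiringAction G L] (g : G) (i : ℕ) :
    sA (L := L) g ^ i = sA (g ^ i) := by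
  induction i with
  | zero =>
    rw [pow_zero, pow_zero]
    exact AddMonoidHom.ext fun a => Additive.toMul.injective (Units.ext (one_smul G _).symm)
  | succ i ih =>
    rw [pow_succ, pow_succ, ih]
    exact AddMonoidHom.ext fun a => Additive.toMul.injective (Units.ext (mul_smul _ _ _).symm)

/-- the divisor of an element outside `T` -/
noncomputable def jD {L : Type} [Field L] [NumberField L] (T : Finset (Pr L)) :
    Additive Lˣ →+ ({w : Pr L // w ∉ T} →₀ ℤ) where
  toFun a := (dv ((Additive.toMul a : Lˣ) : L)).subtypeDomain _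
  map_zero' := by ext w; exact ord_one w.1
  map_add' x y := by ext w; exact ord_mul w.1 (Units.ne_zero _) (Units.ne_zero _)

theorem jD_apply {L : Type} [Field L] [NumberField L] (T : Finset (Pr L)) (a : Additive Lˣ)
    (w : {w : Pr L // w ∉ T}) : jD T a w = ord w.1 ((Additive.toMul a : Lˣ) : L) := rfl

/-- extension of divisors -/
noncomputable def exD {F : Type} [Field F] [NumberField F] (L : Type) [Field L] [NumberField L]
    [Algebra F L] (T : Finset (Pr L)) : (Pr F →₀ ℤ) →+ ({w : Pr L // w ∉ T} →₀ ℤ) where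
  toFun D := (extD L D).subtypeDomain _
  map_zero' := by ext w; rfl
  map_add' x y := by ext w; rfl

theorem cong_up {F L : Type} [Field F] [NumberField F] [Field L] [NumberField L] [Algebra F L]
    {S : Finset (Pr F)} {N : ℕ} {x : F} (h : Cong S N x) :
    Cong (above L S) N (algebraMap F L x) := fun w hw => by
  have h1 := h _ (mem_above.1 hw)
  rw [← map_one (algebraMap F L), ← map_sub, val_over (over_under w)]
  refine (pow_le_of_le_one zero_le (h1.trans ?_)
    (w.asIdeal.ramificationIdx_pos (𝓞 F)).ne').trans h1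
  rw [← WithZero.exp_zero, WithZero.exp_le_exp]
  omega

end FiX

open FiX

theorem fi (hH : HERB_st) (hU : UNITH_st) (hV : VLAT_st) (hF : FB_st) (hT : TOW_st)
    (hB : NTB_st) : FI_st := by
  intro F L G _ _ _ _ _ _ _ _ _ _ S φ hc hS hun hφ
  classical
  obtain ⟨γ, hγ⟩ := hc.exists_generator
  obtain ⟨V, N, hN, hV1, hV2, hV3, hV4⟩ := hV F L G γ S hS hγ
  obtain ⟨f1, f2, -, -, -, f6, -, f8⟩ := hF F L G
  have hfa : FaithfulSMul G L := IsGaloisGroup.faithful F
  refine ⟨N, hN, ?_⟩
  let _ : MulAction G {w : Pr L // w ∉ above L S} :=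
    { smul := fun g w => ⟨gact g w.1, fun h => w.2 (by rwa [mem_above, f1, ← mem_above] at h)⟩
      one_smul := fun w => Subtype.ext (gact_one _)
      mul_smul := fun g h w => Subtype.ext (gact_mul _ _ _) }
  have hu1 : ∀ (g : G) (w : {w : Pr L // w ∉ above L S}),
      (g • w).1.under (𝓞 F) = w.1.under (𝓞 F) := fun g w => f1 g w.1
  have hu2 : ∀ w w' : {w : Pr L // w ∉ above L S}, w.1.under (𝓞 F) = w'.1.under (𝓞 F) →
      ∃ g : G, g • w = w' := fun w w' h => (f2 _ _ h).imp fun _ hg => Subtype.ext hg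
  have hex : ∀ (D : Pr F →₀ ℤ) (w : {w : Pr L // w ∉ above L S}),
      exD L (above L S) D w = D (w.1.under (𝓞 F)) := fun _ _ => rfl
  have hj : ∀ a, jD (above L S) (sA γ a) = tD γ (jD (above L S) a) := fun a => by
    ext w
    rw [← smul_inv_smul γ w, tD_apply]
    exact ord_gact γ _ _
  obtain ⟨M, hM, hM'⟩ := (hB L).2.2.1 (above L S) N
  have e1 : ∀ a ∈ V ⊓ (jD (above L S)).ker, sA γ a ∈ V ⊓ (jD (above L S)).ker := fun a ha => by
    rw [AddSubgroup.mem_inf, AddMonoidHom.mem_ker] at ha ⊢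
    exact ⟨hV1 a ha.1, by rw [hj, ha.2, map_zero]⟩
  have e2 : ∀ a ∈ V ⊓ (jD (above L S)).ker, dv ((Additive.toMul a : Lˣ) : L) = 0 := fun a ha => by
    rw [AddSubgroup.mem_inf, AddMonoidHom.mem_ker] at ha
    ext w
    rw [dv_apply, Finsupp.zero_apply]
    by_cases hw : w ∈ above L S
    · refine (val_eq_one_iff w (Units.ne_zero _)).1 (val_one_of _ ((hV2 a ha.1 w hw).trans_lt ?_))
      rw [← WithZero.exp_zero, WithZero.exp_lt_exp]
      omega
    · rw [← jD_apply (above L S) a ⟨w, hw⟩, ha.2, Finsupp.zero_apply]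
  have e3 : ∀ a : Additive Lˣ, dv ((Additive.toMul a : Lˣ) : L) = 0 →
      M • a ∈ V ⊓ (jD (above L S)).ker := fun a ha => by
    have h0 : ∀ w, ord w ((Additive.toMul a : Lˣ) : L) = 0 := fun w => by
      rw [← dv_apply, ha, Finsupp.zero_apply]
    have h1 : jD (above L S) a = 0 := Finsupp.ext fun w => h0 w.1
    rw [AddSubgroup.mem_inf, AddMonoidHom.mem_ker, map_nsmul, h1, nsmul_zero]
    refine ⟨hV3 (M • a) ?_, rfl⟩
    rw [toMul_nsmul, Units.val_pow_eq_pow_val]
    exact hM' _ (Units.ne_zero _) fun w _ => h0 w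
  obtain ⟨hz0, hho⟩ := hU L G γ (V ⊓ (jD (above L S)).ker) M hγ e1 e2 hM e3
  have hK : (off S).map (exD L (above L S)) =
      AddMonoidHom.ker (tD γ - 1 : AddMonoid.End ({w : Pr L // w ∉ above L S} →₀ ℤ)) := by
    ext x
    refine ⟨?_, fun hx => ?_⟩
    · rintro ⟨D, -, rfl⟩
      exact sub_eq_zero.2 (tD_ex hu1 hex γ D)
    · obtain ⟨D, hD, rfl⟩ := descend hγ hu2 hex (x := x) (sub_eq_zero.1 hx)
      exact ⟨D, fun v hv => hD v fun w e => w.2 (mem_above.2 (e ▸ hv)), rfl⟩
  have hle : (HF S S N fun v => orderOf (φ v)) ≤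
      ((V ⊓ AddMonoidHom.ker (sA γ - 1 : AddMonoid.End (Additive Lˣ))).map (jD (above L S)) ⊔
        AddMonoidHom.range (nmH (tD γ) (Nat.card G))).comap (exD L (above L S)) := by
    refine (AddSubgroup.closure_le _).2 ?_
    rintro _ (⟨x, hx, rfl⟩ | ⟨v, hv, rfl⟩)
    · refine AddSubgroup.mem_sup_left ⟨Additive.ofMul (Units.mk0 (algebraMap F L x)
        ((map_ne_zero _).2 hx.1)), ⟨hV3 _ (cong_up hx.2.2), sub_eq_zero.2
          (Additive.toMul.injective (Units.ext (smul_algebraMap γ x)))⟩, ?_⟩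
      ext w
      refine (ord_over (over_under w.1) x).trans ?_
      rw [(f6 w.1).1 (hun w.1 fun h => w.2 (mem_above.2 h)), Nat.cast_one, one_mul]
      rfl
    · obtain ⟨w, rfl, hw⟩ := hφ v hv
      exact AddSubgroup.mem_sup_right ⟨_, nm_single hγ hu1 hu2 hex
        ⟨w, fun h => hv (mem_above.1 h)⟩ _ fun g =>
          Subtype.ext_iff.trans ((f8 w _ (hun w hv) hw).2.1 g)⟩
  have hne : (HF S S N fun v => orderOf (φ v)).relIndex (off S) ≠ 0 := by
    obtain ⟨T, hT⟩ := (hB F).2.1 S N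
    refine relIndex_ne _ _ T T.finite_toSet fun D hD => ?_
    obtain ⟨x, hx, hx'⟩ := hT D hD
    exact ⟨dv x, AddSubgroup.subset_closure (Or.inl ⟨x, hx, rfl⟩), hx'⟩
  have hdvd := AddSubgroup.relIndex_dvd_of_le_left (off S) hle
  rw [AddSubgroup.relIndex_comap, hK] at hdvd
  have hidx : (V.map (jD (above L S))).index ≠ 0 := by
    obtain ⟨T, hT⟩ := (hB L).2.1 (above L S) N
    rw [← AddSubgroup.relIndex_top_right]
    refine relIndex_ne _ _ _ (T.finite_toSet.image (Finsupp.subtypeDomain (· ∉ above L S)))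
      fun x _ => ?_
    obtain ⟨y, hy, hy'⟩ := hT x.extendDomain fun w hw => dif_neg (not_not.2 hw)
    refine ⟨_, ⟨Additive.ofMul (Units.mk0 y hy.1), hV3 _ hy.2.2, rfl⟩, _, hy', ?_⟩
    rw [Finsupp.subtypeDomain_sub, Finsupp.subtypeDomain_extendDomain]
    rfl
  have e4 : sA (L := L) γ ^ Nat.card G = 1 := by
    rw [sA_pow, pow_card_eq_one', ← pow_zero (1 : G), ← sA_pow, pow_zero]
  have e5 : tD (W := {w : Pr L // w ∉ above L S}) γ ^ Nat.card G = 1 := by
    rw [tD_pow, pow_card_eq_one', tD_one]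
  have e6 := ne_zero_of_dvd_ne_zero hne hdvd
  have e7 := Nat.le_of_dvd (Nat.pos_of_ne_zero hne) hdvd
  have key := hH (Additive Lˣ) ({w : Pr L // w ∉ above L S} →₀ ℤ) (sA γ) (tD γ) (Nat.card G) V
    (jD (above L S)) e4 e5 hV1 hj hidx hV4 (h_one hγ) hz0 e6
  exact (Nat.le_of_mul_le_mul_right (hho.symm.le.trans key) (Nat.pos_of_ne_zero hz0)).trans e7

end Pool.Agent.MP_f3cd89_nt
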