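import Pool.Agent.MP_f3cd89_nt.FStm

/-! The final assembly. -/

set_option autoImplicit false

open Finset NumberField IsDedekindDomain

namespace Pool.Agent.MP_f3cd89_nt

namespace FinalX

theorem exists_cc (K L : Type) [Field K] [NumberField K] [Field L] [NumberField L]
    [Algebra K L] [IsTotallyReal K] [IsCMField L] :
    ∃ j : L ≃ₐ[K] L, IsCC L j ∧ ∀ g, j * g = g * j := by
  obtain ⟨ε⟩ : Nonempty (L →+* ℂ) := inferInstance
  have h : ∀ x : K, (IsCMField.complexConj L).toRingEquiv (algebraMap K L x) = algebraMap K L x :=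
    fun x => ε.injective ((IsCMField.complexEmbedding_complexConj L ε _).trans
      (DFunLike.congr_fun (IsTotallyReal.complexEmbedding_isReal (ε.comp (algebraMap K L))) x))
  have h1 : IsCC L (AlgEquiv.ofRingEquiv h) := fun ε x =>
    IsCMField.complexEmbedding_complexConj L ε x
  refine ⟨_, h1, fun g => AlgEquiv.ext fun x => ε.injective ?_⟩
  exact (h1 ε (g x)).trans (h1 (ε.comp g.toRingEquiv.toRingHom) x).symm

theorem root {K L : Type} [Field K] [NumberField K] [Field L] [NumberField L] [Algebra K L]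
    {S T : Finset (Pr K)} (h : Hyp L S T) (p : ℕ) (hp : p.Prime)
    (hT : ∀ v ∈ T, (p : 𝓞 K) ∈ v.asIdeal) (x : L) (hx : x ^ p = 1) : x = 1 := by
  have x0 : x ≠ 0 := by
    rintro rfl
    rw [zero_pow hp.ne_zero] at hx
    exact zero_ne_one hx
  have h0 : ∀ w : Pr L, ord w x = 0 := fun w => by
    have := ord_pow w x p
    rw [hx, ord_one] at this
    exact (mul_eq_zero.1 this.symm).resolve_left (by exact_mod_cast hp.ne_zero)
  obtain ⟨a, rfl⟩ := exists_int fun w => (h0 w).ge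
  have ha : a ^ p = 1 := RingOfIntegers.coe_injective (by rw [map_pow, map_one]; exact hx)
  refine congrArg Units.val (h.2 (Units.mk0 _ x0)
    ⟨fun w _ => (val_eq_one_iff w x0).2 (h0 w), fun w hw => ?_⟩
    (isOfFinOrder_iff_pow_eq_one.2 ⟨p, hp.pos, Units.ext hx⟩))
  have h1 : (p : 𝓞 L) ∈ w.asIdeal := by
    have := hT _ hw
    change algebraMap (𝓞 K) (𝓞 L) p ∈ w.asIdeal at this
    rwa [map_natCast] at this
  obtain ⟨r, hr⟩ := exists_add_pow_prime_eq hp (a - 1) 1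
  rw [sub_add_cancel, ha, one_pow] at hr
  have h2 : (a - 1) ^ p ∈ w.asIdeal := by
    rw [show (a - 1) ^ p = -(p * ((a - 1) * 1 * r)) by linear_combination -hr]
    exact neg_mem (w.asIdeal.mul_mem_right _ h1)
  have h3 : w.valuation L (algebraMap (𝓞 L) L (a - 1)) < 1 :=
    (w.valuation_lt_one_iff_mem (K := L) (a - 1)).2 (w.isPrime.mem_of_pow_mem p h2)
  rwa [map_sub, map_one] at h3

section Mat

variable {m n : Type} [Fintype m] [DecidableEq m] [Fintype n] [DecidableEq n]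
  {Q : Matrix m n ℂ} {Q' : Matrix n m ℂ}

theorem det_sub (h : Q * Q' = 1) (h' : Q' * Q = 1) (R : Matrix n n ℂ) (x : ℂ) :
    (1 - x • (Q * R * Q')).det = (1 - x • R).det := by
  rw [← Matrix.det_conj_of_mul_eq_one h h', Matrix.mul_sub, Matrix.sub_mul, Matrix.mul_one, h,
    Matrix.mul_smul, Matrix.smul_mul]

theorem det_tr (R : Matrix n n ℂ) (x : ℂ) : (1 - x • R.transpose).det = (1 - x • R).det := by
  rw [← Matrix.det_transpose (1 - x • R), Matrix.transpose_sub, Matrix.transpose_one,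
    Matrix.transpose_smul]

open Kronecker in
theorem det_block (h : Q * Q' = 1) (h' : Q' * Q = 1) {k : ℕ} (M : Fin k → Fin k → Matrix n n ℂ) :
    (Matrix.of fun x y : Fin k × m => (Q * M x.1 y.1 * Q') x.2 y.2).det =
      (Matrix.of fun x y : Fin k × n => M x.1 y.1 x.2 y.2).det := by
  have e : (1 : Matrix (Fin k) (Fin k) ℂ) ⊗ₖ Q * (1 : Matrix (Fin k) (Fin k) ℂ) ⊗ₖ Q' = 1 := by
    rw [← Matrix.mul_kronecker_mul, h, Matrix.mul_one, Matrix.one_kronecker_one]
  have e' : (1 : Matrix (Fin k) (Fin k) ℂ) ⊗ₖ Q' * (1 : Matrix (Fin k) (Fin k) ℂ) ⊗ₖ Q = 1 := by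
    rw [← Matrix.mul_kronecker_mul, h', Matrix.mul_one, Matrix.one_kronecker_one]
  rw [← Matrix.det_conj_of_mul_eq_one e e']
  congr 1
  ext ⟨i, a⟩ ⟨j, b⟩
  simp [Matrix.mul_apply, Fintype.sum_prod_type, Matrix.one_apply]

theorem lval {K G : Type} [Field K] [NumberField K] [Group G] (h : Q * Q' = 1) (h' : Q' * Q = 1)
    {S : Finset (Pr K)} {φ : Pr K → G} {ρ : G → Matrix m m ℂ} {ρ' : G → Matrix n n ℂ}
    (e : ∀ g, ρ g = Q * ρ' g * Q') {c : ℂ} (hc : IsLValue S φ ρ' c) : IsLValue S φ ρ c := by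
  obtain ⟨f, h1, h2, h3, h4⟩ := hc
  refine ⟨f, h1, h2, h3, fun s hs => ?_⟩
  have h5 := h4 s hs
  simp only [det_tr] at h5 ⊢
  simp only [e, det_sub h h']
  exact h5

end Mat

variable {G : Type} [Group G]

theorem nr_one (z : MonoidAlgebra ℤ G) (r : Irr G) :
    nr (Matrix.of fun _ _ : Fin 1 => z) r = (r.lin z).det :=
  Matrix.det_submatrix_equiv_self (Equiv.uniqueProd (Fin r.n) (Fin 1)) (r.lin z)

theorem lin_sub (r : Irr G) (g : G) (N : ℕ) :
    r.lin (1 - MonoidAlgebra.single g (N : ℤ)) = 1 - (N : ℂ) • r.ρ g := by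
  rw [Irr.lin, map_sub, map_one, MonoidAlgebra.lift_single, natCast_zsmul, Nat.cast_smul_eq_nsmul]

theorem lin_eq (r : Irr G) {n : Type} [Fintype n] {Q : Matrix (Fin r.n) n ℂ}
    {Q' : Matrix n (Fin r.n) ℂ} {ρ : G → Matrix n n ℂ} (e : ∀ g, r.ρ g = Q * ρ g * Q')
    (z : MonoidAlgebra ℤ G) : r.lin z = Q * (z.coeff.sum fun g c => c • ρ g) * Q' := by
  rw [Irr.lin, MonoidAlgebra.lift_apply, Finsupp.sum, Finsupp.sum, Matrix.mul_sum, Matrix.sum_mul]
  refine sum_congr rfl fun g _ => ?_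
  rw [e, Matrix.mul_smul, Matrix.smul_mul]

theorem cen_mul {z : MonoidAlgebra ℤ G} (hz : z ∈ Subring.center (MonoidAlgebra ℤ G))
    {A : Type} [CommGroup A] {Δ : Dat A} (π : Pres Δ G) (P : Irr G → Pt Δ ℂ)
    (hP : ∀ (k : ℕ) (H : Matrix (Fin k) (Fin k) (ℤ →₀ MonoidAlgebra ℤ A)) (r : Irr G),
      nr (H.map (toG π)) r = Dt H (P r)) {f : Pt Δ ℂ → ℂ} (hf : f ∈ J Δ ℂ) :
    (cen z * fun r => f (P r)) ∈ intRing G := by
  induction hf using AddSubgroup.closure_induction with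
  | mem f hf =>
    obtain ⟨k, H, rfl⟩ := hf
    rcases Nat.eq_zero_or_pos k with rfl | hk
    · refine AddSubgroup.subset_closure ⟨z, hz, _, ⟨1, le_rfl, Matrix.of fun _ _ => 1, rfl⟩, ?_⟩
      congr 1
      funext r
      rw [nr_one, Irr.lin, map_one, Matrix.det_one, Dt, Matrix.det_isEmpty]
    · refine AddSubgroup.subset_closure ⟨z, hz, _, ⟨k, hk, H.map (toG π), rfl⟩, ?_⟩
      congr 1
      funext r
      exact (hP k H r).symm
  | zero => exact (mul_zero (cen z)).symm ▸ zero_mem _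
  | add f g _ _ hf hg => exact (mul_add (cen z) _ _).symm ▸ add_mem hf hg
  | neg f _ hf => exact (mul_neg (cen z) _).symm ▸ neg_mem hf

end FinalX

open FinalX

theorem final (hP : PRES_st) (hC : CLIFF_st) (hR : REP_st) (hA : ARITH_st) (hV : LVAL_st)
    (hF : FB_st) : FINAL_st := by
  intro K L _ _ _ _ _ _ _ _ A _ hab hcyc S hS φ hφ
  obtain ⟨j, hj, hjc⟩ := exists_cc K L
  obtain ⟨A', _, _, Δ, π, hjπ⟩ := hP _ A j hab hcyc hjc
  obtain ⟨θ, hθ, hJ⟩ := hA K L _ A' Δ π S φ ⟨⟨j, hjπ, hj⟩,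
    fun w hw => (hF K L _).2.2.2.2.2.2.1 w (hS w hw), hφ⟩
  choose P Q Q' h1 h2 h3 using hC A' Δ _ π
  have hl : ∀ r, IsLValue S φ r.ρ (θ (P r)) := fun r => lval (h1 r) (h2 r) (h3 r) (hθ (P r))
  refine ⟨fun r => θ (P r), fun r c => ⟨fun h => (hV K _ S φ).1 _ _ _ _ h (hl r), fun h => h ▸ hl r⟩,
    fun x hx => ?_⟩
  have hN : ∀ (k : ℕ) (H : Matrix (Fin k) (Fin k) (ℤ →₀ MonoidAlgebra ℤ A')) (r : Irr (L ≃ₐ[K] L)),
      nr (H.map (toG π)) r = Dt H (P r) := fun k H r => by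
    obtain ⟨-, -, -, -, h5, -⟩ := (hR A' Δ _ π).2.2.2.2 ℂ (P r)
    simp only [nr, Matrix.map_apply, lin_eq r (h3 r), ← h5]
    exact det_block (h1 r) (h2 r) fun a b => rho (P r) (H a b)
  induction hx using AddSubgroup.closure_induction with
  | mem x hx =>
    obtain ⟨z, hz, _, ⟨T, hT, rfl⟩, rfl⟩ := hx
    have h4 := cen_mul hz π P hN (hJ T hT.1 (root hT))
    rw [mul_assoc]
    refine (congrArg (· ∈ intRing _) (congrArg _ (funext fun r => ?_))).mpr h4
    simp only [Pi.mul_apply, delta, prod_apply, nr_one, lin_sub, h3, det_sub (h1 r) (h2 r)]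
  | zero => rw [zero_mul]; exact zero_mem _
  | add f g _ _ hf hg => rw [add_mul]; exact add_mem hf hg
  | neg f _ hf => rw [neg_mul]; exact neg_mem hf

end Pool.Agent.MP_f3cd89_nt
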