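import Pool.Agent.MP_f3cd89_nt.FixA

set_option autoImplicit false
set_option linter.unusedSectionVars false

open Finset NumberField IsDedekindDomain Pointwise

namespace Pool.Agent.MP_f3cd89_nt

namespace FixX

variable {F₁ F : Type} [Field F₁] [NumberField F₁] [Field F] [NumberField F] [Algebra F₁ F]
  {p : ℕ} {ρ : F ≃+* F} {S₁ C₁ : Finset (Pr F₁)} {l : ℕ}

theorem add_sum {M : AddSubgroup F} {χ : F → ZMod l}
    (hχ : ∀ x ∈ M, ∀ y ∈ M, χ (x + y) = χ x + χ y) {ι : Type} (s : Finset ι) (x : ι → F)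
    (hx : ∀ i, x i ∈ M) : χ (∑ i ∈ s, x i) = ∑ i ∈ s, χ (x i) := by
  classical
  induction s using Finset.induction_on with
  | empty => simpa using hχ 0 M.zero_mem 0 M.zero_mem
  | insert i s hi ih =>
    rw [sum_insert hi, sum_insert hi, hχ _ (hx i) _ (M.sum_mem fun j _ => hx j), ih]

theorem ind_single (v : Pr F) : ind {v} = Finsupp.single v 1 := by simp [ind]

theorem ind_le {T C : Finset (Pr F)} (h : T ⊆ C) (v : Pr F) : ind T v ≤ ind C v := by
  rw [ind_apply, ind_apply]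
  by_cases hv : v ∈ T
  · rw [if_pos hv, if_pos (h hv)]
  · rw [if_neg hv]
    split_ifs <;> simp

theorem lat_sub {T C : Finset (Pr F)} (h : T ⊆ C) {D : Pr F →₀ ℤ} {x : F}
    (hx : x ∈ lat (-D + ind C - ind T)) : x ∈ lat (-D) :=
  lat_mono (fun v => by
    have := ind_le h v
    simp only [Finsupp.sub_apply, Finsupp.add_apply]
    omega) hx

theorem vanish (hC : NTC_st) {C T : Finset (Pr F)} (hT : T ⊆ C) {D : Pr F →₀ ℤ}
    {χ : F → ZMod l} (hχ : ∀ x ∈ lat (-D), ∀ y ∈ lat (-D), χ (x + y) = χ x + χ y)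
    (h0 : ∀ x ∈ lat (-D + ind C), χ x = 0)
    (h1 : ∀ c ∈ T, ∀ x ∈ lat (-D + ind C - ind {c}), χ x = 0) :
    ∀ x ∈ lat (-D + ind C - ind T), χ x = 0 := by
  classical
  induction T using Finset.induction_on with
  | empty => simpa [ind] using h0
  | insert c T hc ih =>
    have hT' : T ⊆ C := (subset_insert _ _).trans hT
    have hc' : {c} ⊆ C := singleton_subset_iff.2 (hT (mem_insert_self _ _))
    have e : -D + ind C - ind (insert c T) = (-D + ind C - ind T) ⊓ (-D + ind C - ind {c}) := by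
      ext v
      generalize -D + ind C = A
      simp only [Finsupp.inf_apply, Finsupp.sub_apply]
      rw [ind_apply, ind_apply, ind_apply]
      by_cases h : v = c
      · subst h
        simp [hc]
      · by_cases h' : v ∈ T <;> simp [h, h']
    intro x hx
    rw [e, ← (hC F).2.1] at hx
    obtain ⟨y, hy, z, hz, rfl⟩ := AddSubgroup.mem_sup.1 hx
    rw [hχ _ (lat_sub hT' hy) _ (lat_sub hc' hz),
      ih hT' (fun c hc => h1 c (mem_insert_of_mem hc)) y hy, h1 c (mem_insert_self _ _) z hz,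
      add_zero]

theorem ext_neg (D : Pr F₁ →₀ ℤ) : extD F (-D) = -extD F D := by ext; rfl

theorem ext_a (D : Pr F₁ →₀ ℤ) : extD F (-D + ind C₁) = -extD F D + ind (above F C₁) := by
  rw [← ext_ind]
  ext
  rfl

theorem ext_b (D : Pr F₁ →₀ ℤ) (c : Pr F₁) : extD F (-D + ind C₁ - Finsupp.single c 1) =
    -extD F D + ind (above F C₁) - ind (above F {c}) := by
  rw [← ext_ind, ← ext_ind, ind_single]
  ext
  rfl

theorem ind_off (hd : Disjoint S₁ C₁) {T : Finset (Pr F₁)} (hT : T ⊆ C₁) : ind T ∈ off S₁ :=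
  fun v hv => by rw [ind_apply, if_neg fun e => disjoint_left.1 hd hv (hT e)]

theorem off_a (hd : Disjoint S₁ C₁) {D : Pr F₁ →₀ ℤ} (hD : D ∈ off S₁) : -D + ind C₁ ∈ off S₁ :=
  add_mem (neg_mem hD) (ind_off hd subset_rfl)

theorem off_b (hd : Disjoint S₁ C₁) {D : Pr F₁ →₀ ℤ} (hD : D ∈ off S₁) {c : Pr F₁} (hc : c ∈ C₁) :
    -D + ind C₁ - Finsupp.single c 1 ∈ off S₁ :=
  sub_mem (off_a hd hD) (ind_single c ▸ ind_off hd (singleton_subset_iff.2 hc))

open Classical in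
/-- the character obtained from the trace -/
noncomputable def up (p : ℕ) (Tr : F →+ F₁) (D : Pr F₁ →₀ ℤ) (χ : F₁ → ZMod l) (x : F) : ZMod l :=
  if x ∈ lat (-extD F D) then (p : ZMod l)⁻¹ * χ (Tr x) else 0

variable [Fact l.Prime] (h : Rel F₁ F p ρ S₁) [Fintype (Subgroup.zpowers ρ)] {Tr : F →+ F₁}
  (hT : ∀ x, algebraMap F₁ F (Tr x) = ∑ g : Subgroup.zpowers ρ, g • x) (hp : (p : ZMod l) ≠ 0)
include h hT

theorem tr_mem {E : Pr F₁ →₀ ℤ} (hE : E ∈ off S₁) {x : F} (hx : x ∈ lat (extD F E)) :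
    Tr x ∈ lat E := by
  rw [← alg_mem_lat h hE, hT]
  exact sum_mem fun g _ => smul_mem_ext h g hx

theorem tr_smul (g : Subgroup.zpowers ρ) (x : F) : Tr (g • x) = Tr x :=
  (algebraMap F₁ F).injective (by
    rw [hT, hT]
    exact Fintype.sum_equiv (Equiv.mulRight g) _ _ fun g' => (mul_smul _ _ _).symm)

theorem tr_alg (x : F₁) : Tr (algebraMap F₁ F x) = ∑ _g : Subgroup.zpowers ρ, x :=
  (algebraMap F₁ F).injective (by simp only [hT, map_sum, smul_alg h])

theorem up_smul (D : Pr F₁ →₀ ℤ) (χ : F₁ → ZMod l) (g : Subgroup.zpowers ρ) (x : F) :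
    up p Tr D χ (g • x) = up p Tr D χ x := by
  have : g • x ∈ lat (-extD F D) ↔ x ∈ lat (-extD F D) := by
    rw [← ext_neg]
    exact ⟨fun e => by simpa using smul_mem_ext h g⁻¹ e, smul_mem_ext h g⟩
  rw [up, up, tr_smul h hT]
  by_cases hx : x ∈ lat (-extD F D)
  · rw [if_pos hx, if_pos (this.2 hx)]
  · rw [if_neg hx, if_neg fun e => hx (this.1 e)]

omit hT in
theorem sum_const_p (a : ZMod l) : ∑ _g : Subgroup.zpowers ρ, a = p * a := by
  rw [sum_const, card_univ, ← Nat.card_eq_fintype_card, card_eq h, nsmul_eq_mul]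

include hp

theorem up_alg {D : Pr F₁ →₀ ℤ} (hD : D ∈ off S₁) {χ : F₁ → ZMod l} (hχ : IsPrim C₁ D χ)
    (x : F₁) : up p Tr D χ (algebraMap F₁ F x) = χ x := by
  rw [up, ← ext_neg]
  by_cases hx : x ∈ lat (-D)
  · rw [if_pos ((alg_mem_lat h (neg_mem hD) x).2 hx), tr_alg h hT,
      add_sum hχ.add _ _ fun _ => hx, sum_const_p h, inv_mul_cancel_left₀ hp]
  · rw [if_neg fun e => hx ((alg_mem_lat h (neg_mem hD) x).1 e), hχ.out x hx]

theorem up_prim (hC : NTC_st) (hd : Disjoint S₁ C₁) {D : Pr F₁ →₀ ℤ} (hD : D ∈ off S₁)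
    {χ : F₁ → ZMod l} (hχ : IsPrim C₁ D χ) : IsPrim (above F C₁) (extD F D) (up p Tr D χ) := by
  have ha : ∀ x ∈ lat (-extD F D), ∀ y ∈ lat (-extD F D),
      up p Tr D χ (x + y) = up p Tr D χ x + up p Tr D χ y := fun x hx y hy => by
    rw [up, up, up, if_pos hx, if_pos hy, if_pos (add_mem hx hy), map_add,
      hχ.add _ (tr_mem h hT (neg_mem hD) (ext_neg (F := F) D ▸ hx)) _
        (tr_mem h hT (neg_mem hD) (ext_neg (F := F) D ▸ hy)), mul_add]
  have hk : ∀ x ∈ lat (-extD F D + ind (above F C₁)), up p Tr D χ x = 0 := fun x hx => by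
    rw [up, hχ.kill _ (tr_mem h hT (off_a hd hD) (ext_a (F := F) D ▸ hx)), mul_zero, ite_self]
  refine ⟨ha, fun x hx => if_neg hx, hk, fun c hc => ?_⟩
  by_contra H
  push Not at H
  have hc₁ := mem_above.1 hc
  obtain ⟨x, hx, h0⟩ := hχ.prim _ hc₁
  refine h0 ?_
  rw [← up_alg h hT hp hD hχ]
  refine vanish hC (C := above F C₁) (T := above F {c.under (𝓞 F₁)})
    (fun w hw => mem_above.2 (mem_singleton.1 (mem_above.1 hw) ▸ hc₁)) ha hk ?_ _
    (ext_b (F := F) D _ ▸ (alg_mem_lat h (off_b hd hD hc₁) x).2 hx)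
  intro c' hc' y hy
  obtain ⟨g, rfl⟩ := trans h (mem_singleton.1 (mem_above.1 hc'))
  rw [← up_smul h hT D χ g]
  refine H _ (smul_mem_lat g (fun w => le_of_eq ?_) hy)
  have e : gact g w = gact g c' ↔ w = c' :=
    ⟨fun e => by simpa [← gact_mul, gact_one] using congrArg (gact g⁻¹) e, fun e => e ▸ rfl⟩
  rw [← ind_single, ← ext_a]
  simp only [Finsupp.sub_apply, ext_apply, under_gact h]
  rw [ind_apply, ind_apply]
  by_cases hw : w = c' <;> simp [e, hw]

theorem down (hd : Disjoint S₁ C₁) {D : Pr F₁ →₀ ℤ} (hD : D ∈ off S₁) {χ : F → ZMod l}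
    (hχ : IsPrim (above F C₁) (extD F D) χ) (hρ : ∀ x, χ (ρ x) = χ x) :
    IsPrim C₁ D (fun x => χ (algebraMap F₁ F x)) ∧
      up p Tr D (fun x => χ (algebraMap F₁ F x)) = χ := by
  have hg : ∀ (g : Subgroup.zpowers ρ) x, χ (g • x) = χ x :=
    ind_gen h (fun g => ∀ x, χ (g • x) = χ x) (fun x => by rw [one_smul])
      fun g hg x => by rw [mul_smul, gen_smul, hρ, hg]
  have hm : ∀ x, algebraMap F₁ F x ∈ lat (-extD F D) ↔ x ∈ lat (-D) := fun x => by
    rw [← ext_neg, alg_mem_lat h (neg_mem hD)]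
  have ht : ∀ x ∈ lat (-extD F D), χ (algebraMap F₁ F (Tr x)) = p * χ x := fun x hx => by
    rw [hT, add_sum hχ.add _ _ fun g =>
      ext_neg (F := F) D ▸ smul_mem_ext h g (ext_neg (F := F) D ▸ hx)]
    simp only [hg, sum_const_p h]
  refine ⟨⟨fun x hx y hy => ?_, fun x hx => hχ.out _ fun e => hx ((hm x).1 e),
    fun x hx => hχ.kill _ ?_, fun c hc => ?_⟩, funext fun x => ?_⟩
  · rw [map_add, hχ.add _ ((hm x).2 hx) _ ((hm y).2 hy)]
  · rw [← ext_a]
    exact (alg_mem_lat h (off_a hd hD) x).2 hx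
  · obtain ⟨w, rfl⟩ := under_surj (E' := F) c
    have hw := (mem_above (E' := F)).2 hc
    obtain ⟨x, hx, h0⟩ := hχ.prim w hw
    rw [← ind_single] at hx
    refine ⟨Tr x, tr_mem h hT (off_b hd hD hc) ?_, ?_⟩
    · rw [ext_b]
      refine lat_mono (fun v => ?_) hx
      have := ind_le (singleton_subset_iff.2
        ((mem_above (E' := F)).2 (mem_singleton_self (w.under (𝓞 F₁))))) v
      simp only [Finsupp.sub_apply]
      omega
    · rw [ht x (lat_sub (singleton_subset_iff.2 hw) hx)]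
      exact mul_ne_zero hp h0
  · rw [up]
    split_ifs with hx
    · rw [ht x hx, inv_mul_cancel_left₀ hp]
    · exact (hχ.out x hx).symm

omit hT hp in
theorem exists_ext {D : Pr F →₀ ℤ} (hD : ∀ w, D (act ρ w) = D w) :
    ∃ D₁ : Pr F₁ →₀ ℤ, extD F D₁ = D := by
  classical
  have hg : ∀ (g : Subgroup.zpowers ρ) w, D (gact g w) = D w :=
    ind_gen h (fun g => ∀ w, D (gact g w) = D w) (fun w => by rw [gact_one])
      fun g hg w => by rw [gact_mul, gact_gen, hD, hg]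
  choose s hs using under_surj (E := F₁) (E' := F)
  refine ⟨Finsupp.onFinset (D.support.image fun w => w.under (𝓞 F₁)) (fun v => D (s v))
    fun v hv => mem_image.2 ⟨s v, Finsupp.mem_support_iff.2 hv, hs v⟩, ?_⟩
  ext w
  obtain ⟨g, e⟩ := trans h (hs (w.under (𝓞 F₁))).symm
  rw [ext_apply, Finsupp.onFinset_apply, ← e, hg]

end FixX

open FixX in
theorem fix (hC : NTC_st) : FIX_st := by
  intro F₁ F _ _ _ _ _ p ρ S₁ C₁ l hl h hlp hd _
  have := fin h
  have : Fintype (Subgroup.zpowers ρ) := Fintype.ofFinite _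
  obtain ⟨Tr, hT⟩ := exists_tr h
  have hp : (p : ZMod l) ≠ 0 := fun e =>
    hlp ((Nat.prime_dvd_prime_iff_eq hl.out h.prime).1 ((ZMod.natCast_eq_zero_iff p l).1 e))
  refine ⟨fun D hD => ?_, fun ψ D => ?_, fun q => ⟨(extD F q.1.1, up p Tr q.1.1 q.1.2),
    fun w => q.2.1 _, fun w hw => q.2.2.1 _ (mem_above.1 hw),
    up_prim h hT hp hC hd q.2.2.1 q.2.2.2⟩, fun q q' e => ?_, fun q => ⟨rfl, ?_⟩, fun q => ⟨?_, ?_⟩⟩
  · rw [nmD, ext_prod fun w : Pr F => (nrm w : ℝ), nmD, Finsupp.prod, Finsupp.prod, ← prod_pow]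
    refine prod_congr rfl fun v hv => ?_
    rw [← Nat.cast_prod, prod_nrm h fun e => Finsupp.mem_support_iff.1 hv (hD v e), Nat.cast_pow,
      ← zpow_natCast, ← zpow_natCast, ← zpow_mul, ← zpow_mul, mul_comm]
  · rw [chv, ext_prod, chv]
  · have e1 : extD F q.1.1 = extD F q'.1.1 := congrArg (·.1.1) e
    have e2 : up p Tr q.1.1 q.1.2 = up p Tr q'.1.1 q'.1.2 := congrArg (·.1.2) e
    refine Subtype.ext (Prod.ext (ext_inj e1) (funext fun x => ?_))
    rw [← up_alg h hT hp q.2.2.1 q.2.2.2, e2, up_alg h hT hp q'.2.2.1 q'.2.2.2]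
  · rw [← up_alg h hT hp q.2.2.1 q.2.2.2, map_one]
  · rintro ⟨q, rfl⟩
    exact ⟨fun w => congrArg q.1.1 (under_gact h (gen ρ) w), up_smul h hT _ _ (gen ρ)⟩
  · obtain ⟨⟨D, χ⟩, h0, h1, h2⟩ := q
    rintro ⟨h3, h4⟩
    obtain ⟨D₁, rfl⟩ := exists_ext h h3
    have hD : D₁ ∈ off S₁ := fun v hv => by
      obtain ⟨w, rfl⟩ := under_surj (E' := F) v
      exact h1 w (mem_above.2 hv)
    have h5 := down h hT hp hd hD h2 h4
    refine ⟨⟨(D₁, _), fun v => ?_, hD, h5.1⟩, Subtype.ext (Prod.ext rfl h5.2)⟩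
    obtain ⟨w, rfl⟩ := under_surj (E' := F) v
    exact h0 w

end Pool.Agent.MP_f3cd89_nt
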