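import Pool.Agent.MP_f3cd89_nt.SStm

set_option autoImplicit false
set_option linter.unusedSectionVars false

open Finset NumberField IsDedekindDomain Pointwise

namespace Pool.Agent.MP_f3cd89_nt.FixX

variable {F₁ F : Type} [Field F₁] [NumberField F₁] [Field F] [NumberField F] [Algebra F₁ F]
  {p : ℕ} {ρ : F ≃+* F} {S₁ : Finset (Pr F₁)}

open Classical in
theorem ind_apply (C : Finset (Pr F)) (v : Pr F) : ind C v = if v ∈ C then 1 else 0 := by
  simp [ind, Finsupp.finsetSum_apply, Finsupp.single_apply]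

theorem ext_apply (D : Pr F₁ →₀ ℤ) (w : Pr F) : extD F D w = D (w.under (𝓞 F₁)) := rfl

theorem ext_ind (C : Finset (Pr F₁)) : extD F (ind C) = ind (above F C) := by
  ext w
  rw [ext_apply, ind_apply, ind_apply]
  by_cases hw : w ∈ above F C
  · rw [if_pos hw, if_pos (mem_above.1 hw)]
  · rw [if_neg hw, if_neg fun e => hw (mem_above.2 e)]

theorem ext_inj : Function.Injective (extD F : (Pr F₁ →₀ ℤ) → Pr F →₀ ℤ) := fun D D' h => by
  ext v
  obtain ⟨w, rfl⟩ := under_surj (E' := F) v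
  exact DFunLike.congr_fun h w

theorem ext_prod {M : Type} [DivisionCommMonoid M] (f : Pr F → M) (D : Pr F₁ →₀ ℤ) :
    (extD F D).prod (fun w n => f w ^ n) = D.prod fun v n => (∏ w ∈ above F {v}, f w) ^ n := by
  classical
  rw [extD, Finsupp.onFinset_prod _ (fun _ => zpow_zero _), Finsupp.prod,
    ← prod_fiberwise_of_maps_to (g := fun w : Pr F => w.under (𝓞 F₁)) fun w hw => mem_above.1 hw]
  refine prod_congr rfl fun v hv => ?_
  rw [← prod_zpow]
  refine prod_congr ?_ fun w hw => by rw [mem_singleton.1 (mem_above.1 hw)]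
  ext w
  simp only [mem_filter, mem_above, mem_singleton]
  exact ⟨fun h => h.2, fun h => ⟨h ▸ hv, h⟩⟩

theorem mem_lat_ord {D : Pr F →₀ ℤ} {x : F} (hx : x ≠ 0) : x ∈ lat D ↔ ∀ v, D v ≤ ord v x := by
  simp only [mem_lat, val_eq_exp _ hx, WithZero.exp_le_exp, neg_le_neg_iff]

theorem lat_mono {D D' : Pr F →₀ ℤ} (h : ∀ v, D' v ≤ D v) {x : F} (hx : x ∈ lat D) :
    x ∈ lat D' := fun v => (hx v).trans (WithZero.exp_le_exp.2 (neg_le_neg (h v)))

theorem smul_mem_lat {G : Type} [Group G] [MulSemiringAction G F] (g : G) {D D' : Pr F →₀ ℤ}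
    (h : ∀ w, D' (gact g w) ≤ D w) {x : F} (hx : x ∈ lat D) : g • x ∈ lat D' := fun w => by
  obtain ⟨w, rfl⟩ : ∃ w', gact g w' = w := ⟨gact g⁻¹ w, by rw [← gact_mul, mul_inv_cancel, gact_one]⟩
  rw [val_gact]
  exact (hx w).trans (WithZero.exp_le_exp.2 (neg_le_neg (h w)))

section G

variable (G : Type) [Group G] [MulSemiringAction G F] [IsGaloisGroup G F₁ F] [Finite G]

theorem transG {w w' : Pr F} (e : w.under (𝓞 F₁) = w'.under (𝓞 F₁)) :
    ∃ g : G, gact g w = w' := by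
  have := w.isPrime
  have := w'.isPrime
  have := over_under (E := F₁) w'
  have : w.asIdeal.LiesOver (w'.under (𝓞 F₁)).asIdeal := e ▸ over_under w
  obtain ⟨g, hg⟩ := Ideal.exists_smul_eq_of_isGaloisGroup (w'.under (𝓞 F₁)).asIdeal w.asIdeal
    w'.asIdeal G
  exact ⟨g, HeightOneSpectrum.ext (by rw [gact_asIdeal, hg])⟩

theorem underG (g : G) (w : Pr F) : (gact g w).under (𝓞 F₁) = w.under (𝓞 F₁) := by
  refine HeightOneSpectrum.ext ?_
  change (gact g w).asIdeal.under (𝓞 F₁) = w.asIdeal.under (𝓞 F₁)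
  rw [gact_asIdeal, Ideal.under_smul]

theorem prodG {v : Pr F₁} (hv : ∀ w : Pr F, w.under (𝓞 F₁) = v →
    w.asIdeal.ramificationIdx (𝓞 F₁) = 1) : ∏ w ∈ above F {v}, nrm w = nrm v ^ Nat.card G := by
  have := v.isPrime
  have := v.isMaximal
  have : Fintype (v.asIdeal.primesOver (𝓞 F)) := Fintype.ofFinite _
  rw [← Ideal.sum_ramification_inertia_eq_card v.asIdeal (𝓞 F), ← prod_pow_eq_pow_sum]
  have ho : ∀ w ∈ above F {v}, w.asIdeal.LiesOver v.asIdeal := fun w hw =>
    mem_singleton.1 (mem_above.1 hw) ▸ over_under w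
  refine prod_bij (fun w hw => ⟨w.asIdeal, w.isPrime, ho w hw⟩) (fun _ _ => mem_univ _)
    (fun w _ w' _ e => HeightOneSpectrum.ext (congrArg Subtype.val e)) ?_ ?_
  · rintro ⟨P, h1, h2⟩ -
    exact ⟨⟨P, h1, Ideal.ne_bot_of_liesOver_of_ne_bot v.ne_bot P⟩,
      mem_above.2 (mem_singleton.2 (under_eq h2)), rfl⟩
  · intro w hw
    rw [hv w (under_eq (ho w hw)), one_mul]
    exact absNorm_over (ho w hw)

end G

/-- the generator -/
def gen (ρ : F ≃+* F) : Subgroup.zpowers ρ := ⟨ρ, Subgroup.mem_zpowers ρ⟩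

theorem gen_smul (x : F) : gen ρ • x = ρ x := rfl

theorem gact_gen (w : Pr F) : gact (gen ρ) w = act ρ w := rfl

variable (h : Rel F₁ F p ρ S₁)
include h

theorem card_eq : Nat.card (Subgroup.zpowers ρ) = p := by rw [Nat.card_zpowers, h.ord_eq]

theorem fin : Finite (Subgroup.zpowers ρ) :=
  Nat.finite_of_card_ne_zero (by rw [card_eq h]; exact h.prime.ne_zero)

theorem ind_gen (P : Subgroup.zpowers ρ → Prop) (h1 : P 1) (hs : ∀ g, P g → P (gen ρ * g))
    (g : Subgroup.zpowers ρ) : P g := by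
  obtain ⟨g, hg⟩ := g
  have ho : IsOfFinOrder ρ := orderOf_pos_iff.1 (h.ord_eq ▸ h.prime.pos)
  obtain ⟨n, rfl⟩ := ho.mem_powers_iff_mem_zpowers.2 hg
  have : ∀ n : ℕ, P (gen ρ ^ n) := fun n => by
    induction n with
    | zero => simpa using h1
    | succ n ih => rw [pow_succ']; exact hs _ ih
  exact this n

theorem smul_alg (g : Subgroup.zpowers ρ) (a : F₁) :
    g • algebraMap F₁ F a = algebraMap F₁ F a :=
  ind_gen h (fun g => g • algebraMap F₁ F a = algebraMap F₁ F a) (one_smul _ _)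
    (fun g hg => by rw [mul_smul, hg, gen_smul, (h.fix _).2 ⟨a, rfl⟩]) g

theorem gal : IsGaloisGroup (Subgroup.zpowers ρ) F₁ F where
  faithful := inferInstance
  commutes := ⟨fun g a x => by rw [Algebra.smul_def, Algebra.smul_def, smul_mul', smul_alg h]⟩
  isInvariant := ⟨fun x hx => (h.fix x).1 (hx (gen ρ))⟩

theorem trans {w w' : Pr F} (e : w.under (𝓞 F₁) = w'.under (𝓞 F₁)) :
    ∃ g : Subgroup.zpowers ρ, gact g w = w' := by
  have := gal h
  have := fin h
  exact transG _ e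

theorem under_gact (g : Subgroup.zpowers ρ) (w : Pr F) :
    (gact g w).under (𝓞 F₁) = w.under (𝓞 F₁) := by
  have := gal h
  have := fin h
  exact underG _ g w

theorem ram_one {w : Pr F} (hw : w.under (𝓞 F₁) ∉ S₁) :
    w.asIdeal.ramificationIdx (𝓞 F₁) = 1 := by
  obtain ⟨a, -, ha⟩ := exists_ord_eq_one (w.under (𝓞 F₁))
  have := h.unr w hw a
  rw [ord_over (over_under w), ha, mul_one] at this
  exact_mod_cast this

theorem prod_nrm {v : Pr F₁} (hv : v ∉ S₁) : ∏ w ∈ above F {v}, nrm w = nrm v ^ p := by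
  have := gal h
  have := fin h
  rw [← card_eq h]
  exact prodG _ fun w hw => ram_one h (hw ▸ hv)

theorem alg_mem_lat {E : Pr F₁ →₀ ℤ} (hE : E ∈ off S₁) (x : F₁) :
    algebraMap F₁ F x ∈ lat (extD F E) ↔ x ∈ lat E := by
  rcases eq_or_ne x 0 with rfl | hx
  · simp
  have key : ∀ w : Pr F, extD F E w ≤ ord w (algebraMap F₁ F x) ↔
      E (w.under (𝓞 F₁)) ≤ ord (w.under (𝓞 F₁)) x := fun w => by
    rw [ext_apply]
    by_cases hw : w.under (𝓞 F₁) ∈ S₁
    · have := w.isPrime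
      rw [hE _ hw, ord_over (over_under w), mul_nonneg_iff_of_pos_left]
      exact_mod_cast Ideal.ramificationIdx_pos _ _
    · rw [h.unr w hw]
  rw [mem_lat_ord hx, mem_lat_ord ((map_ne_zero _).2 hx)]
  refine ⟨fun H v => ?_, fun H w => (key w).2 (H _)⟩
  obtain ⟨w, rfl⟩ := under_surj (E' := F) v
  exact (key w).1 (H w)

theorem smul_mem_ext (g : Subgroup.zpowers ρ) {E : Pr F₁ →₀ ℤ} {x : F} (hx : x ∈ lat (extD F E)) :
    g • x ∈ lat (extD F E) :=
  smul_mem_lat g (fun w => by rw [ext_apply, ext_apply, under_gact h]) hx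

theorem exists_tr [Fintype (Subgroup.zpowers ρ)] :
    ∃ Tr : F →+ F₁, ∀ x, algebraMap F₁ F (Tr x) = ∑ g : Subgroup.zpowers ρ, g • x := by
  have : ∀ x : F, ∃ y, algebraMap F₁ F y = ∑ g : Subgroup.zpowers ρ, g • x := fun x =>
    (h.fix _).1 (by
      rw [← gen_smul, smul_sum]
      exact Fintype.sum_equiv (Equiv.mulLeft (gen ρ)) _ _ fun g => (mul_smul _ _ _).symm)
  choose t ht using this
  refine ⟨AddMonoidHom.mk' t fun x y => (algebraMap F₁ F).injective ?_, ht⟩
  simp only [map_add, ht, smul_add, sum_add_distrib]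

end Pool.Agent.MP_f3cd89_nt.FixX
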