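import Pool.Agent.MP_f3cd89_nt.GaussA

/-! Transfers of multiples of `p`, and the local description of `B` by congruences. -/

set_option autoImplicit false

open Finset

namespace Pool.Agent.MP_f3cd89_nt

namespace GaussX

variable {A : Type} [CommGroup A] {Δ : Dat A} {k : Type} [CommRing k]

theorem filter_div {d : ℕ} (P : Pt Δ k) (h : d ∣ P.d) :
    (Δ.m / d).divisors.filter (fun j => d * j ∣ P.d) = (P.d / d).divisors := by
  have h1 : 0 < d := Nat.pos_of_dvd_of_pos h P.d_pos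
  have h2 := h.trans P.d_dvd
  ext j
  rw [mem_filter, Nat.mem_divisors, Nat.mem_divisors, Nat.dvd_div_iff_mul_dvd h,
    Nat.dvd_div_iff_mul_dvd h2]
  exact ⟨fun e => ⟨e.2, (Nat.div_pos (Nat.le_of_dvd P.d_pos h) h1).ne'⟩,
    fun e => ⟨⟨e.1.trans P.d_dvd, (Nat.div_pos (Nat.le_of_dvd Δ.m_pos h2) h1).ne'⟩, e.1⟩⟩

theorem sum_ite_dvd (c : ℕ → k) {d : ℕ} (P : Pt Δ k) (h : d ∣ P.d) (w : k) :
    ∑ j ∈ (Δ.m / d).divisors, c j * (if d * j ∣ P.d then w else 0) =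
      (∑ j ∈ (P.d / d).divisors, c j) * w := by
  rw [← filter_div P h, sum_filter, sum_mul]
  refine sum_congr rfl fun j _ => ?_
  split_ifs <;> simp

theorem W_of_not {d : ℕ} (b : MonoidAlgebra ℤ A) (e : ℤ) {P : Pt Δ k} (h : ¬d ∣ P.d) :
    W d b e P = 0 := if_neg h

theorem W_nsmul (d n : ℕ) (b : MonoidAlgebra ℤ A) (e : ℤ) (P : Pt Δ k) :
    W d (n • b) e P = (n : k) ^ (P.d / d) * W d b e P := by
  unfold W
  split_ifs
  · rw [mul_sum]
    refine sum_congr rfl fun i _ => ?_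
    simp only [nsmul_eq_mul, map_mul, map_natCast, mul_assoc, prod_mul_distrib, prod_const,
      card_range]
  · rw [mul_zero]

theorem expand {a M : ℕ → ℤ} (hM : ∀ n, 0 < n → ∑ j ∈ n.divisors, ((j : ℕ) : ℤ) * M j = a n)
    {d : ℕ} {b : MonoidAlgebra ℤ A} {e : ℤ} {F : ℕ → Pt Δ k → k}
    (hF : ∀ j P, F j P = if d * j ∣ P.d then (j : k) * W d b e P else 0) (P : Pt Δ k) :
    (∑ j ∈ (Δ.m / d).divisors, M j • F j) P = (a (P.d / d) : k) * W d b e P := by
  rw [Finset.sum_apply]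
  by_cases h : d ∣ P.d
  · rw [← hM _ (Nat.div_pos (Nat.le_of_dvd P.d_pos h) (Nat.pos_of_dvd_of_pos h P.d_pos)),
      Int.cast_sum, ← sum_ite_dvd _ P h]
    refine sum_congr rfl fun j _ => ?_
    rw [Pi.smul_apply, hF, zsmul_eq_mul]
    split_ifs
    · push_cast; ring
    · simp
  · rw [W_of_not b e h, mul_zero]
    refine sum_eq_zero fun j _ => ?_
    rw [Pi.smul_apply, hF, W_of_not b e h, mul_zero, ite_self, smul_zero]

theorem lev {d j : ℕ} {e : ℤ} (hd : d ∣ Δ.m) (he : (d : ℤ) ∣ e) (hj : j ∈ (Δ.m / d).divisors) :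
    d * j ∣ Δ.m ∧ ((d * j : ℕ) : ℤ) ∣ e * j :=
  ⟨(Nat.dvd_div_iff_mul_dvd hd).1 (Nat.dvd_of_mem_divisors hj),
    by rw [Nat.cast_mul]; exact mul_dvd_mul_right he _⟩

theorem smul_mem_pB {p : ℕ} {z : ℤ} (hz : (p : ℤ) ∣ z) {f : Pt Δ k → k} (hf : f ∈ B Δ k) :
    z • f ∈ pB Δ k p := by
  obtain ⟨w, rfl⟩ := hz
  exact mem_pB.2 ⟨w • f, zsmul_mem hf w, by rw [mul_smul, natCast_zsmul]⟩

/-! ### Points -/

theorem pt_ext {P Q : Pt Δ k} (h1 : P.d = Q.d) (h2 : ∀ a, P.η a = Q.η a) (h3 : P.ω = Q.ω) :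
    P = Q := by
  have h4 : P.η = Q.η := MonoidHom.ext h2
  cases P
  cases Q
  simp_all

theorem down_self (P : Pt Δ k) (h : P.d ∣ P.d) : P.down P.d h = P := by
  refine pt_ext rfl (fun a => ?_) ?_
  · rw [Pt.down_η, Nat.div_self P.d_pos]
    simp [ver]
  · change P.ω ^ (P.d / P.d) = P.ω
    rw [Nat.div_self P.d_pos, pow_one]

theorem down_down (P : Pt Δ k) {d d' : ℕ} (h : d' ∣ P.d) (h' : d ∣ d') :
    (P.down d' h).down d h' = P.down d (h'.trans h) := by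
  have e : P.d / d = P.d / d' * (d' / d) := by
    rw [← Nat.mul_div_assoc _ h', Nat.div_mul_cancel h]
  refine pt_ext rfl (fun a => ?_) ?_
  · rw [Pt.down_η, Pt.down_η, Pt.down_η, e]
    change P.η (ver Δ d' (P.d / d') (ver Δ d (d' / d) a)) = _
    simp only [ver, prod_range_mul, map_prod]
    refine prod_congr rfl fun i _ => prod_congr rfl fun j _ => ?_
    rw [add_mul, mul_assoc, Nat.div_mul_cancel h', pow_add, MulAut.mul_apply]
  · change (P.ω ^ (P.d / d')) ^ (d' / d) = P.ω ^ (P.d / d)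
    rw [e, pow_mul]

theorem tw_down (P : Pt Δ k) {d : ℕ} (h : d ∣ P.d) : P.tw.down d h = (P.down d h).tw := by
  refine pt_ext rfl (fun a => ?_) rfl
  change _ = (P.down d h).η (Δ.σ a)
  rw [Pt.down_η, Pt.down_η]
  change P.η (Δ.σ (ver Δ d (P.d / d) a)) = _
  simp only [ver, map_prod]
  refine prod_congr rfl fun i _ => ?_
  rw [← MulAut.mul_apply, ← pow_succ', pow_succ, MulAut.mul_apply]

theorem tw_ch (P : Pt Δ k) (i : ℕ) (a : A) : P.tw.ch i a = P.ch (i + 1) a := by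
  rw [Pt.ch_apply, Pt.ch_apply, pow_succ', MulAut.mul_apply]
  rfl

theorem V_top (P : Pt Δ k) (a : A) (e : ℤ) :
    V P.d a e P = ∑ i ∈ range P.d, P.ch i a * ((P.ω ^ e : kˣ) : k) := by
  rw [V, W, if_pos dvd_rfl, Nat.div_self P.d_pos]
  simp [lam_single]

/-- the difference of the values at two consecutive levels -/
noncomputable def Df (p : ℕ) (θ : Pt Δ k → k) (P : Pt Δ k) : k :=
  θ P - if h : p ∣ P.d then θ (P.down (P.d / p) (Nat.div_dvd_of_dvd h)) else 0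

/-- the difference at the level `d` below the point -/
noncomputable def Dn (p : ℕ) (θ : Pt Δ k → k) (d : ℕ) (P : Pt Δ k) : k :=
  if h : d ∣ P.d then Df p θ (P.down d h) else 0

theorem Df_tw {p : ℕ} {θ : Pt Δ k → k} (h : ∀ P, θ P.tw = θ P) (P : Pt Δ k) :
    Df p θ P.tw = Df p θ P := by
  rw [Df, Df, h]
  congr 1
  by_cases e : p ∣ P.d
  · rw [dif_pos e, dif_pos (show p ∣ P.tw.d from e), ← h (P.down _ _), ← tw_down]
    rfl
  · rw [dif_neg e, dif_neg (show ¬p ∣ P.tw.d from e)]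

open Classical in
theorem tele {p : ℕ} (hp : p.Prime) (θ : Pt Δ k → k) (n : ℕ) : ∀ P : Pt Δ k, P.d = n →
    θ P = ∑ d ∈ Δ.m.divisors, if ∃ s, n = d * p ^ s then Dn p θ d P else 0 := by
  induction n using Nat.strong_induction_on with
  | _ n ih =>
    rintro P rfl
    have h0 : P.d ∈ Δ.m.divisors := Nat.mem_divisors.2 ⟨P.d_dvd, Δ.m_pos.ne'⟩
    have h1 : Dn p θ P.d P = Df p θ P := by rw [Dn, dif_pos dvd_rfl, down_self]
    have h2 : ∀ d s, d ≠ P.d → P.d = d * p ^ s → ∃ t, P.d = d * p ^ t * p := fun d s hd e => by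
      rcases s with _ | s
      · exact absurd (by simpa using e.symm) hd
      · exact ⟨s, by rw [e, pow_succ, mul_assoc]⟩
    by_cases h : p ∣ P.d
    · have h3 : P.d / p < P.d := Nat.div_lt_self P.d_pos hp.one_lt
      have h4 := ih _ h3 (P.down (P.d / p) (Nat.div_dvd_of_dvd h)) rfl
      have h5 : θ P = Df p θ P + θ (P.down (P.d / p) (Nat.div_dvd_of_dvd h)) := by
        rw [Df, dif_pos h, sub_add_cancel]
      rw [h5, h4, ← add_sum_erase _ _ h0, ← add_sum_erase _ _ h0, if_neg, if_pos ⟨0, by simp⟩, h1,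
        zero_add]
      · congr 1
        refine sum_congr rfl fun d hd => ?_
        by_cases e : ∃ s, P.d / p = d * p ^ s
        · obtain ⟨s, hs⟩ := e
          have h6 : d ∣ P.d / p := ⟨_, hs⟩
          rw [if_pos ⟨s, hs⟩, if_pos ⟨s + 1, by
            rw [pow_succ, ← mul_assoc, ← hs, Nat.div_mul_cancel h]⟩, Dn, Dn,
            dif_pos (h6.trans (Nat.div_dvd_of_dvd h)),
            dif_pos (show d ∣ (P.down (P.d / p) (Nat.div_dvd_of_dvd h)).d from h6), down_down]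
        · rw [if_neg e, if_neg]
          rintro ⟨s, hs⟩
          obtain ⟨t, ht⟩ := h2 d s (mem_erase.1 hd).1 hs
          exact e ⟨t, Nat.div_eq_of_eq_mul_left hp.pos ht⟩
      · rintro ⟨s, hs⟩
        exact absurd (hs ▸ Nat.le_mul_of_pos_right _ (pow_pos hp.pos s) : P.d ≤ P.d / p) h3.not_ge
    · rw [sum_eq_single_of_mem _ h0, if_pos ⟨0, by simp⟩, h1, Df, dif_neg h, sub_zero]
      refine fun d _ hd => if_neg ?_
      rintro ⟨s, hs⟩
      obtain ⟨t, ht⟩ := h2 d s hd hs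
      exact h ⟨_, ht.trans (mul_comm _ _)⟩

variable (Δ k) in
/-- the localisation of `B` at `p` -/
noncomputable def Bl (p : ℕ) : AddSubgroup (Pt Δ k → k) where
  carrier := {f | ∃ u : ℕ, u.Coprime p ∧ u • f ∈ B Δ k}
  zero_mem' := ⟨1, Nat.coprime_one_left p, by simp⟩
  add_mem' := by
    rintro f g ⟨u, hu, hf⟩ ⟨v, hv, hg⟩
    refine ⟨u * v, hu.mul_left hv, ?_⟩
    rw [smul_add]
    refine add_mem ?_ ?_
    · rw [mul_comm, mul_smul]
      exact nsmul_mem hf v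
    · rw [mul_smul]
      exact nsmul_mem hg u
  neg_mem' := by
    rintro f ⟨u, hu, hf⟩
    exact ⟨u, hu, by rw [smul_neg]; exact neg_mem hf⟩

theorem Bl_of_smul {p u : ℕ} (hu : u.Coprime p) {f : Pt Δ k → k} (h : u • f ∈ Bl Δ k p) :
    f ∈ Bl Δ k p := by
  obtain ⟨v, hv, hf⟩ := h
  exact ⟨v * u, hv.mul_left hu, by rwa [mul_smul]⟩

open Classical in
theorem ind_mem (hB : BASE_st) {p : ℕ} (hp : p.Prime) {d : ℕ} (hd : d ∣ Δ.m) (a : A) {e : ℤ}
    (he : (d : ℤ) ∣ e) :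
    (fun P : Pt Δ k => if ∃ s, P.d = d * p ^ s then V d a e P else 0) ∈ Bl Δ k p := by
  have h1 : (fun P : Pt Δ k => if ∃ s, P.d = d * p ^ s then V d a e P else 0) =
      ∑ j ∈ (Δ.m / d).divisors, (if ¬p ∣ j then (ArithmeticFunction.moebius j : ℤ) else 0) •
        fun P : Pt Δ k => if d * j ∣ P.d then V d a e P else 0 := by
    funext P
    rw [Finset.sum_apply]
    simp only [Pi.smul_apply, zsmul_eq_mul]
    by_cases h : d ∣ P.d
    · have h0 := Nat.pos_of_dvd_of_pos h P.d_pos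
      rw [sum_ite_dvd _ P h, ← Int.cast_sum, ← sum_filter,
        ind_pow p hp _ (Nat.div_pos (Nat.le_of_dvd P.d_pos h) h0)]
      have h2 : (∃ s, P.d / d = p ^ s) ↔ ∃ s, P.d = d * p ^ s :=
        exists_congr fun s => Nat.div_eq_iff_eq_mul_right h0 h
      simp only [h2]
      split_ifs <;> simp
    · simp [V, W_of_not _ e h]
  rw [h1]
  refine sum_mem fun j hj => ?_
  split_ifs with h
  · rw [zero_smul]
    exact zero_mem _
  · refine zsmul_mem ?_ _
    refine ⟨j, ((Nat.Prime.coprime_iff_not_dvd hp).2 h).symm, ?_⟩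
    convert V_mem (k := k) (ver Δ d j a) (lev hd he hj).1 (lev hd he hj).2 using 1
    funext P
    rw [(hB A Δ k).2.2.2.2.1, Pi.smul_apply, nsmul_eq_mul, mul_ite, mul_zero]

open Classical in
theorem lev_mem (hB : BASE_st) {p : ℕ} (hp : p.Prime) {θ : Pt Δ ℂ → ℂ} (hθ : ∀ P, θ P.tw = θ P)
    {d : ℕ} (hd : d ∣ Δ.m) (h : CongrAt p θ d) :
    (fun P : Pt Δ ℂ => if ∃ s, P.d = d * p ^ s then Dn p θ d P else 0) ∈ Bl Δ ℂ p := by
  obtain ⟨u, hu, Z, hZ, h⟩ := h
  have h0 : d ≠ 0 := (Nat.pos_of_dvd_of_pos hd Δ.m_pos).ne'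
  have h1 : ∀ r, ∀ P : Pt Δ ℂ, P.d = d → (u : ℂ) * Df p θ P = ∑ x ∈ Z.support, (Z x : ℂ) *
      ∑ t ∈ range (ordProj[p] d), P.ch (t * ordCompl[p] d + r) x.1 * ((P.ω ^ x.2 : ℂˣ) : ℂ) := by
    intro r
    induction r with
    | zero =>
      intro P hP
      simp only [add_zero, mul_comm _ (ordCompl[p] d)]
      exact h P hP
    | succ r ih =>
      intro P hP
      rw [← Df_tw hθ, ih P.tw hP]
      simp only [tw_ch]
      rfl
  have h2 : ∀ P : Pt Δ ℂ, P.d = d → ((ordCompl[p] d * u : ℕ) : ℂ) * Df p θ P =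
      ∑ x ∈ Z.support, (Z x : ℂ) * V d x.1 x.2 P := by
    rintro P hP
    have h3 : ∀ a e, V d a e P = ∑ r ∈ range (ordCompl[p] d), ∑ t ∈ range (ordProj[p] d),
        P.ch (t * ordCompl[p] d + r) a * ((P.ω ^ e : ℂˣ) : ℂ) := fun a e => by
      rw [sum_comm, ← sum_range_mul fun i => P.ch i a * ((P.ω ^ e : ℂˣ) : ℂ),
        Nat.ordProj_mul_ordCompl_eq_self, ← hP, V_top]
    simp only [h3, mul_sum (range (ordCompl[p] d))]
    rw [sum_comm, ← sum_congr rfl fun r _ => h1 r P hP, sum_const, card_range, nsmul_eq_mul,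
      Nat.cast_mul, mul_assoc]
  refine Bl_of_smul ((Nat.coprime_ordCompl hp h0).symm.mul_left hu) ?_
  convert sum_mem (t := Z.support) fun x hx =>
    zsmul_mem (ind_mem (k := ℂ) hB hp hd x.1 (hZ x hx)) (Z x) using 1
  funext P
  rw [Finset.sum_apply]
  simp only [Pi.smul_apply, zsmul_eq_mul, nsmul_eq_mul]
  split_ifs with e
  · obtain ⟨s, hs⟩ := e
    have h3 : d ∣ P.d := ⟨_, hs⟩
    rw [Dn, dif_pos h3, h2 _ rfl]
    exact sum_congr rfl fun x _ => by rw [(hB A Δ ℂ).2.2.2.2.2.2.1 d x.1 x.2 P d h3 dvd_rfl]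
  · simp

end GaussX

open GaussX

theorem gauss (hB : BASE_st) (hW : WV_st) : GAUSS_st := by
  intro A _ Δ k _ p hp
  refine ⟨fun d b e hd he => ?_, fun d a e hd he => ?_⟩
  · obtain ⟨M, hM⟩ := exists_two p hp
    refine mem_pB.2 ⟨∑ j ∈ (Δ.m / d).divisors, M j •
      W (d * j) (∏ t ∈ range j, sg Δ (t * d) b) (e * j), sum_mem fun j hj => zsmul_mem ?_ _, ?_⟩
    · obtain ⟨h1, h2⟩ := lev hd he hj
      rw [← sub_add_cancel (W _ _ _) (Vl (d * j) (∏ t ∈ range j, sg Δ (t * d) b) (e * j))]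
      exact add_mem (Bgt_le_B _ (hW A Δ k _ _ _ h1 h2)) (Vl_mem _ h1 h2)
    · funext P
      rw [Pi.smul_apply, expand hM fun j P => (hB A Δ k).2.2.2.1 d j b e P, W_nsmul, nsmul_eq_mul]
      by_cases h : d ∣ P.d
      · have := Nat.div_pos (Nat.le_of_dvd P.d_pos h) (Nat.pos_of_dvd_of_pos h P.d_pos)
        push_cast
        rw [← mul_assoc, ← pow_succ', ← pow_mul, Nat.sub_add_cancel (by omega)]
      · rw [W_of_not b e h, mul_zero, mul_zero, mul_zero]
  · obtain ⟨M, hM, h1, h2⟩ := exists_one p hp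
    have hd' : d ∣ Δ.m := (dvd_mul_right d p).trans hd
    have h0 := Nat.pos_of_dvd_of_pos hd' Δ.m_pos
    have h3 : p ∈ (Δ.m / d).divisors := Nat.mem_divisors.2 ⟨(Nat.dvd_div_iff_mul_dvd hd').2 hd,
      (Nat.div_pos (Nat.le_of_dvd Δ.m_pos hd') h0).ne'⟩
    have h4 : (W d (p • MonoidAlgebra.of ℤ A a) e : Pt Δ k → k) =
        ∑ j ∈ (Δ.m / d).divisors, M j • V (d * j) (ver Δ d j a) (e * j) := by
      funext P
      rw [expand hM fun j P => (hB A Δ k).2.2.2.2.1 d j a e P, W_nsmul, Int.cast_pow,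
        Int.cast_natCast]
    rw [h4, ← add_sum_erase _ _ h3, add_right_comm, ← add_one_zsmul]
    refine add_mem (AddSubgroup.mem_sup_left (smul_mem_pB h1
      (V_mem _ hd (lev hd' he h3).2))) (sum_mem fun j hj => ?_)
    obtain ⟨h5, h6⟩ := mem_erase.1 hj
    obtain ⟨h7, h8⟩ := lev hd' he h6
    by_cases h : p ∣ j
    · refine AddSubgroup.mem_sup_right (zsmul_mem (AddSubgroup.subset_closure ?_) _)
      exact ⟨d * j, _, _, h7, mul_dvd_mul_left d h,
        fun e => h5 (Nat.eq_of_mul_eq_mul_left h0 e), h8, rfl⟩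
    · exact AddSubgroup.mem_sup_left (smul_mem_pB (h2 j h) (V_mem _ h7 h8))

theorem dwork (hB : BASE_st) : DWORK_st := by
  classical
  intro A _ Δ p θ hp hθ h
  have h1 : θ = ∑ d ∈ Δ.m.divisors,
      fun P : Pt Δ ℂ => if ∃ s, P.d = d * p ^ s then Dn p θ d P else 0 := by
    funext P
    rw [Finset.sum_apply]
    exact tele hp θ _ P rfl
  change θ ∈ Bl Δ ℂ p
  rw [h1]
  exact sum_mem fun d hd =>
    lev_mem hB hp hθ (Nat.dvd_of_mem_divisors hd) (h d (Nat.dvd_of_mem_divisors hd))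

end Pool.Agent.MP_f3cd89_nt
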