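import Pool.Agent.MP_f3cd89_nt.AStm

/-! Arithmetic lemmas: sequences that satisfy the Gauss congruences. -/

set_option autoImplicit false

open Finset

namespace Pool.Agent.MP_f3cd89_nt.GaussX

theorem exists_c (a : ℕ → ℤ) : ∃ c : ℕ → ℤ, ∀ n, 0 < n → ∑ i ∈ n.divisors, c i = a n :=
  ⟨_, ArithmeticFunction.sum_eq_iff_sum_smul_moebius_eq.2 fun _ _ => rfl⟩

theorem dold (a : ℕ → ℤ) (h : ∀ q : ℕ, q.Prime → ∀ v n : ℕ, 0 < n → q ^ v ∣ n * q →
    (q : ℤ) ^ v ∣ a (n * q) - a n) :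
    ∃ M : ℕ → ℤ, ∀ n, 0 < n → ∑ j ∈ n.divisors, ((j : ℕ) : ℤ) * M j = a n := by
  obtain ⟨c, hc⟩ := exists_c a
  have h1 : ∀ q : ℕ, q.Prime → ∀ v j : ℕ, 0 < j → q ^ (v + 1) ∣ j → (q : ℤ) ^ (v + 1) ∣ c j := by
    intro q hq v j
    induction j using Nat.strong_induction_on with
    | _ j ih =>
      intro hj hv
      obtain ⟨n, rfl⟩ : ∃ n, j = n * q :=
        (Dvd.dvd.trans (dvd_pow_self q v.succ_ne_zero) hv).imp fun _ e => e.trans (mul_comm _ _)
      have hn : 0 < n := Nat.pos_of_mul_pos_right hj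
      have hs : n.divisors ⊆ (n * q).divisors := Nat.divisors_subset_of_dvd hj.ne' (dvd_mul_right _ _)
      have hm : n * q ∈ (n * q).divisors \ n.divisors := by
        refine mem_sdiff.2 ⟨Nat.mem_divisors_self _ hj.ne', fun e => ?_⟩
        have := Nat.divisor_le e
        nlinarith [hq.two_le]
      have e := h q hq _ n hn hv
      rw [← hc _ hj, ← hc _ hn, ← sum_sdiff hs, add_sub_cancel_right, ← add_sum_erase _ _ hm] at e
      refine (dvd_add_left (dvd_sum fun i hi => ?_)).1 e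
      obtain ⟨h2, h3⟩ := mem_erase.1 hi
      obtain ⟨h4, h5⟩ := mem_sdiff.1 h3
      obtain ⟨k, hk⟩ := Nat.dvd_of_mem_divisors h4
      refine ih i (lt_of_le_of_ne (Nat.divisor_le h4) h2) (Nat.pos_of_mem_divisors h4) ?_
      refine Nat.Coprime.dvd_of_dvd_mul_right (Nat.Coprime.pow_left _
        ((Nat.Prime.coprime_iff_not_dvd hq).2 ?_)) (hk ▸ hv)
      rintro ⟨l, rfl⟩
      refine h5 (Nat.mem_divisors.2 ⟨⟨l, Nat.eq_of_mul_eq_mul_right hq.pos ?_⟩, hn.ne'⟩)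
      rw [hk]; ring
  have h2 : ∀ j : ℕ, 0 < j → (j : ℤ) ∣ c j := fun j hj => by
    rw [Int.natCast_dvd, Nat.dvd_iff_prime_pow_dvd_dvd]
    intro q v hq hv
    rcases v with _ | v
    · simp
    · rw [← Int.natCast_dvd, Nat.cast_pow]
      exact h1 q hq v j hj hv
  refine ⟨fun j => c j / j, fun n hn => ?_⟩
  rw [← hc n hn]
  exact sum_congr rfl fun j hj => Int.mul_ediv_cancel' (h2 j (Nat.pos_of_mem_divisors hj))

theorem pow_congr (x : ℤ) (q : ℕ) (hq : q.Prime) (v n : ℕ) (h : q ^ v ∣ n * q) :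
    (q : ℤ) ^ v ∣ x ^ (n * q) - x ^ n := by
  rcases v with _ | v
  · simp
  · obtain ⟨l, rfl⟩ : q ^ v ∣ n := Nat.dvd_of_mul_dvd_mul_right hq.pos (pow_succ q v ▸ h)
    have := dvd_sub_pow_of_dvd_sub (Int.ModEq.pow_prime_eq_self hq (x ^ l)).symm.dvd v
    rw [← pow_mul, ← pow_mul, ← pow_mul] at this
    rw [show q ^ v * l * q = l * (q * q ^ v) by ring, mul_comm (q ^ v) l]
    exact this

theorem exists_two (p : ℕ) (hp : p.Prime) : ∃ M : ℕ → ℤ, ∀ n, 0 < n →
    ∑ j ∈ n.divisors, ((j : ℕ) : ℤ) * M j = (p : ℤ) ^ (2 * n - 1) := by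
  refine dold _ fun q hq v n hn hv => ?_
  have h1 : ∀ n, 0 < n → (p : ℤ) * p ^ (2 * n - 1) = ((p : ℤ) ^ 2) ^ n := fun n hn => by
    rw [← pow_succ', ← pow_mul, Nat.sub_add_cancel (by omega)]
  by_cases e : q = p
  · subst e
    have h2 : v ≤ n := by
      rcases v with _ | v
      · omega
      · exact (Nat.lt_pow_self hq.one_lt).trans_le
          (Nat.le_of_dvd hn (Nat.dvd_of_mul_dvd_mul_right hq.pos (pow_succ q v ▸ hv)))
    have h3 : n ≤ n * q := Nat.le_mul_of_pos_right _ hq.pos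
    exact dvd_sub (pow_dvd_pow _ (by omega)) (pow_dvd_pow _ (by omega))
  · have h2 := pow_congr ((p : ℤ) ^ 2) q hq v n hv
    rw [← h1 _ hn, ← h1 _ (Nat.mul_pos hn hq.pos), ← mul_sub] at h2
    exact IsCoprime.dvd_of_dvd_mul_left (IsCoprime.pow_left
      (Nat.isCoprime_iff_coprime.2 ((Nat.coprime_primes hq hp).2 e))) h2

theorem exists_one (p : ℕ) (hp : p.Prime) : ∃ M : ℕ → ℤ, (∀ n, 0 < n →
    ∑ j ∈ n.divisors, ((j : ℕ) : ℤ) * M j = (p : ℤ) ^ n) ∧ (p : ℤ) ∣ M p + 1 ∧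
      ∀ j, ¬p ∣ j → (p : ℤ) ∣ M j := by
  obtain ⟨M, hM⟩ := dold (fun n => (p : ℤ) ^ n) fun q hq v n _ hv => pow_congr _ q hq v n hv
  refine ⟨M, hM, ?_, fun j hj => ?_⟩
  · have h1 := hM 1 one_pos
    have h2 := hM p hp.pos
    rw [hp.sum_divisors] at h2
    simp only [Nat.divisors_one, sum_singleton, pow_one] at h1
    rw [h1] at h2
    have h3 : (p : ℤ) * p ∣ p * (M p + 1) := by
      rw [mul_add, mul_one, h2, ← sq]
      exact pow_dvd_pow _ hp.two_le
    exact Int.dvd_of_mul_dvd_mul_left (Nat.cast_ne_zero.2 hp.ne_zero) h3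
  · have h1 : ∀ n : ℕ, 0 < n → (p : ℤ) ∣ n * M n := by
      intro n
      induction n using Nat.strong_induction_on with
      | _ n ih =>
        intro hn
        have e : (p : ℤ) ∣ (p : ℤ) ^ n := dvd_pow_self _ hn.ne'
        rw [← hM n hn, ← Nat.cons_self_properDivisors hn.ne', sum_cons] at e
        exact (dvd_add_left (dvd_sum fun i hi => ih i (Nat.mem_properDivisors.1 hi).2
          (Nat.pos_of_mem_properDivisors hi))).1 e
    exact IsCoprime.dvd_of_dvd_mul_left (Nat.isCoprime_iff_coprime.2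
      ((Nat.Prime.coprime_iff_not_dvd hp).2 hj))
      (h1 j (Nat.pos_of_ne_zero fun e => hj (e ▸ dvd_zero p)))

open Classical in
theorem ind_pow (p : ℕ) (hp : p.Prime) (R : ℕ) (hR : 0 < R) :
    ∑ j ∈ R.divisors with ¬p ∣ j, (ArithmeticFunction.moebius j : ℤ) =
      if ∃ s, R = p ^ s then 1 else 0 := by
  have h1 : R.divisors.filter (fun j => ¬p ∣ j) = (ordCompl[p] R).divisors := by
    ext j
    rw [mem_filter, Nat.mem_divisors, Nat.mem_divisors]
    exact ⟨fun h => ⟨Nat.dvd_ordCompl_of_dvd_not_dvd h.1.1 h.2, (Nat.ordCompl_pos p hR.ne').ne'⟩,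
      fun h => ⟨⟨h.1.trans (Nat.ordCompl_dvd _ _), hR.ne'⟩,
        fun e => Nat.not_dvd_ordCompl hp hR.ne' (e.trans h.1)⟩⟩
  rw [h1, ← ArithmeticFunction.coe_mul_zeta_apply, ArithmeticFunction.moebius_mul_coe_zeta,
    ArithmeticFunction.one_apply]
  refine if_congr ⟨fun e => ⟨R.factorization p, ?_⟩, ?_⟩ rfl rfl
  · have := Nat.ordProj_mul_ordCompl_eq_self R p
    rw [e, mul_one] at this
    exact this.symm
  · rintro ⟨s, rfl⟩
    rw [hp.factorization_pow, Finsupp.single_eq_same, Nat.div_self hR]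

theorem prod_range_mul {M : Type} [CommMonoid M] (f : ℕ → M) (r s : ℕ) :
    ∏ t ∈ range (r * s), f t = ∏ i ∈ range r, ∏ j ∈ range s, f (i * s + j) := by
  induction r with
  | zero => simp
  | succ r ih => rw [Nat.succ_mul, prod_range_add, ih, prod_range_succ]

theorem sum_range_mul {M : Type} [AddCommMonoid M] (f : ℕ → M) (r s : ℕ) :
    ∑ t ∈ range (r * s), f t = ∑ i ∈ range r, ∑ j ∈ range s, f (i * s + j) := by
  induction r with
  | zero => simp
  | succ r ih => rw [Nat.succ_mul, sum_range_add, ih, sum_range_succ]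

end Pool.Agent.MP_f3cd89_nt.GaussX
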