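import Pool.Agent.MP_f3cd89_nt.GeoA

/-! Cones over faces and their relative interiors. -/

set_option autoImplicit false

open Finset

namespace Pool.Agent.MP_f3cd89_nt.GeoX

variable {ι V : Type} (e : V → ι → ℝ)

/-- the cone over `F` -/
def Cone (F : Finset V) (x : ι → ℝ) : Prop :=
  ∃ r : V → ℝ, (∀ v ∈ F, 0 ≤ r v) ∧ x = ∑ v ∈ F, r v • e v

/-- the relative interior of the cone over `F` -/
def RI (F : Finset V) (x : ι → ℝ) : Prop :=
  ∃ r : V → ℝ, (∀ v ∈ F, 0 < r v) ∧ x = ∑ v ∈ F, r v • e v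

variable {e} {F G : Finset V} {x x' : ι → ℝ}

theorem RI.cone (h : RI e F x) : Cone e F x :=
  let ⟨r, h1, h2⟩ := h
  ⟨r, fun v hv => (h1 v hv).le, h2⟩

theorem cone_zero (F : Finset V) : Cone e F 0 := ⟨0, fun _ _ => le_rfl, by simp⟩

theorem Cone.add (h : Cone e F x) (h' : Cone e F x') : Cone e F (x + x') := by
  obtain ⟨r, h1, rfl⟩ := h
  obtain ⟨r', h2, rfl⟩ := h'
  exact ⟨r + r', fun v hv => add_nonneg (h1 v hv) (h2 v hv), by
    simp only [Pi.add_apply, add_smul, sum_add_distrib]⟩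

theorem RI.add (h : RI e F x) (h' : Cone e F x') : RI e F (x + x') := by
  obtain ⟨r, h1, rfl⟩ := h
  obtain ⟨r', h2, rfl⟩ := h'
  exact ⟨r + r', fun v hv => add_pos_of_pos_of_nonneg (h1 v hv) (h2 v hv), by
    simp only [Pi.add_apply, add_smul, sum_add_distrib]⟩

theorem RI.smul (h : RI e F x) {c : ℝ} (hc : 0 < c) : RI e F (c • x) := by
  obtain ⟨r, h1, rfl⟩ := h
  exact ⟨c • r, fun v hv => mul_pos hc (h1 v hv), by
    simp only [Pi.smul_apply, smul_eq_mul, mul_smul, smul_sum]⟩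

theorem Cone.mono (h : Cone e G x) (hGF : G ⊆ F) : Cone e F x := by
  classical
  obtain ⟨r, h1, rfl⟩ := h
  refine ⟨fun v => if v ∈ G then r v else 0, fun v _ => ?_, ?_⟩
  · dsimp only
    split_ifs with h
    exacts [h1 v h, le_rfl]
  · rw [← sum_subset hGF fun v _ hv => by simp only [if_neg hv, zero_smul]]
    exact sum_congr rfl fun v hv => by simp only [if_pos hv]

/-- a little of any vector of the cone can be removed from an interior point -/
theorem RI.sub (h : RI e F x) (h' : Cone e F x') : ∃ ε : ℝ, 0 < ε ∧ Cone e F (x - ε • x') := by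
  obtain ⟨r, h1, rfl⟩ := h
  obtain ⟨r', h2, rfl⟩ := h'
  have h3 : ∀ᶠ ε in nhdsWithin (0 : ℝ) (Set.Ioi 0), ∀ v ∈ F, ε * r' v < r v :=
    (Filter.eventually_all_finset F).2 fun v hv => by
      have : Filter.Tendsto (fun ε : ℝ => ε * r' v) (nhds 0) (nhds (0 * r' v)) :=
        (continuous_id.mul continuous_const).tendsto 0
      rw [zero_mul] at this
      exact (this.eventually_lt_const (h1 v hv)).filter_mono nhdsWithin_le_nhds
  obtain ⟨ε, h4, h5⟩ := (h3.and self_mem_nhdsWithin).exists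
  exact ⟨ε, h5, fun v => r v - ε * r' v, fun v hv => sub_nonneg.2 (h4 v hv).le, by
    simp only [sub_smul, mul_smul, smul_sum, sum_sub_distrib]⟩

variable [Fintype ι] {P : Set V} {y y' : ι → ℝ}

theorem dot_sum (y : ι → ℝ) (F : Finset V) (r : V → ℝ) :
    y ⬝ᵥ ∑ v ∈ F, r v • e v = ∑ v ∈ F, r v * y ⬝ᵥ e v := by
  simp only [dotProduct_sum, dotProduct_smul, smul_eq_mul]

theorem Cone.le (h : Cone e F x) (hF : IsF e P y F) (hy' : Feas e P y') : y ⬝ᵥ x ≤ y' ⬝ᵥ x := by
  obtain ⟨r, h1, rfl⟩ := h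
  rw [dot_sum, dot_sum]
  refine sum_le_sum fun v hv => mul_le_mul_of_nonneg_left ?_ (h1 v hv)
  rw [((hF v).1 hv).2]
  exact hy' v ((hF v).1 hv).1

/-- a face whose cone contains an interior point of another face contains that face -/
theorem RI.subset (h : RI e F x) (h' : Cone e G x) (hF : IsF e P y F) (hy : Feas e P y)
    (hG : IsF e P y' G) (hy' : Feas e P y') : F ⊆ G := by
  have h0 := h'.le hG hy
  obtain ⟨r, h1, rfl⟩ := h
  rw [dot_sum, dot_sum] at h0
  intro v hv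
  refine (hG v).2 ⟨((hF v).1 hv).1, le_antisymm ?_ (hy' v ((hF v).1 hv).1)⟩
  by_contra h2
  refine absurd h0 (not_le.2 (sum_lt_sum (fun u hu => mul_le_mul_of_nonneg_left ?_ (h1 u hu).le)
    ⟨v, hv, mul_lt_mul_of_pos_left ?_ (h1 v hv)⟩))
  · rw [((hF u).1 hu).2]
    exact hy' u ((hF u).1 hu).1
  · rw [((hF v).1 hv).2]
    exact not_le.1 h2

omit [Fintype ι] in
theorem Cone.pos (H : Hyp e P) (h : Cone e F x) (hF : ∀ v ∈ F, v ∈ P) (h0 : x ≠ 0) (i : ι) :
    0 < x i := by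
  obtain ⟨r, h1, rfl⟩ := h
  obtain ⟨v, hv, h2⟩ := exists_ne_zero_of_sum_ne_zero h0
  rw [Finset.sum_apply]
  exact sum_pos' (fun u hu => mul_nonneg (h1 u hu) (H.pos u (hF u hu) i).le)
    ⟨v, hv, mul_pos ((h1 v hv).lt_of_ne (left_ne_zero_of_smul h2).symm) (H.pos v (hF v hv) i)⟩

theorem RI.dot_pos (h : RI e F x) (hF : IsF e P y F) (hne : F.Nonempty) : 0 < y ⬝ᵥ x := by
  obtain ⟨r, h1, rfl⟩ := h
  rw [dot_sum]
  exact sum_pos (fun v hv => by rw [((hF v).1 hv).2, mul_one]; exact h1 v hv) hne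

/-- every positive vector is an interior point of the cone over a face -/
theorem Hyp.exists_ri [Nonempty ι] (H : Hyp e P) (hx : ∀ i, 0 < x i) :
    ∃ y F, Feas e P y ∧ IsF e P y F ∧ F.Nonempty ∧ RI e F x := by
  have key : ∀ (n : ℕ) (y : ι → ℝ) (F : Finset V), F.card = n → Feas e P y → IsF e P y F →
      (∀ y', Feas e P y' → y ⬝ᵥ x ≤ y' ⬝ᵥ x) →
      ∃ y F, Feas e P y ∧ IsF e P y F ∧ F.Nonempty ∧ RI e F x := by
    intro n
    induction n using Nat.strong_induction_on with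
    | _ n ih =>
      intro y F hn hy hF hmin
      have hpos : 0 < y ⬝ᵥ x := sum_pos (fun i _ => mul_pos (H.feas_pos hy i) (hx i)) univ_nonempty
      have hne : F.Nonempty := by
        rw [nonempty_iff_ne_empty]
        rintro rfl
        obtain ⟨ε, h1, h2, -⟩ := H.pert (z := -y) hy fun v hv h =>
          absurd ((hF v).2 ⟨hv, h⟩) (notMem_empty v)
        have := hmin _ h2
        rw [add_dotProduct, smul_dotProduct, neg_dotProduct, smul_eq_mul] at this
        nlinarith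
      rcases stiemke (fun v : F => e v) x with ⟨r, h1, c, h2⟩ | ⟨z, h1, ⟨v₀, h2⟩, h3⟩
      · classical
        have h4 : RI e F (c • x) := ⟨fun v => if h : v ∈ F then r ⟨v, h⟩ else 0,
          fun v hv => by simp only [dif_pos hv]; exact h1 _, by
            rw [← h2, ← sum_coe_sort F]
            exact sum_congr rfl fun v _ => by simp only [dif_pos v.2]⟩
        have h5 := h4.dot_pos hF hne
        rw [dotProduct_smul, smul_eq_mul] at h5
        have hc : 0 < c := (mul_pos_iff_of_pos_right hpos).1 h5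
        have h6 := h4.smul (inv_pos.2 hc)
        rw [inv_smul_smul₀ hc.ne'] at h6
        exact ⟨y, F, hy, hF, hne, h6⟩
      · obtain ⟨ε, -, h4, h5⟩ := H.pert (z := z) hy fun v hv h => h1 ⟨v, (hF v).2 ⟨hv, h⟩⟩
        obtain ⟨G, hG⟩ := H.exists_isF h4
        refine ih _ ?_ _ G rfl h4 hG fun y' hy' => ?_
        · rw [← hn]
          refine card_lt_card ⟨fun v hv => (hF v).2 ⟨((hG v).1 hv).1,
            (h5 v ((hG v).1 hv).1 ((hG v).1 hv).2).1⟩, fun h => ?_⟩
          have h6 := (hG v₀).1 (h v₀.2)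
          exact h2.ne' (h5 v₀ h6.1 h6.2).2
        · rw [add_dotProduct, smul_dotProduct, h3, smul_zero, add_zero]
          exact hmin y' hy'
  obtain ⟨y, hy, hmin⟩ := H.exists_min hx
  obtain ⟨F, hF⟩ := H.exists_isF hy
  exact key _ y F rfl hy hF hmin

/-- moving from an interior point to the boundary -/
theorem RI.peel (h : RI e F x) {b : ι → ℝ} (hb : RI e F b) (hF : IsF e P y F) (hne : F.Nonempty) :
    ∃ t : ℝ, 0 < t ∧ Cone e F (x - t • b) ∧ ¬ RI e F (x - t • b) := by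
  classical
  have hb0 := hb.dot_pos hF hne
  let K : Set ((F → ℝ) × ℝ) := {p | ∑ v : F, p.1 v • e v + p.2 • b = x}
  have hK : IsClosed K := isClosed_eq (by fun_prop) continuous_const
  have hmem : ∀ t : ℝ, 0 ≤ t → Cone e F (x - t • b) →
      ∃ r, (r, t) ∈ K ∩ Set.Icc (0, 0) (fun _ => y ⬝ᵥ x, y ⬝ᵥ x / y ⬝ᵥ b) := by
    rintro t ht ⟨r, h1, h2⟩
    have h3 : y ⬝ᵥ x - t * y ⬝ᵥ b = ∑ v ∈ F, r v := by
      have := congrArg (y ⬝ᵥ ·) h2
      simp only [dotProduct_sub, dotProduct_smul, smul_eq_mul, dot_sum] at this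
      rw [this]
      exact sum_congr rfl fun v hv => by rw [((hF v).1 hv).2, mul_one]
    have h4 := sum_nonneg h1
    have h5 := mul_nonneg ht hb0.le
    refine ⟨fun v => r v, ?_, ⟨fun v => h1 v v.2, ht⟩, fun v => ?_, ?_⟩
    · change ∑ v : F, r v • e v + t • b = x
      rw [sum_coe_sort F fun v => r v • e v, ← h2, sub_add_cancel]
    · have := single_le_sum h1 v.2
      change r v ≤ y ⬝ᵥ x
      linarith
    · change t ≤ _
      rw [le_div_iff₀ hb0]
      linarith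
  obtain ⟨ε, hε, h1⟩ := h.sub hb.cone
  obtain ⟨r₀, h2⟩ := hmem ε hε.le h1
  obtain ⟨⟨r, t⟩, ⟨h3, h4, -⟩, hmax⟩ := (isCompact_Icc.inter_left hK).exists_isMaxOn ⟨_, h2⟩
    continuous_snd.continuousOn
  have ht : 0 < t := hε.trans_le (hmax h2)
  refine ⟨t, ht, ⟨fun v => if h : v ∈ F then r ⟨v, h⟩ else 0, fun v hv => ?_, ?_⟩, fun h5 => ?_⟩
  · simp only [dif_pos hv]
    exact h4.1 _
  · have h5 : ∑ v : F, r v • e v + t • b = x := h3
    rw [← h5, add_sub_cancel_right, ← sum_coe_sort F]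
    exact sum_congr rfl fun v _ => by simp only [dif_pos v.2]
  · obtain ⟨δ, hδ, h6⟩ := h5.sub hb.cone
    rw [sub_sub, ← add_smul] at h6
    obtain ⟨r', h7⟩ := hmem _ (add_pos ht hδ).le h6
    have : t + δ ≤ t := hmax h7
    linarith

end Pool.Agent.MP_f3cd89_nt.GeoX
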