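import Pool.Agent.MP_f3cd89_nt.SStm
import Pool.Agent.MP_f3cd89_nt.GeoB

/-! The barycentric subdivision of the fan over the faces. -/

set_option autoImplicit false

open Finset

namespace Pool.Agent.MP_f3cd89_nt

namespace GeoX

variable {ι V : Type} [Fintype ι] {e : V → ι → ℝ} {P : Set V} {b : Finset V → ι → ℝ}

theorem face_subset {F G : Finset V} {x : ι → ℝ} (hF : Face e P F) (hG : Face e P G)
    (h : RI e F x) (h' : Cone e G x) : F ⊆ G :=
  let ⟨_, _, hy, h1⟩ := hF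
  let ⟨_, _, hy', h2⟩ := hG
  h.subset h' h1 hy h2 hy'

theorem face_ne {F : Finset V} {x : ι → ℝ} (hF : Face e P F) (h : RI e F x) : x ≠ 0 := by
  obtain ⟨hne, y, -, h1⟩ := hF
  rintro rfl
  exact absurd (h.dot_pos h1 hne) (by rw [dotProduct_zero]; exact lt_irrefl _)

/-- the top face of a chain -/
theorem top (hb : ∀ F, Face e P F → RI e F (b F)) {u : Finset V →₀ ℝ} (h0 : u ≠ 0)
    (h1 : ∀ F ∈ u.support, Face e P F ∧ 0 < u F)
    (h2 : IsChain (· ⊆ ·) (u.support : Set (Finset V))) :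
    ∃ F ∈ u.support, RI e F (u.sum fun F r => r • b F) := by
  classical
  obtain ⟨F, hF, hmax⟩ := exists_max_image u.support card (Finsupp.support_nonempty_iff.2 h0)
  refine ⟨F, hF, ?_⟩
  rw [Finsupp.sum, ← add_sum_erase _ _ hF]
  refine ((hb F (h1 F hF).1).smul (h1 F hF).2).add
    (sum_induction _ (Cone e F) (fun _ _ => Cone.add) (cone_zero F) fun G hG => ?_)
  have hG' := mem_of_mem_erase hG
  refine ((hb G (h1 G hG').1).smul (h1 G hG').2).cone.mono ?_
  rcases h2 hG' hF (ne_of_mem_erase hG) with h | h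
  · exact h
  · exact (eq_of_subset_of_card_le h (hmax G hG')).ge

theorem uniq (hb : ∀ F, Face e P F → RI e F (b F)) {t t' : Finset V →₀ ℝ}
    (h1 : ∀ F ∈ t.support, Face e P F ∧ 0 < t F)
    (h2 : IsChain (· ⊆ ·) (t.support : Set (Finset V)))
    (h1' : ∀ F ∈ t'.support, Face e P F ∧ 0 < t' F)
    (h2' : IsChain (· ⊆ ·) (t'.support : Set (Finset V)))
    (h : (t.sum fun F r => r • b F) = t'.sum fun F r => r • b F) : t ≤ t' := by
  have key : ∀ s s' : Finset V →₀ ℝ, (∀ F ∈ s.support, Face e P F ∧ 0 < s F) →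
      (∀ F ∈ s'.support, Face e P F ∧ 0 < s' F) → ∀ F ∈ (s - s ⊓ s').support,
        F ∈ s.support ∧ s' F < s F ∧ 0 < (s - s ⊓ s') F := by
    intro s s' _ hs' F hF
    rw [Finsupp.mem_support_iff, Finsupp.sub_apply, Finsupp.inf_apply, sub_ne_zero] at hF
    have h3 : s' F < s F := not_le.1 fun h => hF (inf_eq_left.2 h).symm
    have h4 : 0 ≤ s' F := by
      by_cases h : F ∈ s'.support
      · exact (hs' F h).2.le
      · exact (Finsupp.notMem_support_iff.1 h).ge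
    refine ⟨Finsupp.mem_support_iff.2 (h4.trans_lt h3).ne', h3, ?_⟩
    rw [Finsupp.sub_apply, Finsupp.inf_apply, inf_eq_right.2 h3.le]
    exact sub_pos.2 h3
  have k1 := key t t' h1 h1'
  have k2 := key t' t h1' h1
  have e1 : ((t - t ⊓ t').sum fun F r => r • b F) = (t' - t' ⊓ t).sum fun F r => r • b F := by
    rw [Finsupp.sum_sub_index fun _ _ _ => sub_smul _ _ _,
      Finsupp.sum_sub_index fun _ _ _ => sub_smul _ _ _, h, inf_comm]
  by_contra h0
  have h3 : t - t ⊓ t' ≠ 0 := fun h => h0 (inf_eq_left.1 (sub_eq_zero.1 h).symm)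
  obtain ⟨F, hF, h4⟩ := top hb h3 (fun F hF => ⟨(h1 F (k1 F hF).1).1, (k1 F hF).2.2⟩)
    (h2.mono fun F hF => (k1 F hF).1)
  have hFf := (h1 F (k1 F hF).1).1
  have h5 : t' - t' ⊓ t ≠ 0 := fun h => face_ne hFf h4 (by rw [e1, h, Finsupp.sum_zero_index])
  obtain ⟨G, hG, h6⟩ := top hb h5 (fun F hF => ⟨(h1' F (k2 F hF).1).1, (k2 F hF).2.2⟩)
    (h2'.mono fun F hF => (k2 F hF).1)
  have hGf := (h1' G (k2 G hG).1).1
  rw [← e1] at h6
  obtain rfl : F = G :=
    Subset.antisymm (face_subset hFf hGf h4 h6.cone) (face_subset hGf hFf h6 h4.cone)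
  exact lt_asymm (k1 F hF).2.1 (k2 F hG).2.1

theorem exist [Nonempty ι] (H : Hyp e P) (hb : ∀ F, Face e P F → RI e F (b F)) :
    ∀ (n : ℕ) (F : Finset V) (x : ι → ℝ), F.card = n → Face e P F → RI e F x →
      ∃ t : Finset V →₀ ℝ, (∀ G ∈ t.support, (Face e P G ∧ 0 < t G) ∧ G ⊆ F) ∧
        IsChain (· ⊆ ·) (t.support : Set (Finset V)) ∧ x = t.sum fun F r => r • b F := by
  classical
  intro n
  induction n using Nat.strong_induction_on with
  | _ n ih =>
    intro F x hn hF hx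
    obtain ⟨hne, y, hy, hyF⟩ := id hF
    obtain ⟨c, hc, h1, h2⟩ := hx.peel (hb F hF) hyF hne
    have step : ∃ t : Finset V →₀ ℝ, (∀ G ∈ t.support, (Face e P G ∧ 0 < t G) ∧ G ⊂ F) ∧
        IsChain (· ⊆ ·) (t.support : Set (Finset V)) ∧
          x - c • b F = t.sum fun F r => r • b F := by
      by_cases h0 : x - c • b F = 0
      · exact ⟨0, by simp, by simp, by rw [h0, Finsupp.sum_zero_index]⟩
      obtain ⟨y', G, hy', hG, hGne, h3⟩ := H.exists_ri (h1.pos H (fun v hv => ((hyF v).1 hv).1) h0)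
      have h4 : G ⊂ F := ssubset_of_subset_of_ne (h3.subset h1 hG hy' hyF hy) (by
        rintro rfl
        exact h2 h3)
      obtain ⟨t, h5, h6, h7⟩ := ih _ (hn ▸ card_lt_card h4) G _ rfl ⟨hGne, y', hy', hG⟩ h3
      exact ⟨t, fun G' hG' => ⟨(h5 G' hG').1,
        Finset.ssubset_of_subset_of_ssubset (h5 G' hG').2 h4⟩, h6, h7⟩
    obtain ⟨t, h3, h4, h5⟩ := step
    have hFt : F ∉ t.support := fun h => (h3 F h).2.ne rfl
    have h6 : (Finsupp.single F c + t).support = insert F t.support := by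
      rw [Finsupp.support_single_add hFt hc.ne', cons_eq_insert]
    refine ⟨Finsupp.single F c + t, fun G hG => ?_, ?_, ?_⟩
    · rw [h6, mem_insert] at hG
      rcases hG with rfl | hG
      · refine ⟨⟨hF, ?_⟩, Subset.rfl⟩
        rw [Finsupp.add_apply, Finsupp.single_eq_same, Finsupp.notMem_support_iff.1 hFt, add_zero]
        exact hc
      · refine ⟨⟨(h3 G hG).1.1, ?_⟩, (h3 G hG).2.subset⟩
        rw [Finsupp.add_apply, Finsupp.single_eq_of_ne (h3 G hG).2.ne, zero_add]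
        exact (h3 G hG).1.2
    · rw [h6, coe_insert]
      exact h4.insert fun G hG _ => Or.inr (h3 G hG).2.subset
    · rw [Finsupp.sum_add_index' (h := fun F (r : ℝ) => r • b F) (fun _ => zero_smul _ _)
        fun _ _ _ => add_smul _ _ _, Finsupp.sum_single_index (h := fun F (r : ℝ) => r • b F)
        (zero_smul _ _), ← h5, add_sub_cancel]

end GeoX

theorem geo : GEO_st := by
  intro ι V _ _ e P h1 h2 h3
  have H : GeoX.Hyp e P := ⟨h1, h2, h3⟩
  refine ⟨fun y hy => H.feas_pos hy, fun b hb x hx => ?_⟩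
  obtain ⟨y, F, hy, hF, hne, hx'⟩ := H.exists_ri hx
  obtain ⟨t, h4, h5, h6⟩ := GeoX.exist H hb _ F x rfl ⟨hne, y, hy, hF⟩ hx'
  refine ⟨t, ⟨fun G hG => (h4 G hG).1, h5, h6⟩, ?_⟩
  rintro t' ⟨h7, h8, h9⟩
  exact le_antisymm (GeoX.uniq hb h7 h8 (fun G hG => (h4 G hG).1) h5 (h9.symm.trans h6))
    (GeoX.uniq hb (fun G hG => (h4 G hG).1) h5 h7 h8 (h6.symm.trans h9))

end Pool.Agent.MP_f3cd89_nt
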