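import Mathlib

/-! Feasible vectors, faces and the theorem of the alternative. -/

set_option autoImplicit false

open Finset Filter Topology

namespace Pool.Agent.MP_f3cd89_nt.GeoX

/-- The theorem of the alternative of Stiemke. -/
theorem stiemke {ι κ : Type} [Fintype ι] [Fintype κ] (w : κ → ι → ℝ) (x : ι → ℝ) :
    (∃ r : κ → ℝ, (∀ k, 0 < r k) ∧ ∃ c : ℝ, ∑ k, r k • w k = c • x) ∨
      ∃ z : ι → ℝ, (∀ k, 0 ≤ z ⬝ᵥ w k) ∧ (∃ k, 0 < z ⬝ᵥ w k) ∧ z ⬝ᵥ x = 0 := by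
  classical
  refine or_iff_not_imp_left.2 fun h => ?_
  let A : (κ → ℝ) →ₗ[ℝ] (ι → ℝ) := Fintype.linearCombination ℝ w
  let W : Submodule ℝ (κ → ℝ) := (Submodule.span ℝ {x}).comap A
  obtain ⟨f, u, h1, h2⟩ := geometric_hahn_banach_open
    (s := Set.pi Set.univ fun _ : κ => Set.Ioi (0 : ℝ)) (t := (W : Set (κ → ℝ)))
    (convex_pi fun _ _ => convex_Ioi 0) (isOpen_set_pi Set.finite_univ fun _ _ => isOpen_Ioi)
    W.convex (Set.disjoint_left.2 fun r hr hw => by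
      obtain ⟨c, hc⟩ := Submodule.mem_span_singleton.1 (Submodule.mem_comap.1 hw)
      exact h ⟨r, fun k => hr k trivial, c, hc.symm⟩)
  have hu : u ≤ 0 := by simpa using h2 0 W.zero_mem
  have h3 : ∀ r ∈ W, f r = 0 := fun r hr => by
    by_contra h0
    have := h2 _ (W.smul_mem ((u - 1) / f r) hr)
    rw [map_smul, smul_eq_mul, div_mul_cancel₀ _ h0] at this
    linarith
  let A' : ((κ → ℝ) × ℝ) →ₗ[ℝ] (ι → ℝ) := A.coprod (LinearMap.toSpanSingleton ℝ _ x)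
  have h4 : -(f.toLinearMap ∘ₗ LinearMap.fst ℝ (κ → ℝ) ℝ) ∈ (LinearMap.ker A').dualAnnihilator := by
    rw [Submodule.mem_dualAnnihilator]
    rintro ⟨r, c⟩ hr
    have e : A r + c • x = 0 := hr
    have : f r = 0 := h3 r (Submodule.mem_span_singleton.2 ⟨-c, by
      rw [neg_smul]
      exact (eq_neg_of_add_eq_zero_left e).symm⟩)
    simpa using this
  rw [← LinearMap.range_dualMap_eq_dualAnnihilator_ker] at h4
  obtain ⟨φ, hφ⟩ := h4
  have h5 : ∀ r c, φ (A r + c • x) = -f r := fun r c => LinearMap.congr_fun hφ (r, c)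
  have h6 : ∀ a, (fun i => φ fun j => if i = j then 1 else 0) ⬝ᵥ a = φ a := fun a => by
    rw [LinearMap.pi_apply_eq_sum_univ φ a]
    exact sum_congr rfl fun i _ => mul_comm _ _
  have h7 : ∀ k, φ (w k) = -f (Pi.single k 1) := fun k => by
    rw [← h5 _ 0, zero_smul, add_zero]
    simp [A]
  have h8 : f 1 < 0 := (h1 1 fun _ _ => (one_pos : (0 : ℝ) < 1)).trans_le hu
  refine ⟨fun i => φ fun j => if i = j then 1 else 0, fun k => ?_, ?_, ?_⟩
  · rw [h6, h7, neg_nonneg]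
    by_contra h0
    rw [not_le] at h0
    have h9 : 0 ≤ -f 1 / f (Pi.single k 1) := div_nonneg (by linarith) h0.le
    have := (h1 ((-f 1 / f (Pi.single k 1)) • Pi.single k (1 : ℝ) + 1) fun j _ => by
      have : 0 ≤ (Pi.single k (1 : ℝ) : κ → ℝ) j := by
        rw [Pi.single_apply]
        split_ifs <;> norm_num
      change 0 < _ * _ + (1 : ℝ)
      positivity).trans_le hu
    rw [map_add, map_smul, smul_eq_mul, div_mul_cancel₀ _ h0.ne'] at this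
    linarith
  · by_contra h0
    have h9 : ∀ k, 0 ≤ f (Pi.single k 1) := fun k => by
      have := not_lt.1 fun h' => h0 ⟨k, h'⟩
      rw [h6, h7] at this
      linarith
    have : (1 : κ → ℝ) = ∑ k, Pi.single k 1 := (univ_sum_single _).symm
    rw [this, map_sum] at h8
    exact absurd (sum_nonneg fun k _ => h9 k) (not_le.2 h8)
  · have := h5 0 1
    rwa [map_zero, map_zero, zero_add, one_smul, neg_zero, ← h6] at this

variable {ι V : Type} [Fintype ι] (e : V → ι → ℝ) (P : Set V)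

/-- feasible vectors -/
def Feas (y : ι → ℝ) : Prop := ∀ v ∈ P, 1 ≤ y ⬝ᵥ e v

/-- the face cut out by `y` -/
def IsF (y : ι → ℝ) (F : Finset V) : Prop := ∀ v, v ∈ F ↔ v ∈ P ∧ y ⬝ᵥ e v = 1

/-- the standing hypotheses -/
structure Hyp : Prop where
  pos : ∀ v ∈ P, ∀ i, 0 < e v i
  fin : ∀ C : ℝ, {v ∈ P | ∀ i, e v i ≤ C}.Finite
  cusp : ∀ i, ∀ δ : ℝ, 0 < δ → ∃ v ∈ P, ∀ j, j ≠ i → e v j < δ

variable {e P}

theorem Hyp.feas_pos (H : Hyp e P) {y : ι → ℝ} (hy : Feas e P y) (i : ι) : 0 < y i := by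
  by_contra h0
  rw [not_lt] at h0
  have h1 : 0 ≤ ∑ j, |y j| := sum_nonneg fun j _ => abs_nonneg _
  have hδ : 0 < (∑ j, |y j| + 1)⁻¹ := by positivity
  obtain ⟨v, hv, h2⟩ := H.cusp i _ hδ
  have h3 : y ⬝ᵥ e v ≤ ∑ j, |y j| * (∑ j, |y j| + 1)⁻¹ := sum_le_sum fun j _ => by
    by_cases hj : j = i
    · subst hj
      exact (mul_nonpos_of_nonpos_of_nonneg h0 (H.pos v hv j).le).trans (by positivity)
    · exact mul_le_mul (le_abs_self _) (h2 j hj).le (H.pos v hv j).le (abs_nonneg _)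
  rw [← sum_mul, ← div_eq_mul_inv] at h3
  have h4 := (hy v hv).trans h3
  rw [le_div_iff₀ (by positivity)] at h4
  linarith

theorem Hyp.fin_le (H : Hyp e P) {y : ι → ℝ} (hy : Feas e P y) :
    {v ∈ P | y ⬝ᵥ e v ≤ 2}.Finite := by
  refine (H.fin (∑ j, 2 / y j)).subset fun v hv => ⟨hv.1, fun i => ?_⟩
  have h1 : y i * e v i ≤ y ⬝ᵥ e v := single_le_sum (f := fun j => y j * e v j)
    (fun j _ => (mul_pos (H.feas_pos hy j) (H.pos v hv.1 j)).le) (mem_univ i)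
  refine le_trans ?_ (single_le_sum (f := fun j => 2 / y j)
    (fun j _ => (div_pos two_pos (H.feas_pos hy j)).le) (mem_univ i))
  rw [le_div_iff₀' (H.feas_pos hy i)]
  exact h1.trans hv.2

theorem Hyp.exists_isF (H : Hyp e P) {y : ι → ℝ} (hy : Feas e P y) : ∃ F, IsF e P y F :=
  ⟨((H.fin_le hy).subset (t := {v ∈ P | y ⬝ᵥ e v = 1}) fun _ hv =>
    ⟨hv.1, hv.2.le.trans one_le_two⟩).toFinset, fun _ => Set.Finite.mem_toFinset _⟩

/-- Perturbation of a feasible vector. -/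
theorem Hyp.pert (H : Hyp e P) {y z : ι → ℝ} (hy : Feas e P y)
    (hz : ∀ v ∈ P, y ⬝ᵥ e v = 1 → 0 ≤ z ⬝ᵥ e v) : ∃ ε : ℝ, 0 < ε ∧ Feas e P (y + ε • z) ∧
      ∀ v ∈ P, (y + ε • z) ⬝ᵥ e v = 1 → y ⬝ᵥ e v = 1 ∧ z ⬝ᵥ e v = 0 := by
  have key : ∀ a b c : ℝ, c < a → ∀ᶠ ε in 𝓝[>] (0 : ℝ), c < a + ε * b := fun a b c h => by
    have : Tendsto (fun ε : ℝ => a + ε * b) (𝓝 0) (𝓝 (a + 0 * b)) :=
      (continuous_const.add (continuous_id.mul continuous_const)).tendsto 0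
    rw [zero_mul, add_zero] at this
    exact (this.eventually_const_lt h).filter_mono nhdsWithin_le_nhds
  have h1 : ∀ᶠ ε in 𝓝[>] (0 : ℝ), ∀ i, y i / 2 < y i + ε * z i :=
    eventually_all.2 fun i => key _ _ _ (half_lt_self (H.feas_pos hy i))
  have h2 : ∀ᶠ ε in 𝓝[>] (0 : ℝ), ∀ v ∈ {v ∈ P | y ⬝ᵥ e v ≤ 2},
      1 < y ⬝ᵥ e v → 1 < y ⬝ᵥ e v + ε * z ⬝ᵥ e v :=
    (eventually_all_finite (H.fin_le hy)).2 fun v _ => by
      by_cases h : 1 < y ⬝ᵥ e v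
      · exact (key _ _ _ h).mono fun _ h' _ => h'
      · exact .of_forall fun _ h' => absurd h' h
  obtain ⟨ε, ⟨h3, h4⟩, h5⟩ := ((h1.and h2).and self_mem_nhdsWithin).exists
  have hε : 0 < ε := h5
  have h6 : ∀ v ∈ P, 1 < y ⬝ᵥ e v → 1 < (y + ε • z) ⬝ᵥ e v := fun v hv h => by
    by_cases h7 : y ⬝ᵥ e v ≤ 2
    · rw [add_dotProduct, smul_dotProduct, smul_eq_mul]
      exact h4 v ⟨hv, h7⟩ h
    · have h8 : ∑ i, y i / 2 * e v i ≤ (y + ε • z) ⬝ᵥ e v :=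
        sum_le_sum fun i _ => mul_le_mul_of_nonneg_right (h3 i).le (H.pos v hv i).le
      have h9 : ∑ i, y i / 2 * e v i = y ⬝ᵥ e v / 2 := by
        rw [dotProduct, sum_div]
        exact sum_congr rfl fun i _ => by ring
      rw [h9] at h8
      linarith
  refine ⟨ε, hε, fun v hv => ?_, fun v hv h => ?_⟩
  · rcases (hy v hv).eq_or_lt with h | h
    · rw [add_dotProduct, smul_dotProduct, smul_eq_mul, ← h]
      exact le_add_of_nonneg_right (mul_nonneg hε.le (hz v hv h.symm))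
    · exact (h6 v hv h).le
  · rcases (hy v hv).eq_or_lt with h' | h'
    · rw [add_dotProduct, smul_dotProduct, smul_eq_mul, ← h', add_eq_left] at h
      exact ⟨h'.symm, (mul_eq_zero.1 h).resolve_left hε.ne'⟩
    · exact absurd h (h6 v hv h').ne'

theorem Hyp.exists_feas [Nonempty ι] (H : Hyp e P) : ∃ y, Feas e P y := by
  obtain ⟨M, hM⟩ := ((H.fin 1).image fun v => (∑ i, e v i)⁻¹).bddAbove
  refine ⟨fun _ => max M 1, fun v hv => ?_⟩
  have h0 : 0 < ∑ i, e v i := sum_pos (fun i _ => H.pos v hv i) univ_nonempty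
  rw [dotProduct, ← mul_sum]
  by_cases h : ∀ i, e v i ≤ 1
  · have h1 : (∑ i, e v i)⁻¹ ≤ max M 1 := (hM ⟨v, ⟨hv, h⟩, rfl⟩).trans (le_max_left _ _)
    rwa [inv_le_iff_one_le_mul₀ h0] at h1
  · obtain ⟨i, hi⟩ := not_forall.1 h
    exact one_le_mul_of_one_le_of_one_le (le_max_right _ _) ((not_le.1 hi).le.trans
      (single_le_sum (fun j _ => (H.pos v hv j).le) (mem_univ i)))

theorem Hyp.exists_min [Nonempty ι] (H : Hyp e P) {x : ι → ℝ} (hx : ∀ i, 0 < x i) :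
    ∃ y, Feas e P y ∧ ∀ y', Feas e P y' → y ⬝ᵥ x ≤ y' ⬝ᵥ x := by
  obtain ⟨y₀, h₀⟩ := H.exists_feas
  have hle : ∀ y, Feas e P y → ∀ i, y i * x i ≤ y ⬝ᵥ x := fun y hy i =>
    single_le_sum (f := fun j => y j * x j)
      (fun j _ => (mul_pos (H.feas_pos hy j) (hx j)).le) (mem_univ i)
  have hc : ∀ a : ι → ℝ, Continuous fun y : ι → ℝ => y ⬝ᵥ a := fun a =>
    continuous_id.dotProduct continuous_const
  have hcl : IsClosed {y | Feas e P y} := by
    have : {y | Feas e P y} = ⋂ v ∈ P, {y | 1 ≤ y ⬝ᵥ e v} := by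
      ext y
      simp [Feas]
    rw [this]
    exact isClosed_biInter fun v _ => isClosed_le continuous_const (hc _)
  have hmem : y₀ ∈ {y | Feas e P y} ∩ Set.Icc 0 fun i => y₀ ⬝ᵥ x / x i :=
    ⟨h₀, fun i => (H.feas_pos h₀ i).le, fun i => (le_div_iff₀ (hx i)).2 (hle y₀ h₀ i)⟩
  obtain ⟨y, hy, hmin⟩ := (isCompact_Icc.inter_left hcl).exists_isMinOn ⟨y₀, hmem⟩
    (hc x).continuousOn
  refine ⟨y, hy.1, fun y' hy' => ?_⟩
  by_cases h : ∀ i, y' i ≤ y₀ ⬝ᵥ x / x i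
  · exact hmin ⟨hy', fun i => (H.feas_pos hy' i).le, h⟩
  · obtain ⟨i, hi⟩ := not_forall.1 h
    rw [not_le, div_lt_iff₀ (hx i)] at hi
    exact (hmin hmem).trans (hi.le.trans (hle y' hy' i))

end Pool.Agent.MP_f3cd89_nt.GeoX
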