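import Pool.Agent.MP_f3cd89_nt.InstA

/-! The congruence for sums over pairs, from the abstract congruence. -/

set_option autoImplicit false
set_option linter.unusedSectionVars false

open Finset NumberField IsDedekindDomain

namespace Pool.Agent.MP_f3cd89_nt

namespace InstX

variable {F : Type} [Field F] [NumberField F] {l : ℕ}

theorem prim_zero {C : Finset (Pr F)} {D : Pr F →₀ ℤ} {χ : F → ZMod l} (hχ : IsPrim C D χ)
    {x z : F} (hx : x ∈ lat (-D)) (hz : z ∈ lat (-D + ind C)) : χ (x + z) = χ x := by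
  rw [hχ.add x hx z (lat_mono (fun w => by simp [ind_nonneg]) hz), hχ.kill z hz, add_zero]

theorem prim_unit {C : Finset (Pr F)} {D : Pr F →₀ ℤ} {χ : F → ZMod l} (hχ : IsPrim C D χ)
    {N : ℕ} (hN : 0 < N) {u : F} (h0 : u ≠ 0) (hu : Cong C N u) (hd : dv u = 0) (x : F) :
    χ (u * x) = χ x := by
  have h1 : ∀ w : Pr F, w.valuation F u = 1 := fun w =>
    (val_eq_one_iff w h0).2 (by rw [← dv_apply, hd]; rfl)
  by_cases hx : x ∈ lat (-D)
  · rw [show u * x = x + (u - 1) * x by ring]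
    refine prim_zero hχ hx fun w => ?_
    rw [map_mul, Finsupp.add_apply, neg_add, WithZero.exp_add, mul_comm]
    refine mul_le_mul' (hx w) ?_
    rw [ind_apply]
    split_ifs with hw
    · exact (hu w hw).trans (WithZero.exp_le_exp.2 (by omega))
    · rw [neg_zero, WithZero.exp_zero]
      exact Valuation.map_sub_le _ (h1 w).le (map_one _).le
  · rw [hχ.out x hx, hχ.out]
    intro h
    exact hx fun w => by simpa only [map_mul, h1, one_mul] using h w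

theorem exists_pos (hB : NTB_st) (E : Pr F →₀ ℤ) : ∃ w ∈ lat E, TPos w := by
  obtain ⟨x, -, h1, h2, h3⟩ := (hB F).1 E.support 0 (-∑ v ∈ E.support, |E v|)
  refine ⟨x, fun v => ?_, h1⟩
  by_cases hv : v ∈ E.support
  · have := h2 v hv
    rw [Pi.zero_apply, sub_zero] at this
    exact this.trans (WithZero.exp_le_exp.2 (neg_le_neg ((le_abs_self _).trans
      (Finset.single_le_sum (f := fun v => |E v|) (fun _ _ => abs_nonneg _) hv))))
  · rw [Finsupp.notMem_support_iff.1 hv, neg_zero, WithZero.exp_zero]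
    exact h3 v hv

theorem exists_nat (v : F) {w : F} (hw : TPos w) : ∃ K : ℕ, TPos (v + K • w) := by
  choose K hK using fun φ : F →+* ℝ => exists_nat_gt (-φ v / φ w)
  refine ⟨Finset.univ.sup K, fun φ => ?_⟩
  have h1 : (K φ : ℝ) ≤ (Finset.univ.sup K : ℕ) := Nat.cast_le.2 (Finset.le_sup (Finset.mem_univ φ))
  have h2 := (div_lt_iff₀ (hw φ)).1 ((hK φ).trans_le h1)
  rw [map_add, map_nsmul, nsmul_eq_mul]
  linarith

theorem good (hB : NTB_st) (hC : NTC_st) {S C : Finset (Pr F)} (N : ℕ) (hd : Disjoint S C)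
    (hne : C.Nonempty) {D : Pr F →₀ ℤ} {χ : F → ZMod l} (hχ : IsPrim C D χ) :
    ∃ v ∈ lat (-D + N • ind S), TPos v ∧ χ v ≠ 0 := by
  classical
  have hp : ∀ w, 0 ≤ (N • ind S) w := fun w => nsmul_nonneg (ind_nonneg S w) N
  obtain ⟨c, hc⟩ := hne
  obtain ⟨x, hx, h0⟩ := hχ.prim c hc
  have h1 : x ∈ lat (-D + N • ind S) ⊔ lat (-D + ind C) := by
    rw [(hC F).2.1]
    refine lat_mono (fun w => ?_) hx
    rw [Finsupp.inf_apply]
    simp only [Finsupp.add_apply, Finsupp.sub_apply, Finsupp.smul_apply, ind_apply,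
      Finsupp.single_apply]
    by_cases hw : w ∈ C
    · rw [if_neg (Finset.disjoint_right.1 hd hw), if_pos hw]
      refine (min_le_left _ _).trans ?_
      split_ifs <;> simp
    · rw [if_neg hw, if_neg fun e : c = w => hw (e ▸ hc)]
      simp
  obtain ⟨v, hv, z, hz, rfl⟩ := AddSubgroup.mem_sup.1 h1
  have hv' : v ∈ lat (-D) := lat_mono (fun w => by simpa using hp w) hv
  obtain ⟨w, hw, hw'⟩ := exists_pos hB (-D + N • ind S + ind C)
  obtain ⟨K, hK⟩ := exists_nat v hw'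
  refine ⟨v + K • w, add_mem hv (nsmul_mem (lat_mono (fun u => by simp [ind_nonneg]) hw) K), hK, ?_⟩
  rw [prim_zero hχ hv' hz] at h0
  rwa [prim_zero hχ hv' (nsmul_mem (lat_mono (fun u => by simpa using hp u) hw) K)]

theorem prod_tau (g : F ≃+* F) (x : F) : ∏ φ : F →+* ℝ, φ (g x) = ∏ φ : F →+* ℝ, φ x :=
  Equiv.prod_comp (tau g) fun φ => φ x

theorem nmD_dv [IsTotallyReal F] (hA : NTA_st) {y : F} (h0 : y ≠ 0) (h : TPos y) :
    nmD (dv y) = ∏ φ : F →+* ℝ, φ y := by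
  rw [(hA F).2.2.2.1 y h0]
  exact Finset.prod_congr rfl fun φ _ => abs_of_pos (h φ)

/-- the data for the abstract congruence -/
noncomputable def sh [IsTotallyReal F] [Fact l.Prime] (hA : NTA_st) (hB : NTB_st) (hC : NTC_st)
    (hX : CHAR_st) (T : Dt F) [Finite T.Γ] (hN : 0 < T.N) (hd : Disjoint T.S T.C)
    (hne : T.C.Nonempty) (hl : ∀ c ∈ T.C, (l : 𝓞 F) ∈ c.asIdeal)
    (hc : (Nat.card T.Γ).Coprime l) : Sh (F →+* ℝ) F T.G (T.Q l) l where
  e := AddMonoidHom.mk' (fun x φ => φ x) fun x y => funext fun φ => map_add φ x y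
  e_inj x y h := by
    obtain ⟨φ⟩ := (hA F).1
    exact φ.injective (congrFun h φ)
  mon a := ⟨tau a.1.g, fun φ => φ a.1.y, a.2.1.2.1, fun v φ => map_mul φ _ _⟩
  M q := lat (-q.1.1)
  Λ q := lat (-q.1.1 + T.N • ind T.S)
  X q := {x | x ∈ lat (-q.1.1) ∧ Ray T.S T.N x}
  χ q := q.1.2
  nm q := nmD q.1.1
  N := T.NN
  Γ := T.ΓΓ
  o := 1
  Λ_le q := lat_mono fun w => by simpa using nsmul_nonneg (ind_nonneg T.S w) T.N
  X_sub q x hx := ⟨hx.1, hx.2.2.1⟩
  X_add q x hx v hv h := by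
    refine ⟨add_mem hx.1 (lat_mono (fun w => by
      simpa using nsmul_nonneg (ind_nonneg T.S w) T.N) hv), fun e => ?_, h, fun w hw => ?_⟩
    · obtain ⟨φ⟩ := (hA F).1
      have h1 : 0 < φ (x + v) := h φ
      rw [e, map_zero] at h1
      exact lt_irrefl _ h1
    · rw [add_sub_right_comm]
      refine Valuation.map_add_le _ (hx.2.2.2 w hw) ((hv w).trans_eq ?_)
      simp [q.2.1 w hw, ind_apply, hw]
  χ_add q := q.2.2.add
  smul_M a q v hv := (key0 a.1 _ v).2 hv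
  smul_Λ a q v hv := (key a.1 _ (fun w => by
    rw [Finsupp.smul_apply, Finsupp.smul_apply, ind_act (T.hS _ a.2.2)]) v).2 hv
  smul_X a q v hv := ⟨(key0 a.1 _ v).2 hv.1, T.mul _ _ a.2.1 (ray_act (T.hS _ a.2.2) hv.2)⟩
  smul_χ a q v _ := congrArg q.1.2 (inv_smul_smul a.1 v)
  nm_pos q := nmD_pos _
  smul_nm a q x _ := by
    change nmD (sD a.1 q.1.1) * ∏ φ : F →+* ℝ, φ (a.1.y * a.1.g x) =
      nmD q.1.1 * ∏ φ : F →+* ℝ, φ x
    simp only [map_mul, Finset.prod_mul_distrib]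
    rw [prod_tau, ← nmD_dv hA a.1.h a.2.1.2.1, ← mul_assoc, nmD_sD]
  fin_Γ := Finite.of_equiv _ T.eΓ
  cop := Nat.card_congr T.eΓ ▸ hc
  Γ_o a ha := by
    change a.1.y * a.1.g 1 = 1
    rw [show a.1.y = 1 from ha, map_one, mul_one]
  normal := NN_normal T
  dec a := ⟨T.mu a.2.1, rfl, (T.eΓ ⟨a.1.g, a.2.2⟩).1, (T.eΓ _).2,
    Subtype.ext (Af.ext (mul_one _).symm (one_mul _).symm)⟩
  free a ha v hv h := by
    obtain ⟨φ⟩ := (hA F).1
    have h1 : 0 < φ v := hv φ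
    have h2 : a.1.y * a.1.g v = v := h
    rw [show a.1.g = 1 from ha] at h2
    exact Subtype.ext (Af.ext ((mul_eq_right₀ fun e => by
      rw [show v = 0 from e, map_zero] at h1
      exact lt_irrefl _ h1).1 h2) ha)
  trans q x hx := ⟨T.mu (T.inv x hx.2), rfl, inv_mul_cancel₀ hx.2.1⟩
  fin_Q := by
    obtain ⟨T₀, h⟩ := (hB F).2.1 T.S T.N
    have h1 : {q : T.Q l | q.1.1 ∈ T₀}.Finite := by
      refine Set.Finite.of_finite_image (f := Subtype.val) ((T₀.finite_toSet.biUnion fun D _ =>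
        (hX F l T.C D hl).1.image fun χ => (D, χ)).subset ?_) Subtype.val_injective.injOn
      rintro _ ⟨q, hq, rfl⟩
      exact Set.mem_biUnion hq ⟨q.1.2, q.2.2, rfl⟩
    refine ⟨h1.toFinset, fun q => ?_⟩
    obtain ⟨x, hx, h2⟩ := h q.1.1 q.2.1
    refine ⟨T.mu hx, rfl, h1.mem_toFinset.2 ?_⟩
    change sD _ _ ∈ T₀
    rwa [sD_of_g rfl]
  lf q C := (hA F).2.1 _ C
  unit q := by
    classical
    obtain ⟨R, h⟩ := (hA F).2.2.1 (T.S ∪ T.C) T.N
    refine ⟨R, fun y hy => ?_⟩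
    obtain ⟨u, hu, h0, h1⟩ := h y hy
    have hu' : Ray T.S T.N u := ⟨hu.1, hu.2.1, fun v hv => hu.2.2 v (Finset.mem_union_left _ hv)⟩
    refine ⟨T.mu hu', rfl, (smul_eq_iff _ _).2 ⟨?_, prim_unit q.2.2 hN hu.1
      (fun v hv => hu.2.2 v (Finset.mem_union_right _ hv)) h0⟩, fun φ => φ u, hu.2.1, ?_,
      fun v φ => map_mul φ _ _, h1⟩
    · rw [sD_of_g rfl]
      exact sub_eq_self.2 h0
    · rw [← nmD_dv hA hu.1 hu.2.1, h0]
      exact Finsupp.prod_zero_index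
  good q := good hB hC T.N hd hne q.2.2

theorem one_mem_lat (D : Pr F →₀ ℤ) : (1 : F) ∈ lat (-D) ↔ 0 ≤ D :=
  forall_congr' fun w => by
    rw [map_one, ← WithZero.exp_zero, WithZero.exp_le_exp, Finsupp.neg_apply, neg_neg]
    rfl

/-- the pairs with an integral ideal -/
def eP (T : Dt F) (l : ℕ) :
    Pair l T.S T.C ≃ {q : T.Q l // (1 : F) ∈ {x | x ∈ lat (-q.1.1) ∧ Ray T.S T.N x}} where
  toFun q := ⟨⟨q.1, q.2.2⟩, (one_mem_lat _).2 q.2.1, ray_one _ _⟩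
  invFun q := ⟨q.1.1, (one_mem_lat _).1 q.2.1, q.1.2⟩
  left_inv _ := rfl
  right_inv _ := rfl

theorem fix_iff (T : Dt F) (q : T.Q l) : (∃ a ∈ T.ΓΓ, a ≠ 1 ∧ a • q = q) ↔
    ∃ g ∈ T.Γ, g ≠ 1 ∧ (∀ w, q.1.1 (act g w) = q.1.1 w) ∧ ∀ x, q.1.2 (g x) = q.1.2 x := by
  have key : ∀ a ∈ T.ΓΓ, a • q = q ↔
      (∀ w, q.1.1 (act a.1.g w) = q.1.1 w) ∧ ∀ x, q.1.2 (a.1.g x) = q.1.2 x := fun a ha => by
    have ha' : a.1.y = 1 := ha
    rw [smul_eq_iff, Finsupp.ext_iff, (act_surj a.1.g).forall]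
    simp only [sD_apply, smul_def, ha', ord_one, sub_zero, one_mul, eq_comm]
  constructor
  · rintro ⟨a, ha, h1, h2⟩
    exact ⟨a.1.g, a.2.2, fun e => h1 (Subtype.ext (Af.ext ha e)), (key a ha).1 h2⟩
  · rintro ⟨g, hg, h1, h2⟩
    exact ⟨(T.eΓ ⟨g, hg⟩).1, (T.eΓ _).2, fun e => h1 (congrArg (fun a : T.G => a.1.g) e),
      (key _ (T.eΓ _).2).2 h2⟩

end InstX

open InstX in
theorem scg (hS : SH_st) (hA : NTA_st) (hB : NTB_st) (hC : NTC_st) (hX : CHAR_st) : SCG_st := by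
  intro F _ _ _ Γ _ l _ S C N hN hd hne hl hc h1 h2
  classical
  obtain ⟨a1, a2, a3⟩ := (hB F).2.2.2.1 S N hN
  let T : Dt F := ⟨Γ, S, C, N, a1, a2, a3, h1, h2⟩
  have := (hA F).1
  obtain ⟨k, Z, hZ⟩ := hS _ _ _ _ l (sh hA hB hC hX T hN hd hne hl hc)
  refine ⟨k, fun r => (Z r).mapDomain fun q => q.1.1, fun r D hD => ?_, fun ψ hψ ζ hζ => ?_⟩
  · obtain ⟨q, -, rfl⟩ := Finset.mem_image.1 (Finsupp.mapDomain_support hD)
    exact q.2.1
  obtain ⟨f, f', σ₀, b1, b2, b3, b4⟩ := hZ (fun q => (chv ψ q.1.1 : ℂˣ)) (fun a ha q => by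
    rw [smul_fst, sD_of_g ha, sub_eq_add_neg, chv_add, chv_neg, hψ _ a.2.1, inv_one, mul_one]) ζ hζ
  have e1 : ∀ q : T.Q l, (sh hA hB hC hX T hN hd hne hl hc).nm q *
      ∏ i, (sh hA hB hC hX T hN hd hne hl hc).e (sh hA hB hC hX T hN hd hne hl hc).o i =
        nmD q.1.1 := fun q => by
    change nmD q.1.1 * ∏ φ : F →+* ℝ, φ 1 = _
    simp
  simp only [e1] at b3
  refine ⟨f, f', σ₀, b1, b2, fun s hs => ⟨(eP T l).hasSum_iff.2 (b3 s hs).1, ?_⟩, b4.trans ?_⟩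
  · convert (eP T l).hasSum_iff.2 (b3 s hs).2 using 2 with q
    exact if_congr (fix_iff T (eP T l q).1).symm rfl rfl
  · refine Finset.sum_congr rfl fun r _ => congrArg _ ?_
    rw [Finsupp.sum_mapDomain_index (by simp) (fun _ _ _ => by push_cast; ring)]
    refine Finsupp.sum_congr fun q _ => congrArg _ ?_
    refine (finsum_comp_equiv T.eΓ).symm.trans (finsum_congr fun g => ?_)
    have := chv_sD ψ (T.eΓ g).1.1 q.1.1
    rw [show (T.eΓ g).1.1.y = 1 from rfl, dv_one, chv_zero, mul_one] at this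
    exact congrArg Units.val this

end Pool.Agent.MP_f3cd89_nt
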