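import Pool.Agent.MP_f3cd89_nt.SStm

/-! The group of maps `v ↦ y * g v` and its action on pairs. -/

set_option autoImplicit false
set_option linter.unusedSectionVars false

open Finset NumberField IsDedekindDomain

namespace Pool.Agent.MP_f3cd89_nt.InstX

/-- the maps `v ↦ y * g v` -/
@[ext] structure Af (F : Type) [Field F] where
  y : F
  g : F ≃+* F
  h : y ≠ 0

variable {F : Type} [Field F]

instance : Group (Af F) where
  mul a b := ⟨a.y * a.g b.y, a.g * b.g, mul_ne_zero a.h ((map_ne_zero _).2 b.h)⟩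
  one := ⟨1, 1, one_ne_zero⟩
  inv a := ⟨(a.g⁻¹ a.y)⁻¹, a.g⁻¹, inv_ne_zero ((map_ne_zero _).2 a.h)⟩
  mul_assoc a b c := Af.ext (by
    change a.y * a.g b.y * a.g (b.g c.y) = a.y * a.g (b.y * b.g c.y)
    rw [map_mul, mul_assoc]) (mul_assoc _ _ _)
  one_mul a := Af.ext (one_mul _) (one_mul _)
  mul_one a := Af.ext (by
    change a.y * a.g 1 = a.y
    rw [map_one, mul_one]) (mul_one _)
  inv_mul_cancel a := Af.ext (inv_mul_cancel₀ ((map_ne_zero _).2 a.h)) (inv_mul_cancel _)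

theorem mul_y (a b : Af F) : (a * b).y = a.y * a.g b.y := rfl
theorem mul_g (a b : Af F) : (a * b).g = a.g * b.g := rfl
theorem one_y : (1 : Af F).y = 1 := rfl
theorem one_g : (1 : Af F).g = 1 := rfl
theorem inv_y (a : Af F) : a⁻¹.y = (a.g⁻¹ a.y)⁻¹ := rfl
theorem inv_g (a : Af F) : a⁻¹.g = a.g⁻¹ := rfl

instance : DistribMulAction (Af F) F where
  smul a v := a.y * a.g v
  one_smul v := one_mul v
  mul_smul a b v := by
    change a.y * a.g b.y * a.g (b.g v) = a.y * a.g (b.y * b.g v)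
    rw [map_mul, mul_assoc]
  smul_zero a := by
    change a.y * a.g 0 = 0
    rw [map_zero, mul_zero]
  smul_add a v w := by
    change a.y * a.g (v + w) = a.y * a.g v + a.y * a.g w
    rw [map_add, mul_add]

theorem smul_def (a : Af F) (v : F) : a • v = a.y * a.g v := rfl

/-- the permutation of the real places -/
def tau (g : F ≃+* F) : Equiv.Perm (F →+* ℝ) where
  toFun φ := φ.comp g
  invFun φ := φ.comp g.symm
  left_inv φ := by ext x; simp
  right_inv φ := by ext x; simp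

/-- the permutation of the primes -/
noncomputable def actE (g : F ≃+* F) : Pr F ≃ Pr F :=
  HeightOneSpectrum.equivOfRingEquiv (RingOfIntegers.mapRingEquiv g)

theorem act_surj (g : F ≃+* F) : Function.Surjective (act g) := (actE g).surjective

theorem act_inj (g : F ≃+* F) : Function.Injective (act g) := (actE g).injective

theorem act_mul (g g' : F ≃+* F) (w : Pr F) : act (g * g') w = act g (act g' w) :=
  HeightOneSpectrum.ext (Ideal.ext fun _ => Iff.rfl)

theorem act_one (w : Pr F) : act (1 : F ≃+* F) w = w :=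
  HeightOneSpectrum.ext (Ideal.ext fun _ => Iff.rfl)

variable [NumberField F]

/-- the action on divisors -/
noncomputable def sD (a : Af F) (D : Pr F →₀ ℤ) : Pr F →₀ ℤ :=
  Finsupp.equivMapDomain (actE a.g) D - dv a.y

theorem sD_apply (a : Af F) (D : Pr F →₀ ℤ) (w : Pr F) :
    sD a D (act a.g w) = D w - ord (act a.g w) a.y := by
  rw [sD, Finsupp.sub_apply, Finsupp.equivMapDomain_apply, dv_apply]
  exact congrArg (fun u => D u - _) ((actE a.g).symm_apply_apply w)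

theorem sD_one (D : Pr F →₀ ℤ) : sD 1 D = D := by
  ext w
  have := sD_apply 1 D w
  rwa [one_g, act_one, one_y, ord_one, sub_zero] at this

theorem sD_mul (a b : Af F) (D : Pr F →₀ ℤ) : sD (a * b) D = sD a (sD b D) := by
  ext v
  obtain ⟨w, rfl⟩ := act_surj (a * b).g v
  rw [sD_apply, mul_g, act_mul, sD_apply, sD_apply, mul_y, ord_mul _ a.h ((map_ne_zero _).2 b.h),
    ord_act]
  ring

theorem sD_of_g {a : Af F} (h : a.g = 1) (D : Pr F →₀ ℤ) : sD a D = D - dv a.y := by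
  ext w
  have := sD_apply a D w
  rwa [h, act_one] at this

theorem key (a : Af F) (D : Pr F →₀ ℤ) {E E' : Pr F →₀ ℤ} (h : ∀ w, E' (act a.g w) = E w)
    (v : F) : a • v ∈ lat (-sD a D + E') ↔ v ∈ lat (-D + E) := by
  rw [mem_lat, mem_lat, (act_surj a.g).forall]
  refine forall_congr' fun w => ?_
  rw [smul_def, map_mul, val_act, val_eq_exp _ a.h, Finsupp.add_apply, Finsupp.neg_apply, sD_apply,
    h, show -(-(D w - ord (act a.g w) a.y) + E w) = -ord (act a.g w) a.y + -((-D + E) w) by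
      rw [Finsupp.add_apply, Finsupp.neg_apply]; ring, WithZero.exp_add,
    mul_le_mul_iff_right₀ WithZero.exp_pos]

theorem key0 (a : Af F) (D : Pr F →₀ ℤ) (v : F) : a • v ∈ lat (-sD a D) ↔ v ∈ lat (-D) := by
  simpa only [add_zero] using key a D (E := 0) (E' := 0) (fun _ => rfl) v

open Classical in
theorem ind_apply (C : Finset (Pr F)) (w : Pr F) : ind C w = if w ∈ C then 1 else 0 := by
  simp [ind, Finsupp.finsetSum_apply, Finsupp.single_apply]

theorem ind_act {C : Finset (Pr F)} {g : F ≃+* F} (h : ∀ w, act g w ∈ C ↔ w ∈ C) (w : Pr F) :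
    ind C (act g w) = ind C w := by
  rw [ind_apply, ind_apply]
  by_cases hw : w ∈ C
  · rw [if_pos hw, if_pos ((h w).2 hw)]
  · rw [if_neg hw, if_neg fun e => hw ((h w).1 e)]

theorem ind_nonneg (C : Finset (Pr F)) (w : Pr F) : 0 ≤ ind C w := by
  rw [ind_apply]
  split_ifs <;> simp

theorem lat_mono {D E : Pr F →₀ ℤ} (h : ∀ w, D w ≤ E w) : lat E ≤ lat D := fun _ hx w =>
  (hx w).trans (WithZero.exp_le_exp.2 (neg_le_neg (h w)))

theorem prim_smul {l : ℕ} {C : Finset (Pr F)} (a : Af F) (h : ∀ w, act a.g w ∈ C ↔ w ∈ C)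
    {D : Pr F →₀ ℤ} {χ : F → ZMod l} (hχ : IsPrim C D χ) :
    IsPrim C (sD a D) fun x => χ (a⁻¹ • x) := by
  refine ⟨fun x hx y hy => ?_, fun x hx => hχ.out _ fun h' => hx ?_, fun x hx => hχ.kill _ ?_,
    fun c hc => ?_⟩
  · rw [smul_add]
    exact hχ.add _ ((key0 a D _).1 (by rwa [smul_inv_smul])) _
      ((key0 a D _).1 (by rwa [smul_inv_smul]))
  · rw [← smul_inv_smul a x]
    exact (key0 a D _).2 h'
  · exact (key a D (ind_act h) _).1 (by rwa [smul_inv_smul])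
  · obtain ⟨c, rfl⟩ := act_surj a.g c
    obtain ⟨x, hx, h0⟩ := hχ.prim c ((h c).1 hc)
    refine ⟨a • x, ?_, by rwa [inv_smul_smul]⟩
    rw [add_sub_assoc] at hx ⊢
    refine (key a D (fun w => ?_) x).2 hx
    rw [Finsupp.sub_apply, Finsupp.sub_apply, ind_act h, Finsupp.single_apply_left (act_inj a.g)]

theorem ray_act {S : Finset (Pr F)} {N : ℕ} {g : F ≃+* F} (h : ∀ w, act g w ∈ S ↔ w ∈ S) {x : F}
    (hx : Ray S N x) : Ray S N (g x) := by
  refine ⟨(map_ne_zero _).2 hx.1, fun φ => hx.2.1 (tau g φ), fun v hv => ?_⟩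
  obtain ⟨w, rfl⟩ := act_surj g v
  rw [← map_one g, ← map_sub, val_act]
  exact hx.2.2 w ((h w).1 hv)

theorem ray_one (S : Finset (Pr F)) (N : ℕ) : Ray S N (1 : F) :=
  ⟨one_ne_zero, fun φ => by simp, fun v _ => by simp⟩

theorem nrm_ne (v : Pr F) : (nrm v : ℝ) ≠ 0 := by
  have := two_le_nrm v
  positivity

theorem nmD_pos (D : Pr F →₀ ℤ) : 0 < nmD D :=
  Finset.prod_pos fun v _ => zpow_pos (lt_of_le_of_ne (Nat.cast_nonneg _) (nrm_ne v).symm) _

theorem nmD_add (D E : Pr F →₀ ℤ) : nmD (D + E) = nmD D * nmD E :=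
  Finsupp.prod_add_index' (fun _ => zpow_zero _) fun v _ _ => zpow_add₀ (nrm_ne v) _ _

theorem nmD_sD (a : Af F) (D : Pr F →₀ ℤ) : nmD (sD a D) * nmD (dv a.y) = nmD D := by
  rw [← nmD_add, sD, sub_add_cancel, nmD, Finsupp.prod_equivMapDomain]
  exact Finset.prod_congr rfl fun v _ => congrArg (fun n : ℕ => (n : ℝ) ^ D v) (absNorm_act a.g v)

theorem chv_sD (ψ : Pr F → ℂˣ) (a : Af F) (D : Pr F →₀ ℤ) :
    chv ψ (sD a D) * chv ψ (dv a.y) = chv (fun w => ψ (act a.g w)) D := by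
  rw [← chv_add, sD, sub_add_cancel, chv, Finsupp.prod_equivMapDomain]
  rfl

/-- the data and hypotheses of the congruence -/
structure Dt (F : Type) [Field F] [NumberField F] where
  Γ : Subgroup (F ≃+* F)
  S : Finset (Pr F)
  C : Finset (Pr F)
  N : ℕ
  mul : ∀ x y, Ray S N x → Ray S N y → Ray S N (x * y)
  inv : ∀ x, Ray S N x → Ray S N x⁻¹
  off : ∀ x, Ray S N x → dv x ∈ off S
  hS : ∀ g ∈ Γ, ∀ w, act g w ∈ S ↔ w ∈ S
  hC : ∀ g ∈ Γ, ∀ w, act g w ∈ C ↔ w ∈ C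

variable (T : Dt F)

/-- the group -/
def Dt.G : Subgroup (Af F) where
  carrier := {a | Ray T.S T.N a.y ∧ a.g ∈ T.Γ}
  one_mem' := ⟨ray_one _ _, one_mem _⟩
  mul_mem' ha hb := ⟨T.mul _ _ ha.1 (ray_act (T.hS _ ha.2) hb.1), mul_mem ha.2 hb.2⟩
  inv_mem' ha := ⟨T.inv _ (ray_act (T.hS _ (inv_mem ha.2)) ha.1), inv_mem ha.2⟩

/-- the pairs -/
def Dt.Q (l : ℕ) : Type :=
  {q : (Pr F →₀ ℤ) × (F → ZMod l) // q.1 ∈ MP_f3cd89_nt.off T.S ∧ IsPrim T.C q.1 q.2}

variable {T} {l : ℕ}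

noncomputable instance : MulAction T.G (T.Q l) where
  smul a q := ⟨(sD a.1 q.1.1, fun x => q.1.2 (a.1⁻¹ • x)), fun v hv => by
    obtain ⟨w, rfl⟩ := act_surj a.1.g v
    rw [sD_apply, q.2.1 w ((T.hS _ a.2.2 w).1 hv), ← dv_apply, T.off _ a.2.1 _ hv, sub_zero],
    prim_smul a.1 (T.hC _ a.2.2) q.2.2⟩
  one_smul q := Subtype.ext (Prod.ext (sD_one _) (funext fun x => congrArg q.1.2 (by
    change (1 : Af F)⁻¹ • x = x
    rw [inv_one, one_smul])))
  mul_smul a b q := Subtype.ext (Prod.ext (sD_mul _ _ _) (funext fun x => congrArg q.1.2 (by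
    change (a.1 * b.1)⁻¹ • x = b.1⁻¹ • a.1⁻¹ • x
    rw [mul_inv_rev, mul_smul])))

theorem smul_fst (a : T.G) (q : T.Q l) : (a • q).1.1 = sD a.1 q.1.1 := rfl

theorem smul_snd (a : T.G) (q : T.Q l) (x : F) : (a • q).1.2 x = q.1.2 (a.1⁻¹ • x) := rfl

theorem smul_eq_iff (a : T.G) (q : T.Q l) :
    a • q = q ↔ sD a.1 q.1.1 = q.1.1 ∧ ∀ x, q.1.2 (a.1 • x) = q.1.2 x := by
  constructor
  · intro h
    refine ⟨congrArg (fun q : T.Q l => q.1.1) h, fun x => ?_⟩
    conv_lhs => rw [← h, smul_snd, inv_smul_smul]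
  · rintro ⟨h1, h2⟩
    refine Subtype.ext (Prod.ext h1 (funext fun x => ?_))
    rw [smul_snd, ← h2, smul_inv_smul]

variable (T)

/-- the multiplications -/
def Dt.NN : Subgroup T.G where
  carrier := {a | a.1.g = 1}
  one_mem' := rfl
  mul_mem' {a b} ha hb := by
    change a.1.g * b.1.g = 1
    rw [show a.1.g = 1 from ha, show b.1.g = 1 from hb, mul_one]
  inv_mem' {a} ha := by
    change a.1.g⁻¹ = 1
    rw [show a.1.g = 1 from ha, inv_one]

/-- the automorphisms -/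
def Dt.ΓΓ : Subgroup T.G where
  carrier := {a | a.1.y = 1}
  one_mem' := rfl
  mul_mem' {a b} ha hb := by
    change a.1.y * a.1.g b.1.y = 1
    rw [show a.1.y = 1 from ha, show b.1.y = 1 from hb, map_one, mul_one]
  inv_mem' {a} ha := by
    change (a.1.g⁻¹ a.1.y)⁻¹ = 1
    rw [show a.1.y = 1 from ha, map_one, inv_one]

/-- the identification of the automorphisms -/
def Dt.eΓ : T.Γ ≃ T.ΓΓ where
  toFun g := ⟨⟨⟨1, g, one_ne_zero⟩, ray_one _ _, g.2⟩, rfl⟩
  invFun a := ⟨a.1.1.g, a.1.2.2⟩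
  left_inv _ := rfl
  right_inv a := Subtype.ext (Subtype.ext (Af.ext (Eq.symm a.2) rfl))

/-- multiplication by an element of the ray -/
def Dt.mu {y : F} (h : Ray T.S T.N y) : T.G := ⟨⟨y, 1, h.1⟩, h, one_mem _⟩

theorem mu_mem {y : F} (h : Ray T.S T.N y) : T.mu h ∈ T.NN := rfl

theorem mu_smul {y : F} (h : Ray T.S T.N y) (v : F) : T.mu h • v = y * v := rfl

theorem NN_normal : T.NN.Normal := ⟨fun n hn g => by
  change g.1.g * n.1.g * g.1.g⁻¹ = 1
  rw [show n.1.g = 1 from hn, mul_one, mul_inv_cancel]⟩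

end Pool.Agent.MP_f3cd89_nt.InstX
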