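import Pool.Agent.MP_f3cd89_nt.JbA

/-! Reduced norms satisfy the congruences. -/

set_option autoImplicit false
set_option linter.unusedSectionVars false
set_option linter.unusedVariables false

open Finset

namespace Pool.Agent.MP_f3cd89_nt

namespace JbX

variable {A : Type} [CommGroup A] {Δ : Dat A} {k : Type} [CommRing k]

lemma lam_mod (P : Pt Δ k) (n : ℕ) : lam P (n % P.d) = lam P n := by
  rw [← lam_add_mul P (n % P.d) (n / P.d), Nat.mod_add_div']

lemma W_mem (hW : WV_st) {d : ℕ} (b : MonoidAlgebra ℤ A) {e : ℤ} (hd : d ∣ Δ.m)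
    (he : (d : ℤ) ∣ e) : W d b e ∈ B Δ k := by
  have := add_mem (Bgt_le_B d (hW A Δ k d b e hd he)) (Vl_mem b hd he)
  rwa [sub_add_cancel] at this

lemma W_zero (d : ℕ) (e : ℤ) : (W d 0 e : Pt Δ k → k) = 0 := by
  funext P
  rw [W]
  split_ifs with h
  · refine sum_eq_zero fun i _ => prod_eq_zero (i := 0) (mem_range.2 ?_) (by simp)
    exact Nat.div_pos (Nat.le_of_dvd P.d_pos h) (Nat.pos_of_dvd_of_pos h P.d_pos)
  · rfl

lemma zpow_sum' {ι : Type} (s : Finset ι) (w : kˣ) (e : ι → ℤ) :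
    ∏ i ∈ s, ((w ^ e i : kˣ) : k) = ((w ^ ∑ i ∈ s, e i : kˣ) : k) := by
  classical
  induction s using Finset.induction_on with
  | empty => simp
  | insert a s ha ih => rw [prod_insert ha, sum_insert ha, ih, zpow_add, Units.val_mul]

variable {α T : Type} [Fintype α] [DecidableEq α] [Fintype T] (tb : T → α) (te : T → ℤ)
  (c : α → T → MonoidAlgebra ℤ A)

/-- a term of the expansion of the determinant -/
noncomputable def term (P : Pt Δ k) (f : α × ZMod P.d → T) : k :=
  (((Z (pm tb te f)).det : ℤ) : k) *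
    ∏ x, (lam P x.2.val (c x.1 (f x)) * ((P.ω ^ te (f x) : kˣ) : k))

lemma term_shift {d₀ : ℕ} [NeZero d₀] (f : α × ZMod d₀ → T) (P : Pt Δ k) (h : d₀ ∣ P.d) (u : ℕ) :
    term tb te c P (shift u (lift h f)) = (((Z (pm tb te (lift h f))).det : ℤ) : k) *
      ∏ t ∈ range (P.d / d₀), (lam P (u + t * d₀) (∏ y, sg Δ y.2.val (c y.1 (f y))) *
        ((P.ω ^ ∑ y, te (f y) : kˣ) : k)) := by
  rw [term, det_pm_shift]
  congr 1
  have h1 := prod_shift u (lift h f)
    (fun n a τ => lam P n (c a τ) * ((P.ω ^ te τ : kˣ) : k)) fun n => by simp only [lam_mod]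
  have h2 := prod_lift h f
    (fun n a τ => lam P (u + n) (c a τ) * ((P.ω ^ te τ : kˣ) : k)) fun n => by
      rw [← lam_mod P (u + n % P.d), Nat.add_mod_mod, lam_mod]
  rw [h1, h2]
  refine prod_congr rfl fun t _ => ?_
  rw [prod_mul_distrib, zpow_sum', map_prod]
  congr 1
  refine prod_congr rfl fun y _ => ?_
  rw [lam_sg]
  congr 2
  ring

open Classical in
lemma sum_term (hO : ORB_st) (hW : WV_st) :
    (fun P : Pt Δ k => ∑ f, term tb te c P f) ∈ B Δ k := by
  have : NeZero Δ.m := ⟨Δ.m_pos.ne'⟩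
  let g : (α × ZMod Δ.m → T) → Pt Δ k → k := fun y P =>
    ∑ f, if lift P.d_dvd f = y then term tb te c P f else 0
  have e : (fun P : Pt Δ k => ∑ f, term tb te c P f) = ∑ y, g y := by
    funext P
    rw [Finset.sum_apply, sum_comm]
    simp only [sum_ite_eq, mem_univ, if_true]
  rw [e]
  refine hO _ (B Δ k) _ (tau α T Δ.m) g fun y => ?_
  have hper := fun u => per_iff u y
  generalize Function.minimalPeriod (tau α T Δ.m) y = d₀ at hper ⊢
  have hd : d₀ ∣ Δ.m := (hper _).2 (shift_self y)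
  have : NeZero d₀ := ⟨(Nat.pos_of_dvd_of_pos hd Δ.m_pos).ne'⟩
  obtain ⟨f, rfl⟩ := exists_lift hd ((hper d₀).1 dvd_rfl)
  obtain ⟨u₀, v, hv, huv⟩ := det_pm_lift tb te f
  have e2 : ∑ u ∈ range d₀, g ((tau α T Δ.m ^ u) (lift hd f)) =
      u₀ • W d₀ (v • ∏ y, sg Δ y.2.val (c y.1 (f y))) (∑ y, te (f y)) := by
    funext P
    rw [Finset.sum_apply, Pi.smul_apply, W]
    simp only [tau_pow, g]
    split_ifs with h
    · rw [smul_sum]
      refine sum_congr rfl fun u _ => ?_
      rw [← lift_lift h P.d_dvd, shift_lift]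
      simp only [(lift_inj P.d_dvd).eq_iff, sum_ite_eq', mem_univ, if_true]
      rw [term_shift, huv]
      simp only [map_zsmul]
      simp only [zsmul_eq_mul, mul_assoc, prod_mul_distrib, prod_const, card_range,
        Int.cast_mul, Int.cast_pow]
    · rw [smul_zero]
      refine sum_eq_zero fun u hu => sum_eq_zero fun f' _ => if_neg fun e => h ((hper _).2 ?_)
      have h1 : shift P.d (shift u (lift hd f)) = shift u (lift hd f) := by
        rw [← e, shift_lift, shift_self]
      rw [shift_shift, add_comm, ← shift_shift, ← tau_pow u, ← tau_pow u] at h1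
      exact (tau α T Δ.m ^ u).injective h1
  rw [e2]
  refine zsmul_mem ?_ _
  by_cases h0 : v = 0
  · rw [h0, zero_smul, W_zero]
    exact zero_mem _
  · exact W_mem hW _ hd (hv h0)

end JbX

open JbX in
theorem jb (hO : ORB_st) (hB : BASE_st) (hW : WV_st) : JB_st := by
  classical
  intro A _ Δ k _
  refine (AddSubgroup.closure_le _).2 ?_
  rintro _ ⟨r, H, rfl⟩
  let E : Finset ℤ := univ.biUnion fun x : Fin r × Fin r => (H x.1 x.2).support
  have e : (Dt H : Pt Δ k → k) = fun P => ∑ f, term (T := Fin r × E) Prod.fst (fun τ => τ.2.1)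
      (fun a τ => H a τ.1 τ.2.1) P f := by
    funext P
    refine Eq.trans (congrArg Matrix.det ?_) (det_rows
      (fun (x : Fin r × ZMod P.d) (τ : Fin r × E) =>
        lam P x.2.val (H x.1 τ.1 τ.2.1) * ((P.ω ^ τ.2.1 : kˣ) : k))
      fun x τ => (τ.1, x.2 + (τ.2.1 : ZMod P.d)))
    ext x y
    simp only [Matrix.of_apply, rho, rhoG]
    rw [Finsupp.sum_of_support_subset (s := E) _ (subset_biUnion_of_mem
      (fun x : Fin r × Fin r => (H x.1 x.2).support) (mem_univ (x.1, y.1))) _ (by simp),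
      Fintype.sum_prod_type, sum_eq_single y.1 (fun b _ hb => ?_) (by simp), ← sum_coe_sort E]
    · refine sum_congr rfl fun e _ => if_congr ?_ rfl rfl
      simp [Prod.ext_iff]
    · exact sum_eq_zero fun e _ => if_neg fun h => hb (congrArg Prod.fst h).symm
  rw [SetLike.mem_coe, e]
  exact sum_term _ _ _ hO hW

end Pool.Agent.MP_f3cd89_nt
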