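import Pool.Agent.MP_f3cd89_nt.AStm

/-! Determinants of matrices attached to self-maps of finite sets. -/

set_option autoImplicit false
set_option linter.unusedSectionVars false

open Finset

namespace Pool.Agent.MP_f3cd89_nt.JbX

section
variable {X X' : Type} [Fintype X] [DecidableEq X] [Fintype X'] [DecidableEq X']

/-- the matrix of a self-map -/
def Z (π : X → X) : Matrix X X ℤ := Matrix.of fun x y => if y = π x then 1 else 0

lemma Z_comp (π ρ : X → X) : Z (fun x => ρ (π x)) = Z π * Z ρ := by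
  ext x z
  simp only [Z, Matrix.mul_apply, Matrix.of_apply, ite_mul, one_mul, zero_mul, sum_ite_eq',
    mem_univ, if_true]

lemma det_Z_perm (σ : Equiv.Perm X) : (Z σ).det = Equiv.Perm.sign σ := by
  have e : Z σ = σ.permMatrix ℤ := by
    ext x y
    simp [Z, Equiv.Perm.permMatrix, PEquiv.toMatrix_apply, eq_comm]
  rw [e, Matrix.det_permutation]
  rfl

lemma det_Z_conj (e : X ≃ X') (π : X → X) (π' : X' → X') (h : ∀ x, π' (e x) = e (π x)) :
    (Z π').det = (Z π).det := by
  rw [← Matrix.det_submatrix_equiv_self e]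
  congr 1
  ext x y
  simp [Z, h]

lemma bij_of_det {π : X → X} (h : (Z π).det ≠ 0) : Function.Bijective π := by
  refine Finite.surjective_iff_bijective.1 fun y => ?_
  by_contra hc
  refine h (Matrix.det_eq_zero_of_column_eq_zero y fun x => ?_)
  exact if_neg fun e => hc ⟨x, e.symm⟩

lemma det_shift (R : ℕ) [NeZero R] (κ : ℤ) :
    (Z fun t : ZMod R => t + κ).det = (((-1 : ℤˣ) ^ κ : ℤˣ) : ℤ) ^ (R + 1) := by
  obtain ⟨n, rfl⟩ := Nat.exists_eq_succ_of_ne_zero (NeZero.ne R)
  have e1 : (Equiv.addRight (1 : ZMod (n + 1)) : Equiv.Perm (ZMod (n + 1))) = finRotate (n + 1) :=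
    Equiv.ext fun i => (finRotate_apply i).symm
  have e2 : Equiv.Perm.sign (Equiv.addRight (1 : ZMod (n + 1))) = (-1) ^ n := by
    rw [e1]
    exact sign_finRotate (n + 1)
  have e3 : (fun t : ZMod (n + 1) => t + κ) = (Equiv.addRight (1 : ZMod (n + 1)) ^ κ :) := by
    have h : ∀ z : ℤ, Equiv.addRight (1 : ZMod (n + 1)) ^ z = Equiv.addRight (z • 1) :=
      fun z => by cases z <;> simp
    rw [h]
    funext t
    simp
  rw [e3, det_Z_perm, map_zpow, e2, ← Units.val_pow_eq_pow_val, ← zpow_natCast, ← zpow_natCast,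
    ← zpow_mul, ← zpow_mul, mul_comm, zpow_mul, zpow_mul, zpow_natCast, zpow_natCast,
    Nat.succ_eq_add_one, pow_succ, pow_succ, mul_assoc, Int.units_mul_self, mul_one]

lemma det_skew (R : ℕ) [NeZero R] (π : X → X) (κ : X → ℤ) :
    (Z fun z : ZMod R × X => (z.1 + κ z.2, π z.2)).det =
      (∏ x, (((-1 : ℤˣ) ^ κ x : ℤˣ) : ℤ)) *
        ((∏ x, (((-1 : ℤˣ) ^ κ x : ℤˣ) : ℤ)) * (Z π).det) ^ R := by
  have e := Z_comp (fun z : ZMod R × X => (z.1 + κ z.2, z.2)) fun z => (z.1, π z.2)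
  have e1 : (Z fun z : ZMod R × X => (z.1 + κ z.2, z.2)) =
      Matrix.blockDiagonal fun x => Z fun t : ZMod R => t + κ x := by
    ext ⟨t, x⟩ ⟨t', x'⟩
    simp only [Z, Matrix.of_apply, Matrix.blockDiagonal_apply, Prod.mk.injEq]
    by_cases h : x = x'
    · simp [h]
    · simp [h, Ne.symm h]
  have e2 : (Z fun z : ZMod R × X => (z.1, π z.2)) =
      Matrix.kroneckerMap (· * ·) (1 : Matrix (ZMod R) (ZMod R) ℤ) (Z π) := by
    ext ⟨t, x⟩ ⟨t', x'⟩
    simp only [Z, Matrix.of_apply, Matrix.kroneckerMap_apply, Prod.mk.injEq, Matrix.one_apply]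
    by_cases h : t = t'
    · simp [h]
    · simp [h, Ne.symm h]
  rw [e, Matrix.det_mul, e1, e2, Matrix.det_blockDiagonal, Matrix.det_kronecker, Matrix.det_one,
    one_pow, one_mul, ZMod.card]
  simp only [det_shift]
  rw [prod_pow, pow_succ, mul_pow]
  ring

lemma det_rows {k T : Type} [CommRing k] [Fintype T] (c : X → T → k) (π : X → T → X) :
    (Matrix.of fun x y => ∑ τ, if y = π x τ then c x τ else 0).det =
      ∑ f : X → T, (((Z fun x => π x (f x)).det : ℤ) : k) * ∏ x, c x (f x) := by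
  have e : (Matrix.of fun x y => ∑ τ, if y = π x τ then c x τ else 0) =
      fun x => ∑ τ, c x τ • fun y => if y = π x τ then (1 : k) else 0 := by
    ext x y
    simp [Finset.sum_apply]
  rw [e]
  refine ((Matrix.detRowAlternating (n := X) (R := k)).toMultilinearMap.map_sum _).trans ?_
  refine sum_congr rfl fun f _ => ?_
  rw [MultilinearMap.map_smul_univ, smul_eq_mul, mul_comm, Int.cast_det]
  refine congrArg (· * _) (congrArg Matrix.det ?_)
  ext x y
  simp [Z]

end

section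
variable (d₀ R : ℕ) [NeZero d₀] [NeZero R]

/-- division with remainder -/
def phi (t : ZMod R) (j : ZMod d₀) : ZMod (R * d₀) := ((j.val + t.val * d₀ : ℕ) : ZMod (R * d₀))

lemma phi_add (t : ZMod R) (j : ZMod d₀) (e : ℤ) :
    phi d₀ R t j + e = phi d₀ R (t + ((j.val + e) / d₀ : ℤ)) (j + e) := by
  have h1 : (((j + e).val : ℕ) : ℤ) = (j.val + e) % d₀ := by
    rw [← ZMod.val_intCast]
    simp
  have h2 : (((t + ((j.val + e) / d₀ : ℤ)).val : ℕ) : ℤ) = (t.val + (j.val + e) / d₀) % R := by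
    rw [← ZMod.val_intCast]
    simp
  unfold phi
  rw [← Int.cast_natCast, ← Int.cast_natCast (R := ZMod (R * d₀)) (_ + _), ← Int.cast_add,
    ZMod.intCast_eq_intCast_iff_dvd_sub]
  push_cast
  rw [h1, h2]
  refine ⟨-((t.val + (j.val + e) / d₀) / R), ?_⟩
  have a1 := Int.emod_add_mul_ediv ((j.val : ℤ) + e) d₀
  have a2 := Int.emod_add_mul_ediv ((t.val : ℤ) + (j.val + e) / d₀) R
  linear_combination a1 + d₀ * a2

lemma cast_phi (h : d₀ ∣ R * d₀) (t : ZMod R) (j : ZMod d₀) :
    ZMod.castHom h (ZMod d₀) (phi d₀ R t j) = j := by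
  unfold phi
  rw [map_natCast]
  simp

variable (α : Type) [Fintype α] [DecidableEq α]

/-- division with remainder, with a parameter -/
noncomputable def Phi : ZMod R × (α × ZMod d₀) ≃ α × ZMod (R * d₀) :=
  Equiv.ofBijective (fun z => (z.2.1, phi d₀ R z.1 z.2.2)) <| by
    refine (Fintype.bijective_iff_surjective_and_card _).2 ⟨fun x => ?_, by simp; ring⟩
    obtain ⟨e, he⟩ := ZMod.intCast_surjective x.2
    have h := phi_add d₀ R 0 0 e
    have h0 : phi d₀ R 0 0 = 0 := by simp [phi]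
    rw [h0, zero_add, he] at h
    exact ⟨(_, x.1, _), Prod.ext rfl h.symm⟩

lemma Phi_apply (z : ZMod R × (α × ZMod d₀)) :
    Phi d₀ R α z = (z.2.1, phi d₀ R z.1 z.2.2) := rfl

end

section
variable {α T : Type} [Fintype α] [DecidableEq α] (tb : T → α) (te : T → ℤ)

/-- the self-map attached to a choice of terms -/
def pm {d : ℕ} (f : α × ZMod d → T) (x : α × ZMod d) : α × ZMod d :=
  (tb (f x), x.2 + te (f x))

/-- pull back along the reduction map -/
def lift {d m : ℕ} (h : d ∣ m) (f : α × ZMod d → T) (x : α × ZMod m) : T :=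
  f (x.1, ZMod.castHom h (ZMod d) x.2)

/-- translation -/
def shift {d : ℕ} (u : ℕ) (f : α × ZMod d → T) (x : α × ZMod d) : T := f (x.1, x.2 - u)

lemma det_pm_shift {d : ℕ} [NeZero d] (u : ℕ) (f : α × ZMod d → T) :
    (Z (pm tb te (shift u f))).det = (Z (pm tb te f)).det := by
  refine det_Z_conj (Equiv.prodCongr (Equiv.refl α) (Equiv.addRight (u : ZMod d))) _ _ fun x => ?_
  simp [pm, shift, add_right_comm]

lemma det_pm_lift {d₀ : ℕ} [NeZero d₀] (f : α × ZMod d₀ → T) :
    ∃ u v : ℤ, (v ≠ 0 → (d₀ : ℤ) ∣ ∑ x, te (f x)) ∧ ∀ (d : ℕ) [NeZero d] (h : d₀ ∣ d),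
      (Z (pm tb te (lift h f))).det = u * v ^ (d / d₀) := by
  let κ : α × ZMod d₀ → ℤ := fun x => (x.2.val + te (f x)) / d₀
  refine ⟨∏ x, (((-1 : ℤˣ) ^ κ x : ℤˣ) : ℤ),
    (∏ x, (((-1 : ℤˣ) ^ κ x : ℤˣ) : ℤ)) * (Z (pm tb te f)).det, fun hv => ?_, fun d _ h => ?_⟩
  · have hb := bij_of_det (right_ne_zero_of_mul hv)
    have h1 := hb.sum_comp fun x => x.2
    simp only [pm, sum_add_distrib, add_eq_left] at h1
    rw [← ZMod.intCast_zmod_eq_zero_iff_dvd, Int.cast_sum, h1]
  · obtain ⟨R, rfl⟩ := exists_eq_mul_left_of_dvd h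
    have : NeZero R := ⟨left_ne_zero_of_mul (NeZero.ne (R * d₀))⟩
    rw [Nat.mul_div_cancel _ (NeZero.pos d₀), ← det_skew]
    refine det_Z_conj (Phi d₀ R α) _ _ fun z => ?_
    simp only [Phi_apply, pm, lift, cast_phi, phi_add, κ]

lemma prod_lift {M : Type} [CommMonoid M] {d₀ d : ℕ} [NeZero d₀] [NeZero d] (h : d₀ ∣ d)
    (f : α × ZMod d₀ → T) (G : ℕ → α → T → M) (hG : ∀ n, G (n % d) = G n) :
    ∏ x : α × ZMod d, G x.2.val x.1 (lift h f x) =
      ∏ t ∈ range (d / d₀), ∏ y : α × ZMod d₀, G (y.2.val + t * d₀) y.1 (f y) := by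
  obtain ⟨R, rfl⟩ := exists_eq_mul_left_of_dvd h
  have : NeZero R := ⟨left_ne_zero_of_mul (NeZero.ne (R * d₀))⟩
  rw [Nat.mul_div_cancel _ (NeZero.pos d₀), ← (Phi d₀ R α).prod_comp, Fintype.prod_prod_type]
  simp only [Phi_apply, lift, cast_phi]
  simp only [phi, ZMod.val_natCast, hG]
  obtain ⟨n, rfl⟩ := Nat.exists_eq_succ_of_ne_zero (NeZero.ne R)
  exact Fin.prod_univ_eq_prod_range
    (fun t => ∏ y : α × ZMod d₀, G (y.2.val + t * d₀) y.1 (f y)) (n + 1)

lemma prod_shift {M : Type} [CommMonoid M] {d : ℕ} [NeZero d] (u : ℕ)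
    (f : α × ZMod d → T) (G : ℕ → α → T → M) (hG : ∀ n, G (n % d) = G n) :
    ∏ x : α × ZMod d, G x.2.val x.1 (shift u f x) =
      ∏ x : α × ZMod d, G (u + x.2.val) x.1 (f x) := by
  rw [← (Equiv.prodCongr (Equiv.refl α) (Equiv.addRight (u : ZMod d))).prod_comp]
  refine prod_congr rfl fun x _ => ?_
  have e : ((x.2 + u : ZMod d)).val = (u + x.2.val) % d := by
    rw [← ZMod.val_natCast]
    simp [add_comm]
  simp [shift, e, hG]

lemma lift_inj {d m : ℕ} (h : d ∣ m) : Function.Injective (lift (α := α) (T := T) h) := by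
  intro f g e
  funext x
  obtain ⟨i, hi⟩ := ZMod.castHom_surjective h x.2
  have := congrFun e (x.1, i)
  simpa only [lift, hi] using this

lemma lift_lift {d₀ d m : ℕ} (h : d₀ ∣ d) (h' : d ∣ m) (f : α × ZMod d₀ → T) :
    lift h' (lift h f) = lift (h.trans h') f := by
  funext x
  simp only [lift]
  rw [← ZMod.castHom_comp h h']
  rfl

lemma shift_lift {d m : ℕ} (h : d ∣ m) (u : ℕ) (f : α × ZMod d → T) :
    shift u (lift h f) = lift h (shift u f) := by
  funext x
  simp only [lift, shift, map_sub, map_natCast]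

lemma shift_shift {d : ℕ} (u v : ℕ) (f : α × ZMod d → T) :
    shift u (shift v f) = shift (u + v) f := by
  funext x
  simp only [shift, Nat.cast_add, sub_sub]

lemma shift_self {d : ℕ} (f : α × ZMod d → T) : shift d f = f := by
  funext x
  simp [shift]

lemma exists_lift {d m : ℕ} [NeZero d] [NeZero m] (h : d ∣ m) {g : α × ZMod m → T}
    (hg : shift d g = g) : ∃ f, lift h f = g := by
  have h1 : ∀ q : ℕ, shift (q * d) g = g := fun q => by
    induction q with
    | zero => funext x; simp [shift]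
    | succ q ih => rw [Nat.succ_mul, ← shift_shift, hg, ih]
  refine ⟨fun x => g (x.1, (x.2.val : ZMod m)), funext fun x => ?_⟩
  rw [← congrFun (h1 (x.2.val / d)) x]
  simp only [lift, shift]
  congr 2
  rw [ZMod.castHom_apply, ZMod.cast_eq_val, ZMod.val_natCast, eq_sub_iff_add_eq, ← Nat.cast_add,
    Nat.mod_add_div', ZMod.natCast_zmod_val]

variable (α T) in
/-- translation by one -/
def tau (m : ℕ) : Equiv.Perm (α × ZMod m → T) where
  toFun := shift 1
  invFun g x := g (x.1, x.2 + 1)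
  left_inv g := by funext x; simp [shift]
  right_inv g := by funext x; simp [shift]

lemma tau_pow {m : ℕ} (u : ℕ) (g : α × ZMod m → T) : (tau α T m ^ u) g = shift u g := by
  induction u with
  | zero => funext x; simp [shift]
  | succ u ih =>
    rw [pow_succ', Equiv.Perm.mul_apply, ih, add_comm, ← shift_shift]
    rfl

lemma per_iff {m : ℕ} (u : ℕ) (g : α × ZMod m → T) :
    Function.minimalPeriod (tau α T m) g ∣ u ↔ shift u g = g := by
  rw [← Function.isPeriodicPt_iff_minimalPeriod_dvd, ← tau_pow, Equiv.Perm.coe_pow]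
  rfl

end

end Pool.Agent.MP_f3cd89_nt.JbX
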