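import Pool.Agent.MP_f3cd89_nt.AStm

set_option autoImplicit false
set_option linter.unusedSectionVars false

open Finset

namespace Pool.Agent.MP_f3cd89_nt

namespace KerX

variable {A : Type} [CommGroup A] {Δ : Dat A}

/-- the linear extension of a function on the group -/
noncomputable def L {M : Type} [AddCommGroup M] (v : A → M) : MonoidAlgebra ℤ A →+ M :=
  AddMonoidHom.mk' (fun b => b.coeff.sum fun a z => z • v a) fun b b' => by
    rw [MonoidAlgebra.coeff_add]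
    exact Finsupp.sum_add_index' (fun _ => zero_smul _ _) fun _ _ _ => add_smul _ _ _

theorem L_single {M : Type} [AddCommGroup M] (v : A → M) (a : A) (z : ℤ) :
    L v (MonoidAlgebra.single a z) = z • v a := by
  change (MonoidAlgebra.single a z).coeff.sum (fun a z => z • v a) = _
  rw [MonoidAlgebra.coeff_single]
  exact Finsupp.sum_single_index (zero_smul _ _)

theorem shift {M : Type} [AddCommGroup M] (m : ℕ) (g : ℕ → M) (hg : ∀ i, g (i + m) = g i)
    (j : ℕ) : ∑ i ∈ range m, g (i + j) = ∑ i ∈ range m, g i := by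
  induction j with
  | zero => simp
  | succ j ih =>
    have h1 := sum_range_succ (fun i => g (i + j)) m
    have h2 := sum_range_succ' (fun i => g (i + j)) m
    rw [h1, add_comm m j, hg, zero_add, ih] at h2
    rw [add_right_cancel h2]
    refine sum_congr rfl fun i _ => ?_
    congr 1; ring

theorem pow_add_m (i : ℕ) : Δ.σ ^ (i + Δ.m) = Δ.σ ^ i := by
  rw [pow_add, Δ.σ_pow, mul_one]

theorem sg_trc (i : ℕ) (b : MonoidAlgebra ℤ A) : sg Δ i (trc Δ Δ.m b) = trc Δ Δ.m b := by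
  unfold trc
  rw [map_sum]
  simp_rw [sg_sg]
  rw [← shift Δ.m (fun j => sg Δ j b) (fun j => by simp only [sg, pow_add_m]) i]
  refine sum_congr rfl fun j _ => ?_
  rw [add_comm]

theorem trc_mul (b : MonoidAlgebra ℤ A) (q : ℕ) :
    trc Δ Δ.m (b * trc Δ Δ.m b ^ q) = trc Δ Δ.m b ^ (q + 1) := by
  rw [pow_succ']
  conv_lhs => unfold trc
  conv_rhs => arg 1; unfold trc
  rw [sum_mul]
  refine sum_congr rfl fun i _ => ?_
  rw [map_mul, map_pow]
  congr 2
  exact sg_trc i b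

theorem frob (p n : ℕ) (hp : p.Prime) (h : ∀ a : A, a ^ p ^ n = a) (x : MonoidAlgebra ℤ A) :
    (p : MonoidAlgebra ℤ A) ∣ x ^ p ^ n - x := by
  induction x using MonoidAlgebra.induction_on with
  | of a => rw [← map_pow, h, sub_self]; exact dvd_zero _
  | add x y hx hy =>
    obtain ⟨r, hr⟩ := exists_add_pow_prime_pow_eq hp x y n
    have : (x + y) ^ p ^ n - (x + y) = (x ^ p ^ n - x) + (y ^ p ^ n - y) + p * (x * y * r) := by
      rw [hr]; ring
    rw [this]
    exact dvd_add (dvd_add hx hy) (dvd_mul_right _ _)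
  | smul z x hx =>
    have := Fact.mk hp
    have hz : (p : ℤ) ∣ z ^ p ^ n - z := by
      rw [← ZMod.intCast_zmod_eq_zero_iff_dvd]
      push_cast
      rw [ZMod.pow_card_pow, sub_self]
    obtain ⟨u, hu⟩ := hz
    have hu' : (z : MonoidAlgebra ℤ A) ^ p ^ n - z = p * u := by
      exact_mod_cast congrArg (Int.cast : ℤ → MonoidAlgebra ℤ A) hu
    have : (z • x) ^ p ^ n - z • x = (z : MonoidAlgebra ℤ A) ^ p ^ n * (x ^ p ^ n - x) +
        ((z : MonoidAlgebra ℤ A) ^ p ^ n - z) * x := by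
      rw [zsmul_eq_mul, mul_pow]; ring
    rw [this, hu']
    exact dvd_add (dvd_mul_of_dvd_right hx _) (dvd_mul_of_dvd_left (dvd_mul_right _ _) _)

variable (Δ) in
/-- a representative of the orbit -/
noncomputable def rp (a : A) : A := Classical.epsilon fun b => ∃ j : ℕ, (Δ.σ ^ j) a = b

theorem rp_spec (a : A) : ∃ j : ℕ, (Δ.σ ^ j) a = rp Δ a :=
  Classical.epsilon_spec (p := fun b => ∃ j : ℕ, (Δ.σ ^ j) a = b) ⟨a, 0, by simp⟩

theorem rp_σ (a : A) : rp Δ (Δ.σ a) = rp Δ a := by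
  unfold rp
  congr 1
  funext b
  apply propext
  constructor
  · rintro ⟨j, rfl⟩
    exact ⟨j + 1, by rw [pow_succ, MulAut.mul_apply]⟩
  · rintro ⟨j, rfl⟩
    refine ⟨j + (Δ.m - 1), ?_⟩
    rw [← MulAut.mul_apply, ← pow_succ, add_assoc, Nat.sub_add_cancel Δ.m_pos, pow_add_m]

theorem inv_pow {M : Type} (v : A → M) (hv : ∀ a, v (Δ.σ a) = v a) (i : ℕ) (a : A) :
    v ((Δ.σ ^ i) a) = v a := by
  induction i with
  | zero => simp
  | succ i ih => rw [pow_succ', MulAut.mul_apply, hv, ih]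

theorem fix_iff (i : ℕ) (a : A) :
    (Δ.σ ^ i) a = a ↔ Function.minimalPeriod Δ.σ a ∣ i := by
  have h : (Δ.σ ^ i) a = (⇑Δ.σ)^[i] a := by
    induction i with
    | zero => simp
    | succ i ih => rw [pow_succ', MulAut.mul_apply, Function.iterate_succ_apply', ih]
  rw [← Function.isPeriodicPt_iff_minimalPeriod_dvd, Function.IsPeriodicPt, Function.IsFixedPt, h]

open Classical in
theorem count {M : Type} [AddCommGroup M] (a : A) (x : M) :
    ∑ i ∈ range Δ.m, (if (Δ.σ ^ i) a = a then x else 0) =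
      (Δ.m / Function.minimalPeriod Δ.σ a) • x := by
  rw [← shift Δ.m (fun i => if (Δ.σ ^ i) a = a then x else 0)
    (fun i => by simp only [pow_add_m]) 1, ← sum_filter, sum_const, ← Nat.card_multiples]
  congr 2
  refine filter_congr fun i _ => fix_iff _ _

theorem exw (p n : ℕ) (hp : p.Prime) (hn : 0 < n) (h : ∀ a : A, a ^ p ^ n = a)
    {M : Type} [AddCommGroup M] (v : A → M) (hM : ∀ x : M, p • x = 0)
    (hv : ∀ a, v (Δ.σ a) = v a) (h0 : p ∣ Δ.m → ∀ a, v (ver Δ (Δ.m / p) p a) = 0) :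
    ∃ w : A → M, ∀ a, ∑ i ∈ range Δ.m, w ((Δ.σ ^ i) a) = v a := by
  classical
  have hc : ∀ a : A, ∃ c : ℤ, (Δ.m / Function.minimalPeriod Δ.σ a) • c • v a = v a := by
    intro a
    set o := Function.minimalPeriod Δ.σ a with ho
    have hom : o ∣ Δ.m := (fix_iff _ _).1 (by rw [Δ.σ_pow]; rfl)
    by_cases hd : p ∣ Δ.m / o
    · have hpm : p ∣ Δ.m := hd.trans (Nat.div_dvd_of_dvd hom)
      have hop : o ∣ Δ.m / p := by
        rw [Nat.dvd_div_iff_mul_dvd hpm, mul_comm, ← Nat.dvd_div_iff_mul_dvd hom]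
        exact hd
      have hv0 : v a = 0 := by
        have h1 := h0 hpm (a ^ p ^ (n - 1))
        have h2 : ver Δ (Δ.m / p) p (a ^ p ^ (n - 1)) = a := by
          unfold ver
          rw [prod_congr rfl (g := fun _ => a ^ p ^ (n - 1)), prod_const, card_range, ← pow_mul,
            ← pow_succ, Nat.sub_add_cancel hn, h]
          intro t _
          rw [map_pow, (fix_iff _ _).2 (dvd_mul_of_dvd_right hop _)]
        rwa [h2] at h1
      exact ⟨0, by simp [hv0]⟩
    · have hco : IsCoprime ((Δ.m / o : ℕ) : ℤ) (p : ℤ) :=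
        Nat.isCoprime_iff_coprime.2 ((Nat.Prime.coprime_iff_not_dvd hp).2 hd).symm
      obtain ⟨u, u', hu⟩ := hco
      refine ⟨u, ?_⟩
      have h1 : (p : ℤ) • v a = 0 := by rw [natCast_zsmul, hM]
      calc (Δ.m / o) • u • v a = (u * ((Δ.m / o : ℕ) : ℤ) + u' * p) • v a := by
            rw [add_smul, mul_smul u', h1, smul_zero, add_zero, mul_comm, mul_smul, natCast_zsmul]
        _ = v a := by rw [hu, one_smul]
  choose c hc using hc
  refine ⟨fun a => if a = rp Δ a then c a • v a else 0, fun a => ?_⟩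
  obtain ⟨j, hj⟩ := rp_spec (Δ := Δ) a
  have hr : ∀ i, rp Δ ((Δ.σ ^ i) a) = rp Δ a := fun i => inv_pow (rp Δ) rp_σ i a
  rw [← shift Δ.m (fun i => if (Δ.σ ^ i) a = rp Δ ((Δ.σ ^ i) a) then
    c ((Δ.σ ^ i) a) • v ((Δ.σ ^ i) a) else 0) (fun i => by simp only [pow_add_m]) j]
  have hva : v (rp Δ a) = v a := by rw [← hj, inv_pow v hv]
  rw [← hva, ← hc (rp Δ a), ← count]
  refine sum_congr rfl fun i _ => ?_
  rw [hr, pow_add, MulAut.mul_apply, hj]
  split_ifs with h1
  · rw [h1]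
  · rfl

theorem L_trc {M : Type} [AddCommGroup M] (v w : A → M)
    (hw : ∀ a, ∑ i ∈ range Δ.m, w ((Δ.σ ^ i) a) = v a) (x : MonoidAlgebra ℤ A) :
    L w (trc Δ Δ.m x) = L v x := by
  unfold trc
  induction x using MonoidAlgebra.induction_linear with
  | zero => simp
  | add x y hx hy => simp only [map_add, sum_add_distrib, hx, hy]
  | single a z =>
    simp only [map_sum, sg_single, L_single]
    rw [← smul_sum, hw]

theorem V_per [Finite A] (hB : BASE_st) (d : ℕ) (hd : d ∣ Δ.m) (a : A) (e s : ℤ) :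
    (V d a (e + s * (Δ.m * (Δ.m * Nat.card A) : ℕ)) : Pt Δ ℂ → ℂ) = V d a e := by
  funext P
  obtain ⟨u, hu⟩ := hd
  have h1 := (hB A Δ ℂ).1 d (MonoidAlgebra.of ℤ A a) e (s * u * (Δ.m * Nat.card A : ℕ)) P
  have h2 : P.ω ^ (Δ.m * Nat.card A) = 1 := by
    rw [pow_mul, P.ω_pow, ← map_pow, pow_card_eq_one', map_one]
  have h3 : P.ω ^ (s * u * (Δ.m * Nat.card A : ℕ) * P.d : ℤ) = 1 := by
    rw [show (s * u * (Δ.m * Nat.card A : ℕ) * P.d : ℤ) =
      (Δ.m * Nat.card A : ℕ) * (s * u * P.d) by ring, zpow_mul, zpow_natCast, h2, one_zpow]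
  rw [h3, Units.val_one, mul_one] at h1
  unfold V
  rw [← h1]
  congr 2
  rw [Nat.cast_mul Δ.m (Δ.m * Nat.card A)]
  generalize ((Δ.m * Nat.card A : ℕ) : ℤ) = T
  rw [hu]
  push_cast
  ring

theorem B_fg [Finite A] (hB : BASE_st) : (B Δ ℂ).FG := by
  rw [AddSubgroup.fg_iff]
  refine ⟨_, rfl, ?_⟩
  set T : ℕ := Δ.m * (Δ.m * Nat.card A) with hT
  have hT0 : (0 : ℤ) < T := by
    have := Δ.m_pos
    have : 0 < Nat.card A := Nat.card_pos
    positivity
  refine (((Set.finite_Icc 0 Δ.m).prod ((Set.finite_univ (α := A)).prod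
    (Set.finite_Icc (0 : ℤ) T))).image
    (fun x : ℕ × A × ℤ => (V x.1 x.2.1 x.2.2 : Pt Δ ℂ → ℂ))).subset ?_
  rintro f ⟨d, a, e, hd, -, rfl⟩
  refine ⟨(d, a, e % T), ⟨⟨Nat.zero_le _, Nat.le_of_dvd Δ.m_pos hd⟩, Set.mem_univ _,
    Int.emod_nonneg _ hT0.ne', (Int.emod_lt_of_pos _ hT0).le⟩, ?_⟩
  have := V_per hB d hd a (e % T) (e / T)
  rw [← hT, mul_comm (e / T), Int.emod_add_mul_ediv] at this
  exact this.symm

end KerX

open KerX

theorem ker : KER_st := by
  intro A _ _ Δ p n hp hn h M _ v hM hv h0 b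
  obtain ⟨w, hw⟩ := exw p n hp hn h v hM hv h0
  change L v _ = L v b
  rw [← L_trc v w hw, ← L_trc v w hw, trc_mul,
    Nat.sub_add_cancel (Nat.one_le_pow _ _ hp.pos), ← sub_eq_zero, ← map_sub]
  obtain ⟨u, hu⟩ := frob p n hp h (trc Δ Δ.m b)
  rw [hu, ← nsmul_eq_mul, map_nsmul, hM]

theorem bj (hP : BJP_st) (hB : BASE_st) : BJ_st := by
  intro A _ _ Δ
  set B' : Submodule ℤ (Pt Δ ℂ → ℂ) := (B Δ ℂ).toIntSubmodule with hB'
  set J' : Submodule ℤ (Pt Δ ℂ → ℂ) := (J Δ ℂ).toIntSubmodule with hJ'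
  have hfg : B'.FG := by
    rw [Submodule.fg_iff_addSubgroup_fg]
    exact B_fg hB
  have key : ∀ p : ℕ, p.Prime → ∃ r : ℤ, (p : ℤ) ∣ r - 1 ∧ r ∈ J'.colon (B' : Set _) := by
    intro p hp
    have hle : B' ≤ J' ⊔ Ideal.span {(p : ℤ)} • B' := by
      intro f hf
      obtain ⟨y, hy, z, hz, rfl⟩ := AddSubgroup.mem_sup.1 (hP A Δ p hp hf)
      obtain ⟨g, hg, rfl⟩ := mem_pB.1 hz
      refine Submodule.add_mem_sup hy ?_
      rw [← natCast_zsmul]
      exact Submodule.smul_mem_smul (Ideal.mem_span_singleton_self _) hg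
    obtain ⟨r, hr, hr'⟩ :=
      Submodule.exists_sub_one_mem_and_smul_le_of_fg_of_le_sup hfg le_rfl hle
    exact ⟨r, Ideal.mem_span_singleton.1 hr, Submodule.mem_colon.2 fun s hs =>
      hr' (Submodule.smul_mem_pointwise_smul s r B' hs)⟩
  obtain ⟨g, hg⟩ := (IsPrincipalIdealRing.principal (J'.colon (B' : Set _))).principal
  have h1 : (1 : ℤ) ∈ J'.colon (B' : Set _) := by
    by_cases hg1 : g.natAbs = 1
    · rw [hg]
      exact Ideal.mem_span_singleton.2 (Int.isUnit_iff_natAbs_eq.2 hg1).dvd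
    · obtain ⟨p, hp, hpg⟩ := Nat.exists_prime_and_dvd hg1
      obtain ⟨r, hr, hr'⟩ := key p hp
      rw [hg] at hr'
      have h2 : (p : ℤ) ∣ r := (Int.natCast_dvd.2 hpg).trans (Ideal.mem_span_singleton.1 hr')
      have h3 : (p : ℤ) ∣ 1 := by simpa using dvd_sub h2 hr
      exact absurd (Int.natCast_dvd.1 h3) (by simpa using hp.ne_one)
  intro f hf
  have h2 := Submodule.mem_colon.1 h1 f hf
  rw [one_smul] at h2
  exact h2

end Pool.Agent.MP_f3cd89_nt
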