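import Pool.Agent.MP_f3cd89_nt.FStm

set_option autoImplicit false
set_option linter.unusedSectionVars false

open Finset NumberField IsDedekindDomain Filter Topology

namespace Pool.Agent.MP_f3cd89_nt

namespace LevaX

theorem hasProd_under {K E : Type} [Field K] [NumberField K] [Field E] [NumberField E]
    [Algebra K E] (S : Finset (Pr K)) (F : Pr E → ℂ) {L : ℂ}
    (h : HasProd (fun w : {w : Pr E // w ∉ above E S} => F w.1) L) :
    HasProd (fun v : {v : Pr K // v ∉ S} => ∏ w ∈ above E {v.1}, F w) L := by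
  let q : {w : Pr E // w ∉ above E S} → {v : Pr K // v ∉ S} := fun w =>
    ⟨w.1.under (𝓞 K), fun e => w.2 (mem_above.2 e)⟩
  refine HasProd.sigma ((Equiv.sigmaFiberEquiv q).hasProd_iff.2 h) fun v => ?_
  let e : {w // q w = v} ≃ (above E {v.1} : Finset (Pr E)) :=
    { toFun := fun w => ⟨w.1.1, mem_above.2 (mem_singleton.2 (congrArg Subtype.val w.2))⟩
      invFun := fun w => ⟨⟨w.1, fun e => v.2 (mem_singleton.1 (mem_above.1 w.2) ▸ mem_above.1 e)⟩,
        Subtype.ext (mem_singleton.1 (mem_above.1 w.2))⟩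
      left_inv := fun _ => rfl
      right_inv := fun _ => rfl }
  exact e.hasProd_iff.2 ((above E {v.1}).hasProd F)

variable {A : Type} [CommGroup A] {Δ : Dat A} {G : Type} [Group G] (π : Pres Δ G) (P : Pt Δ ℂ)

theorem psi_conj (hR : REP_st) {u g : G} (hu : u ∈ π.U P.d) (h : u * g * u⁻¹ ∈ π.U P.d) :
    psi π P (u * g * u⁻¹) = psi π P g := by
  have hm := ((hR A Δ G π).2.2.2.2 ℂ P).2.2.2.2.2.2
  have hg : g ∈ π.U P.d := by
    simpa [mul_assoc] using mul_mem (mul_mem (inv_mem hu) h) hu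
  have h1 := hm _ h u hu
  rw [inv_mul_cancel_right, hm u hu g hg, mul_comm] at h1
  exact (mul_right_cancel h1).symm

theorem rep_pow (hR : REP_st) (g : G) (n : ℕ) : rep π P (g ^ n) = rep π P g ^ n := by
  obtain ⟨-, h1, hm, -⟩ := (hR A Δ G π).2.2.2.2 ℂ P
  induction n with
  | zero => simpa using h1
  | succ n ih => rw [pow_succ, pow_succ, hm, ih]

theorem det_ne {n : Type} [Fintype n] [DecidableEq n] {R : Matrix n n ℂ} {o : ℕ} (ho : o ≠ 0)
    (h : R ^ o = 1) {z : ℂ} (hz : ‖z‖ ≠ 1) : (1 - z • R).det ≠ 0 := fun e => by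
  have h1 := congrArg Matrix.det (mul_neg_geom_sum (z • R) o)
  have h2 : (1 : Matrix n n ℂ) - z ^ o • 1 = (1 - z ^ o) • 1 := by rw [sub_smul, one_smul]
  rw [Matrix.det_mul, e, zero_mul, smul_pow, h, h2, Matrix.det_smul, Matrix.det_one, mul_one] at h1
  have h3 : z ^ o = 1 := (sub_eq_zero.1 (pow_eq_zero_iff'.1 h1.symm).1).symm
  exact hz ((pow_eq_one_iff_of_nonneg (norm_nonneg z) ho).1 (by rw [← norm_pow, h3, norm_one]))

theorem det_tw (hR : REP_st) (g : G) (z : ℂ) :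
    (1 - z • rep π P.tw g).det = (1 - z • rep π P g).det := by
  obtain ⟨-, h1, hm, ht, -⟩ := (hR A Δ G π).2.2.2.2 ℂ P
  have e : rep π P π.X⁻¹ * rep π P π.X = 1 := by rw [← hm, inv_mul_cancel, h1]
  have e' : rep π P π.X * rep π P π.X⁻¹ = 1 := by rw [← hm, mul_inv_cancel, h1]
  have h2 : (1 - z • rep π P (π.X * g * π.X⁻¹)) =
      rep π P π.X * (1 - z • rep π P g) * rep π P π.X⁻¹ := by
    rw [hm, hm, mul_sub, sub_mul, mul_one, e', mul_smul_comm, smul_mul_assoc]
  have h3 : (1 - z • rep π P (π.X * g * π.X⁻¹)).det = (1 - z • rep π P g).det := by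
    rw [h2, Matrix.det_mul_comm, ← mul_assoc, e, one_mul]
  rw [ht]
  exact h3

theorem half : {s : ℂ | 1 < s.re} ∈ 𝓝 (2 : ℂ) :=
  (isOpen_lt continuous_const Complex.continuous_re).mem_nhds (by simp)

theorem norm_ne {N : ℕ} (hN : 2 ≤ N) {s : ℂ} (hs : s.re ≠ 1) : ‖(N : ℂ) ^ (1 - s)‖ ≠ 1 := by
  have h1 : (1 : ℝ) < N := by exact_mod_cast hN
  rw [Complex.norm_natCast_cpow_of_pos (by omega), Complex.sub_re, Complex.one_re]
  rcases hs.lt_or_gt with h | h
  · exact (Real.one_lt_rpow h1 (by linarith)).ne'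
  · exact (Real.rpow_lt_one_of_one_lt_of_neg h1 (by linarith)).ne

end LevaX

open LevaX in
theorem leva (hD : DICT_st) (hR : REP_st) (hE : REPE_st) : LEVA_st := by
  classical
  intro K E L G _ _ _ _ _ _ _ _ _ _ _ _ _ _ A _ Δ π d _ S φ φE v₀ P f hd hU hφ hφE hv₀ hf
  subst hd
  obtain ⟨-, h2, h3, h4, -⟩ := hR A Δ G π
  have hι : ∀ a, π.ι a ∈ π.U P.d := fun a => Subgroup.mem_sup_left ⟨a, rfl⟩
  have loc : ∀ v, v ∉ S → (above E {v}).card = Int.gcd P.d (π.pe (φ v)) ∧ ∀ z : ℂ,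
      ∏ w ∈ above E {v}, (1 - (((psi π P (φE w))⁻¹ : ℂˣ) : ℂ) * (nrm w : ℂ) ^ z) =
        (1 - ((nrm v : ℂ) ^ z) • rep π P (φ v)⁻¹).det := by
    intro v hv
    obtain ⟨w, hi, ha, hw⟩ := (hD K E L G (π.U P.d) (π.U P.d).subtype S φE (fun _ _ => rfl) hU
      hφE).2 π.X P.d φ P.d_pos (by rw [Subgroup.range_subtype]; exact h3 _)
      (fun g => ⟨⟨_, hι _⟩, _, π.eq_pa g⟩)
      (fun e => by rw [Subgroup.range_subtype, ← h4 _ P.d_dvd 1 e, map_one, one_mul])
      hφ v hv ⟨_, hι _⟩ _ (π.eq_pa _)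
    refine ⟨?_, fun z => ?_⟩
    · rw [ha]
      convert (card_image_of_injOn hi).trans (card_range _)
    · rw [(hE A Δ G π ℂ P).1, ha]
      refine Eq.trans (by convert prod_image hi) (prod_congr rfl fun t _ => ?_)
      obtain ⟨h5, u, h6⟩ := hw t
      have h7 : psi π P (φE (w t)) = _ :=
        (congrArg (psi π P) h6).trans (psi_conj π P hR u.2 (h6 ▸ (φE (w t)).2))
      rw [h7, h5, mul_comm, Nat.cast_pow, ← Complex.natCast_cpow_natCast_mul,
        Complex.cpow_nat_mul]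
  refine ⟨hf.1, fun s hs => ?_⟩
  obtain ⟨Lv, h5, h6⟩ := hf.2 s hs
  refine ⟨Lv, ?_, ?_⟩
  · convert hasProd_under S
      (fun w => (1 - (((psi π P (φE w))⁻¹ : ℂˣ) : ℂ) * (nrm w : ℂ) ^ (-s))⁻¹) h5 using 2 with v
    rw [prod_inv_distrib, (loc v.1 v.2).2]
  · rw [h6, ← (loc v₀ hv₀).1, ← (loc v₀ hv₀).2, ← prod_neg]
    simp only [neg_sub]

open LevaX in
theorem lval (hR : REP_st) : LVAL_st := by
  intro K G _ _ _ S φ
  refine ⟨?_, fun A _ Δ π v₀ P f hf => ⟨fun f' hf' => ?_, ⟨hf.1, fun s hs => ?_⟩, ?_⟩⟩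
  · rintro n _ _ ρ _ _ ⟨f, m, a, rfl, h⟩ ⟨f', m', a', rfl, h'⟩
    have h2 : meromorphicOrderAt (f - f') 2 = ⊤ :=
      meromorphicOrderAt_eq_top_iff.2 (eventually_nhdsWithin_of_eventually_nhds
        (mem_of_superset half fun s hs => sub_eq_zero.2 ((h s hs).unique (h' s hs))))
    have h0 : meromorphicOrderAt (f - f') 0 = ⊤ := by
      by_contra e
      exact (m.sub m').meromorphicOrderAt_ne_top_of_isPreconnected isPreconnected_univ
        (Set.mem_univ 0) (Set.mem_univ 2) e h2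
    exact tendsto_nhds_unique_of_eventuallyEq (l := 𝓝[≠] (0 : ℂ))
      (a.continuousAt.tendsto.mono_left nhdsWithin_le_nhds)
      (a'.continuousAt.tendsto.mono_left nhdsWithin_le_nhds)
      ((meromorphicOrderAt_eq_top_iff.1 h0).mono fun s hs => sub_eq_zero.1 hs)
  · refine AnalyticOnNhd.eq_of_eventuallyEq (z₀ := 2)
      (hf'.1.differentiableOn.analyticOnNhd isOpen_univ)
      (hf.1.differentiableOn.analyticOnNhd isOpen_univ) (mem_of_superset half fun s hs => ?_)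
    obtain ⟨L, h1, h2⟩ := hf.2 s hs
    obtain ⟨L', h1', h2'⟩ := hf'.2 s hs
    exact h2'.trans (by rw [h1'.unique h1, ← h2])
  · simp only [det_tw π P hR]
    exact hf.2 s hs
  · let den : ℂ → ℂ := fun s => (-1) ^ Int.gcd P.d (π.pe (φ v₀)) *
      (1 - ((nrm v₀ : ℂ) ^ (1 - s)) • rep π P (φ v₀)⁻¹).det
    have hN := two_le_nrm v₀
    have hd : Differentiable ℂ den := by
      have h1 : Differentiable ℂ fun z : ℂ => (1 - z • rep π P (φ v₀)⁻¹).det := by
        simp only [Matrix.det_apply', Matrix.sub_apply, Matrix.smul_apply, smul_eq_mul]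
        fun_prop
      exact (h1.comp (Differentiable.const_cpow (by fun_prop)
        (Or.inl (Nat.cast_ne_zero.2 (by omega))))).const_mul _
    have h0 : ∀ s : ℂ, s.re ≠ 1 → den s ≠ 0 := fun s hs =>
      mul_ne_zero (pow_ne_zero _ (by simp)) (det_ne (orderOf_pos (φ v₀)⁻¹).ne' (by
        rw [← rep_pow π P hR, pow_orderOf_eq_one]
        exact ((hR A Δ G π).2.2.2.2 ℂ P).2.1) (norm_ne hN hs))
    have h00 := h0 0 (by simp)
    refine ⟨f 0 / den 0, ⟨fun s => f s / den s, fun s _ => ?_, ?_, rfl, fun s hs => ?_⟩, ?_⟩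
    · exact (hf.1.analyticAt s).meromorphicAt.div (hd.analyticAt s).meromorphicAt
    · exact (hf.1.analyticAt 0).div (hd.analyticAt 0) h00
    · obtain ⟨L, h1, h2⟩ := hf.2 s hs
      have h3 : f s / den s = L := by
        rw [h2]
        exact mul_div_cancel_left₀ _ (h0 s hs.ne')
      simp only [h3]
      convert h1 using 3 with v
      rw [← Matrix.det_transpose]
      simp
    · refine (mul_div_cancel₀ (f 0) h00).symm.trans ?_
      congr 1
      simp [den]

end Pool.Agent.MP_f3cd89_nt
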