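import Pool.Agent.MP_f3cd89_nt.FStm

/-! The intermediate fields, and the congruence at levels prime to `p`. -/

set_option autoImplicit false

open Finset NumberField IsDedekindDomain

namespace Pool.Agent.MP_f3cd89_nt

namespace LevbX

theorem under_under {F E L : Type} [Field F] [NumberField F] [Field E] [NumberField E] [Field L]
    [NumberField L] [Algebra F E] [Algebra E L] [Algebra F L] [IsScalarTower F E L] (w : Pr L) :
    (w.under (𝓞 E)).under (𝓞 F) = w.under (𝓞 F) :=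
  HeightOneSpectrum.ext (Ideal.under_under w.asIdeal)

theorem above_above {F E L : Type} [Field F] [NumberField F] [Field E] [NumberField E] [Field L]
    [NumberField L] [Algebra F E] [Algebra E L] [Algebra F L] [IsScalarTower F E L]
    (S : Finset (Pr F)) : above L (above E S) = above L S := by
  ext w
  rw [mem_above, mem_above, mem_above, under_under]

theorem real {E L G : Type} [Field E] [NumberField E] [Field L] [NumberField L] [Algebra E L]
    [Group G] [MulSemiringAction G L] {j : G} (hj : IsCC L j)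
    (h : ∀ x : E, j • algebraMap E L x = algebraMap E L x) : IsTotallyReal E := by
  refine ⟨fun v => ?_⟩
  rw [InfinitePlace.isReal_iff, ComplexEmbedding.isReal_iff]
  ext x
  have := hj (ComplexEmbedding.lift L v.embedding) (algebraMap E L x)
  rw [h, ComplexEmbedding.lift_algebraMap_apply] at this
  exact this.symm

theorem exists_res {E L G : Type} [Field E] [Field L] [Algebra E L] [Group G]
    [MulSemiringAction G L] (U : Subgroup G) (hU : U.Normal) [IsGaloisGroup U E L] (g : G) :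
    ∃ γ : E ≃+* E, ∀ (n : ℕ) (x : E), algebraMap E L ((γ ^ n) x) = g ^ n • algebraMap E L x := by
  have h : ∀ (g : G) (x : E), ∃ y : E, algebraMap E L y = g • algebraMap E L x := fun g x => by
    refine IsGaloisGroup.isInvariant.isInvariant (G := U) _ fun u => ?_
    have e : (⟨g⁻¹ * u * g, by simpa using hU.conj_mem u u.2 g⁻¹⟩ : U) • algebraMap E L x =
        algebraMap E L x := smul_algebraMap _ x
    change (u : G) • g • algebraMap E L x = _
    change (g⁻¹ * u * g) • algebraMap E L x = _ at e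
    rw [mul_smul, mul_smul, inv_smul_eq_iff] at e
    exact e
  choose f hf using h
  have inj := (algebraMap E L).injective
  let γ : E ≃+* E :=
    { toFun := f g
      invFun := f g⁻¹
      left_inv := fun x => inj (by rw [hf, hf, inv_smul_smul])
      right_inv := fun x => inj (by rw [hf, hf, smul_inv_smul])
      map_mul' := fun x y => inj (by rw [map_mul, hf, hf, hf, map_mul, smul_mul'])
      map_add' := fun x y => inj (by rw [map_add, hf, hf, hf, map_add, smul_add]) }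
  refine ⟨γ, fun n => ?_⟩
  induction n with
  | zero => intro x; rw [pow_zero, pow_zero, one_smul]; rfl
  | succ n ih =>
    intro x
    rw [pow_succ, pow_succ, mul_smul, ← hf g x, ← ih]
    rfl

theorem rel (hT : TOW_st) (hR : REP_st) {K L G : Type} [Field K] [NumberField K] [Field L]
    [NumberField L] [Algebra K L] [Group G] [Finite G] [MulSemiringAction G L]
    [IsGaloisGroup G K L] {A : Type} [CommGroup A] {Δ : Dat A} (π : Pres Δ G) {S : Finset (Pr K)}
    (hu : Unr L G S) {d₁ d p : ℕ} (hd : d ∣ Δ.m) (hp : p.Prime) (e : d = d₁ * p) {E₁ E : Type}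
    [Field E₁] [NumberField E₁] [Field E] [NumberField E] [Algebra K E₁] [Algebra E₁ E]
    [Algebra E₁ L] [Algebra E L] [IsScalarTower K E₁ L] [IsScalarTower E₁ E L]
    [IsGaloisGroup (π.U d₁) E₁ L] [IsGaloisGroup (π.U d) E L] (γ : E ≃+* E)
    (hγ : ∀ (n : ℕ) (x : E), algebraMap E L ((γ ^ n) x) = π.X ^ n • algebraMap E L x) :
    Rel E₁ E p (γ ^ d₁) (above E₁ S) := by
  have inj := (algebraMap E L).injective
  have d0 : 0 < d₁ := Nat.pos_of_mul_pos_right (e ▸ Nat.pos_of_dvd_of_pos hd Δ.m_pos)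
  have key : ∀ n : ℕ, γ ^ n = 1 ↔ d ∣ n := fun n => by
    have h1 := (hR A Δ G π).2.2.2.1 d hd 1 n
    rw [map_one, one_mul, zpow_natCast, Int.natCast_dvd_natCast,
      ← IsGaloisGroup.fixingSubgroup_range_algebraMap' G K L (π.U d) E,
      mem_fixingSubgroup_iff] at h1
    rw [← h1]
    constructor
    · rintro h _ ⟨x, rfl⟩
      rw [← hγ, h]
      rfl
    · intro h
      ext x
      exact inj ((hγ n x).trans (h _ ⟨x, rfl⟩))
  refine ⟨hp, ?_, fun x => ⟨fun h => ?_, ?_⟩, fun w hw x => ?_⟩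
  · have := Fact.mk hp
    refine orderOf_eq_prime ?_ fun h => ?_
    · rw [← pow_mul, key, e]
    · have h2 := Nat.le_of_dvd d0 ((key d₁).1 h)
      have := hp.two_le
      nlinarith
  · have h1 : π.U d₁ ≤ MulAction.stabilizer G (algebraMap E L x) := by
      refine sup_le (fun g hg => ?_) ((Subgroup.zpowers_le).2 ?_)
      · exact smul_algebraMap (⟨g, Subgroup.mem_sup_left hg⟩ : π.U d) x
      · rw [MulAction.mem_stabilizer_iff, ← hγ, h]
    obtain ⟨y, hy⟩ := IsGaloisGroup.isInvariant.isInvariant (G := π.U d₁) (A := E₁)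
      (algebraMap E L x) fun u => h1 u.2
    exact ⟨y, inj (by rw [← hy, ← IsScalarTower.algebraMap_apply])⟩
  · rintro ⟨y, rfl⟩
    apply inj
    rw [hγ, ← IsScalarTower.algebraMap_apply]
    exact smul_algebraMap
      (⟨π.X ^ d₁, Subgroup.mem_sup_right (Subgroup.mem_zpowers _)⟩ : π.U d₁) y
  · obtain ⟨W, rfl⟩ := under_surj (E' := L) w
    rw [under_under] at hw ⊢
    exact (hT E₁ E L (π.U d₁)).2.1 W
      (((hT K E₁ L G).2.2.1 (π.U d₁) (π.U d₁).subtype fun _ _ => rfl).2.2.1 S hu W hw) x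

theorem exists_elt {F U : Type} [Field F] [NumberField F] [Group U] (φ : Pr F → U)
    (D : Pr F →₀ ℤ) : ∃ g : U, ∀ χ : U →* ℂˣ, chv (fun w => χ (φ w)) D = χ g := by
  induction D using Finsupp.induction_linear with
  | zero => exact ⟨1, fun χ => by rw [chv_zero, map_one]⟩
  | add D D' h h' =>
    obtain ⟨g, hg⟩ := h
    obtain ⟨g', hg'⟩ := h'
    exact ⟨g * g', fun χ => by rw [chv_add, hg, hg', map_mul]⟩
  | single w n => exact ⟨φ w ^ n, fun χ => by rw [chv_single, map_zpow]⟩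

theorem main (hA : AR_st) (hS : SCA_st) (hL : LEVA_st) (hF : FLD_st) (hB : FB_st) (hT : TOW_st)
    (hR : REP_st) (hC : NTC_st) {K L G : Type} [Field K] [NumberField K] [Field L]
    [NumberField L] [Algebra K L] [Group G] [Finite G] [MulSemiringAction G L]
    [IsGaloisGroup G K L] {A : Type} [CommGroup A] {Δ : Dat A} (π : Pres Δ G) {S : Finset (Pr K)}
    {φ : Pr K → G} {v₀ : Pr K} (hs : Std K L π S φ) (hv : v₀ ∉ S) {d : ℕ} (hd : d ∣ Δ.m) :
    ∃ l k : ℕ, l.Prime ∧ (l : 𝓞 K) ∈ v₀.asIdeal ∧ ∃ Z : (A × ℤ) →₀ ℤ,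
      (∀ x ∈ Z.support, (d : ℤ) ∣ x.2) ∧ ∀ P : Pt Δ ℂ, P.d = d → ∃ f, SmG π S φ v₀ P f ∧
        (l : ℂ) ^ k * f 0 =
          Z.sum fun x z => (z : ℂ) * ((P.η x.1 * P.ω ^ x.2 : ℂˣ) : ℂ) := by
  classical
  obtain ⟨E₁, E, _, _, _, _, _, _, _, _, _, _, _, _, _, _, _, -, hE, -⟩ :=
    hF K L G A Δ π S φ d d hs hd dvd_rfl
  obtain ⟨φE, hφE⟩ := (hB E L (π.U d)).2.2.2.1 (above E S)
  have hu : Unr L (π.U d) (above E S) :=
    ((hT K E L G).2.2.1 (π.U d) (π.U d).subtype fun _ _ => rfl).2.2.1 S hs.unr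
  obtain ⟨j, hj, hcc⟩ := hs.cc
  obtain ⟨N, N0, hN⟩ := hA E L (π.U d) ⟨j, Subgroup.mem_sup_left hj⟩ (above E S) φE hcc hu hφE
  obtain ⟨l, hl, hlv, -⟩ := (hC K).2.2.2.2.2 v₀
  obtain ⟨k, Z, -, hZ⟩ := hS E l (above E S) (above E {v₀}) N hl N0
    (disjoint_left.2 fun w h h' => hv (mem_singleton.1 (mem_above.1 h') ▸ mem_above.1 h))
    ((under_surj (E' := E) v₀).imp fun w hw => mem_above.2 (mem_singleton.2 hw))
    fun c hc => by
      rw [← mem_singleton.1 (mem_above.1 hc)] at hlv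
      rw [← map_natCast (algebraMap (𝓞 K) (𝓞 E))]
      exact hlv
  choose g hg using exists_elt φE
  choose a e he hae using fun D => ((hR A Δ G π).2.1 d _).1 (g D)⁻¹.2
  refine ⟨l, k, hl, hlv, Z.mapDomain fun D => (a D, e D), fun x hx => ?_, fun P hP => ?_⟩
  · obtain ⟨D, -, rfl⟩ := mem_image.1 (Finsupp.mapDomain_support hx)
    exact he D
  · obtain ⟨-, -, -, -, -, h1, h2⟩ := (hR A Δ G π).2.2.2.2 ℂ P
    rw [hP] at h2
    let ψ : π.U d →* ℂˣ := MonoidHom.mk' (fun u => psi π P u) fun u v => h2 u u.2 v v.2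
    obtain ⟨f, hf, hf0⟩ := hZ _ (hN ψ⁻¹)
    refine ⟨f, hL K E L G A Δ π d S φ φE v₀ P f hP hs.unr hs.frob hφE hv hf, ?_⟩
    rw [hf0, Finsupp.sum_mapDomain_index (by simp) (by simp [add_mul])]
    refine Finsupp.sum_congr fun D _ => ?_
    rw [hg, MonoidHom.inv_apply, ← map_inv, ← h1, ← hae]
    rfl

end LevbX

theorem fld (hT : TOW_st) (hR : REP_st) : FLD_st := by
  intro K L G _ _ _ _ _ _ _ _ _ A _ Δ π S φ d₁ d hs hd hd₁
  have hU : π.U d ≤ π.U d₁ := fun g hg => by
    obtain ⟨a, e, he, rfl⟩ := ((hR A Δ G π).2.1 d g).1 hg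
    exact ((hR A Δ G π).2.1 d₁ _).2 ⟨a, e, (Int.natCast_dvd_natCast.2 hd₁).trans he, rfl⟩
  let E₁ : IntermediateField K L := FixedPoints.intermediateField (π.U d₁)
  let E : IntermediateField K L := FixedPoints.intermediateField (π.U d)
  have hle : E₁ ≤ E := IsGaloisGroup.fixedPoints_le_of_le G K L _ _ hU
  let _ : Algebra E₁ E := (IntermediateField.inclusion hle).toAlgebra
  have t1 : IsScalarTower K E₁ E := IsScalarTower.of_algebraMap_eq' rfl
  have t2 : IsScalarTower E₁ E L := IsScalarTower.of_algebraMap_eq' rfl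
  obtain ⟨j, hj, hcc⟩ := hs.cc
  obtain ⟨γ, hγ⟩ := LevbX.exists_res (E := E) (L := L) (π.U d) ((hR A Δ G π).2.2.1 d) π.X
  refine ⟨E₁, E, inferInstance, inferInstance, inferInstance, inferInstance, inferInstance,
    inferInstance, inferInstance, inferInstance, inferInstance, t1, inferInstance, inferInstance,
    t2, inferInstance, inferInstance, LevbX.real hcc fun x => ?_, LevbX.real hcc fun x => ?_,
    LevbX.above_above S, fun v => LevbX.above_above {v}, γ, hγ,
    fun p hp e => LevbX.rel hT hR π hs.unr hd hp e γ hγ⟩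
  · exact x.2 (⟨j, Subgroup.mem_sup_left hj⟩ : π.U d₁)
  · exact x.2 (⟨j, Subgroup.mem_sup_left hj⟩ : π.U d)

theorem levb (hA : AR_st) (hS : SCA_st) (hL : LEVA_st) (hF : FLD_st) (hB : FB_st) (hT : TOW_st)
    (hR : REP_st) (hC : NTC_st) : LEVB_st := by
  intro K L G _ _ _ _ _ _ _ _ _ A _ Δ π S φ v₀ hs hv
  refine ⟨fun P => ?_, fun θ p d hθ hp hpv hd hpd => ?_⟩
  · obtain ⟨l, k, -, -, Z, -, h⟩ := LevbX.main hA hS hL hF hB hT hR hC π hs hv P.d_dvd
    exact (h P rfl).imp fun _ h => h.1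
  · obtain ⟨l, k, hl, hlv, Z, hZ, h⟩ := LevbX.main hA hS hL hF hB hT hR hC π hs hv hd
    refine ⟨l ^ k, Nat.Coprime.pow_left k ((Nat.coprime_primes hl hp).2 ?_), Z, hZ,
      fun P hP => ?_⟩
    · rintro rfl
      exact hpv hlv
    · obtain ⟨f, hf, hf0⟩ := h P hP
      rw [dif_neg (hP ▸ hpd), sub_zero, ← hθ P f hf, Nat.cast_pow, hf0,
        Nat.factorization_eq_zero_of_not_dvd hpd]
      simp

end Pool.Agent.MP_f3cd89_nt
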