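import Pool.Agent.MP_f3cd89_nt.FStm

/-! The congruence at levels divisible by `p`. -/

set_option autoImplicit false

open Finset NumberField IsDedekindDomain

namespace Pool.Agent.MP_f3cd89_nt

namespace LevcX

section Grp

variable {A : Type} [CommGroup A] {Δ : Dat A} {G : Type} [Group G] (π : Pres Δ G)

theorem chi (hR : REP_st) (P : Pt Δ ℂ) {d : ℕ} (h : P.d = d) (n : ℕ) :
    ∃ χ : π.U d →* ℂˣ, ∀ u, χ u = psi π P (π.X ^ n * u * (π.X ^ n)⁻¹) := by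
  subst h
  obtain ⟨-, -, h3, -, h5⟩ := hR A Δ G π
  refine ⟨MonoidHom.mk' (fun u => psi π P (π.X ^ n * u * (π.X ^ n)⁻¹)) fun u v => ?_, fun _ => rfl⟩
  rw [← (h5 ℂ P).2.2.2.2.2.2 _ ((h3 _).conj_mem _ u.2 _) _ ((h3 _).conj_mem _ v.2 _)]
  congr 1
  rw [Subgroup.coe_mul]
  group

theorem chi0 (hR : REP_st) (P : Pt Δ ℂ) {d : ℕ} (h : P.d = d) :
    ∃ χ : π.U d →* ℂˣ, ∀ u, χ u = psi π P u := by
  obtain ⟨χ, hχ⟩ := chi π hR P h 0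
  exact ⟨χ, fun u => by rw [hχ, pow_zero, one_mul, inv_one, mul_one]⟩

theorem psi_conj (hR : REP_st) (P : Pt Δ ℂ) {d : ℕ} (h : P.d = d) (u y : π.U d) (z : G)
    (hz : (y : G) = u * z * (u : G)⁻¹) : psi π P y = psi π P z := by
  obtain ⟨χ, hχ⟩ := chi0 π hR P h
  have e : z = ((u⁻¹ * y * u : π.U d) : G) := by
    rw [Subgroup.coe_mul, Subgroup.coe_mul, Subgroup.coe_inv, hz]
    group
  rw [e, ← hχ, ← hχ, map_mul, map_mul, map_inv, inv_mul_cancel_comm]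

theorem psi_val (hR : REP_st) (P : Pt Δ ℂ) (n : ℕ) (a : A) (e : ℤ) :
    ((psi π P (π.X ^ n * (π.ι a * π.X ^ e) * (π.X ^ n)⁻¹) : ℂˣ) : ℂ) =
      P.ch n a * ((P.ω ^ e : ℂˣ) : ℂ) := by
  obtain ⟨h1, -, -, -, h5⟩ := hR A Δ G π
  have e1 : π.X ^ n * (π.ι a * π.X ^ e) * (π.X ^ n)⁻¹ = π.ι ((Δ.σ ^ n) a) * π.X ^ e := by
    rw [← h1]
    group
  rw [e1, (h5 ℂ P).2.2.2.2.2.1, Units.val_mul, Pt.ch_apply]

theorem iota_mem (d : ℕ) (a : A) : π.ι a ∈ π.U d := Subgroup.mem_sup_left ⟨a, rfl⟩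

theorem X_mem (d : ℕ) : π.X ^ d ∈ π.U d := Subgroup.mem_sup_right (Subgroup.mem_zpowers _)

theorem U_le (d₁ p : ℕ) : π.U (d₁ * p) ≤ π.U d₁ := by
  refine sup_le le_sup_left ((Subgroup.zpowers_le).2 ?_)
  rw [pow_mul]
  exact Subgroup.pow_mem _ (X_mem π d₁) p

theorem down_congr (P : Pt Δ ℂ) {d₁ d₂ : ℕ} (e : d₂ = d₁) (h₁ : d₁ ∣ P.d) (h₂ : d₂ ∣ P.d) :
    P.down d₂ h₂ = P.down d₁ h₁ := by
  subst e
  rfl

end Grp

section Div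

variable {E : Type} [Field E] [NumberField E]

theorem exists_g {U : Type} [Group U] (φ : Pr E → U) (D : Pr E →₀ ℤ) :
    ∃ g : U, ∀ χ : U →* ℂˣ, chv (fun w => (χ (φ w))⁻¹) D = χ g := by
  induction D using Finsupp.induction_linear with
  | zero => exact ⟨1, fun χ => by rw [chv_zero, map_one]⟩
  | add D D' h h' =>
    obtain ⟨g, hg⟩ := h
    obtain ⟨g', hg'⟩ := h'
    exact ⟨g * g', fun χ => by rw [chv_add, hg, hg', map_mul]⟩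
  | single v n => exact ⟨(φ v)⁻¹ ^ n, fun χ => by rw [chv_single, map_zpow, map_inv]⟩

omit [NumberField E] in
theorem chv_congr {S : Finset (Pr E)} {ψ ψ' : Pr E → ℂˣ} {D : Pr E →₀ ℤ} (hD : D ∈ off S)
    (h : ∀ w, w ∉ S → ψ w = ψ' w) : chv ψ D = chv ψ' D :=
  Finsupp.prod_congr fun w hw => by
    rw [h w fun hS => Finsupp.mem_support_iff.1 hw (hD w hS)]

theorem sm_congr {S C : Finset (Pr E)} {ψ ψ' : Pr E → ℂˣ} {f : ℂ → ℂ} (hSC : Disjoint S C)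
    (h : ∀ w, w ∉ S → ψ w = ψ' w) (H : Sm S C ψ f) : Sm S C ψ' f := by
  refine ⟨H.1, fun s hs => ?_⟩
  obtain ⟨L, h1, h2⟩ := H.2 s hs
  refine ⟨L, ?_, h2.trans ?_⟩
  · have e : (fun v : {v : Pr E // v ∉ S} => (1 - (ψ' v : ℂ) * (nrm v.1 : ℂ) ^ (-s))⁻¹) =
        fun v : {v : Pr E // v ∉ S} => (1 - (ψ v : ℂ) * (nrm v.1 : ℂ) ^ (-s))⁻¹ :=
      funext fun v => by rw [h v.1 v.2]
    rw [e]
    exact h1
  · rw [Finset.prod_congr rfl fun c hc => ?_]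
    rw [h c (Finset.disjoint_right.1 hSC hc)]

variable (E) in
theorem abv {K : Type} [Field K] [NumberField K] [Algebra K E] {S : Finset (Pr K)} {v₀ : Pr K}
    (hv : v₀ ∉ S) {l : ℕ} (hl : (l : 𝓞 K) ∈ v₀.asIdeal) :
    Disjoint (above E S) (above E {v₀}) ∧ (above E {v₀}).Nonempty ∧
      ∀ c ∈ above E {v₀}, (l : 𝓞 E) ∈ c.asIdeal := by
  refine ⟨Finset.disjoint_left.2 fun w h1 h2 => hv ?_, ?_, fun c hc => ?_⟩
  · rw [← Finset.mem_singleton.1 (mem_above.1 h2)]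
    exact mem_above.1 h1
  · obtain ⟨w, hw⟩ := under_surj (E' := E) v₀
    exact ⟨w, mem_above.2 (Finset.mem_singleton.2 hw)⟩
  · rw [← Finset.mem_singleton.1 (mem_above.1 hc)] at hl
    have h : algebraMap (𝓞 K) (𝓞 E) (l : 𝓞 K) ∈ c.asIdeal := hl
    rwa [map_natCast] at h

end Div

/-- the value at a level as the value of an abelian smoothed function -/
theorem lev (hA : AR_st) (hS : SCA_st) (hL : LEVA_st) (hT : TOW_st) (hR : REP_st)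
    {K L G : Type} (E : Type) [Field K] [NumberField K] [Field E] [NumberField E] [IsTotallyReal E]
    [Field L] [NumberField L] [Algebra K E] [Algebra E L] [Algebra K L] [IsScalarTower K E L]
    [Group G] [Finite G] [MulSemiringAction G L] [IsGaloisGroup G K L]
    {A : Type} [CommGroup A] {Δ : Dat A} {π : Pres Δ G} {d : ℕ} [IsGaloisGroup (π.U d) E L]
    {S : Finset (Pr K)} {φ : Pr K → G} (hs : Std K L π S φ) {φE : Pr E → π.U d}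
    (hφ : IsFrob L (above E S) φE) {v₀ : Pr K} (hv : v₀ ∉ S) {l : ℕ} (hl : l.Prime)
    (hl' : (l : 𝓞 K) ∈ v₀.asIdeal) :
    ∃ N : ℕ, 0 < N ∧ ∀ P : Pt Δ ℂ, P.d = d →
      IsRay (above E S) N (fun w => (psi π P (φE w))⁻¹) ∧ ∃ f,
        Sm (above E S) (above E {v₀}) (fun w => (psi π P (φE w))⁻¹) f ∧ SmG π S φ v₀ P f := by
  obtain ⟨j, ⟨a, rfl⟩, hj⟩ := hs.cc
  have hu : Unr L (π.U d) (above E S) :=
    ((hT K E L G).2.2.1 (π.U d) (π.U d).subtype fun _ _ => rfl).2.2.1 S hs.unr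
  obtain ⟨N, hN, hray⟩ := hA E L (π.U d) ⟨π.ι a, iota_mem π d a⟩ (above E S) φE hj hu hφ
  obtain ⟨a1, a2, a3⟩ := abv E hv hl'
  obtain ⟨_, _, -, hf⟩ := hS E l (above E S) (above E {v₀}) N hl hN a1 a2 a3
  refine ⟨N, hN, fun P hP => ?_⟩
  obtain ⟨χ, hχ⟩ := chi0 π hR P hP
  have h1 : IsRay (above E S) N fun w => (psi π P (φE w))⁻¹ := by
    have h2 := hray χ⁻¹
    simp only [MonoidHom.inv_apply, hχ] at h2
    exact h2
  obtain ⟨f, h3, -⟩ := hf _ h1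
  exact ⟨h1, f, h3, hL K E L G A Δ π d S φ φE v₀ P f hP hs.unr hs.frob hφ hv h3⟩

/-- the transfer -/
theorem tra (hD : DICT_st) (hR : REP_st) (hE : REPE_st)
    {E₁ E L G : Type} [Field E₁] [NumberField E₁] [Field E] [NumberField E]
    [Field L] [NumberField L] [Algebra E₁ E] [Algebra E L] [Algebra E₁ L] [IsScalarTower E₁ E L]
    [Group G] [Finite G] [MulSemiringAction G L]
    {A : Type} [CommGroup A] {Δ : Dat A} {π : Pres Δ G} {d₁ p : ℕ} (hp : 0 < p)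
    [IsGaloisGroup (π.U d₁) E₁ L] [IsGaloisGroup (π.U (d₁ * p)) E L]
    {S : Finset (Pr E₁)} {φ : Pr E₁ → π.U d₁} {φE : Pr E → π.U (d₁ * p)}
    (hu : Unr L (π.U d₁) S) (hφ : IsFrob L S φ) (hφE : IsFrob L (above E S) φE)
    (P : Pt Δ ℂ) (hP : P.d = d₁ * p) (h₁ : d₁ ∣ P.d) (v : Pr E₁) (hv : v ∉ S) :
    (psi π (P.down d₁ h₁) (φ v))⁻¹ = ∏ w ∈ above E {v}, (psi π P (φE w))⁻¹ := by
  classical
  obtain ⟨-, r2, r3, r4, -⟩ := hR A Δ G π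
  have hd : 0 < d₁ := Nat.pos_of_dvd_of_pos h₁ P.d_pos
  have hd' : (d₁ : ℤ) ≠ 0 := by exact_mod_cast hd.ne'
  have dec : ∀ g : π.U d₁, ∃ (a : A) (e : ℤ), (g : G) = π.ι a * π.X ^ (d₁ * e) ∧
      g = Subgroup.inclusion (U_le π d₁ p) ⟨π.ι a, iota_mem π _ a⟩ *
        (⟨π.X ^ d₁, X_mem π d₁⟩ : π.U d₁) ^ e := fun g => by
    obtain ⟨a, _, ⟨e, rfl⟩, h⟩ := (r2 d₁ g).1 g.2
    refine ⟨a, e, h, Subtype.ext ?_⟩
    rw [Subgroup.coe_mul, Subgroup.coe_zpow, h, zpow_mul, zpow_natCast]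
    rfl
  obtain ⟨a, e, h1, h2⟩ := dec (φ v)
  obtain ⟨w, w1, w2, w3⟩ := (hD E₁ E L (π.U d₁) (π.U (d₁ * p)) (Subgroup.inclusion (U_le π d₁ p))
    S φE (fun _ _ => rfl) hu hφE).2 ⟨π.X ^ d₁, X_mem π d₁⟩ p φ hp
    (by rw [Subgroup.inclusion_range]; exact (r3 _).subgroupOf _)
    (fun g => let ⟨_, e, _, h⟩ := dec g; ⟨_, e, h⟩) (fun e => by
      rw [Subgroup.inclusion_range, Subgroup.mem_subgroupOf, Subgroup.coe_zpow]
      have h := r4 (d₁ * p) (hP ▸ P.d_dvd) 1 (d₁ * e)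
      rw [map_one, one_mul, zpow_mul, zpow_natCast, Nat.cast_mul, mul_dvd_mul_iff_left hd'] at h
      exact h) hφ v hv _ e h2
  have h3 := (hE A Δ G π ℂ P).2 d₁ h₁ a (d₁ * e) (dvd_mul_right _ _)
  have h4 : P.d / d₁ = p := by rw [hP, Nat.mul_div_cancel_left _ hd]
  rw [h4, Int.mul_ediv_cancel_left _ hd', ← h1] at h3
  rw [h3, w2, Finset.prod_image w1, ← Finset.prod_inv_distrib]
  refine Finset.prod_congr rfl fun t _ => ?_
  obtain ⟨-, u, hu'⟩ := w3 t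
  rw [psi_conj π hR P hP u (φE (w t)) _ (congrArg Subtype.val hu')]
  rfl

end LevcX

open LevcX in
theorem levc (hA : AR_st) (hS : SCA_st) (hS2 : SCB_st) (hL : LEVA_st) (hF : FLD_st)
    (hD : DICT_st) (hB : FB_st) (hT : TOW_st) (hR : REP_st) (hE : REPE_st) (hC : NTC_st) :
    LEVC_st := by
  intro K L G _ _ _ _ _ _ _ _ _ A _ Δ π S φ v₀ hs hv θ p d hθ hp hpv hd hpd
  classical
  obtain ⟨d₁, rfl⟩ := exists_eq_mul_left_of_dvd hpd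
  have hd0 : d₁ * p ≠ 0 := (Nat.pos_of_dvd_of_pos hd Δ.m_pos).ne'
  obtain ⟨j, hj⟩ : ∃ j, (d₁ * p).factorization p = j + 1 :=
    Nat.exists_eq_succ_of_ne_zero (hp.factorization_pos_of_dvd hd0 hpd).ne'
  obtain ⟨d', hd'⟩ : ∃ d', ordCompl[p] (d₁ * p) = d' := ⟨_, rfl⟩
  have hdj : d' * p ^ j = d₁ := by
    have h := Nat.ordProj_mul_ordCompl_eq_self (d₁ * p) p
    rw [hd', hj] at h
    refine Nat.eq_of_mul_eq_mul_right hp.pos (Eq.trans ?_ h)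
    ring
  obtain ⟨E₁, E, _, _, _, _, _, _, _, _, _, _, _, _, _, _, _, t₁, t, e1, e2, γ, hγ, hrel⟩ :=
    hF K L G A Δ π S φ d₁ (d₁ * p) hs hd (dvd_mul_right _ _)
  obtain ⟨φE, hφE⟩ := (hB E L (π.U (d₁ * p))).2.2.2.1 (above E S)
  obtain ⟨φ₁, hφ₁⟩ := (hB E₁ L (π.U d₁)).2.2.2.1 (above E₁ S)
  obtain ⟨l, hl, hl', -⟩ := (hC K).2.2.2.2.2 v₀
  have hlp : l ≠ p := fun h => hpv (h ▸ hl')
  obtain ⟨N, hN, H⟩ := lev hA hS hL hT hR E hs hφE hv hl hl'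
  obtain ⟨_, -, H₁⟩ := lev hA hS hL hT hR E₁ hs hφ₁ hv hl hl'
  have hu₁ : Unr L (π.U d₁) (above E₁ S) :=
    ((hT K E₁ L G).2.2.1 (π.U d₁) (π.U d₁).subtype fun _ _ => rfl).2.2.1 S hs.unr
  have dic := fun n : ℕ => (hD K E L G (π.U (d₁ * p)) (π.U (d₁ * p)).subtype S φE
    (fun _ _ => rfl) hs.unr hφE).1 (π.X ^ n) (γ ^ n) (hγ n)
  obtain ⟨a1, a2, a3⟩ := abv E₁ hv hl'
  obtain ⟨k, Z, hZ, hk⟩ := hS2 E₁ E p j (γ ^ d') (above E₁ S) (above E₁ {v₀}) l N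
    (by rw [← pow_mul, hdj]; exact hrel p hp rfl) hl hlp hN a1 a2 a3
    (fun w => by rw [e1, mem_above, mem_above, (dic d').1])
    (fun w => by rw [e2, mem_above, mem_above, (dic d').1])
  rw [e1] at hZ
  rw [e1, e2] at hk
  have hg : ∀ D : Pr E →₀ ℤ, ∃ x : A × ℤ, ((d₁ * p : ℕ) : ℤ) ∣ x.2 ∧ ∃ g : π.U (d₁ * p),
      (g : G) = π.ι x.1 * π.X ^ x.2 ∧
        ∀ χ : π.U (d₁ * p) →* ℂˣ, chv (fun w => (χ (φE w))⁻¹) D = χ g := fun D => by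
    obtain ⟨g, hg⟩ := exists_g φE D
    obtain ⟨a, e, h1, h2⟩ := ((hR A Δ G π).2.1 _ g).1 g.2
    exact ⟨(a, e), h1, g, h2, hg⟩
  choose x x1 g x2 x3 using hg
  refine ⟨l ^ k, Nat.Coprime.pow_left k ((Nat.coprime_primes hl hp).2 hlp), Z.mapDomain x,
    fun y hy => ?_, fun P hP => ?_⟩
  · obtain ⟨D, -, rfl⟩ := Finset.mem_image.1 (Finsupp.mapDomain_support hy)
    exact x1 D
  have h₁ : d₁ ∣ P.d := hP ▸ dvd_mul_right _ _
  obtain ⟨b1, f, b2, b3⟩ := H P hP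
  obtain ⟨-, f₁, c2, c3⟩ := H₁ (P.down d₁ h₁) rfl
  rw [dif_pos (hP ▸ hpd), down_congr P (by rw [hP, Nat.mul_div_cancel _ hp.pos]) h₁, ← hθ _ _ b3,
    ← hθ _ _ c3, Nat.cast_pow, hk _ b1 f f₁ b2 (sm_congr a1 (fun v hv' =>
      tra hD hR hE hp.pos hu₁ hφ₁ (e1 ▸ hφE) P hP h₁ v hv') c2),
    Finsupp.sum_mapDomain_index (fun _ => by rw [Int.cast_zero, zero_mul])
      (fun _ _ _ => by rw [Int.cast_add, add_mul]), hd', hj]
  refine Finsupp.sum_congr fun D hD' => ?_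
  congr 1
  refine Finset.sum_congr rfl fun n _ => ?_
  obtain ⟨χ, hχ⟩ := chi π hR P hP (d' * n)
  rw [← psi_val π hR, ← x2, ← hχ, ← x3, ← pow_mul]
  congr 1
  refine chv_congr (hZ D hD') fun w hw => ?_
  obtain ⟨u, hu⟩ := (dic (d' * n)).2 w hw
  rw [hχ, psi_conj π hR P hP u _ _ hu]
  rfl

end Pool.Agent.MP_f3cd89_nt
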