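import Pool.Agent.MP_f3cd89_nt.SStm

/-! Geometry of numbers in a totally real field. -/

set_option autoImplicit false

open Finset NumberField IsDedekindDomain

namespace Pool.Agent.MP_f3cd89_nt

namespace NtaX

open NumberField.Units NumberField.Units.dirichletUnitTheorem

variable {F : Type} [Field F] [NumberField F] [IsTotallyReal F]

omit [NumberField F] in
theorem cx (ψ : F →+* ℂ) : ∃ φ : F →+* ℝ, Complex.ofRealHom.comp φ = ψ :=
  ⟨(IsTotallyReal.complexEmbedding_isReal ψ).embedding,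
    RingHom.ext fun x => ComplexEmbedding.IsReal.coe_embedding_apply _ x⟩

theorem norm_eq (x : F) : ((Algebra.norm ℚ x : ℚ) : ℝ) = ∏ φ : F →+* ℝ, φ x := by
  apply Complex.ofReal_injective
  rw [Complex.ofReal_prod, Complex.ofReal_ratCast]
  refine (Algebra.norm_eq_prod_embeddings ℚ ℂ x).trans (Fintype.prod_bijective
    (fun φ : F →+* ℝ => (Complex.ofRealHom.comp φ).toRatAlgHom) ⟨fun φ φ' h => ?_, fun σ => ?_⟩
    _ _ fun _ => rfl).symm
  · exact RingHom.ext fun y => Complex.ofReal_injective (DFunLike.congr_fun h y)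
  · obtain ⟨φ, h⟩ := cx σ.toRingHom
    exact ⟨φ, AlgHom.ext fun y => DFunLike.congr_fun h y⟩

theorem fin_lat (D : Pr F →₀ ℤ) (C : ℝ) :
    {v | v ∈ lat D ∧ ∀ φ : F →+* ℝ, |φ v| ≤ C}.Finite := by
  obtain ⟨d, d0, h1, h2⟩ := wa D.support (fun _ => (0 : F)) (-∑ v ∈ D.support, |D v|)
  refine Set.Finite.of_finite_image (f := fun x => d * x) ((Embeddings.finite_of_norm_le F ℂ
    ((∑ φ : F →+* ℝ, |φ d|) * |C|)).subset ?_) (mul_right_injective₀ d0).injOn
  rintro _ ⟨x, ⟨hx, hC⟩, rfl⟩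
  refine ⟨?_, fun ψ => ?_⟩
  · obtain ⟨a, ha⟩ := HeightOneSpectrum.mem_integers_of_valuation_le_one (R := 𝓞 F) F (d * x)
      fun v => by
        have h3 : v.valuation F d ≤ WithZero.exp (D v) := by
          by_cases hv : v ∈ D.support
          · have := h1 v hv
            rw [sub_zero] at this
            refine this.trans (WithZero.exp_le_exp.2 ?_)
            have := single_le_sum (f := fun v => |D v|) (fun _ _ => abs_nonneg _) hv
            linarith [neg_abs_le (D v)]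
          · rw [Finsupp.notMem_support_iff.1 hv]
            exact h2 v hv
        rw [map_mul]
        refine (mul_le_mul' h3 (hx v)).trans (le_of_eq ?_)
        rw [← WithZero.exp_add, add_neg_cancel, WithZero.exp_zero]
    beta_reduce
    rw [← ha]
    exact a.isIntegral_coe
  · obtain ⟨φ, rfl⟩ := cx ψ
    change ‖((φ (d * x) : ℝ) : ℂ)‖ ≤ _
    rw [Complex.norm_real, Real.norm_eq_abs, map_mul, abs_mul]
    exact mul_le_mul (single_le_sum (f := fun φ : F →+* ℝ => |φ d|) (fun _ _ => abs_nonneg _)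
      (mem_univ φ)) ((hC φ).trans (le_abs_self C)) (abs_nonneg _)
      (sum_nonneg fun _ _ => abs_nonneg _)

theorem dir : ∃ R : ℝ, ∀ a : InfinitePlace F → ℝ, ∃ (ε : (𝓞 F)ˣ) (c : ℝ),
    ∀ w : InfinitePlace F, |Real.log (w (ε : F)) - a w - c| ≤ R := by
  classical
  let b := (basisUnitLattice F).ofZLatticeBasis ℝ
  let n : ℝ := Fintype.card {w : InfinitePlace F // w ≠ w₀}
  have hB : 0 ≤ ∑ i, ‖b i‖ := sum_nonneg fun _ _ => norm_nonneg _
  have hn : 0 ≤ n := Nat.cast_nonneg _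
  refine ⟨(n + 1) * ∑ i, ‖b i‖, fun a => ?_⟩
  obtain ⟨c, hc⟩ : ∃ c : ℝ, ∑ w, (a w + c) = 0 := by
    refine ⟨-(∑ w, a w) / Fintype.card (InfinitePlace F), ?_⟩
    have : (Fintype.card (InfinitePlace F) : ℝ) ≠ 0 := Nat.cast_ne_zero.2 Fintype.card_ne_zero
    rw [sum_add_distrib, sum_const, card_univ, nsmul_eq_mul]
    field_simp
    ring
  let x : logSpace F := fun w => a w + c
  have hm : (ZSpan.floor b x : logSpace F) ∈ unitLattice F :=
    (basisUnitLattice F).ofZLatticeBasis_span ℝ ▸ (ZSpan.floor b x).2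
  obtain ⟨ε, -, hε⟩ := hm
  have h1 : ∀ w : {w : InfinitePlace F // w ≠ w₀},
      |Real.log (w.1 (ε.toMul : F)) - a w - c| ≤ ∑ i, ‖b i‖ := fun w => by
    have h2 := (norm_le_pi_norm _ w).trans (ZSpan.norm_fract_le b x)
    rw [ZSpan.fract_apply, ← hε, Real.norm_eq_abs, ← abs_neg] at h2
    refine le_of_eq_of_le (congrArg _ ?_) h2
    change _ = -(a w + c - w.1.mult * Real.log (w.1 (ε.toMul : F)))
    rw [IsTotallyReal.mult_eq]
    push_cast
    ring
  refine ⟨ε.toMul, c, fun w => ?_⟩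
  by_cases hw : w = w₀
  · have h3 := sum_mult_mul_log ε.toMul
    simp only [IsTotallyReal.mult_eq, Nat.cast_one, one_mul] at h3
    have h4 : ∑ w : InfinitePlace F, (Real.log (w (ε.toMul : F)) - a w - c) = 0 := by
      rw [← sub_zero (0 : ℝ)]
      nth_rw 1 [← h3]
      rw [← hc, ← sum_sub_distrib]
      exact sum_congr rfl fun _ _ => by ring
    rw [Fintype.sum_eq_add_sum_subtype_ne _ w₀, add_eq_zero_iff_eq_neg] at h4
    rw [hw, h4, abs_neg]
    refine (abs_sum_le_sum_abs _ _).trans ((sum_le_sum fun w _ => h1 w).trans ?_)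
    rw [sum_const, card_univ, nsmul_eq_mul]
    exact mul_le_mul_of_nonneg_right (le_add_of_nonneg_right zero_le_one) hB
  · exact (h1 ⟨w, hw⟩).trans (le_mul_of_one_le_left hB (by linarith))

omit [NumberField F] in
theorem em_pl (φ : F →+* ℝ) : InfinitePlace.embedding_of_isReal
    (IsTotallyReal.isReal (InfinitePlace.mk (Complex.ofRealHom.comp φ))) = φ := by
  refine RingHom.ext fun x => Complex.ofReal_injective ?_
  rw [InfinitePlace.embedding_of_isReal_apply]
  rcases InfinitePlace.mk_eq_iff.1 (InfinitePlace.mk_embedding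
    (InfinitePlace.mk (Complex.ofRealHom.comp φ))) with h | h
  · exact DFunLike.congr_fun h x
  · rw [ComplexEmbedding.isReal_iff.1 (IsTotallyReal.complexEmbedding_isReal _)] at h
    exact DFunLike.congr_fun h x

theorem unit_box {M : ℕ} (hM : 0 < M) : ∃ R : ℝ, ∀ y : (F →+* ℝ) → ℝ, (∀ φ, 0 < y φ) →
    ∃ ε : (𝓞 F)ˣ, ∀ φ φ' : F →+* ℝ,
      φ (((ε : F) ^ 2) ^ M) * y φ ≤ R * (φ' (((ε : F) ^ 2) ^ M) * y φ') := by
  obtain ⟨R, hR⟩ := dir (F := F)
  refine ⟨Real.exp (4 * M * R), fun y hy => ?_⟩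
  obtain ⟨ε, c, h⟩ := hR fun w =>
    -Real.log (y (InfinitePlace.embedding_of_isReal (IsTotallyReal.isReal w))) / (2 * M)
  have hM' : (0 : ℝ) < M := Nat.cast_pos.2 hM
  have key : ∀ φ : F →+* ℝ, ∃ t : ℝ, φ (((ε : F) ^ 2) ^ M) * y φ = Real.exp t ∧
      |t - 2 * M * c| ≤ 2 * M * R := fun φ => by
    have h1 := h (InfinitePlace.mk (Complex.ofRealHom.comp φ))
    have h2 : InfinitePlace.mk (Complex.ofRealHom.comp φ) (ε : F) = |φ ε| := Complex.norm_real _
    have h3 : 0 < |φ ε| := h2 ▸ Units.pos_at_place _ _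
    rw [em_pl, h2] at h1
    refine ⟨(2 * M : ℕ) * Real.log |φ ε| + Real.log (y φ), ?_, ?_⟩
    · rw [Real.exp_add, Real.exp_log (hy φ), Real.exp_nat_mul, Real.exp_log h3, map_pow, map_pow,
        pow_mul, sq_abs]
    · refine le_of_eq_of_le ?_ (mul_le_mul_of_nonneg_left h1 (by positivity))
      rw [← abs_of_pos (show (0 : ℝ) < 2 * M by positivity), ← abs_mul,
        abs_of_pos (show (0 : ℝ) < 2 * M by positivity)]
      congr 1
      push_cast
      field_simp
      ring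
  refine ⟨ε, fun φ φ' => ?_⟩
  obtain ⟨t, e, ht⟩ := key φ
  obtain ⟨t', e', ht'⟩ := key φ'
  rw [e, e', ← Real.exp_add, Real.exp_le_exp]
  linarith [(abs_le.1 ht).2, (abs_le.1 ht').1]

end NtaX

open NtaX in
theorem nta (hB : NTB_st) (hC : NTC_st) : NTA_st := by
  intro F _ _ _
  refine ⟨?_, fin_lat, fun S N => ?_, fun x hx => ?_, norm_eq⟩
  · obtain ⟨ψ⟩ : Nonempty (F →+* ℂ) := inferInstance
    exact ⟨(cx ψ).choose⟩
  · obtain ⟨M, hM, h⟩ := (hB F).2.2.1 S N
    obtain ⟨R, hR⟩ := unit_box (F := F) hM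
    refine ⟨R, fun y hy => ?_⟩
    obtain ⟨ε, hε⟩ := hR y hy
    have h0 : ((ε : 𝓞 F) : F) ≠ 0 := by simp
    have h1 : ∀ v : Pr F, ord v (((ε : 𝓞 F) : F) ^ 2) = 0 := fun v => by
      rw [ord_pow, (ord_eq_zero_iff v ε.ne_zero).2 fun hm =>
        v.isPrime.ne_top (Ideal.eq_top_of_isUnit_mem _ hm ε.isUnit), mul_zero]
    refine ⟨_, ⟨pow_ne_zero _ (pow_ne_zero _ h0), fun φ => ?_,
      h _ (pow_ne_zero _ h0) fun v _ => h1 v⟩, Finsupp.ext fun v => ?_, hε⟩
    · rw [map_pow, map_pow]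
      have := (map_ne_zero φ).2 h0
      positivity
    · rw [dv_apply, ord_pow, h1, mul_zero]
      rfl
  · rw [(hC F).2.2.1 x hx, norm_eq, abs_prod]

end Pool.Agent.MP_f3cd89_nt
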