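import Pool.Agent.MP_f3cd89_nt.CStm

/-! Primes whose norm is not congruent to one modulo `p`. -/

set_option autoImplicit false

open Finset NumberField IsDedekindDomain

namespace Pool.Agent.MP_f3cd89_nt

namespace PrimeX

theorem aux (hF : FB_st) (hD : DENS_st) (L M : Type) [Field L] [NumberField L] [Field M]
    [NumberField M] [Algebra L M] (p : ℕ) [NeZero p] [IsCyclotomicExtension {p} L M] [IsGalois L M]
    {ζ : M} (hζ : IsPrimitiveRoot ζ p) (S : Finset (Pr L))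
    (hS : ∀ w, w ∉ S → (p : 𝓞 L) ∉ w.asIdeal ∧ nrm w ≡ 1 [MOD p]) :
    ζ ∈ Set.range (algebraMap L M) := by
  have hz : hζ.toInteger ^ p = 1 := hζ.toInteger_isPrimitiveRoot.pow_eq_one
  have fix : ∀ (Q : Pr M) (g : M ≃ₐ[L] M), Q.under (𝓞 L) ∉ S → IsArithFrobAt (𝓞 L) g Q.asIdeal →
      g = 1 := by
    intro Q g hQ hg
    obtain ⟨h1, h2⟩ := hS _ hQ
    have h3 : (p : 𝓞 M) ∉ Q.asIdeal := fun h => h1 (by
      rw [← map_natCast (algebraMap (𝓞 L) (𝓞 M))] at h
      exact h)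
    have h4 := AlgHom.IsArithFrobAt.apply_of_pow_eq_one hg hz h3
    have h5 : Nat.card (𝓞 L ⧸ Q.asIdeal.under (𝓞 L)) = nrm (Q.under (𝓞 L)) := by
      rw [nrm, Ideal.absNorm_apply, Submodule.cardQuot_apply]
      rfl
    rw [h5, pow_eq_pow_mod _ hz, h2, ← pow_eq_pow_mod _ hz, pow_one] at h4
    have h6 : g ζ = ζ := congrArg Subtype.val h4
    refine AlgEquiv.coe_toAlgHom_injective (AlgHom.ext_of_adjoin_eq_top
      (IsCyclotomicExtension.adjoin_primitive_root_eq_top (A := L) hζ) ?_)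
    rintro _ rfl
    exact h6
  obtain ⟨-, -, f3, f4, -⟩ := hF L M (M ≃ₐ[L] M)
  have hU : Unr M (M ≃ₐ[L] M) S := fun Q hQ => by
    obtain ⟨f, hf⟩ := f3 Q
    obtain rfl := fix Q f hQ hf
    refine eq_bot_iff.2 fun g hg => fix Q g hQ fun x => ?_
    have := add_mem (hg x) (hf x)
    simpa using this
  obtain ⟨φ, hφ⟩ := f4 S
  have hT := (hD L M (M ≃ₐ[L] M) S φ ⊥ inferInstance hU hφ).2 fun v hv => by
    obtain ⟨w, h1, h2⟩ := hφ v hv
    exact fix w _ (h1 ▸ hv) h2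
  refine (IsGalois.mem_range_algebraMap_iff_fixed ζ).2 fun g => ?_
  obtain rfl : g = 1 := Subgroup.mem_bot.1 (hT ▸ Subgroup.mem_top g)
  rfl

end PrimeX

theorem prime_ex (hF : FB_st) (hD : DENS_st) : PRIME_st := by
  classical
  intro L _ _ p S hp h
  have : NeZero p := ⟨hp.ne_zero⟩
  have := IsCyclotomicExtension.isGalois {p} L (CyclotomicField p L)
  have hζ := IsCyclotomicExtension.zeta_spec p L (CyclotomicField p L)
  have p0 : (p : 𝓞 L) ≠ 0 := Nat.cast_ne_zero.2 hp.ne_zero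
  by_contra hc
  obtain ⟨x, hx⟩ := PrimeX.aux hF hD L _ p hζ (S ∪ (dv ((p : 𝓞 L) : L)).support) fun w hw => by
    rw [mem_union, not_or, Finsupp.notMem_support_iff, dv_apply, ord_eq_zero_iff w p0] at hw
    refine ⟨hw.2, ?_⟩
    by_contra k
    exact hc ⟨w, hw.1, hw.2, k⟩
  have h1 : x ^ p = 1 := (algebraMap L (CyclotomicField p L)).injective (by
    rw [map_pow, hx, map_one, hζ.pow_eq_one])
  rw [h x h1, map_one] at hx
  exact hζ.ne_one hp.one_lt hx.symm

end Pool.Agent.MP_f3cd89_nt
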