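import Pool.Agent.MP_f3cd89_nt.AStm

/-! Euler factors of the induced representation, and the transfer. -/

set_option autoImplicit false

open Finset

namespace Pool.Agent.MP_f3cd89_nt

namespace RepeX

theorem prod_zmod {M : Type} [CommMonoid M] (f : ℕ) [NeZero f] (F : ZMod f → M) :
    ∏ t ∈ range f, F (t : ZMod f) = ∏ x, F x :=
  prod_nbij' (fun t => (t : ZMod f)) (fun x => x.val) (fun _ _ => mem_univ _)
    (fun x _ => mem_range.2 (ZMod.val_lt x)) (fun _ ht => ZMod.val_cast_of_lt (mem_range.1 ht))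
    (fun x _ => ZMod.natCast_zmod_val x) fun _ _ => rfl

theorem prod_affine {M : Type} [CommMonoid M] (f : ℕ) (hf : 0 < f) (k : ℤ → M)
    (hk : Function.Periodic k f) (c u : ℤ) (hu : IsCoprime (f : ℤ) u) :
    ∏ t ∈ range f, k (c + t * u) = ∏ t ∈ range f, k t := by
  have : NeZero f := ⟨hf.ne'⟩
  have e : ∀ z : ℤ, k z = k ((z : ZMod f).val) := fun z => by
    rw [ZMod.val_intCast, Int.emod_def, mul_comm]
    exact (hk.sub_int_mul_eq _).symm
  obtain ⟨v, hv⟩ := (ZMod.coe_int_isUnit_iff_isCoprime u f).2 hu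
  have h1 := prod_zmod f fun x => k (((c : ZMod f) + x * v).val)
  have h2 := prod_zmod f fun x => k x.val
  have h3 := Equiv.prod_comp ((Units.mulRight v).trans (Equiv.addLeft (c : ZMod f)))
    fun x => k x.val
  refine Eq.trans ?_ (h1.trans (h3.trans (h2.symm.trans ?_)))
  · refine prod_congr rfl fun t _ => ?_
    rw [e, hv]
    push_cast
    rfl
  · refine prod_congr rfl fun t _ => ?_
    rw [e (t : ℤ), Int.cast_natCast]

theorem prod_block {M : Type} [CommMonoid M] (g f : ℕ) (h : ℤ → M) :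
    ∏ i ∈ range g, ∏ t ∈ range f, h (i + t * g) = ∏ u ∈ range (f * g), h u := by
  induction f with
  | zero => simp
  | succ f ih =>
    rw [Nat.succ_mul, prod_range_add, ← ih, ← prod_mul_distrib]
    refine prod_congr rfl fun i _ => ?_
    rw [prod_range_succ, Nat.cast_add, Nat.cast_mul, add_comm (i : ℤ)]

theorem gcd_facts (n : ℕ) (hn : 0 < n) (e : ℤ) : 0 < n / Int.gcd n e ∧
    n / Int.gcd n e * Int.gcd n e = n ∧ e / Int.gcd n e * Int.gcd n e = e ∧
    IsCoprime ((n / Int.gcd n e : ℕ) : ℤ) (e / Int.gcd n e) := by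
  have h0 : 0 < Int.gcd n e := Int.gcd_pos_of_ne_zero_left _ (by exact_mod_cast hn.ne')
  have h1 : Int.gcd n e ∣ n := Int.natCast_dvd_natCast.1 (Int.gcd_dvd_left _ _)
  refine ⟨Nat.div_pos (Nat.le_of_dvd hn h1) h0, Nat.div_mul_cancel h1,
    Int.ediv_mul_cancel (Int.gcd_dvd_right _ _), ?_⟩
  rw [Int.isCoprime_iff_gcd_eq_one, Int.natCast_div]
  exact Int.gcd_div_gcd_div_gcd h0

theorem per {M : Type} (n : ℕ) (hn : 0 < n) (e : ℤ) (h : ℤ → M) (hh : Function.Periodic h n)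
    (i : ℤ) : Function.Periodic (fun z => h (i + z * Int.gcd n e)) ((n / Int.gcd n e : ℕ) : ℤ) :=
  fun z => by
    have := (gcd_facts n hn e).2.1
    simp only
    rw [add_mul, ← Nat.cast_mul, this, ← add_assoc, hh]

theorem prod_e {M : Type} [CommMonoid M] (n : ℕ) (hn : 0 < n) (e : ℤ) (h : ℤ → M)
    (hh : Function.Periodic h n) (i : ℤ) : ∏ t ∈ range (n / Int.gcd n e), h (i + t * e) =
      ∏ t ∈ range (n / Int.gcd n e), h (i + t * Int.gcd n e) := by
  obtain ⟨h1, -, h3, h4⟩ := gcd_facts n hn e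
  refine Eq.trans ?_ (prod_affine _ h1 _ (per n hn e h hh i) 0 _ h4)
  refine prod_congr rfl fun t _ => ?_
  rw [zero_add, mul_assoc, h3]

theorem prod_sh {M : Type} [CommMonoid M] (n : ℕ) (hn : 0 < n) (e : ℤ) (h : ℤ → M)
    (hh : Function.Periodic h n) (i : ℤ) :
    ∏ t ∈ range (n / Int.gcd n e), h (i + t * Int.gcd n e + -e) =
      ∏ t ∈ range (n / Int.gcd n e), h (i + t * Int.gcd n e) := by
  obtain ⟨h1, -, h3, -⟩ := gcd_facts n hn e
  refine Eq.trans ?_ (prod_affine _ h1 _ (per n hn e h hh i) (-(e / Int.gcd n e)) 1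
    isCoprime_one_right)
  refine prod_congr rfl fun t _ => ?_
  rw [add_mul, neg_mul, h3, mul_one, add_assoc, add_comm (-e)]

variable {A : Type} [CommGroup A] {Δ : Dat A} {G : Type} [Group G] (π : Pres Δ G)
  {k : Type} [CommRing k] (P : Pt Δ k)

theorem conj (z : ℤ) (a : A) : π.X ^ z * π.ι a = π.ι ((Δ.σ ^ z) a) * π.X ^ z := by
  have h1 : ∀ a, π.X * π.ι a = π.ι (Δ.σ a) * π.X := fun a => by
    rw [← π.conj, inv_mul_cancel_right]
  have h2 : ∀ a, π.X⁻¹ * π.ι a = π.ι (Δ.σ⁻¹ a) * π.X⁻¹ := fun a => by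
    rw [inv_mul_eq_iff_eq_mul, ← mul_assoc, h1, MulAut.apply_inv_self, mul_inv_cancel_right]
  induction z using Int.induction_on generalizing a with
  | zero => simp
  | succ n ih => rw [zpow_add_one, mul_assoc, h1, ← mul_assoc, ih, zpow_add_one, MulAut.mul_apply,
      mul_assoc]
  | pred n ih => rw [zpow_sub_one, mul_assoc, h2, ← mul_assoc, ih, zpow_sub_one, MulAut.mul_apply,
      mul_assoc]

theorem pw (a : A) (e : ℤ) (f : ℕ) : (π.ι a * π.X ^ e) ^ f =
    π.ι (∏ t ∈ range f, (Δ.σ ^ ((t : ℤ) * e)) a) * π.X ^ ((f : ℤ) * e) := by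
  induction f with
  | zero => simp
  | succ f ih =>
    rw [pow_succ, ih, prod_range_succ, map_mul, Nat.cast_succ, add_mul, one_mul, zpow_add,
      mul_assoc, mul_assoc, ← mul_assoc _ (π.ι a), conj, mul_assoc]

theorem psi_conj (hp : ∀ (a : A) (e : ℤ), psi π P (π.ι a * π.X ^ e) = P.η a * P.ω ^ e) (a : A)
    (e i : ℤ) (f : ℕ) : psi π P (π.X ^ i * (π.ι a * π.X ^ e) ^ f * (π.X ^ i)⁻¹) =
      (∏ t ∈ range f, P.η ((Δ.σ ^ (i + t * e)) a)) * P.ω ^ ((f : ℤ) * e) := by
  rw [pw, ← mul_assoc, conj, mul_assoc, mul_assoc, ← mul_assoc (π.X ^ i),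
    (zpow_mul_comm π.X i _), mul_inv_cancel_right, hp, map_prod, map_prod]
  simp only [zpow_add, MulAut.mul_apply]

theorem per_η (a : A) : Function.Periodic (fun z : ℤ => P.η ((Δ.σ ^ z) a)) P.d := fun z => by
  simp only
  rw [add_comm, zpow_add, MulAut.mul_apply, zpow_natCast, P.inv]

end RepeX

open RepeX

theorem repe (hD : DET_st) (hR : REP_st) : REPE_st := by
  intro A _ Δ G _ π k _ P
  refine ⟨fun g x => ?_, fun d hd a e he => ?_⟩
  · obtain ⟨hr, -, -, -, -, hp, -⟩ := (hR A Δ G π).2.2.2.2 k P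
    generalize hg : π.pe g = e
    obtain ⟨a, rfl⟩ : ∃ a, g = π.ι a * π.X ^ e := ⟨_, hg ▸ π.eq_pa g⟩
    have h1 : (π.ι a * π.X ^ e)⁻¹ = π.ι ((Δ.σ ^ (-e)) a⁻¹) * π.X ^ (-e) := by
      rw [← conj, mul_inv_rev, map_inv, zpow_neg]
    have h2 := hD k P.d (-e) (fun i => x * ((P.η ((Δ.σ ^ i) ((Δ.σ ^ (-e)) a⁻¹)) * P.ω ^ (-e) : kˣ) :
      k)) 1 fun i => by rw [add_comm, pow_add, MulAut.mul_apply, P.inv]
    rw [Int.gcd_neg] at h2
    rw [h1, hr]
    refine Eq.trans (congrArg _ ?_) (h2.trans (prod_congr rfl fun i _ => ?_))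
    · ext i j
      simp only [Matrix.sub_apply, Matrix.smul_apply, rho_single, lam_of, Matrix.of_apply,
        one_smul, smul_eq_mul, mul_ite, mul_zero, Units.val_mul]
    · rw [one_pow, prod_mul_distrib, prod_const, card_range, ← zpow_natCast π.X, psi_conj π P hp,
        ← Units.coe_prod, prod_mul_distrib, prod_const, card_range, mul_inv, ← prod_inv_distrib,
        ← zpow_natCast (P.ω ^ (-e)), ← zpow_mul, ← zpow_neg, neg_mul, mul_comm e]
      have h3 := (prod_sh P.d P.d_pos e _ (per_η P a⁻¹) i).trans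
        (prod_e P.d P.d_pos e _ (per_η P a⁻¹) i).symm
      simp only [map_inv] at h3 ⊢
      rw [← h3]
      simp only [← zpow_natCast Δ.σ, zpow_add, MulAut.mul_apply, Nat.cast_add, Nat.cast_mul]
  · obtain ⟨-, -, -, -, -, hp, -⟩ := (hR A Δ G π).2.2.2.2 k P
    obtain ⟨-, -, -, -, -, hp', -⟩ := (hR A Δ G π).2.2.2.2 k (P.down d hd)
    obtain ⟨e, rfl⟩ := he
    have d0 : 0 < d := Nat.pos_of_dvd_of_pos hd P.d_pos
    have r0 : 0 < P.d / d := Nat.div_pos (Nat.le_of_dvd P.d_pos hd) d0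
    rw [Int.mul_ediv_cancel_left _ (by exact_mod_cast d0.ne'), hp', Pt.down_η]
    have hh : Function.Periodic (fun z : ℤ => P.η ((Δ.σ ^ ((d : ℤ) * z)) a)) (P.d / d : ℕ) :=
      fun z => by
        simp only
        rw [mul_add, ← Nat.cast_mul, Nat.mul_div_cancel' hd]
        exact per_η P a _
    obtain ⟨-, h2, -, -⟩ := gcd_facts _ r0 e
    have h3 := prod_block (Int.gcd (P.d / d : ℕ) e) (P.d / d / Int.gcd (P.d / d : ℕ) e)
      fun z : ℤ => P.η ((Δ.σ ^ ((d : ℤ) * z)) a)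
    rw [h2] at h3
    rw [prod_congr rfl fun (i : ℕ) _ => (prod_e _ r0 e _ hh i).symm] at h3
    simp only [← pow_mul]
    simp only [← zpow_natCast π.X, psi_conj π P hp]
    rw [prod_mul_distrib, prod_const, card_range]
    congr 1
    · rw [ver, map_prod]
      refine Eq.trans (prod_congr rfl fun t _ => ?_) (h3.symm.trans (prod_congr rfl fun i _ =>
        prod_congr rfl fun t _ => ?_))
      · rw [← zpow_natCast, Nat.cast_mul, mul_comm]
      · rw [Nat.cast_mul, mul_add, mul_left_comm]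
    · change (P.ω ^ (P.d / d)) ^ _ = _
      rw [← zpow_natCast, ← zpow_natCast, ← zpow_mul, ← zpow_mul, mul_right_comm, ← Nat.cast_mul,
        h2]

end Pool.Agent.MP_f3cd89_nt
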