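import Pool.Agent.MP_f3cd89_nt.AStm

/-! Restriction of scalars from a finite field. -/

set_option autoImplicit false

open Finset Polynomial
open scoped Kronecker

namespace Pool.Agent.MP_f3cd89_nt

namespace ResX

lemma emb (p : ℕ) [hp : Fact p.Prime] {f : ℕ} (hf : f ≠ 0) (ι : GaloisField p f →ₐ[ZMod p] Kb p) :
    ∃ S : Finset (Kb p), S.card = p ^ f ∧ (∀ c ∈ S, c ^ p ^ f = c) ∧
      ∀ c, c ^ p ^ f = c → ∃ x, ι x = c := by
  classical
  have := Fintype.ofFinite (GaloisField p f)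
  have h0 : Fintype.card (GaloisField p f) = p ^ f := by
    rw [← Nat.card_eq_fintype_card, GaloisField.card p f hf]
  have h1 : (univ.image ι).card = p ^ f := by
    rw [card_image_of_injective _ (f := ι) ι.injective, card_univ, h0]
  have h2 : ∀ c ∈ univ.image ι, c ^ p ^ f = c := fun c hc => by
    obtain ⟨x, -, rfl⟩ := mem_image.1 hc
    rw [← map_pow, ← h0, FiniteField.pow_card]
  refine ⟨_, h1, h2, fun c hc => ?_⟩
  by_contra h
  have h3 : c ∉ univ.image ι := fun h' => by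
    obtain ⟨x, -, e⟩ := mem_image.1 h'
    exact h ⟨x, e⟩
  have h4 : 1 < p ^ f := Nat.one_lt_pow hf hp.out.one_lt
  refine FiniteField.X_pow_card_sub_X_ne_zero (Kb p) h4
    (eq_zero_of_natDegree_lt_card_of_eval_eq_zero' _ (insert c (univ.image ι)) (fun x hx => ?_) ?_)
  · rw [eval_sub, eval_pow, eval_X, sub_eq_zero]
    rcases mem_insert.1 hx with rfl | hx
    · exact hc
    · exact h2 x hx
  · rw [FiniteField.X_pow_card_sub_X_natDegree_eq _ h4, card_insert_of_notMem h3, h1]
    exact Nat.lt_succ_self _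

lemma fld (p : ℕ) [hp : Fact p.Prime] {f : ℕ} (hf : f ≠ 0) :
    ∃ (Q : Matrix (Fin f) (Fin f) (Kb p)) (M : Kb p → Matrix (Fin f) (Fin f) ℤ), Q.det ≠ 0 ∧
      ∀ c, c ^ p ^ f = c → ∀ j β, ∑ α, Q j α * (M c α β : Kb p) = c ^ p ^ j.1 * Q j β := by
  classical
  let ι : GaloisField p f →ₐ[ZMod p] Kb p := IsAlgClosed.lift
  obtain ⟨-, -, -, h⟩ := emb p hf ι
  let b := Module.finBasisOfFinrankEq (ZMod p) (GaloisField p f) (GaloisField.finrank p hf)
  let σ : Fin f → GaloisField p f →ₐ[ZMod p] Kb p := fun j =>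
    ι.comp (FiniteField.frobeniusAlgHom (ZMod p) (GaloisField p f) ^ j.1)
  have hσ : ∀ j x, σ j x = ι x ^ p ^ j.1 := fun j x => by
    simp only [σ, AlgHom.comp_apply, AlgHom.coe_pow, FiniteField.coe_frobeniusAlgHom, pow_iterate,
      ZMod.card, map_pow]
  have hi : Function.Injective σ := fun i j e => by
    have h1 := (FiniteField.bijective_frobeniusAlgHom_pow (ZMod p) (GaloisField p f)).1
      (a₁ := i.cast (GaloisField.finrank p hf).symm) (a₂ := j.cast (GaloisField.finrank p hf).symm)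
      (AlgHom.ext fun x => ι.injective (DFunLike.congr_fun e x))
    exact Fin.cast_injective _ h1
  refine ⟨fun j α => σ j (b α), fun c α β =>
    (Algebra.leftMulMatrix b (Function.invFun ι c) α β).cast, fun h0 => ?_, fun c hc j β => ?_⟩
  · obtain ⟨v, hv, h1⟩ := Matrix.exists_vecMul_eq_zero_iff.2 h0
    have h2 := (linearIndependent_algHom_toLinearMap (ZMod p) (GaloisField p f) (Kb p)).comp σ hi
    refine hv (funext (Fintype.linearIndependent_iff.1 h2 v (b.ext fun α => ?_)))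
    simpa [Matrix.vecMul, dotProduct] using congrFun h1 α
  · have h1 : ι (Function.invFun ι c) = c := Function.invFun_eq (h c hc)
    change ∑ α, σ j (b α) * (((Algebra.leftMulMatrix b (Function.invFun ι c) α β).cast : ℤ) : Kb p) =
      c ^ p ^ j.1 * σ j (b β)
    generalize Function.invFun ι c = x at h1
    subst h1
    rw [← hσ, ← map_mul, ← b.sum_repr (x * b β), map_sum]
    refine sum_congr rfl fun α _ => ?_
    rw [map_smul, Algebra.smul_def, Algebra.leftMulMatrix_eq_repr_mul, mul_comm,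
      ← map_intCast (algebraMap (ZMod p) (Kb p)), ZMod.intCast_zmod_cast]

lemma blk {K n d : Type} [Field K] [Fintype n] [DecidableEq n] [Fintype d] [DecidableEq d]
    (Q : Matrix n n K) (hQ : Q.det ≠ 0) (N : Matrix (n × d) (n × d) K) (R : n → Matrix d d K)
    (h : ∀ j β i i', ∑ α, Q j α * N (α, i) (β, i') = R j i i' * Q j β) :
    N.det = ∏ j, (R j).det := by
  have h1 : (Q ⊗ₖ (1 : Matrix d d K)) * N =
      (Matrix.blockDiagonal R).submatrix (Equiv.prodComm n d) (Equiv.prodComm n d) *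
        (Q ⊗ₖ (1 : Matrix d d K)) := by
    ext ⟨j, i⟩ ⟨β, i'⟩
    simp [Matrix.mul_apply, Fintype.sum_prod_type, Matrix.one_apply, Matrix.blockDiagonal_apply, h]
  have h2 := congrArg Matrix.det h1
  rw [Matrix.det_mul, Matrix.det_mul, Matrix.det_submatrix_equiv_self, Matrix.det_blockDiagonal,
    mul_comm, Matrix.det_kronecker, Matrix.det_one, one_pow, mul_one] at h2
  exact mul_right_cancel₀ (pow_ne_zero _ hQ) h2

variable {A : Type} [CommGroup A] {Δ : Dat A} {k : Type} [CommRing k]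

/-- the matrix of a group element -/
noncomputable def T (P : Pt Δ k) (e : ℤ) (a : A) (i j : ZMod P.d) : k :=
  if j = i + (e : ZMod P.d) then ((P.η ((Δ.σ ^ i.val) a) : kˣ) : k) * ((P.ω ^ e : kˣ) : k) else 0

lemma rhoG_sum {Λ : Type} [CommRing Λ] (γ : Λ →+* k) (P : Pt Δ k) (s : Finset ℤ)
    (t : ℤ → Finset A) (x : ℤ → A → Λ) (i j : ZMod P.d) :
    rhoG γ P (∑ e ∈ s, ∑ a ∈ t e, Finsupp.single e (MonoidAlgebra.single a (x e a))) i j =
      ∑ e ∈ s, ∑ a ∈ t e, γ (x e a) * T P e a i j := by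
  let φ : (ℤ →₀ MonoidAlgebra Λ A) →+ k :=
    AddMonoidHom.mk' (fun y => rhoG γ P y i j) fun y z => by rw [rhoG_add, Matrix.add_apply]
  change φ _ = _
  simp only [map_sum]
  refine sum_congr rfl fun e _ => sum_congr rfl fun a _ => ?_
  change rhoG γ P _ i j = _
  rw [rhoG_single, lamG_single, T, mul_ite, mul_zero, mul_assoc]

lemma eq_sum {Λ : Type} [CommRing Λ] (y : ℤ →₀ MonoidAlgebra Λ A) :
    y = ∑ e ∈ y.support, ∑ a ∈ (y e).coeff.support,
      Finsupp.single e (MonoidAlgebra.single a ((y e).coeff a)) := by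
  conv_lhs => rw [← y.sum_single, Finsupp.sum]
  refine sum_congr rfl fun e _ => ?_
  rw [← Finsupp.single_finsetSum]
  exact congrArg _ (y e).sum_coeff_single.symm

end ResX

open ResX

theorem res : RES_st := by
  intro A _ Δ p _ f y hf hy
  obtain ⟨Q, M, hQ, h⟩ := fld p hf.ne'
  refine ⟨_, Dt_mem (Matrix.of fun α β : Fin f => ∑ e ∈ y.support, ∑ a ∈ (y e).coeff.support,
    Finsupp.single e (MonoidAlgebra.single a (M ((y e).coeff a) α β))), fun P => ?_⟩
  rw [← Fin.prod_univ_eq_prod_range fun j => (rhoG (iterateFrobenius (Kb p) p j) P y).det]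
  refine blk Q hQ _ _ fun j β i i' => ?_
  conv_rhs => rw [eq_sum y, rhoG_sum]
  simp only [Matrix.of_apply, rho, rhoG_sum, mul_sum, sum_mul]
  rw [sum_comm]
  refine sum_congr rfl fun e _ => ?_
  rw [sum_comm]
  refine sum_congr rfl fun a _ => ?_
  simp only [← mul_assoc, ← sum_mul, eq_intCast]
  rw [h _ (hy e a), iterateFrobenius_def]
  ring

theorem dec : DEC_st := by
  intro p hp f Γ Γ' h1 h2 h h0
  have hf : f ≠ 0 := (mem_range.1 (h1 h0)).ne'
  let ι : GaloisField p f →ₐ[ZMod p] Kb p := IsAlgClosed.lift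
  obtain ⟨S, s1, s2, -⟩ := emb p hf ι
  have e1 := Nat.geomSum_lt hp.out.two_le fun k hk => mem_range.1 (h1 hk)
  have e2 := Nat.geomSum_lt hp.out.two_le fun k hk => mem_range.1 (h2 hk)
  have h3 := eq_zero_of_natDegree_lt_card_of_eval_eq_zero'
    (X ^ (∑ j ∈ Γ, p ^ j) - X ^ (∑ j ∈ Γ', p ^ j) : (Kb p)[X]) S (fun c hc => by
      rw [eval_sub, eval_pow, eval_pow, eval_X, ← prod_pow_eq_pow_sum, ← prod_pow_eq_pow_sum,
        h c (s2 c hc), sub_self]) (by
      rw [s1]
      exact (natDegree_sub_le _ _).trans_lt (by simp [e1, e2]))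
  have h4 := congrArg natDegree (sub_eq_zero.1 h3)
  rw [natDegree_X_pow, natDegree_X_pow] at h4
  rwa [← geomSum_injective hp.out.two_le h4]

end Pool.Agent.MP_f3cd89_nt
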