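import Pool.Agent.MP_f3cd89_nt.SStm

/-! Continuation, integrality and congruences of smoothed L-values. -/

set_option autoImplicit false

open Finset NumberField IsDedekindDomain

namespace Pool.Agent.MP_f3cd89_nt

namespace ScX

theorem ident {f g : ℂ → ℂ} (hf : Differentiable ℂ f) (hg : Differentiable ℂ g) (σ : ℝ)
    (h : ∀ s : ℂ, σ < s.re → f s = g s) : f = g := by
  refine AnalyticOnNhd.eq_of_eventuallyEq (z₀ := ((σ + 1 : ℝ) : ℂ))
    (hf.differentiableOn.analyticOnNhd isOpen_univ)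
    (hg.differentiableOn.analyticOnNhd isOpen_univ) ?_
  exact Filter.eventually_of_mem ((isOpen_lt continuous_const Complex.continuous_re).mem_nhds
    (show σ < ((σ + 1 : ℝ) : ℂ).re by simp)) h

theorem sm_uniq {F : Type} [Field F] [NumberField F] {S C : Finset (Pr F)} {ψ : Pr F → ℂˣ}
    {f g : ℂ → ℂ} (hf : Sm S C ψ f) (hg : Sm S C ψ g) : f = g :=
  ident hf.1 hg.1 1 fun s hs => by
    obtain ⟨L, h1, h2⟩ := hf.2 s hs
    obtain ⟨L', h1', h2'⟩ := hg.2 s hs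
    rw [h2, h2', h1.unique h1']

theorem fourier {l : ℕ} [Fact l.Prime] {Λ : ℂ} {β : ZMod l → ℂ}
    (h : ∀ ζ : ℂ, IsPrimitiveRoot ζ l → Λ = ∑ r : ZMod l, ζ ^ r.val * β r) : Λ = β 0 - β 1 := by
  have hl : l.Prime := Fact.out
  have hζ := Complex.isPrimitiveRoot_exp l hl.ne_zero
  generalize Complex.exp (2 * Real.pi * Complex.I / l) = ζ at hζ
  let ψ : AddChar (ZMod l) ℂ := AddChar.zmodChar l hζ.pow_eq_one
  have hψ : ψ.IsPrimitive := AddChar.zmodChar_primitive_of_primitive_root l hζ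
  have h1 : ∀ a : ZMod l, Λ * (1 - ψ (a * -1)) =
      ∑ r, β r * (ψ (a * r) - ψ (a * (r - 1))) := fun a => by
    rcases eq_or_ne a 0 with rfl | ha
    · simp
    have hc : a.val.Coprime l := (Nat.coprime_of_lt_prime
      (fun e => ha ((ZMod.val_eq_zero a).1 e)) (ZMod.val_lt a) hl).symm
    rw [h _ (hζ.pow_of_coprime _ hc), Finset.sum_mul]
    refine Finset.sum_congr rfl fun r _ => ?_
    have e1 : (ζ ^ a.val) ^ r.val = ψ (a * r) := by
      rw [← pow_mul, ← AddChar.zmodChar_apply' hζ.pow_eq_one, Nat.cast_mul, ZMod.natCast_zmod_val,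
        ZMod.natCast_zmod_val]
    rw [e1, show a * (r - 1) = a * r + a * -1 by ring, AddChar.map_add_eq_mul]
    ring
  have h2 := Finset.sum_congr rfl fun a (_ : a ∈ univ) => h1 a
  rw [← Finset.mul_sum, Finset.sum_comm, Finset.sum_sub_distrib, AddChar.sum_mulShift _ hψ,
    if_neg (neg_ne_zero.2 one_ne_zero)] at h2
  simp only [← Finset.mul_sum, Finset.sum_sub_distrib, AddChar.sum_mulShift _ hψ] at h2
  simp only [Finset.sum_sub_distrib, mul_sub,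
    sub_eq_zero, Nat.cast_ite, mul_ite, Nat.cast_zero, mul_zero, Finset.sum_ite_eq', mem_univ,
    if_true, Finset.sum_const, card_univ, nsmul_eq_mul, mul_one, sub_zero, ZMod.card] at h2
  refine mul_right_cancel₀ (Nat.cast_ne_zero.2 hl.ne_zero : (l : ℂ) ≠ 0) ?_
  rw [h2, sub_mul]

theorem sum_sub {α : Type} (Z Z' : α →₀ ℤ) (h : α → ℂ) :
    ((Z - Z').sum fun D z => (z : ℂ) * h D) =
      (Z.sum fun D z => (z : ℂ) * h D) - Z'.sum fun D z => (z : ℂ) * h D :=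
  Finsupp.sum_sub_index fun _ _ _ => by push_cast; ring

theorem supp_sub {α : Type} {Z Z' : α →₀ ℤ} {D : α} (h : D ∈ (Z - Z').support) :
    D ∈ Z.support ∨ D ∈ Z'.support := by
  classical
  exact Finset.mem_union.1 (Finsupp.support_sub h)

variable {F : Type} [Field F]

theorem act_one (w : Pr F) : act (1 : F ≃+* F) w = w := by
  ext a
  exact Iff.rfl

theorem act_mul (g h : F ≃+* F) (w : Pr F) : act (g * h) w = act g (act h w) := by
  ext a
  exact Iff.rfl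

theorem act_pow {α : Sort _} {g : F ≃+* F} {D : Pr F → α} (h : ∀ w, D (act g w) = D w) (m : ℕ)
    (w : Pr F) : D (act (g ^ m) w) = D w := by
  induction m with
  | zero => rw [pow_zero, act_one]
  | succ m ih => rw [pow_succ', act_mul, h, ih]

theorem app_pow {α : Type} {g : F ≃+* F} {χ : F → α} (h : ∀ x, χ (g x) = χ x) (m : ℕ) (x : F) :
    χ ((g ^ m) x) = χ x := by
  induction m with
  | zero => rfl
  | succ m ih => rw [pow_succ']; exact (h _).trans ih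

theorem exists_pow {G : Type} [Group G] {γ : G} {p j : ℕ} (hp : p.Prime)
    (ho : orderOf γ = p ^ (j + 1)) {n : ℕ} (hn : γ ^ n ≠ 1) : ∃ m, (γ ^ n) ^ m = γ ^ p ^ j := by
  obtain ⟨a, u, hu, rfl⟩ := Nat.exists_eq_pow_mul_and_not_dvd
    (n := n) (fun e => hn (by rw [e, pow_zero])) p hp.ne_one
  have ha : a ≤ j := by
    by_contra h
    refine hn (orderOf_dvd_iff_pow_eq_one.1 ?_)
    rw [ho]
    exact (pow_dvd_pow p (not_le.1 h)).mul_right u
  obtain ⟨v, hv⟩ := exists_pow_eq_self_of_coprime (x := γ) (n := u) (by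
    rw [ho]
    exact (Nat.Coprime.pow_left _ ((Nat.Prime.coprime_iff_not_dvd hp).2 hu)).symm)
  refine ⟨v * p ^ (j - a), ?_⟩
  conv_rhs => rw [← hv]
  rw [← pow_mul, ← pow_mul, ← pow_mul]
  congr 1
  obtain ⟨b, rfl⟩ := Nat.exists_eq_add_of_le ha
  rw [Nat.add_sub_cancel_left]
  ring

theorem finsum_zpowers {G : Type} [Group G] {γ : G} (hγ : IsOfFinOrder γ) (h : G → ℂ) :
    ∑ᶠ g : Subgroup.zpowers γ, h g.1 = ∑ t ∈ range (orderOf γ), h (γ ^ t) := by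
  rw [← finsum_comp_equiv (finEquivZPowers hγ), finsum_eq_sum_of_fintype,
    ← Fin.sum_univ_eq_sum_range (fun t => h (γ ^ t))]
  exact Finset.sum_congr rfl fun i _ => by rw [finEquivZPowers_apply]

theorem nmD_nonneg [NumberField F] (D : Pr F →₀ ℤ) : 0 ≤ nmD D :=
  Finset.prod_nonneg fun _ _ => zpow_nonneg (Nat.cast_nonneg _) _

theorem cpow_pow {x : ℝ} (hx : 0 ≤ x) (p : ℕ) (s : ℂ) :
    ((x ^ p : ℝ) : ℂ) ^ (-s) = (x : ℂ) ^ (-(p * s)) := by
  rw [← mul_neg, Complex.cpow_nat_mul', Complex.ofReal_pow]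
  · rw [Complex.arg_ofReal_of_nonneg hx, mul_zero]
    exact neg_lt_zero.2 Real.pi_pos
  · rw [Complex.arg_ofReal_of_nonneg hx, mul_zero]
    exact Real.pi_pos.le

end ScX

open ScX

theorem sca (hG : SCG_st) (hE : EUL_st) (hB : NTB_st) : SCA_st := by
  intro F _ _ _ l S C N hl hN hd hC hlc
  have := Fact.mk hl
  obtain ⟨k, Z, hZ, H⟩ := hG F ⊥ l S C N hN hd hC hlc (by simp)
    (fun g hg w => by rw [Subgroup.mem_bot.1 hg, act_one])
    (fun g hg w => by rw [Subgroup.mem_bot.1 hg, act_one])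
  refine ⟨k, Z 0 - Z 1, fun D hD => (supp_sub hD).elim (hZ 0 D) (hZ 1 D), fun ψ hψ => ?_⟩
  have hn := (hB F).2.2.2.2 S N ψ hψ
  have key : ∀ ζ : ℂ, IsPrimitiveRoot ζ l → ∃ f, Sm S C ψ f ∧ (l : ℂ) ^ k * f 0 =
      ∑ r : ZMod l, ζ ^ r.val * (Z r).sum fun D z => (z : ℂ) * ((chv ψ D : ℂˣ) : ℂ) := by
    intro ζ hζ
    obtain ⟨f, f', σ₀, hf, hf', hs, he⟩ := H ψ hψ ζ hζ
    refine ⟨f, (hE F l S C ψ ζ hd hlc hn hζ).1 f σ₀ hf fun s h => (hs s h).1, ?_⟩
    have h0 : f' = fun _ => 0 := ident hf' (differentiable_const _) σ₀ fun s h => by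
      refine (hs s h).2.unique ?_
      rw [funext fun q => if_neg fun ⟨g, hg, h1, _⟩ => h1 (Subgroup.mem_bot.1 hg)]
      exact hasSum_zero
    rw [h0, sub_zero] at he
    rw [he]
    refine Finset.sum_congr rfl fun r _ => congrArg _ (Finsupp.sum_congr fun D _ => ?_)
    rw [finsum_unique]
    exact congrArg (fun φ : Pr F → ℂˣ => ((Z r D : ℤ) : ℂ) * ((chv φ D : ℂˣ) : ℂ))
      (funext fun w => congrArg ψ (act_one w))
  obtain ⟨f, hf, -⟩ := key _ (Complex.isPrimitiveRoot_exp l hl.ne_zero)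
  refine ⟨f, hf, ?_⟩
  rw [sum_sub]
  refine fourier (β := fun r => (Z r).sum fun D z => (z : ℂ) * ((chv ψ D : ℂˣ) : ℂ)) fun ζ hζ => ?_
  obtain ⟨g, hg, he⟩ := key ζ hζ
  rw [sm_uniq hf hg, he]

theorem scb (hG : SCG_st) (hE : EUL_st) (hB : NTB_st) (hF : FIX_st) : SCB_st := by
  intro F₁ F _ _ _ _ _ _ p j γ S₁ C₁ l N hR hl hlp hN hd hC hlc hS hCs
  have := Fact.mk hl
  have hp := hR.prime
  have := Fact.mk hp
  have hρ : γ ^ p ^ j ≠ 1 := fun e => hp.ne_one (by rw [← hR.ord_eq, e, orderOf_one])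
  have ho : orderOf γ = p ^ (j + 1) := orderOf_eq_prime_pow hρ (by
    rw [pow_succ, pow_mul]
    exact orderOf_dvd_iff_pow_eq_one.1 hR.ord_eq.dvd)
  have hγ : IsOfFinOrder γ := orderOf_pos_iff.1 (ho ▸ pow_pos hp.pos _)
  have hfin : Finite (Subgroup.zpowers γ) := hγ.finite_zpowers
  have hmem : ∀ g ∈ Subgroup.zpowers γ, ∃ n : ℕ, γ ^ n = g := fun g hg =>
    hγ.mem_powers_iff_mem_zpowers.2 hg
  have hd' : Disjoint (above F S₁) (above F C₁) := Finset.disjoint_left.2 fun w h1 h2 =>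
    Finset.disjoint_left.1 hd (mem_above.1 h1) (mem_above.1 h2)
  have hlc' : ∀ c ∈ above F C₁, (l : 𝓞 F) ∈ c.asIdeal := fun c hc => by
    have := hlc _ (mem_above.1 hc)
    rw [← map_natCast (algebraMap (𝓞 F₁) (𝓞 F))]
    exact this
  have hst : ∀ T : Finset (Pr F), (∀ w, act γ w ∈ T ↔ w ∈ T) →
      ∀ g ∈ Subgroup.zpowers γ, ∀ w, act g w ∈ T ↔ w ∈ T := fun T hT g hg w => by
    obtain ⟨n, rfl⟩ := hmem g hg
    exact iff_of_eq (act_pow (D := fun w => w ∈ T) (fun w => propext (hT w)) n w)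
  obtain ⟨k, Z, hZ, H⟩ := hG F (Subgroup.zpowers γ) l (above F S₁) (above F C₁) N hN hd' (by
      obtain ⟨c, hc⟩ := hC
      obtain ⟨w, rfl⟩ := under_surj (E' := F) c
      exact ⟨w, mem_above.2 hc⟩) hlc' (by
      rw [Nat.card_zpowers, ho]
      exact ((Nat.coprime_primes hp hl).2 hlp.symm).pow_left _) (hst _ hS) (hst _ hCs)
  refine ⟨k, Z 0 - Z 1, fun D hD => (supp_sub hD).elim (hZ 0 D) (hZ 1 D),
    fun ψ hψ f f₁ hf hf₁ => ?_⟩
  have hn := (hB F).2.2.2.2 _ N ψ hψ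
  have hn₁ : ∀ v, v ∉ S₁ → ‖((∏ w ∈ above F {v}, ψ w : ℂˣ) : ℂ)‖ = 1 := fun v hv => by
    rw [Units.coe_prod, norm_prod]
    refine Finset.prod_eq_one fun w hw => hn w fun h => hv ?_
    rw [← Finset.mem_singleton.1 (mem_above.1 hw)]
    exact mem_above.1 h
  obtain ⟨hnm, hchv, Φ, hΦ, hΦ1, hΦ2⟩ := hF F₁ F p _ S₁ C₁ l hR hlp hd hlc
  have hiff : ∀ q : Pair l (above F S₁) (above F C₁), (∃ g ∈ Subgroup.zpowers γ, g ≠ 1 ∧
      (∀ w, q.1.1 (act g w) = q.1.1 w) ∧ ∀ x, q.1.2 (g x) = q.1.2 x) ↔ q ∈ Set.range Φ := by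
    intro q
    rw [hΦ2]
    refine ⟨fun ⟨g, hg, h1, h2, h3⟩ => ?_, fun h => ⟨_, Subgroup.npow_mem_zpowers γ _, hρ, h⟩⟩
    obtain ⟨n, rfl⟩ := hmem g hg
    obtain ⟨m, hm⟩ := exists_pow hp ho h1
    rw [← hm]
    exact ⟨act_pow (D := q.1.1) h2 m, app_pow h3 m⟩
  rw [sum_sub]
  refine fourier (β := fun r => (Z r).sum fun D z => (z : ℂ) * ∑ t ∈ range (p ^ (j + 1)),
    ((chv (fun w => ψ (act (γ ^ t) w)) D : ℂˣ) : ℂ)) fun ζ hζ => ?_
  obtain ⟨g, g', σ₀, hg, hg', hs, he⟩ := H ψ hψ ζ hζ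
  have e1 : f = g := sm_uniq hf ((hE F l _ _ ψ ζ hd' hlc' hn hζ).1 g σ₀ hg fun s h => (hs s h).1)
  have e2 : g' = fun s => f₁ (p * s) := by
    refine ident hg' (hf₁.1.comp (by fun_prop)) (max σ₀ 1) fun s h => ?_
    have h1 := (max_lt_iff.1 h).2
    have h2 : 1 < ((p : ℂ) * s).re := by
      have : (1 : ℝ) ≤ p := by exact_mod_cast hp.one_le
      rw [Complex.mul_re, Complex.natCast_re, Complex.natCast_im, zero_mul, sub_zero]
      nlinarith
    refine ((hΦ.hasSum_iff fun q hq => if_neg fun e => hq ((hiff q).1 e)).2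
      (hs s (max_lt_iff.1 h).1).2).unique ?_
    refine Eq.subst (motive := fun u => HasSum u (f₁ (p * s))) (funext fun q => ?_)
      ((hE F₁ l S₁ C₁ _ ζ hd hlc hn₁ hζ).2 f₁ hf₁ _ h2)
    rw [Function.comp_apply, if_pos ((hiff _).2 ⟨q, rfl⟩), (hΦ1 q).1, (hΦ1 q).2, hchv,
      hnm _ q.2.2.1, cpow_pow (nmD_nonneg _)]
  have e3 : g' 0 = f₁ 0 := by rw [e2]; simp
  rw [e1, ← e3, he]
  refine Finset.sum_congr rfl fun r _ => congrArg _ (Finsupp.sum_congr fun D _ => ?_)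
  rw [finsum_zpowers hγ fun g => ((chv (fun w => ψ (act g w)) D : ℂˣ) : ℂ), ho]

end Pool.Agent.MP_f3cd89_nt
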