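import Pool.Agent.MP_f3cd89_nt.AStm

/-! Reduced norms separate the points that the functions `V` separate. -/

set_option autoImplicit false

open Finset

namespace Pool.Agent.MP_f3cd89_nt

namespace SepX

variable {A : Type} [CommGroup A] {Δ : Dat A}

variable (Δ) in
/-- invariance under `σ ^ i` -/
def Iv {β : Type} (ψ : A → β) (i : ℕ) : Prop := ∀ a, ψ ((Δ.σ ^ i) a) = ψ a

lemma exists_period {β : Type} (ψ : A → β) : ∃ s, ∀ i, Iv Δ ψ i ↔ s ∣ i := by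
  let T : (A → β) → A → β := fun φ a => φ (Δ.σ a)
  have h : ∀ i φ a, T^[i] φ a = φ ((Δ.σ ^ i) a) := by
    intro i
    induction i with
    | zero => simp
    | succ i ih =>
      intro φ a
      rw [Function.iterate_succ_apply, ih, pow_succ', MulAut.mul_apply]
  refine ⟨Function.minimalPeriod T ψ, fun i => ?_⟩
  rw [← Function.isPeriodicPt_iff_minimalPeriod_dvd, Function.IsPeriodicPt, Function.IsFixedPt,
    funext_iff]
  simp only [h, Iv]

lemma comm (i j : ℕ) (a : A) : (Δ.σ ^ i) ((Δ.σ ^ j) a) = (Δ.σ ^ j) ((Δ.σ ^ i) a) := by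
  rw [← MulAut.mul_apply, ← MulAut.mul_apply, ← pow_add, ← pow_add, add_comm]

lemma sum_per {k : Type} [CommRing k] (F : ℕ → k) (g : ℕ) (h : ∀ i, F (g + i) = F i) (n : ℕ) :
    ∑ i ∈ range (n * g), F i = n * ∑ i ∈ range g, F i := by
  induction n with
  | zero => simp
  | succ n ih =>
    rw [Nat.succ_mul, add_comm (n * g), sum_range_add]
    simp only [h, ih]
    push_cast
    ring

lemma V_eq {k : Type} [CommRing k] (P : Pt Δ k) {d : ℕ} (h : d ∣ P.d) (a : A) (e : ℤ) :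
    V d a e P = ∑ i ∈ range d,
      (((P.down d h).η ((Δ.σ ^ i) a) : kˣ) : k) * ((P.ω ^ e : kˣ) : k) ^ (P.d / d) := by
  rw [V, W, if_pos h]
  refine sum_congr rfl fun i _ => ?_
  rw [prod_mul_distrib, prod_const, card_range]
  congr 1
  simp only [lam_of, Pt.down, MonoidHom.finsetProd_apply, MonoidHom.comp_apply,
    MulEquiv.coe_toMonoidHom, Units.coe_prod]
  refine prod_congr rfl fun t _ => ?_
  rw [add_comm, pow_add, MulAut.mul_apply]

lemma old (hB : BASE_st) {k : Type} [CommRing k] {p : ℕ} (hp : p.Prime) [CharP k p] (P : Pt Δ k)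
    (h : p ∣ P.d) (hi : Iv Δ P.η (P.d / p)) (d : ℕ) (a : A) (e : ℤ) :
    V d a e (P.down (P.d / p) (Nat.div_dvd_of_dvd h)) = V d a e P := by
  by_cases h1 : d ∣ P.d / p
  · exact (hB A Δ k).2.2.2.2.2.2.1 d a e P _ _ h1
  have e1 : V d a e (P.down (P.d / p) (Nat.div_dvd_of_dvd h)) = 0 := if_neg h1
  rw [e1]
  by_cases h2 : d ∣ P.d
  swap
  · exact (if_neg h2).symm
  obtain ⟨s, hs⟩ := exists_period (Δ := Δ) (P.down d h2).η
  have k1 : s ∣ d := (hs d).1 (P.down d h2).inv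
  have k2 : s ∣ P.d / p := (hs _).1 fun a => by
    simp only [Pt.down, MonoidHom.finsetProd_apply, MonoidHom.comp_apply,
      MulEquiv.coe_toMonoidHom]
    exact prod_congr rfl fun t _ => by rw [comm, hi]
  have k3 := (hs _).2 (Nat.dvd_gcd k1 k2)
  obtain ⟨n, hn⟩ := Nat.gcd_dvd_left d (P.d / p)
  have k4 : p ∣ n := by
    by_contra hpn
    have c1 : Nat.Coprime n p := ((Nat.Prime.coprime_iff_not_dvd hp).2 hpn).symm
    obtain ⟨u, hu⟩ := Nat.gcd_dvd_right d (P.d / p)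
    have g0 : 0 < Nat.gcd d (P.d / p) :=
      Nat.gcd_pos_of_pos_left _ (Nat.pos_of_dvd_of_pos h2 P.d_pos)
    have c2 : n ∣ u * p := by
      refine Nat.dvd_of_mul_dvd_mul_left g0 ?_
      rw [← hn, ← mul_assoc, ← hu, Nat.div_mul_cancel h]
      exact h2
    have c3 := Nat.mul_dvd_mul_left (Nat.gcd d (P.d / p)) (c1.dvd_of_dvd_mul_right c2)
    rw [← hn, ← hu] at c3
    exact h1 c3
  have k5 := sum_per (fun i => (((P.down d h2).η ((Δ.σ ^ i) a) : kˣ) : k) *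
    ((P.ω ^ e : kˣ) : k) ^ (P.d / d)) (Nat.gcd d (P.d / p))
    (fun i => by rw [pow_add, MulAut.mul_apply, k3]) n
  rw [mul_comm n, ← hn, (CharP.cast_eq_zero_iff k p n).2 k4, zero_mul] at k5
  rw [V_eq P h2, k5]

lemma iv_iff {k : Type} [Field k] {γ : k →+* k} {η : A →* kˣ} {P : Pt Δ k} {i : ℕ}
    (h : ∀ a, P.ch i a = γ (η a)) (j : ℕ) : Iv Δ P.η j ↔ Iv Δ η j := by
  simp only [Pt.ch_apply] at h
  refine ⟨fun hj a => Units.ext (γ.injective ?_), fun hj a => Units.ext ?_⟩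
  · rw [← h, ← h, comm, hj]
  · obtain ⟨b, rfl⟩ := (Δ.σ ^ i).surjective a
    rw [comm, h, h, hj]

lemma fixed [Fintype A] {k : Type} [CommRing k] (φ : k →+* k) (s M : ℕ) (η : A →* kˣ) (l : kˣ)
    (c : k) (h1 : ∀ a, φ (η a) = η a) (h2 : φ (l⁻¹ : kˣ) = (l⁻¹ : kˣ)) (h3 : φ c = c) (e : ℤ)
    (a : A) : φ ((testEl s M η l c e).coeff a) = (testEl s M η l c e).coeff a := by
  classical
  rw [← MonoidAlgebra.coeff_mapRingHom]
  congr 2
  simp only [testEl, Finsupp.add_apply, Finsupp.finsetSum_apply, Finsupp.single_apply, map_add,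
    map_sum, apply_ite (MonoidAlgebra.mapRingHom A φ), map_one, map_zero, map_mul, map_prod,
    map_sub, map_pow, MonoidAlgebra.mapRingHom_single, h1, h2, h3, Units.val_pow_eq_pow_val]

variable {p : ℕ} [hp : Fact p.Prime]

/-- the character of a new point is not invariant under `σ ^ (d / p)` -/
def New (P : Pt Δ (Kb p)) : Prop := ¬(p ∣ P.d ∧ Iv Δ P.η (P.d / p))

lemma New.not_dvd {P : Pt Δ (Kb p)} (h : New P) {s : ℕ} (hs : ∀ i, Iv Δ P.η i ↔ s ∣ i) :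
    ¬p ∣ P.d / s := by
  rintro ⟨u, hu⟩
  have e : P.d = p * (s * u) := by
    rw [← Nat.mul_div_cancel' ((hs _).1 P.inv), hu]
    ring
  refine h ⟨⟨_, e⟩, (hs _).2 ⟨u, ?_⟩⟩
  rw [e, Nat.mul_div_cancel_left _ hp.out.pos]

lemma exists_exp [Finite A] : ∃ f M : ℕ, 0 < f ∧ M + 1 = p ^ f ∧
    (∀ P : Pt Δ (Kb p), (∀ a, P.η a ^ M = 1) ∧ P.ω ^ M = 1) ∧ ∀ r, r ∣ Δ.m → ¬p ∣ r → r ∣ M := by
  have hN : Δ.m * Nat.card A ≠ 0 := mul_ne_zero Δ.m_pos.ne' Nat.card_pos.ne'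
  obtain ⟨v, N, h1, h2⟩ := Nat.exists_eq_pow_mul_and_not_dvd hN p hp.out.ne_one
  have hN0 : 0 < N := Nat.pos_of_ne_zero fun h => h1 (h ▸ dvd_zero p)
  have h3 := Nat.ModEq.pow_totient ((Nat.Prime.coprime_iff_not_dvd hp.out).2 h1)
  have h4 : 1 ≤ p ^ N.totient := Nat.one_le_pow _ _ hp.out.pos
  have h5 : N ∣ p ^ N.totient - 1 := (Nat.modEq_iff_dvd' h4).1 h3.symm
  have h6 : ∀ x : (Kb p)ˣ, x ^ (Δ.m * Nat.card A) = 1 → x ^ (p ^ N.totient - 1) = 1 := by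
    intro x hx
    rw [h2, Units.ext_iff, Units.val_pow_eq_pow_val, Units.val_one,
      ExpChar.pow_prime_pow_mul_eq_one_iff] at hx
    obtain ⟨u, hu⟩ := h5
    rw [hu, Units.ext_iff, Units.val_pow_eq_pow_val, pow_mul, hx, one_pow, Units.val_one]
  refine ⟨N.totient, p ^ N.totient - 1, Nat.totient_pos.2 hN0, Nat.sub_add_cancel h4,
    fun P => ⟨fun a => h6 _ ?_, h6 _ ?_⟩, fun r hr hpr => ?_⟩
  · rw [pow_mul', ← map_pow, pow_card_eq_one', map_one, one_pow]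
  · rw [pow_mul, P.ω_pow, ← map_pow, pow_card_eq_one', map_one]
  · refine dvd_trans ?_ h5
    refine (((Nat.Prime.coprime_iff_not_dvd hp.out).2 hpr).symm.pow_right v).dvd_of_dvd_mul_left ?_
    rw [← h2]
    exact hr.mul_right _

lemma key [Finite A] (hR : RES_st) (hT : TEST_st) (hD : DEC_st) {P P' : Pt Δ (Kb p)} (hP : New P)
    (hP' : New P') (h : ∀ f ∈ J Δ (Kb p), f P = f P') {s : ℕ} (hs : ∀ i, Iv Δ P.η i ↔ s ∣ i)
    (ξ : (Kb p)ˣ) (hξ : ξ ^ (P.d / s) = 1) : (∃ i, ∀ a, P'.ch i a = P.η a) ∧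
      (P.ω ^ s * ξ) ^ (P'.d / s) = P'.ω ^ P'.d := by
  classical
  have := Fintype.ofFinite A
  obtain ⟨f, M, hf, hM, h1, h2⟩ := exists_exp (Δ := Δ) (p := p)
  have h3 : ∀ (Q : Pt Δ (Kb p)) (γ : Kb p →+* Kb p), New Q →
      (∃ i, ∀ a, Q.ch i a = γ (P.η a)) → Q.d / s ∣ M := by
    rintro Q γ hQ ⟨i, hi⟩
    have k : ∀ j, Iv Δ Q.η j ↔ s ∣ j := fun j => (iv_iff hi j).trans (hs j)
    exact h2 _ ((Nat.div_dvd_of_dvd ((k _).1 Q.inv)).trans Q.d_dvd) (hQ.not_dvd k)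
  have h4 : ∃ i, ∀ a, P.ch i a = RingHom.id _ (P.η a : Kb p) := ⟨0, fun a => by simp⟩
  have hl : (P.ω ^ s * ξ) ^ M = 1 := by
    obtain ⟨u, hu⟩ := h3 P _ hP h4
    rw [mul_pow, ← pow_mul, pow_mul', (h1 P).2, one_pow, one_mul, hu, pow_mul, hξ, one_pow]
  have h5 : ∀ x : (Kb p)ˣ, x ^ M = 1 → iterateFrobenius (Kb p) p f x = x := fun x hx => by
    rw [iterateFrobenius_def, ← hM, pow_succ, ← Units.val_pow_eq_pow_val, hx, Units.val_one,
      one_mul]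
  let Γ : Pt Δ (Kb p) → Finset ℕ := fun Q => (range f).filter fun j =>
    (∃ i, ∀ a, Q.ch i a = iterateFrobenius (Kb p) p j (P.η a)) ∧
      iterateFrobenius (Kb p) p j (P.ω ^ s * ξ : (Kb p)ˣ) ^ (Q.d / s) = (Q.ω : Kb p) ^ Q.d
  have h6 := hD p f (Γ P) (Γ P') (filter_subset _ _) (filter_subset _ _) (fun c hc => ?_) ?_
  · simp only [Γ, mem_filter, iterateFrobenius_zero_apply] at h6
    refine ⟨h6.2.1, Units.ext ?_⟩
    simpa only [Units.val_pow_eq_pow_val] using h6.2.2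
  · obtain ⟨Θ, hΘ, k⟩ := hR A Δ p f (testEl s M P.η (P.ω ^ s * ξ) c) hf fun e a =>
      fixed (iterateFrobenius (Kb p) p f) s M P.η _ c (fun a => h5 _ ((h1 P).1 a))
        (h5 _ (by rw [inv_pow, hl, inv_one])) hc e a
    have k2 : ∀ Q, New Q → Θ Q = ∏ j ∈ Γ Q, c ^ p ^ j := fun Q hQ => by
      rw [k, prod_filter]
      refine prod_congr rfl fun j _ => ?_
      rw [hT A Δ p f s M _ P.η _ c Q hf hM (h1 P).1 hl (h1 Q).1 (h1 Q).2 hs (h3 Q _ hQ)]
      exact if_congr Iff.rfl rfl rfl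
    rw [← k2 P hP, ← k2 P' hP', h Θ hΘ]
  · simp only [Γ, mem_filter, iterateFrobenius_zero_apply, mem_range]
    refine ⟨hf, h4, ?_⟩
    rw [← Units.val_pow_eq_pow_val, mul_pow, hξ, mul_one, ← pow_mul,
      Nat.mul_div_cancel' ((hs _).1 P.inv), Units.val_pow_eq_pow_val]

lemma key2 [Finite A] (hR : RES_st) (hT : TEST_st) (hD : DEC_st) {P P' : Pt Δ (Kb p)}
    (hP : New P) (hP' : New P') (h : ∀ f ∈ J Δ (Kb p), f P = f P') {s : ℕ}
    (hs : ∀ i, Iv Δ P.η i ↔ s ∣ i) : P.d / s ∣ P'.d / s := by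
  have : NeZero ((P.d / s : ℕ) : Kb p) :=
    ⟨fun h0 => hP.not_dvd hs ((CharP.cast_eq_zero_iff (Kb p) p _).1 h0)⟩
  have h0 : P.d / s ≠ 0 := fun h0 => hP.not_dvd hs (h0 ▸ dvd_zero p)
  obtain ⟨ζ, hζ⟩ := HasEnoughRootsOfUnity.exists_primitiveRoot (Kb p) (P.d / s)
  obtain ⟨ξ, rfl⟩ := hζ.isUnit h0
  rw [IsPrimitiveRoot.coe_units_iff] at hζ
  have k1 := (key hR hT hD hP hP' h hs 1 (one_pow _)).2
  have k2 := (key hR hT hD hP hP' h hs ξ hζ.pow_eq_one).2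
  rw [mul_one] at k1
  rw [mul_pow, k1, mul_eq_left] at k2
  exact hζ.dvd_of_pow_eq_one _ k2

lemma new [Finite A] (hB : BASE_st) (hR : RES_st) (hT : TEST_st) (hD : DEC_st)
    {P P' : Pt Δ (Kb p)} (hP : New P) (hP' : New P') (h : ∀ f ∈ J Δ (Kb p), f P = f P')
    (d : ℕ) (a : A) (e : ℤ) (he : (d : ℤ) ∣ e) : V d a e P = V d a e P' := by
  obtain ⟨s, hs⟩ := exists_period (Δ := Δ) P.η
  obtain ⟨⟨i, hi⟩, k1⟩ := key hR hT hD hP hP' h hs 1 (one_pow _)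
  have hs' : ∀ j, Iv Δ P'.η j ↔ s ∣ j := fun j =>
    (iv_iff (γ := RingHom.id _) hi j).trans (hs j)
  have k2 : P.d / s = P'.d / s := Nat.dvd_antisymm (key2 hR hT hD hP hP' h hs)
    (key2 hR hT hD hP' hP (fun f hf => (h f hf).symm) hs')
  have k3 : P.d = P'.d := by
    rw [← Nat.mul_div_cancel' ((hs _).1 P.inv), k2, Nat.mul_div_cancel' ((hs' _).1 P'.inv)]
  rw [mul_one, ← pow_mul, Nat.mul_div_cancel' ((hs' _).1 P'.inv)] at k1
  rw [V, ← (hB A Δ (Kb p)).2.1 d i _ e P', W, W, k3]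
  split_ifs with hd
  swap
  · rfl
  refine sum_congr rfl fun j _ => ?_
  rw [prod_mul_distrib, prod_mul_distrib]
  congr 1
  · refine prod_congr rfl fun t _ => ?_
    rw [lam_sg, lam_of, lam_of, ← hi, Pt.ch_apply, add_comm _ i, pow_add _ i, MulAut.mul_apply]
  · obtain ⟨u, rfl⟩ := he
    have k4 : ∀ x : (Kb p)ˣ, (x ^ ((d : ℤ) * u)) ^ (P'.d / d) = (x ^ P'.d) ^ u := fun x => by
      rw [← zpow_natCast, ← zpow_natCast, ← zpow_mul, ← zpow_mul, mul_right_comm, ← Nat.cast_mul,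
        Nat.mul_div_cancel' hd]
    rw [prod_const, prod_const, card_range, ← Units.val_pow_eq_pow_val,
      ← Units.val_pow_eq_pow_val, k4, k4, k1]

lemma ext {k : Type} [CommRing k] {P P' : Pt Δ k}
    (h : ∀ (d : ℕ) (a : A) (e : ℤ), (d : ℤ) ∣ e → V d a e P = V d a e P') :
    ∀ g ∈ B Δ k, g P = g P' := by
  intro g hg
  induction hg using AddSubgroup.closure_induction with
  | mem g hg =>
    obtain ⟨d, a, e, -, he, rfl⟩ := hg
    exact h d a e he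
  | zero => rfl
  | add x y _ _ hx hy => rw [Pi.add_apply, Pi.add_apply, hx, hy]
  | neg x _ hx => rw [Pi.neg_apply, Pi.neg_apply, hx]

end SepX

open SepX in
theorem sep (hB : BASE_st) (hJ : JB_st) (hR : RES_st) (hT : TEST_st) (hD : DEC_st) : SEP_st := by
  intro A _ _ Δ p hp P P'
  induction hn : P.d + P'.d using Nat.strong_induction_on generalizing P P' with
  | _ n ih =>
  intro h
  by_cases hP : New P
  swap
  · obtain ⟨h1, h2⟩ := not_not.1 hP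
    have k := ext fun d a e _ => old hB hp.out P h1 h2 d a e
    have k' := ih _ (hn ▸ Nat.add_lt_add_right (Nat.div_lt_self P.d_pos hp.out.one_lt) _)
      (P.down (P.d / p) (Nat.div_dvd_of_dvd h1)) P' rfl fun f hf =>
        (k f (hJ A Δ _ hf)).trans (h f hf)
    exact fun g hg => (k g hg).symm.trans (k' g hg)
  by_cases hP' : New P'
  swap
  · obtain ⟨h1, h2⟩ := not_not.1 hP'
    have k := ext fun d a e _ => old hB hp.out P' h1 h2 d a e
    have k' := ih _ (hn ▸ Nat.add_lt_add_left (Nat.div_lt_self P'.d_pos hp.out.one_lt) _)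
      P (P'.down (P'.d / p) (Nat.div_dvd_of_dvd h1)) rfl fun f hf =>
        (h f hf).trans (k f (hJ A Δ _ hf)).symm
    exact fun g hg => (k' g hg).trans (k g hg)
  exact ext fun d a e he => new hB hR hT hD hP hP' h d a e he

end Pool.Agent.MP_f3cd89_nt
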