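import Pool.Agent.MP_f3cd89_nt.SStm

/-! Auxiliary lemmas for the abstract congruence. -/

set_option autoImplicit false

open Finset Polynomial

namespace Pool.Agent.MP_f3cd89_nt.ShX

open Classical in
theorem hasSum_fib {Z I : Type} [Fintype I] {B : I → Type} (π : Z → I) (Φ : ∀ i, B i → Z)
    (h1 : ∀ i, Function.Injective (Φ i)) (h2 : ∀ i z, z ∈ Set.range (Φ i) ↔ π z = i) (F : Z → ℂ)
    (a : I → ℂ) (h : ∀ i, HasSum (fun b => F (Φ i b)) (a i)) : HasSum F (∑ i, a i) := by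
  have h3 : ∀ i ∈ (univ : Finset I), HasSum (fun z => if π z = i then F z else 0) (a i) := by
    intro i _
    refine ((h1 i).hasSum_iff fun z hz => if_neg fun e => hz ((h2 i z).2 e)).1 ?_
    have e : (fun z => if π z = i then F z else 0) ∘ Φ i = fun b => F (Φ i b) :=
      funext fun b => if_pos ((h2 i _).1 ⟨b, rfl⟩)
    rw [e]
    exact h i
  simpa using hasSum_sum h3

theorem orbit_sum (Γ C : Type) [Group Γ] [Finite Γ] [Fintype C] [MulAction Γ C] (Fr : C → Prop)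
    [DecidablePred Fr] (hFr : ∀ c, Fr c ↔ ∀ γ : Γ, γ • c = c → γ = 1) :
    ∃ R : Finset C, ∀ W : C → ℂ, ∑ c with Fr c, W c = ∑ c ∈ R, ∑ᶠ γ : Γ, W (γ • c) := by
  classical
  have := Fintype.ofFinite Γ
  have hf : ∀ (c : C) (δ : Γ), Fr c → Fr (δ • c) := fun c δ h => (hFr _).2 fun γ e => by
    have h1 := (hFr _).1 h (δ⁻¹ * γ * δ) (by rw [mul_smul, mul_smul, e, inv_smul_smul])
    rwa [mul_assoc, inv_mul_eq_one, eq_comm, mul_eq_right] at h1
  refine ⟨univ.filter fun c => Fr c ∧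
    (Quotient.mk (MulAction.orbitRel Γ C) c).out = c, fun W => ?_⟩
  simp only [finsum_eq_sum_of_fintype]
  rw [← sum_product']
  refine (sum_bij (fun p _ => p.2 • p.1) (fun p hp => ?_) (fun p hp p' hp' e => ?_)
    (fun c hc => ?_) fun _ _ => rfl).symm
  · exact mem_filter.2 ⟨mem_univ _, hf _ _ (mem_filter.1 (mem_product.1 hp).1).2.1⟩
  · have h1 := (mem_filter.1 (mem_product.1 hp).1).2
    have h2 := (mem_filter.1 (mem_product.1 hp').1).2
    have h3 : p.1 = (p.2⁻¹ * p'.2) • p'.1 := by rw [mul_smul, ← e, inv_smul_smul]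
    have h4 : p.1 = p'.1 := by
      rw [← h1.2, ← h2.2]
      exact congrArg Quotient.out (Quotient.sound ⟨_, h3.symm⟩)
    refine Prod.ext h4 ?_
    rw [← h4] at h3
    exact inv_mul_eq_one.1 ((hFr _).1 h1.1 _ h3.symm)
  · obtain ⟨γ, hγ⟩ : ∃ γ : Γ, γ • c = (Quotient.mk (MulAction.orbitRel Γ C) c).out :=
      Quotient.exact (Quotient.out_eq (Quotient.mk (MulAction.orbitRel Γ C) c))
    refine ⟨(γ • c, γ⁻¹), mem_product.2 ⟨mem_filter.2 ⟨mem_univ _, hf _ _ (mem_filter.1 hc).2, ?_⟩,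
      mem_univ _⟩, inv_smul_smul _ _⟩
    change Quotient.out (Quotient.mk _ (γ • c)) = γ • c
    rw [hγ, Quotient.out_eq]

theorem exists_inv (l : ℕ) : ∃ P : ℤ[X], ∀ y : ℂ, y ^ l = 1 → y ≠ 1 →
    (l : ℂ) * (1 - y)⁻¹ = aeval y P := by
  obtain ⟨P, hP⟩ : X - C 1 ∣ (∑ i ∈ range l, X ^ i - C (l : ℤ) : ℤ[X]) := by
    rw [dvd_iff_isRoot]
    simp [eval_finsetSum]
  refine ⟨P, fun y h1 h2 => ?_⟩
  have h3 : (1 - y) ≠ 0 := sub_ne_zero.2 h2.symm
  have h4 : ∑ i ∈ range l, y ^ i = 0 := by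
    have := mul_neg_geom_sum y l
    rw [h1, sub_self] at this
    exact (mul_eq_zero.1 this).resolve_left h3
  have h5 := congrArg (aeval y) hP
  simp only [map_sub, map_sum, map_pow, aeval_X, map_mul, map_natCast, h4,
    map_one] at h5
  rw [mul_inv_eq_iff_eq_mul₀ h3]
  linear_combination -h5

theorem exists_coef (l : ℕ) [NeZero l] (P : ℤ[X]) : ∃ a : ZMod l → ℤ, ∀ ζ : ℂ, ζ ^ l = 1 →
    aeval ζ P = ∑ r, ζ ^ r.val * a r := by
  induction P using Polynomial.induction_on' with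
  | add p q hp hq =>
    obtain ⟨a, ha⟩ := hp
    obtain ⟨b, hb⟩ := hq
    refine ⟨a + b, fun ζ h => ?_⟩
    simp only [map_add, ha ζ h, hb ζ h, Pi.add_apply, Int.cast_add, mul_add, sum_add_distrib]
  | monomial n c =>
    refine ⟨Pi.single (n : ZMod l) c, fun ζ h => ?_⟩
    rw [sum_eq_single (n : ZMod l) (fun r _ hr => by simp [Pi.single_eq_of_ne hr]) (by simp),
      Pi.single_eq_same, ZMod.val_natCast, ← pow_eq_pow_mod n h, aeval_monomial, mul_comm]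
    rfl

theorem exists_val {V : Type} (l : ℕ) [Fact l.Prime] (U : Finset V) (k : ℕ) (hk : U.card ≤ k)
    (b : ZMod l) (m : V → ZMod l) (hm : ∀ u ∈ U, m u ≠ 0) : ∃ a : ZMod l → ℤ, ∀ ζ : ℂ,
      IsPrimitiveRoot ζ l → (l : ℂ) ^ k * (ζ ^ b.val * ∏ u ∈ U, (1 - ζ ^ (m u).val)⁻¹) =
        ∑ r, ζ ^ r.val * a r := by
  obtain ⟨P, hP⟩ := exists_inv l
  obtain ⟨a, ha⟩ := exists_coef l
    ((l : ℤ[X]) ^ (k - U.card) * X ^ b.val * ∏ u ∈ U, P.comp (X ^ (m u).val))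
  refine ⟨a, fun ζ h => ?_⟩
  have h1 : ∏ u ∈ U, aeval ζ (P.comp (X ^ (m u).val)) =
      ∏ u ∈ U, ((l : ℂ) * (1 - ζ ^ (m u).val)⁻¹) := prod_congr rfl fun u hu => by
    rw [hP _ (by rw [← pow_mul, mul_comm, pow_mul, h.pow_eq_one, one_pow])
      (h.pow_ne_one_of_pos_of_lt (mt (ZMod.val_eq_zero _).1 (hm u hu)) (ZMod.val_lt _)),
      aeval_comp, map_pow, aeval_X]
  rw [← ha ζ h.pow_eq_one, map_mul, map_mul, map_prod, h1, prod_mul_distrib, prod_const, map_pow,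
    map_pow, map_natCast, aeval_X, ← pow_sub_mul_pow (l : ℂ) hk]
  ring

variable {ι V G Q : Type} [Fintype ι] [AddCommGroup V] [Group G] [DistribMulAction G V]
  [MulAction G Q] {l : ℕ} (D : Sh ι V G Q l)

theorem mem_X {q : Q} {U : Finset V} (ho : D.o ∈ D.X q)
    (hU : ∀ u ∈ U, u ∈ D.Λ q ∧ (∀ i, 0 < D.e u i) ∧ D.χ q u ≠ 0) (n : U → ℕ) :
    D.o + ∑ a, n a • a.1 ∈ D.X q := by
  refine D.X_add q _ ho _ (sum_mem fun a _ => nsmul_mem (hU a a.2).1 _) fun i => ?_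
  simp only [map_add, map_sum, map_nsmul, Pi.add_apply, Finset.sum_apply, Pi.smul_apply]
  exact add_pos_of_pos_of_nonneg ((D.X_sub q _ ho).2 i)
    (sum_nonneg fun a _ => nsmul_nonneg ((hU a a.2).2.1 i).le _)

theorem term [NeZero l] {q : Q} {U : Finset V} (ho : D.o ∈ D.X q)
    (hU : ∀ u ∈ U, u ∈ D.Λ q ∧ (∀ i, 0 < D.e u i) ∧ D.χ q u ≠ 0) (n : U → ℕ) {g : G}
    (hg : g • (D.o + ∑ a, n a • a.1) = D.o) {ζ : ℂ} (hζ : ζ ^ l = 1) (s : ℂ) :
    ζ ^ (D.χ (g • q) D.o).val * ((D.nm (g • q) * ∏ i, D.e D.o i : ℝ) : ℂ) ^ (-s) =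
      ζ ^ (D.χ q D.o).val * (D.nm q : ℂ) ^ (-s) * ((∏ a : U, (ζ ^ (D.χ q a).val) ^ n a) *
        ((∏ i, (D.e D.o i + ∑ a : U, (n a : ℝ) * D.e a i) : ℝ) : ℂ) ^ (-s)) := by
  have hx := mem_X D ho hU n
  have h1 := D.smul_χ g q _ (D.X_sub q _ hx).1
  have h2 := D.smul_nm g q _ hx
  rw [hg] at h1 h2
  let χ' : D.M q →+ ZMod l := AddMonoidHom.mk' (fun x => D.χ q x) fun x y => D.χ_add q _ x.2 _ y.2
  have h3 : D.χ q (D.o + ∑ a, n a • a.1) = D.χ q D.o + ∑ a : U, n a • D.χ q a := by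
    have := map_add χ' ⟨D.o, (D.X_sub q _ ho).1⟩ (∑ a : U, n a • ⟨a.1, D.Λ_le q (hU a a.2).1⟩)
    rw [map_sum] at this
    simp only [map_nsmul] at this
    refine Eq.trans (congrArg (D.χ q) ?_) this
    simp
  have h4 : ∀ t : Finset U, AddChar.zmodChar l hζ (∑ a ∈ t, n a • D.χ q a) =
      ∏ a ∈ t, (ζ ^ (D.χ q a).val) ^ n a := by
    classical
    intro t
    induction t using Finset.induction_on with
    | empty => simp
    | insert a t ha ih =>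
      rw [sum_insert ha, prod_insert ha, AddChar.map_add_eq_mul, ih, AddChar.map_nsmul_eq_pow,
        AddChar.zmodChar_apply]
  have h5 : ∏ i, (D.e D.o i + ∑ a : U, (n a : ℝ) * D.e a i) =
      ∏ i, D.e (D.o + ∑ a, n a • a.1) i := prod_congr rfl fun i _ => by
    simp only [map_add, map_sum, map_nsmul, Pi.add_apply, Finset.sum_apply, nsmul_eq_mul,
      Pi.mul_apply, Pi.natCast_apply]
  rw [h1, h2, h3, h5, Complex.ofReal_mul, Complex.mul_cpow_ofReal_nonneg (D.nm_pos q).le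
    (prod_nonneg fun i _ => ((D.X_sub q _ hx).2 i).le), ← AddChar.zmodChar_apply hζ,
    AddChar.map_add_eq_mul, h4, AddChar.zmodChar_apply]
  ring

open Classical in
/-- cells with a nontrivial stabiliser -/
def Fx (c : Q × Finset V) : Prop :=
  ∃ γ ∈ D.Γ, γ ≠ 1 ∧ γ • c.1 = c.1 ∧ (c.2.image fun u => γ • u) = c.2

theorem param {C : Finset (Q × Finset V)} (hC : D.Cells C) :
    ∃ (π : {q // D.o ∈ D.X q} → C) (Φ : ∀ c : C, (c.1.2 → ℕ) → {q // D.o ∈ D.X q}),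
      (∀ c, Function.Injective (Φ c)) ∧ (∀ c q, q ∈ Set.range (Φ c) ↔ π q = c) ∧ ∀ c n,
        (∃ g ∈ D.N, (Φ c n).1 = g • c.1.1 ∧ g • (D.o + ∑ a, n a • a.1) = D.o) ∧
        ((∃ γ ∈ D.Γ, γ ≠ 1 ∧ γ • (Φ c n).1 = (Φ c n).1) ↔ Fx D c) := by
  classical
  obtain ⟨h1, h2, h3, h4⟩ := hC
  have hx := fun (c : C) => mem_X D (h1 c c.2).1 (h1 c c.2).2
  choose g hg hg' using fun (c : C) n => D.trans _ _ (hx c n)
  choose z hz hu using fun q : {q // D.o ∈ D.X q} => h2 q q.2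
  have hfree : ∀ (c : C) n, ∀ g' ∈ D.N, g' • (D.o + ∑ a, n a • a.1) = D.o → g' = g c n := by
    intro c n g' e1 e2
    have := D.free ((g c n)⁻¹ * g') (mul_mem (inv_mem (hg c n)) e1) _ (D.X_sub _ _ (hx c n)).2
      (by rw [mul_smul, e2, inv_smul_eq_iff, hg'])
    exact (inv_mul_eq_one.1 this).symm
  let fs : ∀ {U : Finset V}, (U → ℕ) → V →₀ ℕ := fun n => ∑ a, Finsupp.single a.1 (n a)
  have f1 : ∀ (U : Finset V) (n : U → ℕ) (a : U), fs n a = n a := fun U n a => by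
    simp [fs, Finsupp.single_apply]
  have f2 : ∀ (U : Finset V) (n : U → ℕ), (fs n).support ⊆ U := fun U n v hv => by
    by_contra h
    refine Finsupp.mem_support_iff.1 hv ?_
    rw [Finsupp.finsetSum_apply]
    exact sum_eq_zero fun a _ => Finsupp.single_eq_of_ne fun e => h (e ▸ a.2)
  have f3 : ∀ (U : Finset V) (m : V →₀ ℕ), m.support ⊆ U →
      (m.sum fun u n => n • u) = ∑ a : U, m a • a.1 := fun U m hm => by
    rw [Finsupp.sum_of_support_subset m hm (fun u n => n • u) fun _ _ => zero_smul _ _,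
      ← sum_coe_sort U]
  have f4 : ∀ (U : Finset V) (n : U → ℕ),
      ((fs n).sum fun u n => n • u) = ∑ a : U, n a • a.1 := fun U n => by
    simp only [f3 U _ (f2 U n), f1]
  let Φ : ∀ c : C, (c.1.2 → ℕ) → {q // D.o ∈ D.X q} := fun c n =>
    ⟨g c n • c.1.1, hg' c n ▸ D.smul_X (g c n) _ _ (hx c n)⟩
  have hΦ : ∀ (c : C) n, (c.1, fs n) = z (Φ c n) := fun c n =>
    hu _ _ ⟨c.2, f2 _ n, g c n, hg c n, rfl, by rw [f4, hg']⟩
  refine ⟨fun q => ⟨(z q).1, (hz q).1⟩, Φ, fun c n n' e => ?_, fun c q => ⟨?_, ?_⟩,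
    fun c n => ⟨⟨g c n, hg c n, rfl, hg' c n⟩, ?_, ?_⟩⟩
  · have e1 : fs n = fs n' := congrArg Prod.snd ((hΦ c n).trans (e ▸ (hΦ c n').symm))
    exact funext fun a => by rw [← f1 _ n, e1, f1]
  · rintro ⟨n, rfl⟩
    exact Subtype.ext (congrArg Prod.fst (hΦ c n)).symm
  · rintro rfl
    obtain ⟨-, e1, g', e2, e3, e4⟩ := hz q
    rw [f3 _ _ e1] at e4
    exact ⟨fun a => (z q).2 a, Subtype.ext ((congrArg (· • (z q).1.1)
      (hfree ⟨(z q).1, (hz q).1⟩ _ g' e2 e4)).symm.trans e3)⟩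
  · rintro ⟨γ, e1, e2, e3⟩
    have e4 := hu (Φ c n) ((γ • c.1.1, c.1.2.image fun u => γ • u),
      (fs n).mapDomain fun u => γ • u) ⟨h3 γ e1 c c.2,
        Finsupp.mapDomain_support.trans (image_subset_image (f2 _ n)), γ * g c n * γ⁻¹,
        D.normal.conj_mem _ (hg c n) γ, by rw [mul_smul, mul_smul, inv_smul_smul]; exact e3, ?_⟩
    · have e5 := congrArg Prod.fst (e4.trans (hΦ c n).symm)
      exact ⟨γ, e1, e2, congrArg Prod.fst e5, congrArg Prod.snd e5⟩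
    · have e5 : D.o + (((fs n).mapDomain fun u => γ • u).sum fun u n => n • u) =
          γ • (D.o + ∑ a, n a • a.1) := by
        rw [Finsupp.sum_mapDomain_index (h := fun u (n : ℕ) => n • u) (fun _ => zero_smul _ _)
          fun _ _ _ => add_smul _ _ _, smul_add, D.Γ_o γ e1, ← f4, Finsupp.sum, Finsupp.sum, smul_sum]
        simp only [smul_comm γ]
      rw [e5, mul_smul, mul_smul, inv_smul_smul, hg', D.Γ_o γ e1]
  · rintro ⟨γ, e1, e2, e3, e4⟩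
    have e5 : γ⁻¹ • (D.o + ∑ a, n a • a.1) = D.o + ∑ a, n a • a.1 := by
      rw [inv_smul_eq_iff, smul_add, D.Γ_o γ e1, smul_sum]
      simp only [smul_comm γ, h4 γ e1 c c.2 e3 e4 _ (Subtype.prop _)]
    have e6 := hfree c n _ (D.normal.conj_mem _ (hg c n) γ)
      (by rw [mul_smul, mul_smul, e5, hg', D.Γ_o γ e1])
    refine ⟨γ, e1, e2, ?_⟩
    change γ • g c n • c.1.1 = g c n • c.1.1
    rw [← mul_smul, mul_inv_eq_iff_eq_mul.1 e6, mul_smul, e3]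

end Pool.Agent.MP_f3cd89_nt.ShX
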