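import Pool.Agent.MP_f3cd89_nt.SStm
import Pool.Agent.MP_f3cd89_nt.ShA

/-! The abstract congruence. -/

set_option autoImplicit false

open Finset

namespace Pool.Agent.MP_f3cd89_nt

open ShX

theorem sh (hC : CELL_st) (hA : ANA_st) : SH_st := by
  classical
  intro ι V G Q _ _ _ _ _ _ l _ D
  obtain ⟨C, hC⟩ := hC ι V G Q l D
  obtain ⟨π, Φ, p1, p2, p3⟩ := param D hC
  obtain ⟨h1, -, h3, -⟩ := hC
  have := D.fin_Γ
  have hl : l.Prime := Fact.out
  let : MulAction D.Γ C :=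
    { smul := fun γ c => ⟨(γ.1 • c.1.1, c.1.2.image fun u => γ.1 • u), h3 γ γ.2 c c.2⟩
      one_smul := fun c => Subtype.ext (Prod.ext (one_smul G _) (by
        change c.1.2.image (fun u => (1 : G) • u) = _
        simp))
      mul_smul := fun γ δ c => Subtype.ext (Prod.ext (mul_smul γ.1 δ.1 _) (by
        change c.1.2.image (fun u => (γ.1 * δ.1) • u) =
          (c.1.2.image fun u => δ.1 • u).image fun u => γ.1 • u
        rw [image_image]
        simp only [mul_smul, Function.comp_def])) }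
  have hs : ∀ (γ : D.Γ) (c : C),
      (γ • c).1 = (γ.1 • c.1.1, c.1.2.image fun u => γ.1 • u) := fun _ _ => rfl
  obtain ⟨R, hR⟩ := orbit_sum D.Γ C (fun c => ¬Fx D c.1) fun c => by
    refine ⟨fun h γ e => by_contra fun h' => ?_, fun h ⟨γ, e1, e2, e3, e4⟩ => ?_⟩
    · have e' := (hs γ c).symm.trans (congrArg Subtype.val e)
      exact h ⟨γ, γ.2, fun e1 => h' (Subtype.ext e1), congrArg Prod.fst e', congrArg Prod.snd e'⟩
    · exact e2 (congrArg Subtype.val (h ⟨γ, e1⟩ (Subtype.ext (Prod.ext e3 e4))))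
  choose a ha using fun c : C => exists_val l c.1.2 (C.sup fun c => c.2.card)
    (le_sup (f := fun c : Q × Finset V => c.2.card) c.2) (D.χ c.1.1 D.o) (D.χ c.1.1)
    fun u hu => ((h1 c c.2).2 u hu).2.2
  refine ⟨C.sup fun c => c.2.card, fun r => ∑ c ∈ R, Finsupp.single c.1.1 (a c r),
    fun Ψ hΨ ζ hζ => ?_⟩
  choose f σ f1 f2 f3 using fun c : C => hA ι c.1.2 (D.e D.o) (fun u => D.e u)
    (fun u => ζ ^ (D.χ c.1.1 u).val) (D.X_sub _ _ (h1 c c.2).1).2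
    (fun u => ((h1 c c.2).2 u u.2).2.1) fun u => ⟨by rw [norm_pow, hζ.norm'_eq_one hl.ne_zero,
      one_pow], hζ.pow_ne_one_of_pos_of_lt
        (mt (ZMod.val_eq_zero _).1 ((h1 c c.2).2 u u.2).2.2) (ZMod.val_lt _)⟩
  obtain ⟨σ₀, hσ⟩ := Finite.exists_le σ
  let F : C → ℂ → ℂ := fun c s =>
    Ψ c.1.1 * (ζ ^ (D.χ c.1.1 D.o).val * (D.nm c.1.1 : ℂ) ^ (-s)) * f c s
  have hF : ∀ c, Differentiable ℂ (F c) := fun c =>
    (((differentiable_id.neg.const_cpow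
      (Or.inl (Complex.ofReal_ne_zero.2 (D.nm_pos _).ne'))).const_mul _).const_mul _).mul (f1 c)
  have hS : ∀ s : ℂ, σ₀ < s.re → ∀ c : C, HasSum (fun n => Ψ (Φ c n) *
      ζ ^ (D.χ (Φ c n) D.o).val * ((D.nm (Φ c n) * ∏ i, D.e D.o i : ℝ) : ℂ) ^ (-s)) (F c s) := by
    intro s hs c
    refine ((f3 c s ((hσ c).trans_lt hs)).mul_left _).congr_fun fun n => ?_
    obtain ⟨g, g1, g2, g3⟩ := (p3 c n).1
    rw [g2, hΨ g g1, mul_assoc, term D (h1 c c.2).1 (h1 c c.2).2 n g3 hζ.pow_eq_one s, ← mul_assoc]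
  refine ⟨fun s => ∑ c, F c s, fun s => ∑ c, if Fx D c.1 then F c s else 0, σ₀,
    Differentiable.fun_sum fun c _ => hF c, Differentiable.fun_sum fun c _ => ?_,
    fun s hs => ⟨hasSum_fib π Φ p1 p2 _ _ (hS s hs), hasSum_fib π Φ p1 p2 _ _ fun c => ?_⟩, ?_⟩
  · split_ifs
    · exact hF c
    · exact differentiable_const _
  · simp only [(p3 c _).2]
    split_ifs
    · exact hS s hs c
    · exact hasSum_zero
  let val : C → ℂ := fun c =>
    ζ ^ (D.χ c.1.1 D.o).val * ∏ u ∈ c.1.2, (1 - ζ ^ (D.χ c.1.1 u).val)⁻¹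
  have v1 : ∀ c, F c 0 = Ψ c.1.1 * val c := fun c => by
    simp only [F, val, f2, neg_zero, Complex.cpow_zero, one_mul, mul_assoc]
    rw [prod_coe_sort c.1.2 fun u => (1 - ζ ^ (D.χ c.1.1 u).val)⁻¹]
  have v2 : ∀ (γ : D.Γ) (c : C), val (γ • c) = val c := fun γ c => by
    have e := D.smul_χ γ.1 _ _ (D.X_sub _ _ (h1 c c.2).1).1
    rw [D.Γ_o γ γ.2] at e
    simp only [val, hs]
    rw [e, prod_image fun u _ u' _ h => MulAction.injective γ.1 h]
    exact congrArg _ (prod_congr rfl fun u hu => by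
      rw [D.smul_χ γ.1 _ _ (D.Λ_le _ ((h1 c c.2).2 u hu).1)])
  have v3 : ∑ c, F c 0 - ∑ c, (if Fx D c.1 then F c 0 else 0) = ∑ c with ¬Fx D c.1, F c 0 := by
    rw [sum_filter, ← sum_sub_distrib]
    exact sum_congr rfl fun c _ => by split_ifs <;> simp
  have v4 : ∀ r, ((∑ c ∈ R, Finsupp.single c.1.1 (a c r)).sum fun q z =>
      (z : ℂ) * ∑ᶠ g : D.Γ, Ψ (g.1 • q)) = ∑ c ∈ R, (a c r : ℂ) * ∑ᶠ g : D.Γ, Ψ (g.1 • c.1.1) := by
    intro r
    rw [← Finsupp.sum_finsetSum_index (by simp) (by simp [add_mul])]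
    exact sum_congr rfl fun c _ => Finsupp.sum_single_index (by simp)
  simp only [v4, mul_sum]
  rw [v3, hR, sum_comm, mul_sum]
  refine sum_congr rfl fun c _ => ?_
  simp only [v1, v2, hs, ← mul_assoc]
  rw [← sum_mul, ← ha c ζ hζ, ← finsum_mul' _ _ (Set.toFinite _)]
  ring

end Pool.Agent.MP_f3cd89_nt
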