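import Pool.Agent.MP_f3cd89_nt.AStm

set_option autoImplicit false

namespace Pool.Agent.MP_f3cd89_nt

namespace SwX

open Polynomial in
/-- the roots of `X ^ q - X` lie in the image of a field with `q` elements -/
theorem mem_range {K k : Type} [Field K] [Finite K] [Field k] (ι : K →+* k) (z : k)
    (hz : z ^ Nat.card K = z) : z ∈ ι.range := by
  have h1 : 1 < Nat.card K := Finite.one_lt_card
  refine (Polynomial.splits_X_pow_nat_card_sub_X (K := K)).mem_range_of_isRoot
    (FiniteField.X_pow_card_sub_X_ne_zero K h1) ?_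
  simp [Polynomial.IsRoot, hz]

/-- two embeddings of a finite field differ by a power of Frobenius -/
theorem hom_pow (p : ℕ) [Fact p.Prime] {K k : Type} [Field K] [Finite K] [Field k] [CharP k p]
    (ι φ : K →+* k) : ∃ j : ℕ, ∀ x, φ x = ι x ^ p ^ j := by
  have : CharP K p := ι.charP ι.injective p
  have := Fintype.ofFinite K
  have hm : ∀ x, φ x ∈ ι.range := fun x => mem_range ι _ (by
    rw [← map_pow, Nat.card_eq_fintype_card, FiniteField.pow_card])
  choose ψ hψ using hm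
  let ψ' : K →+* K :=
    { toFun := ψ
      map_one' := ι.injective (by rw [hψ, map_one, map_one])
      map_mul' := fun x y => ι.injective (by rw [map_mul, hψ, hψ, hψ, map_mul])
      map_zero' := ι.injective (by rw [hψ, map_zero, map_zero])
      map_add' := fun x y => ι.injective (by rw [map_add, hψ, hψ, hψ, map_add]) }
  let _ : Algebra (ZMod p) K := ZMod.algebra K p
  let ψ'' : K →ₐ[ZMod p] K :=
    { ψ' with
      commutes' := fun r => DFunLike.congr_fun
        (Subsingleton.elim (ψ'.comp (algebraMap (ZMod p) K)) (algebraMap (ZMod p) K)) r }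
  obtain ⟨j, hj⟩ := (FiniteField.bijective_frobeniusAlgHom_pow (ZMod p) K).2 ψ''
  refine ⟨j.1, fun x => ?_⟩
  have h2 : ψ x = x ^ p ^ j.1 := by
    have h3 : ψ'' x = (FiniteField.frobeniusAlgHom (ZMod p) K ^ j.1) x :=
      (DFunLike.congr_fun hj x).symm
    rw [AlgHom.coe_pow, FiniteField.coe_frobeniusAlgHom, pow_iterate, ZMod.card] at h3
    exact h3
  rw [← hψ, h2, map_pow]

section

variable {p : ℕ} [Fact p.Prime] {Y : Type} {k : Type} [Field k]
  (R : Subring (Y → k)) {n : ℕ} (hn : 0 < n) (hR : ∀ g ∈ R, ∀ y, g y ^ p ^ n = g y)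

theorem two_le (hn : 0 < n) : 2 ≤ p ^ n := Nat.one_lt_pow hn.ne' (Fact.out : p.Prime).one_lt

include hn hR in
theorem pow_pred {g : Y → k} (hg : g ∈ R) {y : Y} (h : g y ≠ 0) : g y ^ (p ^ n - 1) = 1 := by
  have h2 := two_le (p := p) hn
  have h3 := hR g hg y
  apply mul_right_cancel₀ h
  rw [← pow_succ, Nat.sub_add_cancel (by omega), h3, one_mul]

/-- the field of values at a point -/
def fld (y : Y) : Subfield k :=
  { R.map (Pi.evalRingHom (fun _ => k) y) with
    inv_mem' := by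
      rintro x ⟨g, hg, rfl⟩
      have h2 := two_le (p := p) hn
      by_cases h : g y = 0
      · refine ⟨0, R.zero_mem, ?_⟩
        simp [h]
      · refine ⟨g ^ (p ^ n - 2), R.pow_mem hg _, ?_⟩
        have h4 := pow_pred R hn hR hg h
        change g y ^ (p ^ n - 2) = (g y)⁻¹
        refine eq_inv_of_mul_eq_one_left ?_
        rw [← pow_succ, show p ^ n - 2 + 1 = p ^ n - 1 by omega, h4] }

theorem mem_fld (y : Y) (x : k) : x ∈ fld R hn hR y ↔ ∃ g ∈ R, g y = x := Iff.rfl

open Polynomial in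
theorem fld_finite (y : Y) : Finite (fld R hn hR y) := by
  classical
  have h2 := two_le (p := p) hn
  have h0 : (X ^ p ^ n - X : k[X]) ≠ 0 := FiniteField.X_pow_card_sub_X_ne_zero k h2
  refine Set.Finite.subset (s := ((X ^ p ^ n - X : k[X]).roots.toFinset : Set k))
    (Finset.finite_toSet _) ?_
  rintro x ⟨g, hg, rfl⟩
  have h3 := hR g hg y
  simp [h0, h3]

/-- evaluation onto the field of values -/
def ev (y : Y) : R →+* fld R hn hR y :=
  ((Pi.evalRingHom (fun _ => k) y).comp R.subtype).codRestrict (fld R hn hR y)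
    fun g => ⟨g.1, g.2, rfl⟩

theorem ev_coe (y : Y) (g : R) : ((ev R hn hR y g : fld R hn hR y) : k) = g.1 y := rfl

theorem ev_surj (y : Y) : Function.Surjective (ev R hn hR y) := by
  rintro ⟨x, g, hg, rfl⟩
  exact ⟨⟨g, hg⟩, rfl⟩

include hn hR in
theorem exists_pow [CharP k p] {y y' : Y} (h : ∀ g ∈ R, g y = 0 → g y' = 0) :
    ∃ j : ℕ, ∀ g ∈ R, g y' = g y ^ p ^ j := by
  have := fld_finite R hn hR y
  have hk : RingHom.ker (ev R hn hR y) ≤
      RingHom.ker ((Pi.evalRingHom (fun _ => k) y').comp R.subtype) := by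
    intro g hg
    rw [RingHom.mem_ker] at hg ⊢
    exact h g.1 g.2 (congrArg Subtype.val hg)
  obtain ⟨j, hj⟩ := hom_pow p (fld R hn hR y).subtype
    ((ev R hn hR y).liftOfSurjective (ev_surj R hn hR y) ⟨_, hk⟩)
  refine ⟨j, fun g hg => ?_⟩
  have h1 := hj (ev R hn hR y ⟨g, hg⟩)
  rw [RingHom.liftOfSurjective_comp_apply] at h1
  exact h1

include hn hR in
theorem exists_val [CharP k p] (f : Y → k)
    (hf : ∀ y y' j, (∀ g ∈ R, g y' = g y ^ p ^ j) → f y' = f y ^ p ^ j) (y : Y) :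
    ∃ g ∈ R, g y = f y := by
  have := fld_finite R hn hR y
  have := Fintype.ofFinite (fld R hn hR y)
  have : CharP (fld R hn hR y) p :=
    (fld R hn hR y).subtype.charP (fld R hn hR y).subtype.injective p
  obtain ⟨m, -, hm⟩ := FiniteField.card (fld R hn hR y) p
  have h1 : f y = f y ^ p ^ (m : ℕ) := by
    refine hf y y m fun g hg => ?_
    have h2 := FiniteField.pow_card (ev R hn hR y ⟨g, hg⟩)
    rw [hm] at h2
    exact (congrArg Subtype.val h2).symm
  obtain ⟨x, hx⟩ := mem_range (fld R hn hR y).subtype (f y)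
    (by rw [Nat.card_eq_fintype_card, hm, ← h1])
  obtain ⟨g, hg, hgx⟩ := x.2
  exact ⟨g, hg, hgx.trans hx⟩

include hn hR in
theorem exists_sep {y y' : Y} (h : ¬∀ g ∈ R, g y = 0 → g y' = 0) :
    ∃ e ∈ R, e y = 1 ∧ e y' = 0 := by
  have h2 := two_le (p := p) hn
  push Not at h
  obtain ⟨g, hg, h0, h1⟩ := h
  refine ⟨1 - g ^ (p ^ n - 1), R.sub_mem R.one_mem (R.pow_mem hg _), ?_, ?_⟩
  · simp [h0, show p ^ n - 1 ≠ 0 by omega]
  · simp [pow_pred R hn hR hg h1]

include hn hR in
theorem exists_idem [Finite Y] (y : Y) :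
    ∃ e ∈ R, e y = 1 ∧ ∀ y', (¬∀ g ∈ R, g y = 0 → g y' = 0) → e y' = 0 := by
  classical
  have := Fintype.ofFinite Y
  have h : ∀ y', ∃ e ∈ R, e y = 1 ∧ ((¬∀ g ∈ R, g y = 0 → g y' = 0) → e y' = 0) := by
    intro y'
    by_cases h : ∀ g ∈ R, g y = 0 → g y' = 0
    · exact ⟨1, R.one_mem, rfl, fun h' => (h' h).elim⟩
    · obtain ⟨e, he, h1, h2⟩ := exists_sep R hn hR h
      exact ⟨e, he, h1, fun _ => h2⟩
  choose e he h1 h2 using h
  refine ⟨∏ y', e y', R.prod_mem fun y' _ => he y', ?_, fun y' h => ?_⟩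
  · simp [Finset.prod_apply, h1]
  · rw [Finset.prod_apply]
    exact Finset.prod_eq_zero (Finset.mem_univ y') (h2 y' h)

end

theorem pt_ext {A : Type} [CommGroup A] {Δ : Dat A} {k : Type} [CommRing k] {P P' : Pt Δ k}
    (h1 : P.d = P'.d) (h2 : P.η = P'.η) (h3 : P.ω = P'.ω) : P = P' := by
  cases P
  cases P'
  simp only at h1 h2 h3
  subst h1 h2 h3
  rfl

theorem pt_finite {A : Type} [CommGroup A] [Finite A] (Δ : Dat A) (k : Type) [CommRing k]
    [IsDomain k] : Finite (Pt Δ k) := by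
  have hN : NeZero (Δ.m * Nat.card A) := ⟨Nat.mul_ne_zero Δ.m_pos.ne' Nat.card_pos.ne'⟩
  have h1 : ∀ (P : Pt Δ k) (a : A), P.η a ∈ rootsOfUnity (Δ.m * Nat.card A) k := by
    intro P a
    rw [mem_rootsOfUnity, mul_comm, pow_mul, ← map_pow, pow_card_eq_one', map_one, one_pow]
  have h2 : ∀ P : Pt Δ k, P.ω ∈ rootsOfUnity (Δ.m * Nat.card A) k := by
    intro P
    rw [mem_rootsOfUnity, pow_mul, P.ω_pow, ← map_pow, pow_card_eq_one', map_one]
  refine Finite.of_injective (fun P : Pt Δ k =>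
    ((⟨P.d, Nat.lt_succ_of_le (Nat.le_of_dvd Δ.m_pos P.d_dvd)⟩, fun a => ⟨P.η a, h1 P a⟩,
      ⟨P.ω, h2 P⟩) : Fin (Δ.m + 1) × (A → rootsOfUnity (Δ.m * Nat.card A) k) ×
        rootsOfUnity (Δ.m * Nat.card A) k)) fun P P' h => ?_
  simp only [Prod.mk.injEq, Fin.mk.injEq, Subtype.mk.injEq] at h
  refine pt_ext h.1 (MonoidHom.ext fun a => ?_) h.2.2
  exact congrArg Subtype.val (congrFun h.2.1 a)

theorem map_inj {A : Type} [CommGroup A] {Δ : Dat A} {k k' : Type} [Field k] [Field k']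
    (f : k →+* k') : Function.Injective fun P : Pt Δ k => P.map f := by
  intro P P' h
  refine pt_ext (congrArg Pt.d h :) (MonoidHom.ext fun a => ?_) ?_
  · have h1 : ((P.map f).η a : k') = ((P'.map f).η a : k') := by rw [show P.map f = P'.map f from h]
    exact Units.ext (f.injective h1)
  · have h1 : ((P.map f).ω : k') = ((P'.map f).ω : k') := by rw [show P.map f = P'.map f from h]
    exact Units.ext (f.injective h1)

end SwX

theorem sw : SW_st := by
  intro p _ Y _ k _ _ R n hn hR f hf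
  classical
  have := Fintype.ofFinite Y
  have key : ∀ s : Finset Y, ∃ g ∈ R, ∀ y ∈ s, g y = f y := by
    intro s
    induction s using Finset.induction_on with
    | empty => exact ⟨0, R.zero_mem, by simp⟩
    | insert y0 s _ ih =>
      obtain ⟨g, hg, hs⟩ := ih
      obtain ⟨g0, hg0, h0⟩ := SwX.exists_val R hn hR f hf y0
      obtain ⟨e, he, he1, he0⟩ := SwX.exists_idem R hn hR y0
      have h1 : ∀ y, (∀ g ∈ R, g y0 = 0 → g y = 0) → (g + e * (g0 - g)) y = f y := by
        intro y hy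
        obtain ⟨j, hj⟩ := SwX.exists_pow R hn hR hy
        have h2 : e y = 1 := by rw [hj e he, he1, one_pow]
        have h3 : g0 y = f y := by rw [hj g0 hg0, h0, ← hf y0 y j hj]
        simp [h2, h3]
      refine ⟨g + e * (g0 - g), R.add_mem hg (R.mul_mem he (R.sub_mem hg0 hg)), fun y hy => ?_⟩
      by_cases h : ∀ g ∈ R, g y0 = 0 → g y = 0
      · exact h1 y h
      · rcases Finset.mem_insert.1 hy with rfl | hy
        · exact (h fun _ _ h => h).elim
        · simp [he0 y h, hs y hy]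
  obtain ⟨g, hg, h⟩ := key Finset.univ
  have h1 : f = g := funext fun y => (h y (Finset.mem_univ y)).symm
  rw [h1]
  exact hg

theorem c1a (hS : SW_st) (hP : SEP_st) (hB : BASE_st) (hR : RING_st) : C1A_st := by
  intro A _ _ Δ p _
  have := SwX.pt_finite Δ (Kb p)
  obtain ⟨hR1, hR2, -⟩ := hR A Δ (Kb p)
  obtain ⟨-, -, -, -, -, -, -, -, hB9⟩ := hB A Δ (Kb p)
  let R : Subring (Pt Δ (Kb p) → Kb p) :=
    { J Δ (Kb p) with
      one_mem' := hR1
      mul_mem' := fun {a b} ha hb => hR2 a ha b hb }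
  let τ : Equiv.Perm (Pt Δ (Kb p)) := Equiv.ofBijective (fun P => P.map (frobenius (Kb p) p))
    (Finite.injective_iff_bijective.1 (SwX.map_inj _))
  have hτ : ∀ P, τ P = P.map (frobenius (Kb p) p) := fun _ => rfl
  have hit : ∀ g : Pt Δ (Kb p) → Kb p, (∀ P, g (τ P) = g P ^ p) →
      ∀ (j : ℕ) P, g ((τ ^ j) P) = g P ^ p ^ j := by
    intro g hg j
    induction j with
    | zero => intro P; simp
    | succ j ih =>
      intro P
      rw [pow_succ', Equiv.Perm.mul_apply, hg, ih, ← pow_mul, ← pow_succ]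
  have hJ : ∀ g ∈ J Δ (Kb p), ∀ P, g (τ P) = g P ^ p := by
    intro g hg
    induction hg using AddSubgroup.closure_induction with
    | mem x hx =>
      obtain ⟨r, H, rfl⟩ := hx
      intro P
      rw [hτ, (hB9 _ _ P).2 r H, frobenius_def]
    | zero => intro P; simp [(Fact.out : p.Prime).ne_zero]
    | add x y _ _ hx hy => intro P; rw [Pi.add_apply, Pi.add_apply, hx, hy, add_pow_char]
    | neg x _ hx =>
      intro P
      rw [Pi.neg_apply, Pi.neg_apply, hx, ← frobenius_def, ← frobenius_def, map_neg]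
  refine (AddSubgroup.closure_le _).2 ?_
  rintro _ ⟨d, a, e, hd, he, rfl⟩
  have hV : ∀ P, (V d a e : Pt Δ (Kb p) → Kb p) (τ P) = V d a e P ^ p := by
    intro P
    rw [hτ, V, (hB9 _ _ P).1, frobenius_def]
  refine hS p (Pt Δ (Kb p)) (Kb p) R (orderOf τ) (orderOf_pos τ) (fun g hg P => ?_) _
    fun P P' j h => ?_
  · rw [← hit g (hJ g hg), pow_orderOf_eq_one, Equiv.Perm.one_apply]
  · rw [← hit _ hV]
    refine hP A Δ p P' ((τ ^ j) P) (fun g hg => ?_) _ (V_mem a hd he)
    rw [hit g (hJ g hg)]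
    exact h g hg

end Pool.Agent.MP_f3cd89_nt
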