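import Pool.Agent.MP_f3cd89_nt.AStm

/-! The determinant of the test element. -/

set_option autoImplicit false

open Finset

namespace Pool.Agent.MP_f3cd89_nt

namespace TestX

theorem sum_blocks {k : Type} [CommRing k] (g : ℕ → k) (x : k) (r q : ℕ)
    (h : ∀ n, g (n + r) = x * g n) :
    ∑ n ∈ range (r * q), g n = (∑ t ∈ range q, x ^ t) * ∑ n ∈ range r, g n := by
  have h1 : ∀ t n, g (r * t + n) = x ^ t * g n := by
    intro t n
    induction t with
    | zero => simp
    | succ t ih => rw [Nat.mul_succ, add_right_comm, h, ih, pow_succ', mul_assoc]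
  induction q with
  | zero => simp
  | succ q ih =>
    rw [Nat.mul_succ, sum_range_add, ih, sum_range_succ, add_mul, mul_sum _ _ (x ^ q)]
    simp only [h1]

theorem inj {d s r n n' : ℕ} (hd : d = s * r) (hs : s ≠ 0) (hn : n < r) (hn' : n' < r)
    (h : ((s * n : ℕ) : ZMod d) = (s * n' : ℕ)) : n = n' := by
  rw [ZMod.natCast_eq_natCast_iff, hd] at h
  exact (Nat.ModEq.mul_left_cancel' hs h).eq_of_lt_of_lt hn hn'

theorem det_main {k : Type} [Field k] [DecidableEq k] {d s r : ℕ} [NeZero d] (q : ℕ)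
    (hd : d = s * r) (κ t : k)
    (hκ : κ ^ (r * q) = 1) (i0 : ZMod d) (Q : ZMod d → Prop) [DecidablePred Q]
    (hQ : ∀ i, Q i ↔ ∃ n < r, i = i0 + (s * n : ℕ)) :
    (1 + Matrix.of fun i j : ZMod d => if Q i then
      t * ∑ n ∈ range (r * q), (if j = i + (s * n : ℕ) then κ ^ n else 0) else 0).det =
      if κ ^ r = 1 then 1 + t * (r * q : ℕ) else 1 := by
  have h0 : s * r ≠ 0 := hd ▸ NeZero.ne d
  have hs : s ≠ 0 := left_ne_zero_of_mul h0
  have hr : r ≠ 0 := right_ne_zero_of_mul h0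
  have hz : ((s * r : ℕ) : ZMod d) = 0 := by rw [← hd, ZMod.natCast_self]
  have hb : ∀ i j : ZMod d, ∑ n ∈ range (r * q), (if j = i + (s * n : ℕ) then κ ^ n else 0) =
      (∑ t ∈ range q, (κ ^ r) ^ t) *
        ∑ n ∈ range r, (if j = i + (s * n : ℕ) then κ ^ n else 0) := fun i j =>
    sum_blocks _ _ r q fun n => by
      rw [mul_add, Nat.cast_add, hz, add_zero, pow_add, mul_ite, mul_zero, mul_comm (κ ^ n)]
  simp only [hb]
  split_ifs with h1
  · obtain ⟨S, hS⟩ : ∃ S : ZMod d → ZMod d → k, ∀ i j,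
      S i j = ∑ n ∈ range r, (if j = i + (s * n : ℕ) then κ ^ n else 0) := ⟨_, fun _ _ => rfl⟩
    have hκ0 : κ ≠ 0 := by
      rintro rfl
      simp [hr] at h1
    have s1 : ∀ i j, S i j = κ * S (i + s) j := fun i j => by
      have a := sum_range_succ (fun n => if j = i + (s * n : ℕ) then κ ^ n else 0) r
      have b := sum_range_succ' (fun n => if j = i + (s * n : ℕ) then κ ^ n else 0) r
      rw [a, hz, h1, mul_zero, Nat.cast_zero, pow_zero, add_left_inj] at b
      rw [hS, hS, b, mul_sum]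
      refine sum_congr rfl fun n _ => ?_
      rw [mul_ite, mul_zero, pow_succ', mul_add, mul_one, Nat.cast_add, add_assoc,
        add_comm (s : ZMod d)]
    have s2 : ∀ (n : ℕ) i j, S i j = κ ^ n * S (i + (s * n : ℕ)) j := fun n i j => by
      induction n with
      | zero => simp
      | succ n ih => rw [ih, s1, Nat.mul_succ, Nat.cast_add, add_assoc, pow_succ, mul_assoc]
    have s3 : ∀ i, S i i = 1 := fun i => by
      rw [hS, sum_eq_single_of_mem 0 (mem_range.2 (Nat.pos_of_ne_zero hr)) fun n hn h =>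
        if_neg fun e => h (inj hd hs (mem_range.1 hn) (Nat.pos_of_ne_zero hr)
          (by simpa using e.symm))]
      simp
    obtain ⟨u, hu⟩ : ∃ u : ZMod d → k, ∀ i,
      u i = ∑ n ∈ range r, (if i = i0 + (s * n : ℕ) then κ⁻¹ ^ n else 0) := ⟨_, fun _ => rfl⟩
    have e : ∀ i j, u i * S i0 j = if Q i then S i j else 0 := fun i j => by
      rw [hu]
      split_ifs with h
      · obtain ⟨n, hn, rfl⟩ := (hQ i).1 h
        rw [sum_eq_single_of_mem n (mem_range.2 hn) fun n' hn' h => if_neg fun e =>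
          h (inj hd hs (mem_range.1 hn') hn (add_left_cancel e).symm), if_pos rfl, s2 n i0,
          ← mul_assoc, ← mul_pow, inv_mul_cancel₀ hκ0, one_pow, one_mul]
      · rw [sum_eq_zero fun n hn => if_neg fun e => h ((hQ i).2 ⟨n, mem_range.1 hn, e⟩), zero_mul]
    have e2 : (Matrix.of fun i j : ZMod d => if Q i then t * ((∑ t ∈ range q, (κ ^ r) ^ t) *
        ∑ n ∈ range r, (if j = i + (s * n : ℕ) then κ ^ n else 0)) else 0) =
        Matrix.replicateCol Unit (fun i => t * q * u i) * Matrix.replicateRow Unit (S i0) := by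
      ext i j
      rw [Matrix.of_apply, ← Matrix.vecMulVec_eq, Matrix.vecMulVec_apply, mul_assoc, e, ← hS, h1]
      simp [mul_assoc]
    rw [e2, Matrix.det_one_add_replicateCol_mul_replicateRow, dotProduct]
    congr 1
    have e3 : ∑ i, u i * S i0 i = r := by
      simp only [hu, sum_mul]
      rw [sum_comm, sum_congr rfl (g := fun _ => 1), sum_const, card_range, nsmul_one]
      intro n _
      simp only [ite_mul, zero_mul, sum_ite_eq', mem_univ, if_true]
      rw [s2 n i0, s3, mul_one, ← mul_pow, inv_mul_cancel₀ hκ0, one_pow]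
    rw [Nat.cast_mul, ← e3, sum_mul, mul_sum]
    exact sum_congr rfl fun i _ => by ring
  · have : ∑ t ∈ range q, (κ ^ r) ^ t = 0 := by
      rw [geom_sum_eq h1, ← pow_mul, hκ, sub_self, zero_div]
    simp only [this, zero_mul, mul_zero, ite_self]
    rw [show (Matrix.of fun _ _ : ZMod d => (0 : k)) = 0 from rfl, add_zero, Matrix.det_one]

theorem sub_pow {k : Type} [Field k] {p f M : ℕ} [Fact p.Prime] [CharP k p] (h : M + 1 = p ^ f)
    {u v : k} (hu : u ^ M = 1) (hv : v ^ M = 1) (huv : u ≠ v) : (u - v) ^ M = 1 := by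
  have e : (u - v) ^ p ^ f = u - v := by
    rw [sub_pow_char_pow, ← h, pow_succ, pow_succ, hu, hv, one_mul, one_mul]
  rw [← h, pow_succ] at e
  exact mul_right_cancel₀ (sub_ne_zero.2 huv) (e.trans (one_mul _).symm)

variable {A : Type} [CommGroup A] {Δ : Dat A} {k : Type}

theorem rhoG_sum [CommRing k] (γ : k →+* k) (P : Pt Δ k) (s : Finset ℕ)
    (y : ℕ → ℤ →₀ MonoidAlgebra k A) (i j : ZMod P.d) :
    rhoG γ P (∑ n ∈ s, y n) i j = ∑ n ∈ s, rhoG γ P (y n) i j := by
  induction s using Finset.cons_induction with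
  | empty => simp [rhoG_zero]
  | cons a s ha ih => rw [sum_cons, sum_cons, rhoG_add, Matrix.add_apply, ih]

theorem per {G : Type} (η : A → G) {s : ℕ} (h : ∀ i, (∀ a, η ((Δ.σ ^ i) a) = η a) ↔ s ∣ i)
    (a b : ℕ) : (∀ x, η ((Δ.σ ^ a) x) = η ((Δ.σ ^ b) x)) ↔ a ≡ b [MOD s] := by
  wlog hab : a ≤ b generalizing a b
  · rw [Nat.ModEq.comm, ← this b a (le_of_not_ge hab)]
    exact forall_congr' fun x => eq_comm
  obtain ⟨u, rfl⟩ := Nat.exists_eq_add_of_le' hab
  rw [Nat.modEq_iff_dvd' hab, Nat.add_sub_cancel, ← h,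
    (Δ.σ ^ a).surjective.forall (p := fun x => η ((Δ.σ ^ u) x) = η x)]
  exact forall_congr' fun x => by rw [pow_add, MulAut.mul_apply, eq_comm]

end TestX

open TestX in
theorem test : TEST_st := by
  classical
  intro A _ _ Δ p _ f s M γ η l c P hf hM hη hl hP hω hs hd
  have hM0 : M ≠ 0 := by
    rintro rfl
    exact (Nat.one_lt_pow hf.ne' (Fact.out : p.Prime).one_lt).ne hM
  have hγ : ∀ x : (Kb p)ˣ, x ^ M = 1 → γ x ^ M = 1 := fun x hx => by
    rw [← map_pow, ← Units.val_pow_eq_pow_val, hx, Units.val_one, map_one]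
  have hl0 : γ l ≠ 0 := (map_ne_zero γ).2 l.ne_zero
  have h1 : ∀ i, lamG γ P i (∏ a : A, (1 - (MonoidAlgebra.single a 1 -
      MonoidAlgebra.single 1 (η a : Kb p)) ^ M)) = if ∀ a, P.ch i a = γ (η a) then 1 else 0 := by
    intro i
    simp only [map_prod, map_sub, map_one, map_pow, lamG_single, one_mul, Units.val_one, mul_one]
    split_ifs with h
    · exact prod_eq_one fun a _ => by rw [← Pt.ch_apply, h, sub_self, zero_pow hM0, sub_zero]
    · obtain ⟨a, ha⟩ := not_forall.1 h
      refine prod_eq_zero (mem_univ a) ?_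
      rw [Pt.ch_apply] at ha
      rw [sub_pow hM (by rw [← Units.val_pow_eq_pow_val, hP, Units.val_one]) (hγ _ (hη a)) ha,
        sub_self]
  have h2 : rhoG γ P (testEl s M η l c) = 1 + Matrix.of fun i j : ZMod P.d =>
      if ∀ a, P.ch i.val a = γ (η a) then (1 - γ c) * ∑ n ∈ range M,
        (if j = i + (s * n : ℕ) then ((γ l)⁻¹ * P.ω ^ s) ^ n else 0) else 0 := by
    ext i j
    rw [testEl, rhoG_add, Matrix.add_apply, Matrix.add_apply, rhoG_sum, rhoG_single,
      Matrix.one_apply, Matrix.of_apply]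
    congr 1
    · simp [eq_comm]
    · simp only [rhoG_single, map_mul, h1, lamG_single, Int.cast_natCast, zpow_natCast]
      split_ifs
      · rw [mul_sum]
        refine sum_congr rfl fun n _ => ?_
        split_ifs
        · simp [mul_pow, pow_mul, mul_assoc]
        · rw [mul_zero]
      · simp
  rw [h2]
  by_cases h : ∃ i, ∀ a, P.ch i a = γ (η a)
  · obtain ⟨q, rfl⟩ := hd h
    obtain ⟨i0, h0⟩ := id h
    have h3 : ∀ i, (∀ a, P.η ((Δ.σ ^ i) a) = P.η a) ↔ s ∣ i := fun i => by
      rw [← hs, (Δ.σ ^ i0).surjective.forall]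
      refine forall_congr' fun a => ?_
      rw [← MulAut.mul_apply, ← pow_add, add_comm, pow_add, MulAut.mul_apply, Units.ext_iff,
        ← Pt.ch_apply, ← Pt.ch_apply, h0, h0, γ.injective.eq_iff, Units.ext_iff]
    have h4 : s ∣ P.d := (h3 _).1 P.inv
    have h5 : P.d = s * (P.d / s) := (Nat.mul_div_cancel' h4).symm
    have h6 : ∀ i, (∀ a, P.ch i a = γ (η a)) ↔ i ≡ i0 [MOD s] := fun i => by
      rw [← per P.η h3]
      exact forall_congr' fun a => by rw [← h0, Pt.ch_apply, Pt.ch_apply, Units.ext_iff]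
    rw [det_main q h5 ((γ l)⁻¹ * P.ω ^ s) _ (by
      rw [mul_pow, inv_pow, hγ l hl, ← pow_mul, mul_comm s, pow_mul, ← Units.val_pow_eq_pow_val,
        hω]
      simp) (i0 : ZMod P.d) (fun i => ∀ a, P.ch i.val a = γ (η a)) fun i => ?_]
    · have e : ((P.d / s * q : ℕ) : Kb p) = -1 := by
        rw [eq_neg_iff_add_eq_zero, ← Nat.cast_succ, Nat.succ_eq_add_one, hM, Nat.cast_pow,
          CharP.cast_eq_zero, zero_pow hf.ne']
      refine if_congr ?_ (by rw [e]; ring) rfl
      rw [and_iff_right h, mul_pow, inv_pow, ← pow_mul, ← h5,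
        inv_mul_eq_one₀ (pow_ne_zero _ hl0)]
    · rw [h6]
      constructor
      · intro e
        have e1 : (i - i0).val + i0 ≡ i.val [MOD P.d] := by
          rw [← ZMod.natCast_eq_natCast_iff]
          simp
        obtain ⟨n, hn⟩ := Nat.modEq_zero_iff_dvd.1
          (Nat.ModEq.add_right_cancel' i0 (((e1.of_dvd h4).trans e).trans (by rw [zero_add])))
        refine ⟨n, lt_of_mul_lt_mul_left (a := s) ?_ (Nat.zero_le _), ?_⟩
        · rw [← hn, ← h5]
          exact ZMod.val_lt _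
        · rw [← hn]
          simp
      · rintro ⟨n, -, e⟩
        have e1 : i.val ≡ i0 + s * n [MOD P.d] := by
          rw [← ZMod.natCast_eq_natCast_iff, ZMod.natCast_zmod_val, e, Nat.cast_add]
        exact (e1.of_dvd h4).trans (by simp [Nat.ModEq])
  · rw [if_neg fun h' => h h'.1]
    simp only [if_neg fun h' => h ⟨_, h'⟩]
    rw [show (Matrix.of fun _ _ : ZMod P.d => (0 : Kb p)) = 0 from rfl, add_zero, Matrix.det_one]

end Pool.Agent.MP_f3cd89_nt
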