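import Pool.Agent.MP_f3cd89_nt.AStm

/-! The triangularity step. -/

set_option autoImplicit false

open Finset

namespace Pool.Agent.MP_f3cd89_nt

namespace TriX

theorem prod_block {M : Type} [CommMonoid M] (F : ℕ → M) (g f : ℕ) :
    ∏ j ∈ range (f * g), F j = ∏ t ∈ range f, ∏ i ∈ range g, F (i + t * g) := by
  induction f with
  | zero => simp
  | succ f ih => rw [Nat.succ_mul, prod_range_add, ih, prod_range_succ]; simp only [add_comm]

theorem prod_shift {M : Type} [CommMonoid M] {F : ℕ → M} {D : ℕ} (h : ∀ j, F (j + D) = F j)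
    (n : ℕ) : ∏ j ∈ range D, F (j + n) = ∏ j ∈ range D, F j := by
  induction n with
  | zero => rfl
  | succ n ih =>
    rw [← ih]
    cases D with
    | zero => rfl
    | succ D =>
      rw [prod_range_succ, prod_range_succ' (fun j => F (j + n))]
      congr 1
      · exact prod_congr rfl fun j _ => by congr 1; ring
      · rw [← h (0 + n)]; congr 1; ring

variable {d : ℕ}

variable (d) in
/-- translation of subsets -/
def tau : Equiv.Perm (ZMod d → Bool) where
  toFun u i := u (i - 1)
  invFun u i := u (i + 1)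
  left_inv u := by ext; simp
  right_inv u := by ext; simp

theorem tau_pow (n : ℕ) (u : ZMod d → Bool) (i : ZMod d) : (tau d ^ n) u i = u (i - n) := by
  induction n generalizing i with
  | zero => simp
  | succ n ih =>
    rw [pow_succ', Equiv.Perm.mul_apply]
    change (tau d ^ n) u (i - 1) = _
    rw [ih]
    congr 1
    push_cast
    ring

/-- the period of a subset -/
noncomputable abbrev mp (u : ZMod d → Bool) : ℕ := Function.minimalPeriod (tau d) u

theorem mp_dvd {u : ZMod d → Bool} {n : ℕ} : mp u ∣ n ↔ ∀ i, u (i - n) = u i := by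
  rw [← Function.isPeriodicPt_iff_minimalPeriod_dvd, Function.IsPeriodicPt, Function.IsFixedPt,
    ← Equiv.Perm.coe_pow, funext_iff]
  simp only [tau_pow]

theorem mp_dvd_self (u : ZMod d → Bool) : mp u ∣ d := mp_dvd.2 fun i => by simp

theorem per {u : ZMod d → Bool} {n : ℕ} (h : mp u ∣ n) (i : ZMod d) : u (i + n) = u i := by
  rw [← mp_dvd.1 h, add_sub_cancel_right]

theorem mp_tau (u : ZMod d → Bool) (n D : ℕ) : mp ((tau d ^ n) u) ∣ D ↔ mp u ∣ D := by
  simp only [mp_dvd, tau_pow]
  refine ⟨fun h i => ?_, fun h i => by rw [sub_right_comm, h]⟩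
  have := h (i + n)
  rwa [sub_right_comm, add_sub_cancel_right] at this

variable {k : Type} [CommRing k]

/-- the term of the determinant attached to a subset -/
noncomputable def G (x : ℕ → k) (D : ℕ) (u : ZMod d → Bool) : k :=
  if mp u ∣ D then (∏ i ∈ range (D.gcd d), if u i then -1 else 1) *
    ∏ j ∈ range D, (if u j then x j else 1) else 0

theorem sum_G [NeZero d] (x : ℕ → k) (D : ℕ) : ∑ u : ZMod d → Bool, G x D u =
    ∏ i ∈ range (D.gcd d), (1 - ∏ t ∈ range (D / D.gcd d), x (i + t * D.gcd d)) := by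
  have hg : 0 < D.gcd d := Nat.gcd_pos_of_pos_right _ (NeZero.pos d)
  let φ := ZMod.castHom (Nat.gcd_dvd_right D d) (ZMod (D.gcd d))
  have hφ : ∀ n : ℕ, (φ n).val = n % D.gcd d := fun n => by rw [map_natCast, ZMod.val_natCast]
  simp only [sub_eq_add_neg, prod_one_add, G]
  rw [← sum_filter]
  refine sum_nbij' (fun u => (range (D.gcd d)).filter fun i : ℕ => u i)
    (fun S a => decide ((φ a).val ∈ S)) (fun u _ => by simp) (fun S _ => ?_)
    (fun u hu => ?_) (fun S hS => ?_) fun u hu => ?_
  · refine mem_filter.2 ⟨mem_univ _, mp_dvd.2 fun i => ?_⟩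
    rw [map_sub, map_natCast, (ZMod.natCast_eq_zero_iff _ _).2 (Nat.gcd_dvd_left D d), sub_zero]
  · funext a
    obtain ⟨n, rfl⟩ := ZMod.natCast_zmod_surjective a
    have h1 : mp u ∣ D.gcd d * (n / D.gcd d) :=
      (Nat.dvd_gcd (mem_filter.1 hu).2 (mp_dvd_self u)).mul_right _
    have h2 := per h1 (n % D.gcd d : ℕ)
    rw [← Nat.cast_add, Nat.mod_add_div] at h2
    simp only [hφ, mem_filter, mem_range, Nat.mod_lt _ hg, true_and, Bool.decide_eq_true, h2]
  · ext i
    have h1 := mem_powerset.1 hS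
    simp only [hφ, mem_filter, mem_range, decide_eq_true_eq]
    exact ⟨fun h => by simpa only [Nat.mod_eq_of_lt h.1] using h.2, fun h =>
      have h2 := mem_range.1 (h1 h)
      ⟨h2, by rwa [Nat.mod_eq_of_lt h2]⟩⟩
  · have h1 : mp u ∣ D.gcd d := Nat.dvd_gcd (mem_filter.1 hu).2 (mp_dvd_self u)
    have h2 := prod_block (fun j => if u j then x j else 1) (D.gcd d) (D / D.gcd d)
    rw [Nat.div_mul_cancel (Nat.gcd_dvd_left D d), prod_comm] at h2
    rw [h2, prod_filter, ← prod_mul_distrib]
    refine prod_congr rfl fun i _ => ?_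
    have h3 : ∀ t : ℕ, u (i + t * D.gcd d : ℕ) = u i := fun t => by
      rw [Nat.cast_add, per (h1.mul_left t)]
    simp only [h3]
    split_ifs <;> simp

/-- the subset in one period -/
noncomputable def S1 (u : ZMod d → Bool) : Finset ℕ := (range (mp u)).filter fun i : ℕ => u i

theorem G_tau {x : ℕ → k} {D : ℕ} (hx : ∀ j, x (j + D) = x j) {u : ZMod d → Bool} (h : mp u ∣ D)
    (n : ℕ) : G x D ((tau d ^ n) u) = ((-1) ^ (S1 u).card) ^ (D.gcd d / mp u) *
      ∏ t ∈ range (D / mp u), ∏ i ∈ S1 u, x (n + t * mp u + i) := by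
  have h1 : mp u ∣ D.gcd d := Nat.dvd_gcd h (mp_dvd_self u)
  have h3 : ∀ i t : ℕ, u (i + t * mp u : ℕ) = u i := fun i t => by
    rw [Nat.cast_add, per (dvd_mul_left (mp u) t)]
  rw [G, if_pos ((mp_tau u n D).2 h)]
  simp only [tau_pow]
  congr 1
  · rw [← prod_shift (F := fun i : ℕ => if u (i - n) then (-1 : k) else 1)
      (fun j => by rw [Nat.cast_add, add_sub_right_comm, per h1]) n]
    simp only [Nat.cast_add, add_sub_cancel_right]
    have h2 := prod_block (fun j : ℕ => if u j then (-1 : k) else 1) (mp u) (D.gcd d / mp u)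
    rw [Nat.div_mul_cancel h1] at h2
    rw [h2]
    simp only [h3]
    rw [prod_const, card_range, ← prod_filter, prod_const, S1]
  · rw [← prod_shift (F := fun i : ℕ => if u (i - n) then x i else 1)
      (fun j => by rw [Nat.cast_add, add_sub_right_comm, per h, hx]) n]
    simp only [Nat.cast_add, add_sub_cancel_right]
    have h2 := prod_block (fun j : ℕ => if u j then x (j + n) else 1) (mp u) (D / mp u)
    rw [Nat.div_mul_cancel h] at h2
    rw [h2]
    simp only [h3]
    refine prod_congr rfl fun t _ => ?_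
    rw [← prod_filter, S1]
    exact prod_congr rfl fun i _ => by congr 1; ring

variable {A : Type} [CommGroup A] {Δ : Dat A}

/-- the weights of the shift -/
noncomputable def xw (d : ℕ) (h : MonoidAlgebra ℤ A) (P : Pt Δ k) (j : ℕ) : k :=
  lam P j h * ((P.ω ^ (d : ℤ) : kˣ) : k)

theorem xw_per (h : MonoidAlgebra ℤ A) (P : Pt Δ k) (j : ℕ) : xw d h P (j + P.d) = xw d h P j := by
  have := lam_add_mul P j 1
  rw [one_mul] at this
  rw [xw, this, xw]

theorem orbit (h : MonoidAlgebra ℤ A) (u : ZMod d → Bool) (P : Pt Δ k) :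
    ∑ n ∈ range (mp u), G (xw d h P) P.d ((tau d ^ n) u) =
      ((-1) ^ (S1 u).card) ^ (P.d.gcd d / mp u) *
        W (mp u) (∏ i ∈ S1 u, sg Δ i h) (d * (S1 u).card) P := by
  rw [W]
  split_ifs with hd
  · rw [mul_sum]
    refine sum_congr rfl fun n _ => ?_
    rw [G_tau (xw_per h P) hd]
    congr 1
    refine prod_congr rfl fun t _ => ?_
    simp only [xw, map_prod, lam_sg, prod_mul_distrib, prod_const, zpow_mul, zpow_natCast,
      Units.val_pow_eq_pow_val]
  · rw [mul_zero]
    exact sum_eq_zero fun n _ => if_neg fun e => hd ((mp_tau u n _).1 e)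

theorem W_neg (d : ℕ) (b : MonoidAlgebra ℤ A) (e : ℤ) (P : Pt Δ k) :
    W d (-b) e P = (-1) ^ (P.d / d) * W d b e P := by
  simp only [W, map_neg, neg_mul, prod_neg, card_range, ← mul_sum]
  split_ifs <;> simp

theorem even_iff {a n : ℕ} (ha : 0 < a) (h : a ∣ n) : Even (n / a) ↔ a * 2 ∣ n := by
  obtain ⟨c, rfl⟩ := h
  rw [Nat.mul_div_cancel_left _ ha, even_iff_two_dvd, Nat.mul_dvd_mul_iff_left ha]

theorem sign_mem {N : AddSubgroup (Pt Δ k → k)} {a : ℕ} (ha : 0 < a) (had : a ∣ d)
    {b : MonoidAlgebra ℤ A} {e : ℤ} (h1 : W a b e ∈ N) (h2 : W a (-b) e ∈ N) (c : ℕ) :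
    (fun P : Pt Δ k => ((-1) ^ c) ^ (P.d.gcd d / a) * W a b e P) ∈ N := by
  rcases Nat.even_or_odd c with hc | hc
  · simpa only [hc.neg_one_pow, one_pow, one_mul] using h1
  rw [hc.neg_one_pow]
  by_cases h : a * 2 ∣ d
  · convert h2 using 1
    funext P
    rw [W_neg]
    by_cases hP : a ∣ P.d
    · congr 1
      rw [neg_one_pow_eq_ite, neg_one_pow_eq_ite]
      simp only [even_iff ha hP, even_iff ha (Nat.dvd_gcd hP had), Nat.dvd_gcd_iff, h, and_true]
    · simp only [W, if_neg hP, mul_zero]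
  · convert neg_mem h1 using 1
    funext P
    by_cases hP : a ∣ P.d
    · rw [neg_one_pow_eq_ite, if_neg, neg_one_mul, Pi.neg_apply]
      rw [even_iff ha (Nat.dvd_gcd hP had)]
      exact fun e => h (e.trans (Nat.gcd_dvd_right _ _))
    · simp only [Pi.neg_apply, W, if_neg hP, mul_zero, neg_zero]

theorem det_eq (hD : DET_st) [NeZero d] (h : MonoidAlgebra ℤ A) (P : Pt Δ k) :
    (rho P (Finsupp.single 0 1 + Finsupp.single (d : ℤ) (-h))).det =
      ∑ u : ZMod d → Bool, G (xw d h P) P.d u := by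
  have := hD k P.d d (xw d h P) 1 (xw_per h P)
  simp only [Int.gcd_natCast_natCast, one_pow] at this
  rw [sum_G, ← this]
  congr 1
  ext i j
  rw [rho, rhoG_add, Matrix.add_apply, rhoG_single, rhoG_single]
  simp only [Matrix.sub_apply, one_smul, Matrix.one_apply, Matrix.of_apply, Int.cast_zero, add_zero,
    map_one, zpow_zero, Units.val_one, mul_one, map_neg, eq_comm (a := i), xw, lam]
  split_ifs <;> simp [sub_eq_add_neg]

/-- singletons -/
def dl (a : ZMod d) : ZMod d → Bool := fun i => decide (i = a)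

theorem tau_dl (n : ℕ) (u : ZMod d → Bool) : (tau d ^ n) u = dl 0 ↔ u = dl (-n : ZMod d) := by
  simp only [funext_iff, tau_pow, dl]
  refine ⟨fun h i => ?_, fun h i => by rw [h]; simp [sub_eq_iff_eq_add]⟩
  have := h (i + n)
  rw [add_sub_cancel_right] at this
  simp [this, add_eq_zero_iff_eq_neg]

theorem dl_inj {a b : ZMod d} (h : dl a = dl b) : a = b := by
  simpa [dl] using congrFun h a

theorem mp_dl (a : ZMod d) : mp (dl a) = d := by
  refine Nat.dvd_antisymm (mp_dvd_self _) ?_
  have := per (dvd_refl (mp (dl a))) a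
  simpa [dl, ZMod.natCast_eq_zero_iff] using this

theorem S1_dl [NeZero d] (a : ZMod d) : S1 (dl a) = {a.val} := by
  ext i
  simp only [S1, mp_dl, dl, mem_filter, mem_range, decide_eq_true_eq, mem_singleton]
  constructor
  · rintro ⟨h, rfl⟩
    exact (ZMod.val_natCast_of_lt h).symm
  · rintro rfl
    exact ⟨a.val_lt, ZMod.natCast_zmod_val a⟩

theorem eq_dl [NeZero d] {u : ZMod d → Bool} (h : mp u = d) {i : ℕ} (hi : S1 u = {i}) :
    u = dl (i : ZMod d) := by
  have h1 : ∀ j, j < d ∧ u j = true ↔ j = i := fun j => by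
    rw [← mem_singleton (b := j), ← hi, S1, h, mem_filter, mem_range]
  funext a
  have h2 := h1 a.val
  rw [ZMod.natCast_zmod_val, and_iff_right a.val_lt] at h2
  rw [Bool.eq_iff_iff, h2, dl, decide_eq_true_eq]
  constructor
  · rintro rfl
    exact (ZMod.natCast_zmod_val a).symm
  · rintro rfl
    exact ZMod.val_natCast_of_lt ((h1 i).2 rfl).1

theorem mp_empty [NeZero d] {u : ZMod d → Bool} (h : S1 u = ∅) : mp u = 1 := by
  have h0 : 0 < mp u := Nat.pos_of_dvd_of_pos (mp_dvd_self u) (NeZero.pos d)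
  have h1 : ∀ a, u a = false := fun a => by
    obtain ⟨n, rfl⟩ := ZMod.natCast_zmod_surjective a
    have h2 := per (dvd_mul_right (mp u) (n / mp u)) (n % mp u : ℕ)
    rw [← Nat.cast_add, Nat.mod_add_div] at h2
    rw [h2]
    simpa using filter_eq_empty_iff.1 h (mem_range.2 (Nat.mod_lt n h0))
  exact Nat.dvd_one.1 (mp_dvd.2 fun i => by rw [h1, h1])

end TriX

open TriX in
theorem tri (hD : DET_st) (hO : ORB_st) (hB : BASE_st) (hR : RING_st) : TRI_st := by
  intro A _ Δ k _ N I hJ hN hI hII d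
  obtain ⟨b1, b2, -⟩ := hB A Δ k
  obtain ⟨r1, -, r3, -, r5, -⟩ := hR A Δ k
  induction d using Nat.strong_induction_on with
  | _ d ih =>
  intro e h hd he hh
  have : NeZero d := ⟨(Nat.pos_of_dvd_of_pos hd Δ.m_pos).ne'⟩
  have key : (W d h d : Pt Δ k → k) ∈ N := by
    classical
    have h1 := hO _ N _ (tau d) (fun u => (fun P : Pt Δ k => G (xw d h P) P.d u) +
      if u = dl 0 then W d h d else 0) fun u => by
      have h0 : 0 < mp u := Nat.pos_of_dvd_of_pos (mp_dvd_self u) (NeZero.pos d)
      have e1 : ∑ n ∈ range (mp u), (fun P : Pt Δ k => G (xw d h P) P.d ((tau d ^ n) u)) =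
          fun P => ((-1) ^ (S1 u).card) ^ (P.d.gcd d / mp u) *
            W (mp u) (∏ i ∈ S1 u, sg Δ i h) (d * (S1 u).card) P := by
        funext P
        rw [Finset.sum_apply, orbit]
      rw [sum_add_distrib, e1]
      by_cases hu : ∃ a, u = dl a
      · obtain ⟨a, rfl⟩ := hu
        rw [S1_dl, mp_dl, sum_eq_single (-a).val, if_pos ((tau_dl _ _).2 (by simp))]
        · convert N.zero_mem using 1
          funext P
          rw [Pi.add_apply, card_singleton, prod_singleton, b2, pow_one, Nat.cast_one, mul_one]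
          by_cases hP : d ∣ P.d
          · rw [Nat.gcd_eq_right hP, Nat.div_self (NeZero.pos d)]
            simp
          · simp [W, hP]
        · intro n hn hne
          refine if_neg fun e => hne ?_
          rw [dl_inj ((tau_dl _ _).1 e), neg_neg,
            ZMod.val_natCast_of_lt ((mem_range.1 hn).trans_eq (mp_dl a))]
        · exact fun e => (e (mem_range.2 ((ZMod.val_lt _).trans_eq (mp_dl a).symm))).elim
      · rw [sum_eq_zero fun n _ => if_neg fun e => hu ⟨_, (tau_dl _ _).1 e⟩, add_zero]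
        have hm : mp u ∣ Δ.m := (mp_dvd_self u).trans hd
        have he1 : (mp u : ℤ) ∣ d * (S1 u).card :=
          (Int.natCast_dvd_natCast.2 (mp_dvd_self u)).mul_right _
        rcases (S1 u).eq_empty_or_nonempty with h2 | ⟨i, hi⟩
        · convert hJ r1 using 1
          funext P
          simp [h2, mp_empty h2, W]
        rcases ((S1 u).erase i).eq_empty_or_nonempty with h3 | ⟨j, hj⟩
        · have h4 : S1 u = {i} := by rw [← insert_erase hi, h3]; rfl
          have h5 : mp u < d := lt_of_le_of_ne (Nat.le_of_dvd (NeZero.pos d) (mp_dvd_self u))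
            fun e => hu ⟨_, eq_dl e h4⟩
          have h6 : ∏ i ∈ S1 u, sg Δ i h ∈ I := by rw [h4, prod_singleton]; exact hI i h hh
          exact sign_mem h0 (mp_dvd_self u) (ih _ h5 _ _ hm he1 h6)
            (ih _ h5 _ _ hm he1 (neg_mem h6)) _
        · have h6 : ∏ i ∈ S1 u, sg Δ i h ∈ I * I := by
            rw [← mul_prod_erase _ _ hi, ← mul_prod_erase _ _ hj]
            exact Ideal.mul_mem_mul (hI i h hh) (I.mul_mem_right _ (hI j h hh))
          exact sign_mem h0 (mp_dvd_self u) (hII _ _ _ hm he1 h6)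
            (hII _ _ _ hm he1 (neg_mem h6)) _
    rw [sum_add_distrib, sum_ite_eq', if_pos (mem_univ _)] at h1
    refine (add_mem_cancel_left ?_).1 h1
    convert hJ (r3 (Finsupp.single 0 1 + Finsupp.single (d : ℤ) (-h))) using 1
    funext P
    rw [Finset.sum_apply, det_eq hD]
  obtain ⟨q, rfl⟩ := he
  convert hN _ (r5 (q - 1)) _ key using 1
  funext P
  rw [Pi.mul_apply, mul_comm _ (W d h d P), ← b1]
  congr 1
  ring

end Pool.Agent.MP_f3cd89_nt
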