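import Pool.Agent.MP_f3cd89_nt.AStm

set_option autoImplicit false

open Finset

namespace Pool.Agent.MP_f3cd89_nt

namespace WvX

/-- the shift on words -/
def sh (n : ℕ) : Equiv.Perm (ZMod n → Bool) where
  toFun ν t := ν (t - 1)
  invFun ν t := ν (t + 1)
  left_inv ν := funext fun t => by simp
  right_inv ν := funext fun t => by simp

theorem sh_pow {n : ℕ} (u : ℕ) (ν : ZMod n → Bool) (t : ZMod n) : (sh n ^ u) ν t = ν (t - u) := by
  induction u generalizing t with
  | zero => simp
  | succ u ih =>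
    rw [pow_succ', Equiv.Perm.mul_apply]
    change (sh n ^ u) ν (t - 1) = _
    rw [ih, Nat.cast_succ, sub_sub, add_comm]

theorem per_iff {n : ℕ} (R : ℕ) (ν : ZMod n → Bool) :
    Function.minimalPeriod (sh n) ν ∣ R ↔ ∀ t, ν (t - R) = ν t := by
  rw [← Function.isPeriodicPt_iff_minimalPeriod_dvd, Function.IsPeriodicPt, Function.IsFixedPt,
    ← Equiv.Perm.coe_pow, funext_iff]
  simp only [sh_pow]

theorem per_add {n R : ℕ} {ν : ZMod n → Bool} (h : Function.minimalPeriod (sh n) ν ∣ R)
    (t : ZMod n) (s : ℕ) : ν (t + (s * R : ℕ)) = ν t := by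
  rw [← (per_iff (s * R) ν).1 (h.mul_left s), add_sub_cancel_right]

theorem per_dvd {n : ℕ} (ν : ZMod n → Bool) : Function.minimalPeriod (sh n) ν ∣ n :=
  (per_iff n ν).2 fun t => by simp

theorem per_pow {n : ℕ} [NeZero n] (u : ℕ) (ν : ZMod n → Bool) :
    Function.minimalPeriod (sh n) ((sh n ^ u) ν) = Function.minimalPeriod (sh n) ν := by
  rw [Equiv.Perm.coe_pow]
  exact Function.minimalPeriod_apply_iterate ⟨n, NeZero.pos n,
    Function.isPeriodicPt_iff_minimalPeriod_dvd.2 (per_dvd ν)⟩ u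

theorem const_of {n : ℕ} [NeZero n] {ν : ZMod n → Bool} (h : Function.minimalPeriod (sh n) ν = 1) :
    ν = fun _ => ν 0 := by
  funext t
  have := per_add h.dvd 0 t.val
  simpa using this

theorem per_const {n : ℕ} (s : Bool) : Function.minimalPeriod (sh n) (fun _ => s) = 1 :=
  Nat.dvd_one.1 ((per_iff 1 _).2 fun _ => rfl)

theorem prod_shift {k : Type} [CommRing k] (h : ℕ → k) (R : ℕ) (hR : h R = h 0) :
    ∏ t ∈ range R, h (t + 1) = ∏ t ∈ range R, h t := by
  cases R with
  | zero => simp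
  | succ R => rw [prod_range_succ, prod_range_succ' h, hR]

theorem prod_mul {M : Type} [CommMonoid M] (h : ℕ → M) (a b : ℕ) :
    ∏ j ∈ range (a * b), h j = ∏ s ∈ range a, ∏ t ∈ range b, h (t + s * b) := by
  induction a with
  | zero => simp
  | succ a ih =>
    rw [Nat.succ_mul, prod_range_add, ih, prod_range_succ]
    simp only [add_comm]

theorem sum_mul' {M : Type} [AddCommMonoid M] (h : ℕ → M) (a b : ℕ) :
    ∑ j ∈ range (a * b), h j = ∑ s ∈ range a, ∑ t ∈ range b, h (t + s * b) :=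
  prod_mul (M := Multiplicative M) h a b

theorem expand {k : Type} [CommRing k] {n R : ℕ} [NeZero n] (hR : R ∣ n) (x : Bool → ℕ → k) :
    ∏ t ∈ range R, (x false t + x true t) = ∑ ν : ZMod n → Bool,
      if Function.minimalPeriod (sh n) ν ∣ R then ∏ t ∈ range R, x (ν t) t else 0 := by
  have hp : 0 < R := Nat.pos_of_dvd_of_pos hR (NeZero.pos n)
  have hle : R ≤ n := Nat.le_of_dvd (NeZero.pos n) hR
  have h1 : ∀ t, x false t + x true t = ∑ s : Bool, x s t := fun t => by simp [add_comm]
  simp only [h1]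
  rw [prod_range, prod_univ_sum]
  let e : (Fin R → Bool) → ZMod n → Bool := fun μ t => μ ⟨t.val % R, Nat.mod_lt _ hp⟩
  have he : ∀ μ (t : Fin R), e μ ((t : ℕ) : ZMod n) = μ t := fun μ t => by
    simp only [e, ZMod.val_cast_of_lt (t.2.trans_le hle), Nat.mod_eq_of_lt t.2]
  refine sum_of_injOn e (fun μ _ μ' _ h => funext fun t => by rw [← he μ, h, he])
    (fun _ _ => mem_univ _) (fun ν _ hν => if_neg fun h => hν ⟨fun t => ν (t : ℕ), by simp, ?_⟩)
    fun μ _ => ?_
  · funext t
    have := per_add h ((t.val % R : ℕ) : ZMod n) (t.val / R)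
    rw [← Nat.cast_add, Nat.mod_add_div', ZMod.natCast_zmod_val] at this
    exact this.symm
  · rw [if_pos, prod_range]
    · exact prod_congr rfl fun t _ => by rw [he]
    · refine (per_iff R _).2 fun t => ?_
      obtain ⟨s, rfl⟩ : ∃ s, t = s + R := ⟨t - R, by simp⟩
      simp only [e, add_sub_cancel_right, ZMod.val_add, ZMod.val_natCast, Nat.add_mod_mod,
        Nat.mod_mod_of_dvd _ hR, Nat.add_mod_right]

variable {A : Type} [CommGroup A] {Δ : Dat A} {k : Type} [CommRing k]

/-- the term of a word -/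
noncomputable def G (d : ℕ) (b : Bool → MonoidAlgebra ℤ A) (e : ℤ) {n : ℕ} (ν : ZMod n → Bool)
    (P : Pt Δ k) : k :=
  if d ∣ P.d ∧ Function.minimalPeriod (sh n) ν ∣ P.d / d then ∑ i ∈ range d,
    ∏ t ∈ range (P.d / d), (lam P (i + t * d) (b (ν t)) * ((P.ω ^ e : kˣ) : k)) else 0

theorem sum_G {d n : ℕ} [NeZero n] (hn : Δ.m = d * n) (b : Bool → MonoidAlgebra ℤ A) (e : ℤ) :
    (W d (b false + b true) e : Pt Δ k → k) = ∑ ν : ZMod n → Bool, G d b e ν := by
  funext P
  rw [Finset.sum_apply, W]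
  split_ifs with h
  · have hR : P.d / d ∣ n := by
      have h0 : 0 < d := Nat.pos_of_dvd_of_pos h P.d_pos
      refine Nat.dvd_of_mul_dvd_mul_left h0 ?_
      rw [Nat.mul_div_cancel' h, ← hn]
      exact P.d_dvd
    simp only [map_add, add_mul]
    rw [sum_congr rfl fun i _ => expand hR fun s t =>
      lam P (i + t * d) (b s) * ((P.ω ^ e : kˣ) : k), sum_comm]
    refine sum_congr rfl fun ν _ => ?_
    simp only [G, h, true_and]
    split_ifs <;> simp
  · simp [G, h]

theorem orbit_G {d n : ℕ} [NeZero n] (b : Bool → MonoidAlgebra ℤ A) (e : ℤ) (ν : ZMod n → Bool)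
    {r : ℕ} (hr : Function.minimalPeriod (sh n) ν = r) :
    ∑ u ∈ range r, (G d b e ((sh n ^ u) ν) : Pt Δ k → k) =
      W (d * r) (∏ t ∈ range r, sg Δ (t * d) (b (ν t))) (e * r) := by
  funext P
  rw [Finset.sum_apply, W]
  simp only [G, per_pow, hr]
  by_cases h : d * r ∣ P.d
  · obtain ⟨q, hq⟩ := id h
    have h0 : 0 < d * r := Nat.pos_of_dvd_of_pos h P.d_pos
    have hd : 0 < d := Nat.pos_of_mul_pos_right h0
    have e1 : P.d / d = q * r := by rw [hq, mul_assoc, Nat.mul_div_cancel_left _ hd, mul_comm]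
    have e2 : P.d / (d * r) = q := by rw [hq, Nat.mul_div_cancel_left _ h0]
    have hc : d ∣ P.d ∧ r ∣ P.d / d := ⟨(dvd_mul_right d r).trans h, e1 ▸ dvd_mul_left r q⟩
    simp only [hc, h, and_self, if_true]
    rw [e2, e1, mul_comm d r, sum_mul']
    have key : ∀ u j : ℕ, ∏ t ∈ range (q * r),
        (lam P (j + t * d) (b (ν ((t : ZMod n) - u))) * ((P.ω ^ e : kˣ) : k)) =
        ∏ t ∈ range (q * r), (lam P (j + u * d + t * d) (b (ν t)) * ((P.ω ^ e : kˣ) : k)) := by
      intro u
      induction u with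
      | zero => simp
      | succ u ih =>
        intro j
        have e3 : j + (u + 1) * d = j + d + u * d := by ring
        rw [e3, ← ih, ← prod_shift]
        · refine prod_congr rfl fun t _ => ?_
          congr 2
          · ring_nf
          · push_cast
            ring_nf
        · have e4 : j + q * r * d = j + 0 * d + 1 * P.d := by rw [hq]; ring
          have e5 := per_add hr.dvd (((0 : ℕ) : ZMod n) - ((u + 1 : ℕ) : ZMod n)) q
          rw [e4, lam_add_mul, ← e5]
          congr 4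
          push_cast
          ring
    refine sum_congr rfl fun u _ => sum_congr rfl fun i _ => ?_
    simp only [sh_pow]
    rw [key, prod_mul]
    refine prod_congr rfl fun s _ => ?_
    rw [prod_mul_distrib, map_prod, prod_const, card_range, zpow_mul, zpow_natCast,
      Units.val_pow_eq_pow_val]
    congr 1
    refine prod_congr rfl fun t _ => ?_
    rw [lam_sg, Nat.cast_add, per_add hr.dvd]
    congr 2
    ring
  · have hc : ¬(d ∣ P.d ∧ r ∣ P.d / d) := fun hc => h (Nat.mul_dvd_of_dvd_div hc.1 hc.2)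
    simp [hc, h]

theorem sg_zero (b : MonoidAlgebra ℤ A) : sg Δ 0 b = b := by
  have : sg Δ 0 = RingHom.id _ := by
    refine MonoidAlgebra.ringHom_ext (fun x => ?_) fun a => ?_ <;> simp [sg_single]
  rw [this, RingHom.id_apply]

theorem add_step (hO : ORB_st) {d : ℕ} (hd : d ∣ Δ.m) {e : ℤ} (he : (d : ℤ) ∣ e)
    (ih : ∀ (r : ℕ) (b : MonoidAlgebra ℤ A) (e : ℤ), r ≠ 1 → d * r ∣ Δ.m → ((d * r : ℕ) : ℤ) ∣ e →
      W (d * r) b e ∈ Bgt Δ k d) (b₀ b₁ : MonoidAlgebra ℤ A) :
    W d (b₀ + b₁) e - W d b₀ e - W d b₁ e ∈ Bgt Δ k d := by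
  classical
  obtain ⟨n, hn⟩ := hd
  have : NeZero n := ⟨fun h => Δ.m_pos.ne' (by rw [hn, h, mul_zero])⟩
  let b : Bool → MonoidAlgebra ℤ A := fun s => cond s b₁ b₀
  have h1 := hO _ (Bgt Δ k d) _ (sh n) (fun ν => G d b e ν -
    (if ν = fun _ => false then W d b₀ e else 0) - (if ν = fun _ => true then W d b₁ e else 0))
    fun ν => ?_
  · rw [sum_sub_distrib, sum_sub_distrib, ← sum_G hn, sum_ite_eq', sum_ite_eq'] at h1
    simpa [b] using h1
  by_cases hr : Function.minimalPeriod (sh n) ν = 1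
  · have h2 := orbit_G (Δ := Δ) (k := k) (d := d) b e ν hr
    simp only [range_one, sum_singleton, prod_singleton, zero_mul, sg_zero, mul_one, pow_zero,
      Nat.cast_one, Nat.cast_zero, Equiv.Perm.one_apply] at h2
    simp only [hr, range_one, sum_singleton, pow_zero, Equiv.Perm.one_apply, h2]
    have h3 := const_of hr
    have h4 : ((fun _ => false) : ZMod n → Bool) ≠ fun _ => true := fun h => by
      simpa using congrFun h 0
    generalize ν 0 = s at h3
    subst h3
    cases s
    · simp [b, h4]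
    · simp [b, h4.symm]
  · have h2 : ∀ u s, (sh n ^ u) ν ≠ fun _ => s := fun u s h => hr (by
      rw [← per_pow u, h, per_const])
    simp only [h2, if_false, sub_zero]
    rw [orbit_G b e ν rfl]
    exact ih _ _ _ hr (hn ▸ mul_dvd_mul_left d (per_dvd ν))
      (by push_cast; exact mul_dvd_mul_right he _)

theorem mono {d r : ℕ} (hd : 0 < d) (hr : r ≠ 1) {b : MonoidAlgebra ℤ A} {e : ℤ}
    (hm : d * r ∣ Δ.m) (he : ((d * r : ℕ) : ℤ) ∣ e)
    (h : W (d * r) b e - Vl (d * r) b e ∈ Bgt Δ k (d * r)) : W (d * r) b e ∈ Bgt Δ k d := by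
  have hne : d * r ≠ d := fun h => hr (Nat.eq_of_mul_eq_mul_left hd (h.trans (mul_one d).symm))
  have h1 : Bgt Δ k (d * r) ≤ Bgt Δ k d := AddSubgroup.closure_mono
    fun _ ⟨d', a, e, h1, h2, _, h4, h5⟩ => ⟨d', a, e, h1, (dvd_mul_right d r).trans h2,
      fun h => hne (Nat.dvd_antisymm (h ▸ h2) (dvd_mul_right d r)), h4, h5⟩
  have h2 : Vl (d * r) b e ∈ Bgt Δ k d := AddSubgroup.sum_mem _ fun a _ =>
    AddSubgroup.zsmul_mem _ (AddSubgroup.subset_closure
      (by exact ⟨d * r, a, e, hm, dvd_mul_right d r, hne, he, rfl⟩)) _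
  simpa using add_mem (h1 h) h2

end WvX

set_option linter.unusedVariables false in
theorem wv (hO : ORB_st) (hB : BASE_st) : WV_st := by
  intro A _ Δ k _ d
  induction' hq : Δ.m - d using Nat.strong_induction_on with q ih generalizing d
  intro b e hd he
  have h0 : 0 < d := Nat.pos_of_dvd_of_pos hd Δ.m_pos
  have hadd := WvX.add_step (k := k) hO hd he fun r b e hr hm he => WvX.mono h0 hr hm he (by
    have h1 := Nat.le_of_dvd Δ.m_pos hm
    have h2 : r ≠ 0 := fun h => by
      rw [h, mul_zero, zero_dvd_iff] at hm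
      exact Δ.m_pos.ne' hm
    have h3 : d * 2 ≤ d * r := Nat.mul_le_mul_left d (by omega)
    exact ih (Δ.m - d * r) (by omega) _ rfl b e hm he)
  let S : AddSubgroup (MonoidAlgebra ℤ A) :=
    { carrier := {b | W d b e - Vl d b e ∈ Bgt Δ k d}
      add_mem' := fun {x y} hx hy => by
        have := add_mem (add_mem (hadd x y) hx) hy
        rw [Set.mem_ofPred_eq, Vl_add]
        rwa [show W d (x + y) e - W d x e - W d y e + (W d x e - Vl d x e) + (W d y e - Vl d y e) =
          (W d (x + y) e - (Vl d x e + Vl d y e) : Pt Δ k → k) by abel] at this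
      zero_mem' := by
        have := neg_mem (hadd 0 0)
        rw [Set.mem_ofPred_eq, Vl_zero]
        simpa using this
      neg_mem' := fun {x} hx => by
        have := neg_mem (add_mem (add_mem (hadd x (-x)) (hadd 0 0)) hx)
        rw [Set.mem_ofPred_eq, Vl_neg]
        rw [add_neg_cancel, add_zero] at this
        rwa [show -(W d 0 e - W d x e - W d (-x) e + (W d 0 e - W d 0 e - W d 0 e) +
          (W d x e - Vl d x e)) = (W d (-x) e - -Vl d x e : Pt Δ k → k) by abel] at this }
  change b ∈ S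
  induction b using MonoidAlgebra.induction_linear with
  | zero => exact zero_mem _
  | add x y hx hy => exact add_mem hx hy
  | single a z =>
    have h1 : MonoidAlgebra.of ℤ A a ∈ S := by
      change W d _ e - Vl d _ e ∈ Bgt Δ k d
      rw [Vl_of, V, sub_self]
      exact zero_mem _
    simpa using S.zsmul_mem h1 z

end Pool.Agent.MP_f3cd89_nt
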