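import Pool.Agent.MP_f3cd89_nt.CStm

/-! Crossing with a cyclotomic extension. -/

set_option autoImplicit false
set_option linter.unusedSectionVars false

open Finset NumberField IsDedekindDomain

namespace Pool.Agent.MP_f3cd89_nt

namespace XlX

section

variable {E : Type} [Field E] [NumberField E]

theorem off_ind {S : Finset (Pr E)} {P : (Pr E →₀ ℤ) → Prop} (h0 : P 0)
    (ha : ∀ a b, P a → P b → P (a + b)) (hs : ∀ v, v ∉ S → ∀ n, P (Finsupp.single v n))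
    {D : Pr E →₀ ℤ} (hD : D ∈ off S) : P D := by
  rw [← Finsupp.sum_single D]
  exact Finset.sum_induction _ P ha h0 fun v hv =>
    hs v (fun h => Finsupp.mem_support_iff.1 hv (hD v h)) _

theorem single_mem {S : Finset (Pr E)} {v : Pr E} (hv : v ∉ S) (n : ℤ) :
    Finsupp.single v n ∈ off S := fun _ hw =>
  Finsupp.single_eq_of_ne fun e => hv (e ▸ hw)

/-- the character on divisors as a homomorphism -/
noncomputable def chH {M : Type} [CommGroup M] (ψ : Pr E → M) : (Pr E →₀ ℤ) →+ Additive M :=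
  AddMonoidHom.mk' (fun D => Additive.ofMul (chv ψ D)) fun a b =>
    congrArg Additive.ofMul (chv_add ψ a b)

theorem ray_mono {S S' : Finset (Pr E)} (h : S ⊆ S') {N : ℕ} {x : E} (hx : Ray S' N x) :
    Ray S N x := ⟨hx.1, hx.2.1, fun v hv => hx.2.2 v (h hv)⟩

end

variable {F E : Type} [Field F] [NumberField F] [Field E] [NumberField E] [Algebra F E]

variable (F) in
/-- the residue degree -/
noncomputable abbrev fd (w : Pr E) : ℕ := w.asIdeal.inertiaDeg (𝓞 F)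

variable (F) in
/-- the norm of a divisor -/
noncomputable def Nm : (Pr E →₀ ℤ) →+ (Pr F →₀ ℤ) :=
  Finsupp.liftAddHom fun w => (Finsupp.singleAddHom (w.under (𝓞 F))).comp
    (AddMonoidHom.mulLeft (fd F w : ℤ))

theorem Nm_single (w : Pr E) (n : ℤ) :
    Nm F (Finsupp.single w n) = Finsupp.single (w.under (𝓞 F)) (fd F w * n) :=
  Finsupp.liftAddHom_apply_single _ _ _

theorem Nm_dv [IsGalois F E] {y : E} (hy : y ≠ 0) : Nm F (dv y) = dv (Algebra.norm F y) := by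
  classical
  ext v
  rw [dv_apply, ord_norm v hy, finsum_eq_sum_of_support_subset (s := (dv y).support) _
    fun w hw => by
      by_contra h
      have h0 : ord w y = 0 := Finsupp.notMem_support_iff.1 h
      exact hw (by simp [h0]),
    Nm, Finsupp.liftAddHom_apply, Finsupp.sum, Finsupp.finsetSum_apply]
  refine Finset.sum_congr rfl fun w _ => ?_
  change Finsupp.single (w.under (𝓞 F)) (fd F w * ord w y) v = _
  rw [Finsupp.single_apply]
  exact if_congr ⟨fun h => h ▸ over_under w, under_eq⟩ rfl rfl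

section

variable {G : Type} [CommGroup G] {S : Finset (Pr F)} {φ : Pr F → G} {ψ : Pr E → G}
  {H : Subgroup G}

theorem chv_Nm (h : ∀ w, w ∉ above E S → ψ w = φ (w.under (𝓞 F)) ^ fd F w) {B : Pr E →₀ ℤ}
    (hB : B ∈ off (above E S)) : chv φ (Nm F B) = chv ψ B := by
  refine off_ind (P := fun B => chv φ (Nm F B) = chv ψ B) ?_ (fun a b ha hb => ?_)
    (fun w hw n => ?_) hB
  · rw [map_zero, chv_zero, chv_zero]
  · rw [map_add, chv_add, chv_add, ha, hb]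
  · rw [Nm_single, chv_single, chv_single, h w hw, zpow_mul, zpow_natCast]

theorem Nm_mem (h : ∀ w, w ∉ above E S → ∀ n : ℕ, φ (w.under (𝓞 F)) ^ n ∈ H ↔ fd F w ∣ n)
    {B : Pr E →₀ ℤ} (hB : B ∈ off (above E S)) : Nm F B ∈ DH S φ H := by
  refine off_ind (P := fun B => Nm F B ∈ DH S φ H) ?_ (fun a b ha hb => ?_)
    (fun w hw n => ?_) hB
  · rw [map_zero]; exact zero_mem _
  · rw [map_add]; exact add_mem ha hb
  · rw [Nm_single, mul_comm, ← smul_eq_mul, ← Finsupp.smul_single]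
    refine zsmul_mem (AddSubgroup.subset_closure ?_) n
    exact ⟨_, _, mt mem_above.2 hw, (h w hw _).2 dvd_rfl, rfl⟩

theorem exists_Nm (h : ∀ w, w ∉ above E S → ∀ n : ℕ, φ (w.under (𝓞 F)) ^ n ∈ H ↔ fd F w ∣ n)
    {D : Pr F →₀ ℤ} (hD : D ∈ DH S φ H) : ∃ B ∈ off (above E S), Nm F B = D := by
  refine (AddSubgroup.closure_le ((off (above E S)).map (Nm F))).2 ?_ hD
  rintro _ ⟨v, k, hv, hk, rfl⟩
  obtain ⟨w, rfl⟩ := under_surj (E' := E) v
  have hw : w ∉ above E S := mt mem_above.1 hv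
  obtain ⟨c, rfl⟩ := (h w hw k).1 hk
  exact ⟨Finsupp.single w c, single_mem hw _, by rw [Nm_single, Nat.cast_mul]⟩

end

variable {Ω : Type} [Field Ω] [NumberField Ω] [Algebra F Ω] [Algebra E Ω] [IsScalarTower F E Ω]

theorem frobE (hF : FB_st) (hT : TOW_st) {G : Type} [CommGroup G] [Finite G]
    [MulSemiringAction G Ω] [IsGaloisGroup G F Ω] (H : Subgroup G) [IsGaloisGroup H E Ω]
    {S : Finset (Pr F)} {φ : Pr F → G} (hU : Unr Ω G S) (hφ : IsFrob Ω S φ) :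
    ∃ ψ : Pr E → H, Unr Ω H (above E S) ∧ IsFrob Ω (above E S) ψ ∧ ∀ w, w ∉ above E S →
      (ψ w : G) = φ (w.under (𝓞 F)) ^ fd F w ∧
      (∀ n : ℕ, φ (w.under (𝓞 F)) ^ n ∈ H ↔ fd F w ∣ n) ∧
      nrm w = nrm (w.under (𝓞 F)) ^ fd F w := by
  obtain ⟨-, f2, -, -, f5, -⟩ := hF F Ω G
  obtain ⟨-, -, -, e4, -, -, -, e8⟩ := hF E Ω H
  obtain ⟨t1, -, t3, -⟩ := hT F E Ω G
  obtain ⟨t4, -, t5, t6⟩ := t3 H H.subtype fun _ _ => rfl
  obtain ⟨ψ, hψ⟩ := e4 (above E S)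
  refine ⟨ψ, t5 S hU, hψ, fun w hw => ?_⟩
  obtain ⟨P, rfl, hP⟩ := hψ w hw
  have hv : (P.under (𝓞 E)).under (𝓞 F) ∉ S := mt mem_above.2 hw
  obtain ⟨P', h1, h2⟩ := hφ _ hv
  obtain ⟨h, rfl⟩ := f2 P' P (h1.trans (t1 P))
  have h3 := f5 P' _ h h2
  rw [mul_inv_cancel_comm] at h3
  have h4 := hU _ (t1 _ ▸ hv)
  generalize φ (((gact h P').under (𝓞 E)).under (𝓞 F)) = g at h3 ⊢
  have h5 : ∀ n : ℕ, g ^ n ∈ H ↔ orderOf (g : G ⧸ H) ∣ n := fun n => by
    rw [orderOf_dvd_iff_pow_eq_one, ← QuotientGroup.mk_pow, QuotientGroup.eq_one_iff]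
  obtain ⟨h6, h7, h8⟩ := t6 _ g _ h4 h3 (by rwa [Subgroup.range_subtype])
  rw [fd, h7, t1]
  exact ⟨congrArg Subtype.val ((e8 _ _ (t4 _ h4) hP).1 _
    (h8 ⟨_, (h5 _).2 dvd_rfl⟩ rfl)).symm, h5, h6⟩

theorem surjE (hD : DENS_st) {G : Type} [CommGroup G] [Finite G]
    [MulSemiringAction G Ω] (H : Subgroup G) [IsGaloisGroup H E Ω]
    {S : Finset (Pr E)} {ψ : Pr E → H} (hU : Unr Ω H S) (hψ : IsFrob Ω S ψ) {h : G} (hh : h ∈ H) :
    ∃ B ∈ off S, chv (fun w => (ψ w : G)) B = h := by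
  let K : Subgroup H :=
    (((off S).map (chH fun w => (ψ w : G))).toSubgroup').comap H.subtype
  have hK : K = ⊤ := (hD E Ω H S ψ K inferInstance hU hψ).2 fun w hw =>
    ⟨Finsupp.single w 1, single_mem hw _, congrArg Additive.ofMul
      ((chv_single _ w 1).trans (zpow_one _))⟩
  obtain ⟨B, hB, e⟩ : (⟨h, hh⟩ : H) ∈ K := hK ▸ Subgroup.mem_top _
  exact ⟨B, hB, congrArg Additive.toMul e⟩

theorem realE {G : Type} [Group G] [MulSemiringAction G Ω] (H : Subgroup G)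
    [IsGaloisGroup H E Ω] {c : G} (hc : c ∈ H) (h : IsCC Ω c) : IsTotallyReal E := by
  refine ⟨fun w => InfinitePlace.isReal_iff.2 (ComplexEmbedding.isReal_iff.2 ?_)⟩
  ext x
  have h1 := h (ComplexEmbedding.lift Ω w.embedding) (algebraMap E Ω x)
  have h2 : c • algebraMap E Ω x = algebraMap E Ω x := smul_algebraMap (⟨c, hc⟩ : H) x
  rw [h2, ComplexEmbedding.lift_algebraMap_apply] at h1
  exact h1.symm

theorem kerE (hD : DENS_st) (hS : SI_st) (hB : NTB_st) [IsTotallyReal E] {Γ M : Type}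
    [CommGroup Γ] [Finite Γ] [CommGroup M] [Finite M] [MulSemiringAction (Γ × M) Ω]
    (H : Subgroup (Γ × M)) [IsGaloisGroup H E Ω] {S : Finset (Pr E)} {ψ : Pr E → H}
    (hU : Unr Ω H S) (hψ : IsFrob Ω S ψ) (h1 : ∀ g : Γ, ∃ h ∈ H, h.1 = g)
    (h2 : ∀ h ∈ H, h.2 = 1 → h.1 = 1) {N : ℕ} (hN : 0 < N)
    (hr : IsRay S N fun w => (ψ w : Γ × M).2) {B : Pr E →₀ ℤ} (hB1 : B ∈ off S)
    (hB2 : (chv (fun w => (ψ w : Γ × M)) B).1 = 1) :
    B ∈ HF S S N fun w => orderOf (ψ w : Γ × M).1 := by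
  have e1 : ∀ D, chv (fun w => (ψ w : Γ × M).1) D = (chv (fun w => (ψ w : Γ × M)) D).1 :=
    fun D => (chv_map (MonoidHom.fst Γ M) _ D).symm
  have e2 : ∀ D, chv (fun w => (ψ w : Γ × M).2) D = (chv (fun w => (ψ w : Γ × M)) D).2 :=
    fun D => (chv_map (MonoidHom.snd Γ M) _ D).symm
  let χ := chH fun w => (ψ w : Γ × M).1
  have hk : ∀ D, D ∈ χ.ker ↔ chv (fun w => (ψ w : Γ × M).1) D = 1 := fun D => Iff.rfl
  have hle : (HF S S N fun w => orderOf (ψ w : Γ × M).1) ≤ χ.ker ⊓ off S := by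
    refine (AddSubgroup.closure_le _).2 ?_
    rintro _ (⟨x, hx, rfl⟩ | ⟨w, hw, rfl⟩)
    · refine ⟨(hk _).2 ?_, ((hB E).2.2.2.1 S N hN).2.2 x hx⟩
      rw [e1]
      refine h2 _ ?_ ((e2 _).symm.trans (hr x hx))
      have e3 : chv (fun w => (ψ w : Γ × M)) (dv x) = H.subtype (chv ψ (dv x)) :=
        (chv_map H.subtype ψ _).symm
      rw [e3]
      exact (chv ψ (dv x)).2
    · exact ⟨(hk _).2 (by rw [chv_single, zpow_natCast, pow_orderOf_eq_one]), single_mem hw _⟩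
  have i1 : (χ.ker ⊓ off S).relIndex (off S) = Nat.card Γ := by
    have : (off S).map χ = ⊤ := top_unique fun g _ => by
      obtain ⟨h, hh, e⟩ := h1 g.toMul
      obtain ⟨D, hD1, hD2⟩ := surjE hD H hU hψ hh
      exact ⟨D, hD1, congrArg Additive.ofMul ((e1 D).trans (hD2 ▸ e))⟩
    rw [AddSubgroup.inf_relIndex_right, AddSubgroup.relIndex_ker, this, AddSubgroup.card_top]
    rfl
  have i2 : ((MonoidHom.fst Γ M).comp H.subtype).ker.index = Nat.card Γ := by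
    have : ((MonoidHom.fst Γ M).comp H.subtype).range = ⊤ := top_unique fun g _ =>
      let ⟨h, hh, e⟩ := h1 g
      ⟨⟨h, hh⟩, e⟩
    rw [Subgroup.index_ker, this, Subgroup.card_top]
  obtain ⟨i3, i4⟩ := hS E Ω H S ψ ((MonoidHom.fst Γ M).comp H.subtype).ker N
    (HF S S N fun w => orderOf (ψ w : Γ × M).1) inferInstance hU hψ hN
    (fun x hx => AddSubgroup.subset_closure (.inl ⟨x, hx, rfl⟩)) fun w hw h =>
      AddSubgroup.subset_closure (.inr ⟨w, hw, by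
        simp only [show (ψ w : Γ × M).1 = 1 from h, orderOf_one, Nat.cast_one]⟩)
  rw [← AddSubgroup.relIndex_mul_relIndex _ _ _ hle inf_le_right, i1] at i3 i4
  rw [i2] at i4
  have i5 : (HF S S N fun w => orderOf (ψ w : Γ × M).1).relIndex (χ.ker ⊓ off S) = 1 :=
    le_antisymm (Nat.le_of_mul_le_mul_right (by rwa [one_mul]) Nat.card_pos)
      (Nat.pos_of_ne_zero (left_ne_zero_of_mul i3))
  exact AddSubgroup.relIndex_eq_one.1 i5 ⟨(hk _).2 ((e1 B).trans hB2), hB1⟩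

end XlX

open XlX

theorem xl (hF : FB_st) (hT : TOW_st) (hD : DENS_st) (hS : SI_st) (hC : CYC_st) (hB : NTB_st) :
    XL_st := by
  intro F Ω Γ _ _ _ _ _ _ _ m _ _ _ S S' φ H hSS hU hφ
  let E : IntermediateField F Ω := FixedPoints.intermediateField H
  obtain ⟨ψ, hU', hψ, h⟩ := frobE (E := E) hF hT H hU hφ
  refine ⟨fun g hg => ?_, fun hm hν ⟨c, hc, hc'⟩ h1 h2 N hN D hD1 hD2 => ?_⟩
  · obtain ⟨B, hB1, hB2⟩ := surjE hD H hU' hψ hg
    exact ⟨Nm F B, Nm_mem (fun w hw => (h w hw).2.1) hB1,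
      (chv_Nm (fun w hw => (h w hw).1) hB1).trans hB2⟩
  have : IsTotallyReal E := realE H hc hc'
  have : IsGalois F E := IsGaloisGroup.isGalois (_ ⧸ H) F E
  obtain ⟨N₁, p₁, c₁⟩ := hC.1 E m (above E S') (fun w => (ψ w : Γ × (ZMod m)ˣ).2) (NeZero.pos m)
    (fun w hw => mem_above.2 (hm _ (Ideal.mem_comap.2 (by rwa [map_natCast])))) fun w hw => by
      rw [(h w hw).1, (h w hw).2.2, Prod.pow_snd, Units.val_pow_eq_pow_val,
        hν _ (mt mem_above.2 hw), Nat.cast_pow]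
  obtain ⟨N₂, -, c₂⟩ := hC.2 F E S' N
  obtain ⟨B, hB1, rfl⟩ := exists_Nm (E := E) (fun w hw => (h w hw).2.1) hD1
  rw [chv_Nm (fun w hw => (h w hw).1) hB1] at hD2
  refine (AddSubgroup.closure_le ((HF S S' N fun v => orderOf (φ v).1).comap (Nm F))).2 ?_
    (kerE hD hS hB H hU' hψ h1 h2 (lt_max_of_lt_left p₁) (c₁ _ (le_max_left N₁ N₂)) hB1 hD2)
  rintro _ (⟨y, hy, rfl⟩ | ⟨w, hw, rfl⟩)
  · rw [SetLike.mem_coe, AddSubgroup.mem_comap, Nm_dv hy.1]
    exact AddSubgroup.subset_closure (.inl ⟨_, ray_mono hSS (c₂ _ (le_max_right _ _) y hy), rfl⟩)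
  · obtain ⟨k, hk⟩ : orderOf (φ (w.under (𝓞 F))).1 ∣ fd F w * orderOf (ψ w : Γ × (ZMod m)ˣ).1 := by
      rw [orderOf_dvd_iff_pow_eq_one, pow_mul, (h w hw).1, Prod.pow_fst, pow_orderOf_eq_one]
    rw [SetLike.mem_coe, AddSubgroup.mem_comap, Nm_single, ← Nat.cast_mul, hk, Nat.cast_mul,
      mul_comm, ← smul_eq_mul, ← Finsupp.smul_single]
    refine zsmul_mem (AddSubgroup.subset_closure ?_) _
    exact .inr ⟨_, mt mem_above.2 hw, rfl⟩

end Pool.Agent.MP_f3cd89_nt
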