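import Pool.Agent.MP_f3cd89_nt.Jb
import Pool.Agent.MP_f3cd89_nt.Geo
import Pool.Agent.MP_f3cd89_nt.Ana
import Pool.Agent.MP_f3cd89_nt.Sh
import Pool.Agent.MP_f3cd89_nt.Cell
import Pool.Agent.MP_f3cd89_nt.Bary
import Pool.Agent.MP_f3cd89_nt.Inst
import Pool.Agent.MP_f3cd89_nt.Fix
import Pool.Agent.MP_f3cd89_nt.Char
import Pool.Agent.MP_f3cd89_nt.Eul
import Pool.Agent.MP_f3cd89_nt.Sc
import Pool.Agent.MP_f3cd89_nt.Nta
import Pool.Agent.MP_f3cd89_nt.Ntb
import Pool.Agent.MP_f3cd89_nt.Ntc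
import Pool.Agent.MP_f3cd89_nt.Base
import Pool.Agent.MP_f3cd89_nt.Det
import Pool.Agent.MP_f3cd89_nt.Bring
import Pool.Agent.MP_f3cd89_nt.Wv
import Pool.Agent.MP_f3cd89_nt.Gauss
import Pool.Agent.MP_f3cd89_nt.Tri
import Pool.Agent.MP_f3cd89_nt.Res
import Pool.Agent.MP_f3cd89_nt.Test
import Pool.Agent.MP_f3cd89_nt.Sep
import Pool.Agent.MP_f3cd89_nt.Sw
import Pool.Agent.MP_f3cd89_nt.Cone
import Pool.Agent.MP_f3cd89_nt.Bjp
import Pool.Agent.MP_f3cd89_nt.Ker
import Pool.Agent.MP_f3cd89_nt.Rep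
import Pool.Agent.MP_f3cd89_nt.Repe
import Pool.Agent.MP_f3cd89_nt.Cliff
import Pool.Agent.MP_f3cd89_nt.Xl
import Pool.Agent.MP_f3cd89_nt.Unith
import Pool.Agent.MP_f3cd89_nt.Vlat
import Pool.Agent.MP_f3cd89_nt.Fi
import Pool.Agent.MP_f3cd89_nt.Herb
import Pool.Agent.MP_f3cd89_nt.Dens
import Pool.Agent.MP_f3cd89_nt.Si
import Pool.Agent.MP_f3cd89_nt.Cyclo
import Pool.Agent.MP_f3cd89_nt.Core
import Pool.Agent.MP_f3cd89_nt.Ar
import Pool.Agent.MP_f3cd89_nt.Fb
import Pool.Agent.MP_f3cd89_nt.Cyc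
import Pool.Agent.MP_f3cd89_nt.Prime
import Pool.Agent.MP_f3cd89_nt.Dict
import Pool.Agent.MP_f3cd89_nt.Leva
import Pool.Agent.MP_f3cd89_nt.Levb
import Pool.Agent.MP_f3cd89_nt.Levc
import Pool.Agent.MP_f3cd89_nt.Arith
import Pool.Agent.MP_f3cd89_nt.Final

set_option autoImplicit false

namespace Pool.Agent.MP_f3cd89_nt

theorem wv' : WV_st := wv orb base
theorem jb' : JB_st := jb orb base wv'
theorem ring' : RING_st := ring det
theorem bring' : BRING_st := bring base
theorem c1' : C1_st := c1 (c1a sw (sep base jb' res test dec) base ring') base bring' jb'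
theorem bj' : BJ_st :=
  bj (bjp c1' (tri det orb base ring') (gauss base wv') wv' jb' ring' bring' base ker) base
theorem nta' : NTA_st := nta ntb ntc
theorem scg' : SCG_st := scg (sh (cell geo bary) ana) nta' ntb ntc (char ntc)
theorem eul' : EUL_st := eul ntc (char ntc)
theorem sca' : SCA_st := sca scg' eul' ntb
theorem scb' : SCB_st := scb scg' eul' ntb (fix ntc)
theorem tow' : TOW_st := tow fb
theorem dens' : DENS_st := dens fb tow' ntc
theorem cyc' : CYC_st := cyc nta' ntb ntc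
theorem core' : CORE_st :=
  core (fi herb (unith qlem) vlat fb tow' ntb) (xl fb tow' dens' (si sca' ntb ntc dens') cyc' ntb)
    lang (cyclo fb) ntb
/-- the Artin reciprocity law for CM and totally real extensions of a totally real field -/
theorem ar' : AR_st := ar core' (cyclo fb) cyc' tow' ntb
theorem dict' : DICT_st := dict fb tow'
theorem leva' : LEVA_st := leva dict' rep1 (repe det rep1)
theorem arith' : ARITH_st :=
  arith (levb ar' sca' leva' (fld tow' rep1) fb tow' rep1 ntc)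
    (levc ar' sca' scb' leva' (fld tow' rep1) dict' fb tow' rep1 (repe det rep1) ntc)
    (lval rep1) (dwork base) (invd bring' ring' jb') bj' jb' ring' bring' (prime_ex fb dens') fb ntc
    rep1
theorem final' : FINAL_st := final pres (cliff rep1) rep1 arith' (lval rep1) fb

end Pool.Agent.MP_f3cd89_nt
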