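import Pool.Agent.MP_f3cd89_nt.Defs

set_option autoImplicit false
set_option linter.unusedSectionVars false

open NumberField IsDedekindDomain nonZeroDivisors Pointwise

namespace Pool.Agent.MP_f3cd89_nt

/-- the finite primes of a number field -/
abbrev Pr (E : Type) [Field E] : Type := HeightOneSpectrum (𝓞 E)

variable {E : Type} [Field E] [NumberField E]

/-- the additive valuation -/
noncomputable def ord (v : Pr E) (x : E) : ℤ := -WithZero.log (v.valuation E x)

/-- the absolute norm of a prime -/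
noncomputable abbrev nrm (v : Pr E) : ℕ := Ideal.absNorm v.asIdeal

theorem val_eq_exp (v : Pr E) {x : E} (hx : x ≠ 0) :
    v.valuation E x = WithZero.exp (-ord v x) := by
  rw [ord, neg_neg, WithZero.exp_log ((Valuation.ne_zero_iff _).2 hx)]

theorem ord_mul (v : Pr E) {x y : E} (hx : x ≠ 0) (hy : y ≠ 0) :
    ord v (x * y) = ord v x + ord v y := by
  rw [ord, ord, ord, map_mul, WithZero.log_mul ((Valuation.ne_zero_iff _).2 hx)
    ((Valuation.ne_zero_iff _).2 hy), neg_add]

theorem ord_inv (v : Pr E) (x : E) : ord v x⁻¹ = -ord v x := by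
  rw [ord, ord, map_inv₀, WithZero.log_inv]

theorem ord_zpow (v : Pr E) (x : E) (n : ℤ) : ord v (x ^ n) = n * ord v x := by
  rw [ord, ord, map_zpow₀, WithZero.log_zpow, smul_eq_mul, mul_neg]

theorem ord_pow (v : Pr E) (x : E) (n : ℕ) : ord v (x ^ n) = n * ord v x := by
  rw [← zpow_natCast, ord_zpow]

theorem ord_one (v : Pr E) : ord v (1 : E) = 0 := by
  rw [ord, map_one, WithZero.log_one, neg_zero]

theorem ord_neg (v : Pr E) (x : E) : ord v (-x) = ord v x := by
  rw [ord, ord, Valuation.map_neg]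

theorem ord_finite (x : E) : {v : Pr E | ord v x ≠ 0}.Finite := by
  have key : ∀ a : 𝓞 E, a ≠ 0 → {v : Pr E | ord v (a : E) ≠ 0}.Finite := fun a ha =>
    (Ideal.finite_factors (I := Ideal.span {a}) (by simpa using ha)).subset fun v hv => by
      by_contra h
      refine hv ?_
      rw [ord, v.valuation_eq_one_iff_notMem.2 fun e => h (Ideal.dvd_span_singleton.2 e),
        WithZero.log_one, neg_zero]
  obtain ⟨a, b, hb, rfl⟩ := IsFractionRing.div_surjective (A := 𝓞 E) x
  have hb' := nonZeroDivisors.ne_zero hb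
  rcases eq_or_ne a 0 with rfl | ha
  · simp [ord]
  refine ((key a ha).union (key b hb')).subset fun v hv => ?_
  by_contra h
  simp only [Set.mem_union, Set.mem_ofPred_eq, not_or, not_not] at h
  refine hv ?_
  rw [div_eq_mul_inv, ord_mul v (by simpa using ha) (by simpa using hb'), ord_inv, h.1, h.2]
  rfl

theorem ord_nonneg (v : Pr E) (a : 𝓞 E) : 0 ≤ ord v (a : E) := by
  rcases eq_or_ne (a : E) 0 with h | h
  · simp [ord, h]
  · have : v.valuation E (a : E) ≤ 1 := v.valuation_le_one a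
    rw [val_eq_exp v h, ← WithZero.exp_zero, WithZero.exp_le_exp] at this
    omega

theorem ord_eq_zero_iff (v : Pr E) {a : 𝓞 E} (ha : a ≠ 0) : ord v (a : E) = 0 ↔ a ∉ v.asIdeal := by
  rw [← v.valuation_eq_one_iff_notMem (K := E), val_eq_exp v (by simpa using ha),
    WithZero.exp_eq_one, neg_eq_zero]

theorem exists_ord_eq_one (v : Pr E) : ∃ a : 𝓞 E, a ≠ 0 ∧ ord v (a : E) = 1 := by
  obtain ⟨a, ha⟩ := v.valuation_exists_uniformizer' E
  refine ⟨a, ?_, ?_⟩
  · rintro rfl
    exact WithZero.exp_ne_zero (ha.symm.trans (by simp))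
  · rw [ord, show v.valuation E (a : E) = _ from ha, WithZero.log_exp, neg_neg]


/-- an element with no poles is integral -/
theorem exists_int {x : E} (h : ∀ v : Pr E, 0 ≤ ord v x) : ∃ a : 𝓞 E, (a : E) = x := by
  refine HeightOneSpectrum.mem_integers_of_valuation_le_one (R := 𝓞 E) E x fun v => ?_
  rcases eq_or_ne x 0 with rfl | hx
  · simp
  · rw [val_eq_exp v hx, ← WithZero.exp_zero, WithZero.exp_le_exp]
    linarith [h v]

/-- an element with no zeros and poles is a unit -/
theorem exists_unit {x : E} (hx : x ≠ 0) (h : ∀ v : Pr E, ord v x = 0) :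
    ∃ u : (𝓞 E)ˣ, ((u : 𝓞 E) : E) = x := by
  obtain ⟨a, ha⟩ := exists_int fun v => (h v).ge
  obtain ⟨b, hb⟩ := exists_int (x := x⁻¹) fun v => by rw [ord_inv, h v, neg_zero]
  have e : a * b = 1 := by
    apply RingOfIntegers.coe_injective
    rw [map_mul, map_one]
    change (a : E) * (b : E) = 1
    rw [ha, hb, mul_inv_cancel₀ hx]
  exact ⟨Units.mkOfMulEqOne a b e, ha⟩

/-- weak approximation, with integrality away from the given primes -/
theorem wa (T : Finset (Pr E)) (a : Pr E → E) (n : ℤ) :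
    ∃ x : E, x ≠ 0 ∧ (∀ v ∈ T, v.valuation E (x - a v) ≤ WithZero.exp n) ∧
      ∀ v, v ∉ T → v.valuation E x ≤ 1 := by
  classical
  obtain ⟨⟨d, hd⟩, hda⟩ :=
    IsLocalization.exist_integer_multiples (nonZeroDivisors (𝓞 E)) T a
  have d0 : (d : E) ≠ 0 := by simpa using nonZeroDivisors.ne_zero hd
  choose! t ht using hda
  set S := T ∪ (ord_finite (d : E)).toFinset
  let e : Pr E → ℕ := fun v => (ord v (d : E)).toNat + n.natAbs
  obtain ⟨y, y0, hy⟩ : ∃ y : 𝓞 E, y ≠ 0 ∧
      ∀ v ∈ S, y - (if v ∈ T then t v else 0) ∈ v.asIdeal ^ e v := by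
    obtain ⟨y, hy⟩ := exists_forall_sub_mem_ideal (s := S) (fun v => v.asIdeal) e
      (fun v _ => v.prime) (fun v _ w _ h e => h (HeightOneSpectrum.ext e))
      fun v => if v.1 ∈ T then t v else 0
    rcases eq_or_ne y 0 with rfl | y0
    · obtain ⟨z, hz, z0⟩ := Submodule.exists_mem_ne_zero_of_ne_bot
        (p := ∏ v ∈ S, v.asIdeal ^ e v)
        (Finset.prod_ne_zero_iff.2 fun v _ => pow_ne_zero _ v.ne_bot)
      refine ⟨z, z0, fun v hv => ?_⟩
      have := add_mem (Ideal.le_of_dvd (Finset.dvd_prod_of_mem _ hv) hz) (hy v hv)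
      rwa [← add_sub_assoc, add_zero] at this
    · exact ⟨y, y0, hy⟩
  have key : ∀ (v : Pr E) (z : 𝓞 E), z ∈ v.asIdeal ^ e v →
      v.valuation E ((z : E) / d) ≤ WithZero.exp (-(n.natAbs : ℤ)) := by
    intro v z hz
    have h1 : v.valuation E (z : E) ≤ WithZero.exp (-(e v : ℤ)) :=
      (v.valuation_of_algebraMap z).le.trans ((v.intValuation_le_pow_iff_mem z _).2 hz)
    rw [map_div₀, val_eq_exp v d0, div_le_iff₀ WithZero.exp_pos, ← WithZero.exp_add]
    refine h1.trans (WithZero.exp_le_exp.2 ?_)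
    simp only [e]
    omega
  refine ⟨(y : E) / d, div_ne_zero (by simpa using y0) d0, fun v hv => ?_, fun v hv => ?_⟩
  · have h1 := key v _ (hy v (Finset.mem_union_left _ hv))
    have h2 : ((t v : 𝓞 E) : E) = d * a v := (ht v hv).trans (Algebra.smul_def _ _)
    rw [if_pos hv, show ((y - t v : 𝓞 E) : E) = (y : E) - (t v : E) from map_sub _ _ _, h2,
      sub_div, mul_div_cancel_left₀ _ d0] at h1
    exact h1.trans (WithZero.exp_le_exp.2 (by omega))
  · by_cases h : ord v (d : E) = 0
    · rw [map_div₀, val_eq_exp v d0, h, neg_zero, WithZero.exp_zero, div_one]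
      exact v.valuation_le_one y
    · have h1 := key v _ (hy v (Finset.mem_union_right _ ((Set.Finite.mem_toFinset _).2 h)))
      rw [if_neg hv, sub_zero] at h1
      exact h1.trans (WithZero.exp_zero (M := ℤ) ▸ WithZero.exp_le_exp.2 (by omega))


section Val

variable {F : Type} [Field F] {Γ : Type} [LinearOrderedCommGroupWithZero Γ] (v : Valuation F Γ)

theorem val_one_of {x : F} (h : v (x - 1) < 1) : v x = 1 := by
  simpa using v.map_one_add_of_lt h

theorem val_mul_lt {x y : F} (hx : v (x - 1) < 1) (hy : v (y - 1) < 1) : v (x * y - 1) < 1 := by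
  rw [show x * y - 1 = x * (y - 1) + (x - 1) by ring]
  refine v.map_add_lt ?_ hx
  rwa [map_mul, val_one_of v hx, one_mul]

theorem val_div_lt {x y : F} (hy : v y = 1) (h : v (x - y) < 1) : v (x / y - 1) < 1 := by
  have y0 : y ≠ 0 := by rintro rfl; simp at hy
  rwa [div_sub_one y0, map_div₀, hy, div_one]

theorem val_inv_lt {x : F} (hx : v (x - 1) < 1) : v (x⁻¹ - 1) < 1 := by
  rw [← one_div]
  exact val_div_lt v (val_one_of v hx) (by rwa [v.map_sub_swap])

theorem val_sum_lt (n : ℕ) (x : ℕ → F) (hx : ∀ i, v (x i - 1) < 1) :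
    v (∑ i ∈ Finset.range n, x i - n) < 1 := by
  have : ∑ i ∈ Finset.range n, x i - n = ∑ i ∈ Finset.range n, (x i - 1) := by
    simp [Finset.sum_sub_distrib]
  rw [this]
  exact v.map_sum_lt one_ne_zero fun i _ => hx i

end Val

theorem val_eq_one_iff (v : Pr E) {x : E} (hx : x ≠ 0) : v.valuation E x = 1 ↔ ord v x = 0 := by
  rw [val_eq_exp v hx, WithZero.exp_eq_one, neg_eq_zero]

theorem val_lt_one_iff (v : Pr E) {x : E} (hx : x ≠ 0) : v.valuation E x < 1 ↔ 0 < ord v x := by
  rw [val_eq_exp v hx, ← WithZero.exp_zero, WithZero.exp_lt_exp, neg_lt_zero]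

theorem ord_div (v : Pr E) {x y : E} (hx : x ≠ 0) (hy : y ≠ 0) :
    ord v (x / y) = ord v x - ord v y := by
  rw [div_eq_mul_inv, ord_mul v hx (inv_ne_zero hy), ord_inv, sub_eq_add_neg]

theorem count_span (v : Pr E) {x : E} (hx : x ≠ 0) :
    FractionalIdeal.count E v (FractionalIdeal.spanSingleton (𝓞 E)⁰ x) = ord v x := by
  have key : ∀ a : 𝓞 E, a ≠ 0 →
      FractionalIdeal.count E v (FractionalIdeal.spanSingleton (𝓞 E)⁰ (a : E)) = ord v (a : E) := by
    intro a ha
    rw [ord, show v.valuation E (a : E) = _ from v.valuation_of_algebraMap a,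
      v.intValuation_if_neg ha, WithZero.log_exp, neg_neg,
      ← FractionalIdeal.count_coe E v (by simpa using ha), FractionalIdeal.coeIdeal_span_singleton]
  obtain ⟨a, b, hb, rfl⟩ := IsFractionRing.div_surjective (A := 𝓞 E) x
  have hb' := nonZeroDivisors.ne_zero hb
  have ha : a ≠ 0 := by rintro rfl; simp at hx
  have a0 : (a : E) ≠ 0 := by simpa using ha
  have b0 : (b : E) ≠ 0 := by simpa using hb'
  change FractionalIdeal.count E v (FractionalIdeal.spanSingleton (𝓞 E)⁰ ((a : E) / b)) =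
    ord v ((a : E) / b)
  rw [ord_div v a0 b0, div_eq_mul_inv, ← FractionalIdeal.spanSingleton_mul_spanSingleton,
    FractionalIdeal.count_mul E v (FractionalIdeal.spanSingleton_ne_zero_iff.2 a0)
      (FractionalIdeal.spanSingleton_ne_zero_iff.2 (inv_ne_zero b0)),
    ← FractionalIdeal.spanSingleton_inv, FractionalIdeal.count_inv, key a ha, key b hb',
    sub_eq_add_neg]

/-- finiteness of the class group, for divisors -/
theorem cls_fin : ∃ cl : (Pr E →₀ ℤ) → ClassGroup (𝓞 E), ∀ d d', cl d = cl d' →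
    ∃ y : E, y ≠ 0 ∧ ∀ w, d w - d' w = ord w y := by
  let P : (Pr E →₀ ℤ) → FractionalIdeal (𝓞 E)⁰ E := fun d =>
    d.prod (HeightOneSpectrum.asIdeal · ^ ·)
  have hP : ∀ d, P d ≠ 0 := fun d => Finset.prod_ne_zero_iff.2 fun v _ =>
    zpow_ne_zero _ (FractionalIdeal.coeIdeal_ne_zero.mpr v.ne_bot)
  refine ⟨fun d => ClassGroup.mk E (Units.mk0 (P d) (hP d)), fun d d' h => ?_⟩
  have h1 : ClassGroup.mk E (Units.mk0 (P d) (hP d) * (Units.mk0 (P d') (hP d'))⁻¹) = 1 := by
    rw [map_mul, map_inv, show ClassGroup.mk E (Units.mk0 (P d) (hP d)) = _ from h, mul_inv_cancel]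
  obtain ⟨y, hy⟩ := (FractionalIdeal.isPrincipal_iff _).1 (ClassGroup.mk_eq_one_iff.1 h1)
  have hy' : P d * (P d')⁻¹ = FractionalIdeal.spanSingleton (𝓞 E)⁰ y := by
    rw [← hy]; simp
  have y0 : y ≠ 0 := FractionalIdeal.spanSingleton_ne_zero_iff.1
    (hy' ▸ mul_ne_zero (hP d) (inv_ne_zero (hP d')))
  refine ⟨y, y0, fun w => ?_⟩
  rw [← count_span w y0, ← hy', FractionalIdeal.count_mul E w (hP d) (inv_ne_zero (hP d')),
    FractionalIdeal.count_inv, FractionalIdeal.count_finsuppProd,
    FractionalIdeal.count_finsuppProd, sub_eq_add_neg]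


/-- transport of primes along an isomorphism of fields -/
noncomputable def act {E' : Type} [Field E'] (σ : E ≃+* E') (v : Pr E) : Pr E' :=
  HeightOneSpectrum.equivOfRingEquiv (RingOfIntegers.mapRingEquiv σ) v

theorem mem_act {E' : Type} [Field E'] (σ : E ≃+* E') (v : Pr E) (a : 𝓞 E') :
    a ∈ (act σ v).asIdeal ↔ (RingOfIntegers.mapRingEquiv σ).symm a ∈ v.asIdeal := Iff.rfl

theorem act_asIdeal {E' : Type} [Field E'] (σ : E ≃+* E') (v : Pr E) :
    (act σ v).asIdeal = v.asIdeal.map (RingOfIntegers.mapRingEquiv σ) :=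
  Ideal.comap_symm _

theorem intval_act {E' : Type} [Field E'] [NumberField E'] (σ : E ≃+* E') (v : Pr E) (a : 𝓞 E) :
    (act σ v).intValuation (RingOfIntegers.mapRingEquiv σ a) = v.intValuation a := by
  rcases eq_or_ne a 0 with rfl | ha
  · simp
  have key : ∀ n : ℕ, (act σ v).intValuation (RingOfIntegers.mapRingEquiv σ a) ≤
      WithZero.exp (-(n : ℤ)) ↔ v.intValuation a ≤ WithZero.exp (-(n : ℤ)) := fun n => by
    rw [HeightOneSpectrum.intValuation_le_pow_iff_mem,
      HeightOneSpectrum.intValuation_le_pow_iff_mem, act_asIdeal, ← Ideal.map_pow]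
    exact Ideal.apply_mem_of_equiv_iff
  have ha' : RingOfIntegers.mapRingEquiv σ a ≠ 0 := by simpa using ha
  apply le_antisymm
  · rw [v.intValuation_eq_exp_neg_multiplicity ha, key, v.intValuation_eq_exp_neg_multiplicity ha]
  · rw [(act σ v).intValuation_eq_exp_neg_multiplicity ha', ← key,
      (act σ v).intValuation_eq_exp_neg_multiplicity ha']

theorem ord_int (v : Pr E) {a : 𝓞 E} (ha : a ≠ 0) :
    ord v (a : E) = multiplicity v.asIdeal (Ideal.span {a}) := by
  rw [ord, show v.valuation E (a : E) = _ from v.valuation_of_algebraMap a,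
    v.intValuation_eq_exp_neg_multiplicity ha, WithZero.log_exp, neg_neg]


section Act

variable {E' : Type} [Field E'] [NumberField E'] (σ : E ≃+* E')

theorem val_act (v : Pr E) (x : E) : (act σ v).valuation E' (σ x) = v.valuation E x := by
  obtain ⟨a, b, -, rfl⟩ := IsFractionRing.div_surjective (A := 𝓞 E) x
  have e : ∀ c : 𝓞 E, (act σ v).valuation E' (σ (algebraMap (𝓞 E) E c)) =
      v.valuation E (algebraMap (𝓞 E) E c) := fun c =>
    ((act σ v).valuation_of_algebraMap (K := E') (RingOfIntegers.mapRingEquiv σ c)).trans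
      ((intval_act σ v c).trans (v.valuation_of_algebraMap (K := E) c).symm)
  rw [map_div₀, map_div₀, map_div₀, e, e]

theorem ord_act (v : Pr E) (x : E) : ord (act σ v) (σ x) = ord v x := by
  rw [ord, ord, val_act]

theorem absNorm_act (v : Pr E) :
    Ideal.absNorm (act σ v).asIdeal = Ideal.absNorm v.asIdeal := by
  rw [Ideal.absNorm_apply, Ideal.absNorm_apply, Submodule.cardQuot_apply, Submodule.cardQuot_apply]
  exact Nat.card_congr (Ideal.quotientEquiv _ _ (RingOfIntegers.mapRingEquiv σ)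
    (act_asIdeal σ v)).symm.toEquiv

end Act

section Ext

variable {E' : Type} [Field E'] [NumberField E'] [Algebra E E']

theorem exists_over (v : Pr E) : ∃ w : Pr E', w.asIdeal.LiesOver v.asIdeal := by
  have := v.isMaximal
  obtain ⟨Q, h₁, h₂⟩ := Ideal.exists_maximal_ideal_liesOver_of_isIntegral (S := 𝓞 E') v.asIdeal
  exact ⟨⟨Q, h₁.isPrime, Ideal.ne_bot_of_liesOver_of_ne_bot v.ne_bot Q⟩, h₂⟩

theorem exists_under (w : Pr E') : ∃ v : Pr E, w.asIdeal.LiesOver v.asIdeal :=
  ⟨w.under (𝓞 E), ⟨rfl⟩⟩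

theorem val_over {v : Pr E} {w : Pr E'} (h : w.asIdeal.LiesOver v.asIdeal) (x : E) :
    w.valuation E' (algebraMap E E' x) = v.valuation E x ^ w.asIdeal.ramificationIdx (𝓞 E) := by
  have := w.isPrime
  rw [← HeightOneSpectrum.valuation_liesOver E' v w x,
    Ideal.ramificationIdx'_eq_ramificationIdx _ _ v.ne_bot]

theorem ord_over {v : Pr E} {w : Pr E'} (h : w.asIdeal.LiesOver v.asIdeal) (x : E) :
    ord w (algebraMap E E' x) = (w.asIdeal.ramificationIdx (𝓞 E) : ℤ) * ord v x := by
  rw [ord, ord, val_over h, WithZero.log_pow, nsmul_eq_mul, mul_neg]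

theorem absNorm_over {v : Pr E} {w : Pr E'} (h : w.asIdeal.LiesOver v.asIdeal) :
    Ideal.absNorm w.asIdeal = Ideal.absNorm v.asIdeal ^ w.asIdeal.inertiaDeg (𝓞 E) := by
  have := w.isPrime
  exact (Ideal.absNorm_pow_inertiaDeg _ _).symm

theorem finite_over (v : Pr E) : {w : Pr E' | w.asIdeal.LiesOver v.asIdeal}.Finite := by
  refine (Ideal.finite_factors (I := v.asIdeal.map (algebraMap (𝓞 E) (𝓞 E')))
    (Ideal.map_ne_bot_of_ne_bot v.ne_bot)).subset fun w hw => ?_
  exact Ideal.dvd_iff_le.2 (Ideal.map_le_iff_le_comap.2 (le_of_eq hw.over))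

theorem mult_relNorm (v : Pr E) (S : Finset (Pr E'))
    (hS : ∀ w, w ∈ S ↔ w.asIdeal.LiesOver v.asIdeal) (I : Ideal (𝓞 E')) (hI : I ≠ 0) :
    multiplicity v.asIdeal (Ideal.relNorm (𝓞 E) I) =
      ∑ w ∈ S, w.asIdeal.inertiaDeg (𝓞 E) * multiplicity w.asIdeal I := by
  induction I using UniqueFactorizationMonoid.induction_on_prime with
  | h₁ => exact absurd rfl hI
  | h₂ I hu =>
    rw [multiplicity_of_isUnit_right v.prime.not_isUnit (hu.map _), eq_comm]
    exact Finset.sum_eq_zero fun w _ => by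
      rw [multiplicity_of_isUnit_right w.prime.not_isUnit hu, mul_zero]
  | h₃ I P hI' hP ih =>
    classical
    let w₀ : Pr E' := ⟨P, Ideal.isPrime_of_prime hP, hP.ne_zero⟩
    obtain ⟨v₀, hv₀⟩ := exists_under (E := E) w₀
    have := w₀.isMaximal
    have := v₀.isMaximal
    have e : Ideal.relNorm (𝓞 E) P = v₀.asIdeal ^ w₀.asIdeal.inertiaDeg (𝓞 E) :=
      Ideal.relNorm_eq_pow_of_isMaximal w₀.asIdeal v₀.asIdeal
    have e' : ∀ w : Pr E', multiplicity w.asIdeal (P * I) =
        (if w = w₀ then 1 else 0) + multiplicity w.asIdeal I := fun w => by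
      rw [multiplicity_mul w.prime (FiniteMultiplicity.of_prime_left w.prime hI)]
      congr 1
      split_ifs with hw
      · rw [hw]
        exact multiplicity_self
      · exact multiplicity_eq_zero.2 fun hd => hw (HeightOneSpectrum.ext
          (associated_iff_eq.1 (w.prime.associated_of_dvd hP hd)))
    rw [map_mul, multiplicity_mul v.prime (FiniteMultiplicity.of_prime_left v.prime
      (by rw [← map_mul]; exact Ideal.relNorm_eq_bot_iff.not.2 hI)), ih hI', e]
    simp only [e', mul_add, Finset.sum_add_distrib, mul_ite, mul_one, mul_zero,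
      Finset.sum_ite_eq']
    congr 1
    split_ifs with hw
    · obtain rfl : v = v₀ := HeightOneSpectrum.ext (((hS _).1 hw).over.trans hv₀.over.symm)
      exact multiplicity_pow_self_of_prime v.prime _
    · refine multiplicity_eq_zero.2 fun hd => hw ((hS _).2 ?_)
      rwa [associated_iff_eq.1 (v.prime.associated_of_dvd v₀.prime (v.prime.dvd_of_dvd_pow hd))]

open Classical in
/-- valuation of a norm -/
theorem ord_norm [IsGalois E E'] (v : Pr E) {x : E'} (hx : x ≠ 0) :
    ord v (Algebra.norm E x) = ∑ᶠ w : Pr E', if w.asIdeal.LiesOver v.asIdeal then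
      (w.asIdeal.inertiaDeg (𝓞 E) : ℤ) * ord w x else 0 := by
  let S := (finite_over (E' := E') v).toFinset
  have hS : ∀ w, w ∈ S ↔ w.asIdeal.LiesOver v.asIdeal := fun w => Set.Finite.mem_toFinset _
  rw [finsum_eq_sum_of_support_subset (s := S) _ fun w hw => by
    by_contra h
    exact hw (if_neg fun h' => h ((hS w).2 h')),
    Finset.sum_congr rfl fun w hw => if_pos ((hS w).1 hw)]
  have key : ∀ a : 𝓞 E', a ≠ 0 → ord v (Algebra.norm E (a : E')) =
      ∑ w ∈ S, (w.asIdeal.inertiaDeg (𝓞 E) : ℤ) * ord w (a : E') := fun a ha => by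
    have e : ((Algebra.intNorm (𝓞 E) (𝓞 E') a : 𝓞 E) : E) = Algebra.norm E (a : E') :=
      Algebra.algebraMap_intNorm (L := E') a
    have h0 : Algebra.intNorm (𝓞 E) (𝓞 E') a ≠ 0 := fun h => by
      rw [h, eq_comm] at e
      exact ha (by simpa using e)
    rw [← e, ord_int v h0, ← Ideal.relNorm_singleton, mult_relNorm v S hS _ (by simpa using ha)]
    push_cast
    exact Finset.sum_congr rfl fun w _ => by rw [ord_int w ha]
  obtain ⟨a, b, hb, rfl⟩ := IsFractionRing.div_surjective (A := 𝓞 E') x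
  have hb' : b ≠ 0 := nonZeroDivisors.ne_zero hb
  have ha' : a ≠ 0 := by
    rintro rfl
    simp at hx
  have ha₁ : (a : E') ≠ 0 := by simpa using ha'
  have hb₁ : (b : E') ≠ 0 := by simpa using hb'
  change ord v (Algebra.norm E ((a : E') / (b : E'))) = ∑ w ∈ S, _ * ord w ((a : E') / (b : E'))
  rw [div_eq_mul_inv, map_mul, Algebra.norm_inv, ord_mul v (by simpa using ha₁) (by simpa using hb₁),
    ord_inv, key a ha', key b hb', ← Finset.sum_neg_distrib, ← Finset.sum_add_distrib]
  exact Finset.sum_congr rfl fun w _ => by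
    rw [ord_mul w ha₁ (inv_ne_zero hb₁), ord_inv]
    ring


theorem over_under (w : Pr E') : w.asIdeal.LiesOver (w.under (𝓞 E)).asIdeal := ⟨rfl⟩

theorem under_eq {v : Pr E} {w : Pr E'} (h : w.asIdeal.LiesOver v.asIdeal) : w.under (𝓞 E) = v :=
  HeightOneSpectrum.ext h.over.symm

theorem under_surj (v : Pr E) : ∃ w : Pr E', w.under (𝓞 E) = v :=
  (exists_over (E' := E') v).imp fun _ h => under_eq h

theorem finite_fiber (v : Pr E) : {w : Pr E' | w.under (𝓞 E) = v}.Finite :=
  (finite_over (E' := E') v).subset fun w hw => hw ▸ over_under w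

variable (E') in
/-- the primes above a finite set of primes -/
noncomputable def above (S : Finset (Pr E)) : Finset (Pr E') :=
  (S.finite_toSet.preimage' (f := fun w : Pr E' => w.under (𝓞 E))
    fun v _ => finite_fiber v).toFinset

theorem mem_above {S : Finset (Pr E)} {w : Pr E'} : w ∈ above E' S ↔ w.under (𝓞 E) ∈ S := by
  simp [above]

end Ext

/-- the divisor of an element -/
noncomputable def dv (x : E) : Pr E →₀ ℤ :=
  Finsupp.ofSupportFinite (fun v => ord v x) (ord_finite x)

@[simp] theorem dv_apply (x : E) (v : Pr E) : dv x v = ord v x := rfl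

theorem dv_mul {x y : E} (hx : x ≠ 0) (hy : y ≠ 0) : dv (x * y) = dv x + dv y := by
  ext v; simp [ord_mul v hx hy]

theorem dv_one : dv (1 : E) = 0 := by ext v; simp [ord_one]

theorem dv_inv (x : E) : dv x⁻¹ = -dv x := by ext v; simp [ord_inv]

/-- totally positive -/
def TPos (x : E) : Prop := ∀ φ : E →+* ℝ, 0 < φ x

/-- congruent to one modulo the `N`-th powers of the primes in `S` -/
def Cong (S : Finset (Pr E)) (N : ℕ) (x : E) : Prop :=
  ∀ v ∈ S, v.valuation E (x - 1) ≤ WithZero.exp (-(N : ℤ))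

/-- the ray modulo `S ^ N` and all real places -/
def Ray (S : Finset (Pr E)) (N : ℕ) (x : E) : Prop := x ≠ 0 ∧ TPos x ∧ Cong S N x

/-- the value on a divisor of the character with values `ψ` on primes -/
noncomputable def chv {M : Type} [CommGroup M] (ψ : Pr E → M) (D : Pr E →₀ ℤ) : M :=
  D.prod fun v n => ψ v ^ n

theorem chv_zero {M : Type} [CommGroup M] (ψ : Pr E → M) : chv ψ 0 = 1 := by simp [chv]

theorem chv_add {M : Type} [CommGroup M] (ψ : Pr E → M) (D D' : Pr E →₀ ℤ) :
    chv ψ (D + D') = chv ψ D * chv ψ D' :=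
  Finsupp.prod_add_index' (fun _ => zpow_zero _) fun _ _ _ => zpow_add _ _ _

theorem chv_single {M : Type} [CommGroup M] (ψ : Pr E → M) (v : Pr E) (n : ℤ) :
    chv ψ (Finsupp.single v n) = ψ v ^ n :=
  Finsupp.prod_single_index (zpow_zero _)

theorem chv_neg {M : Type} [CommGroup M] (ψ : Pr E → M) (D : Pr E →₀ ℤ) :
    chv ψ (-D) = (chv ψ D)⁻¹ := by
  rw [eq_inv_iff_mul_eq_one, ← chv_add, neg_add_cancel, chv_zero]

theorem chv_map {M M' : Type} [CommGroup M] [CommGroup M'] (f : M →* M') (ψ : Pr E → M)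
    (D : Pr E →₀ ℤ) : f (chv ψ D) = chv (fun v => f (ψ v)) D := by
  simp [chv, Finsupp.prod, map_prod, map_zpow]

/-- a character of the ray class group -/
def IsRay {M : Type} [CommGroup M] (S : Finset (Pr E)) (N : ℕ) (ψ : Pr E → M) : Prop :=
  ∀ x, Ray S N x → chv ψ (dv x) = 1

/-- the divisors prime to `S` -/
def off (S : Finset (Pr E)) : AddSubgroup (Pr E →₀ ℤ) where
  carrier := {D | ∀ v ∈ S, D v = 0}
  zero_mem' _ _ := rfl
  add_mem' ha hb v hv := by simp [ha v hv, hb v hv]
  neg_mem' ha v hv := by simp [ha v hv]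

theorem mem_off {S : Finset (Pr E)} {D : Pr E →₀ ℤ} : D ∈ off S ↔ ∀ v ∈ S, D v = 0 := Iff.rfl

/-- the fractional ideal of a divisor, as an additive subgroup -/
def lat (D : Pr E →₀ ℤ) : AddSubgroup E where
  carrier := {y | ∀ v : Pr E, v.valuation E y ≤ WithZero.exp (-D v)}
  zero_mem' v := by simp
  add_mem' ha hb v := Valuation.map_add_le _ (ha v) (hb v)
  neg_mem' ha v := by simpa using ha v

theorem mem_lat {D : Pr E →₀ ℤ} {y : E} :
    y ∈ lat D ↔ ∀ v : Pr E, v.valuation E y ≤ WithZero.exp (-D v) := Iff.rfl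

/-- the norm of a divisor -/
noncomputable def nmD (D : Pr E →₀ ℤ) : ℝ := D.prod fun v n => (nrm v : ℝ) ^ n

/-- the divisor that is the sum of the primes in `C` -/
noncomputable def ind (C : Finset (Pr E)) : Pr E →₀ ℤ := ∑ c ∈ C, Finsupp.single c 1

theorem two_le_nrm (v : Pr E) : 2 ≤ nrm v := by
  have h0 : nrm v ≠ 0 := fun h => v.ne_bot (Ideal.absNorm_eq_zero_iff.1 h)
  have h1 : nrm v ≠ 1 := fun h => v.isPrime.ne_top (Ideal.absNorm_eq_one_iff.1 h)
  omega

section Gal

variable {G : Type} [Group G] [MulSemiringAction G E]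

/-- the action of a group of automorphisms on primes -/
noncomputable def gact (g : G) (w : Pr E) : Pr E := act (MulSemiringAction.toRingEquiv G E g) w

theorem gact_asIdeal (g : G) (w : Pr E) : (gact g w).asIdeal = g • w.asIdeal := by
  ext a
  rw [Ideal.mem_pointwise_smul_iff_inv_smul_mem]
  exact Iff.rfl

theorem gact_one (w : Pr E) : gact (1 : G) w = w :=
  HeightOneSpectrum.ext (by rw [gact_asIdeal, one_smul])

theorem gact_mul (g h : G) (w : Pr E) : gact (g * h) w = gact g (gact h w) :=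
  HeightOneSpectrum.ext (by rw [gact_asIdeal, gact_asIdeal, gact_asIdeal, mul_smul])

theorem val_gact (g : G) (w : Pr E) (x : E) :
    (gact g w).valuation E (g • x) = w.valuation E x :=
  val_act (MulSemiringAction.toRingEquiv G E g) w x

theorem ord_gact (g : G) (w : Pr E) (x : E) : ord (gact g w) (g • x) = ord w x :=
  ord_act (MulSemiringAction.toRingEquiv G E g) w x

theorem nrm_gact (g : G) (w : Pr E) : nrm (gact g w) = nrm w :=
  absNorm_act (MulSemiringAction.toRingEquiv G E g) w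

variable (G E) in
/-- the inertia groups in `G` are trivial outside `S` -/
def Unr {F : Type} [Field F] [NumberField F] [Algebra F E] (S : Finset (Pr F)) : Prop :=
  ∀ w : Pr E, w.under (𝓞 F) ∉ S → w.asIdeal.inertia G = ⊥

variable (E) in
/-- `j` induces complex conjugation under every complex embedding -/
def IsCC (j : G) : Prop := ∀ (ε : E →+* ℂ) (x : E), ε (j • x) = starRingEnd ℂ (ε x)

end Gal

end Pool.Agent.MP_f3cd89_nt
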