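import Pool.Agent.MP_f3cd89_nt.AStm

set_option autoImplicit false

namespace Pool.Agent.MP_f3cd89_nt

namespace RepX

variable {A : Type} [CommGroup A] {Δ : Dat A} {G : Type} [Group G] {k : Type} [CommRing k]

theorem conj_pow (π : Pres Δ G) (i : ℕ) (a : A) :
    π.X ^ i * π.ι a * (π.X ^ i)⁻¹ = π.ι ((Δ.σ ^ i) a) := by
  induction i with
  | zero => simp
  | succ i ih =>
    rw [pow_succ' Δ.σ, MulAut.mul_apply, ← π.conj, ← ih, pow_succ']
    group

theorem conj_zpow (π : Pres Δ G) (e : ℤ) (a : A) :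
    π.X ^ e * π.ι a * (π.X ^ e)⁻¹ = π.ι ((Δ.σ ^ e) a) := by
  obtain ⟨i, rfl | rfl⟩ := e.eq_nat_or_neg
  · rw [zpow_natCast, zpow_natCast, conj_pow]
  · have h := conj_pow π i ((Δ.σ ^ i)⁻¹ a)
    rw [MulAut.apply_inv_self] at h
    rw [zpow_neg, zpow_neg, zpow_natCast, zpow_natCast, ← h]
    group

theorem mul_eq (π : Pres Δ G) (a a' : A) (e e' : ℤ) :
    π.ι a * π.X ^ e * (π.ι a' * π.X ^ e') = π.ι (a * (Δ.σ ^ e) a') * π.X ^ (e + e') := by
  rw [map_mul, ← conj_zpow, zpow_add]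
  group

theorem inv_eq (π : Pres Δ G) (a : A) (e : ℤ) :
    (π.ι a * π.X ^ e)⁻¹ = π.ι ((Δ.σ ^ (-e)) a⁻¹) * π.X ^ (-e) := by
  rw [← conj_zpow, map_inv]
  group

theorem uniq (π : Pres Δ G) {a a' : A} {e e' : ℤ} (h : π.ι a * π.X ^ e = π.ι a' * π.X ^ e') :
    ∃ t : ℤ, e = e' + Δ.m * t ∧ a' = a * Δ.c ^ t := by
  have h1 : π.X ^ (e - e') = π.ι (a⁻¹ * a') := by
    rw [map_mul, map_inv, zpow_sub, eq_inv_mul_iff_mul_eq, ← mul_assoc, h, mul_inv_cancel_right]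
  obtain ⟨t, ht⟩ := π.free _ _ h1
  refine ⟨t, by linarith, ?_⟩
  rw [ht, zpow_mul, zpow_natCast, π.pow, ← map_zpow] at h1
  rw [π.inj h1, mul_inv_cancel_left]

theorem eta_dvd (P : Pt Δ k) {z : ℤ} (h : (P.d : ℤ) ∣ z) (a : A) : P.η ((Δ.σ ^ z) a) = P.η a := by
  obtain ⟨t, rfl⟩ := h
  obtain ⟨i, rfl | rfl⟩ := t.eq_nat_or_neg
  · rw [← Nat.cast_mul, zpow_natCast, mul_comm, P.inv_mul]
  · have h := P.inv_mul i ((Δ.σ ^ (i * P.d))⁻¹ a)
    rw [MulAut.apply_inv_self] at h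
    rw [mul_neg, ← Nat.cast_mul, zpow_neg, zpow_natCast, mul_comm, ← h]

theorem eta_val (P : Pt Δ k) (i : ZMod P.d) (e : ℤ) (a : A) :
    P.η ((Δ.σ ^ (i + (e : ZMod P.d)).val) a) = P.η ((Δ.σ ^ i.val) ((Δ.σ ^ e) a)) := by
  have h : (P.d : ℤ) ∣ ((i + (e : ZMod P.d)).val : ℤ) - ((i.val : ℤ) + e) := by
    rw [← ZMod.intCast_zmod_eq_zero_iff_dvd]
    simp
  rw [← eta_dvd P h ((Δ.σ ^ i.val) _), ← zpow_natCast Δ.σ i.val, ← MulAut.mul_apply,
    ← MulAut.mul_apply, ← zpow_add, ← zpow_add, ← zpow_natCast]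
  congr 3
  ring

theorem rho_of (P : Pt Δ k) (a : A) (e : ℤ) (i j : ZMod P.d) :
    rho P (Finsupp.single e (MonoidAlgebra.of ℤ A a)) i j =
      if j = i + (e : ZMod P.d) then ((P.η ((Δ.σ ^ i.val) a) * P.ω ^ e : kˣ) : k) else 0 := by
  rw [rho_single, lam_of, Units.val_mul]

theorem omega_add (P : Pt Δ k) (e t : ℤ) : P.ω ^ (e + Δ.m * t) = P.η Δ.c ^ t * P.ω ^ e := by
  rw [zpow_add, zpow_mul, zpow_natCast, P.ω_pow, mul_comm]

theorem rep_eq (π : Pres Δ G) (P : Pt Δ k) (a : A) (e : ℤ) :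
    rep π P (π.ι a * π.X ^ e) = rho P (Finsupp.single e (MonoidAlgebra.of ℤ A a)) := by
  obtain ⟨t, h1, h2⟩ := uniq π (π.eq_pa (π.ι a * π.X ^ e))
  unfold rep
  rw [h2]
  generalize π.pe (π.ι a * π.X ^ e) = e' at h1
  subst h1
  ext i j
  have h3 : ((Δ.m : ℕ) : ZMod P.d) = 0 := (ZMod.natCast_eq_zero_iff _ _).2 P.d_dvd
  rw [rho_of, rho_of, omega_add, map_mul, map_zpow, Δ.pow_c, map_mul, map_zpow, mul_assoc]
  simp [h3]

theorem psi_eq (π : Pres Δ G) (P : Pt Δ k) (a : A) (e : ℤ) :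
    psi π P (π.ι a * π.X ^ e) = P.η a * P.ω ^ e := by
  obtain ⟨t, h1, h2⟩ := uniq π (π.eq_pa (π.ι a * π.X ^ e))
  unfold psi
  rw [h2]
  generalize π.pe (π.ι a * π.X ^ e) = e' at h1
  subst h1
  rw [omega_add, map_mul, map_zpow, mul_assoc]

theorem rep_one (π : Pres Δ G) (P : Pt Δ k) : rep π P 1 = 1 := by
  have h := rep_eq π P 1 0
  rw [map_one, zpow_zero, mul_one] at h
  rw [h]
  ext i j
  rw [rho_of, Matrix.one_apply]
  simp [eq_comm]

theorem rep_mul (π : Pres Δ G) (P : Pt Δ k) (g h : G) :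
    rep π P (g * h) = rep π P g * rep π P h := by
  obtain ⟨a, e, rfl⟩ := π.gen g
  obtain ⟨a', e', rfl⟩ := π.gen h
  rw [mul_eq, rep_eq, rep_eq, rep_eq]
  ext i j
  simp only [Matrix.mul_apply, rho_of, ite_mul, zero_mul, Finset.sum_ite_eq', Finset.mem_univ,
    if_true]
  rw [eta_val, Int.cast_add, ← add_assoc]
  split_ifs
  · rw [← Units.val_mul, map_mul, map_mul, zpow_add, mul_mul_mul_comm]
  · rw [mul_zero]

theorem rep_tw (π : Pres Δ G) (P : Pt Δ k) (g : G) :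
    rep π P.tw g = rep π P (π.X * g * π.X⁻¹) := by
  obtain ⟨a, e, rfl⟩ := π.gen g
  have h : π.X * (π.ι a * π.X ^ e) * π.X⁻¹ = π.ι (Δ.σ a) * π.X ^ e := by
    rw [← π.conj]
    group
  rw [h, rep_eq, rep_eq]
  ext i j
  have h1 : ∀ l : ℕ, P.tw.η ((Δ.σ ^ l) a) = P.η ((Δ.σ ^ l) (Δ.σ a)) := fun l => by
    change P.η (Δ.σ ((Δ.σ ^ l) a)) = _
    rw [← MulAut.mul_apply, ← pow_succ', pow_succ, MulAut.mul_apply]
  rw [rho_of, h1]
  exact (rho_of P (Δ.σ a) e i j).symm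

theorem toG_add (π : Pres Δ G) (y z : ℤ →₀ MonoidAlgebra ℤ A) :
    toG π (y + z) = toG π y + toG π z :=
  Finsupp.sum_add_index' (fun e => by simp) fun e b b' => by rw [map_add, add_mul]

theorem toG_single (π : Pres Δ G) (e : ℤ) (a : A) (z : ℤ) :
    toG π (Finsupp.single e (MonoidAlgebra.single a z)) =
      MonoidAlgebra.single (π.ι a * π.X ^ e) z := by
  rw [toG, Finsupp.sum_single_index (by simp)]
  simp [MonoidAlgebra.single_mul_single]

theorem rho_toG (π : Pres Δ G) (P : Pt Δ k) (y : ℤ →₀ MonoidAlgebra ℤ A) :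
    rho P y = (toG π y).coeff.sum fun g z => z • rep π P g := by
  have hadd : ∀ y z : ℤ →₀ MonoidAlgebra ℤ A,
      (rho P y = (toG π y).coeff.sum fun g z => z • rep π P g) →
      (rho P z = (toG π z).coeff.sum fun g z => z • rep π P g) →
      rho P (y + z) = (toG π (y + z)).coeff.sum fun g z => z • rep π P g := fun y z hy hz => by
    rw [toG_add, MonoidAlgebra.coeff_add, Finsupp.sum_add_index'
      (h := fun g (z : ℤ) => z • rep π P g) (fun _ => zero_smul _ _) fun _ _ _ => add_smul _ _ _,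
      ← hy, ← hz]
    exact rhoG_add _ P y z
  have hzero : rho P 0 = (toG π 0).coeff.sum fun g z => z • rep π P g := by
    rw [rho, rhoG_zero]
    simp [toG]
  induction y using Finsupp.induction_linear with
  | zero => exact hzero
  | add y z hy hz => exact hadd y z hy hz
  | single e b =>
    induction b using MonoidAlgebra.induction_linear with
    | zero => rw [Finsupp.single_zero]; exact hzero
    | add b b' hb hb' => rw [Finsupp.single_add]; exact hadd _ _ hb hb'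
    | single a z =>
      rw [toG_single, MonoidAlgebra.coeff_single,
        Finsupp.sum_single_index (h := fun g (z : ℤ) => z • rep π P g) (zero_smul _ _), rep_eq]
      ext i j
      rw [Matrix.smul_apply, rho_single, rho_single, lam_single, lam_of]
      split_ifs
      · rw [zsmul_eq_mul, mul_assoc]
      · rw [smul_zero]

/-- the elements whose exponent is a multiple of `d` -/
def sub (π : Pres Δ G) (d : ℕ) : Subgroup G where
  carrier := {g | ∃ (a : A) (e : ℤ), (d : ℤ) ∣ e ∧ g = π.ι a * π.X ^ e}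
  one_mem' := ⟨1, 0, dvd_zero _, by simp⟩
  mul_mem' := by
    rintro _ _ ⟨a, e, h, rfl⟩ ⟨a', e', h', rfl⟩
    exact ⟨_, _, dvd_add h h', mul_eq π a a' e e'⟩
  inv_mem' := by
    rintro _ ⟨a, e, h, rfl⟩
    exact ⟨_, _, (dvd_neg).2 h, inv_eq π a e⟩

theorem mem_U (π : Pres Δ G) (d : ℕ) (g : G) :
    g ∈ π.U d ↔ ∃ (a : A) (e : ℤ), (d : ℤ) ∣ e ∧ g = π.ι a * π.X ^ e := by
  constructor
  · have h : π.U d ≤ sub π d := by
      refine sup_le ?_ (Subgroup.zpowers_le.2 ⟨1, d, dvd_rfl, by simp⟩)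
      rintro _ ⟨a, rfl⟩
      exact ⟨a, 0, dvd_zero _, by simp⟩
    exact fun hg => h hg
  · rintro ⟨a, _, ⟨t, rfl⟩, rfl⟩
    refine Subgroup.mul_mem_sup ⟨a, rfl⟩ ⟨t, ?_⟩
    simp only [zpow_mul, zpow_natCast]

theorem normal_U (π : Pres Δ G) (d : ℕ) : (π.U d).Normal := ⟨fun n hn g => by
  obtain ⟨a, e, h, rfl⟩ := (mem_U π d n).1 hn
  obtain ⟨b, f, rfl⟩ := π.gen g
  rw [inv_eq, mul_eq, mul_eq]
  exact (mem_U π d _).2 ⟨_, _, by simpa using h, rfl⟩⟩

theorem mem_U_iff (π : Pres Δ G) {d : ℕ} (hd : d ∣ Δ.m) (a : A) (e : ℤ) :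
    π.ι a * π.X ^ e ∈ π.U d ↔ (d : ℤ) ∣ e := by
  rw [mem_U]
  refine ⟨fun ⟨a', e', h, h'⟩ => ?_, fun h => ⟨a, e, h, rfl⟩⟩
  obtain ⟨t, rfl, -⟩ := uniq π h'
  exact dvd_add h ((Int.natCast_dvd_natCast.2 hd).mul_right t)

theorem psi_mul (π : Pres Δ G) (P : Pt Δ k) {g : G} (hg : g ∈ π.U P.d) (h : G) :
    psi π P (g * h) = psi π P g * psi π P h := by
  obtain ⟨a, e, he, rfl⟩ := (mem_U π _ g).1 hg
  obtain ⟨a', e', rfl⟩ := π.gen h
  rw [mul_eq, psi_eq, psi_eq, psi_eq, map_mul, eta_dvd P he, zpow_add, mul_mul_mul_comm]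

theorem pres_of [Finite G] (S : Subgroup G) [S.Normal] (hc : ∀ a ∈ S, ∀ b ∈ S, a * b = b * a)
    (X : G) (hX : ∀ g, ∃ a ∈ S, ∃ e : ℤ, g = a * X ^ e) {j : G} (hj : j ∈ S) :
    ∃ (A' : Type) (_ : CommGroup A') (_ : Finite A') (Δ : Dat A') (π : Pres Δ G),
      j ∈ π.ι.range := by
  letI : CommGroup S :=
    { (inferInstance : Group S) with mul_comm := fun a b => Subtype.ext (hc _ a.2 _ b.2) }
  have hm : X ^ orderOf (QuotientGroup.mk' S X) ∈ S := by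
    rw [← QuotientGroup.eq_one_iff, ← QuotientGroup.mk'_apply, map_pow, pow_orderOf_eq_one]
  let Δ : Dat S :=
    { σ := MulAut.conjNormal X
      m := orderOf (QuotientGroup.mk' S X)
      m_pos := orderOf_pos _
      c := ⟨_, hm⟩
      σ_pow := by
        rw [← map_pow]
        ext a
        rw [MulAut.conjNormal_apply, hc _ hm _ a.2, mul_inv_cancel_right, MulAut.one_apply]
      σ_c := Subtype.ext (by rw [MulAut.conjNormal_apply]; group) }
  let π : Pres Δ G :=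
    { ι := S.subtype
      X := X
      inj := Subtype.val_injective
      conj := fun a => rfl
      pow := rfl
      gen := fun g => by
        obtain ⟨a, ha, e, rfl⟩ := hX g
        exact ⟨⟨a, ha⟩, e, rfl⟩
      free := fun e a h => by
        refine orderOf_dvd_iff_zpow_eq_one.2 ?_
        rw [← map_zpow, QuotientGroup.mk'_apply, QuotientGroup.eq_one_iff, h]
        exact a.2 }
  exact ⟨S, inferInstance, inferInstance, Δ, π, ⟨j, hj⟩, rfl⟩

end RepX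

open RepX

theorem rep1 : REP_st := fun _ _ _ _ _ π =>
  ⟨conj_pow π, mem_U π, normal_U π, fun _ hd => mem_U_iff π hd, fun _ _ P =>
    ⟨rep_eq π P, rep_one π P, rep_mul π P, rep_tw π P, rho_toG π P, psi_eq π P,
      fun _ hg h _ => psi_mul π P hg h⟩⟩

theorem pres : PRES_st := by
  intro G _ _ A _ j hA hcyc hj
  have hjc : ∀ (g : G) (n : ℤ), Commute g (j ^ n) := fun g n =>
    (Commute.symm (hj g)).zpow_right n
  have hmem : ∀ g, g ∈ A ⊔ Subgroup.zpowers j ↔ ∃ a ∈ A, ∃ n : ℤ, a * j ^ n = g := fun g => by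
    rw [Subgroup.mem_sup_of_normal_left]
    exact ⟨fun ⟨a, ha, _, ⟨n, rfl⟩, h⟩ => ⟨a, ha, n, h⟩,
      fun ⟨a, ha, n, h⟩ => ⟨a, ha, _, ⟨n, rfl⟩, h⟩⟩
  haveI : (A ⊔ Subgroup.zpowers j).Normal := ⟨fun x hx g => by
    obtain ⟨a, ha, n, rfl⟩ := (hmem x).1 hx
    refine (hmem _).2 ⟨g * a * g⁻¹, Subgroup.Normal.conj_mem inferInstance a ha g, n, ?_⟩
    rw [mul_assoc _ g⁻¹, (hjc g⁻¹ n).eq]
    group⟩
  obtain ⟨x, hx⟩ := hcyc.exists_zpow_surjective
  obtain ⟨X, rfl⟩ := QuotientGroup.mk'_surjective A x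
  refine pres_of (A ⊔ Subgroup.zpowers j) (fun x hx y hy => ?_) X (fun g => ?_)
    (Subgroup.mem_sup_right (Subgroup.mem_zpowers j))
  · obtain ⟨a, ha, n, rfl⟩ := (hmem x).1 hx
    obtain ⟨b, hb, l, rfl⟩ := (hmem y).1 hy
    exact (Commute.mul_left ((show Commute a b from hA a ha b hb).mul_right (hjc a l))
      (hjc _ n).symm).eq
  · obtain ⟨e, he⟩ := hx (QuotientGroup.mk' A g)
    refine ⟨g * (X ^ e)⁻¹, Subgroup.mem_sup_left ?_, e, by rw [inv_mul_cancel_right]⟩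
    rw [← QuotientGroup.eq_one_iff, ← QuotientGroup.mk'_apply, map_mul, map_inv, map_zpow, ← he]
    exact mul_inv_cancel _

end Pool.Agent.MP_f3cd89_nt
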