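import Pool.Agent.MP_f3cd89_nt.NBase

/-! Statements of the steps on cone decompositions and values of L-functions. -/

set_option autoImplicit false

open Finset NumberField IsDedekindDomain

namespace Pool.Agent.MP_f3cd89_nt

/-- a face of the convex hull of the points `e v`, `v ∈ P` -/
def Face {ι V : Type} [Fintype ι] (e : V → ι → ℝ) (P : Set V) (F : Finset V) : Prop :=
  F.Nonempty ∧ ∃ y : ι → ℝ, (∀ v ∈ P, 1 ≤ ∑ i, y i * e v i) ∧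
    ∀ v, v ∈ F ↔ v ∈ P ∧ ∑ i, y i * e v i = 1

/-- the barycentric subdivision of the fan over the faces -/
def GEO_st : Prop := ∀ (ι V : Type) [Fintype ι] [Nonempty ι] (e : V → ι → ℝ) (P : Set V),
  (∀ v ∈ P, ∀ i, 0 < e v i) → (∀ C : ℝ, {v ∈ P | ∀ i, e v i ≤ C}.Finite) →
  (∀ i, ∀ δ : ℝ, 0 < δ → ∃ v ∈ P, ∀ j, j ≠ i → e v j < δ) →
  (∀ y : ι → ℝ, (∀ v ∈ P, 1 ≤ ∑ i, y i * e v i) → ∀ i, 0 < y i) ∧
  ∀ b : Finset V → ι → ℝ,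
    (∀ F, Face e P F → ∃ s : V → ℝ, (∀ v ∈ F, 0 < s v) ∧ b F = ∑ v ∈ F, s v • e v) →
    ∀ x : ι → ℝ, (∀ i, 0 < x i) → ∃! t : Finset V →₀ ℝ,
      (∀ F ∈ t.support, Face e P F ∧ 0 < t F) ∧ IsChain (· ⊆ ·) (t.support : Set (Finset V)) ∧
        x = t.sum fun F r => r • b F

/-- continuation of the twisted zeta function of a cone -/
def ANA_st : Prop := ∀ (ι κ : Type) [Fintype ι] [Nonempty ι] [Fintype κ] (x : ι → ℝ)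
  (u : κ → ι → ℝ) (z : κ → ℂ), (∀ i, 0 < x i) → (∀ a i, 0 < u a i) →
  (∀ a, ‖z a‖ = 1 ∧ z a ≠ 1) →
  ∃ (f : ℂ → ℂ) (σ₀ : ℝ), Differentiable ℂ f ∧ f 0 = ∏ a, (1 - z a)⁻¹ ∧ ∀ s : ℂ, σ₀ < s.re →
    HasSum (fun n : κ → ℕ => (∏ a, z a ^ n a) *
      ((∏ i, (x i + ∑ a, (n a : ℝ) * u a i) : ℝ) : ℂ) ^ (-s)) (f s)

/-- abstract data for an equivariant cone decomposition -/
structure Sh (ι V G Q : Type) [Fintype ι] [AddCommGroup V] [Group G] [DistribMulAction G V]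
    [MulAction G Q] (l : ℕ) where
  e : V →+ (ι → ℝ)
  e_inj : Function.Injective e
  mon : ∀ g : G, ∃ (τ : Equiv.Perm ι) (t : ι → ℝ), (∀ i, 0 < t i) ∧
    ∀ v i, e (g • v) i = t i * e v (τ i)
  M : Q → AddSubgroup V
  Λ : Q → AddSubgroup V
  X : Q → Set V
  χ : Q → V → ZMod l
  nm : Q → ℝ
  N : Subgroup G
  Γ : Subgroup G
  o : V
  Λ_le : ∀ q, Λ q ≤ M q
  X_sub : ∀ q, ∀ x ∈ X q, x ∈ M q ∧ ∀ i, 0 < e x i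
  X_add : ∀ q, ∀ x ∈ X q, ∀ v ∈ Λ q, (∀ i, 0 < e (x + v) i) → x + v ∈ X q
  χ_add : ∀ q, ∀ x ∈ M q, ∀ y ∈ M q, χ q (x + y) = χ q x + χ q y
  smul_M : ∀ (g : G) q, ∀ v ∈ M q, g • v ∈ M (g • q)
  smul_Λ : ∀ (g : G) q, ∀ v ∈ Λ q, g • v ∈ Λ (g • q)
  smul_X : ∀ (g : G) q, ∀ v ∈ X q, g • v ∈ X (g • q)
  smul_χ : ∀ (g : G) q, ∀ v ∈ M q, χ (g • q) (g • v) = χ q v
  nm_pos : ∀ q, 0 < nm q
  smul_nm : ∀ (g : G) q, ∀ x ∈ X q, nm (g • q) * ∏ i, e (g • x) i = nm q * ∏ i, e x i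
  fin_Γ : Finite Γ
  cop : (Nat.card Γ).Coprime l
  Γ_o : ∀ g ∈ Γ, g • o = o
  normal : N.Normal
  dec : ∀ g : G, ∃ n ∈ N, ∃ γ ∈ Γ, g = n * γ
  free : ∀ g ∈ N, ∀ v, (∀ i, 0 < e v i) → g • v = v → g = 1
  trans : ∀ q, ∀ x ∈ X q, ∃ g ∈ N, g • x = o
  fin_Q : ∃ T : Finset Q, ∀ q : Q, ∃ g ∈ N, g • q ∈ T
  lf : ∀ q (C : ℝ), {v | v ∈ M q ∧ ∀ i, |e v i| ≤ C}.Finite
  unit : ∀ q : Q, ∃ R : ℝ, ∀ y : ι → ℝ, (∀ i, 0 < y i) → ∃ g ∈ N, g • q = q ∧ ∃ t : ι → ℝ,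
    (∀ i, 0 < t i) ∧ ∏ i, t i = 1 ∧ (∀ v i, e (g • v) i = t i * e v i) ∧
      ∀ i j, t i * y i ≤ R * (t j * y j)
  good : ∀ q, ∃ v ∈ Λ q, (∀ i, 0 < e v i) ∧ χ q v ≠ 0

open Classical in
/-- a finite equivariant family of cells with good generators -/
def Sh.Cells {ι V G Q : Type} [Fintype ι] [AddCommGroup V] [Group G] [DistribMulAction G V]
    [MulAction G Q] {l : ℕ} (D : Sh ι V G Q l) (C : Finset (Q × Finset V)) : Prop :=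
  (∀ c ∈ C, D.o ∈ D.X c.1 ∧ ∀ u ∈ c.2, u ∈ D.Λ c.1 ∧ (∀ i, 0 < D.e u i) ∧ D.χ c.1 u ≠ 0) ∧
  (∀ q, D.o ∈ D.X q → ∃! z : (Q × Finset V) × (V →₀ ℕ), z.1 ∈ C ∧ z.2.support ⊆ z.1.2 ∧
    ∃ g ∈ D.N, g • z.1.1 = q ∧ g • (D.o + z.2.sum fun u n => n • u) = D.o) ∧
  (∀ g ∈ D.Γ, ∀ c ∈ C, (g • c.1, c.2.image fun u => g • u) ∈ C) ∧
  ∀ g ∈ D.Γ, ∀ c ∈ C, g • c.1 = c.1 → (c.2.image fun u => g • u) = c.2 → ∀ u ∈ c.2, g • u = u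

/-- equivariant good barycentres -/
def BARY_st : Prop := ∀ (ι V G Q : Type) [Fintype ι] [Nonempty ι] [AddCommGroup V] [Group G]
  [DistribMulAction G V] [MulAction G Q] [DecidableEq V] (l : ℕ) [Fact l.Prime] (D : Sh ι V G Q l),
  (∀ (g : G) q F, Face D.e {v | v ∈ D.Λ q ∧ (∀ i, 0 < D.e v i) ∧ D.χ q v ≠ 0} F →
    Face D.e {v | v ∈ D.Λ (g • q) ∧ (∀ i, 0 < D.e v i) ∧ D.χ (g • q) v ≠ 0}
      (F.image fun v => g • v)) ∧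
  ∃ b : Q → Finset V → V, ∀ q F,
    Face D.e {v | v ∈ D.Λ q ∧ (∀ i, 0 < D.e v i) ∧ D.χ q v ≠ 0} F →
    b q F ∈ D.Λ q ∧ D.χ q (b q F) ≠ 0 ∧
    (∃ s : V → ℕ, (∀ v ∈ F, 0 < s v) ∧ b q F = ∑ v ∈ F, s v • v) ∧
    ∀ g : G, b (g • q) (F.image fun v => g • v) = g • b q F

/-- existence of the cells -/
def CELL_st : Prop := ∀ (ι V G Q : Type) [Fintype ι] [Nonempty ι] [AddCommGroup V] [Group G]
  [DistribMulAction G V] [MulAction G Q] (l : ℕ) [Fact l.Prime] (D : Sh ι V G Q l),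
  ∃ C, D.Cells C

open Classical in
/-- the abstract congruence -/
def SH_st : Prop := ∀ (ι V G Q : Type) [Fintype ι] [Nonempty ι] [AddCommGroup V] [Group G]
  [DistribMulAction G V] [MulAction G Q] (l : ℕ) [Fact l.Prime] (D : Sh ι V G Q l),
  ∃ (k : ℕ) (Z : ZMod l → Q →₀ ℤ), ∀ Ψ : Q → ℂ, (∀ g ∈ D.N, ∀ q, Ψ (g • q) = Ψ q) →
    ∀ ζ : ℂ, IsPrimitiveRoot ζ l → ∃ (f f' : ℂ → ℂ) (σ₀ : ℝ), Differentiable ℂ f ∧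
      Differentiable ℂ f' ∧ (∀ s : ℂ, σ₀ < s.re →
        HasSum (fun q : {q // D.o ∈ D.X q} => Ψ q * ζ ^ (D.χ q D.o).val *
          ((D.nm q * ∏ i, D.e D.o i : ℝ) : ℂ) ^ (-s)) (f s) ∧
        HasSum (fun q : {q // D.o ∈ D.X q} => if ∃ g ∈ D.Γ, g ≠ 1 ∧ g • q.1 = q.1 then
          Ψ q * ζ ^ (D.χ q D.o).val * ((D.nm q * ∏ i, D.e D.o i : ℝ) : ℂ) ^ (-s) else 0) (f' s)) ∧
      (l : ℂ) ^ k * (f 0 - f' 0) =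
        ∑ r : ZMod l, ζ ^ r.val * (Z r).sum fun q z => (z : ℂ) * ∑ᶠ g : D.Γ, Ψ (g.1 • q)

/-- geometry of numbers in a totally real field -/
def NTA_st : Prop := ∀ (F : Type) [Field F] [NumberField F] [IsTotallyReal F],
  Nonempty (F →+* ℝ) ∧
  (∀ (D : Pr F →₀ ℤ) (C : ℝ), {v | v ∈ lat D ∧ ∀ φ : F →+* ℝ, |φ v| ≤ C}.Finite) ∧
  (∀ (S : Finset (Pr F)) (N : ℕ), ∃ R : ℝ, ∀ y : (F →+* ℝ) → ℝ, (∀ φ, 0 < y φ) →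
    ∃ u : F, Ray S N u ∧ dv u = 0 ∧ ∀ φ φ' : F →+* ℝ, φ u * y φ ≤ R * (φ' u * y φ')) ∧
  (∀ x : F, x ≠ 0 → nmD (dv x) = ∏ φ : F →+* ℝ, |φ x|) ∧
  ∀ x : F, ((Algebra.norm ℚ x : ℚ) : ℝ) = ∏ φ : F →+* ℝ, φ x

/-- approximation and finiteness of ray class groups -/
def NTB_st : Prop := ∀ (F : Type) [Field F] [NumberField F],
  (∀ (T : Finset (Pr F)) (a : Pr F → F) (n : ℤ), ∃ x : F, x ≠ 0 ∧ TPos x ∧
    (∀ v ∈ T, v.valuation F (x - a v) ≤ WithZero.exp n) ∧ ∀ v, v ∉ T → v.valuation F x ≤ 1) ∧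
  (∀ (S : Finset (Pr F)) (N : ℕ), ∃ T : Finset (Pr F →₀ ℤ), ∀ D ∈ off S,
    ∃ x, Ray S N x ∧ D - dv x ∈ T) ∧
  (∀ (S : Finset (Pr F)) (N : ℕ), ∃ M : ℕ, 0 < M ∧ ∀ x : F, x ≠ 0 → (∀ v ∈ S, ord v x = 0) →
    Cong S N (x ^ M)) ∧
  (∀ (S : Finset (Pr F)) (N : ℕ), 0 < N → (∀ x y, Ray S N x → Ray S N y → Ray S N (x * y)) ∧
    (∀ x, Ray S N x → Ray S N x⁻¹) ∧ ∀ x, Ray S N x → dv x ∈ off S) ∧
  ∀ (S : Finset (Pr F)) (N : ℕ) (ψ : Pr F → ℂˣ), IsRay S N ψ → ∀ v, v ∉ S → ‖(ψ v : ℂ)‖ = 1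

/-- norms and sums of fractional ideals -/
def NTC_st : Prop := ∀ (F : Type) [Field F] [NumberField F],
  (∀ (D E : Pr F →₀ ℤ), 0 ≤ E → ((lat (D + E)).relIndex (lat D) : ℝ) = nmD E) ∧
  (∀ D E : Pr F →₀ ℤ, lat D ⊔ lat E = lat (D ⊓ E)) ∧
  (∀ x : F, x ≠ 0 → nmD (dv x) = |((Algebra.norm ℚ x : ℚ) : ℝ)|) ∧
  (∀ s : ℝ, 1 < s → Summable fun v : Pr F => (nrm v : ℝ) ^ (-s)) ∧
  (∀ S : Finset (Pr F), ∃ v, v ∉ S) ∧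
  ∀ v : Pr F, ∃ l : ℕ, l.Prime ∧ (l : 𝓞 F) ∈ v.asIdeal ∧ ∃ f : ℕ, 0 < f ∧ nrm v = l ^ f

/-- a primitive additive character of the ideal of `-D` modulo `C` -/
structure IsPrim {F : Type} [Field F] [NumberField F] {l : ℕ} (C : Finset (Pr F))
    (D : Pr F →₀ ℤ) (χ : F → ZMod l) : Prop where
  add : ∀ x ∈ lat (-D), ∀ y ∈ lat (-D), χ (x + y) = χ x + χ y
  out : ∀ x, x ∉ lat (-D) → χ x = 0
  kill : ∀ x ∈ lat (-D + ind C), χ x = 0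
  prim : ∀ c ∈ C, ∃ x ∈ lat (-D + ind C - Finsupp.single c 1), χ x ≠ 0

/-- pairs of an integral ideal prime to `S` and a primitive character -/
abbrev Pair {F : Type} [Field F] [NumberField F] (l : ℕ) (S C : Finset (Pr F)) : Type :=
  {q : (Pr F →₀ ℤ) × (F → ZMod l) // 0 ≤ q.1 ∧ q.1 ∈ off S ∧ IsPrim C q.1 q.2}

open Classical in
/-- the congruence for sums over pairs -/
def SCG_st : Prop := ∀ (F : Type) [Field F] [NumberField F] [IsTotallyReal F]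
  (Γ : Subgroup (F ≃+* F)) [Finite Γ] (l : ℕ) [Fact l.Prime] (S C : Finset (Pr F)) (N : ℕ),
  0 < N → Disjoint S C → C.Nonempty → (∀ c ∈ C, (l : 𝓞 F) ∈ c.asIdeal) →
  (Nat.card Γ).Coprime l → (∀ g ∈ Γ, ∀ w, act g w ∈ S ↔ w ∈ S) →
  (∀ g ∈ Γ, ∀ w, act g w ∈ C ↔ w ∈ C) →
  ∃ (k : ℕ) (Z : ZMod l → (Pr F →₀ ℤ) →₀ ℤ), (∀ r, ∀ D ∈ (Z r).support, D ∈ off S) ∧
    ∀ ψ : Pr F → ℂˣ, IsRay S N ψ → ∀ ζ : ℂ, IsPrimitiveRoot ζ l →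
      ∃ (f f' : ℂ → ℂ) (σ₀ : ℝ), Differentiable ℂ f ∧ Differentiable ℂ f' ∧
        (∀ s : ℂ, σ₀ < s.re →
          HasSum (fun q : Pair l S C => (chv ψ q.1.1 : ℂˣ) * ζ ^ (q.1.2 1).val *
            (nmD q.1.1 : ℂ) ^ (-s)) (f s) ∧
          HasSum (fun q : Pair l S C =>
            if ∃ g ∈ Γ, g ≠ 1 ∧ (∀ w, q.1.1 (act g w) = q.1.1 w) ∧ ∀ x, q.1.2 (g x) = q.1.2 x then
              (chv ψ q.1.1 : ℂˣ) * ζ ^ (q.1.2 1).val * (nmD q.1.1 : ℂ) ^ (-s) else 0) (f' s)) ∧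
        (l : ℂ) ^ k * (f 0 - f' 0) = ∑ r : ZMod l, ζ ^ r.val * (Z r).sum fun D z =>
          (z : ℂ) * ∑ᶠ g : Γ, ((chv (fun w => ψ (act g.1 w)) D : ℂˣ) : ℂ)

/-- the sum over primitive characters -/
def CHAR_st : Prop := ∀ (F : Type) [Field F] [NumberField F] (l : ℕ) [Fact l.Prime]
  (C : Finset (Pr F)) (D : Pr F →₀ ℤ), (∀ c ∈ C, (l : 𝓞 F) ∈ c.asIdeal) →
  {χ : F → ZMod l | IsPrim C D χ}.Finite ∧
  {χ : F → ZMod l | IsPrim C D χ}.ncard ≤ ∏ c ∈ C, nrm c ∧ ∀ ζ : ℂ, IsPrimitiveRoot ζ l → 0 ≤ D →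
    ∑ᶠ χ ∈ {χ : F → ZMod l | IsPrim C D χ}, ζ ^ (χ 1).val =
      ∏ c ∈ C, ((if 1 ≤ D c then (nrm c : ℂ) else 0) - 1)

/-- extension of divisors along an extension unramified on the support -/
noncomputable def extD {F₁ : Type} [Field F₁] [NumberField F₁] (F : Type) [Field F] [NumberField F]
    [Algebra F₁ F] (D : Pr F₁ →₀ ℤ) : Pr F →₀ ℤ :=
  Finsupp.onFinset (above F D.support) (fun w => D (w.under (𝓞 F₁))) fun _ h =>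
    mem_above.2 (Finsupp.mem_support_iff.2 h)

/-- the hypotheses on a cyclic extension `F / F₁` of prime degree `p` with generator `ρ` -/
structure Rel (F₁ F : Type) [Field F₁] [NumberField F₁] [Field F] [NumberField F] [Algebra F₁ F]
    (p : ℕ) (ρ : F ≃+* F) (S₁ : Finset (Pr F₁)) : Prop where
  prime : p.Prime
  ord_eq : orderOf ρ = p
  fix : ∀ x : F, ρ x = x ↔ x ∈ (algebraMap F₁ F).range
  unr : ∀ w : Pr F, w.under (𝓞 F₁) ∉ S₁ → ∀ x : F₁,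
    ord w (algebraMap F₁ F x) = ord (w.under (𝓞 F₁)) x

open Classical in
/-- fixed pairs come from the subfield -/
def FIX_st : Prop := ∀ (F₁ F : Type) [Field F₁] [NumberField F₁] [Field F] [NumberField F]
  [Algebra F₁ F] (p : ℕ) (ρ : F ≃+* F) (S₁ C₁ : Finset (Pr F₁)) (l : ℕ) [Fact l.Prime],
  Rel F₁ F p ρ S₁ → l ≠ p → Disjoint S₁ C₁ → (∀ c ∈ C₁, (l : 𝓞 F₁) ∈ c.asIdeal) →
  (∀ D₁ ∈ off S₁, nmD (extD F D₁) = nmD D₁ ^ p) ∧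
  (∀ (ψ : Pr F → ℂˣ) (D₁ : Pr F₁ →₀ ℤ),
    chv ψ (extD F D₁) = chv (fun v => ∏ w ∈ above F {v}, ψ w) D₁) ∧
  ∃ Φ : Pair l S₁ C₁ → Pair l (above F S₁) (above F C₁), Function.Injective Φ ∧
    (∀ q, (Φ q).1.1 = extD F q.1.1 ∧ (Φ q).1.2 1 = q.1.2 1) ∧
    ∀ q, q ∈ Set.range Φ ↔ (∀ w, q.1.1 (act ρ w) = q.1.1 w) ∧ ∀ x, q.1.2 (ρ x) = q.1.2 x

/-- `f` is the entire function given by the L-function of `ψ` smoothed at the primes in `C` -/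
def Sm {F : Type} [Field F] [NumberField F] (S C : Finset (Pr F)) (ψ : Pr F → ℂˣ) (f : ℂ → ℂ) :
    Prop :=
  Differentiable ℂ f ∧ ∀ s : ℂ, 1 < s.re → ∃ L : ℂ,
    HasProd (fun v : {v : Pr F // v ∉ S} => (1 - (ψ v : ℂ) * (nrm v.1 : ℂ) ^ (-s))⁻¹) L ∧
      f s = (∏ c ∈ C, ((ψ c : ℂ) * (nrm c : ℂ) ^ (1 - s) - 1)) * L

/-- the Euler product, and the passage from sums over pairs to smoothed L-functions -/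
def EUL_st : Prop := ∀ (F : Type) [Field F] [NumberField F] (l : ℕ) [Fact l.Prime]
  (S C : Finset (Pr F)) (ψ : Pr F → ℂˣ) (ζ : ℂ), Disjoint S C → (∀ c ∈ C, (l : 𝓞 F) ∈ c.asIdeal) →
  (∀ v, v ∉ S → ‖(ψ v : ℂ)‖ = 1) → IsPrimitiveRoot ζ l →
  (∀ (f : ℂ → ℂ) (σ₀ : ℝ), Differentiable ℂ f → (∀ s : ℂ, σ₀ < s.re →
    HasSum (fun q : Pair l S C => (chv ψ q.1.1 : ℂˣ) * ζ ^ (q.1.2 1).val *
      (nmD q.1.1 : ℂ) ^ (-s)) (f s)) → Sm S C ψ f) ∧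
  ∀ f : ℂ → ℂ, Sm S C ψ f → ∀ s : ℂ, 1 < s.re →
    HasSum (fun q : Pair l S C => (chv ψ q.1.1 : ℂˣ) * ζ ^ (q.1.2 1).val *
      (nmD q.1.1 : ℂ) ^ (-s)) (f s)

/-- continuation and integrality -/
def SCA_st : Prop := ∀ (F : Type) [Field F] [NumberField F] [IsTotallyReal F] (l : ℕ)
  (S C : Finset (Pr F)) (N : ℕ), l.Prime → 0 < N → Disjoint S C → C.Nonempty →
  (∀ c ∈ C, (l : 𝓞 F) ∈ c.asIdeal) →
  ∃ (k : ℕ) (Z : (Pr F →₀ ℤ) →₀ ℤ), (∀ D ∈ Z.support, D ∈ off S) ∧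
    ∀ ψ : Pr F → ℂˣ, IsRay S N ψ → ∃ f, Sm S C ψ f ∧
      (l : ℂ) ^ k * f 0 = Z.sum fun D z => (z : ℂ) * ((chv ψ D : ℂˣ) : ℂ)

/-- the congruence between the values over `F` and over `F₁` -/
def SCB_st : Prop := ∀ (F₁ F : Type) [Field F₁] [NumberField F₁] [Field F] [NumberField F]
  [Algebra F₁ F] [IsTotallyReal F] (p j : ℕ) (γ : F ≃+* F) (S₁ C₁ : Finset (Pr F₁)) (l N : ℕ),
  Rel F₁ F p (γ ^ p ^ j) S₁ → l.Prime → l ≠ p → 0 < N → Disjoint S₁ C₁ → C₁.Nonempty →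
  (∀ c ∈ C₁, (l : 𝓞 F₁) ∈ c.asIdeal) →
  (∀ w, act γ w ∈ above F S₁ ↔ w ∈ above F S₁) → (∀ w, act γ w ∈ above F C₁ ↔ w ∈ above F C₁) →
  ∃ (k : ℕ) (Z : (Pr F →₀ ℤ) →₀ ℤ), (∀ D ∈ Z.support, D ∈ off (above F S₁)) ∧
    ∀ ψ : Pr F → ℂˣ, IsRay (above F S₁) N ψ → ∀ f f₁, Sm (above F S₁) (above F C₁) ψ f →
      Sm S₁ C₁ (fun v => ∏ w ∈ above F {v}, ψ w) f₁ →
      (l : ℂ) ^ k * (f 0 - f₁ 0) = Z.sum fun D z =>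
        (z : ℂ) * ∑ t ∈ range (p ^ (j + 1)), ((chv (fun w => ψ (act (γ ^ t) w)) D : ℂˣ) : ℂ)

end Pool.Agent.MP_f3cd89_nt
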