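import Pool.Agent.MP_f3cd89_nt.CStm

/-! Algebraic lemmas for the Herbrand quotient of the units. -/

set_option autoImplicit false

open Finset

namespace Pool.Agent.MP_f3cd89_nt.UnithX

variable {A : Type} [AddCommGroup A]

theorem mem_ker_sub {σ : AddMonoid.End A} {a : A} :
    a ∈ AddMonoidHom.ker (σ - 1 : AddMonoid.End A) ↔ σ a = a :=
  (sub_eq_zero : σ a - a = 0 ↔ _)

theorem nm_apply (σ : AddMonoid.End A) (n : ℕ) (a : A) :
    nmH σ n a = ∑ i ∈ range n, (σ ^ i) a :=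
  map_sum (AddMonoidHom.eval a : (A →+ A) →+ A) _ _

theorem pow_fix {σ : AddMonoid.End A} {a : A} (h : σ a = a) (i : ℕ) : (σ ^ i) a = a := by
  induction i with
  | zero => rfl
  | succ i ih => rw [pow_succ, AddMonoid.End.coe_mul, Function.comp_apply, h, ih]

theorem pow_mem' {σ : AddMonoid.End A} {E : AddSubgroup A} (hE : ∀ a ∈ E, σ a ∈ E) {a : A}
    (h : a ∈ E) (i : ℕ) : (σ ^ i) a ∈ E := by
  induction i with
  | zero => exact h
  | succ i ih => rw [pow_succ', AddMonoid.End.coe_mul, Function.comp_apply]; exact hE _ ih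

theorem mem_ext {E : AddSubgroup A} {c x : A} :
    x ∈ E ⊔ AddSubgroup.zmultiples c ↔ ∃ e ∈ E, ∃ k : ℤ, e + k • c = x := by
  rw [AddSubgroup.mem_sup]
  exact ⟨fun ⟨e, he, _, ⟨k, hk⟩, h⟩ => ⟨e, he, k, by rw [← h, ← hk]⟩,
    fun ⟨e, he, k, h⟩ => ⟨e, he, _, ⟨k, rfl⟩, h⟩⟩

/-- adjoining a fixed element of infinite order -/
theorem adj (σ : AddMonoid.End A) {n : ℕ} (hn : n ≠ 0) (E : AddSubgroup A) (c : A)
    (hE : ∀ a ∈ E, σ a ∈ E) (hc : σ c = c) (hi : ∀ k : ℤ, k • c ∈ E → k = 0) :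
    hz σ n (E ⊔ AddSubgroup.zmultiples c) = n * hz σ n E ∧
      ho σ n (E ⊔ AddSubgroup.zmultiples c) = ho σ n E := by
  have hN : ∀ (e : A) (k : ℤ), nmH σ n (e + k • c) = nmH σ n e + (k * n) • c := fun e k => by
    rw [map_add, map_zsmul, nm_apply σ n c, sum_congr rfl fun i _ => pow_fix hc i, sum_const,
      card_range, mul_smul, natCast_zsmul]
  have hS : ∀ (e : A) (k : ℤ), σ (e + k • c) = σ e + k • c := fun e k => by
    rw [map_add, map_zsmul, hc]
  have hNE : ∀ e ∈ E, nmH σ n e ∈ E := fun e he => by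
    rw [nm_apply]
    exact sum_mem fun i _ => pow_mem' hE he i
  constructor
  · let E0 := E ⊓ AddMonoidHom.ker (σ - 1 : AddMonoid.End A)
    let f : E0 × ℤ →+ A := E0.subtype.coprod (zmultiplesHom A c)
    have hf : ∀ x : E0 × ℤ, f x = x.1 + x.2 • c := fun _ => rfl
    have e1 : (E ⊔ AddSubgroup.zmultiples c) ⊓ AddMonoidHom.ker (σ - 1 : AddMonoid.End A) =
        f.range := by
      ext x
      rw [AddSubgroup.mem_inf, mem_ext, mem_ker_sub]
      constructor
      · rintro ⟨⟨e, he, k, rfl⟩, h⟩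
        rw [hS, add_left_inj] at h
        exact ⟨(⟨e, he, mem_ker_sub.2 h⟩, k), rfl⟩
      · rintro ⟨⟨e, k⟩, rfl⟩
        exact ⟨⟨e, e.2.1, k, rfl⟩, by rw [hf, hS, mem_ker_sub.1 e.2.2]⟩
    have e2 : ((E ⊔ AddSubgroup.zmultiples c).map (nmH σ n)).comap f =
        ((E.map (nmH σ n)).addSubgroupOf E0).prod (AddSubgroup.zmultiples (n : ℤ)) := by
      ext ⟨e, k⟩
      rw [AddSubgroup.mem_comap, AddSubgroup.mem_prod, AddSubgroup.mem_addSubgroupOf, hf]
      constructor
      · rintro ⟨_, hx, h⟩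
        obtain ⟨e', he', k', rfl⟩ := mem_ext.1 hx
        have h' : nmH σ n e' + (k' * n) • c = e + k • c := (hN e' k').symm.trans h
        have h1 : (k' * n - k) • c = e - nmH σ n e' := by
          rw [sub_smul, sub_eq_sub_iff_add_eq_add, add_comm, h']
        have h2 := sub_eq_zero.1 (hi _ (h1 ▸ E.sub_mem e.2.1 (hNE e' he')))
        rw [h2, add_left_inj] at h'
        exact ⟨⟨e', he', h'⟩, k', h2⟩
      · rintro ⟨⟨e', he', h⟩, k', hk⟩
        refine ⟨e' + k' • c, mem_ext.2 ⟨e', he', k', rfl⟩, (hN e' k').trans ?_⟩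
        rw [show k' * n = k from hk]
        exact congrArg (· + k • c) h
    rw [hz, e1, ← AddSubgroup.index_comap, e2, AddSubgroup.index_prod, Int.index_zmultiples,
      Int.natAbs_natCast, mul_comm]
    rfl
  · have e1 : (E ⊔ AddSubgroup.zmultiples c).map (σ - 1 : AddMonoid.End A) =
        E.map (σ - 1 : AddMonoid.End A) := by
      refine le_antisymm ?_ (AddSubgroup.map_mono le_sup_left)
      rintro _ ⟨x, hx, rfl⟩
      obtain ⟨e, he, k, rfl⟩ := mem_ext.1 hx
      refine ⟨e, he, ?_⟩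
      change σ e - e = σ (e + k • c) - (e + k • c)
      rw [hS, add_sub_add_right_eq_sub]
    have e2 : (E ⊔ AddSubgroup.zmultiples c) ⊓ AddMonoidHom.ker (nmH σ n) =
        E ⊓ AddMonoidHom.ker (nmH σ n) := by
      refine le_antisymm ?_ (inf_le_inf_right _ le_sup_left)
      rintro x ⟨hx, h⟩
      obtain ⟨e, he, k, rfl⟩ := mem_ext.1 hx
      have h1 : nmH σ n e + (k * n) • c = 0 := (hN e k).symm.trans h
      have h2 := hi (k * n) (by rw [eq_neg_of_add_eq_zero_right h1]; exact neg_mem (hNE e he))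
      obtain rfl : k = 0 := (mul_eq_zero.1 h2).resolve_right (Int.natCast_ne_zero.2 hn)
      exact ⟨by simpa using he, h⟩
    rw [ho, e1, e2, ho]

/-- a subgroup of full rank has finite index -/
theorem full {B ι : Type} [AddCommGroup B] [Module.Finite ℤ B] [Fintype ι] (Ψ : B →+ A)
    (Φ : (ι → ℤ) →+ A) (hΦ : Function.Injective Φ) (h : Φ.range ≤ Ψ.range)
    (hr : Module.finrank ℤ B ≤ Fintype.card ι) : Φ.range.relIndex Ψ.range ≠ 0 := by
  let N := LinearMap.range Ψ.toIntLinearMap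
  let Φ' : (ι → ℤ) →ₗ[ℤ] N := Φ.toIntLinearMap.codRestrict N fun f => h ⟨f, rfl⟩
  have h1 : Module.finrank ℤ (LinearMap.range Φ') = Fintype.card ι := by
    rw [LinearMap.finrank_range_of_inj fun _ _ e => hΦ (congrArg Subtype.val e),
      Module.finrank_fintype_fun_eq_card]
  have h2 := (LinearMap.range Φ').finrank_quotient_add_finrank
  have h3 : Module.finrank ℤ N ≤ Module.finrank ℤ B := LinearMap.finrank_range_le _
  have h4 : Finite (N ⧸ LinearMap.range Φ') :=
    Module.finite_of_fg_torsion _ (Module.finrank_eq_zero_iff_isTorsion.1 (by omega))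
  have e : Φ.range.addSubgroupOf Ψ.range = (LinearMap.range Φ').toAddSubgroup := by
    ext x
    exact ⟨fun ⟨f, hf⟩ => ⟨f, Subtype.ext hf⟩, fun ⟨f, hf⟩ => ⟨f, congrArg Subtype.val hf⟩⟩
  rw [AddSubgroup.relIndex, e]
  exact @AddSubgroup.index_ne_zero_of_finite _ _ _ h4

/-- a left null vector with sum zero of a matrix with negative entries off the diagonal and
vanishing row sums is zero -/
theorem null {ι : Type} [Fintype ι] (Λ : ι → ι → ℝ) (h1 : ∀ w w', w' ≠ w → Λ w w' < 0)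
    (h2 : ∀ w, ∑ w', Λ w w' = 0) (f : ι → ℝ) (h3 : ∑ w, f w = 0)
    (h4 : ∀ w', ∑ w, f w * Λ w w' = 0) (w : ι) : f w = 0 := by
  classical
  have key : ∀ w, f w ≤ 0 := fun w => by
    by_contra hw
    have a1 : ∀ v, 0 ≤ f v * ∑ w' with 0 < f w', Λ v w' := fun v => by
      rcases lt_or_ge 0 (f v) with hv | hv
      · refine mul_nonneg hv.le ?_
        have := sum_filter_add_sum_filter_not univ (fun w' => 0 < f w') (Λ v)
        have h5 : ∑ w' with ¬0 < f w', Λ v w' ≤ 0 := sum_nonpos fun u hu =>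
          (h1 v u fun e => (mem_filter.1 hu).2 (e ▸ hv)).le
        linarith [h2 v]
      · exact mul_nonneg_of_nonpos_of_nonpos hv (sum_nonpos fun u hu =>
          (h1 v u fun e => (mem_filter.1 hu).2.not_ge (e ▸ hv)).le)
    have a2 : ∑ v, f v * ∑ w' with 0 < f w', Λ v w' = 0 := by
      simp only [mul_sum]
      rw [sum_comm]
      exact sum_eq_zero fun u _ => h4 u
    have a3 := (mul_eq_zero.1 ((sum_eq_zero_iff_of_nonneg fun v _ => a1 v).1 a2 w
      (mem_univ w))).resolve_left (not_le.1 hw).ne'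
    have a4 := sum_filter_add_sum_filter_not univ (fun w' => 0 < f w') (Λ w)
    have a5 : ∀ u, 0 < f u := fun u => by
      by_contra hu
      have : ∑ w' with ¬0 < f w', Λ w w' < 0 :=
        sum_neg (fun v hv => h1 w v fun e => (mem_filter.1 hv).2 (e ▸ not_le.1 hw))
          ⟨u, mem_filter.2 ⟨mem_univ u, hu⟩⟩
      linarith [h2 w]
    exact (sum_pos (fun u _ => a5 u) ⟨w, mem_univ w⟩).ne' h3
  exact (sum_eq_zero_iff_of_nonpos fun v _ => key v).1 h3 w (mem_univ w)

section Free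

variable {G ι : Type} [Group G] [Fintype G] [Fintype ι] [MulAction G ι]

theorem nm_eq (ρ : G →* AddMonoid.End A) {γ : G} (hγ : ∀ g, g ∈ Subgroup.zpowers γ) (a : A) :
    nmH (ρ γ) (Nat.card G) a = ∑ g, ρ g a := by
  classical
  rw [nm_apply, ← IsCyclic.image_range_card hγ, sum_image]
  · simp only [map_pow]
  · rw [coe_range, ← orderOf_eq_card_of_forall_mem_zpowers hγ]
    exact pow_injOn_Iio_orderOf

omit [Fintype ι] in
theorem exists_dom (hf : ∀ (g : G) (w : ι), g • w = w → g = 1) :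
    ∃ e : ι → ℤ, ∀ w, ∑ g : G, e (g⁻¹ • w) = 1 := by
  classical
  refine ⟨fun w => if w = (Quotient.mk (MulAction.orbitRel G ι) w).out then 1 else 0, fun w => ?_⟩
  obtain ⟨g₀, h⟩ : (Quotient.mk (MulAction.orbitRel G ι) w).out ∈ MulAction.orbit G w :=
    Quotient.mk_out (s := MulAction.orbitRel G ι) w
  have e : ∀ g : G, (g⁻¹ • w = (Quotient.mk (MulAction.orbitRel G ι) (g⁻¹ • w)).out) ↔
      g = g₀⁻¹ := fun g => by
    rw [show Quotient.mk (MulAction.orbitRel G ι) (g⁻¹ • w) = Quotient.mk _ w from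
      Quotient.sound ⟨g⁻¹, rfl⟩, ← h]
    refine ⟨fun e => ?_, fun e => by rw [e, inv_inv]⟩
    exact eq_inv_of_mul_eq_one_left (hf _ w (by rw [mul_smul, ← show g⁻¹ • w = g₀ • w from e,
      smul_inv_smul]))
  simp only [e]
  simp

/-- the combination of a family with integer coefficients -/
def cmb (y : ι → A) : (ι → ℤ) →+ A := (Fintype.linearCombination ℤ y).toAddMonoidHom

theorem cmb_apply (y : ι → A) (f : ι → ℤ) : cmb y f = ∑ w, f w • y w := rfl

omit [Fintype G] in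
theorem cmb_act (ρ : G →* AddMonoid.End A) {y : ι → A} (hy : ∀ g w, ρ g (y w) = y (g • w))
    (g : G) (f : ι → ℤ) : ρ g (cmb y f) = cmb y fun w => f (g⁻¹ • w) := by
  rw [cmb_apply, cmb_apply, map_sum]
  exact Fintype.sum_equiv (MulAction.toPerm g) _ _ fun w => by simp [hy]

theorem free (ρ : G →* AddMonoid.End A) {γ : G} (hγ : ∀ g, g ∈ Subgroup.zpowers γ)
    (hf : ∀ (g : G) (w : ι), g • w = w → g = 1) {y : ι → A} (hy : ∀ g w, ρ g (y w) = y (g • w))
    (hi : Function.Injective (cmb y)) :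
    hz (ρ γ) (Nat.card G) (cmb y).range = 1 ∧ ho (ρ γ) (Nat.card G) (cmb y).range = 1 := by
  obtain ⟨e, he⟩ := exists_dom hf
  have hp : ∀ g : G, ∃ i : ℕ, ρ g = ρ γ ^ i := fun g => by
    obtain ⟨i, rfl⟩ := mem_powers_iff_mem_zpowers.2 (hγ g)
    exact ⟨i, map_pow _ _ _⟩
  constructor
  · rw [hz, AddSubgroup.relIndex_eq_one]
    rintro _ ⟨⟨f, rfl⟩, h⟩
    have h1 : ∀ (g : G) (w : ι), f (g⁻¹ • w) = f w := fun g => by
      obtain ⟨i, h2⟩ := hp g
      refine congrFun (hi ((cmb_act ρ hy g f).symm.trans ?_))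
      rw [h2, pow_fix (mem_ker_sub.1 h)]
    refine ⟨cmb y fun w => e w * f w, ⟨_, rfl⟩, (nm_eq ρ hγ _).trans ?_⟩
    simp only [cmb_act ρ hy, h1]
    rw [← map_sum]
    congr 1
    ext w
    rw [Finset.sum_apply, ← sum_mul, he, one_mul]
  · rw [ho, AddSubgroup.relIndex_eq_one]
    rintro _ ⟨⟨f, rfl⟩, h⟩
    have h1 : ∀ w, ∑ g : G, f (g • w) = 0 := fun w => by
      have h2 : ∑ g, ρ g (cmb y f) = 0 := (nm_eq ρ hγ _).symm.trans h
      simp only [cmb_act ρ hy] at h2
      rw [← map_sum, map_eq_zero_iff _ hi] at h2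
      rw [← Equiv.sum_comp (Equiv.inv G)]
      exact (Finset.sum_apply w univ _).symm.trans (congrFun h2 w)
    have h2 : ∀ (g : G) (x : A), x ∈ (cmb y).range →
        ρ g x - x ∈ (cmb y).range.map (ρ γ - 1 : AddMonoid.End A) := fun g x hx => by
      obtain ⟨i, h3⟩ := hp g
      rw [h3]
      clear h3
      induction i with
      | zero => simp
      | succ i ih =>
        rw [← sub_add_sub_cancel _ ((ρ γ ^ i) x), pow_succ']
        refine add_mem ⟨(ρ γ ^ i) x, pow_mem' ?_ hx i, rfl⟩ ih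
        rintro _ ⟨f', rfl⟩
        exact ⟨_, (cmb_act ρ hy γ f').symm⟩
    have h3 := sum_mem (t := univ) fun g _ => h2 g (cmb y fun w => e w * f (g • w)) ⟨_, rfl⟩
    simp only [cmb_act ρ hy, smul_inv_smul] at h3
    rw [sum_sub_distrib, ← map_sum, ← map_sum, ← map_sub] at h3
    convert h3 using 2
    ext w
    rw [Pi.sub_apply, Finset.sum_apply, Finset.sum_apply, ← sum_mul, ← mul_sum, he, h1]
    simp

end Free

end Pool.Agent.MP_f3cd89_nt.UnithX
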