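import Pool.Agent.MP_f3cd89_nt.CStm

/-! The algebraic part of the construction of a subgroup with trivial first cohomology. -/

set_option autoImplicit false

open Finset

namespace Pool.Agent.MP_f3cd89_nt.VlatX

variable {L G : Type} [Field L] [Group G] [MulSemiringAction G L]

theorem ncm (Λ : AddSubgroup L) (c : ℕ) {l : L} (hl : l ∈ Λ) : (c : L) * l ∈ Λ := by
  rw [← nsmul_eq_mul]
  exact nsmul_mem hl c

theorem smul_one_add (g : G) (c : ℕ) (l : L) : g • (1 + (c : L) * l) = 1 + (c : L) * g • l := by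
  rw [smul_add, smul_one, smul_mul', ← nsmul_one, smul_comm, smul_one]

theorem pow_st (γ : G) (Λ : AddSubgroup L) (hst : ∀ l ∈ Λ, γ • l ∈ Λ) (j : ℕ) :
    ∀ l ∈ Λ, γ ^ j • l ∈ Λ := by
  induction j with
  | zero => intro l hl; simpa using hl
  | succ j ih => intro l hl; rw [pow_succ', mul_smul]; exact hst _ (ih l hl)

theorem prod_conj (γ : G) (Λ : AddSubgroup L) (hst : ∀ l ∈ Λ, γ • l ∈ Λ)
    (hmul : ∀ l ∈ Λ, ∀ l' ∈ Λ, l * l' ∈ Λ) (c : ℕ) (l : L) (hl : l ∈ Λ) (m : ℕ) :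
    ∃ l' ∈ Λ, ∏ j ∈ range m, γ ^ j • (1 + (c : L) * l) =
      1 + (c : L) * ∑ j ∈ range m, γ ^ j • l + (c : L) ^ 2 * l' := by
  induction m with
  | zero => exact ⟨0, zero_mem _, by simp⟩
  | succ m ih =>
    obtain ⟨l', hl', e⟩ := ih
    have hs : ∑ j ∈ range m, γ ^ j • l ∈ Λ := sum_mem fun j _ => pow_st γ Λ hst j l hl
    have ht := pow_st γ Λ hst m l hl
    refine ⟨l' + (∑ j ∈ range m, γ ^ j • l) * γ ^ m • l + (c : L) * (l' * γ ^ m • l),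
      add_mem (add_mem hl' (hmul _ hs _ ht)) (ncm Λ c (hmul _ hl' _ ht)), ?_⟩
    rw [prod_range_succ, sum_range_succ, e, smul_one_add]
    ring

theorem h90 [CharZero L] (γ : G) (n M0 : ℕ) (hn : 0 < n) (Λ : AddSubgroup L)
    (hst : ∀ l ∈ Λ, γ • l ∈ Λ) (hmul : ∀ l ∈ Λ, ∀ l' ∈ Λ, l * l' ∈ Λ) (κ : L) (hκ : κ ∈ Λ)
    (z : L) (hz : z = 1 + (((n * M0) ^ 2 : ℕ) : L) * κ) (h : ∏ j ∈ range n, γ ^ j • z = 1) :
    ∃ β ∈ Λ, z * γ • (1 + ((n * M0 : ℕ) : L) * β) = 1 + ((n * M0 : ℕ) : L) * β := by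
  have hc : ∀ m, ∃ k ∈ Λ, ∏ j ∈ range m, γ ^ j • z = 1 + (((n * M0) ^ 2 : ℕ) : L) * k := by
    intro m
    obtain ⟨l', hl', e⟩ := prod_conj γ Λ hst hmul ((n * M0) ^ 2) κ hκ m
    refine ⟨∑ j ∈ range m, γ ^ j • κ + (((n * M0) ^ 2 : ℕ) : L) * l',
      add_mem (sum_mem fun j _ => pow_st γ Λ hst j κ hκ) (ncm Λ _ hl'), ?_⟩
    rw [hz, e]
    ring
  choose k hk ek using hc
  have n0 : (n : L) ≠ 0 := Nat.cast_ne_zero.2 hn.ne'
  refine ⟨(M0 : L) * ∑ m ∈ range n, k m, ncm Λ _ (sum_mem fun m _ => hk m), ?_⟩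
  have e1 : (n : L) * (1 + ((n * M0 : ℕ) : L) * ((M0 : L) * ∑ m ∈ range n, k m)) =
      ∑ m ∈ range n, ∏ j ∈ range m, γ ^ j • z := by
    simp only [ek, sum_add_distrib, ← mul_sum, sum_const, card_range, nsmul_eq_mul]
    push_cast
    ring
  have e2 : ∀ m, z * γ • ∏ j ∈ range m, γ ^ j • z = ∏ j ∈ range (m + 1), γ ^ j • z := by
    intro m
    rw [prod_range_succ', smul_prod', pow_zero, one_smul, mul_comm]
    simp only [pow_succ', mul_smul]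
  have e3 : ∀ y : L, γ • ((n : L) * y) = n * γ • y := fun y => by
    rw [← nsmul_eq_mul, ← nsmul_eq_mul, smul_comm]
  apply mul_left_cancel₀ n0
  rw [mul_left_comm, ← e3, e1, smul_sum, mul_sum]
  simp only [e2]
  have e4 := sum_range_succ' (fun m => ∏ j ∈ range m, γ ^ j • z) n
  rw [sum_range_succ, h, range_zero, prod_empty] at e4
  exact (add_right_cancel e4).symm

theorem core [CharZero L] (γ : G) (n M0 : ℕ) (hn : 0 < n) (hγ : γ ^ n = 1) (Λ : AddSubgroup L)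
    (hst : ∀ l ∈ Λ, γ • l ∈ Λ) (hmul : ∀ l ∈ Λ, ∀ l' ∈ Λ, l * l' ∈ Λ) (M : ℕ) (hM : M = n * M0)
    (M0' : M0 ≠ 0) (hne : ∀ l ∈ Λ, 1 + (M : L) * l ≠ 0)
    (hdiv : ∀ l ∈ Λ, ∀ l' ∈ Λ, l' / (1 + (M : L) * l) ∈ Λ)
    (hH : ∀ l ∈ Λ, ∀ l' ∈ Λ, ∑ j ∈ range n, γ ^ j • l = (M : L) * l' →
      ∃ μ ∈ Λ, ∃ ν ∈ Λ, l = γ • μ - μ + (M : L) * ν)
    (l : L) (hl : l ∈ Λ) (h : ∏ j ∈ range n, γ ^ j • (1 + (M : L) * l) = 1) :
    ∃ β ∈ Λ, ∃ μ ∈ Λ, (1 + (M : L) * l) * (1 + (M : L) * μ) * γ • (1 + (M : L) * β) =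
      (1 + (M : L) * β) * γ • (1 + (M : L) * μ) := by
  have MM : (M : L) ≠ 0 := Nat.cast_ne_zero.2 (hM ▸ mul_ne_zero hn.ne' M0')
  obtain ⟨l', hl', e⟩ := prod_conj γ Λ hst hmul M l hl n
  obtain ⟨μ, hμ, ν, hν, e'⟩ := hH l hl (-l') (neg_mem hl') (by
    apply mul_left_cancel₀ MM
    linear_combination h - e)
  have y0 := hne _ (hst μ hμ)
  obtain ⟨β, hβ, eβ⟩ := h90 γ n M0 hn Λ hst hmul ((ν + l * μ) / (1 + (M : L) * γ • μ))
    (hdiv _ (hst μ hμ) _ (add_mem hν (hmul _ hl _ hμ)))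
    ((1 + (M : L) * l) * (1 + (M : L) * μ) / (1 + (M : L) * γ • μ)) (by
      rw [← hM]
      push_cast
      field_simp
      linear_combination (M : L) * e') (by
      rw [← smul_one_add]
      simp only [smul_div₀', smul_mul' (γ ^ _) (1 + (M : L) * l), prod_div_distrib,
        prod_mul_distrib, h, one_mul, ← mul_smul, ← pow_succ]
      have e4 := prod_range_succ' (fun j => γ ^ j • (1 + (M : L) * μ)) n
      rw [prod_range_succ, hγ, pow_zero, one_smul] at e4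
      rw [← mul_right_cancel₀ (hne μ hμ) e4]
      refine div_self (prod_ne_zero_iff.2 fun j _ => ?_)
      rw [smul_one_add]
      exact hne _ (pow_st γ Λ hst j μ hμ))
  refine ⟨β, hβ, μ, hμ, ?_⟩
  rw [← hM] at eβ
  rw [div_mul_eq_mul_div, div_eq_iff y0] at eβ
  rw [smul_one_add γ M μ, eβ]

theorem coe_sA_pow (γ : G) (i : ℕ) (a : Additive Lˣ) :
    ((Additive.toMul ((sA γ ^ i : AddMonoid.End (Additive Lˣ)) a) : Lˣ) : L) =
      γ ^ i • ((Additive.toMul a : Lˣ) : L) := by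
  induction i with
  | zero => simp
  | succ i ih => rw [pow_succ', pow_succ', mul_smul, ← ih]; rfl

theorem coe_nmH (γ : G) (n : ℕ) (a : Additive Lˣ) :
    ((Additive.toMul (nmH (sA γ) n a) : Lˣ) : L) =
      ∏ j ∈ range n, γ ^ j • ((Additive.toMul a : Lˣ) : L) := by
  induction n with
  | zero => simp [nmH]
  | succ n ih =>
    rw [prod_range_succ, ← ih, ← coe_sA_pow, nmH, nmH, sum_range_succ]
    rfl

theorem exists_V [CharZero L] (γ : G) (n M0 : ℕ) (hn : 0 < n) (hγ : γ ^ n = 1)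
    (Λ : AddSubgroup L) (hst : ∀ l ∈ Λ, γ • l ∈ Λ) (hmul : ∀ l ∈ Λ, ∀ l' ∈ Λ, l * l' ∈ Λ) (M : ℕ)
    (hM : M = n * M0) (M0' : M0 ≠ 0) (hne : ∀ l ∈ Λ, 1 + (M : L) * l ≠ 0)
    (hdiv : ∀ l ∈ Λ, ∀ l' ∈ Λ, l' / (1 + (M : L) * l) ∈ Λ)
    (hH : ∀ l ∈ Λ, ∀ l' ∈ Λ, ∑ j ∈ range n, γ ^ j • l = (M : L) * l' →
      ∃ μ ∈ Λ, ∃ ν ∈ Λ, l = γ • μ - μ + (M : L) * ν) :
    ∃ V : AddSubgroup (Additive Lˣ),
      (∀ a, a ∈ V ↔ ∃ l ∈ Λ, ((Additive.toMul a : Lˣ) : L) = 1 + (M : L) * l) ∧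
      (∀ a ∈ V, sA γ a ∈ V) ∧ ∀ a ∈ V, nmH (sA γ) n a = 0 → ∃ b ∈ V, a = sA γ b - b := by
  let V : AddSubgroup (Additive Lˣ) :=
    { carrier := {a | ∃ l ∈ Λ, ((Additive.toMul a : Lˣ) : L) = 1 + (M : L) * l}
      zero_mem' := ⟨0, zero_mem _, by simp⟩
      add_mem' := by
        rintro a b ⟨l, hl, e⟩ ⟨l', hl', e'⟩
        refine ⟨l + l' + (M : L) * (l * l'), add_mem (add_mem hl hl') (ncm Λ _ (hmul _ hl _ hl')), ?_⟩
        rw [toMul_add, Units.val_mul, e, e']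
        ring
      neg_mem' := by
        rintro a ⟨l, hl, e⟩
        refine ⟨-(l / (1 + (M : L) * l)), neg_mem (hdiv _ hl _ hl), ?_⟩
        have := hne l hl
        rw [toMul_neg, Units.val_inv_eq_inv_val, e]
        field_simp
        ring }
  have hV : ∀ a, a ∈ V ↔ ∃ l ∈ Λ, ((Additive.toMul a : Lˣ) : L) = 1 + (M : L) * l :=
    fun a => Iff.rfl
  have hs : ∀ a : Additive Lˣ, ((Additive.toMul (sA γ a) : Lˣ) : L) =
      γ • ((Additive.toMul a : Lˣ) : L) := fun a => rfl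
  refine ⟨V, hV, ?_, ?_⟩
  · rintro a ⟨l, hl, e⟩
    exact ⟨γ • l, hst l hl, by rw [hs, e, smul_one_add]⟩
  · rintro a ⟨l, hl, e⟩ h
    obtain ⟨β, hβ, μ, hμ, e'⟩ := core γ n M0 hn hγ Λ hst hmul M hM M0' hne hdiv hH l hl (by
      rw [← e, ← coe_nmH, h]
      rfl)
    let y : Additive Lˣ := Additive.ofMul (Units.mk0 _ (hne μ hμ))
    let b : Additive Lˣ := Additive.ofMul (Units.mk0 _ (hne β hβ))
    refine ⟨y - b, sub_mem ⟨μ, hμ, rfl⟩ ⟨β, hβ, rfl⟩, ?_⟩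
    have e1 : a + y + sA γ b = b + sA γ y := by
      apply Additive.toMul.injective
      apply Units.ext
      rw [toMul_add, toMul_add, toMul_add, Units.val_mul, Units.val_mul, Units.val_mul, hs, hs, e]
      exact e'
    rw [map_sub, eq_sub_of_add_eq (eq_sub_of_add_eq e1)]
    abel

end Pool.Agent.MP_f3cd89_nt.VlatX
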